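import Pool.Agent.Mg.F85ce7b.G1aa576

section

namespace Pool.Agent.MP_85ce7b_lc

open Set Cardinal Ordinal

/-- Raw conditions all of whose data are below `b`. -/
def RB (b : Od) : Set Raw :=
  {r | r.c ⊆ Iio b ∧ (∀ x i v, (i, v) ∈ r.h x → x < b ∧ i < b ∧ v < b) ∧
    ∀ x L, r.l x = some L → x < b ∧ L.A ⊆ Iio b ∧ L.F ⊆ Cube b ∧ L.s ⊆ Iio b}

/-- A raw condition as a set of tuples. -/
def encR (r : Raw) : Set (ULift.{2} ℕ × Od × Od × Od × Od) :=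
  {z | z.2.1 = z.2.2.2.2 ∧ z.2.2.1 = z.2.2.2.2 ∧ z.2.2.2.1 = z.2.2.2.2 ∧
      ((z.1.down = 0 ∧ z.2.1 ∈ r.c) ∨ (z.1.down = 1 ∧ ∃ L, r.l z.2.1 = some L)) ∨
    (z.1.down = 2 ∧ z.2.1 = z.2.2.2.2 ∧ (z.2.2.1, z.2.2.2.1) ∈ r.h z.2.1) ∨
    ∃ L, r.l z.2.1 = some L ∧ ((z.1.down = 3 ∧ z.2.2 ∈ L.F) ∨
      z.2.2.1 = z.2.2.2.2 ∧ z.2.2.2.1 = z.2.2.2.2 ∧
        ((z.1.down = 4 ∧ z.2.2.1 ∈ L.A) ∨ (z.1.down = 5 ∧ z.2.2.1 ∈ L.s)))}

theorem encR_inj : Function.Injective encR := by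
  intro r r' h
  have k := Set.ext_iff.1 h
  refine Raw.ext (Set.ext fun x => by simpa [encR] using k (⟨0⟩, x, x, x, x))
    (funext fun x => Set.ext fun z => by simpa [encR] using k (⟨2⟩, x, z.1, z.2, x))
    (funext fun x => ?_)
  have k₁ := k (⟨1⟩, x, x, x, x)
  rcases e : r.l x with _ | L <;> rcases e' : r'.l x with _ | L'
  · rfl
  · simp [encR, e, e'] at k₁
  · simp [encR, e, e'] at k₁
  · refine congrArg some (Lo.ext (Set.ext fun y => ?_) (Set.ext fun y => ?_) (Set.ext fun y => ?_))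
    · simpa [encR, e, e'] using k (⟨4⟩, x, y, y, y)
    · simpa [encR, e, e'] using k (⟨3⟩, x, y)
    · simpa [encR, e, e'] using k (⟨5⟩, x, y, y, y)

theorem mk_RB (b : Od) : Cardinal.mk (RB b) ≤ lift.{2} (2 ^ max ℵ₀ b.card) := by
  let K : Set (ULift.{2} ℕ × Od × Od × Od × Od) := Set.univ ×ˢ Iio b ×ˢ Iio b ×ˢ Iio b ×ˢ Iio b
  have h₁ : ∀ r ∈ RB b, encR r ∈ 𝒫 K := by
    rintro r ⟨k₁, k₂, k₃⟩ ⟨n, x, y, z, w⟩ hz
    simp only [encR, mem_ofPred_eq] at hz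
    simp only [K, mem_prod, mem_univ, mem_Iio, true_and]
    rcases hz with ⟨rfl, rfl, rfl, ⟨-, h⟩ | ⟨-, L, h⟩⟩ | ⟨-, rfl, h⟩ |
      ⟨L, h, ⟨-, h'⟩ | ⟨rfl, rfl, ⟨-, h'⟩ | ⟨-, h'⟩⟩⟩
    · exact ⟨k₁ h, k₁ h, k₁ h, k₁ h⟩
    · exact ⟨(k₃ _ _ h).1, (k₃ _ _ h).1, (k₃ _ _ h).1, (k₃ _ _ h).1⟩
    · exact ⟨(k₂ _ _ _ h).1, (k₂ _ _ _ h).2.1, (k₂ _ _ _ h).2.2, (k₂ _ _ _ h).1⟩
    · exact ⟨(k₃ _ _ h).1, (k₃ _ _ h).2.2.1 h'⟩
    · exact ⟨(k₃ _ _ h).1, (k₃ _ _ h).2.1 h', (k₃ _ _ h).2.1 h', (k₃ _ _ h).2.1 h'⟩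
    · exact ⟨(k₃ _ _ h).1, (k₃ _ _ h).2.2.2 h', (k₃ _ _ h).2.2.2 h', (k₃ _ _ h).2.2.2 h'⟩
  have h₂ : Cardinal.mk K ≤ lift.{2} (max ℵ₀ b.card) := by
    have h₀ : ℵ₀ ≤ lift.{2} (max ℵ₀ b.card) := aleph0_le_lift.2 (le_max_left _ _)
    have h₃ : Cardinal.mk (Iio b) ≤ lift.{2} (max ℵ₀ b.card) := by
      rw [Cardinal.mk_Iio_ordinal]; exact lift_le.2 (le_max_right _ _)
    simp only [K, mk_setProd]
    exact mul_le_of_le h₀ (mk_le_aleph0.trans h₀) (mul_le_of_le h₀ h₃ (mul_le_of_le h₀ h₃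
      (mul_le_of_le h₀ h₃ h₃)))
  refine (mk_le_of_injective (f := fun r : RB b => (⟨encR r, h₁ r r.2⟩ : 𝒫 K))
    fun r r' h => Subtype.ext (encR_inj (congrArg Subtype.val h))).trans ?_
  rw [mk_powerset, lift_two_power]
  exact power_le_power_left two_ne_zero h₂

theorem Inac.lt_of_card {η x : Od} (h : Inac η) (hx : x.card < η.card) : x < η := by
  rw [← h.ord_card]; exact lt_ord.2 hx

theorem Inac.card_lt {η x : Od} (h : Inac η) (hx : x < η) : x.card < η.card := by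
  rw [← lt_ord, h.ord_card]; exact hx

theorem Inac.inacc {η : Od} (h : Inac η) : η.card.IsInaccessible := by
  obtain ⟨k, hk, rfl⟩ := h
  rwa [card_ord]

theorem Inac.two_pow_lt {η : Od} (h : Inac η) {c : Cardinal.{1}} (hc : c < η.card) :
    2 ^ c < η.card := h.inacc.isStrongLimit.isStrongPrelimit hc

/-- An injective pairing function on the ordinals. -/
noncomputable def opair (z : Od × Od) : Od := ω ^ (z.1 + z.2 + 1) + z.1

theorem opair_inj : Function.Injective opair := by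
  rintro ⟨a, i⟩ ⟨b, j⟩ h
  have k : ∀ a i : Od, a < ω ^ (a + i + 1) := fun a i =>
    ((le_self_add.trans_lt (lt_add_one _))).trans_le (right_le_opow _ one_lt_omega0)
  have k' : ∀ a i b j : Od, a + i + 1 < b + j + 1 → opair (a, i) < opair (b, j) := by
    intro a i b j e
    have e' := (opow_lt_opow_iff_right one_lt_omega0).2 e
    exact (isPrincipal_add_omega0_opow _ e' ((k a i).trans e')).trans_le le_self_add
  have e : a + i + 1 = b + j + 1 := le_antisymm (not_lt.1 fun e => (k' _ _ _ _ e).ne' h)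
    (not_lt.1 fun e => (k' _ _ _ _ e).ne h)
  simp only [opair, e] at h
  obtain rfl := add_left_cancel h
  have e₂ : a + i = a + j := Order.succ_injective (by simpa using e)
  rw [add_left_cancel e₂]

theorem Inac.opair_lt {η a i : Od} (h : Inac η) (ha : a < η) (hi : i < η) : opair (a, i) < η := by
  have h₀ := h.inacc.aleph0_lt
  have h₁ := h.card_lt ha
  refine h.lt_of_card ?_
  simp only [opair, card_add]
  refine add_lt_of_lt h₀.le ((card_opow_le_of_omega0_le_left le_rfl _).trans_lt (max_lt ?_ ?_)) h₁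
  · simpa using h₀
  · simp only [card_add, card_one]
    exact add_lt_of_lt h₀.le (add_lt_of_lt h₀.le h₁ (h.card_lt hi)) (one_lt_aleph0.trans h₀)

instance : Nonempty Raw := ⟨itv 0 0⟩

theorem exists_dec : ∃ dec : Od → Raw, ∀ η r, Inac η → Bdd η r → ∃ ξ < η, dec ξ = r := by
  choose e he using fun b => exists_enum_of_le (mk_RB b)
  refine ⟨fun ξ => e (Function.invFun opair ξ).1 (Function.invFun opair ξ).2,
    fun η r h ⟨b, h₁, h₂⟩ => ?_⟩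
  obtain ⟨i, h₃, rfl⟩ := he b r h₂
  refine ⟨opair (b, i), h.opair_lt h₁ (h₃.trans (h.lt_of_card ?_)), ?_⟩
  · rw [card_ord]
    exact h.two_pow_lt (max_lt h.inacc.aleph0_lt (h.card_lt h₁))
  · simp only [Function.leftInverse_invFun opair_inj (b, i)]

end Pool.Agent.MP_85ce7b_lc

end

section

namespace Pool.Agent.MP_85ce7b_lc

open Set Cardinal Ordinal Filter

/-- A fine, normal, `κ`-complete ultrafilter on the small subsets of `lam`. -/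
structure SCO (κ lam : Od) (U : Ultrafilter (Set Od)) : Prop where
  sub : {X | X ⊆ Iio lam} ∈ U
  card : {X : Set Od | Cardinal.mk X < lift.{2} κ.card} ∈ U
  fine : ∀ a < lam, {X | a ∈ X} ∈ U
  comp : ∀ ζ < κ, ∀ Z : Od → Set (Set Od), (∀ i < ζ, Z i ∈ U) → {X | ∀ i < ζ, X ∈ Z i} ∈ U
  nor : ∀ f : Set Od → Od, {X | f X ∈ X} ∈ U → ∃ a, {X | f X = a} ∈ U

theorem exists_sco {κ θ : Cardinal.{1}} (sc : ∀ T : Type 1, Cardinal.mk T < θ → SCOn κ T)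
    {lam : Od} (h : lam < θ.ord) : ∃ U, SCO κ.ord lam U := by
  classical
  obtain ⟨U, h₁, h₂, h₃, h₄⟩ := sc lam.ToType (by rw [mk_toType]; exact lt_ord.1 h)
  let j : lam.ToType → Od := fun t => ((Ordinal.ToType.mk (o := lam)).symm t).1
  have j₁ : Function.Injective j := fun a b e =>
    (Ordinal.ToType.mk (o := lam)).symm.injective (Subtype.ext e)
  refine ⟨U.map (fun X => j '' X), ?_, ?_, fun a ha => ?_, fun ζ hζ Z hZ => ?_, fun f hf => ?_⟩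
  · refine Ultrafilter.mem_map.2 (Filter.univ_mem' fun X => ?_)
    rintro _ ⟨t, -, rfl⟩
    exact ((Ordinal.ToType.mk (o := lam)).symm t).2
  · refine Ultrafilter.mem_map.2 (Filter.mem_of_superset h₁ fun X hX => ?_)
    have := mk_image_le_lift (f := j) (s := X)
    rw [Cardinal.lift_id'.{1, 2}] at this
    show Cardinal.mk (j '' X) < _
    rw [card_ord]
    exact this.trans_lt (lift_lt.2 hX)
  · exact Ultrafilter.mem_map.2 (Filter.mem_of_superset (h₂ (Ordinal.ToType.mk ⟨a, ha⟩))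
      fun X hX => ⟨_, hX, by simp [j]⟩)
  · let Z' : ζ.ToType → Set (Set lam.ToType) := fun i =>
      (fun X => j '' X) ⁻¹' Z ((Ordinal.ToType.mk (o := ζ)).symm i).1
    refine Ultrafilter.mem_map.2 (Filter.mem_of_superset (h₃ (range Z') (mk_range_le.trans_lt ?_) ?_)
      fun X hX i hi => ?_)
    · rw [mk_toType]; exact lt_ord.1 hζ
    · rintro _ ⟨i, rfl⟩
      exact Ultrafilter.mem_map.1 (hZ _ ((Ordinal.ToType.mk (o := ζ)).symm i).2)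
    · simpa [Z'] using hX _ ⟨Ordinal.ToType.mk ⟨i, hi⟩, rfl⟩
  · have hf' := Ultrafilter.mem_map.1 hf
    obtain ⟨X₀, t₀, -⟩ := U.nonempty_of_mem hf'
    have : Nonempty lam.ToType := ⟨t₀⟩
    obtain ⟨t, ht⟩ := h₄ (fun X => Function.invFun j (f (j '' X)))
      (Filter.mem_of_superset hf' fun X ⟨t, k₁, k₂⟩ => by
        show Function.invFun j _ ∈ X
        rw [← k₂, Function.leftInverse_invFun j₁ t]
        exact k₁)
    refine ⟨j t, Ultrafilter.mem_map.2 ?_⟩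
    filter_upwards [hf', ht] with X ⟨t', _, k₂⟩ k₃
    show f _ = _
    rw [← k₃, ← k₂, Function.leftInverse_invFun j₁ t']

/-- A statement about all objects holds almost everywhere once it holds along every choice. -/
theorem ev_all {X β : Type*} [Nonempty β] {F : Filter X} {Φ : β → X → Prop}
    (h : ∀ f : X → β, ∀ᶠ x in F, Φ (f x) x) : ∀ᶠ x in F, ∀ b, Φ b x := by
  classical
  have H : ∀ x, ∃ b, Φ b x → ∀ b', Φ b' x := by
    intro x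
    by_cases hx : ∀ b', Φ b' x
    · exact ⟨Classical.arbitrary β, fun _ => hx⟩
    · obtain ⟨b, hb⟩ := not_forall.1 hx
      exact ⟨b, fun h' => absurd h' hb⟩
  choose f hf using H
  exact (h f).mono fun x hx => hf x hx

/-- An implication holds almost everywhere if the conclusion does whenever the premise does. -/
theorem ev_imp {X : Type*} {U : Ultrafilter X} {Φ Ψ : X → Prop}
    (h : (∀ᶠ x in U, Φ x) → ∀ᶠ x in U, Ψ x) : ∀ᶠ x in U, Φ x → Ψ x := by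
  by_cases k : ∀ᶠ x in (U : Filter X), Φ x
  · exact (h k).mono fun x hx _ => hx
  · exact (Ultrafilter.eventually_not.2 k).mono fun x hx h' => absurd h' hx

/-- The least ordinal not in `X`. -/
noncomputable def mu (X : Set Od) : Od := sInf Xᶜ

theorem mem_of_lt_mu {X : Set Od} {a : Od} (h : a < mu X) : a ∈ X :=
  not_not.1 (notMem_of_lt_csInf' h)

namespace SCO

variable {κ lam : Od} {U : Ultrafilter (Set Od)} (h : SCO κ lam U)
include h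

theorem all {ζ : Od} (hζ : ζ < κ) {Φ : Od → Set Od → Prop} (H : ∀ i < ζ, ∀ᶠ X in U, Φ i X) :
    ∀ᶠ X in U, ∀ i < ζ, Φ i X := h.comp ζ hζ (fun i => {X | Φ i X}) H

theorem ctbl (hκ : ω < κ) {ι : Type*} [Countable ι] {Φ : ι → Set Od → Prop}
    (H : ∀ i, ∀ᶠ X in U, Φ i X) : ∀ᶠ X in U, ∀ i, Φ i X := by
  obtain ⟨f, hf⟩ := exists_injective_nat ι
  refine (h.all hκ (Φ := fun a X => ∀ i, (f i : Od) = a → Φ i X) fun a _ => ?_).mono
    fun X hX i => hX _ (natCast_lt_omega0 _) i rfl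
  by_cases k : ∃ i, (f i : Od) = a
  · obtain ⟨i, rfl⟩ := k
    exact (H i).mono fun X hX j e => hf (Nat.cast_injective e) ▸ hX
  · exact Eventually.of_forall fun X i e => absurd ⟨i, e⟩ k

theorem const {f : Set Od → Od} (H : ∀ᶠ X in U, f X ∈ X) : ∃ a < lam, ∀ᶠ X in U, f X = a := by
  obtain ⟨a, ha⟩ := h.nor f H
  obtain ⟨X, k₁, k₂, k₃⟩ := (Eventually.and H (Eventually.and ha h.sub)).exists
  exact ⟨a, k₂ ▸ k₃ k₁, ha⟩

theorem diag {Φ : Od → Set Od → Prop} (H : ∀ a < lam, ∀ᶠ X in U, Φ a X) :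
    ∀ᶠ X in U, ∀ a ∈ X, Φ a X :=
  ev_all fun f => ev_imp fun k => by
    obtain ⟨a, h₁, h₂⟩ := h.const k
    filter_upwards [h₂, H a h₁] with X e₁ e₂
    rwa [e₁]

theorem iio {ξ : Od} (h₁ : ξ < κ) (h₂ : ξ ≤ lam) : {X | Iio ξ ⊆ X} ∈ U :=
  h.all h₁ (Φ := fun i X => i ∈ X) fun i hi => h.fine i (hi.trans_le h₂)

theorem diagL {Φ : List Od → Set Od → Prop} (H : ∀ l, (∀ x ∈ l, x < lam) → ∀ᶠ X in U, Φ l X)
    (n : ℕ) : ∀ᶠ X in U, ∀ l, l.length = n → (∀ x ∈ l, x ∈ X) → Φ l X := by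
  induction n generalizing Φ with
  | zero =>
    exact (H [] (by simp)).mono fun X hX l hl _ => List.length_eq_zero_iff.1 hl ▸ hX
  | succ n ih =>
    refine (h.diag fun a ha => ih (Φ := fun l => Φ (a :: l)) fun l hl =>
      H _ (List.forall_mem_cons.2 ⟨ha, hl⟩)).mono fun X hX l hl hl' => ?_
    obtain _ | ⟨a, l⟩ := l
    · simp at hl
    · exact hX a (hl' a List.mem_cons_self) l (by simpa using hl)
        fun x hx => hl' x (List.mem_cons_of_mem _ hx)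

/-- Almost all sets are closed under countably many operations. -/
theorem wit (hκ : ω < κ) (Φ : ℕ → List Od → Od)
    (hΦ : ∀ n l, (∀ x ∈ l, x < lam) → Φ n l < lam) :
    {X | ∀ n l, (∀ x ∈ l, x ∈ X) → Φ n l ∈ X} ∈ U :=
  (h.ctbl hκ fun z : ℕ × ℕ => h.diagL (Φ := fun l X => Φ z.1 l ∈ X)
    (fun l hl => h.fine _ (hΦ _ l hl)) z.2).mono fun _ hX n l hl => hX (n, l.length) l rfl hl

theorem diag2 {Φ : Od → Od → Set Od → Prop} (H : ∀ a < lam, ∀ b < lam, ∀ᶠ X in U, Φ a b X) :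
    ∀ᶠ X in U, ∀ a ∈ X, ∀ b ∈ X, Φ a b X := h.diag fun a ha => h.diag (H a ha)

theorem diag3 {Φ : Od → Od → Od → Set Od → Prop}
    (H : ∀ a < lam, ∀ b < lam, ∀ c < lam, ∀ᶠ X in U, Φ a b c X) :
    ∀ᶠ X in U, ∀ a ∈ X, ∀ b ∈ X, ∀ c ∈ X, Φ a b c X := h.diag fun a ha => h.diag2 (H a ha)

/-- Closure under witnesses. -/
theorem ex_mem {Φ : Od → Prop} (H : ∀ c, Φ c → c < lam) :
    ∀ᶠ X : Set Od in U, (∃ c, Φ c) → ∃ c ∈ X, Φ c :=
  ev_imp fun k =>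
    let ⟨_, c, hc⟩ := k.exists
    Filter.mem_of_superset (h.fine c (H c hc)) fun _ hX => ⟨c, hX, hc⟩

omit h in
theorem ev_iff (Φ : Set Od → Prop) : ∀ᶠ X in U, (Φ X ↔ ∀ᶠ Y in U, Φ Y) := by
  by_cases k : ∀ᶠ Y in (U : Filter (Set Od)), Φ Y
  · exact k.mono fun X hX => iff_of_true hX k
  · exact (Ultrafilter.eventually_not.2 k).mono fun X hX => iff_of_false hX k

/-- Sets of triples on `X` are traces of coded sets. -/
theorem trace (cd : Od → Set (Od × Od × Od))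
    (Φ : Set Od → Set (Od × Od × Od) → Prop)
    (hΦ : ∀ S : Set Od → Set (Od × Od × Od), {X | Φ X (S X)} ∈ U →
      ∃ c < lam, ∀ z, z ∈ cd c ↔ {X | z ∈ S X} ∈ U) :
    {X | ∀ S, Φ X S → ∃ c ∈ X, ∀ z : Od × Od × Od, z.1 ∈ X → z.2.1 ∈ X → z.2.2 ∈ X →
      (z ∈ cd c ↔ z ∈ S)} ∈ U :=
  ev_all (F := (U : Filter (Set Od))) fun S => ev_imp fun k => by
    obtain ⟨c, h₁, h₂⟩ := hΦ S k
    filter_upwards [h.fine c h₁, h.diag3 fun a _ b _ d _ => ev_iff fun X => (a, b, d) ∈ S X]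
      with X e₁ e₂
    exact ⟨c, e₁, fun z k₁ k₂ k₃ => (h₂ z).trans (e₂ _ k₁ _ k₂ _ k₃).symm⟩

theorem mu_lt : ∀ᶠ X in U, mu X < κ := by
  filter_upwards [h.card] with X hX
  by_contra k
  have := (mk_le_mk_of_subset (s := Iio κ) (t := X)
    fun a ha => mem_of_lt_mu (lt_of_lt_of_le ha (not_lt.1 k))).trans_lt hX
  rw [Cardinal.mk_Iio_ordinal] at this
  exact lt_irrefl _ this

theorem mu_notMem : ∀ᶠ X in U, mu X ∉ X := by
  filter_upwards [h.sub] with X hX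
  exact csInf_mem (s := Xᶜ) ⟨lam, fun k => lt_irrefl _ (mem_Iio.1 (hX k))⟩

theorem lt_mu (hl : κ ≤ lam) {a : Od} (ha : a < κ) : ∀ᶠ X in U, a < mu X := by
  filter_upwards [h.iio ha (ha.le.trans hl), h.fine a (ha.trans_le hl), h.mu_notMem]
    with X e₁ e₂ e₃
  rcases lt_trichotomy a (mu X) with k | k | k
  · exact k
  · exact absurd (k ▸ e₂) e₃
  · exact absurd (e₁ k) e₃

theorem lt_mu_of_mem (hl : κ ≤ lam) : ∀ᶠ X in U, ∀ a ∈ X, a < κ → a < mu X :=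
  h.diag fun _ _ => ev_imp fun k => h.lt_mu hl k.exists.choose_spec

theorem const_mu {f : Set Od → Od} (H : ∀ᶠ X in U, f X < mu X) :
    ∃ a < κ, ∀ᶠ X in U, f X = a := by
  obtain ⟨a, -, ha⟩ := h.const (H.mono fun X => mem_of_lt_mu)
  obtain ⟨X, k₁, k₂, k₃⟩ := (Eventually.and H (Eventually.and ha h.mu_lt)).exists
  exact ⟨a, k₂ ▸ k₁.trans k₃, ha⟩

theorem diag_mu {Φ : Od → Set Od → Prop} (H : ∀ a < κ, ∀ᶠ X in U, Φ a X) :
    ∀ᶠ X in U, ∀ a < mu X, Φ a X :=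
  ev_all fun f => ev_imp fun k => by
    obtain ⟨a, h₁, h₂⟩ := h.const_mu k
    filter_upwards [h₂, H a h₁] with X e₁ e₂
    rwa [e₁]

end SCO

end Pool.Agent.MP_85ce7b_lc

end

section

namespace Pool.Agent.MP_85ce7b_lc

open Set Cardinal Ordinal Filter

theorem inac_of {μ : Od} (h₀ : ω < μ) (h₁ : ∀ ν < μ, ∀ f : Od → Od, (∀ i < ν, f i < μ) →
    ∃ b < μ, ∀ i < ν, f i < b) (h₂ : ∀ a < μ, ((2 : Cardinal.{1}) ^ a.card).ord < μ) : Inac μ := by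
  have hc : μ.card.ord = μ := by
    refine le_antisymm (ord_card_le μ) (not_lt.1 fun k => ?_)
    have := card_le_card (h₂ _ k).le
    rw [card_ord, card_ord] at this
    exact (cantor _).not_ge this
  have h₃ : ℵ₀ < μ.card := by
    have := card_le_card (h₂ _ h₀).le
    rw [card_ord, card_omega0] at this
    exact (cantor _).trans_le this
  refine ⟨μ.card, ⟨h₃, ?_, fun c k => ?_⟩, hc⟩
  · rw [hc]
    by_contra k
    obtain ⟨f, k₁, k₂⟩ := exists_cof_map μ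
    obtain ⟨b, k₃, k₄⟩ := h₁ _ (by rw [← hc, ord_lt_ord, hc]; exact not_le.1 k) f k₁
    obtain ⟨i, k₅, k₆⟩ := k₂ b k₃
    exact (k₄ i k₅).not_ge k₆
  · have := h₂ c.ord (by rw [← hc]; exact ord_lt_ord.2 k)
    rw [card_ord, ← hc] at this
    exact ord_lt_ord.1 this

namespace SCO

variable {κ lam : Od} {U : Ultrafilter (Set Od)} (h : SCO κ lam U)
include h

theorem inac (h₀ : ω < κ) (hl : κ ≤ lam) (hc : κ.card.ord = κ) : Inac κ := by
  refine inac_of h₀ (fun ν hν f hf => ?_) fun a ha => ?_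
  · obtain ⟨X, k₁, k₂⟩ := ((h.all hν fun i hi => h.lt_mu hl (hf i hi)).and h.mu_lt).exists
    exact ⟨_, k₂, k₁⟩
  · by_contra k
    have : Cardinal.mk (Iio κ) ≤ Cardinal.mk (𝒫 (Iio a)) := by
      rw [mk_powerset, Cardinal.mk_Iio_ordinal, Cardinal.mk_Iio_ordinal, ← lift_two_power,
        Cardinal.lift_le, ← ord_le_ord, hc]
      exact not_lt.1 k
    obtain ⟨e⟩ := this
    let S : Set Od → Set Od := fun X => {i | ∃ hX : mu X < κ, i ∈ (e ⟨mu X, hX⟩).1}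
    have k₁ := h.all ha fun i _ => ev_iff (U := U) fun X => i ∈ S X
    obtain ⟨X, x₁, x₂⟩ := (k₁.and h.mu_lt).exists
    obtain ⟨Y, y₁, y₂, y₃⟩ := (k₁.and (h.mu_lt.and (h.lt_mu hl x₂))).exists
    have := e.injective (a₁ := ⟨mu X, x₂⟩) (a₂ := ⟨mu Y, y₂⟩) (Subtype.ext (Set.ext fun i => ?_))
    · exact y₃.ne (congrArg Subtype.val this)
    · constructor
      · intro hi
        have hia := (e ⟨mu X, x₂⟩).2 hi
        exact ((y₁ i hia).2 ((x₁ i hia).1 ⟨x₂, hi⟩)).2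
      · intro hi
        have hia := (e ⟨mu Y, y₂⟩).2 hi
        exact ((x₁ i hia).2 ((y₁ i hia).1 ⟨y₂, hi⟩)).2

theorem mu_inac (hκ : Inac κ) (hl : κ ≤ lam) : ∀ᶠ X in U, Inac (mu X) := by
  have h₁ : ∀ᶠ X in (U : Filter (Set Od)), ∀ ν < mu X, ∀ f : Od → Od, (∀ i < ν, f i < mu X) →
      ∃ b < mu X, ∀ i < ν, f i < b := by
    refine h.diag_mu fun ν hν => ev_all fun f => ev_imp fun k => ?_
    have k₁ : ∀ i, ∃ a, i < ν → a < κ ∧ ∀ᶠ X in (U : Filter (Set Od)), f X i = a := fun i => by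
      by_cases hi : i < ν
      · obtain ⟨a, ha⟩ := h.const_mu (k.mono fun X hX => hX i hi)
        exact ⟨a, fun _ => ha⟩
      · exact ⟨0, fun e => absurd e hi⟩
    choose g hg using k₁
    obtain ⟨b, b₁, b₂⟩ := hκ.bound hν g fun i hi => (hg i hi).1
    filter_upwards [h.lt_mu hl b₁, h.all hν fun i hi => (hg i hi).2] with X e₁ e₂
    exact ⟨b, e₁, fun i hi => e₂ i hi ▸ b₂ i hi⟩
  filter_upwards [h.lt_mu hl hκ.omega_lt, h₁, h.diag_mu fun a ha => h.lt_mu hl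
    (hκ.lt_of_card (x := ((2 : Cardinal.{1}) ^ a.card).ord) (by
      rw [card_ord]; exact hκ.two_pow_lt (hκ.card_lt ha)))] with X
  exact inac_of

theorem mu_si (hκ : Inac κ) (hl : κ ≤ lam) {δ : Od} (hδ : δ < κ) : ∀ᶠ X in U, SI δ (mu X) := by
  induction δ using WellFoundedLT.induction with
  | _ δ ih =>
    have k : ∀ β < δ, ∀ᶠ X in (U : Filter (Set Od)), ∀ y < mu X, ∃ z, y < z ∧ z < mu X ∧ SI β z :=
      fun β hβ => h.diag_mu fun y hy => by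
        obtain ⟨Y, k₁, k₂, k₃⟩ := ((ih β hβ (hβ.trans hδ)).and ((h.lt_mu hl hy).and h.mu_lt)).exists
        exact (h.lt_mu hl k₃).mono fun X hX => ⟨_, k₂, hX, k₁⟩
    filter_upwards [h.mu_inac hκ hl, h.all hδ k] with X e₁ e₂
    exact SI_iff.2 ⟨e₁, fun β hβ _ => e₂ β hβ⟩

theorem si (hκ : Inac κ) (hl : κ ≤ lam) {δ : Od} (hδ : δ < κ) : SI δ κ :=
  SI_iff.2 ⟨hκ, fun _ hβ _ _ hy =>
    let ⟨_, k₁, k₂, k₃⟩ := ((h.mu_si hκ hl (hβ.trans hδ)).and ((h.lt_mu hl hy).and h.mu_lt)).exists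
    ⟨_, k₂, k₃, k₁⟩⟩

end SCO

theorem Inac.omega1_lt {μ : Od} (h : Inac μ) : ω₁ < μ := by
  refine h.lt_of_card ?_
  rw [card_omega, ← succ_aleph0]
  exact h.inacc.isStrongLimit.isSuccLimit.succ_lt h.inacc.aleph0_lt

end Pool.Agent.MP_85ce7b_lc

end

section

namespace Pool.Agent.MP_85ce7b_lc

open Set Cardinal Ordinal Filter

/-- The increasing enumeration of `X`, continued by the ordinals from `lam` on. -/
noncomputable def en (lam : Od) (X : Set Od) : Od → Od := enumOrd (X ∪ Ici lam)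

/-- The collapse of `X`. -/
noncomputable def col (lam : Od) (X : Set Od) (x : Od) : Od := sInf {a | x ≤ en lam X a}

section

variable {lam : Od} {X : Set Od}

theorem W2a_unb : ¬ BddAbove (X ∪ Ici lam) := fun k =>
  not_bddAbove_Ici lam (k.mono subset_union_right)

theorem en_mono : StrictMono (en lam X) := by
  exact enumOrd_strictMono W2a_unb

theorem lt_col {a x : Od} : a < col lam X x ↔ en lam X a < x := by
  refine ⟨fun k => not_le.1 (notMem_of_lt_csInf' (s := {a | x ≤ en lam X a}) k), fun k => not_le.1 fun k' => ?_⟩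
  have : x ≤ en lam X (col lam X x) := csInf_mem (s := {a | x ≤ en lam X a}) ⟨x, en_mono.le_apply⟩
  exact k.not_ge (this.trans (en_mono.monotone k'))

theorem en_col {x : Od} (hx : x ∈ X) : en lam X (col lam X x) = x := by
  obtain ⟨a, rfl⟩ : ∃ a, en lam X a = x := enumOrd_surjective W2a_unb (Or.inl hx)
  exact congrArg _ (eq_of_forall_lt_iff fun b => lt_col.trans en_mono.lt_iff_lt)

theorem col_en (a : Od) : col lam X (en lam X a) = a := by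
  exact eq_of_forall_lt_iff fun b => lt_col.trans en_mono.lt_iff_lt

theorem en_mem {a x : Od} (hx : x ≤ lam) (ha : a < col lam X x) : en lam X a ∈ X := by
  exact (enumOrd_mem W2a_unb a).resolve_right (not_le.2 ((lt_col.1 ha).trans_le hx))

theorem col_mono : Monotone (col lam X) := by
  exact fun x y k => le_of_forall_lt fun a ha => lt_col.2 ((lt_col.1 ha).trans_le k)

theorem col_lt {x y : Od} (hx : x ∈ X) (h : x < y) : col lam X x < col lam X y := by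
  exact lt_col.2 ((en_col hx).symm ▸ h)

theorem col_succ {x : Od} (hx : x ∈ X) : col lam X (x + 1) = col lam X x + 1 := by
  refine eq_of_forall_lt_iff fun a => ?_
  rw [lt_col, Order.lt_add_one_iff, Order.lt_add_one_iff, ← en_mono.le_iff_le (a := a), en_col hx]

theorem en_of_lt_mu {a : Od} (ha : a < mu X) : en lam X a = a := by
  induction a using WellFoundedLT.induction with
  | _ a ih =>
    refine le_antisymm (enumOrd_le_of_forall_lt (Or.inl (mem_of_lt_mu ha)) fun b hb => ?_)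
      en_mono.le_apply
    exact (ih b hb (hb.trans ha)).trans_lt hb

theorem card_col {x : Od} (hx : x ≤ lam) :
    lift.{2} (col lam X x).card = Cardinal.mk (X ∩ Iio x : Set Od) := by
  rw [← Cardinal.mk_Iio_ordinal, ← mk_image_eq (en_mono (lam := lam) (X := X)).injective]
  congr 2
  ext y
  constructor
  · rintro ⟨a, ha, rfl⟩
    exact ⟨en_mem hx ha, lt_col.1 ha⟩
  · rintro ⟨k₁, k₂⟩
    exact ⟨_, col_lt k₁ k₂, en_col k₁⟩

end

namespace SCO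

variable {κ lam : Od} {U : Ultrafilter (Set Od)} (h : SCO κ lam U)
include h

theorem col_kap (hl : κ ≤ lam) : ∀ᶠ X in U, col lam X κ = mu X := by
  filter_upwards [h.lt_mu_of_mem hl, h.mu_lt] with X e₁ e₂
  refine eq_of_forall_lt_iff fun a => ⟨fun k => ?_, fun k => ?_⟩
  · exact en_mono.le_apply.trans_lt (e₁ _ (en_mem hl k) (lt_col.1 k))
  · rw [lt_col, en_of_lt_mu k]
    exact k.trans e₂

theorem col_lt_kap (hκ : κ.card.ord = κ) : ∀ᶠ X in U, col lam X lam < κ := by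
  filter_upwards [h.card] with X hX
  have := (card_col (lam := lam) (X := X) le_rfl).trans_lt
    ((mk_le_mk_of_subset inter_subset_left).trans_lt hX)
  rw [← hκ, lt_ord]
  exact Cardinal.lift_lt.1 this

theorem card_le {x y : Od} (hx : x ≤ lam) (hy : y ≤ lam) :
    (∀ᶠ X in U, (col lam X x).card ≤ (col lam X y).card) ↔ x.card ≤ y.card := by
  constructor
  · intro H
    have k : ∀ X : Set Od, ∃ g : (X ∩ Iio x : Set Od) → Od,
        (col lam X x).card ≤ (col lam X y).card →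
          (∀ a, g a ∈ X ∩ Iio y) ∧ Function.Injective g := by
      intro X
      by_cases e : (col lam X x).card ≤ (col lam X y).card
      · have e' := Cardinal.lift_le.{2}.2 e
        rw [card_col hx, card_col hy] at e'
        obtain ⟨g⟩ := e'
        exact ⟨fun a => g a, fun _ => ⟨fun a => (g a).2, Subtype.val_injective.comp g.injective⟩⟩
      · exact ⟨fun _ => 0, fun e' => absurd e' e⟩
    choose g hg using k
    have H' := H.mono hg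
    classical
    have k₂ : ∀ a : Iio x, ∃ b : Iio y, ∀ᶠ X in (U : Filter (Set Od)),
        ∃ ha : a.1 ∈ X, g X ⟨a, ha, a.2⟩ = b := by
      intro a
      have fa := h.fine a (a.2.trans_le hx)
      obtain ⟨b, -, hb⟩ := h.const (f := fun X => if ha : a.1 ∈ X then g X ⟨a, ha, a.2⟩ else 0)
        (by
          filter_upwards [fa, H'] with X e₁ e₂
          rw [dif_pos e₁]
          exact (e₂.1 _).1)
      have hb' : ∀ᶠ X in (U : Filter (Set Od)), ∃ ha : a.1 ∈ X, g X ⟨a, ha, a.2⟩ = b := by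
        filter_upwards [fa, hb] with X e₁ e₂
        rw [dif_pos e₁] at e₂
        exact ⟨e₁, e₂⟩
      obtain ⟨X, ⟨e₁, e₂⟩, e₃⟩ := (hb'.and H').exists
      exact ⟨⟨b, e₂ ▸ (e₃.1 _).2⟩, hb'⟩
    choose G hG using k₂
    have : Cardinal.mk (Iio x) ≤ Cardinal.mk (Iio y) := by
      refine mk_le_of_injective (f := G) fun a b e => ?_
      obtain ⟨X, ⟨a₁, a₂⟩, ⟨b₁, b₂⟩, e₃⟩ := ((hG a).and ((hG b).and H')).exists
      exact Subtype.ext (congrArg (fun z => z.1) (e₃.2 (a₂.trans (e ▸ b₂.symm))))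
    rwa [Cardinal.mk_Iio_ordinal, Cardinal.mk_Iio_ordinal, Cardinal.lift_le] at this
  · intro H
    have H' := Cardinal.lift_le.{2}.2 H
    rw [← Cardinal.mk_Iio_ordinal, ← Cardinal.mk_Iio_ordinal] at H'
    obtain ⟨e⟩ := H'
    have k := h.diag (Φ := fun a X => ∀ ha : a < x, (e ⟨a, ha⟩).1 ∈ X) fun a _ => by
      by_cases ha : a < x
      · exact Filter.mem_of_superset (h.fine (e ⟨a, ha⟩).1 (lt_of_lt_of_le (e ⟨a, ha⟩).2 hy))
          fun X hX _ => hX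
      · exact Eventually.of_forall fun X ha' => absurd ha' ha
    filter_upwards [k] with X hX
    rw [← Cardinal.lift_le.{2}, card_col hx, card_col hy]
    refine mk_le_of_injective (f := fun a => ⟨e ⟨a.1, a.2.2⟩, hX _ a.2.1 a.2.2, (e _).2⟩)
      fun a b k => ?_
    exact Subtype.ext (congrArg (fun z => z.1)
      (e.injective (Subtype.ext (congrArg (fun z => z.1) k))))

theorem col_ord {c : Cardinal.{1}} (hc : c.ord ≤ lam) :
    ∀ᶠ X in U, (col lam X c.ord).card.ord = col lam X c.ord := by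
  have k := h.diag (Φ := fun a X => a < c.ord → (col lam X a).card < (col lam X c.ord).card)
    fun a ha => ev_imp fun e => by
      have e' : a < c.ord := e.exists.choose_spec
      refine (Ultrafilter.eventually_not.2 fun k => ?_).mono fun X hX => not_le.1 hX
      have := (h.card_le hc ha.le).1 k
      rw [card_ord] at this
      exact (lt_ord.1 e').not_ge this
  filter_upwards [k] with X hX
  refine le_antisymm (ord_card_le _) (le_of_forall_lt fun b hb => lt_ord.2 ?_)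
  have := hX _ (en_mem hc hb) (lt_col.1 hb)
  rwa [col_en] at this

theorem col_succ_card {c : Cardinal.{1}} (hc : (Order.succ c).ord ≤ lam) :
    ∀ᶠ X in U, col lam X (Order.succ c).ord = (Order.succ (col lam X c.ord).card).ord := by
  have hc' : c.ord ≤ lam := (ord_le_ord.2 (Order.le_succ c)).trans hc
  have k₁ := h.diag
    (Φ := fun a X => a < (Order.succ c).ord → (col lam X a).card ≤ (col lam X c.ord).card)
    fun a ha => ev_imp fun e => (h.card_le ha.le hc').2 (by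
      rw [card_ord]
      exact Order.lt_succ_iff.1 (lt_ord.1 e.exists.choose_spec))
  have k₂ : ∀ᶠ X in (U : Filter (Set Od)),
      ¬ (col lam X (Order.succ c).ord).card ≤ (col lam X c.ord).card :=
    Ultrafilter.eventually_not.2 fun k => by
      have := (h.card_le hc hc').1 k
      rw [card_ord, card_ord] at this
      exact (Order.lt_succ c).not_ge this
  filter_upwards [k₁, k₂] with X e₁ e₂
  refine le_antisymm (le_of_forall_lt fun b hb => lt_ord.2 (Order.lt_succ_iff.2 ?_))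
    (ord_le.2 (Order.succ_le_of_lt (not_le.1 e₂)))
  have := e₁ _ (en_mem hc hb) (lt_col.1 hb)
  rwa [col_en] at this

theorem col_two_pow {c : Cardinal.{1}} (hc : ((2 : Cardinal.{1}) ^ c).ord ≤ lam) :
    ∀ᶠ X in U, col lam X ((2 : Cardinal.{1}) ^ c).ord =
      ((2 : Cardinal.{1}) ^ (col lam X c.ord).card).ord := by
  classical
  have hc' : c.ord ≤ lam := (ord_le_ord.2 (cantor c).le).trans hc
  have e₀ : Cardinal.mk (Iio ((2 : Cardinal.{1}) ^ c).ord) = Cardinal.mk (𝒫 (Iio c.ord)) := by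
    rw [mk_powerset, Cardinal.mk_Iio_ordinal, Cardinal.mk_Iio_ordinal, card_ord, card_ord,
      lift_two_power]
  obtain ⟨e⟩ := Cardinal.eq.1 e₀
  let cd : Od → Set Od := fun a => if ha : a < ((2 : Cardinal.{1}) ^ c).ord then e ⟨a, ha⟩ else ∅
  have c₀ : ∀ a ha, cd a = e ⟨a, ha⟩ := fun a ha => dif_pos ha
  have c₁ : ∀ a < ((2 : Cardinal.{1}) ^ c).ord, cd a ⊆ Iio c.ord := fun a ha => by
    rw [c₀ a ha]
    exact (e _).2
  have k₁ := h.diag2 (Φ := fun a b X => a < ((2 : Cardinal.{1}) ^ c).ord →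
      b < ((2 : Cardinal.{1}) ^ c).ord → X ∩ cd a = X ∩ cd b → a = b) fun a _ b _ =>
    ev_imp fun ha => ev_imp fun hb => by
      have ha' : a < _ := ha.exists.choose_spec
      have hb' : b < _ := hb.exists.choose_spec
      have k := h.ex_mem (Φ := fun i => ¬ (i ∈ cd a ↔ i ∈ cd b)) fun i hi => by
        by_cases m : i ∈ cd a
        · exact lt_of_lt_of_le (c₁ a ha' m) hc'
        · exact lt_of_lt_of_le (c₁ b hb' (by tauto)) hc'
      filter_upwards [k] with X hX q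
      by_contra hne
      obtain ⟨i, i₁, i₂⟩ := hX (by
        by_contra hno
        refine hne (congrArg Subtype.val (e.injective (a₁ := ⟨a, ha'⟩) (a₂ := ⟨b, hb'⟩)
          (Subtype.ext ?_)))
        rw [← c₀, ← c₀]
        exact Set.ext fun i => by_contra fun hi => hno ⟨i, hi⟩)
      exact i₂ (by simpa [i₁] using Set.ext_iff.1 q i)
  have k₂ : ∀ᶠ X in (U : Filter (Set Od)), ∀ S : Set Od, S ⊆ X ∩ Iio c.ord →
      ∃ a ∈ X ∩ Iio ((2 : Cardinal.{1}) ^ c).ord, X ∩ cd a = S := by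
    refine ev_all fun S => ?_
    obtain ⟨⟨a, ha⟩, ea⟩ := e.surjective
      ⟨{i | i < c.ord ∧ ∀ᶠ Y in (U : Filter (Set Od)), i ∈ S Y}, fun i hi => hi.1⟩
    filter_upwards [h.fine a (lt_of_lt_of_le ha hc),
      h.diag fun i _ => ev_iff (U := U) fun Y => i ∈ S Y] with X e₁ e₂ hS
    refine ⟨a, ⟨e₁, ha⟩, ?_⟩
    rw [c₀ a ha, ea]
    exact Set.ext fun i => ⟨fun hi => (e₂ i hi.1).2 hi.2.2,
      fun hi => ⟨(hS hi).1, (hS hi).2, (e₂ i (hS hi).1).1 hi⟩⟩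
  filter_upwards [k₁, k₂, h.col_ord hc] with X e₁ e₂ e₃
  have b : BijOn (fun a => X ∩ cd a) (X ∩ Iio ((2 : Cardinal.{1}) ^ c).ord)
      (𝒫 (X ∩ Iio c.ord)) :=
    ⟨fun a ha => inter_subset_inter_right _ (c₁ a ha.2),
      fun a ha b hb => e₁ a ha.1 b hb.1 ha.2 hb.2, fun S hS => e₂ S hS⟩
  have q := Cardinal.mk_congr (b.equiv _)
  rw [mk_powerset, ← card_col hc, ← card_col hc', ← lift_two_power, Cardinal.lift_inj] at q
  rw [← e₃, q]

end SCO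

end Pool.Agent.MP_85ce7b_lc

end

section

namespace Pool.Agent.MP_85ce7b_lc

open Set Cardinal Ordinal Filter

/-- `e` enumerates `X` in order type `top`, and commutes with the cardinal structure. -/
structure Nice (C : Ctx) (X : Set Od) (μ top : Od) (e : Od → Od) : Prop where
  mono : ∀ a b, a < b → b < top → e a < e b
  rng : ∀ x, x ∈ X ↔ ∃ a < top, e a = x
  id : ∀ a < μ, e a = a
  kap : e μ = C.kap
  mu_lt : μ < top
  top_lt : top < C.kap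
  sp : μ ∈ C.Sp
  succ : ∀ a < top, a + 1 < top ∧ e (a + 1) = e a + 1
  beth : ∀ a, μ ≤ a → a < top → (C.B a).ord < top ∧ e (C.B a).ord = (C.B (e a)).ord
  sbeth : ∀ a, μ ≤ a → a < top →
    e (Order.succ (C.B a)).ord = (Order.succ (C.B (e a))).ord
  idx : ∀ x ∈ X, ∀ z, C.kap ≤ z → (x = (C.B z).ord ∨ x = (Order.succ (C.B z)).ord) → z ∈ X
  noin : ∀ z, μ < z → z ≤ top + 1 → ¬ Inac z

theorem SCO.w2_imp {κ lam : Od} {U : Ultrafilter (Set Od)} (h : SCO κ lam U) {P : Od → Prop}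
    {Φ : Od → Set Od → Prop} (H : ∀ a < lam, P a → ∀ᶠ X in U, Φ a X) :
    ∀ᶠ X in U, ∀ a ∈ X, P a → Φ a X :=
  h.diag fun a ha => ev_imp fun k => H a ha k.exists.choose_spec

theorem Ctx.w2_beth (C : Ctx) {lam : Od} {U : Ultrafilter (Set Od)} (h : SCO C.kap lam U)
    (h₁ : C.kap < lam) (h₃ : ∀ x < lam, (C.B (x + 1)).ord < lam) (x : Od) (hx : C.kap ≤ x)
    (hl : x < lam) : ∀ᶠ X in U, (C.B (col lam X x)).ord = col lam X (C.B x).ord := by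
  have l1 : ∀ y < lam, y + 1 < lam := fun y hy => lt_of_le_of_lt (C.bf.le_ord _) (h₃ y hy)
  have l2 : ∀ y < lam, (C.B y).ord < lam := fun y hy =>
    lt_of_le_of_lt (ord_le_ord.2 (C.bf.mono (lt_add_one y).le)) (h₃ y hy)
  have hs : C.s < C.kap := (lt_add_one _).trans C.s_lt
  induction x using WellFoundedLT.induction with
  | _ x ih =>
    rcases hx.eq_or_lt with rfl | hx'
    · filter_upwards [h.col_kap h₁.le, h.mu_inac C.kin h₁.le] with X e₁ e₂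
      rw [C.bf.inac_eq C.kin, e₁, C.bf.inac_eq e₂]
    rcases Order.mem_range_succ_or_isSuccPrelimit x with ⟨y, rfl⟩ | hp
    · rw [Order.succ_eq_add_one] at *
      have hy : C.kap ≤ y := Order.le_of_lt_add_one hx'
      have hyl : y < lam := (lt_add_one y).trans hl
      have hys : y ≠ C.s := (hs.trans_le hy).ne'
      have hc : ((2 : Cardinal.{1}) ^ C.B y).ord ≤ lam := by
        rw [← C.bf.succ y hys]
        exact (h₃ y hyl).le
      filter_upwards [ih y (lt_add_one y) hy hyl, h.fine y hyl, h.col_two_pow hc,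
        h.col_kap h₁.le, h.lt_mu h₁.le hs] with X e₁ e₂ e₃ e₄ e₅
      have k : col lam X y ≠ C.s := (e₅.trans_le (e₄ ▸ col_mono hy)).ne'
      rw [col_succ e₂, C.bf.succ _ k, C.bf.succ y hys, e₃, ← e₁, card_ord]
    · have hlim : Order.IsSuccLimit x := ⟨(lt_of_le_of_lt zero_le hx').not_isMin, hp⟩
      have a1 := h.w2_imp (P := fun y => C.kap ≤ y ∧ y < x)
        (Φ := fun y X => (C.B (col lam X y)).ord = col lam X (C.B y).ord)
        fun y hy k => ih y k.2 k.1 hy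
      have a2 := h.diag (Φ := fun y X => y + 1 ∈ X) fun y hy => h.fine _ (l1 y hy)
      have a4 := h.w2_imp (P := fun z => z < (C.B x).ord)
        (Φ := fun z X => ∃ y ∈ X, C.kap ≤ y ∧ y < x ∧ z < (C.B y).ord) fun z _ k => by
          obtain ⟨y, k₁, k₂⟩ := C.bf.lt_limit hlim k
          have k₃ : Max.max y C.kap < x := max_lt k₁ hx'
          exact Filter.mem_of_superset (h.fine _ (k₃.trans hl)) fun X hX =>
            ⟨_, hX, le_max_right _ _, k₃,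
              k₂.trans_le (ord_le_ord.2 (C.bf.mono (le_max_left _ _)))⟩
      filter_upwards [a1, a2, a4, h.fine _ h₁] with X e₁ e₂ e₄ e₃
      have hcl : Order.IsSuccLimit (col lam X x) := by
        refine ⟨(lt_of_le_of_lt zero_le (col_lt e₃ hx')).not_isMin,
          Order.isSuccPrelimit_of_succ_lt fun a ha => ?_⟩
        have k₁ := en_mem hl.le ha
        have k₂ := col_lt (lam := lam) (e₂ _ k₁) (hlim.add_one_lt (lt_col.1 ha))
        rwa [col_succ k₁, col_en] at k₂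
      refine le_antisymm ((C.bf.normal_ord.le_iff_forall_le hcl).2 fun a ha => ?_)
        (le_of_forall_lt fun a ha => ?_)
      · have k₁ := en_mem hl.le ha
        have k₂ : Max.max (en lam X a) C.kap ∈ X := by
          rcases le_total (en lam X a) C.kap with k | k
          · rwa [max_eq_right k]
          · rwa [max_eq_left k]
        have k₃ : Max.max (en lam X a) C.kap < x := max_lt (lt_col.1 ha) hx'
        have k₄ : a ≤ col lam X (Max.max (en lam X a) C.kap) :=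
          (col_en a).symm.trans_le (col_mono (le_max_left _ _))
        calc (C.B a).ord ≤ (C.B (col lam X (Max.max (en lam X a) C.kap))).ord :=
              ord_le_ord.2 (C.bf.mono k₄)
          _ = _ := e₁ _ k₂ ⟨le_max_right _ _, k₃⟩
          _ ≤ _ := col_mono (ord_le_ord.2 (C.bf.mono k₃.le))
      · obtain ⟨y, k₁, k₂, k₃, k₄⟩ := e₄ _ (en_mem (l2 x hl).le ha) (lt_col.1 ha)
        calc a < col lam X (C.B y).ord := lt_col.2 k₄
          _ = _ := (e₁ y k₁ ⟨k₂, k₃⟩).symm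
          _ ≤ _ := ord_le_ord.2 (C.bf.mono (col_mono k₃.le))

theorem SCO.w2_cof {κ lam : Od} {U : Ultrafilter (Set Od)} (h : SCO κ lam U) {x ν : Od}
    (hx : x ≤ lam) (hν : ν < x) {f : Od → Od} (hf : ∀ i < ν, f i < x)
    (hu : ∀ b < x, ∃ i < ν, b ≤ f i) : ∀ᶠ X in U, ¬ Inac (col lam X x) := by
  have a1 := h.w2_imp (P := fun i => i < ν) (Φ := fun i X => f i ∈ X)
    fun i _ k => h.fine _ ((hf i k).trans_le hx)
  have a2 := h.w2_imp (P := fun b => b < x) (Φ := fun b X => ∃ i ∈ X, i < ν ∧ b ≤ f i)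
    fun b _ k => by
      obtain ⟨i, k₁, k₂⟩ := hu b k
      exact Filter.mem_of_superset (h.fine i ((k₁.trans hν).trans_le hx)) fun X hX =>
        ⟨i, hX, k₁, k₂⟩
  filter_upwards [a1, a2, h.fine ν (hν.trans_le hx)] with X e₁ e₂ e₃ hi
  obtain ⟨b, k₁, k₂⟩ := hi.bound (col_lt (lam := lam) e₃ hν) (fun i => col lam X (f (en lam X i)))
    fun i k => col_lt (e₁ _ (en_mem (hν.le.trans hx) k) (lt_col.1 k)) (hf _ (lt_col.1 k))
  obtain ⟨i, k₃, k₄, k₅⟩ := e₂ _ (en_mem hx k₁) (lt_col.1 k₁)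
  have k₆ := k₂ _ (col_lt k₃ k₄)
  rw [en_col k₃] at k₆
  exact k₆.not_ge ((col_en b).symm.trans_le (col_mono k₅))

theorem Ctx.w2_noin (C : Ctx) {lam : Od} {U : Ultrafilter (Set Od)} (h : SCO C.kap lam U)
    (h₂ : lam < C.th.ord) (h₃ : ∀ x < lam, (C.B (x + 1)).ord < lam) {x : Od} (hx : C.kap < x)
    (hl : x < lam) : ∀ᶠ X in U, ¬ Inac (col lam X x) := by
  by_cases k : ∀ ν < x, ∀ f : Od → Od, (∀ i < ν, f i < x) → ∃ b < x, ∀ i < ν, f i < b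
  · have k' : ¬ ∀ a < x, ((2 : Cardinal.{1}) ^ a.card).ord < x := fun k' =>
      C.noin x hx (hl.trans h₂) (inac_of (C.kin.omega_lt.trans hx) k k')
    push Not at k'
    obtain ⟨a, k₁, k₂⟩ := k'
    have k₃ : ((2 : Cardinal.{1}) ^ a.card).ord ≤ lam := by
      refine le_trans (ord_le_ord.2 ?_) (h₃ a (k₁.trans hl)).le
      exact (Cardinal.power_le_power_left two_ne_zero (C.bf.card_le a)).trans (C.bf.two_pow_le a)
    have k₄ : a.card.ord < x := (ord_card_le a).trans_lt k₁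
    filter_upwards [h.col_two_pow k₃, h.fine _ (k₄.trans hl)] with X e₁ e₂ hi
    have k₅ := hi.two_pow_lt (hi.card_lt (col_lt (lam := lam) e₂ k₄))
    have k₆ : col lam X ((2 : Cardinal.{1}) ^ a.card).ord < col lam X x := by
      rw [e₁]
      refine hi.lt_of_card ?_
      rwa [card_ord]
    exact k₆.not_ge (col_mono k₂)
  · push Not at k
    obtain ⟨ν, k₁, f, k₂, k₃⟩ := k
    exact h.w2_cof hl.le k₁ k₂ k₃

theorem Ctx.pre_nice (C : Ctx) {lam : Od} {U : Ultrafilter (Set Od)} (h : SCO C.kap lam U)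
    (h₁ : C.kap < lam) (h₂ : lam < C.th.ord) (h₃ : ∀ x < lam, (C.B (x + 1)).ord < lam)
    (h₄ : ∃ y : ℕ → Od, (∀ n, y n < lam) ∧ ∀ a < lam, ∃ n, a < y n) :
    ∀ᶠ X in U, ∃ top e, (∀ x ∈ X, x < (C.B (C.kap + 1)).ord →
      ∃ i < (C.B (mu X + 1)).ord, e i = x) ∧ (mu X ∈ C.Sp → Nice C X (mu X) top e) := by
  have l1 : ∀ y < lam, y + 1 < lam := fun y hy => lt_of_le_of_lt (C.bf.le_ord _) (h₃ y hy)
  have l2 : ∀ y < lam, (C.B y).ord < lam := fun y hy =>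
    lt_of_le_of_lt (ord_le_ord.2 (C.bf.mono (lt_add_one y).le)) (h₃ y hy)
  have l3 : ∀ y < lam, (Order.succ (C.B y)).ord < lam := fun y hy =>
    lt_of_le_of_lt (ord_le_ord.2 (C.bf.succ_le (lt_add_one y))) (h₃ y hy)
  have a5 := h.diag (Φ := fun y X => y + 1 ∈ X) fun y hy => h.fine _ (l1 y hy)
  have a6 := h.w2_imp (P := fun x => C.kap ≤ x)
    (Φ := fun x X => (C.B (col lam X x)).ord = col lam X (C.B x).ord ∧ (C.B x).ord ∈ X)
    fun x hx k => (C.w2_beth h h₁ h₃ x k hx).and (h.fine _ (l2 x hx))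
  have a7 := h.w2_imp (P := fun x => C.kap ≤ x)
    (Φ := fun x X => (Order.succ (C.B (col lam X x))).ord = col lam X (Order.succ (C.B x)).ord ∧
      (Order.succ (C.B x)).ord ∈ X) fun x hx k => by
      filter_upwards [C.w2_beth h h₁ h₃ x k hx, h.col_succ_card (l3 x hx).le, h.fine _ (l3 x hx)]
        with X e₁ e₂ e₃
      exact ⟨by rw [e₂, ← e₁, card_ord], e₃⟩
  have a8 := h.diag (Φ := fun x X => ∀ z, C.kap ≤ z →
      (x = (C.B z).ord ∨ x = (Order.succ (C.B z)).ord) → z ∈ X) fun x hx => by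
    filter_upwards [h.ex_mem (Φ := fun c => x = (C.B c).ord)
        fun c hc => lt_of_le_of_lt ((C.bf.le_ord c).trans hc.ge) hx,
      h.ex_mem (Φ := fun c => x = (Order.succ (C.B c)).ord) fun c hc =>
        lt_of_le_of_lt ((C.bf.le_ord c).trans ((ord_le_ord.2 (Order.le_succ _)).trans hc.ge)) hx]
      with X e₁ e₂ z _ hz
    rcases hz with hz | hz
    · obtain ⟨c, k₁, k₂⟩ := e₁ ⟨z, hz⟩
      rwa [C.bf.normal.strictMono.injective (ord_injective (hz.symm.trans k₂))]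
    · obtain ⟨c, k₁, k₂⟩ := e₂ ⟨z, hz⟩
      rwa [C.bf.normal.strictMono.injective
        (Order.succ_injective (ord_injective (hz.symm.trans k₂)))]
  have a9 := h.w2_imp (P := fun x => C.kap < x) (Φ := fun x X => ¬ Inac (col lam X x))
    fun x hx k => C.w2_noin h h₂ h₃ k hx
  have a10 : ∀ᶠ X in (U : Filter (Set Od)), ¬ Inac (col lam X lam) := by
    obtain ⟨y, k₁, k₂⟩ := h₄
    refine h.w2_cof le_rfl (C.kin.omega_lt.trans h₁)
      (f := Function.extend (Nat.cast : ℕ → Od) y 0) (fun i hi => ?_) fun b hb => ?_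
    · obtain ⟨n, rfl⟩ := lt_omega0.1 hi
      rw [Nat.cast_injective.extend_apply]
      exact k₁ n
    · obtain ⟨n, hn⟩ := k₂ b hb
      refine ⟨n, natCast_lt_omega0 n, ?_⟩
      rw [Nat.cast_injective.extend_apply]
      exact hn.le
  filter_upwards [h.sub, h.col_kap h₁.le, h.col_lt_kap C.kin.ord_card, h.fine _ h₁, a5, a6, a7,
    a8, a9, a10] with X e₁ e₂ e₃ e₄ e₅ e₆ e₇ e₈ e₉ e₁₀
  have hk : en lam X (mu X) = C.kap := by rw [← e₂, en_col e₄]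
  have hle : ∀ a, mu X ≤ a → C.kap ≤ en lam X a := fun a ha => hk ▸ en_mono.monotone ha
  refine ⟨col lam X lam, en lam X, fun x hx hlt => ⟨col lam X x, ?_, en_col hx⟩, fun hsp =>
    ⟨fun a b hab _ => en_mono hab, fun x => ⟨fun hx => ⟨_, col_lt hx (e₁ hx), en_col hx⟩, ?_⟩,
      fun a ha => en_of_lt_mu ha, hk, e₂ ▸ col_lt e₄ h₁, e₃, hsp, fun a ha => ?_,
      fun a h1 ha => ?_, fun a h1 ha => ?_, e₈, fun z h1 h2 => ?_⟩⟩
  · rw [← e₂, ← col_succ e₄, (e₆ _ (e₅ _ e₄) (lt_add_one _).le).1]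
    exact col_lt hx hlt
  · rintro ⟨a, ha, rfl⟩
    exact en_mem le_rfl ha
  · have k₁ := en_mem le_rfl ha
    have k₂ : col lam X (en lam X a + 1) = a + 1 := by rw [col_succ k₁, col_en]
    exact ⟨k₂ ▸ col_lt (e₅ _ k₁) (e₁ (e₅ _ k₁)), k₂ ▸ en_col (e₅ _ k₁)⟩
  · obtain ⟨k₁, k₂⟩ := e₆ _ (en_mem le_rfl ha) (hle a h1)
    rw [col_en] at k₁
    exact ⟨k₁ ▸ col_lt k₂ (e₁ k₂), k₁ ▸ en_col k₂⟩
  · obtain ⟨k₁, k₂⟩ := e₇ _ (en_mem le_rfl ha) (hle a h1)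
    rw [col_en] at k₁
    exact k₁ ▸ en_col k₂
  · rcases h2.eq_or_lt with rfl | h3
    · exact fun hi => lt_irrefl _ (hi.isSuccLimit.add_one_lt (lt_add_one _))
    · rcases (Order.le_of_lt_add_one h3).eq_or_lt with rfl | h4
      · exact e₁₀
      · have k₁ := e₉ _ (en_mem le_rfl h4) (hk ▸ en_mono h1)
        rwa [col_en] at k₁

end Pool.Agent.MP_85ce7b_lc

end

section

namespace Pool.Agent.MP_85ce7b_lc

open Set Cardinal Ordinal Filter Dat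

namespace Ctx

variable (C : Ctx) {lam : Od} {U : Ultrafilter (Set Od)}

/-- Dense open sets of blocks below `μ` with respect to direct extensions satisfying `R`. -/
def DO (R : Raw → Raw → Prop) (μ : Od) (Z : Raw → Prop) : Prop :=
  (∀ b, C.Blk μ b → ∃ b', C.DT (fp b + 1) μ b' b ∧ R b' b ∧ Z b') ∧
    ∀ b b', C.Blk μ b → C.DT (fp b + 1) μ b' b → R b' b → Z b → Z b'

theorem good_of {μ : Od} {V : Ultrafilter Od} (h₁ : Inac μ) (h₂ : C.s + 1 < μ)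
    (comp : ∀ ζ < μ, ∀ Z : Od → Set Od, (∀ i < ζ, Z i ∈ V) → {ξ | ∀ i < ζ, ξ ∈ Z i} ∈ V)
    (w0 : ∀ ζ < μ, {ξ | ξ < μ ∧ C.Blk μ (C.dec ξ) ∧ ζ < fp (C.dec ξ)} ∈ V)
    (nor : ∀ g : Od → Od, {ξ | g ξ < fp (C.dec ξ)} ∈ V → ∃ a, {ξ | g ξ = a} ∈ V)
    (w2 : ∀ Z, C.DO (fun _ _ => True) μ Z → {ξ | Z (C.dec ξ)} ∈ V)
    (w3 : ∀ Z, C.DO (fun b' b => b'.c = b.c) μ Z → {ξ | Z (C.dec ξ)} ∈ V) : C.GoodW μ V :=
  ⟨h₁, h₂, comp, w0, nor, fun Z k₁ k₂ => w2 Z ⟨fun b hb => (k₁ b hb).imp fun _ k => ⟨k.1, trivial, k.2⟩,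
    fun b b' e₁ e₂ _ => k₂ b b' e₁ e₂⟩, fun Z k₁ k₂ => w3 Z ⟨k₁, k₂⟩⟩

theorem exists_cd : ∃ cd : Od → Set Od, ∀ S ⊆ Iio C.kap, ∃ c < (C.B (C.kap + 1)).ord, cd c = S :=
  exists_enum_of_le (S := 𝒫 (Iio C.kap)) (by
    rw [mk_powerset, Cardinal.mk_Iio_ordinal, ← lift_two_power, Cardinal.lift_le]
    exact (power_le_power_left two_ne_zero (C.bf.card_le _)).trans (C.bf.two_pow_le _))

/-- A block meeting many dense open sets. -/
theorem exists_blk {μ : Od} (h₁ : Inac μ) (h₂ : C.s + 1 < μ) (h₃ : μ < C.kap)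
    (Z : Od → Raw → Prop) : ∃ b, C.Blk C.kap b ∧ fp b = μ ∧ ∀ i < (C.B (μ + 1)).ord,
      (C.DO (fun _ _ => True) C.kap (Z i) → Z i b) ∧
        (C.DO (fun b' b => b'.c = b.c) C.kap (Z i) → Z i b) := by
  obtain ⟨k₁, k₂⟩ := blk_itv (C := C) h₁ h₂ C.kin h₃
  generalize itv μ (μ + 1) = b₀ at k₁ k₂
  subst k₂
  have k₃ : ∀ {b}, C.Blk C.kap b → fp b + 1 ≤ C.kap := fun hb => (blk_scope hb C.kin).2.1.le
  obtain ⟨b₁, e₁, e₂⟩ := inter (blk_scope k₁ C.kin).1 k₁.nxt (k₃ k₁) (card_ord _).le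
    (fun i b => C.DO (fun _ _ => True) C.kap (Z i) → Z i b) (fun i _ u hu => by
      obtain ⟨n₁, n₂⟩ := blk_dt k₁ C.kin hu
      by_cases k : C.DO (fun _ _ => True) C.kap (Z i)
      · obtain ⟨u', m₁, -, m₂⟩ := k.1 u n₁
        exact ⟨u', n₂ ▸ m₁, fun _ => m₂⟩
      · exact ⟨u, dt_refl (blk_scope n₁ C.kin).1, fun e => absurd e k⟩)
    fun i _ u u' hu hu' k k' => by
      obtain ⟨n₁, n₂⟩ := blk_dt k₁ C.kin hu
      exact k'.2 u u' n₁ (n₂ ▸ hu') trivial (k k')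
  obtain ⟨k₄, k₅⟩ := blk_dt k₁ C.kin e₁
  rw [← k₅] at e₂ ⊢
  obtain ⟨b₂, e₃, -, e₄⟩ := inter_shape (blk_scope k₄ C.kin).1 k₄.nxt (k₃ k₄) (card_ord _).le
    (fun i b => C.DO (fun b' b => b'.c = b.c) C.kap (Z i) → Z i b) (fun i _ u hu hc => by
      obtain ⟨n₁, n₂⟩ := blk_dt k₄ C.kin hu
      by_cases k : C.DO (fun b' b => b'.c = b.c) C.kap (Z i)
      · obtain ⟨u', m₁, m₃, m₂⟩ := k.1 u n₁
        exact ⟨u', n₂ ▸ m₁, m₃.trans hc, fun _ => m₂⟩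
      · exact ⟨u, dt_refl (blk_scope n₁ C.kin).1, hc, fun e => absurd e k⟩)
    fun i _ u u' hu hc hu' hc' k k' => by
      obtain ⟨n₁, n₂⟩ := blk_dt k₄ C.kin hu
      exact k'.2 u u' n₁ (n₂ ▸ hu') (hc'.trans hc.symm) (k k')
  obtain ⟨k₆, k₇⟩ := blk_dt k₄ C.kin e₃
  exact ⟨b₂, k₆, k₇, fun i hi => ⟨fun k => k.2 _ _ k₄ e₃ trivial (e₂ i hi k), e₄ i hi⟩⟩

theorem kap_sp (h : SCO C.kap lam U) (h₁ : (C.B (C.kap + 1)).ord < lam)
    (H : ∀ᶠ X in U, ∃ e : Od → Od, ∀ x ∈ X, x < (C.B (C.kap + 1)).ord →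
      ∃ i < (C.B (mu X + 1)).ord, e i = x) : C.kap ∈ C.Sp := by
  have hl : C.kap ≤ lam := ((lt_add_one _).le.trans (C.bf.le_ord _)).trans h₁.le
  obtain ⟨cd, hcd⟩ := C.exists_cd
  let Z : Od → Raw → Prop := fun c b => ∃ ξ ∈ cd c, C.dec ξ = b
  have k : ∀ᶠ X in (U : Filter (Set Od)), ∃ ξ < C.kap, C.Blk C.kap (C.dec ξ) ∧
      fp (C.dec ξ) = mu X ∧ ∀ c ∈ X, c < (C.B (C.kap + 1)).ord →
        (C.DO (fun _ _ => True) C.kap (Z c) → Z c (C.dec ξ)) ∧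
          (C.DO (fun b' b => b'.c = b.c) C.kap (Z c) → Z c (C.dec ξ)) := by
    filter_upwards [H, h.mu_inac C.kin hl, h.lt_mu hl C.s_lt, h.mu_lt] with X ⟨e, he⟩ e₁ e₂ e₃
    obtain ⟨b, k₁, k₂, k₃⟩ := C.exists_blk e₁ e₂ e₃ fun i => Z (e i)
    obtain ⟨ξ, k₄, rfl⟩ := C.hdec _ b C.kin k₁.bdd
    refine ⟨ξ, k₄, k₁, k₂, fun c hc hc' => ?_⟩
    obtain ⟨i, hi, rfl⟩ := he c hc hc'
    exact k₃ i hi
  obtain ⟨f, hf⟩ := k.choice
  have k' : ∀ R Y, C.DO R C.kap Y → ∃ c < (C.B (C.kap + 1)).ord, C.DO R C.kap (Z c) ∧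
      ∀ b, Z c b → Y b := fun R Y hY => by
    obtain ⟨c, c₁, c₂⟩ := hcd {ξ | ξ < C.kap ∧ Y (C.dec ξ)} fun _ e => e.1
    have c₃ : ∀ b, Z c b → Y b := fun b ⟨ξ, e₁, e₂⟩ => e₂ ▸ (c₂ ▸ e₁ : ξ ∈ {ξ | _ ∧ Y (C.dec ξ)}).2
    have c₄ : ∀ b b', C.Blk C.kap b → C.DT (fp b + 1) C.kap b' b → Y b' → Z c b' := by
      intro b b' e₁ e₂ e₃
      obtain ⟨ξ, e₄, rfl⟩ := C.hdec _ b' C.kin (blk_dt e₁ C.kin e₂).1.bdd
      exact ⟨ξ, c₂ ▸ ⟨e₄, e₃⟩, rfl⟩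
    exact ⟨c, c₁, ⟨fun b hb => (hY.1 b hb).imp fun b' e => ⟨e.1, e.2.1, c₄ _ _ hb e.1 e.2.2⟩,
      fun b b' e₁ e₂ e₃ e₄ => c₄ _ _ e₁ e₂ (hY.2 _ _ e₁ e₂ e₃ (c₃ _ e₄))⟩, c₃⟩
  refine C.spmax _ (U.map f) (C.good_of C.kin C.s_lt (fun ζ hζ Y hY => h.all hζ hY)
    (fun ζ hζ => Ultrafilter.mem_map.2 ?_) (fun g hg => ?_) (fun Y hY => Ultrafilter.mem_map.2 ?_)
    fun Y hY => Ultrafilter.mem_map.2 ?_)
  · filter_upwards [hf, h.lt_mu hl hζ] with X e₁ e₂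
    exact ⟨e₁.1, e₁.2.1, e₁.2.2.1 ▸ e₂⟩
  · obtain ⟨a, -, ha⟩ := h.const_mu (f := fun X => g (f X)) (by
      filter_upwards [hf, Ultrafilter.mem_map.1 hg] with X e₁ e₂
      exact e₁.2.2.1 ▸ e₂)
    exact ⟨a, ha⟩
  · obtain ⟨c, c₁, c₂, c₃⟩ := k' _ Y hY
    filter_upwards [hf, h.fine c (c₁.trans h₁)] with X e₁ e₂
    exact c₃ _ ((e₁.2.2.2 c e₂ c₁).1 c₂)
  · obtain ⟨c, c₁, c₂, c₃⟩ := k' _ Y hY
    filter_upwards [hf, h.fine c (c₁.trans h₁)] with X e₁ e₂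
    exact c₃ _ ((e₁.2.2.2 c e₂ c₁).2 c₂)

/-- Reflection of an ultrafilter on `kap`. -/
theorem exists_refl (h : SCO C.kap lam U) (h₁ : (C.B (C.kap + 1)).ord < lam)
    {W : Ultrafilter Od} (hW : Iio C.kap ∈ W) : ∃ V : Set Od → Ultrafilter Od,
      ∀ S : Set Od → Set Od, (∀ᶠ X in U, S X ∈ V X) ↔ {ξ | ∀ᶠ X in U, ξ ∈ S X} ∈ W := by
  have hl : C.kap ≤ lam := ((lt_add_one _).le.trans (C.bf.le_ord _)).trans h₁.le
  obtain ⟨cd, hcd⟩ := C.exists_cd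
  let Big : Set Od → Set Od → Prop := fun X S =>
    ∃ c ∈ X, cd c ∈ W ∧ ∀ ξ < mu X, ξ ∈ cd c → ξ ∈ S
  have K : ∀ S : Set Od → Set Od,
      (∀ᶠ X in (U : Filter (Set Od)), Big X (S X)) ↔ {ξ | ∀ᶠ X in U, ξ ∈ S X} ∈ W := by
    refine fun S => ⟨fun k => ?_, fun k => ?_⟩
    · obtain ⟨f, hf⟩ := k.choice
      obtain ⟨c, -, hc⟩ := h.const (hf.mono fun _ e => e.1)
      obtain ⟨X, e₁, e₂⟩ := (hf.and hc).exists
      filter_upwards [hW, (e₂ ▸ e₁.2.1 : cd c ∈ W)] with ξ e₃ e₄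
      filter_upwards [hf, hc, h.lt_mu hl e₃] with Y n₁ n₂ n₃
      exact n₁.2.2 ξ n₃ (n₂ ▸ e₄)
    · obtain ⟨c, c₁, c₂⟩ := hcd _ (inter_subset_left (t := {ξ | ∀ᶠ X in U, ξ ∈ S X}))
      filter_upwards [h.fine c (c₁.trans h₁), h.diag_mu fun ξ _ => SCO.ev_iff fun X => ξ ∈ S X]
        with X e₁ e₂
      exact ⟨c, e₁, c₂ ▸ inter_mem hW k, fun ξ n₁ n₂ => (e₂ ξ n₁).2 (c₂.subset n₂).2⟩
  have k₁ : ∀ᶠ X in (U : Filter (Set Od)), ∀ S T, Big X S → Big X T → Big X (S ∩ T) :=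
    ev_all fun S => ev_all fun T => ev_imp fun e₁ => ev_imp fun e₂ => (K _).2 (by
      filter_upwards [(K _).1 e₁, (K _).1 e₂] with ξ n₁ n₂
      exact n₁.and n₂)
  have k₂ : ∀ᶠ X in (U : Filter (Set Od)), ∀ S, ¬ Big X Sᶜ ↔ Big X S := ev_all fun S => by
    have e : {ξ | ∀ᶠ X in U, ξ ∈ (S X)ᶜ} = {ξ | ∀ᶠ X in U, ξ ∈ S X}ᶜ :=
      Set.ext fun ξ => Ultrafilter.eventually_not
    by_cases k : {ξ | ∀ᶠ X in U, ξ ∈ S X} ∈ W
    · filter_upwards [(K _).2 k, Ultrafilter.eventually_not.2 fun n =>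
        Ultrafilter.compl_notMem_iff.2 k (e ▸ (K fun X => (S X)ᶜ).1 n)] with X e₁ e₂
      exact iff_of_true e₂ e₁
    · filter_upwards [Ultrafilter.eventually_not.2 fun n => k ((K _).1 n),
        (K fun X => (S X)ᶜ).2 (e ▸ Ultrafilter.compl_mem_iff_notMem.2 k)] with X e₁ e₂
      exact iff_of_false (not_not.2 e₂) e₁
  have k₃ : ∀ᶠ X in (U : Filter (Set Od)), ∃ V : Ultrafilter Od, ∀ S, S ∈ V ↔ Big X S := by
    filter_upwards [k₁, k₂, (K fun _ => univ).2 (univ_mem' fun _ => univ_mem' fun _ => trivial)] with X e₁ e₂ e₃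
    exact ⟨Ultrafilter.ofComplNotMemIff ⟨{S | Big X S}, e₃, fun ⟨c, n₁, n₂, n₃⟩ n =>
      ⟨c, n₁, n₂, fun ξ m₁ m₂ => n (n₃ ξ m₁ m₂)⟩, e₁ _ _⟩ e₂, fun _ => Iff.rfl⟩
  obtain ⟨V, hV⟩ := k₃.choice
  exact ⟨V, fun S => (eventually_congr (hV.mono fun X e => e _)).trans (K S)⟩

theorem sp_ae (h : SCO C.kap lam U) (h₁ : (C.B (C.kap + 1)).ord < lam)
    (H : ∀ᶠ X in U, ∃ e : Od → Od, ∀ x ∈ X, x < (C.B (C.kap + 1)).ord →
      ∃ i < (C.B (mu X + 1)).ord, e i = x) : ∀ᶠ X in U, mu X ∈ C.Sp := by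
  have hl : C.kap ≤ lam := ((lt_add_one _).le.trans (C.bf.le_ord _)).trans h₁.le
  have G := C.good _ (C.kap_sp h h₁ H)
  have G₀ := G.w0 0 C.kin.isSuccLimit.pos
  obtain ⟨V, K⟩ := C.exists_refl h h₁ (W := C.W C.kap) (mem_of_superset G₀ fun _ e => e.1)
  have hb : ∀ {b}, Bdd C.kap b → ∀ᶠ X in (U : Filter (Set Od)), Bdd (mu X) b :=
    fun ⟨a, e₁, e₂⟩ => (h.lt_mu hl e₁).mono fun _ e => ⟨a, e, e₂⟩
  have hb' : ∀ {b}, C.Blk C.kap b → ∀ᶠ X in (U : Filter (Set Od)), C.Blk (mu X) b :=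
    fun e => (hb e.bdd).mono fun _ => blk_cut e
  have hi := h.mu_inac C.kin hl
  have w : ∀ R, (∀ Z, C.DO R C.kap Z → {ξ | Z (C.dec ξ)} ∈ C.W C.kap) →
      ∀ᶠ X in (U : Filter (Set Od)), ∀ Z, C.DO R (mu X) Z → {ξ | Z (C.dec ξ)} ∈ V X :=
    fun R hR => ev_all fun Z => ev_imp fun k => (K _).2 (hR (fun b => ∀ᶠ X in U, Z X b)
      ⟨fun b e => by
        have n : ∀ᶠ X in (U : Filter (Set Od)), ∃ ξ < mu X,
            C.DT (fp b + 1) (mu X) (C.dec ξ) b ∧ R (C.dec ξ) b ∧ Z X (C.dec ξ) := by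
          filter_upwards [k, hb' e, hi] with X e₁ e₂ e₃
          obtain ⟨b', n₁⟩ := e₁.1 b e₂
          obtain ⟨ξ, n₂, rfl⟩ := C.hdec _ b' e₃ (blk_dt e₂ e₃ n₁.1).1.bdd
          exact ⟨ξ, n₂, n₁⟩
        obtain ⟨f, hf⟩ := n.choice
        obtain ⟨ξ, -, hξ⟩ := h.const_mu (hf.mono fun _ e => e.1)
        have n' := (hf.and hξ).mono fun X e => (e.2 ▸ e.1.2 : C.DT _ _ (C.dec ξ) _ ∧
          R (C.dec ξ) b ∧ Z X (C.dec ξ))
        obtain ⟨X, ⟨⟨e₁, e₂⟩, e₃⟩, e₄⟩ := (((n'.and (hb' e)).and hi).and h.mu_lt).exists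
        exact ⟨_, dt_cut_change e₁.1 e.v C.kin (bdd_mono (blk_dt e₂ e₃ e₁.1).1.bdd e₄.le),
          e₁.2.1, n'.mono fun _ e => e.2.2⟩,
      fun b b' e₁ e₂ e₃ e₄ => by
        filter_upwards [k, hb' e₁, hi, hb (blk_dt e₁ C.kin e₂).1.bdd, e₄] with X n₁ n₂ n₃ n₄
        exact n₁.2 b b' n₂ (dt_cut_change e₂ e₁.v n₃ n₄) e₃⟩)
  have comp : ∀ᶠ X in (U : Filter (Set Od)), ∀ ζ < mu X, ∀ Z : Od → Set Od,
      (∀ i < ζ, Z i ∈ V X) → {ξ | ∀ i < ζ, ξ ∈ Z i} ∈ V X :=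
    h.diag_mu fun ζ hζ => ev_all fun Z => ev_imp fun k => (K _).2 (mem_of_superset
      (G.comp ζ hζ _ fun i hi => (K fun X => Z X i).1 (k.mono fun _ e => e i hi))
      fun ξ e => h.all hζ e)
  have w0 : ∀ᶠ X in (U : Filter (Set Od)), ∀ ζ < mu X,
      {ξ | ξ < mu X ∧ C.Blk (mu X) (C.dec ξ) ∧ ζ < fp (C.dec ξ)} ∈ V X :=
    h.diag_mu fun ζ hζ => (K _).2 (mem_of_superset (G.w0 ζ hζ) fun ξ e => by
      filter_upwards [h.lt_mu hl e.1, hb' e.2.1] with X e₁ e₂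
      exact ⟨e₁, e₂, e.2.2⟩)
  have nor : ∀ᶠ X in (U : Filter (Set Od)), ∀ g : Od → Od,
      {ξ | g ξ < fp (C.dec ξ)} ∈ V X → ∃ a, {ξ | g ξ = a} ∈ V X := ev_all fun g => ev_imp fun k => by
    have n : ∀ᶠ ξ in (C.W C.kap : Filter Od), ∃ a < fp (C.dec ξ), ∀ᶠ X in U, g X ξ = a := by
      filter_upwards [(K _).1 k, G₀] with ξ e₁ e₂
      obtain ⟨a, -, ha⟩ := h.const_mu (f := fun X => g X ξ) (by
        filter_upwards [e₁, h.lt_mu hl ((lt_add_one _).trans (blk_scope e₂.2.1 C.kin).2.1)]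
          with X n₁ n₂
        exact lt_trans n₁ n₂)
      obtain ⟨X, n₁, n₂⟩ := (Eventually.and e₁ ha).exists
      exact ⟨a, n₂ ▸ n₁, ha⟩
    obtain ⟨f, hf⟩ := n.choice
    obtain ⟨a, ha⟩ := G.nor f (hf.mono fun _ e => e.1)
    refine ((K fun X => {ξ | g X ξ = a}).2 ?_).mono fun _ e => ⟨a, e⟩
    filter_upwards [hf, ha] with ξ e₁ e₂
    exact e₂ ▸ e₁.2
  filter_upwards [hi, h.lt_mu hl C.s_lt, comp, w0, nor, w _ fun Z k => G.w2 Z
    (fun b e => (k.1 b e).imp fun _ n => ⟨n.1, n.2.2⟩) fun b b' e₁ e₂ => k.2 b b' e₁ e₂ trivial,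
    w _ fun Z k => G.w3 Z k.1 k.2] with X e₁ e₂ e₃ e₄ e₅ e₆ e₇
  exact C.spmax _ _ (C.good_of e₁ e₂ e₃ e₄ e₅ e₆ e₇)

end Ctx

end Pool.Agent.MP_85ce7b_lc

end

section

namespace Pool.Agent.MP_85ce7b_lc

open Set Cardinal Ordinal Filter

namespace W4

/-- Change of the special points and their ultrafilters. -/
def wth (D : Dat) (G : Od → Prop × Ultrafilter Od) : Dat :=
  { D with Sp := {x | (G x).1}, W := fun x => (G x).2 }

variable {D : Dat} {G G' : Od → Prop × Ultrafilter Od} {μ : Od}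

theorem col_congr {x : Od} {f : Set (Od × Od)} (h : (wth D G).Col x f) : (wth D G').Col x f :=
  ⟨h.fn, h.dom, h.card⟩

theorem valid_congr (H : ∀ x < μ, G x = G' x) {p : Raw} (hp : p.c ⊆ Iio μ)
    (h : (wth D G).Valid p) : (wth D G').Valid p := by
  refine ⟨h.ne, h.bd, h.cl, h.h0, h.l0, fun x => col_congr (h.col x), h.vs, h.bel, h.lim, h.eas,
    fun ν L hL => ?_⟩
  have hν : ν ∈ p.c := by
    by_contra k
    rw [h.l0 ν k] at hL
    cases hL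
  have e := H ν (hp hν)
  have k := h.sp ν L hL
  refine ⟨?_, k.gt, k.pre, ?_, k.Alt, k.Fb, fun ξ hξ => ⟨col_congr (k.F ξ hξ).1, (k.F ξ hξ).2⟩,
    k.fin, k.s⟩
  · show (G' ν).1
    rw [← e]
    exact k.sp
  · show L.A ∈ (G' ν).2
    rw [← e]
    exact k.A

theorem bdd_sub {b : Raw} (h : Bdd μ b) : b.c ⊆ Iio μ := by
  obtain ⟨a, ha, h₁, -⟩ := h
  exact fun x hx => lt_trans (h₁ hx) ha

theorem blk_congr (H : ∀ x < μ, G x = G' x) {b : Raw} (h : (wth D G).Blk μ b) :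
    (wth D G').Blk μ b :=
  ⟨valid_congr H (bdd_sub h.bdd) h.v, h.bdd, h.inac, h.gt, h.nxt, h.h⟩

theorem dt_congr (H : ∀ x < μ, G x = G' x) {β : Od} {b b' : Raw} (hb : b.c ⊆ Iio μ)
    (h : (wth D G).DT β μ b' b) : (wth D G').DT β μ b' b := by
  refine ⟨⟨valid_congr H (fun x hx => ?_) h.1.v, h.1.d, h.1.lo, h.1.ag, h.1.bel⟩, h.2⟩
  by_contra k
  exact k (hb ((h.1.ag.1 x (not_lt.1 k)).1.1 hx))

theorem good_congr (H : ∀ x < μ, G x = G' x) {U : Ultrafilter Od} (h : (wth D G).GoodW μ U) :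
    (wth D G').GoodW μ U := by
  have H' : ∀ x < μ, G' x = G x := fun x hx => (H x hx).symm
  refine ⟨h.inac, h.gt, h.comp, fun ζ hζ => ?_, h.nor, fun Z h₁ h₂ => ?_, fun Z h₁ h₂ => ?_⟩
  · exact mem_of_superset (h.w0 ζ hζ) fun ξ hξ => ⟨hξ.1, blk_congr H hξ.2.1, hξ.2.2⟩
  · refine h.w2 Z (fun b hb => ?_) fun b b' hb hd => ?_
    · obtain ⟨b', k₁, k₂⟩ := h₁ b (blk_congr H hb)
      exact ⟨b', dt_congr H' (bdd_sub hb.bdd) k₁, k₂⟩
    · exact h₂ b b' (blk_congr H hb) (dt_congr H (bdd_sub hb.bdd) hd)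
  · refine h.w3 Z (fun b hb => ?_) fun b b' hb hd => ?_
    · obtain ⟨b', k₁, k₂⟩ := h₁ b (blk_congr H hb)
      exact ⟨b', dt_congr H' (bdd_sub hb.bdd) k₁, k₂⟩
    · exact h₂ b b' (blk_congr H hb) (dt_congr H (bdd_sub hb.bdd) hd)

theorem exists_sp (D : Dat) : ∃ G, (∀ μ ∈ (wth D G).Sp, (wth D G).GoodW μ ((wth D G).W μ)) ∧
    ∀ μ U, (wth D G).GoodW μ U → μ ∈ (wth D G).Sp := by
  classical
  let F : ∀ μ : Od, (∀ x, x < μ → Prop × Ultrafilter Od) → Prop × Ultrafilter Od := fun μ ih =>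
    (∃ U, (wth D fun x => if h : x < μ then ih x h else (False, pure 0)).GoodW μ U,
      Classical.epsilon fun U =>
        (wth D fun x => if h : x < μ then ih x h else (False, pure 0)).GoodW μ U)
  let G : Od → Prop × Ultrafilter Od := (wellFounded_lt (α := Od)).fix F
  have hG : ∀ μ, G μ = F μ fun x _ => G x := fun μ => WellFounded.fix_eq _ F μ
  have hc : ∀ μ, ∀ x < μ, (fun x => if _ : x < μ then G x else (False, pure 0)) x = G x :=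
    fun μ x hx => dif_pos hx
  refine ⟨G, fun μ hμ => ?_, fun μ U h => ?_⟩
  · have h₁ : (G μ).1 := hμ
    show (wth D G).GoodW μ (G μ).2
    rw [hG] at h₁
    rw [hG μ]
    exact good_congr (hc μ) (Classical.epsilon_spec h₁)
  · show (G μ).1
    rw [hG μ]
    exact ⟨U, good_congr (fun x hx => (hc μ x hx).symm) h⟩

theorem exists_th {κ θ : Cardinal.{1}} (hθ : θ.IsInaccessible) (h₂ : κ < θ) :
    ∃ th : Cardinal.{1}, th.IsInaccessible ∧ κ < th ∧ th ≤ θ ∧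
      ∀ x, κ.ord < x → x < th.ord → ¬ Inac x := by
  obtain ⟨th, h₁, h₃⟩ := (wellFounded_lt (α := Cardinal.{1})).has_min
    {c | c.IsInaccessible ∧ κ < c} ⟨θ, hθ, h₂⟩
  refine ⟨th, h₁.1, h₁.2, not_lt.1 (h₃ θ ⟨hθ, h₂⟩), ?_⟩
  rintro _ k₁ k₂ ⟨k, hk, rfl⟩
  exact h₃ k ⟨hk, ord_lt_ord.1 k₁⟩ (ord_lt_ord.1 k₂)

theorem exists_ke {kap α γ : Od} (hα : 0 < α) (hk : SI (α + 1) kap) (hγ : γ < ω₁) :
    ∃ (s : Od) (ke : Od → Od), s + 1 < kap ∧ (∀ i < γ, SI α (ke i)) ∧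
      (∀ i j, i < j → j < γ → ke i < ke j) ∧ (∀ i < γ, ke i ≤ s) ∧
      (∀ y < s, ∃ i < γ, y < ke i) ∧ ∀ x ≤ s, SI α x → ∃ i < γ, ke i = x := by
  have hin := hk.inac
  let S : Set Od := {x | SI α x} ∪ Ioi kap
  have hS : ¬ BddAbove S := fun h => not_bddAbove_Ioi kap (h.mono subset_union_right)
  have hlt : ∀ i < kap, enumOrd S i < kap := by
    intro i
    induction i using WellFoundedLT.induction with
    | _ i ih =>
      intro hi
      obtain ⟨b, b₁, b₂⟩ := hin.bound hi (enumOrd S) fun j hj => ih j hj (hj.trans hi)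
      obtain ⟨z, z₁, z₂, z₃⟩ := (SI_iff.1 hk).2 α (lt_add_one α) hα b b₁
      exact (enumOrd_le_of_forall_lt (Or.inl z₃) fun j hj => (b₂ j hj).trans z₁).trans_lt z₂
  have hγk : γ < kap := hγ.trans hin.omega1_lt
  have hle : ∀ b, (∀ i < γ, enumOrd S i < b) → sSup (enumOrd S '' Iio γ) ≤ b := fun b hb =>
    csSup_le' (by rintro _ ⟨i, hi, rfl⟩; exact (hb i hi).le)
  obtain ⟨b, b₁, b₂⟩ := hin.bound hγk (enumOrd S) fun j hj => hlt j (hj.trans hγk)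
  have hb : BddAbove (enumOrd S '' Iio γ) := ⟨b, by rintro _ ⟨i, hi, rfl⟩; exact (b₂ i hi).le⟩
  refine ⟨sSup (enumOrd S '' Iio γ), enumOrd S,
    hin.isSuccLimit.add_one_lt ((hle b b₂).trans_lt b₁), fun i hi => ?_,
    fun i j hij _ => enumOrd_strictMono hS hij, fun i hi => le_csSup hb ⟨i, hi, rfl⟩,
    fun y hy => ?_, fun x hx hx' => ?_⟩
  · exact (enumOrd_mem hS i).resolve_right (hlt i (hi.trans hγk)).not_gt
  · by_contra k
    push Not at k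
    exact hy.not_ge (csSup_le' (by rintro _ ⟨i, hi, rfl⟩; exact k i hi))
  · obtain ⟨j, rfl⟩ := enumOrd_surjective hS (Or.inl hx')
    refine ⟨j, ?_, rfl⟩
    by_contra k
    obtain ⟨c, c₁, c₂⟩ := hx'.inac.bound (hγ.trans hx'.inac.omega1_lt) (enumOrd S)
      fun i hi => enumOrd_strictMono hS (hi.trans_le (not_lt.1 k))
    exact c₁.not_ge (hx.trans (hle c c₂))

theorem exists_nm {B : Od → Cardinal.{1}} {s kap : Od} (bf : BF B s) {dec : Od → Raw}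
    (hdec : ∀ r, Bdd kap r → ∃ ξ < kap, dec ξ = r) : ∃ nm : Od → Od → Set (Raw × Od),
    (∀ x c r v, (r, v) ∈ nm x c → Bdd kap r ∧ v < (B (x + 1)).ord) ∧
    (∀ x c, Cardinal.mk (nm x c) ≤ lift.{2} kap.card) ∧
    ∀ x, kap ≤ x → ∀ N : Set (Raw × Od),
      (∀ r v, (r, v) ∈ N → Bdd kap r ∧ v < (B (x + 1)).ord) →
      Cardinal.mk N ≤ lift.{2} kap.card → ∃ c < (B (x + 1)).ord, nm x c = N := by
  classical
  let Fam : Od → Set (Set (Raw × Od)) := fun x =>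
    {N | N ⊆ {r | Bdd kap r} ×ˢ Iio (B (x + 1)).ord ∧ Cardinal.mk N ≤ lift.{2} kap.card}
  have hR : Cardinal.mk {r | Bdd kap r} ≤ lift.{2} kap.card := by
    rw [← Cardinal.mk_Iio_ordinal]
    exact (mk_le_mk_of_subset fun r hr => hdec r hr).trans (mk_image_le (f := dec) (s := Iio kap))
  have hF : ∀ x, kap ≤ x → Cardinal.mk (Fam x) ≤ lift.{2} (B (x + 1)) := by
    intro x hx
    have h₀ : ℵ₀ ≤ lift.{2} (B (x + 1)) := aleph0_le_lift.2 (bf.aleph0_le _)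
    have h₁ : kap.card ≤ B x := (card_le_card hx).trans (bf.card_le x)
    have h₂ : Cardinal.mk ({r | Bdd kap r} ×ˢ Iio (B (x + 1)).ord : Set (Raw × Od))
        ≤ lift.{2} (B (x + 1)) := by
      rw [mk_setProd]
      refine mul_le_of_le h₀ (hR.trans (lift_le.2 (h₁.trans (bf.mono le_self_add)))) ?_
      rw [Cardinal.mk_Iio_ordinal, card_ord]
    refine (mk_bounded_subset_le _ _).trans ?_
    refine (power_le_power_right (max_le h₂ h₀)).trans ?_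
    refine (power_le_power_left (aleph0_pos.trans_le h₀).ne' (lift_le.2 h₁)).trans ?_
    rw [← lift_power, bf.pow_eq]
  have hE : ∀ x, ∃ e : Od → Set (Raw × Od), kap ≤ x →
      ∀ N ∈ Fam x, ∃ c < (B (x + 1)).ord, e c = N := fun x => by
    by_cases hx : kap ≤ x
    · obtain ⟨e, he⟩ := exists_enum_of_le (hF x hx)
      exact ⟨e, fun _ => he⟩
    · exact ⟨fun _ => ∅, fun h => absurd h hx⟩
  choose e he using hE
  have hm : ∀ x c, (if e x c ∈ Fam x then e x c else ∅) ∈ Fam x := fun x c => by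
    split_ifs with h
    · exact h
    · exact ⟨empty_subset _, by simp⟩
  refine ⟨fun x c => if e x c ∈ Fam x then e x c else ∅, fun x c r v h => (hm x c).1 h,
    fun x c => (hm x c).2, fun x hx N h₁ h₂ => ?_⟩
  have hN : N ∈ Fam x := ⟨fun z hz => h₁ z.1 z.2 hz, h₂⟩
  obtain ⟨c, hc, rfl⟩ := he x hx N hN
  exact ⟨c, hc, if_pos hN⟩

end W4

open W4 in
theorem exists_ctx (κ θ : Cardinal.{1}) (hθ : θ.IsInaccessible) (h₁ : ℵ₀ < κ) (h₂ : κ < θ)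
    (sc : ∀ T : Type 1, Cardinal.mk T < θ → SCOn κ T) (α γ : Od) (hα : 0 < α) (hα' : α < ω₁)
    (hγ : 0 < γ) (hγ' : γ < ω₁) : ∃ C : Ctx, C.al = α ∧ C.ga = γ := by
  obtain ⟨U, hU⟩ := exists_sco sc (ord_lt_ord.2 h₂)
  have kin : Inac κ.ord := hU.inac (omega0_lt_ord.2 h₁) le_rfl (by rw [card_ord])
  have ksi : ∀ δ < κ.ord, SI δ κ.ord := fun δ hδ => hU.si kin le_rfl hδ
  obtain ⟨th, t₁, t₂, t₃, t₄⟩ := exists_th hθ h₂
  obtain ⟨dec, hdec⟩ := exists_dec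
  obtain ⟨s, ke, k₁, k₂, k₃, k₄, k₅, k₆⟩ := exists_ke hα
    (ksi _ (kin.isSuccLimit.add_one_lt (hα'.trans kin.omega1_lt))) hγ'
  obtain ⟨B, bf⟩ := exists_bf s
  obtain ⟨G, g₁, g₂⟩ := exists_sp ⟨s, α, B, dec, ∅, fun _ => pure 0⟩
  obtain ⟨nm, n₁, n₂, n₃⟩ := exists_nm bf fun r => hdec _ r kin
  exact ⟨{
    toDat := wth ⟨s, α, B, dec, ∅, fun _ => pure 0⟩ G
    kap := κ.ord
    th := th
    ga := γ
    ke := ke
    nm := nm
    bf := bf
    al_pos := hα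
    al_lt := hα'
    ga_pos := hγ
    ga_lt := hγ'
    hdec := hdec
    good := g₁
    spmax := g₂
    kin := kin
    s_lt := k₁
    thin := t₁
    k_lt := ord_lt_ord.2 t₂
    noin := t₄
    sc := fun T hT => by rw [card_ord]; exact sc T (hT.trans_le t₃)
    ksi := fun δ hδ => ksi δ (hδ.trans kin.omega1_lt)
    ke_si := k₂
    ke_mono := k₃
    ke_le := k₄
    ke_cof := k₅
    ke_all := k₆
    nm_sub := n₁
    nm_card := n₂
    nm_surj := n₃ }, rfl, rfl⟩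

end Pool.Agent.MP_85ce7b_lc

end

section

namespace Pool.Agent.MP_85ce7b_lc

open Set Cardinal Ordinal Dat

namespace Ctx

variable (C : Ctx)

theorem sco {lam : Od} (h : lam < C.th.ord) : ∃ U, SCO C.kap lam U :=
  C.kin.ord_card ▸ exists_sco C.sc h

theorem nice_ae {lam : Od} {U : Ultrafilter (Set Od)} (h : SCO C.kap lam U) (h₁ : C.kap < lam)
    (h₂ : lam < C.th.ord) (h₃ : ∀ x < lam, (C.B (x + 1)).ord < lam)
    (h₄ : ∃ y : ℕ → Od, (∀ n, y n < lam) ∧ ∀ a < lam, ∃ n, a < y n) :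
    {X | ∃ μ top e, Nice C X μ top e} ∈ U := by
  have k := C.pre_nice h h₁ h₂ h₃ h₄
  filter_upwards [k, C.sp_ae h (h₃ _ h₁) (k.mono fun _ ⟨_, e, he, _⟩ => ⟨e, he⟩)]
    with X ⟨top, e, _, k₁⟩ k₂
  exact ⟨_, top, e, k₁ k₂⟩

end Ctx

end Pool.Agent.MP_85ce7b_lc

end

section

namespace Pool.Agent.MP_85ce7b_lc

open Set Cardinal Ordinal Dat

namespace Ctx

/-- A tower of levels reducing the dense sets of a closed family of objects. -/
structure Tw (C : Ctx) {Ex : Type 3} (emb : Od → Ex) (op : Ex → Ex → Ex)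
    (G : Ex → C.Po → Ex → Od → Prop) (π₀ : C.Po) (lam : Od) (y : ℕ → Od) (σ : C.Po)
    (en : Od → Ex) : Prop where
  lev : ∀ n, C.Lev (y n)
  lt : ∀ n, y n < lam
  cof : ∀ a < lam, ∃ n, a < y n
  th : lam < C.th.ord
  beth : ∀ x < lam, (C.B (x + 1)).ord < lam
  r : σ.r = π₀.r
  t : π₀.t ⊆ σ.t
  supp : ∀ z ∈ σ.t, z.1 < lam
  emb : ∀ a < lam, ∃ i < lam, en i = emb a
  op : ∀ i < lam, ∀ j < lam, ∃ k < lam, en k = op (en i) (en j)
  red : ∀ i < lam, ∃ n, ∀ ρ ≤ σ, (∃ τ, ∃ a < C.th.ord, G (en i) ρ τ a) →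
    ∃ j < lam, ∃ a < lam, G (en i) (glue (y n) ρ σ) (en j) a

/-- A small family of upper parts reflecting domains and conflicts to `X`. -/
structure Hl (C : Ctx) (σ : C.Po) (X : Set Od) (XT : Set Tri) : Prop where
  card : Cardinal.mk XT ≤ lift.{2} C.kap.card
  mem : σ.t ∈ XT
  tv : ∀ t ∈ XT, C.TV t
  supp : ∃ y < C.th.ord, ∀ t ∈ XT, ∀ z ∈ t, z.1 < y
  dom : ∀ t ∈ XT, ∀ x ∈ X, ∃ j ∈ X, j < (Order.succ (C.B x)).ord ∧ ∀ i c, (x, i, c) ∈ t → i < j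
  cmp : ∀ t ∈ XT, ∀ t' ∈ XT, (∀ x ∈ X, ∀ i ∈ X, ∀ c ∈ X, ∀ c' ∈ X, (x, i, c) ∈ t →
    (x, i, c') ∈ t' → c = c') → ∀ x i c c', (x, i, c) ∈ t → (x, i, c') ∈ t' → c = c'

/-- `S` looks like the trace on `X` of an extension of `σ` below `y`. -/
structure Tc (C : Ctx) (σ : C.Po) (X : Set Od) (y : Od) (S : Tri) : Prop where
  rng : ∀ x i c, (x, i, c) ∈ S → C.kap ≤ x ∧ x < y ∧ c < (C.B (x + 1)).ord
  fn : ∀ x i c c', (x, i, c) ∈ S → (x, i, c') ∈ S → c = c'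
  dom : ∀ x ∈ X, ∃ j ∈ X, j < (Order.succ (C.B x)).ord ∧ ∀ i c, (x, i, c) ∈ S → i < j
  sub : ∀ x ∈ X, ∀ i ∈ X, ∀ c ∈ X, (x, i, c) ∈ σ.t → x < y → (x, i, c) ∈ S

/-- The family `XT` captures the open set `D` at the level `y`. -/
structure Cap (C : Ctx) (σ : C.Po) (X : Set Od) (μ y : Od) (XT : Set Tri) (D : C.Po → Prop) :
    Prop where
  md : ∀ t ∈ XT, ∀ z ∈ t, y ≤ z.1 → z ∈ σ.t
  sur : ∀ S, C.Tc σ X y S → ∃ t ∈ XT, ∀ x ∈ X, ∀ i ∈ X, ∀ c ∈ X, x < y →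
    ((x, i, c) ∈ t ↔ (x, i, c) ∈ S)
  den : ∀ t ∈ XT, ∀ r, Bdd μ r → C.LeT C.kap r σ.r →
    ∃ ρ : C.Po, Bdd μ ρ.r ∧ C.LeT C.kap ρ.r r ∧ ρ.t ∈ XT ∧ t ⊆ ρ.t ∧ D ρ

end Ctx

/-- The collapsed trace of `t` on the levels in `[μ, b)`. -/
def trc (e : Od → Od) (μ top b : Od) (t : Tri) (x : Od) : Set (Od × Od) :=
  {z | μ ≤ x ∧ x < b ∧ z.1 < top ∧ z.2 < top ∧ (e x, e z.1, e z.2) ∈ t}

end Pool.Agent.MP_85ce7b_lc

end

section

namespace Pool.Agent.MP_85ce7b_lc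

open Set Cardinal Ordinal Dat

namespace Ctx

/-- One step of the tower. -/
structure M1St (C : Ctx) {Ex : Type 3} (emb : Od → Ex) (op : Ex → Ex → Ex)
    (G : Ex → C.Po → Ex → Od → Prop) (y : Od) (σ : C.Po) (e : Od → Ex) (y' : Od) (σ' : C.Po)
    (e' : Od → Ex) : Prop where
  lt : (C.B (y + 1)).ord < y'
  pr : PredR y σ' σ
  old : ∀ i < (C.B y).ord, ∃ k < (C.B y').ord, e' k = e i
  op : ∀ i < (C.B y).ord, ∀ j < (C.B y).ord, ∃ k < (C.B y').ord, e' k = op (e i) (e j)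
  emb : ∀ i < (C.B y).ord, ∃ k < (C.B y').ord, e' k = emb i
  red : ∀ i < (C.B y).ord, ∀ ρ ≤ σ', (∃ τ, ∃ a < C.th.ord, G (e i) ρ τ a) →
    ∃ k < (C.B y').ord, ∃ a < y', G (e i) (glue y ρ σ') (e' k) a

theorem m1_step (C : Ctx) {Ex : Type 3} (emb : Od → Ex) (op : Ex → Ex → Ex)
    (G : Ex → C.Po → Ex → Od → Prop) (mono : ∀ x m m' τ a, G x m τ a → m' ≤ m → G x m' τ a)
    {y : Od} (hy : C.Lev y) (σ : C.Po) (e : Od → Ex) :
    ∃ y' σ' e', C.Lev y' ∧ σ' ∈ C.Low y' ∧ C.M1St emb op G y σ e y' σ' e' := by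
  classical
  have hth := C.th_inac.isSuccLimit
  have h₀ : ℵ₀ ≤ lift.{2} (C.B y) := Cardinal.aleph0_le_lift.2 (C.bf.aleph0_le y)
  have hl : Order.IsSuccLimit (C.B y).ord := isSuccLimit_ord (C.bf.aleph0_le y)
  obtain ⟨σ', k₁, k₂, k₃, H⟩ := redx hy (ν := (C.B y).ord) (card_ord _).le
    (fun i m => ∃ τ, ∃ a < C.th.ord, G (e i) m τ a)
    (fun i p q ⟨τ, a, ha, h⟩ hq => ⟨τ, a, ha, mono _ _ _ _ _ h hq⟩) σ
  have hc : ∀ (i : Od) (s : C.Po), ∃ τ, ∃ a < C.th.ord,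
      (∃ τ, ∃ a < C.th.ord, G (e i) (glue y s σ') τ a) → G (e i) (glue y s σ') τ a := by
    intro i s
    by_cases h : ∃ τ, ∃ a < C.th.ord, G (e i) (glue y s σ') τ a
    · obtain ⟨τ, a, ha, h⟩ := h
      exact ⟨τ, a, ha, fun _ => h⟩
    · exact ⟨emb 0, 0, hth.pos, fun h' => absurd h' h⟩
  choose τ a ha hG using hc
  obtain ⟨g, hg⟩ := exists_enum_of_le (α := Od × Od × Od × C.Po)
    (S := Iio (C.B y).ord ×ˢ Iio (C.B y).ord ×ˢ Iio (C.B y).ord ×ˢ C.Low y) (c := C.B y) (by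
      simp only [Cardinal.mk_setProd, Cardinal.mk_Iio_ordinal, card_ord]
      exact Cardinal.mul_le_of_le h₀ le_rfl (Cardinal.mul_le_of_le h₀ le_rfl
        (Cardinal.mul_le_of_le h₀ le_rfl (card_low hy))))
  let F : Od × Od × Od × C.Po → Ex := fun w =>
    if w.1 = 0 then e w.2.1 else if w.1 = 1 then op (e w.2.1) (e w.2.2.1) else
      if w.1 = 2 then emb w.2.1 else τ w.2.1 w.2.2.2
  obtain ⟨b, hb, hb'⟩ := C.th_inac.bound (C.bf.lt_inac C.th_inac hy.1)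
    (fun k => a (g k).2.1 (g k).2.2.2) fun k _ => ha _ _
  obtain ⟨z, hz, hz'⟩ := σ'.ht.supp
  have hy1 : (C.B (y + 1)).ord < C.th.ord := C.bf.lt_inac C.th_inac (hth.add_one_lt hy.1)
  obtain ⟨y', l₁, l₂, l₃⟩ := exists_lev (C := C) (pred_B_lt hy.1)
    (max_lt (max_lt hb hz) hy1)
  have l₄ : (C.B y).ord ≤ (C.B y').ord := ord_le_ord.2 l₂
  have ht : (⊤ : C.Po) ∈ C.Low y := fun _ h => h.elim
  have n : ∀ m : ℕ, (m : Od) < (C.B y).ord := fun m => hl.natCast_lt m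
  have n2 : (2 : Od) ≠ 1 := by exact_mod_cast (show (2 : ℕ) ≠ 1 by decide)
  have n30 : (3 : Od) ≠ 0 := by exact_mod_cast (show (3 : ℕ) ≠ 0 by decide)
  have n31 : (3 : Od) ≠ 1 := by exact_mod_cast (show (3 : ℕ) ≠ 1 by decide)
  refine ⟨y', σ', F ∘ g, l₁, fun w hw => (hz' _ _ _ hw).trans
    (((le_max_right _ _).trans (le_max_left _ _)).trans_lt l₃),
    (le_max_right _ _).trans_lt l₃, ⟨k₁, k₂, k₃⟩, fun i hi => ?_, fun i hi j hj => ?_,
    fun i hi => ?_, fun i hi ρ hρ hD => ?_⟩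
  · obtain ⟨k, hk, ek⟩ := hg (0, i, 0, ⊤) ⟨hl.pos, hi, hl.pos, ht⟩
    exact ⟨k, hk.trans_le l₄, by simp [F, ek]⟩
  · obtain ⟨k, hk, ek⟩ := hg (1, i, j, ⊤) ⟨by simpa using n 1, hi, hj, ht⟩
    exact ⟨k, hk.trans_le l₄, by simp [F, ek]⟩
  · obtain ⟨k, hk, ek⟩ := hg (2, i, 0, ⊤) ⟨n 2, hi, hl.pos, ht⟩
    exact ⟨k, hk.trans_le l₄, by simp [F, ek, n2]⟩
  · obtain ⟨k, hk, ek⟩ := hg (3, i, 0, glue y ρ ⊤) ⟨n 3, hi, hl.pos, glue_top_mem y ρ⟩
    have m₁ := hG i (glue y ρ ⊤)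
    rw [glue_glue] at m₁
    have m₂ := hb' k hk
    simp only [ek] at m₂
    refine ⟨k, hk.trans_le l₄, _, m₂.trans
      (((le_max_left _ _).trans (le_max_left _ _)).trans_lt l₃), ?_⟩
    have : (F ∘ g) k = τ i (glue y ρ ⊤) := by simp [F, ek, n30, n31]
    rw [this]
    exact m₁ (H i hi ρ hρ hD)

theorem m1_seq (C : Ctx) {Ex : Type 3} (emb : Od → Ex) (op : Ex → Ex → Ex)
    (G : Ex → C.Po → Ex → Od → Prop) (mono : ∀ x m m' τ a, G x m τ a → m' ≤ m → G x m' τ a)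
    (π₀ : C.Po) : ∃ (y : ℕ → Od) (σ : ℕ → C.Po) (e : ℕ → Od → Ex), σ 0 = π₀ ∧
      ∀ n, C.Lev (y n) ∧ σ n ∈ C.Low (y n) ∧
        C.M1St emb op G (y n) (σ n) (e n) (y (n + 1)) (σ (n + 1)) (e (n + 1)) := by
  have H : ∀ s : {p : Od × C.Po × (Od → Ex) // C.Lev p.1 ∧ p.2.1 ∈ C.Low p.1},
      ∃ s' : {p : Od × C.Po × (Od → Ex) // C.Lev p.1 ∧ p.2.1 ∈ C.Low p.1},
        C.M1St emb op G s.1.1 s.1.2.1 s.1.2.2 s'.1.1 s'.1.2.1 s'.1.2.2 := fun s => by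
    obtain ⟨y', σ', e', h₁, h₂, h₃⟩ := C.m1_step emb op G mono s.2.1 s.1.2.1 s.1.2.2
    exact ⟨⟨(y', σ', e'), h₁, h₂⟩, h₃⟩
  choose F hF using H
  obtain ⟨z, hz, hz'⟩ := π₀.ht.supp
  obtain ⟨y₀, l₁, -, l₃⟩ := exists_lev (C := C) (k := 0) C.thin.pos hz
  let f : ℕ → {p : Od × C.Po × (Od → Ex) // C.Lev p.1 ∧ p.2.1 ∈ C.Low p.1} := fun n =>
    Nat.rec ⟨(y₀, π₀, emb), l₁, fun w hw => (hz' _ _ _ hw).trans l₃⟩ (fun _ s => F s) n
  exact ⟨fun n => (f n).1.1, fun n => (f n).1.2.1, fun n => (f n).1.2.2, rfl,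
    fun n => ⟨(f n).2.1, (f n).2.2, hF (f n)⟩⟩

theorem exists_tower (C : Ctx) {Ex : Type 3} (emb : Od → Ex) (op : Ex → Ex → Ex)
    (G : Ex → C.Po → Ex → Od → Prop) (mono : ∀ x m m' τ a, G x m τ a → m' ≤ m → G x m' τ a)
    (π₀ : C.Po) : ∃ lam y σ en, C.Tw emb op G π₀ lam y σ en := by
  classical
  obtain ⟨y, s, e, s0, H⟩ := C.m1_seq emb op G mono π₀
  have lev := fun n => (H n).1
  have low := fun n => (H n).2.1
  have st := fun n => (H n).2.2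
  have hb : ∀ n, (C.B (y n)).ord < y (n + 1) := fun n =>
    (ord_le_ord.2 (C.bf.mono (lt_add_one _).le)).trans_lt (st n).lt
  have ym : StrictMono y := strictMono_nat_of_lt_succ fun n => (C.bf.le_ord _).trans_lt (hb n)
  have pr : ∀ n m, n ≤ m → PredR (y n) (s m) (s n) := fun n m h => by
    induction m, h using Nat.le_induction with
    | base => exact predR_refl _ _
    | succ m h ih =>
      have k := (st m).pr
      exact predR_trans ⟨k.1, k.2.1, fun z hz hy => k.2.2 z hz (hy.trans_le (ym.monotone h))⟩ ih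
  have old : ∀ n m, n ≤ m → ∀ i < (C.B (y n)).ord, ∃ k < (C.B (y m)).ord, e m k = e n i :=
    fun n m h i hi => by
      induction m, h using Nat.le_induction with
      | base => exact ⟨i, hi, rfl⟩
      | succ m h ih =>
        obtain ⟨k, hk, ek⟩ := ih
        obtain ⟨k', hk', ek'⟩ := (st m).old k hk
        exact ⟨k', hk', ek'.trans ek⟩
  obtain ⟨lam, hlam⟩ : ∃ lam : Od, lam = ⨆ n, y n := ⟨_, rfl⟩
  have lt : ∀ n, y n < lam := fun n =>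
    (ym (Nat.lt_succ_self n)).trans_le (hlam ▸ Ordinal.le_iSup y (n + 1))
  have cof : ∀ a < lam, ∃ n, a < y n := fun a ha => Ordinal.lt_iSup_iff.1 (hlam ▸ ha)
  have th : lam < C.th.ord := by
    obtain ⟨b, h₁, h₂⟩ := C.th_inac.bound_set (S := range y)
      (by rintro _ ⟨n, rfl⟩; exact (lev n).1) (by
        refine (Set.countable_range y).le_aleph0.trans_lt ?_
        rw [card_ord]
        exact Cardinal.aleph0_lt_lift.2 C.thin.aleph0_lt)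
    exact (hlam ▸ Ordinal.iSup_le fun n => (h₂ ⟨n, rfl⟩).le).trans_lt h₁
  have hbl : ∀ n, (C.B (y n)).ord < lam := fun n => (hb n).trans (lt _)
  have tv : C.TV (⋃ n, (s n).t) := by
    refine ⟨fun x i c h => ?_, fun x i c c' h h' => ?_, fun x => ?_, lam, th, fun x i c h => ?_⟩
    · obtain ⟨n, hn⟩ := mem_iUnion.1 h
      exact (s n).ht.rng x i c hn
    · obtain ⟨n, hn⟩ := mem_iUnion.1 h
      obtain ⟨m, hm⟩ := mem_iUnion.1 h'
      exact (s (max n m)).ht.fn x i c c' ((pr _ _ (le_max_left n m)).2.1 hn)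
        ((pr _ _ (le_max_right n m)).2.1 hm)
    · by_cases hx : x < lam
      · obtain ⟨n, hn⟩ := cof x hx
        obtain ⟨j, hj, K⟩ := (s n).ht.dom x
        refine ⟨j, hj, fun i c h => ?_⟩
        obtain ⟨m, hm⟩ := mem_iUnion.1 h
        exact K i c ((pr _ _ (le_max_left n m)).2.2 _ ((pr _ _ (le_max_right n m)).2.1 hm) hn)
      · refine ⟨0, (C.pred_lim x).pos, fun i c h => ?_⟩
        obtain ⟨m, hm⟩ := mem_iUnion.1 h
        exact absurd ((low m _ hm).trans (lt m)) hx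
    · obtain ⟨m, hm⟩ := mem_iUnion.1 h
      exact (low m _ hm).trans (lt m)
  have sr : ∀ n, (s n).r = π₀.r := fun n => by rw [(pr 0 n n.zero_le).1, s0]
  have h₀ : ℵ₀ ≤ lam.card := by
    refine (C.bf.aleph0_le (y 0)).trans ?_
    rw [← card_ord (C.B (y 0))]
    exact card_le_card (hbl 0).le
  obtain ⟨g, hg⟩ := exists_enum_of_le (α := ℕ × Od) (S := (univ : Set ℕ) ×ˢ Iio lam) (c := lam.card) (by
    have h₁ : ℵ₀ ≤ lift.{2} lam.card := Cardinal.aleph0_le_lift.2 h₀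
    have h₂ : Cardinal.mk ((univ : Set ℕ) ×ˢ Iio lam : Set (ℕ × Od)) =
        Cardinal.mk (↥(univ : Set ℕ) × Iio lam) := Cardinal.mk_congr (Equiv.Set.prod _ _)
    rw [h₂, Cardinal.mk_prod, Cardinal.mk_univ, Cardinal.mk_Iio_ordinal, Cardinal.mk_nat,
      Cardinal.lift_aleph0, Cardinal.lift_lift]
    exact Cardinal.mul_le_of_le h₁ h₁ le_rfl)
  obtain ⟨en, hen⟩ : ∃ en : Od → Ex, en = fun k =>
    if (g k).2 < (C.B (y (g k).1)).ord then e (g k).1 (g k).2 else e 0 0 := ⟨_, rfl⟩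
  have e₁ : ∀ k, ∃ n, ∃ i < (C.B (y n)).ord, en k = e n i := fun k => by
    by_cases h : (g k).2 < (C.B (y (g k).1)).ord
    · exact ⟨_, _, h, by rw [hen]; exact if_pos h⟩
    · exact ⟨0, 0, (isSuccLimit_ord (C.bf.aleph0_le _)).pos, by rw [hen]; exact if_neg h⟩
  have e₂ : ∀ n, ∀ i < (C.B (y n)).ord, ∃ k < lam, en k = e n i := fun n i hi => by
    obtain ⟨k, hk, ek⟩ := hg (n, i) ⟨mem_univ _, hi.trans (hbl n)⟩
    refine ⟨k, hk.trans_le (ord_card_le lam), ?_⟩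
    rw [hen]
    simp only [ek]
    exact if_pos hi
  refine ⟨lam, y, ⟨π₀.r, _, π₀.hr, tv⟩, en, lev, lt, cof, th, fun x hx => ?_, rfl,
    s0 ▸ subset_iUnion (fun n => (s n).t) 0, fun z hz => ?_, fun a ha => ?_,
    fun i _ j _ => ?_, fun i _ => ?_⟩
  · obtain ⟨n, hn⟩ := cof x hx
    exact ((ord_le_ord.2 (C.bf.mono (add_le_add_left hn.le 1))).trans_lt (st n).lt).trans (lt _)
  · obtain ⟨m, hm⟩ := mem_iUnion.1 hz
    exact (low m _ hm).trans (lt m)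
  · obtain ⟨n, hn⟩ := cof a ha
    obtain ⟨k, hk, ek⟩ := (st n).emb a (hn.trans_le (C.bf.le_ord _))
    obtain ⟨k', hk', ek'⟩ := e₂ _ k hk
    exact ⟨k', hk', ek'.trans ek⟩
  · obtain ⟨n, a, ha, ea⟩ := e₁ i
    obtain ⟨m, b, hb', eb⟩ := e₁ j
    obtain ⟨a', ha', ea'⟩ := old _ _ (le_max_left n m) a ha
    obtain ⟨b', hb'', eb'⟩ := old _ _ (le_max_right n m) b hb'
    obtain ⟨k, hk, ek⟩ := (st _).op a' ha' b' hb''
    obtain ⟨k', hk', ek'⟩ := e₂ _ k hk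
    exact ⟨k', hk', by rw [ek', ek, ea', eb', ea, eb]⟩
  · obtain ⟨n, a, ha, ea⟩ := e₁ i
    refine ⟨n, fun ρ hρ hD => ?_⟩
    rw [ea] at hD ⊢
    have hs : (s (n + 1)).t ⊆ ⋃ n, (s n).t := subset_iUnion (fun n => (s n).t) (n + 1)
    have h₁ : (⟨π₀.r, _, π₀.hr, tv⟩ : C.Po) ≤ s (n + 1) :=
      le_of_sub (by rw [sr]; exact pred_refl π₀) hs
    obtain ⟨k, hk, c, hc, K⟩ := (st n).red a ha ρ (hρ.trans h₁) hD
    obtain ⟨k', hk', ek'⟩ := e₂ _ k hk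
    refine ⟨k', hk', c, hc.trans (lt _), ?_⟩
    rw [ek']
    refine mono _ _ _ _ _ K (le_of_sub (pred_refl ρ) ?_)
    rintro z (hz | hz)
    · exact Or.inl hz
    · exact Or.inr ⟨hs hz.1, hz.2⟩

end Ctx

end Pool.Agent.MP_85ce7b_lc

end

section

namespace Pool.Agent.MP_85ce7b_lc

open Set Cardinal Ordinal Dat

namespace Ctx

variable {C : Ctx} {σ : C.Po} {X : Set Od} {XT : Set Tri} {μ top b : Od} {e : Od → Od} {t : Tri}

theorem m2_lt (N : Nice C X μ top e) {a c : Od} (ha : a < top) (h : e a < e c) (_hc : c < top) :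
    a < c := by
  by_contra k
  rcases (not_lt.1 k).eq_or_lt with rfl | k
  · exact lt_irrefl _ h
  · exact lt_asymm h (N.mono _ _ k ha)

theorem m2_inj (N : Nice C X μ top e) {a c : Od} (ha : a < top) (hc : c < top) (h : e a = e c) :
    a = c := by
  rcases lt_trichotomy a c with k | k | k
  · exact absurd h (N.mono _ _ k hc).ne
  · exact k
  · exact absurd h (N.mono _ _ k ha).ne'

theorem m2_mem (N : Nice C X μ top e) {a : Od} (ha : a < top) : e a ∈ X :=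
  (N.rng _).2 ⟨a, ha, rfl⟩

theorem m2_kap_le (N : Nice C X μ top e) {x : Od} (h : μ ≤ x) (hx : x < top) : C.kap ≤ e x := by
  rw [← N.kap]
  rcases h.eq_or_lt with rfl | h
  · exact le_rfl
  · exact (N.mono _ _ h hx).le

theorem m2_mu_le (N : Nice C X μ top e) {x : Od} (h : C.kap ≤ e x) : μ ≤ x := by
  by_contra k
  have := N.mono _ _ (not_le.1 k) N.mu_lt
  rw [N.kap] at this
  exact this.not_ge h

theorem m2_dm (N : Nice C X μ top e) {x : Od} (h : μ ≤ x) :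
    C.dm x = (Order.succ (C.B x)).ord := by
  have h₁ : C.s < x := ((lt_add_one _).trans (C.good μ N.sp).gt).trans_le h
  unfold Dat.dm
  rw [if_neg h₁.ne']

theorem m2_beth (N : Nice C X μ top e) {x : Od} (h : μ ≤ x) (hx : x < top) :
    (C.B (x + 1)).ord < top ∧ e (C.B (x + 1)).ord = (C.B (e x + 1)).ord := by
  obtain ⟨h₁, h₂⟩ := N.succ x hx
  rw [← h₂]
  exact N.beth _ (h.trans (lt_add_one x).le) h₁

theorem m2_succ (N : Nice C X μ top e) {x : Od} (h : μ ≤ x) (hx : x < top) :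
    (Order.succ (C.B x)).ord < top :=
  (ord_le_ord.2 (C.bf.succ_le (lt_add_one x))).trans_lt (m2_beth N h hx).1

theorem m2_dom (N : Nice C X μ top e) (H : C.Hl σ X XT) (ht : t ∈ XT) {x : Od} (h : μ ≤ x)
    (hx : x < top) : ∃ j < (Order.succ (C.B x)).ord, ∀ i c, i < top → (e x, e i, c) ∈ t → i < j := by
  obtain ⟨j, hj, h₁, h₂⟩ := H.dom t ht (e x) (m2_mem N hx)
  obtain ⟨j, hj', rfl⟩ := (N.rng _).1 hj
  rw [← N.sbeth x h hx] at h₁
  exact ⟨j, m2_lt N hj' h₁ (m2_succ N h hx), fun i c hi k => m2_lt N hi (h₂ _ _ k) hj'⟩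

theorem trc_intC (N : Nice C X μ top e) (H : C.Hl σ X XT) (ht : t ∈ XT) (hb : b ≤ top) :
    C.IntC μ b (trc e μ top b t) := by
  have hT := H.tv t ht
  intro x
  have hfn : ∀ i v v', (i, v) ∈ trc e μ top b t x → (i, v') ∈ trc e μ top b t x → v = v' :=
    fun i v v' k k' => m2_inj N k.2.2.2.1 k'.2.2.2.1 (hT.fn _ _ _ _ k.2.2.2.2 k'.2.2.2.2)
  refine ⟨⟨hfn, fun i v k => ?_, ?_⟩, fun i v k => ⟨k.1, k.2.1, ?_⟩⟩
  · obtain ⟨j, h₁, h₂⟩ := m2_dom N H ht k.1 (k.2.1.trans_le hb)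
    rw [m2_dm N k.1]
    exact (h₂ i _ k.2.2.1 k.2.2.2.2).trans h₁
  · rcases (trc e μ top b t x).eq_empty_or_nonempty with h | ⟨z, k⟩
    · rw [h, Cardinal.mk_eq_zero]
      exact zero_le
    · obtain ⟨j, h₁, h₂⟩ := m2_dom N H ht k.1 (k.2.1.trans_le hb)
      have h₃ : Cardinal.mk (trc e μ top b t x) ≤ Cardinal.mk (Iio j) := by
        refine Cardinal.mk_le_of_injective
          (f := fun w => ⟨w.1.1, h₂ _ _ w.2.2.2.1 w.2.2.2.2.2⟩) ?_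
        rintro ⟨⟨i, v⟩, hw⟩ ⟨⟨i', v'⟩, hw'⟩ h
        simp only [Subtype.mk.injEq] at h
        subst h
        obtain rfl := hfn _ _ _ hw hw'
        rfl
      refine h₃.trans ?_
      rw [Cardinal.mk_Iio_ordinal]
      exact Cardinal.lift_le.2 (Order.lt_succ_iff.1 (lt_ord.1 h₁))
  · obtain ⟨h₁, h₂⟩ := m2_beth N k.1 (k.2.1.trans_le hb)
    have h₃ := (hT.rng _ _ _ k.2.2.2.2).2
    rw [← h₂] at h₃
    exact m2_lt N k.2.2.2.1 h₃ h₁

theorem trc_sur (N : Nice C X μ top e) (hb : b < top) {w : Od → Set (Od × Od)}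
    (hw : C.IntC μ b w) (hs : ∀ x, trc e μ top b σ.t x ⊆ w x) :
    ∃ S, C.Tc σ X (e b) S ∧ ∀ t : Tri, (∀ x ∈ X, ∀ i ∈ X, ∀ c ∈ X, x < e b →
      ((x, i, c) ∈ t ↔ (x, i, c) ∈ S)) → ∀ x, w x ⊆ trc e μ top b t x := by
  have key : ∀ x i c, (i, c) ∈ w x → μ ≤ x ∧ x < b ∧ x < top ∧ i < (Order.succ (C.B x)).ord ∧
      i < top ∧ c < (C.B (x + 1)).ord ∧ c < top := fun x i c k => by
    obtain ⟨h₁, h₂, h₃⟩ := (hw x).2 i c k
    have h₄ := (hw x).1.dom i c k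
    rw [m2_dm N h₁] at h₄
    exact ⟨h₁, h₂, h₂.trans hb, h₄, h₄.trans (m2_succ N h₁ (h₂.trans hb)), h₃,
      h₃.trans (m2_beth N h₁ (h₂.trans hb)).1⟩
  refine ⟨{z | ∃ x i c, (i, c) ∈ w x ∧ e x = z.1 ∧ e i = z.2.1 ∧ e c = z.2.2},
    ⟨?_, ?_, ?_, ?_⟩, ?_⟩
  · rintro _ _ _ ⟨x, i, c, k, rfl, rfl, rfl⟩
    obtain ⟨h₁, h₂, h₃, -, -, h₆, -⟩ := key x i c k
    obtain ⟨h₇, h₈⟩ := m2_beth N h₁ h₃
    exact ⟨m2_kap_le N h₁ h₃, N.mono _ _ h₂ hb, h₈ ▸ N.mono _ _ h₆ h₇⟩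
  · rintro _ _ _ _ ⟨x, i, c, k, rfl, rfl, rfl⟩ ⟨x', i', c', k', e₁, e₂, rfl⟩
    obtain ⟨-, -, h₃, -, h₅, -⟩ := key x i c k
    obtain ⟨-, -, h₃', -, h₅', -⟩ := key x' i' c' k'
    obtain rfl := m2_inj N h₃' h₃ e₁
    obtain rfl := m2_inj N h₅' h₅ e₂
    rw [(hw x').1.fn _ _ _ k k']
  · intro x hx
    obtain ⟨x, hx', rfl⟩ := (N.rng _).1 hx
    rcases lt_or_ge x μ with h | h
    · have h0 : (0 : Od) < μ := zero_le.trans_lt h
      refine ⟨0, N.id 0 h0 ▸ m2_mem N (h0.trans N.mu_lt), (C.pred_lim _).pos, ?_⟩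
      rintro _ _ ⟨x', i, c, k, e₁, -⟩
      obtain ⟨h₁, -, h₃, -⟩ := key x' i c k
      obtain rfl := m2_inj N h₃ hx' e₁
      exact absurd h h₁.not_gt
    · obtain ⟨j, h₁, h₂⟩ := bound_set_of_lt_cof (S := Prod.fst '' w x)
        (τ := (Order.succ (C.B x)).ord) (by
          rintro _ ⟨⟨i, c⟩, k, rfl⟩
          exact (key x i c k).2.2.2.1) (C.pred_lim x)
        ((Cardinal.mk_image_le.trans (hw x).1.card).trans_lt
          (Cardinal.lift_lt.2 (rf_succ_cof (C.bf.aleph0_le x))))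
      have h₃ := m2_succ N h hx'
      refine ⟨e j, m2_mem N (h₁.trans h₃), N.sbeth x h hx' ▸ N.mono _ _ h₁ h₃, ?_⟩
      rintro _ _ ⟨x', i, c, k, e₁, rfl, rfl⟩
      obtain rfl := m2_inj N (key x' i c k).2.2.1 hx' e₁
      exact N.mono _ _ (h₂ ⟨(i, c), k, rfl⟩) (h₁.trans h₃)
  · intro x hx i hi c hc k hlt
    obtain ⟨x, hx', rfl⟩ := (N.rng _).1 hx
    obtain ⟨i, hi', rfl⟩ := (N.rng _).1 hi
    obtain ⟨c, hc', rfl⟩ := (N.rng _).1 hc
    exact ⟨x, i, c, hs x ⟨m2_mu_le N (σ.ht.rng _ _ _ k).1, m2_lt N hx' hlt hb, hi', hc', k⟩,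
      rfl, rfl, rfl⟩
  · rintro t ht x ⟨i, c⟩ k
    obtain ⟨h₁, h₂, h₃, -, h₅, -, h₇⟩ := key x i c k
    exact ⟨h₁, h₂, h₅, h₇, (ht _ (m2_mem N h₃) _ (m2_mem N h₅) _ (m2_mem N h₇)
      (N.mono _ _ h₂ hb)).2 ⟨x, i, c, k, rfl, rfl, rfl⟩⟩

theorem trc_cmp (N : Nice C X μ top e) (H : C.Hl σ X XT) (ht : t ∈ XT) {t' : Tri} (ht' : t' ∈ XT)
    {r : Raw} (hr : C.Valid r) (h : ∀ x, trc e μ top top t x ⊆ r.h x)
    (h' : ∀ x, trc e μ top top t' x ⊆ r.h x) {x i c c' : Od} (k : (x, i, c) ∈ t)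
    (k' : (x, i, c') ∈ t') : c = c' := by
  refine H.cmp t ht t' ht' (fun x hx i hi c hc c' hc' k k' => ?_) x i c c' k k'
  obtain ⟨x, hx', rfl⟩ := (N.rng _).1 hx
  obtain ⟨i, hi', rfl⟩ := (N.rng _).1 hi
  obtain ⟨c, hc₁, rfl⟩ := (N.rng _).1 hc
  obtain ⟨c', hc₂, rfl⟩ := (N.rng _).1 hc'
  have hμ := m2_mu_le N ((H.tv t ht).rng _ _ _ k).1
  rw [(hr.col x).fn i c c' (h x ⟨hμ, hx', hi', hc₁, k⟩) (h' x ⟨hμ, hx', hi', hc₂, k'⟩)]

end Ctx

end Pool.Agent.MP_85ce7b_lc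

end

section

namespace Pool.Agent.MP_85ce7b_lc

open Set Cardinal Ordinal Dat

namespace Ctx

variable {C : Ctx} {σ : C.Po} {X : Set Od} {XT : Set Tri} {μ top : Od} {e : Od → Od}

/-- The term that follows the terms of all those upper parts whose trace is in the condition. -/
def M3N (C : Ctx) (XT : Set Tri) (T : Tri → Raw → Prop) (p : Raw) (x i : Od) : Set (Raw × Od) :=
  {z | C.LeT C.kap z.1 p ∧ ∃ t ∈ XT, T t z.1 ∧ ∃ c, (x, i, c) ∈ t ∧ C.Has (C.nm x c) z.1 z.2}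

theorem M3_code (H : C.Hl σ X XT) (T : Tri → Raw → Prop) {p : Raw} (hp : C.InR p) {x : Od}
    (hx : C.kap ≤ x) (i : Od) : ∃ c < (C.B (x + 1)).ord, C.nm x c = C.M3N XT T p x i := by
  have h₀ : ℵ₀ ≤ lift.{2} C.kap.card := Cardinal.aleph0_le_lift.2
    (Ordinal.aleph0_le_card.2 (Ordinal.omega0_le_of_isSuccLimit C.kin.isSuccLimit))
  refine C.nm_surj x hx _ ?_ ?_
  · rintro r v ⟨h₁, t, -, -, c, -, r₀, h₂, -⟩
    exact ⟨pred_bdd (inR_le hp h₁), (C.nm_sub x c r₀ v h₂).2⟩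
  · have h₁ : C.M3N XT T p x i ⊆ {r | C.InR r} ×ˢ
        ⋃ t ∈ XT, {v | ∃ c, (x, i, c) ∈ t ∧ ∃ r₀, (r₀, v) ∈ C.nm x c} := by
      rintro ⟨r, v⟩ ⟨h₁, t, ht, -, c, hc, r₀, h₂, -⟩
      exact ⟨inR_le hp h₁, mem_biUnion ht ⟨c, hc, r₀, h₂⟩⟩
    refine (Cardinal.mk_le_mk_of_subset h₁).trans ?_
    rw [Cardinal.mk_setProd]
    refine Cardinal.mul_le_of_le h₀ C.card_inR ((Cardinal.mk_biUnion_le _ _).trans
      (Cardinal.mul_le_of_le h₀ H.card (ciSup_le' fun t => ?_)))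
    by_cases h : ∃ c, (x, i, c) ∈ t.1
    · obtain ⟨c, hc⟩ := h
      refine le_trans (Cardinal.mk_le_mk_of_subset (t := Prod.snd '' C.nm x c) ?_)
        (Cardinal.mk_image_le.trans (C.nm_card x c))
      rintro v ⟨c', hc', r₀, h₂⟩
      exact ⟨(r₀, v), (H.tv _ t.2).fn x i c' c hc' hc ▸ h₂, rfl⟩
    · refine le_trans (Cardinal.mk_le_mk_of_subset (t := ∅) ?_) (by simp)
      rintro v ⟨c', hc', -⟩
      exact h ⟨c', hc'⟩

theorem M3_tv (H : C.Hl σ X XT) (f : Od → Od → Od)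
    (hf : ∀ x i, C.kap ≤ x → f x i < (C.B (x + 1)).ord) :
    C.TV {z | z.2.2 = f z.1 z.2.1 ∧ ∃ t ∈ XT, ∃ c, (z.1, z.2.1, c) ∈ t} := by
  refine ⟨?_, fun x i c c' h h' => h.1.trans h'.1.symm, fun x => ?_, ?_⟩
  · rintro x i c ⟨h₁, t, ht, c', h₂⟩
    have h₃ := ((H.tv t ht).rng x i c' h₂).1
    exact ⟨h₃, (show c = f x i from h₁) ▸ hf x i h₃⟩
  · by_cases hx : C.kap ≤ x
    · choose j hj hj' using fun t : XT => (H.tv t.1 t.2).dom x
      obtain ⟨b, hb, h⟩ := bound_set_of_lt_cof (S := range j) (by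
        rintro _ ⟨t, rfl⟩
        exact hj t) (C.pred_lim x) (Cardinal.mk_range_le.trans_lt (H.card.trans_lt
          (Cardinal.lift_lt.2 (((C.bf.card_le _).trans (C.bf.mono hx)).trans_lt
            (rf_succ_cof (C.bf.aleph0_le x))))))
      refine ⟨b, hb, ?_⟩
      rintro i c ⟨-, t, ht, c', h₂⟩
      exact (hj' ⟨t, ht⟩ i c' h₂).trans (h ⟨_, rfl⟩)
    · refine ⟨0, (C.pred_lim x).pos, ?_⟩
      rintro i c ⟨-, t, ht, c', h₂⟩
      exact absurd ((H.tv t ht).rng x i c' h₂).1 hx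
  · obtain ⟨y, hy, h⟩ := H.supp
    refine ⟨y, hy, ?_⟩
    rintro x i c ⟨-, t, ht, c', h₂⟩
    exact h t ht _ h₂

/-- The master condition. -/
theorem exists_mc (N : Nice C X μ top e) (H : C.Hl σ X XT) (hb : Bdd μ σ.r) :
    ∃ π : C.Po, C.LeT C.kap π.r σ.r ∧ Spec π.r μ ∧ Intv π.r μ (top + 1) ∧
      (∀ x, trc e μ top top σ.t x ⊆ π.r.h x) ∧ C.LeT C.kap (res μ π.r) σ.r ∧
      ∀ ρ ≤ π, ∀ ρ' : C.Po, ρ'.t ∈ XT → C.LeT C.kap ρ.r ρ'.r →
        (∀ x, trc e μ top top ρ'.t x ⊆ ρ.r.h x) → ρ ≤ ρ' := by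
  obtain ⟨s₁, s₂, -⟩ := inR_scope σ.hr
  obtain ⟨p₁, k₁, k₂, k₃, k₄, k₅, k₆⟩ := add_spec s₁ s₂ N.sp hb
    (N.mu_lt.trans (lt_add_one top)).le (C.kin.isSuccLimit.add_one_lt N.top_lt) N.noin
  obtain ⟨p, l₁, l₂, l₃, l₄, l₅⟩ := set_int (g := trc e μ top top σ.t) (leT_scope s₁ k₁)
    ((Icc_subset_Icc_right (lt_add_one top).le).trans k₄)
    ((lt_add_one _).trans (C.good μ N.sp).gt) N.top_lt.le
    (fun z h₁ h₂ => N.noin z h₁ (h₂.trans (lt_add_one top).le)) (trc_intC N H H.mem le_rfl)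
    fun x hx _ => by rw [k₆ x hx]; exact empty_subset _
  have hσ : C.LeT C.kap p σ.r := leT_trans l₁ k₁
  have hp : C.InR p := inR_le σ.hr hσ
  choose! f hf hf' using fun x (hx : C.kap ≤ x) i =>
    M3_code H (fun t r => ∀ y, trc e μ top top t y ⊆ r.h y) hp hx i
  refine ⟨⟨p, _, hp, M3_tv H f fun x i hx => hf x hx i⟩, hσ, ?_, ⟨?_, ?_⟩, fun x z hz => ?_, ?_,
    fun ρ hρ ρ' h₁ h₂ h₃ => ⟨h₂, fun x i c hz => ?_⟩⟩
  · exact k₂.imp fun L hL => (congrFun l₃ μ).trans hL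
  · exact k₄.trans l₄.ge
  · exact fun x h₁ h₂ => (congrFun l₃ x).trans (k₅ x h₁ h₂)
  · exact (l₅ x hz.1 hz.2.1).ge hz
  · exact (l₂.trans k₃).symm ▸ pred_refl σ
  · obtain ⟨c', m₁, m₂⟩ := hρ.2 x i (f x i) ⟨rfl, _, h₁, c, hz⟩
    rw [hf' x (ρ'.ht.rng x i c hz).1 i] at m₂
    refine ⟨c', m₁, eqv_trans (fun r hr v => ?_) m₂⟩
    have s := (inR_scope (inR_le ρ.hr hr)).1
    have hT : ∀ y, trc e μ top top ρ'.t y ⊆ r.h y := fun y => (h₃ y).trans (le_h hr.le y)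
    refine ⟨fun h => ⟨r, leT_refl s, r, ⟨leT_trans hr hρ.1, _, h₁, hT, c, hz, h⟩, leT_refl s⟩, ?_⟩
    rintro ⟨r₀, ⟨-, t, ht, n₁, c₂, n₂, n₃⟩, n₄⟩
    obtain rfl := trc_cmp N H h₁ ht s.v hT (fun y => (n₁ y).trans (le_h n₄.le y)) hz n₂
    exact ⟨r, leT_refl s, has_mono n₃ n₄⟩

end Ctx

end Pool.Agent.MP_85ce7b_lc

end

section

namespace Pool.Agent.MP_85ce7b_lc

open Set Cardinal Ordinal Dat

namespace Ctx

variable {C : Ctx} {σ π : C.Po} {X : Set Od} {XT XT' : Set Tri} {μ top y : Od} {e : Od → Od}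

/-- Union of a short chain of interval collapses. -/
theorem M4_union {b ν : Od} (hν : ν ≤ μ) (f : Od → Od → Set (Od × Od))
    (hf : ∀ i < ν, C.IntC μ b (f i)) (hm : ∀ i j, i ≤ j → j < ν → ∀ x, f i x ⊆ f j x) :
    C.IntC μ b (fun x => {z | ∃ i < ν, z ∈ f i x}) := by
  intro x
  refine ⟨?_, fun i v ⟨j, hj, h⟩ => (hf j hj x).2 i v h⟩
  by_cases hx : μ ≤ x
  · exact col_chain (fun i => f i x)
      ((Ordinal.card_le_card (hν.trans hx)).trans (C.bf.card_le x))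
      (fun i hi => (hf i hi x).1) fun i j hij hj => hm i j hij hj x
  · have h0 : {z | ∃ i < ν, z ∈ f i x} = ∅ := by
      refine eq_empty_of_forall_notMem fun z ⟨j, hj, h⟩ => hx ?_
      exact ((hf j hj x).2 z.1 z.2 h).1
    show C.Col x {z | ∃ i < ν, z ∈ f i x}
    rw [h0]
    exact rb5x_col_empty _ x

/-- A bounded extension is an extension below the bound. -/
theorem M4_cut {t : Od} {q p : Raw} (h : C.LeT t q p) (hμ : Inac μ) (hb : Bdd μ q) :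
    C.LeT μ q p := by
  obtain ⟨h2, h3⟩ := below_of_bdd (C := C) hμ hb
  have hq := le_valid h.le
  have hp := h.le.1
  have n' : ∀ x, μ ≤ x → x ∉ q.c := fun x hx h' => (h2 h').not_ge hx
  have n : ∀ x, μ ≤ x → x ∉ p.c := fun x hx h' => n' x hx (le_c h.le h')
  refine ⟨h.le, ⟨fun x hx => ⟨⟨fun h' => absurd h' (n' x hx),
    fun h' => absurd h' (n x hx)⟩, ?_⟩, fun x hx => ?_⟩, h3⟩
  · rw [hq.h0 x (n' x hx), hp.h0 x (n x hx)]
  · rw [hq.l0 x (n' x hx.le), hp.l0 x (n x hx.le)]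

/-- One interval collapse that captures all the lower parts. -/
theorem M4_chain (N : Nice C X μ top e) (H : C.Hl σ X XT) {b : Od} (hb : b < top)
    {D : C.Po → Prop} (hs : XT' ⊆ XT) (cap : C.Cap σ X μ (e b) XT' D)
    {w₀ : Od → Set (Od × Od)} (hw₀ : C.IntC μ b w₀) (h₀ : ∀ x, trc e μ top b σ.t x ⊆ w₀ x) :
    ∃ w, C.IntC μ b w ∧ (∀ x, w₀ x ⊆ w x) ∧ ∀ r, Bdd μ r → C.LeT C.kap r σ.r →
      ∃ ρ : C.Po, Bdd μ ρ.r ∧ C.LeT C.kap ρ.r r ∧ ρ.t ∈ XT' ∧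
        (∀ x, trc e μ top b ρ.t x ⊆ w x) ∧ D ρ := by
  have hμ : Inac μ := sp_inac N.sp
  obtain ⟨f, hf, hm⟩ := exists_chain
    (fun w' w : Od → Set (Od × Od) => C.IntC μ b w' ∧ ∀ x, w x ⊆ w' x) w₀ μ
    (fun ξ w => Bdd μ (C.dec ξ) → C.LeT C.kap (C.dec ξ) σ.r →
      ∃ ρ : C.Po, Bdd μ ρ.r ∧ C.LeT C.kap ρ.r (C.dec ξ) ∧ ρ.t ∈ XT' ∧
        (∀ x, trc e μ top b ρ.t x ⊆ w x) ∧ D ρ)
    (fun _ h => ⟨h.1, fun _ => subset_rfl⟩) ⟨hw₀, fun _ => subset_rfl⟩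
    (fun _ _ _ h h' => ⟨h.1, fun x => (h'.2 x).trans (h.2 x)⟩)
    (fun ν hν _ f hf hm => ⟨fun x => {z | ∃ i < ν, z ∈ f i x}, fun i hi =>
      ⟨M4_union hν.le f (fun i hi => (hf i hi).1) fun i j hij hj => (hm i j hij hj).2,
        fun _ _ hz => ⟨i, hi, hz⟩⟩⟩)
    (by
      intro i _ w hw
      by_cases k : Bdd μ (C.dec i) ∧ C.LeT C.kap (C.dec i) σ.r
      · obtain ⟨S, hS, hS'⟩ := trc_sur N hb hw.1 fun x => (h₀ x).trans (hw.2 x)
        obtain ⟨t, ht, ht'⟩ := cap.sur S hS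
        obtain ⟨ρ, k₁, k₂, k₃, k₄, k₅⟩ := cap.den t ht _ k.1 k.2
        refine ⟨trc e μ top b ρ.t, ⟨trc_intC N H (hs k₃) hb.le, fun x z hz => ?_⟩,
          fun _ _ => ⟨ρ, k₁, k₂, k₃, fun _ => subset_rfl, k₅⟩⟩
        obtain ⟨a₁, a₂, a₃, a₄, a₅⟩ := hS' t ht' x hz
        exact ⟨a₁, a₂, a₃, a₄, k₄ a₅⟩
      · exact ⟨w, ⟨hw.1, fun _ => subset_rfl⟩, fun k₁ k₂ => absurd ⟨k₁, k₂⟩ k⟩)
  have h0 : (0 : Od) < μ := hμ.isSuccLimit.bot_lt
  refine ⟨fun x => {z | ∃ i < μ, z ∈ f i x},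
    M4_union le_rfl f (fun i hi => (hf i hi).1.1) fun i j hij hj => (hm i j hij hj).2,
    fun x z hz => ⟨0, h0, (hf 0 h0).1.2 x hz⟩, fun r hr hr' => ?_⟩
  obtain ⟨ξ, hξ, rfl⟩ := C.hdec μ r hμ hr
  obtain ⟨ρ, k₁, k₂, k₃, k₄, k₅⟩ := (hf ξ hξ).2 hr hr'
  exact ⟨ρ, k₁, k₂, k₃, fun x z hz => ⟨ξ, hξ, k₄ x hz⟩, k₅⟩

/-- The master condition is generic. -/
theorem mc_gen (N : Nice C X μ top e) (H : C.Hl σ X XT) (h₁ : Spec π.r μ)
    (h₂ : Intv π.r μ (top + 1)) (h₃ : ∀ x, trc e μ top top σ.t x ⊆ π.r.h x)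
    (h₄ : C.LeT C.kap (res μ π.r) σ.r)
    (K : ∀ ρ ≤ π, ∀ ρ' : C.Po, ρ'.t ∈ XT → C.LeT C.kap ρ.r ρ'.r →
      (∀ x, trc e μ top top ρ'.t x ⊆ ρ.r.h x) → ρ ≤ ρ')
    {D : C.Po → Prop} (hD : ∀ p q, D p → q ≤ p → D q) (hy : y ∈ X) (hy' : C.kap ≤ y)
    (hs : XT' ⊆ XT) (cap : C.Cap σ X μ y XT' D) : ∀ ρ ≤ π, ∃ ρ' ≤ ρ, D ρ' := by
  intro ρ hρ
  obtain ⟨b, hb, rfl⟩ := (N.rng y).1 hy
  have hμk : μ < C.kap := N.mu_lt.trans N.top_lt
  have hμb : μ ≤ b := by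
    by_contra hn
    have hn := not_le.1 hn
    rw [N.id b hn] at hy'
    exact (hn.trans hμk).not_ge hy'
  have hμ : Inac μ := sp_inac N.sp
  have hρπ : C.LeT C.kap ρ.r π.r := hρ.1
  have sρ := (inR_scope ρ.hr).1
  have sπ := (inR_scope π.hr).1
  have hbt : b ≤ top + 1 := hb.le.trans (le_add_right le_rfl)
  have hc : Icc μ b ⊆ ρ.r.c := (Icc_subset_Icc_right hbt).trans
    (le_intv hρπ.le (hμb.trans hbt) h₂).1
  obtain ⟨w, hw, hw₀, hcap⟩ := M4_chain N H hb hs cap (intC_of sρ.v hc) (by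
    rintro x z ⟨a₁, a₂, a₃, a₄, a₅⟩
    rw [if_pos ⟨a₁, a₂⟩]
    exact le_h hρπ.le x (h₃ x ⟨a₁, a₂.trans hb, a₃, a₄, a₅⟩))
  obtain ⟨r₁, k₁, -, -, -, k₂⟩ := set_int sρ hc
    ((lt_add_one _).trans (spec_inac sπ.v h₁).2.1) (hb.trans N.top_lt).le
    (fun z hz hz' => N.noin z hz (hz'.trans hbt)) hw (fun x hx hx' => by
      have := hw₀ x
      rwa [if_pos ⟨hx, hx'⟩] at this)
  have s₁ := leT_scope sρ k₁
  have l₁ : C.LeT C.kap r₁ π.r := leT_trans k₁ hρπ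
  have hμπ : μ ∈ π.r.c := spec_mem sπ.v h₁
  have sp₁ : Spec r₁ μ := (le_spec_iff l₁.le hμπ).2 h₁
  obtain ⟨r₂, k₃, -, ρ₁, k₄, k₅, k₆, k₇⟩ := gen
    (D := fun s => μ ∉ s.c ∧ ∃ ρ₁ : C.Po, C.LeT C.kap s ρ₁.r ∧ ρ₁.t ∈ XT' ∧
      (∀ x, trc e μ top b ρ₁.t x ⊆ w x) ∧ D ρ₁) s₁.v sp₁
    (by
      rintro r r' hr ⟨hn, ρ₁, a₁, a₂⟩ h
      exact ⟨rg_nmem h hn, ρ₁, leT_trans
        (leT_mono h hr (leT_scope (inR_scope ρ₁.hr).1 a₁) hμk.le) a₁, a₂⟩)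
    (by
      intro r' hr'
      obtain ⟨a₁, a₂, -⟩ := res_scope s₁.v sp₁
      have a₃ := leT_scope a₁ hr'
      have a₄ : Bdd μ r' := bdd_of_below a₃.v hμ (rb5x_top a₃ (rg_nmem hr' a₂)).2 a₃.bel
      have a₅ : C.LeT C.kap r' σ.r := leT_trans (leT_mono (leT_trans hr' (res_le l₁.le h₁))
        (res_scope sπ.v h₁).1 (leT_scope (inR_scope σ.hr).1 h₄) hμk.le) h₄
      obtain ⟨ρ₁, b₁, b₂, b₃⟩ := hcap r' a₄ a₅
      exact ⟨ρ₁.r, M4_cut b₂ hμ b₁, fun h => lt_irrefl μ ((below_of_bdd (C := C) hμ b₁).1 h),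
        ρ₁, leT_refl (inR_scope ρ₁.hr).1, b₃⟩)
  have l₂ : C.LeT C.kap r₂ r₁ :=
    leT_mono k₃ (scope_of_mem s₁.v (spec_mem s₁.v sp₁)) s₁ hμk.le
  have l₃ : C.LeT C.kap r₂ ρ.r := leT_trans l₂ k₁
  have l₄ : C.LeT C.kap r₂ π.r := leT_trans l₂ l₁
  have i₂ := inR_scope (inR_le ρ.hr l₃)
  refine ⟨setR ρ r₂ l₃, setR_le _ _ _, hD ρ₁ _ k₇ (K _ ((setR_le _ _ _).trans hρ) ρ₁ (hs k₅)
    (leT_trans (le_res i₂.1 i₂.2.1 ((le_spec_iff l₄.le hμπ).2 h₁)) k₄) ?_)⟩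
  rintro x z ⟨a₁, a₂, a₃, a₄, a₅⟩
  show z ∈ r₂.h x
  rcases lt_or_ge x b with hx | hx
  · refine le_h l₂.le x ?_
    rw [k₂ x a₁ hx]
    exact k₆ x ⟨a₁, hx, a₃, a₄, a₅⟩
  · refine le_h l₄.le x (h₃ x ⟨a₁, a₂, a₃, a₄, cap.md _ k₅ _ a₅ ?_⟩)
    rcases hx.eq_or_lt with rfl | hx
    · exact le_rfl
    · exact (N.mono b x hx a₂).le

end Ctx

end Pool.Agent.MP_85ce7b_lc

end
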