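import Pool.Agent.MP_c6cf52_lc.Fml
import Pool.Agent.MP_85ce7b_lc.L.Defs

section

namespace Pool.Agent.MP_85ce7b_lc

open Pool.Agent.MP_c6cf52_lc

universe u v

open Cardinal in
/-- The height of the ground universe: an inaccessible cardinal. -/
class Sz (P : Type 2) where
  θ : Cardinal.{1}
  inacc : θ.IsInaccessible

open Cardinal in
/-- Small types. -/
class Sm (P : Type 2) [Sz P] (ι : Type 2) : Prop where
  out : Cardinal.mk ι < lift.{2} (Sz.θ P)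

section SmInst

open Cardinal

variable {P : Type 2} [Sz P] {α β : Type 2}

theorem Sm.of_inj (f : α → β) (hf : Function.Injective f) [h : Sm P β] : Sm P α :=
  ⟨(mk_le_of_injective hf).trans_lt h.out⟩

instance : Sm P (ULift.{2} ℕ) := ⟨by simpa using (Sz.inacc (P := P)).aleph0_lt⟩

theorem Sm.iio {a : Ordinal.{1}} (h : a < (Sz.θ P).ord) : Sm P (Set.Iio a) :=
  ⟨by rw [Ordinal.mk_Iio_ordinal, lift_lt]; exact lt_ord.1 h⟩

theorem Sm.small [h : Sm P α] : Small.{1} α := small_iff_lift_mk_lt_univ.2 (by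
  simpa using h.out.trans (lift_lt_univ.{1} _))

theorem Sm.of_countable [Countable α] : Sm P α := by
  obtain ⟨f, hf⟩ := exists_injective_nat α
  exact Sm.of_inj (fun a => (⟨f a⟩ : ULift.{2} ℕ)) fun a b h => hf (congrArg ULift.down h)

instance : Sm P (ULift.{2} Bool) := Sm.of_countable

instance : Sm P PEmpty.{3} := Sm.of_countable

instance : Sm P PUnit.{3} := Sm.of_countable

instance [h : Sm P α] : Sm P (Set α) := ⟨by
  obtain ⟨c, hc, e⟩ := lt_lift_iff.1 h.out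
  rw [mk_set, ← e, ← lift_two_power, lift_lt]
  exact (Sz.inacc (P := P)).isStrongLimit.two_power_lt hc⟩

instance {f : α → Type 2} [h : Sm P α] [h' : ∀ i, Sm P (f i)] : Sm P (Σ i, f i) :=
  ⟨by
    rw [mk_sigma]
    exact sum_lt_of_isRegular (Sz.inacc (P := P)).isRegular.lift h.out fun i => (h' i).out⟩

instance [Sm P α] [Sm P β] : Sm P (α × β) :=
  Sm.of_inj (fun z => (⟨z.1, z.2⟩ : Σ _ : α, β)) fun a b h => by
    simpa [Prod.ext_iff] using h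

instance [Sm P α] (p : α → Prop) : Sm P {x // p x} := Sm.of_inj _ Subtype.val_injective

instance [Sm P α] (S : Set α) : Sm P S := Sm.of_inj _ Subtype.val_injective

instance [Sm P α] [Sm P β] : Sm P (α ⊕ β) :=
  Sm.of_inj (β := Set α × Set β) (fun z => (Sum.inl ⁻¹' {z}, Sum.inr ⁻¹' {z})) (by
    rintro (a | a) (b | b) h <;> simp only [Prod.mk.injEq, Set.ext_iff] at h
    · simpa using h.1 a
    · simpa using h.1 a
    · simpa using h.2 a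
    · simpa using h.2 a)

instance [Sm P α] [Sm P β] : Sm P (α → β) :=
  Sm.of_inj (β := Set (α × β)) (fun f => {z | f z.1 = z.2}) fun f g h => funext fun a => by
    have := Set.ext_iff.1 h (a, f a)
    simpa [eq_comm] using this

end SmInst

/-- `P`-names with small index types. -/
inductive Name (P : Type 2) [Sz P] : Type 3
  | mk (ι : Type 2) [h : Sm P ι] (A : ι → Name P) (B : ι → P) : Name P

namespace Name

variable {P : Type 2} [Sz P]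

def I : Name P → Type 2
  | @mk _ _ ι _ _ _ => ι

def A : (τ : Name P) → τ.I → Name P
  | @mk _ _ _ _ A _ => A

def B : (τ : Name P) → τ.I → P
  | @mk _ _ _ _ _ B => B

instance : (τ : Name P) → Sm P τ.I
  | @mk _ _ _ h _ _ => h

@[simp] theorem A_mk (ι : Type 2) [Sm P ι] (A : ι → Name P) (B : ι → P) : (mk ι A B).A = A := rfl
@[simp] theorem B_mk (ι : Type 2) [Sm P ι] (A : ι → Name P) (B : ι → P) : (mk ι A B).B = B := rfl

theorem ind {C : Name P → Prop} (h : ∀ τ : Name P, (∀ i, C (τ.A i)) → C τ) : ∀ τ, C τ := by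
  intro τ
  induction τ with
  | mk ι A B ih => exact h _ ih

section Order

variable [Preorder P]

def FEq : Name P → Name P → P → Prop
  | @mk _ _ _ _ A B, @mk _ _ _ _ A' B', p =>
    (∀ i, ∀ q ≤ p, q ≤ B i → ∃ r ≤ q, ∃ j, r ≤ B' j ∧ FEq (A i) (A' j) r) ∧
    (∀ j, ∀ q ≤ p, q ≤ B' j → ∃ r ≤ q, ∃ i, r ≤ B i ∧ FEq (A i) (A' j) r)

def FMem (σ τ : Name P) (p : P) : Prop :=
  ∀ q ≤ p, ∃ r ≤ q, ∃ j, r ≤ τ.B j ∧ FEq σ (τ.A j) r

theorem feq_def (σ τ : Name P) (p : P) : FEq σ τ p ↔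
    (∀ i, ∀ q ≤ p, q ≤ σ.B i → ∃ r ≤ q, ∃ j, r ≤ τ.B j ∧ FEq (σ.A i) (τ.A j) r) ∧
    (∀ j, ∀ q ≤ p, q ≤ τ.B j → ∃ r ≤ q, ∃ i, r ≤ σ.B i ∧ FEq (σ.A i) (τ.A j) r) := by
  cases σ; cases τ; rfl

theorem FEq.symm : ∀ {σ τ : Name P} {p : P}, FEq σ τ p → FEq τ σ p := by
  intro σ
  induction σ using Name.ind with
  | h σ ih =>
    intro τ p h
    rw [feq_def] at h ⊢
    refine ⟨fun j q hq hj => ?_, fun i q hq hi => ?_⟩
    · obtain ⟨r, hr, i, hi, e⟩ := h.2 j q hq hj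
      exact ⟨r, hr, i, hi, ih i e⟩
    · obtain ⟨r, hr, j, hj, e⟩ := h.1 i q hq hi
      exact ⟨r, hr, j, hj, ih i e⟩

theorem FEq.mono {σ τ : Name P} {p q : P} (h : FEq σ τ p) (hq : q ≤ p) : FEq σ τ q := by
  rw [feq_def] at h ⊢
  exact ⟨fun i r hr => h.1 i r (hr.trans hq), fun j r hr => h.2 j r (hr.trans hq)⟩

theorem FMem.mono {σ τ : Name P} {p q : P} (h : FMem σ τ p) (hq : q ≤ p) : FMem σ τ q :=
  fun r hr => h r (hr.trans hq)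

theorem feq_iff (σ τ : Name P) (p : P) : FEq σ τ p ↔
    (∀ i, ∀ q ≤ p, q ≤ σ.B i → FMem (σ.A i) τ q) ∧
    (∀ j, ∀ q ≤ p, q ≤ τ.B j → FMem (τ.A j) σ q) := by
  rw [feq_def]
  constructor
  · rintro ⟨h₁, h₂⟩
    refine ⟨fun i q hq hi r hr => h₁ i r (hr.trans hq) (hr.trans hi), fun j q hq hj r hr => ?_⟩
    obtain ⟨s, hs, i, hi, e⟩ := h₂ j r (hr.trans hq) (hr.trans hj)
    exact ⟨s, hs, i, hi, e.symm⟩
  · rintro ⟨h₁, h₂⟩
    refine ⟨fun i q hq hi => h₁ i q hq hi q le_rfl, fun j q hq hj => ?_⟩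
    obtain ⟨s, hs, i, hi, e⟩ := h₂ j q hq hj q le_rfl
    exact ⟨s, hs, i, hi, e.symm⟩

theorem FMem.reg {σ τ : Name P} {p : P} (h : ∀ q ≤ p, ∃ r ≤ q, FMem σ τ r) : FMem σ τ p := by
  intro q hq
  obtain ⟨r, hr, h⟩ := h q hq
  obtain ⟨s, hs, h⟩ := h r le_rfl
  exact ⟨s, hs.trans hr, h⟩

theorem FEq.reg {σ τ : Name P} {p : P} (h : ∀ q ≤ p, ∃ r ≤ q, FEq σ τ r) : FEq σ τ p := by
  rw [feq_iff]
  refine ⟨fun i q hq hi => FMem.reg fun s hs => ?_, fun j q hq hj => FMem.reg fun s hs => ?_⟩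
  · obtain ⟨r, hr, e⟩ := h s (hs.trans hq)
    exact ⟨r, hr, ((feq_iff _ _ _).1 e).1 i r le_rfl (hr.trans (hs.trans hi))⟩
  · obtain ⟨r, hr, e⟩ := h s (hs.trans hq)
    exact ⟨r, hr, ((feq_iff _ _ _).1 e).2 j r le_rfl (hr.trans (hs.trans hj))⟩

theorem FMem.of_feq {σ τ : Name P} {p : P} {j : τ.I} (hj : p ≤ τ.B j) (e : FEq σ (τ.A j) p) :
    FMem σ τ p := fun q hq => ⟨q, le_rfl, j, hq.trans hj, e.mono hq⟩

def Forces : Fml → (ℕ → Name P) → P → Prop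
  | .mem i j, w, p => FMem (w i) (w j) p
  | .eq i j, w, p => FEq (w i) (w j) p
  | .bot, _, _ => False
  | .imp φ ψ, w, p => ∀ q ≤ p, Forces φ w q → Forces ψ w q
  | .all φ, w, p => ∀ τ, Forces φ (cons τ w) p

theorem Forces.mono : ∀ {φ : Fml} {w : ℕ → Name P} {p q : P},
    Forces φ w p → q ≤ p → Forces φ w q := by
  intro φ
  induction φ with
  | mem i j => intro w p q h hq; exact FMem.mono h hq
  | eq i j => intro w p q h hq; exact FEq.mono h hq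
  | bot => intro w p q h _; exact h
  | imp φ ψ _ _ => intro w p q h hq r hr; exact h r (hr.trans hq)
  | all φ ih => intro w p q h hq τ; exact ih (h τ) hq

theorem Forces.reg : ∀ {φ : Fml} {w : ℕ → Name P} {p : P},
    (∀ q ≤ p, ∃ r ≤ q, Forces φ w r) → Forces φ w p := by
  intro φ
  induction φ with
  | mem i j => intro w p h; exact FMem.reg h
  | eq i j => intro w p h; exact FEq.reg h
  | bot => intro w p h; obtain ⟨_, _, h⟩ := h p le_rfl; exact h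
  | imp φ ψ _ ih₂ =>
    intro w p h q hq hφ
    refine ih₂ fun r hr => ?_
    obtain ⟨s, hs, h⟩ := h r (hr.trans hq)
    exact ⟨s, hs, h s le_rfl (hφ.mono (hs.trans hr))⟩
  | all φ ih =>
    intro w p h τ
    refine ih fun q hq => ?_
    obtain ⟨r, hr, h⟩ := h q hq
    exact ⟨r, hr, h τ⟩

end Order

/-! ### Special names -/

def emp : Name P := mk PEmpty PEmpty.elim PEmpty.elim

instance : Inhabited (Name P) := ⟨emp⟩

open Classical in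
noncomputable def child (k : ℕ) (τ : Name P) : Name P :=
  if h : ∃ f : ℕ → τ.I, Function.Surjective f then τ.A (h.choose k) else emp

variable [Preorder P]

omit [Sz P] in
/-- `m` is the meet of `s` and `q`. -/
def Meet (m s q : P) : Prop := ∀ t, t ≤ m ↔ t ≤ s ∧ t ≤ q

/-- `S` captures all families of dense open sets indexed by `I`. -/
def Capt (I : Type 2) (S : Set P) : Prop :=
  ∀ D : I → P → Prop, (∀ i p q, D i p → q ≤ p → D i q) → (∀ i p, ∃ q ≤ p, D i q) →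
    ∀ p, ∃ q ≤ p, ∀ i, ∀ r ≤ q, ∃ s ∈ S, ∃ m, D i m ∧ Meet m s q ∧ ∃ r' ≤ r, r' ≤ m

end Name

/-- Tameness of a class forcing. -/
class Tame (P : Type 2) [Sz P] [Preorder P] : Prop where
  tame : ∀ (I : Type 2) [Sm P I], ∃ S : Set P, Sm P S ∧ Name.Capt I S

namespace Name

variable {P : Type 2} [Sz P] [Preorder P]

theorem feq_refl (τ : Name P) : ∀ p, FEq τ τ p := by
  induction τ using Name.ind with
  | h τ ih =>
    exact fun p => (feq_def _ _ _).2 ⟨fun i q _ h => ⟨q, le_rfl, i, h, ih i q⟩,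
      fun i q _ h => ⟨q, le_rfl, i, h, ih i q⟩⟩

theorem forces_rename : ∀ (φ : Fml) (f : ℕ → ℕ) (w : ℕ → Name P) (p : P),
    Forces (φ.rename f) w p ↔ Forces φ (fun k => w (f k)) p := by
  intro φ
  induction φ with
  | mem i j => intro f w p; rfl
  | eq i j => intro f w p; rfl
  | bot => intro f w p; rfl
  | imp φ ψ ih₁ ih₂ => intro f w p; simp only [Fml.rename, Forces, ih₁, ih₂]
  | all φ ih =>
    intro f w p
    simp only [Fml.rename, Forces, ih]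
    refine forall_congr' fun x => ?_
    have : (fun k => cons x w (liftIdx f k)) = cons x (fun k => w (f k)) := by
      funext k; cases k <;> rfl
    rw [this]

section SS

variable [Tame P]

/-- The capturing set of conditions for the index set of a name. -/
noncomputable def SS (τ : Name P) : Set P := (Tame.tame (P := P) τ.I).choose

instance (τ : Name P) : Sm P (SS τ) := (Tame.tame (P := P) τ.I).choose_spec.1

theorem capt_SS (τ : Name P) : Capt τ.I (SS τ) := (Tame.tame (P := P) τ.I).choose_spec.2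

noncomputable def subN (τ : Name P) (S : Set (τ.I × SS τ)) : Name P :=
  mk S (fun x => τ.A x.1.1) (fun x => x.1.2.1)

noncomputable def sepN (τ : Name P) (φ : Fml) (l : List (Name P)) (q : P) : Name P :=
  subN τ {x | ∀ t ≤ x.2.1, t ≤ q → t ≤ τ.B x.1 ∧ Forces φ (env emp (τ.A x.1 :: l)) t}

end SS

open Classical in
noncomputable def wit (φ : Fml) (l : List (Name P)) (q : P) : Name P :=
  if h : ∃ ρ, Forces φ (env emp (ρ :: l)) q then h.choose else emp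

theorem wit_spec {φ : Fml} {l : List (Name P)} {q : P} {ρ : Name P}
    (h : Forces φ (env emp (ρ :: l)) q) : Forces φ (env emp (wit φ l q :: l)) q := by
  have h' : ∃ ρ, Forces φ (env emp (ρ :: l)) q := ⟨ρ, h⟩
  unfold wit
  rw [dif_pos h']
  exact h'.choose_spec

variable [OrderTop P]

/-- The name of the set of (the values of) a family of names. -/
def fam {ι : Type 2} [Sm P ι] (A : ι → Name P) : Name P := mk ι A (fun _ => ⊤)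

def upair (σ τ : Name P) : Name P := fam (fun b : ULift.{2} Bool => cond b.down σ τ)

def pairN (σ τ : Name P) : Name P := upair (upair σ σ) (upair σ τ)

def unionN (τ : Name P) : Name P := fam (fun x : Σ i : τ.I, (τ.A i).I => (τ.A x.1).A x.2)

noncomputable def powN [Tame P] (τ : Name P) : Name P := fam (subN τ)

open Classical in
noncomputable def collN [Tame P] (τ : Name P) (φ : Fml) (l : List (Name P)) (q : P) : Name P :=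
  fam (fun x : τ.I × SS τ => if h : ∃ m, Meet m x.2.1 q then wit φ (τ.A x.1 :: l) h.choose
    else emp)

open Classical in
/-- The canonical name of an ordinal. -/
noncomputable def oN : Ordinal.{1} → Name P :=
  (wellFounded_lt (α := Ordinal.{1})).fix fun a ih =>
    if h : a < (Sz.θ P).ord then @fam P _ _ _ (Set.Iio a) (Sm.iio h) (fun y => ih y.1 y.2)
    else emp

theorem oN_eq {a : Ordinal.{1}} (h : a < (Sz.θ P).ord) :
    (oN a : Name P) = @fam P _ _ _ (Set.Iio a) (Sm.iio h) (fun y => oN y.1) := by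
  unfold oN
  rw [WellFounded.fix_eq, dif_pos h]

/-- The rank of a name. -/
noncomputable def rk : Name P → Ordinal.{1}
  | @mk _ _ _ _ A _ => ⨆ i, Order.succ (rk (A i))

omit [Preorder P] [OrderTop P] in
theorem rk_def (τ : Name P) : rk τ = ⨆ i, Order.succ (rk (τ.A i)) := by cases τ; rfl

omit [Preorder P] [OrderTop P] in
theorem rk_lt (τ : Name P) (i : τ.I) : rk (τ.A i) < rk τ := by
  have := Sm.small (P := P) (α := τ.I)
  rw [rk_def τ]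
  exact (Order.lt_succ _).trans_le (Ordinal.le_iSup (fun i => Order.succ (rk (τ.A i))) i)

omit [Preorder P] [OrderTop P] in
theorem rk_small (τ : Name P) : rk τ < (Sz.θ P).ord := by
  induction τ using Name.ind with
  | h τ ih =>
    have := Sm.small (P := P) (α := τ.I)
    have hi := Sz.inacc (P := P)
    rw [rk_def, ← (equivShrink.{1} τ.I).symm.iSup_comp]
    refine Cardinal.iSup_lt_ord_of_isRegular hi.isRegular ?_ fun i =>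
      (Cardinal.isSuccLimit_ord hi.aleph0_lt.le).succ_lt (ih _)
    have h := Sm.out (P := P) (ι := τ.I)
    rw [← Cardinal.lift_lt.{1, 2}, Cardinal.lift_mk_shrink'']
    exact h

noncomputable def ordN {X : Type 2} [Sm P X] {r : X → X → Prop} (wf : WellFounded r) : X → Name P :=
  wf.fix (fun x ih => fam (fun y : {y // r y x} => ih y.1 y.2))

noncomputable def setN {X : Type 2} [Sm P X] {r : X → X → Prop} (wf : WellFounded r) (s : Set X) :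
    Name P :=
  fam (fun y : s => ordN wf y.1)

theorem ordN_eq {X : Type 2} [Sm P X] {r : X → X → Prop} (wf : WellFounded r) (x : X) :
    (ordN wf x : Name P) = setN wf {y | r y x} := by
  unfold ordN
  rw [wf.fix_eq]
  rfl

theorem natWf : WellFounded (fun a b : ULift.{2} ℕ => a.down < b.down) :=
  InvImage.wf ULift.down Nat.lt_wfRel.wf

theorem woWf (X : Type 2) : WellFounded (WellOrderingRel : X → X → Prop) :=
  (inferInstance : IsWellOrder X WellOrderingRel).wf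

noncomputable def enumN (τ : Name P) : Name P :=
  fam (fun j : τ.I => pairN (ordN (woWf τ.I) j) (τ.A j))

open Classical in
noncomputable def idxN (τ σ : Name P) : Name P :=
  if h : ∃ j, τ.A j = σ then pairN (ordN (woWf τ.I) h.choose) (τ.A h.choose) else emp

/-- The closure operations. -/
noncomputable def op [Tame P] (t k : ℕ) (l : List (Name P)) : Name P :=
  match t with
  | 0 => emp
  | 1 => upair (env emp l 0) (env emp l 1)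
  | 2 => unionN (env emp l 0)
  | 3 => oN (rk (env emp l 0))
  | 4 => powN (env emp l 0)
  | 5 => oN (Order.succ (rk (env emp l 0)))
  | 6 => oN Ordinal.omega0
  | 7 => setN natWf Set.univ
  | 8 => child k (env emp l 0)
  | 9 => enumN (env emp l 0)
  | _ => idxN (env emp l 0) (env emp l 1)

def reqMem (σ τ : Name P) (q : P) (ρ : Name P) : Prop :=
  (∀ r ≤ q, ¬ FMem σ τ r) ∨ ∃ i, q ≤ τ.B i ∧ FEq σ (τ.A i) q ∧ ρ = τ.A i

def reqEq (σ τ : Name P) (q : P) (ρ : Name P) : Prop :=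
  FEq σ τ q ∨ (∃ i, q ≤ σ.B i ∧ (∀ r ≤ q, ¬ FMem (σ.A i) τ r) ∧ ρ = σ.A i) ∨
    (∃ i, q ≤ τ.B i ∧ (∀ r ≤ q, ¬ FMem (τ.A i) σ r) ∧ ρ = τ.A i)

def reqDec (φ : Fml) (l : List (Name P)) (q : P) : Prop :=
  Forces φ (env emp l) q ∨ ∀ r ≤ q, ¬ Forces φ (env emp l) r

def reqWit (φ : Fml) (l : List (Name P)) (q : P) (ρ : Name P) : Prop :=
  (Forces φ (env emp (ρ :: l)) q ∧ ρ = wit φ l q) ∨
    ∀ r ≤ q, ∀ ρ', ¬ Forces φ (env emp (ρ' :: l)) r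

def reqSep [Tame P] (τ : Name P) (φ : Fml) (l : List (Name P)) (q : P) (ρ : Name P) : Prop :=
  ρ = sepN τ φ l q ∧ ∀ i, ∀ r ≤ q, r ≤ τ.B i → Forces φ (env emp (τ.A i :: l)) r →
    FMem (τ.A i) ρ r

def reqColl [Tame P] (τ : Name P) (φ : Fml) (l : List (Name P)) (q : P) (ρ : Name P) : Prop :=
  ∀ i, ∀ r ≤ q, ∀ σ, Forces φ (env emp (σ :: τ.A i :: l)) r →
    ∃ r' ≤ r, ∃ σ', FMem σ' ρ r' ∧ Forces φ (env emp (σ' :: τ.A i :: l)) r'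

/-- The basic requirements. -/
def basic [Tame P] (t : ℕ) (φ : Fml) (k : ℕ) (l : List (Name P)) (q : P) (ρ : Name P) : Prop :=
  match t with
  | 0 => reqMem (env emp l 0) (env emp l 1) q ρ
  | 1 => reqEq (env emp l 0) (env emp l 1) q ρ
  | 2 => reqDec φ l q
  | 3 => reqWit φ l q ρ
  | 4 => reqSep (env emp l 0) φ l.tail q ρ
  | 5 => reqColl (env emp l 0) φ l.tail q ρ
  | t + 6 => ρ = op t k l

omit [OrderTop P] in
theorem reqMem_dense (σ τ : Name P) (p : P) : ∃ q ≤ p, ∃ ρ, reqMem σ τ q ρ := by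
  by_cases h : ∀ r ≤ p, ¬ FMem σ τ r
  · exact ⟨p, le_rfl, emp, Or.inl h⟩
  · push Not at h
    obtain ⟨r, hr, h⟩ := h
    obtain ⟨s, hs, j, hj, e⟩ := h r le_rfl
    exact ⟨s, hs.trans hr, _, Or.inr ⟨j, hj, e, rfl⟩⟩

omit [OrderTop P] in
theorem exists_not_fmem {σ τ : Name P} {q : P} (h : ¬ FMem σ τ q) :
    ∃ r ≤ q, ∀ s ≤ r, ¬ FMem σ τ s := by
  by_contra h'
  push Not at h'
  exact h (FMem.reg h')

omit [OrderTop P] in
theorem reqEq_dense (σ τ : Name P) (p : P) : ∃ q ≤ p, ∃ ρ, reqEq σ τ q ρ := by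
  by_cases h : FEq σ τ p
  · exact ⟨p, le_rfl, emp, Or.inl h⟩
  · rw [feq_iff, not_and_or] at h
    rcases h with h | h
    · push Not at h
      obtain ⟨i, q, hq, hi, h⟩ := h
      obtain ⟨r, hr, h⟩ := exists_not_fmem h
      exact ⟨r, hr.trans hq, _, Or.inr (Or.inl ⟨i, hr.trans hi, h, rfl⟩)⟩
    · push Not at h
      obtain ⟨i, q, hq, hi, h⟩ := h
      obtain ⟨r, hr, h⟩ := exists_not_fmem h
      exact ⟨r, hr.trans hq, _, Or.inr (Or.inr ⟨i, hr.trans hi, h, rfl⟩)⟩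

omit [OrderTop P] in
theorem reqSep_dense [Tame P] (τ : Name P) (φ : Fml) (l : List (Name P)) (p : P) :
    ∃ q ≤ p, ∃ ρ, reqSep τ φ l q ρ := by
  obtain ⟨q, hq, H⟩ := capt_SS τ (fun i t => (t ≤ τ.B i ∧ Forces φ (env emp (τ.A i :: l)) t) ∨
    ∀ t' ≤ t, ¬ (t' ≤ τ.B i ∧ Forces φ (env emp (τ.A i :: l)) t'))
    (fun i a b h hb => h.imp (fun h => ⟨hb.trans h.1, h.2.mono hb⟩)
      fun h t ht => h t (ht.trans hb))
    (fun i a => by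
      by_cases h : ∀ t' ≤ a, ¬ (t' ≤ τ.B i ∧ Forces φ (env emp (τ.A i :: l)) t')
      · exact ⟨a, le_rfl, Or.inr h⟩
      · push Not at h
        obtain ⟨t, ht, h⟩ := h
        exact ⟨t, ht, Or.inl h⟩) p
  refine ⟨q, hq, _, rfl, fun i r hr hi hf r₁ hr₁ => ?_⟩
  obtain ⟨s, hs, m, hm, hM, r', h₁, h₂⟩ := H i r₁ (hr₁.trans hr)
  rcases hm with hm | hm
  · exact ⟨r', h₁, ⟨(i, ⟨s, hs⟩), fun t ht ht' =>
      ⟨((hM t).2 ⟨ht, ht'⟩).trans hm.1, hm.2.mono ((hM t).2 ⟨ht, ht'⟩)⟩⟩,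
      ((hM r').1 h₂).1, feq_refl _ _⟩
  · exact absurd ⟨(h₁.trans hr₁).trans hi, hf.mono (h₁.trans hr₁)⟩ (hm r' h₂)

theorem reqColl_dense [Tame P] (τ : Name P) (φ : Fml) (l : List (Name P)) (p : P) :
    ∃ q ≤ p, ∃ ρ, reqColl τ φ l q ρ := by
  obtain ⟨q, hq, H⟩ := capt_SS τ (fun i t => (∃ σ, Forces φ (env emp (σ :: τ.A i :: l)) t) ∨
    ∀ t' ≤ t, ¬ ∃ σ, Forces φ (env emp (σ :: τ.A i :: l)) t')
    (fun i a b h hb => h.imp (fun ⟨σ, h⟩ => ⟨σ, h.mono hb⟩) fun h t ht => h t (ht.trans hb))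
    (fun i a => by
      by_cases h : ∀ t' ≤ a, ¬ ∃ σ, Forces φ (env emp (σ :: τ.A i :: l)) t'
      · exact ⟨a, le_rfl, Or.inr h⟩
      · push Not at h
        obtain ⟨t, ht, h⟩ := h
        exact ⟨t, ht, Or.inl h⟩) p
  refine ⟨q, hq, collN τ φ l q, fun i r hr σ hf => ?_⟩
  obtain ⟨s, hs, m, hm, hM, r', h₁, h₂⟩ := H i r hr
  rcases hm with ⟨σ', hm⟩ | hm
  · have h : ∃ m, Meet m s q := ⟨m, hM⟩
    have h₃ : h.choose ≤ m := (hM _).2 ((h.choose_spec _).1 le_rfl)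
    have h₄ : r' ≤ h.choose := (h.choose_spec _).2 ((hM _).1 h₂)
    refine ⟨r', h₁, _, FMem.of_feq (j := (i, ⟨s, hs⟩)) le_top (feq_refl _ _), ?_⟩
    simp only [collN, fam, A_mk, dif_pos h]
    exact (wit_spec (hm.mono h₃)).mono h₄
  · exact absurd ⟨σ, hf.mono h₁⟩ (hm r' h₂)

theorem basic_dense [Tame P] (t : ℕ) (φ : Fml) (k : ℕ) (l : List (Name P)) (p : P) :
    ∃ q ≤ p, ∃ ρ, basic t φ k l q ρ := by
  match t with
  | 0 => exact reqMem_dense _ _ p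
  | 1 => exact reqEq_dense _ _ p
  | 2 =>
    by_cases h : ∀ r ≤ p, ¬ Forces φ (env emp l) r
    · exact ⟨p, le_rfl, emp, Or.inr h⟩
    · push Not at h
      obtain ⟨r, hr, h⟩ := h
      exact ⟨r, hr, emp, Or.inl h⟩
  | 3 =>
    by_cases h : ∀ r ≤ p, ∀ ρ', ¬ Forces φ (env emp (ρ' :: l)) r
    · exact ⟨p, le_rfl, emp, Or.inr h⟩
    · push Not at h
      obtain ⟨r, hr, ρ, h⟩ := h
      exact ⟨r, hr, _, Or.inl ⟨wit_spec h, rfl⟩⟩
  | 4 => exact reqSep_dense _ _ _ p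
  | 5 => exact reqColl_dense _ _ _ p
  | t + 6 => exact ⟨p, le_rfl, _, rfl⟩

end Name

/-- Bookkeeping: a decreasing sequence and a set meeting countably many requirements. -/
theorem exists_generic {P : Type u} [Preorder P] {α : Type v} [Inhabited α] {ι : Type*}
    [Countable ι] [Nonempty ι] (D : ι → List α → P → α → Prop)
    (hD : ∀ i l p, ∃ q ≤ p, ∃ a, D i l q a) (p₀ : P) :
    ∃ (N : Set α) (s : ℕ → P), Antitone s ∧ s 0 = p₀ ∧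
      ∀ i l, (∀ x ∈ l, x ∈ N) → ∃ n, ∃ a ∈ N, D i l (s n) a := by
  classical
  obtain ⟨e, he⟩ := exists_surjective_nat (ι × List ℕ)
  choose q hq a ha using hD
  let step : ℕ → P × (ℕ → α) → P × (ℕ → α) := fun n st =>
    (q (e n.unpair.1).1 ((e n.unpair.1).2.map st.2) st.1,
      Function.update st.2 n (a (e n.unpair.1).1 ((e n.unpair.1).2.map st.2) st.1))
  let S : ℕ → P × (ℕ → α) := fun n => Nat.rec (p₀, fun _ => default) step n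
  have hS : ∀ n, S (n + 1) = step n (S n) := fun n => rfl
  let τ : ℕ → α := fun n => (S (n + 1)).2 n
  have stable : ∀ k n, k < n → (S n).2 k = τ k := by
    intro k n hkn
    induction n, hkn using Nat.le_induction with
    | base => rfl
    | succ n hn ih =>
      rw [hS]
      simp only [step]
      rw [Function.update_of_ne (by omega)]
      exact ih
  refine ⟨Set.range τ, fun n => (S n).1, antitone_nat_of_succ_le fun n => ?_, rfl, ?_⟩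
  · rw [hS]; exact hq _ _ _
  · intro i l hl
    obtain ⟨ks, rfl⟩ : ∃ ks : List ℕ, l = ks.map τ := by
      induction l with
      | nil => exact ⟨[], rfl⟩
      | cons x l ih =>
        obtain ⟨ks, rfl⟩ := ih fun y hy => hl y (List.mem_cons_of_mem _ hy)
        obtain ⟨k, rfl⟩ := hl x List.mem_cons_self
        exact ⟨k :: ks, rfl⟩
    obtain ⟨m, hm⟩ := he (i, ks)
    let n := Nat.pair m (ks.sum + 1)
    have hn : ks.map (S n).2 = ks.map τ := by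
      refine List.map_congr_left fun k hk => stable k n ?_
      have h₁ := List.single_le_sum (l := ks) (fun _ _ => Nat.zero_le _) k hk
      have h₂ := Nat.right_le_pair m (ks.sum + 1)
      omega
    refine ⟨n + 1, τ n, ⟨n, rfl⟩, ?_⟩
    have h := ha i (ks.map τ) (S n).1
    have e1 : n.unpair.1 = m := by simp [n]
    have e2 : (S (n + 1)).1 = q i (ks.map τ) (S n).1 := by
      rw [hS]; simp only [step, e1, hm, hn]
    have e3 : τ n = a i (ks.map τ) (S n).1 := by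
      show (S (n + 1)).2 n = _
      rw [hS]; simp only [step, e1, hm, hn, Function.update_self]
    show D i (ks.map τ) (S (n + 1)).1 (τ n)
    rw [e2, e3]
    exact h

/-- A filter on `P` that is generic over a set of names with enough closure properties. -/
structure Gen (P : Type 2) [Sz P] [Preorder P] [OrderTop P] [Tame P] where
  N : Set (Name P)
  G : Set P
  up : ∀ {p q}, p ∈ G → p ≤ q → q ∈ G
  dir : ∀ {p q}, p ∈ G → q ∈ G → ∃ r ∈ G, r ≤ p ∧ r ≤ q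
  top : ⊤ ∈ G
  meets : ∀ t φ k l, (∀ x ∈ l, x ∈ N) → ∃ q ∈ G, ∃ ρ ∈ N, Name.basic t φ k l q ρ

theorem exists_gen2 {P : Type 2} [Sz P] [Preorder P] [OrderTop P] [Tame P] (p : P)
    (C : Set (Name P)) (hC : C.Countable) {J : Type*} [Countable J]
    (R : J → List (Name P) → P → Name P → Prop) (hR : ∀ j l p, ∃ q ≤ p, ∃ ρ, R j l q ρ) :
    ∃ g : Gen P, p ∈ g.G ∧ C ⊆ g.N ∧
      ∀ j l, (∀ x ∈ l, x ∈ g.N) → ∃ q ∈ g.G, ∃ ρ ∈ g.N, R j l q ρ := by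
  have := hC.to_subtype
  let D : ((ℕ × Fml × ℕ) ⊕ C) ⊕ J → List (Name P) → P → Name P → Prop := fun i l q ρ =>
    match i with
    | .inl (.inl i) => Name.basic i.1 i.2.1 i.2.2 l q ρ
    | .inl (.inr c) => ρ = c.1
    | .inr j => R j l q ρ
  have : Nonempty (((ℕ × Fml × ℕ) ⊕ C) ⊕ J) := ⟨.inl (.inl (0, .bot, 0))⟩
  obtain ⟨N, s, hs, h0, h⟩ := exists_generic D (by
    rintro ((i | c) | j) l p
    · exact Name.basic_dense _ _ _ _ _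
    · exact ⟨p, le_rfl, _, rfl⟩
    · exact hR j l p) p
  refine ⟨⟨N, {q | ∃ n, s n ≤ q}, ?_, ?_, ⟨0, le_top⟩, ?_⟩, ⟨0, h0.le⟩, ?_, ?_⟩
  · rintro p q ⟨n, hn⟩ hpq
    exact ⟨n, hn.trans hpq⟩
  · rintro p q ⟨n, hn⟩ ⟨m, hm⟩
    exact ⟨s (max n m), ⟨_, le_rfl⟩, (hs (le_max_left _ _)).trans hn,
      (hs (le_max_right _ _)).trans hm⟩
  · intro t φ k l hl
    obtain ⟨n, a, ha, h⟩ := h (.inl (.inl (t, φ, k))) l hl
    exact ⟨s n, ⟨n, le_rfl⟩, a, ha, h⟩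
  · intro c hc
    obtain ⟨n, a, ha, h⟩ := h (.inl (.inr ⟨c, hc⟩)) [] (by simp)
    exact (show a = c from h) ▸ ha
  · intro j l hl
    obtain ⟨n, a, ha, h⟩ := h (.inr j) l hl
    exact ⟨s n, ⟨n, le_rfl⟩, a, ha, h⟩

theorem exists_gen {P : Type 2} [Sz P] [Preorder P] [OrderTop P] [Tame P] (p : P)
    (C : Set (Name P)) (hC : C.Countable) : ∃ g : Gen P, p ∈ g.G ∧ C ⊆ g.N :=
  let ⟨g, h₁, h₂, _⟩ := exists_gen2 p C hC (J := Empty) (fun _ _ _ _ => True)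
    fun j => j.elim
  ⟨g, h₁, h₂⟩

end Pool.Agent.MP_85ce7b_lc

end

section

namespace Pool.Agent.MP_85ce7b_lc

open Pool.Agent.MP_c6cf52_lc

open Name

universe u

namespace Gen

variable {P : Type 2} [Sz P] [Preorder P] [OrderTop P] [Tame P] (g : Gen P)

/-- The value of a name. -/
noncomputable def val : Name P → ZFSet.{2}
  | @Name.mk _ _ ι _ A B => ZFSet.range (fun i : {i : ι // B i ∈ g.G ∧ A i ∈ g.N} => val (A i.1))

theorem mem_val {z : ZFSet.{2}} {τ : Name P} :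
    z ∈ g.val τ ↔ ∃ i, τ.B i ∈ g.G ∧ τ.A i ∈ g.N ∧ g.val (τ.A i) = z := by
  cases τ with
  | mk ι A B =>
    simp only [val, ZFSet.mem_range, Subtype.exists, exists_prop, and_assoc]
    rfl

theorem op_mem (t : ℕ) (φ : Fml) (k : ℕ) (l : List (Name P)) (hl : ∀ x ∈ l, x ∈ g.N) :
    op t k l ∈ g.N := by
  obtain ⟨_, -, ρ, hρ, h⟩ := g.meets (t + 6) φ k l hl
  exact (show ρ = op t k l from h) ▸ hρ

variable {g}

theorem l2 {σ τ : Name P} (hσ : σ ∈ g.N) (hτ : τ ∈ g.N) : ∀ x ∈ [σ, τ], x ∈ g.N := by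
  simp [hσ, hτ]

theorem l1 {σ : Name P} (hσ : σ ∈ g.N) : ∀ x ∈ [σ], x ∈ g.N := by
  simp [hσ]

theorem lcons {σ : Name P} {l : List (Name P)} (hσ : σ ∈ g.N) (hl : ∀ x ∈ l, x ∈ g.N) :
    ∀ x ∈ σ :: l, x ∈ g.N := by
  intro x hx
  rcases List.mem_cons.1 hx with rfl | hx
  exacts [hσ, hl x hx]

variable (g) in
theorem emp_mem : (emp : Name P) ∈ g.N := g.op_mem 0 .bot 0 [] (by simp)

theorem upair_mem {σ τ : Name P} (hσ : σ ∈ g.N) (hτ : τ ∈ g.N) : upair σ τ ∈ g.N :=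
  g.op_mem 1 .bot 0 [σ, τ] (l2 hσ hτ)

theorem unionN_mem {τ : Name P} (hτ : τ ∈ g.N) : unionN τ ∈ g.N :=
  g.op_mem 2 .bot 0 [τ] (l1 hτ)

theorem rk_mem {τ : Name P} (hτ : τ ∈ g.N) : oN (rk τ) ∈ g.N :=
  g.op_mem 3 .bot 0 [τ] (l1 hτ)

theorem powN_mem {τ : Name P} (hτ : τ ∈ g.N) : powN τ ∈ g.N :=
  g.op_mem 4 .bot 0 [τ] (l1 hτ)

theorem rk_succ_mem {τ : Name P} (hτ : τ ∈ g.N) : oN (Order.succ (rk τ)) ∈ g.N :=
  g.op_mem 5 .bot 0 [τ] (l1 hτ)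

variable (g) in
theorem oN_omega_mem : (oN Ordinal.omega0 : Name P) ∈ g.N := g.op_mem 6 .bot 0 [] (by simp)

variable (g) in
theorem omega_mem : (setN natWf Set.univ : Name P) ∈ g.N := g.op_mem 7 .bot 0 [] (by simp)

theorem child_mem {τ : Name P} (hτ : τ ∈ g.N) (k : ℕ) : child k τ ∈ g.N :=
  g.op_mem 8 .bot k [τ] (l1 hτ)

theorem enumN_mem {τ : Name P} (hτ : τ ∈ g.N) : enumN τ ∈ g.N :=
  g.op_mem 9 .bot 0 [τ] (l1 hτ)

theorem idxN_mem {σ τ : Name P} (hσ : σ ∈ g.N) (hτ : τ ∈ g.N) : idxN σ τ ∈ g.N :=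
  g.op_mem 10 .bot 0 [σ, τ] (l2 hσ hτ)

/-- All children of a name with countable index set are in `N`. -/
theorem A_mem {τ : Name P} (hτ : τ ∈ g.N) [Countable τ.I] (i : τ.I) : τ.A i ∈ g.N := by
  have : Nonempty τ.I := ⟨i⟩
  have h : ∃ f : ℕ → τ.I, Function.Surjective f := exists_surjective_nat _
  obtain ⟨k, hk⟩ := h.choose_spec i
  have := child_mem hτ k
  unfold child at this
  rwa [dif_pos h, hk] at this

theorem fam_mem {ι : Type 2} [Sm P ι] [Countable ι] {A : ι → Name P} (h : fam A ∈ g.N) (i : ι) :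
    A i ∈ g.N :=
  @A_mem P _ _ _ _ g (fam A) h (inferInstanceAs (Countable ι)) i

theorem upair_mem_iff {σ τ : Name P} : upair σ τ ∈ g.N ↔ σ ∈ g.N ∧ τ ∈ g.N :=
  ⟨fun h => ⟨fam_mem h ⟨true⟩, fam_mem h ⟨false⟩⟩, fun h => upair_mem h.1 h.2⟩

theorem pairN_mem_iff {σ τ : Name P} : pairN σ τ ∈ g.N ↔ σ ∈ g.N ∧ τ ∈ g.N := by
  simp only [pairN, upair_mem_iff]; tauto

theorem meets_mem {σ τ : Name P} (hσ : σ ∈ g.N) (hτ : τ ∈ g.N) {p : P} (hp : p ∈ g.G)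
    (h : FMem σ τ p) : ∃ q ∈ g.G, ∃ i, q ≤ τ.B i ∧ FEq σ (τ.A i) q ∧ τ.A i ∈ g.N := by
  obtain ⟨q, hq, ρ, hρ, h' | ⟨i, hi, e, rfl⟩⟩ := g.meets 0 .bot 0 [σ, τ] (l2 hσ hτ)
  · obtain ⟨r, -, h₁, h₂⟩ := g.dir hp hq
    exact absurd (h.mono h₁) (h' r h₂)
  · exact ⟨q, hq, i, hi, e, hρ⟩

theorem val_eq_iff : ∀ {σ τ : Name P}, σ ∈ g.N → τ ∈ g.N →
    (g.val σ = g.val τ ↔ ∃ p ∈ g.G, FEq σ τ p) := by
  intro σ
  induction σ using Name.ind with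
  | h σ ih =>
    intro τ hσ hτ
    constructor
    · intro e
      obtain ⟨q, hq, ρ, hρ, h | ⟨i, hi, h, rfl⟩ | ⟨j, hj, h, rfl⟩⟩ :=
        g.meets 1 .bot 0 [σ, τ] (l2 hσ hτ)
      · exact ⟨q, hq, h⟩
      · exfalso
        have : g.val (σ.A i) ∈ g.val τ := e ▸ g.mem_val.2 ⟨i, g.up hq hi, hρ, rfl⟩
        obtain ⟨j, hj, hjN, e'⟩ := g.mem_val.1 this
        obtain ⟨p, hp, f⟩ := (ih i hρ hjN).1 e'.symm
        obtain ⟨r, hr, h₁, h₂⟩ := g.dir hp hj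
        obtain ⟨s, -, h₃, h₄⟩ := g.dir hr hq
        exact h s h₄ (FMem.of_feq (h₃.trans h₂) (f.mono (h₃.trans h₁)))
      · exfalso
        have : g.val (τ.A j) ∈ g.val σ := e ▸ g.mem_val.2 ⟨j, g.up hq hj, hρ, rfl⟩
        obtain ⟨i, hi, hiN, e'⟩ := g.mem_val.1 this
        obtain ⟨p, hp, f⟩ := (ih i hiN hρ).1 e'
        obtain ⟨r, hr, h₁, h₂⟩ := g.dir hp hi
        obtain ⟨s, -, h₃, h₄⟩ := g.dir hr hq
        exact h s h₄ (FMem.of_feq (h₃.trans h₂) (f.symm.mono (h₃.trans h₁)))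
    · rintro ⟨p, hp, h⟩
      rw [feq_iff] at h
      ext z
      simp only [g.mem_val]
      constructor
      · rintro ⟨i, hi, hiN, rfl⟩
        obtain ⟨q, hq, h₁, h₂⟩ := g.dir hp hi
        obtain ⟨r, hr, j, hj, e, hjN⟩ := meets_mem hiN hτ hq (h.1 i q h₁ h₂)
        exact ⟨j, g.up hr hj, hjN, ((ih i hiN hjN).2 ⟨r, hr, e⟩).symm⟩
      · rintro ⟨j, hj, hjN, rfl⟩
        obtain ⟨q, hq, h₁, h₂⟩ := g.dir hp hj
        obtain ⟨r, hr, i, hi, e, hiN⟩ := meets_mem hjN hσ hq (h.2 j q h₁ h₂)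
        exact ⟨i, g.up hr hi, hiN, (ih i hiN hjN).2 ⟨r, hr, e.symm⟩⟩

theorem val_mem_iff {σ τ : Name P} (hσ : σ ∈ g.N) (hτ : τ ∈ g.N) :
    g.val σ ∈ g.val τ ↔ ∃ p ∈ g.G, FMem σ τ p := by
  constructor
  · intro h
    obtain ⟨j, hj, hjN, e⟩ := g.mem_val.1 h
    obtain ⟨p, hp, f⟩ := (val_eq_iff hσ hjN).1 e.symm
    obtain ⟨r, hr, h₁, h₂⟩ := g.dir hp hj
    exact ⟨r, hr, FMem.of_feq h₂ (f.mono h₁)⟩
  · rintro ⟨p, hp, h⟩
    obtain ⟨r, hr, j, hj, e, hjN⟩ := meets_mem hσ hτ hp h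
    exact g.mem_val.2 ⟨j, g.up hr hj, hjN, ((val_eq_iff hσ hjN).2 ⟨r, hr, e⟩).symm⟩

variable (g)

/-- The generic model. -/
def M : Type 3 := {x : ZFSet.{2} // ∃ τ ∈ g.N, g.val τ = x}

/-- Its membership relation. -/
def E (x y : g.M) : Prop := x.1 ∈ y.1

open Classical in
/-- The element of the model named by `τ` (for `τ ∈ N`). -/
noncomputable def v (τ : Name P) : g.M :=
  if h : τ ∈ g.N then ⟨g.val τ, τ, h, rfl⟩ else ⟨g.val emp, emp, g.emp_mem, rfl⟩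

/-- The valuation given by a list of names. -/
noncomputable def w (l : List (Name P)) : ℕ → g.M := fun k => g.v (env emp l k)

variable {g}

theorem v_val {τ : Name P} (h : τ ∈ g.N) : (g.v τ).1 = g.val τ := by
  unfold v; rw [dif_pos h]

theorem exists_v (x : g.M) : ∃ τ ∈ g.N, g.v τ = x := by
  obtain ⟨x, τ, h, rfl⟩ := x
  exact ⟨τ, h, Subtype.ext (v_val h)⟩

theorem exists_vl (l : List g.M) : ∃ l' : List (Name P), (∀ x ∈ l', x ∈ g.N) ∧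
    g.w l' = env (g.v emp) l := by
  obtain ⟨l', h, rfl⟩ : ∃ l' : List (Name P), (∀ x ∈ l', x ∈ g.N) ∧ l'.map g.v = l := by
    induction l with
    | nil => exact ⟨[], by simp, rfl⟩
    | cons x l ih =>
      obtain ⟨l', h, rfl⟩ := ih
      obtain ⟨τ, hτ, rfl⟩ := exists_v x
      exact ⟨τ :: l', lcons hτ h, rfl⟩
  exact ⟨l', h, (env_map _ _ _).symm⟩

theorem w_cons (τ : Name P) (l : List (Name P)) : g.w (τ :: l) = cons (g.v τ) (g.w l) := by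
  funext k; cases k <;> rfl

theorem E_v {x : g.M} {τ : Name P} (hτ : τ ∈ g.N) :
    g.E x (g.v τ) ↔ ∃ i, τ.B i ∈ g.G ∧ τ.A i ∈ g.N ∧ g.v (τ.A i) = x := by
  unfold E
  rw [v_val hτ, g.mem_val]
  refine exists_congr fun i => and_congr_right fun _ => and_congr_right fun h => ?_
  rw [← v_val h]
  exact Subtype.ext_iff.symm

theorem v_eq_iff {σ τ : Name P} (hσ : σ ∈ g.N) (hτ : τ ∈ g.N) :
    g.v σ = g.v τ ↔ ∃ p ∈ g.G, FEq σ τ p := by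
  rw [← val_eq_iff hσ hτ, ← v_val hσ, ← v_val hτ]
  exact Subtype.ext_iff

theorem v_mem_iff {σ τ : Name P} (hσ : σ ∈ g.N) (hτ : τ ∈ g.N) :
    g.E (g.v σ) (g.v τ) ↔ ∃ p ∈ g.G, FMem σ τ p := by
  rw [← val_mem_iff hσ hτ, ← v_val hσ, ← v_val hτ]
  rfl

theorem meets_wit (φ : Fml) {l : List (Name P)} (hl : ∀ x ∈ l, x ∈ g.N) :
    ∃ q ∈ g.G, (wit φ l q ∈ g.N ∧ Forces φ (env emp (wit φ l q :: l)) q) ∨
      ∀ r ≤ q, ∀ ρ', ¬ Forces φ (env emp (ρ' :: l)) r := by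
  obtain ⟨q, hq, ρ, hρ, ⟨h, rfl⟩ | h⟩ := g.meets 3 φ 0 l hl
  · exact ⟨q, hq, Or.inl ⟨hρ, h⟩⟩
  · exact ⟨q, hq, Or.inr h⟩

/-- The truth lemma. -/
theorem truth : ∀ (φ : Fml) {l : List (Name P)}, (∀ x ∈ l, x ∈ g.N) →
    (Sat g.E φ (g.w l) ↔ ∃ p ∈ g.G, Forces φ (env emp l) p) := by
  intro φ
  induction φ with
  | mem i j =>
    intro l hl
    exact v_mem_iff (env_mem g.emp_mem hl i) (env_mem g.emp_mem hl j)
  | eq i j =>
    intro l hl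
    exact v_eq_iff (env_mem g.emp_mem hl i) (env_mem g.emp_mem hl j)
  | bot => intro l _; simp [Sat, Forces]
  | imp φ ψ ih₁ ih₂ =>
    intro l hl
    simp only [Sat, Forces, ih₁ hl, ih₂ hl]
    constructor
    · intro h
      obtain ⟨q, hq, -, -, h' | h'⟩ := g.meets 2 φ 0 l hl
      · obtain ⟨p, hp, h⟩ := h ⟨q, hq, h'⟩
        exact ⟨p, hp, fun r hr _ => h.mono hr⟩
      · exact ⟨q, hq, fun r hr h => absurd h (h' r hr)⟩
    · rintro ⟨p, hp, h⟩ ⟨q, hq, h'⟩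
      obtain ⟨r, hr, h₁, h₂⟩ := g.dir hp hq
      exact ⟨r, hr, h r h₁ (h'.mono h₂)⟩
  | all φ ih =>
    intro l hl
    simp only [Sat, Forces]
    constructor
    · intro h
      obtain ⟨q, hq, ⟨hρ, h'⟩ | h'⟩ := meets_wit (.imp φ .bot) hl
      · exfalso
        have := h (g.v (wit (.imp φ .bot) l q))
        rw [← w_cons, ih (lcons hρ hl)] at this
        obtain ⟨p, hp, f⟩ := this
        obtain ⟨r, -, h₁, h₂⟩ := g.dir hp hq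
        exact h' r h₂ (f.mono h₁)
      · refine ⟨q, hq, fun τ => Forces.reg fun r hr => ?_⟩
        have := h' r hr τ
        simp only [Forces, not_forall] at this
        obtain ⟨s, hs, f, -⟩ := this
        exact ⟨s, hs, by rwa [env_cons] at f⟩
    · rintro ⟨p, hp, h⟩ x
      obtain ⟨τ, hτ, rfl⟩ := exists_v x
      rw [← w_cons, ih (lcons hτ hl)]
      exact ⟨p, hp, by rw [env_cons]; exact h τ⟩

/-- A uniformly definable property true in the model is forced by a condition of the filter. -/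
theorem transfer {Ψ : ∀ (M : Type 3), (M → M → Prop) → (ℕ → M) → Prop} (h : UDef Ψ)
    {l : List (Name P)} (hl : ∀ x ∈ l, x ∈ g.N) (hΨ : Ψ g.M g.E (g.w l)) :
    ∃ p ∈ g.G, ∀ g' : Gen P, p ∈ g'.G → (∀ x ∈ l, x ∈ g'.N) → Ψ g'.M g'.E (g'.w l) := by
  obtain ⟨φ, h⟩ := h
  obtain ⟨p, hp, f⟩ := (truth φ hl).1 ((h _ _ _).2 hΨ)
  exact ⟨p, hp, fun g' hp' hl' => (h _ _ _).1 ((truth φ hl').2 ⟨p, hp', f⟩)⟩

/-- Density principle. -/
theorem dens {Ψ : ∀ (M : Type 3), (M → M → Prop) → (ℕ → M) → Prop} (h : UDef Ψ)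
    {l : List (Name P)} (hl : ∀ x ∈ l, x ∈ g.N)
    (H : ∀ p ∈ g.G, ∃ q ≤ p, ∃ C : Set (Name P), C.Countable ∧
      ∀ g' : Gen P, q ∈ g'.G → C ⊆ g'.N → (∀ x ∈ l, x ∈ g'.N) → Ψ g'.M g'.E (g'.w l)) :
    Ψ g.M g.E (g.w l) := by
  by_contra hn
  obtain ⟨p, hp, f⟩ := transfer h.not hl hn
  obtain ⟨q, hq, C, hC, H⟩ := H p hp
  obtain ⟨g', hq', hC'⟩ := exists_gen q (C ∪ {x | x ∈ l})
    (hC.union (List.finite_toSet l).countable)
  have hl' : ∀ x ∈ l, x ∈ g'.N := fun x hx => hC' (Or.inr hx)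
  exact f g' (g'.up hq' hq) hl' (H g' hq' (fun x hx => hC' (Or.inl hx)) hl')

end Gen

end Pool.Agent.MP_85ce7b_lc

end

section

namespace Pool.Agent.MP_85ce7b_lc

open Pool.Agent.MP_c6cf52_lc

open Name

universe u

namespace Gen

variable {P : Type 2} [Sz P] [Preorder P] [OrderTop P] [Tame P] {g : Gen P}

theorem trans {z : ZFSet.{2}} {a : g.M} (h : z ∈ a.1) : ∃ y : g.M, y.1 = z := by
  obtain ⟨τ, hτ, rfl⟩ := exists_v a
  rw [v_val hτ, g.mem_val] at h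
  obtain ⟨i, -, hi, rfl⟩ := h
  exact ⟨g.v (τ.A i), v_val hi⟩

theorem ext {a b : g.M} (h : ∀ x, g.E x a ↔ g.E x b) : a = b := by
  refine Subtype.ext (ZFSet.ext fun z => ⟨fun hz => ?_, fun hz => ?_⟩)
  · obtain ⟨y, rfl⟩ := trans hz
    exact (h y).1 hz
  · obtain ⟨y, rfl⟩ := trans hz
    exact (h y).2 hz

theorem E_wf : WellFounded g.E := InvImage.wf Subtype.val ZFSet.mem_wf

theorem E_irrefl (a : g.M) : ¬ g.E a a := ZFSet.mem_irrefl _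

theorem found (a : g.M) (h : ∃ x, g.E x a) : ∃ x, g.E x a ∧ ¬ ∃ y, g.E y x ∧ g.E y a := by
  obtain ⟨x, hx, hmin⟩ := E_wf.has_min {x | g.E x a} h
  exact ⟨x, hx, fun ⟨y, h₁, h₂⟩ => hmin y h₂ h₁⟩

theorem E_fam {ι : Type 2} [Sm P ι] {A : ι → Name P} (h : fam A ∈ g.N) {x : g.M} :
    g.E x (g.v (fam A)) ↔ ∃ i, A i ∈ g.N ∧ g.v (A i) = x := by
  rw [E_v h]
  exact exists_congr fun i => and_iff_right g.top

theorem not_E_emp (x : g.M) : ¬ g.E x (g.v emp) := by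
  rw [E_v g.emp_mem]
  rintro ⟨i, -⟩
  exact i.elim

theorem E_upair {σ τ : Name P} (hσ : σ ∈ g.N) (hτ : τ ∈ g.N) {x : g.M} :
    g.E x (g.v (upair σ τ)) ↔ x = g.v σ ∨ x = g.v τ := by
  unfold upair
  rw [E_fam (upair_mem hσ hτ)]
  constructor
  · rintro ⟨⟨_ | _⟩, -, rfl⟩
    exacts [Or.inr rfl, Or.inl rfl]
  · rintro (rfl | rfl)
    exacts [⟨⟨true⟩, hσ, rfl⟩, ⟨⟨false⟩, hτ, rfl⟩]

theorem exists_upair (a b : g.M) : ∃ c, ∀ x, g.E x c ↔ x = a ∨ x = b := by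
  obtain ⟨σ, hσ, rfl⟩ := exists_v a
  obtain ⟨τ, hτ, rfl⟩ := exists_v b
  exact ⟨_, fun x => E_upair hσ hτ⟩

theorem sep_aux (φ : Fml) {l : List (Name P)} (hl : ∀ x ∈ l, x ∈ g.N) {τ : Name P}
    (hτ : τ ∈ g.N) : ∃ S, subN τ S ∈ g.N ∧
      ∀ x, g.E x (g.v (subN τ S)) ↔ g.E x (g.v τ) ∧ Sat g.E φ (cons x (g.w l)) := by
  obtain ⟨q, hq, ρ, hρ, rfl, H⟩ := g.meets 4 φ 0 (τ :: l) (lcons hτ hl)
  refine ⟨_, hρ, fun x => ?_⟩
  rw [E_v hτ]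
  constructor
  · intro hx
    obtain ⟨⟨⟨i, s⟩, h⟩, hs, hi, rfl⟩ := (E_v hρ).1 hx
    obtain ⟨t, ht, h₁, h₂⟩ := g.dir hs hq
    refine ⟨⟨i, g.up ht (h t h₁ h₂).1, hi, rfl⟩, ?_⟩
    have := (truth φ (lcons hi hl)).2 ⟨t, ht, (h t h₁ h₂).2⟩
    rwa [w_cons] at this
  · rintro ⟨⟨i, hB, hi, rfl⟩, h⟩
    rw [← w_cons, truth φ (lcons hi hl)] at h
    obtain ⟨p, hp, f⟩ := h
    obtain ⟨r, hr, h₁, h₂⟩ := g.dir hp hB
    obtain ⟨t, ht, h₃, h₄⟩ := g.dir hr hq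
    exact (v_mem_iff hi hρ).2 ⟨t, ht, H i t h₄ (h₃.trans h₂) (f.mono (h₃.trans h₁))⟩

theorem sep_fml (φ : Fml) (l : List g.M) (a : g.M) :
    ∃ b, ∀ x, g.E x b ↔ g.E x a ∧ Sat g.E φ (cons x (env (g.v emp) l)) := by
  obtain ⟨l, hl, e⟩ := exists_vl l
  obtain ⟨τ, hτ, rfl⟩ := exists_v a
  rw [← e]
  obtain ⟨S, -, h⟩ := sep_aux φ hl hτ
  exact ⟨_, h⟩

theorem sep_udef {Ψ : ∀ (M : Type 3), (M → M → Prop) → (ℕ → M) → Prop} (h : UDef Ψ)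
    (l : List g.M) (a : g.M) :
    ∃ b, ∀ x, g.E x b ↔ g.E x a ∧ Ψ g.M g.E (cons x (env (g.v emp) l)) := by
  obtain ⟨φ, h⟩ := h
  simpa only [h] using sep_fml φ l a

theorem weak_union (a : g.M) : ∃ c, ∀ x y, g.E x y → g.E y a → g.E x c := by
  obtain ⟨τ, hτ, rfl⟩ := exists_v a
  refine ⟨g.v (unionN τ), fun x y hx hy => ?_⟩
  obtain ⟨i, -, hi, rfl⟩ := (E_v hτ).1 hy
  obtain ⟨j, -, hj, rfl⟩ := (E_v hi).1 hx
  exact (E_fam (unionN_mem hτ)).2 ⟨⟨i, j⟩, hj, rfl⟩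

theorem exists_union (a : g.M) : ∃ c, ∀ x, g.E x c ↔ ∃ y, g.E x y ∧ g.E y a := by
  obtain ⟨c, hc⟩ := weak_union a
  have hU : UDef.{3} (fun _ E w => ∃ y, E (w 0) y ∧ E y (w 1)) :=
    UDef.ex ((UDef.mem _ _).and (UDef.mem _ _))
  obtain ⟨b, hb⟩ := sep_udef hU [a] c
  refine ⟨b, fun x => (hb x).trans ⟨fun h => h.2, fun ⟨y, h₁, h₂⟩ => ⟨hc x y h₁ h₂, y, h₁, h₂⟩⟩⟩

theorem weak_power (a : g.M) : ∃ c, ∀ x, (∀ y, g.E y x → g.E y a) → g.E x c := by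
  obtain ⟨τ, hτ, rfl⟩ := exists_v a
  refine ⟨g.v (powN τ), fun x hx => ?_⟩
  obtain ⟨σ, hσ, rfl⟩ := exists_v x
  obtain ⟨S, hS, h⟩ := sep_aux (.mem 0 1) (l1 hσ) hτ
  exact (E_fam (powN_mem hτ)).2 ⟨S, hS, ext fun y => (h y).trans
    ⟨fun h => h.2, fun h => ⟨hx y h, h⟩⟩⟩

theorem exists_power (a : g.M) : ∃ c, ∀ x, g.E x c ↔ ∀ y, g.E y x → g.E y a := by
  obtain ⟨c, hc⟩ := weak_power a
  have hU : UDef.{3} (fun _ E w => ∀ y, E y (w 0) → E y (w 1)) :=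
    UDef.all ((UDef.mem _ _).imp (UDef.mem _ _))
  obtain ⟨b, hb⟩ := sep_udef hU [a] c
  exact ⟨b, fun x => (hb x).trans ⟨fun h => h.2, fun h => ⟨hc x h, h⟩⟩⟩

theorem collection (φ : Fml) (l : List g.M) (a : g.M) :
    ∃ c, ∀ x, g.E x a → (∃ y, Sat g.E φ (cons y (cons x (env (g.v emp) l)))) →
      ∃ y, g.E y c ∧ Sat g.E φ (cons y (cons x (env (g.v emp) l))) := by
  obtain ⟨l, hl, e⟩ := exists_vl l
  obtain ⟨τ, hτ, rfl⟩ := exists_v a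
  rw [← e]
  obtain ⟨q, hq, ρ, hρ, H⟩ := g.meets 5 φ 0 (τ :: l) (lcons hτ hl)
  refine ⟨g.v ρ, fun x hx ⟨y, hy⟩ => ?_⟩
  obtain ⟨i, -, hi, rfl⟩ := (E_v hτ).1 hx
  obtain ⟨σ, hσ, rfl⟩ := exists_v y
  rw [← w_cons, ← w_cons, truth φ (lcons hσ (lcons hi hl))] at hy
  obtain ⟨p, hp, f⟩ := hy
  obtain ⟨r, hr, h₁, h₂⟩ := g.dir hp hq
  let f' : ℕ → ℕ := cons 0 fun k => k + 2
  have e : ∀ {α : Type 3} (a b : α) (w : ℕ → α),
      (fun k => cons a (cons b w) (f' k)) = cons a w := fun a b w => by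
    funext k; cases k <;> rfl
  have := (truth (.imp (.all (.imp (.mem 0 1) (.imp (φ.rename f') .bot))) .bot)
    (lcons hρ (lcons hi hl))).2 ⟨r, hr, fun r₁ hr₁ h => by
      obtain ⟨r', hr', σ', h₃, h₄⟩ := H i r₁ (hr₁.trans h₂) σ (f.mono (hr₁.trans h₁))
      refine h σ' r' hr' h₃ r' le_rfl ?_
      rw [forces_rename, env_cons, e, ← env_cons]
      exact h₄⟩
  simp only [Sat, sat_rename, w_cons, e] at this
  by_contra hn
  exact this fun y hy h => hn ⟨y, hy, h⟩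

/-! ### Ordered pairs -/

theorem val_upair {σ τ : Name P} (hσ : σ ∈ g.N) (hτ : τ ∈ g.N) :
    (g.v (upair σ τ)).1 = {(g.v σ).1, (g.v τ).1} := by
  ext z
  rw [ZFSet.mem_pair]
  constructor
  · intro hz
    obtain ⟨y, rfl⟩ := trans hz
    rcases (E_upair hσ hτ).1 hz with rfl | rfl
    exacts [Or.inl rfl, Or.inr rfl]
  · rintro (rfl | rfl)
    exacts [(E_upair hσ hτ).2 (Or.inl rfl), (E_upair hσ hτ).2 (Or.inr rfl)]

theorem val_pairN {σ τ : Name P} (hσ : σ ∈ g.N) (hτ : τ ∈ g.N) :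
    (g.v (pairN σ τ)).1 = ZFSet.pair (g.v σ).1 (g.v τ).1 := by
  unfold pairN ZFSet.pair
  rw [val_upair (upair_mem hσ hσ) (upair_mem hσ hτ), val_upair hσ hσ, val_upair hσ hτ]
  simp

theorem pair_in (a b : g.M) : ∃ τ ∈ g.N, g.val τ = ZFSet.pair a.1 b.1 := by
  obtain ⟨σ, hσ, rfl⟩ := exists_v a
  obtain ⟨τ, hτ, rfl⟩ := exists_v b
  have h := pairN_mem_iff.2 ⟨hσ, hτ⟩
  exact ⟨_, h, (v_val h).symm.trans (val_pairN hσ hτ)⟩

/-- The ordered pair in the model. -/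
noncomputable def pr (a b : g.M) : g.M := ⟨ZFSet.pair a.1 b.1, pair_in a b⟩

theorem pr_inj {a b c d : g.M} : pr a b = pr c d ↔ a = c ∧ b = d := by
  constructor
  · intro h
    have := ZFSet.pair_inj.1 (congrArg Subtype.val h)
    exact ⟨Subtype.ext this.1, Subtype.ext this.2⟩
  · rintro ⟨rfl, rfl⟩; rfl

theorem v_pairN {σ τ : Name P} (hσ : σ ∈ g.N) (hτ : τ ∈ g.N) :
    g.v (pairN σ τ) = pr (g.v σ) (g.v τ) := Subtype.ext (val_pairN hσ hτ)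

theorem eq_upair_iff {z a b : g.M} : (∀ x, g.E x z ↔ x = a ∨ x = b) ↔ z.1 = {a.1, b.1} := by
  constructor
  · intro h
    ext y
    rw [ZFSet.mem_pair]
    constructor
    · intro hy
      obtain ⟨y, rfl⟩ := trans hy
      rcases (h y).1 hy with rfl | rfl
      exacts [Or.inl rfl, Or.inr rfl]
    · rintro (rfl | rfl)
      exacts [(h a).2 (Or.inl rfl), (h b).2 (Or.inr rfl)]
  · intro h x
    unfold E
    rw [h, ZFSet.mem_pair]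
    exact or_congr Subtype.ext_iff.symm Subtype.ext_iff.symm

theorem eq_single_iff {z a : g.M} : (∀ x, g.E x z ↔ x = a) ↔ z.1 = {a.1} := by
  have := @eq_upair_iff _ _ _ _ _ _ z a a
  simpa using this

theorem isPair_pr (a b : g.M) : IsPair g.E (pr a b) a b := by
  intro z
  rw [eq_upair_iff, eq_single_iff]
  exact ZFSet.mem_pair

theorem isPair_iff {p a b : g.M} : IsPair g.E p a b ↔ p = pr a b :=
  ⟨fun h => ext fun x => (h x).trans (isPair_pr a b x).symm, fun h => h ▸ isPair_pr a b⟩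

theorem app_iff {f a b : g.M} : App g.E f a b ↔ g.E (pr a b) f := by
  simp only [App, isPair_iff]
  exact ⟨fun ⟨_, h, e⟩ => e ▸ h, fun h => ⟨_, h, rfl⟩⟩

/-! ### Ordinals -/

section Ord

variable {X : Type 2} [Sm P X] {r : X → X → Prop} (wf : WellFounded r)

theorem E_setN {s : Set X} (h : setN wf s ∈ g.N) {x : g.M} :
    g.E x (g.v (setN wf s)) ↔ ∃ y ∈ s, ordN wf y ∈ g.N ∧ g.v (ordN wf y) = x := by
  unfold setN at h ⊢
  rw [E_fam h]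
  exact ⟨fun ⟨y, h₁, h₂⟩ => ⟨y.1, y.2, h₁, h₂⟩, fun ⟨y, h₀, h₁, h₂⟩ => ⟨⟨y, h₀⟩, h₁, h₂⟩⟩

theorem E_ordN {a : X} (h : ordN wf a ∈ g.N) {x : g.M} :
    g.E x (g.v (ordN wf a)) ↔ ∃ y, r y a ∧ ordN wf y ∈ g.N ∧ g.v (ordN wf y) = x := by
  rw [ordN_eq] at h ⊢
  exact E_setN wf h

theorem setN_mem {s : Set X} (h : setN wf s ∈ g.N) (hs : s.Countable) {y : X} (hy : y ∈ s) :
    ordN wf y ∈ g.N := by
  have := hs.to_subtype
  exact fam_mem (A := fun y : s => ordN wf y.1) h ⟨y, hy⟩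

theorem ordN_mem {a : X} (h : ordN wf a ∈ g.N) (hs : {y | r y a}.Countable) {y : X}
    (hy : r y a) : ordN wf y ∈ g.N := by
  rw [ordN_eq] at h
  exact setN_mem wf h hs hy

theorem ord_lt_of {a b : X} (ha : ordN wf a ∈ g.N) (hb : ordN wf b ∈ g.N) (h : r a b) :
    g.E (g.v (ordN wf a)) (g.v (ordN wf b)) := (E_ordN wf hb).2 ⟨a, h, ha, rfl⟩

variable (tri : ∀ a b, r a b ∨ a = b ∨ r b a)
include tri

theorem ord_inj {a b : X} (ha : ordN wf a ∈ g.N) (hb : ordN wf b ∈ g.N)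
    (h : g.v (ordN wf a) = g.v (ordN wf b)) : a = b := by
  rcases tri a b with h' | h' | h'
  · exact absurd (h ▸ ord_lt_of wf ha hb h') (E_irrefl _)
  · exact h'
  · exact absurd (h ▸ ord_lt_of wf hb ha h') (E_irrefl _)

theorem ord_lt_iff {a b : X} (ha : ordN wf a ∈ g.N) (hb : ordN wf b ∈ g.N) :
    g.E (g.v (ordN wf a)) (g.v (ordN wf b)) ↔ r a b := by
  refine ⟨fun h => ?_, ord_lt_of wf ha hb⟩
  obtain ⟨y, h₁, h₂, e⟩ := (E_ordN wf hb).1 h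
  exact ord_inj wf tri h₂ ha e ▸ h₁

theorem ord_mem_setN_iff {s : Set X} {a : X} (ha : ordN wf a ∈ g.N) (hs : setN wf s ∈ g.N) :
    g.E (g.v (ordN wf a)) (g.v (setN wf s)) ↔ a ∈ s := by
  refine ⟨fun h => ?_, fun h => (E_setN wf hs).2 ⟨a, h, ha, rfl⟩⟩
  obtain ⟨y, h₁, h₂, e⟩ := (E_setN wf hs).1 h
  exact ord_inj wf tri h₂ ha e ▸ h₁

theorem isOrd_setN {s : Set X} (hs : setN wf s ∈ g.N) (low : ∀ a b, r a b → b ∈ s → a ∈ s) :
    IsOrd g.E (g.v (setN wf s)) := by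
  constructor
  · intro x y hx hy
    obtain ⟨a, ha, haN, rfl⟩ := (E_setN wf hs).1 hx
    obtain ⟨b, hb, hbN, rfl⟩ := (E_ordN wf haN).1 hy
    exact (E_setN wf hs).2 ⟨b, low b a hb ha, hbN, rfl⟩
  · intro x y hx hy
    obtain ⟨a, -, haN, rfl⟩ := (E_setN wf hs).1 hx
    obtain ⟨b, -, hbN, rfl⟩ := (E_setN wf hs).1 hy
    rcases tri a b with h | rfl | h
    exacts [Or.inl (ord_lt_of wf haN hbN h), Or.inr (Or.inl rfl),
      Or.inr (Or.inr (ord_lt_of wf hbN haN h))]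

end Ord

theorem nat_mem (n : ULift.{2} ℕ) : (ordN natWf n : Name P) ∈ g.N :=
  setN_mem natWf g.omega_mem (Set.to_countable _) (Set.mem_univ n)

theorem natTri (a b : ULift.{2} ℕ) : a.down < b.down ∨ a = b ∨ b.down < a.down := by
  rcases lt_trichotomy a.down b.down with h | h | h
  exacts [Or.inl h, Or.inr (Or.inl (ULift.ext _ _ h)), Or.inr (Or.inr h)]

theorem infinity : ∃ w, (∃ e, g.E e w ∧ ∀ y, ¬ g.E y e) ∧
    ∀ x, g.E x w → ∃ s, g.E s w ∧ ∀ y, g.E y s ↔ g.E y x ∨ y = x := by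
  refine ⟨g.v (setN natWf Set.univ), ⟨g.v (ordN natWf ⟨0⟩), ?_, fun y hy => ?_⟩, fun x hx => ?_⟩
  · exact (E_setN _ g.omega_mem).2 ⟨_, trivial, nat_mem _, rfl⟩
  · obtain ⟨z, hz, -⟩ := (E_ordN _ (nat_mem _)).1 hy
    exact Nat.not_lt_zero _ hz
  · obtain ⟨n, -, -, rfl⟩ := (E_setN _ g.omega_mem).1 hx
    refine ⟨g.v (ordN natWf ⟨n.down + 1⟩),
      (E_setN _ g.omega_mem).2 ⟨_, trivial, nat_mem _, rfl⟩, fun y => ?_⟩
    rw [E_ordN _ (nat_mem _), E_ordN _ (nat_mem _)]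
    constructor
    · rintro ⟨m, hm, -, rfl⟩
      rcases Nat.lt_succ_iff_lt_or_eq.1 hm with h | h
      · exact Or.inl ⟨m, h, nat_mem _, rfl⟩
      · exact Or.inr (by rw [ULift.ext m n h])
    · rintro (⟨m, hm, -, rfl⟩ | rfl)
      · exact ⟨m, Nat.lt_succ_of_lt hm, nat_mem _, rfl⟩
      · exact ⟨n, Nat.lt_succ_self _, nat_mem _, rfl⟩

theorem woTri (X : Type 2) (a b : X) :
    WellOrderingRel a b ∨ a = b ∨ WellOrderingRel b a := trichotomous_of _ a b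

theorem choice (a : g.M) (hne : ∀ x, g.E x a → ∃ y, g.E y x)
    (hdj : ∀ x y, g.E x a → g.E y a → (∃ z, g.E z x ∧ g.E z y) → x = y) :
    ∃ c, ∀ x, g.E x a → ∃! y, g.E y x ∧ g.E y c := by
  obtain ⟨b, hb⟩ := weak_union a
  obtain ⟨τ, hτ, rfl⟩ := exists_v b
  let o : τ.I → Name P := ordN (woWf τ.I)
  have hf : ∀ s t, App g.E (g.v (enumN τ)) s t ↔
      ∃ j, o j ∈ g.N ∧ τ.A j ∈ g.N ∧ g.v (o j) = s ∧ g.v (τ.A j) = t := by
    intro s t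
    rw [app_iff]
    unfold enumN
    rw [E_fam (enumN_mem hτ)]
    refine exists_congr fun j => ?_
    rw [pairN_mem_iff, and_assoc]
    refine and_congr_right fun h₁ => and_congr_right fun h₂ => ?_
    rw [v_pairN h₁ h₂, pr_inj]
  have hU : UDef.{3} (fun _ E w => ∃ s, App E (w 1) s (w 0) ∧
      ∀ s' t x, E s' s → App E (w 1) s' t → E x (w 2) → E (w 0) x → ¬ E t x) := by
    repeat' first
      | exact UDef.mem _ _ | exact UDef.app _ _ _ | apply UDef.and | apply UDef.not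
      | apply UDef.imp | apply UDef.all | apply UDef.ex
  obtain ⟨c, hc⟩ := sep_udef hU [g.v (enumN τ), a] (g.v τ)
  have hc' : ∀ y, g.E y c ↔ g.E y (g.v τ) ∧ ∃ s, App g.E (g.v (enumN τ)) s y ∧
      ∀ s' t x, g.E s' s → App g.E (g.v (enumN τ)) s' t → g.E x a → g.E y x → ¬ g.E t x := hc
  refine ⟨c, fun x hx => ?_⟩
  have hS : {j | o j ∈ g.N ∧ τ.A j ∈ g.N ∧ g.E (g.v (τ.A j)) x}.Nonempty := by
    obtain ⟨y, hy⟩ := hne x hx
    obtain ⟨i, -, hi, rfl⟩ := (E_v hτ).1 (hb y x hy hx)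
    have h : ∃ j, τ.A j = τ.A i := ⟨i, rfl⟩
    have := idxN_mem hτ hi
    unfold idxN at this
    rw [dif_pos h, pairN_mem_iff] at this
    exact ⟨h.choose, this.1, this.2, h.choose_spec.symm ▸ hy⟩
  obtain ⟨j, ⟨h₁, h₂, h₃⟩, hmin⟩ := (woWf τ.I).has_min _ hS
  refine ⟨g.v (τ.A j), ⟨h₃, (hc' _).2 ⟨hb _ x h₃ hx, g.v (o j), (hf _ _).2 ⟨j, h₁, h₂, rfl, rfl⟩,
    fun s' t x' hs' ht hx' hy' ht' => ?_⟩⟩, fun y ⟨hy₁, hy₂⟩ => ?_⟩
  · obtain ⟨j', h₁', h₂', rfl, rfl⟩ := (hf _ _).1 ht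
    obtain rfl := hdj x x' hx hx' ⟨_, h₃, hy'⟩
    exact hmin j' ⟨h₁', h₂', ht'⟩ ((ord_lt_iff _ (woTri _) h₁' h₁).1 hs')
  · obtain ⟨-, s, hs, H⟩ := (hc' y).1 hy₂
    obtain ⟨j', h₁', h₂', rfl, rfl⟩ := (hf _ _).1 hs
    rcases woTri _ j j' with h | rfl | h
    · exact absurd h₃ (H _ _ x (ord_lt_of _ h₁ h₁' h) ((hf _ _).2 ⟨j, h₁, h₂, rfl, rfl⟩) hx hy₁)
    · rfl
    · exact absurd h (hmin j' ⟨h₁', h₂', hy₁⟩)

/-- The generic model satisfies ZFC. -/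
theorem isZFC (g : Gen P) : IsZFC g.E where
  ext := fun _ _ => ext
  found := found
  pair := exists_upair
  union := exists_union
  power := exists_power
  inf := infinity
  sep := fun S hS a => by
    obtain ⟨φ, l, h⟩ := exists_fml_of_definable₁ g.E S hS
    simpa only [h] using sep_fml φ l a
  repl := fun R hR a ha => by
    obtain ⟨φ, l, h⟩ := exists_fml_of_definable₂ g.E R hR
    obtain ⟨c, hc⟩ := collection φ l a
    have hU : UDef.{3} (fun _ E w => ∃ x, E x (w 1) ∧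
        Sat E φ (cons (w 0) (cons x (fun k => w (k + 2))))) := by
      refine UDef.ex ((UDef.mem _ _).and ((UDef.sat φ (cons 1 (cons 0 (fun k => k + 3)))).congr
        fun M E w => ?_))
      have : (fun k => w (cons 1 (cons 0 fun k => k + 3) k)) =
          cons (w 1) (cons (w 0) fun k => w (k + 3)) := by
        funext k
        rcases k with _ | _ | k <;> rfl
      rw [this]
    obtain ⟨b, hb⟩ := sep_udef hU (a :: l) c
    have hb' : ∀ y, g.E y b ↔ g.E y c ∧ ∃ x, g.E x a ∧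
        Sat g.E φ (cons y (cons x (env (g.v emp) l))) := hb
    simp only [h] at hb' hc
    refine ⟨b, fun y => (hb' y).trans ⟨fun h => h.2, fun ⟨x, h₁, h₂⟩ => ⟨?_, x, h₁, h₂⟩⟩⟩
    obtain ⟨y', h₃, h₄⟩ := hc x h₁ ⟨y, h₂⟩
    exact (ha x h₁).unique h₄ h₂ ▸ h₃
  choice := choice

end Gen

end Pool.Agent.MP_85ce7b_lc

end

section

namespace Pool.Agent.MP_85ce7b_lc

open Pool.Agent.MP_c6cf52_lc

open Name

universe u

namespace Gen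

variable {P : Type 2} [Sz P] [Preorder P] [OrderTop P] [Tame P] {g : Gen P}

/-- The name of a relation. -/
def relN {ι : Type 2} [Sm P ι] (A A' : ι → Name P) (B : ι → P) : Name P :=
  Name.mk ι (fun i => pairN (A i) (A' i)) B

theorem E_relN {ι : Type 2} [Sm P ι] {A A' : ι → Name P} {B : ι → P} (h : relN A A' B ∈ g.N) {x : g.M} :
    g.E x (g.v (relN A A' B)) ↔
      ∃ i, B i ∈ g.G ∧ A i ∈ g.N ∧ A' i ∈ g.N ∧ x = pr (g.v (A i)) (g.v (A' i)) := by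
  rw [E_v h]
  refine exists_congr fun i => and_congr_right fun _ => ?_
  change pairN (A i) (A' i) ∈ g.N ∧ g.v (pairN (A i) (A' i)) = x ↔ _
  rw [pairN_mem_iff, and_assoc]
  refine and_congr_right fun h₁ => and_congr_right fun h₂ => ?_
  rw [v_pairN h₁ h₂, eq_comm]

theorem app_relN {ι : Type 2} [Sm P ι] {A A' : ι → Name P} {B : ι → P} (h : relN A A' B ∈ g.N)
    {s t : g.M} : App g.E (g.v (relN A A' B)) s t ↔
      ∃ i, B i ∈ g.G ∧ A i ∈ g.N ∧ A' i ∈ g.N ∧ s = g.v (A i) ∧ t = g.v (A' i) := by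
  rw [app_iff, E_relN h]
  simp only [pr_inj]

theorem relN_mem {ι : Type 2} [Sm P ι] [Countable ι] {A A' : ι → Name P} {B : ι → P}
    (h : relN A A' B ∈ g.N) (i : ι) : A i ∈ g.N ∧ A' i ∈ g.N :=
  pairN_mem_iff.1 (@A_mem P _ _ _ _ g (relN A A' B) h (inferInstanceAs (Countable ι)) i)

theorem fun_mem {f X Y a b : g.M} (h : IsFun g.E f X Y) (hab : App g.E f a b) :
    g.E a X ∧ g.E b Y := by
  obtain ⟨a', b', ha, hb, e⟩ := h.1 _ (app_iff.1 hab)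
  obtain ⟨rfl, rfl⟩ := pr_inj.1 (isPair_iff.1 e)
  exact ⟨ha, hb⟩

theorem fun_uniq {f X Y a b b' : g.M} (h : IsFun g.E f X Y) (hab : App g.E f a b)
    (hab' : App g.E f a b') : b = b' :=
  (h.2 a (fun_mem h hab).1).unique hab hab'

theorem fun_ex {f X Y a : g.M} (h : IsFun g.E f X Y) (ha : g.E a X) :
    ∃ b, g.E b Y ∧ App g.E f a b := by
  obtain ⟨b, hb, -⟩ := h.2 a ha
  exact ⟨b, (fun_mem h hb).2, hb⟩

theorem fun_ext {f f' X Y Y' : g.M} (h : IsFun g.E f X Y) (h' : IsFun g.E f' X Y')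
    (H : ∀ a b, App g.E f' a b → App g.E f a b) : f = f' := by
  refine ext fun p => ⟨fun hp => ?_, fun hp => ?_⟩
  · obtain ⟨a, b, ha, -, e⟩ := h.1 p hp
    obtain rfl := isPair_iff.1 e
    obtain ⟨b', -, hb'⟩ := fun_ex h' ha
    rw [fun_uniq h (app_iff.2 hp) (H _ _ hb')]
    exact app_iff.1 hb'
  · obtain ⟨a, b, -, -, e⟩ := h'.1 p hp
    obtain rfl := isPair_iff.1 e
    exact app_iff.1 (H _ _ (app_iff.2 hp))

theorem l3 {a b c : Name P} (ha : a ∈ g.N) (hb : b ∈ g.N) (hc : c ∈ g.N) :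
    ∀ x ∈ [a, b, c], x ∈ g.N := lcons ha (l2 hb hc)

theorem l4 {a b c d : Name P} (ha : a ∈ g.N) (hb : b ∈ g.N) (hc : c ∈ g.N) (hd : d ∈ g.N) :
    ∀ x ∈ [a, b, c, d], x ∈ g.N := lcons ha (l3 hb hc hd)

theorem transfer_app {a b c : Name P} (ha : a ∈ g.N) (hb : b ∈ g.N) (hc : c ∈ g.N)
    (h : App g.E (g.v a) (g.v b) (g.v c)) :
    ∃ p ∈ g.G, ∀ g' : Gen P, p ∈ g'.G → a ∈ g'.N → b ∈ g'.N → c ∈ g'.N →
      App g'.E (g'.v a) (g'.v b) (g'.v c) := by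
  obtain ⟨p, hp, H⟩ := transfer (UDef.app 0 1 2) (l3 ha hb hc) h
  exact ⟨p, hp, fun g' hp' ha' hb' hc' => H g' hp' (l3 ha' hb' hc')⟩

end Gen

end Pool.Agent.MP_85ce7b_lc

end

section

namespace Pool.Agent.MP_85ce7b_lc

open Pool.Agent.MP_c6cf52_lc

open Name

universe u v w

theorem fml_exists_bound {M : Type v} (E : M → M → Prop) : ∀ φ : Fml, ∃ n, ∀ w w' : ℕ → M,
    (∀ k < n, w k = w' k) → (Sat E φ w ↔ Sat E φ w') := by
  intro φ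
  induction φ with
  | mem i j =>
    exact ⟨max i j + 1, fun w w' h => by
      simp only [Sat, h i (by omega), h j (by omega)]⟩
  | eq i j =>
    exact ⟨max i j + 1, fun w w' h => by
      simp only [Sat, h i (by omega), h j (by omega)]⟩
  | bot => exact ⟨0, fun _ _ _ => Iff.rfl⟩
  | imp φ ψ ih₁ ih₂ =>
    obtain ⟨n, h₁⟩ := ih₁
    obtain ⟨m, h₂⟩ := ih₂
    exact ⟨max n m, fun w w' h => by
      simp only [Sat, h₁ w w' (fun k hk => h k (by omega)), h₂ w w' (fun k hk => h k (by omega))]⟩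
  | all φ ih =>
    obtain ⟨n, h₁⟩ := ih
    refine ⟨n, fun w w' h => forall_congr' fun x => h₁ _ _ fun k hk => ?_⟩
    cases k with
    | zero => rfl
    | succ k => exact h k (by omega)

def imix {α : Type v} (w p : ℕ → α) : ℕ → α := fun k => if k % 2 = 0 then w (k / 2) else p (k / 2)

theorem imix_even {α : Type v} (w p : ℕ → α) (k : ℕ) : imix w p (2 * k) = w k := by
  simp [imix]

theorem imix_odd {α : Type v} (w p : ℕ → α) (k : ℕ) : imix w p (2 * k + 1) = p k := by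
  have : (2 * k + 1) / 2 = k := by omega
  simp [imix, this]

theorem imix_cases {α : Type v} {f h : ℕ → α} (h₁ : ∀ k, f (2 * k) = h (2 * k))
    (h₂ : ∀ k, f (2 * k + 1) = h (2 * k + 1)) : f = h := by
  funext k
  rcases Nat.even_or_odd' k with ⟨j, rfl | rfl⟩
  exacts [h₁ j, h₂ j]

namespace Gen

variable {P : Type 2} [Sz P] [Preorder P] [OrderTop P] [Tame P]

/-- Definable with parameters in the generic model. -/
def PD (g : Gen P) (Ψ : (ℕ → g.M) → Prop) : Prop :=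
  ∃ (φ : Fml) (p : ℕ → g.M), ∀ w, Sat g.E φ (imix w p) ↔ Ψ w

variable {g : Gen P}

namespace PD

variable {Φ Ψ : (ℕ → g.M) → Prop} {Θ : (ℕ → g.M) → g.M → Prop}

theorem udef {Ψ : ∀ (M : Type 3), (M → M → Prop) → (ℕ → M) → Prop} (h : UDef Ψ) :
    g.PD (Ψ g.M g.E) := by
  obtain ⟨φ, h⟩ := h
  refine ⟨φ.rename (fun k => 2 * k), fun _ => g.v emp, fun w => ?_⟩
  rw [sat_rename, h]
  simp only [imix_even]

theorem const (i : ℕ) (c : g.M) : g.PD (fun w => w i = c) :=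
  ⟨.eq (2 * i) (2 * 0 + 1), fun _ => c, fun w => by simp only [Sat, imix_even, imix_odd]⟩

theorem congr (h : g.PD Φ) (e : ∀ w, Φ w ↔ Ψ w) : g.PD Ψ := by
  obtain ⟨φ, p, h⟩ := h
  exact ⟨φ, p, fun w => (h w).trans (e w)⟩

theorem imp (h₁ : g.PD Φ) (h₂ : g.PD Ψ) : g.PD (fun w => Φ w → Ψ w) := by
  obtain ⟨φ, p, h₁⟩ := h₁
  obtain ⟨ψ, q, h₂⟩ := h₂
  refine ⟨.imp (φ.rename (imix (fun k => 2 * k) (fun k => 2 * (2 * k) + 1)))
    (ψ.rename (imix (fun k => 2 * k) (fun k => 2 * (2 * k + 1) + 1))), imix p q, fun w => ?_⟩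
  simp only [Sat, sat_rename, ← h₁, ← h₂]
  have e₁ : (fun k => imix w (imix p q) (imix (fun k => 2 * k) (fun k => 2 * (2 * k) + 1) k)) =
      imix w p := imix_cases (fun k => by simp only [imix_even]) (fun k => by
        simp only [imix_even, imix_odd])
  have e₂ : (fun k => imix w (imix p q) (imix (fun k => 2 * k) (fun k => 2 * (2 * k + 1) + 1) k)) =
      imix w q := imix_cases (fun k => by simp only [imix_even]) (fun k => by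
        simp only [imix_odd])
  rw [e₁, e₂]

theorem all (h : g.PD (fun w => Θ (fun k => w (k + 1)) (w 0))) : g.PD (fun w => ∀ x, Θ w x) := by
  obtain ⟨φ, p, h⟩ := h
  refine ⟨.all (φ.rename (imix (cons 0 (fun k => 2 * k + 1)) (fun k => 2 * k + 1 + 1))), p,
    fun w => ?_⟩
  simp only [Sat, sat_rename]
  refine forall_congr' fun x => ?_
  have e : (fun k => cons x (imix w p) (imix (cons 0 (fun k => 2 * k + 1))
      (fun k => 2 * k + 1 + 1) k)) = imix (cons x w) p := by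
    refine imix_cases (fun k => ?_) (fun k => ?_)
    · simp only [imix_even]
      cases k with
      | zero => rfl
      | succ k => simp only [cons_succ, imix_even]
    · simp only [imix_odd, cons_succ]
  rw [e, h]
  rfl

theorem rename (h : g.PD Φ) (f : ℕ → ℕ) : g.PD (fun w => Φ (fun k => w (f k))) := by
  obtain ⟨φ, p, h⟩ := h
  refine ⟨φ.rename (imix (fun k => 2 * f k) (fun k => 2 * k + 1)), p, fun w => ?_⟩
  have e : (fun k => imix w p (imix (fun k => 2 * f k) (fun k => 2 * k + 1) k)) =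
      imix (fun k => w (f k)) p :=
    imix_cases (fun k => by simp only [imix_even]) (fun k => by simp only [imix_odd])
  rw [sat_rename, e]
  exact h _

theorem bot : g.PD (fun _ => False) := udef UDef.bot

theorem not (h : g.PD Φ) : g.PD (fun w => ¬ Φ w) := h.imp bot

theorem and (h₁ : g.PD Φ) (h₂ : g.PD Ψ) : g.PD (fun w => Φ w ∧ Ψ w) :=
  (h₁.imp h₂.not).not.congr fun _ => by tauto

theorem or (h₁ : g.PD Φ) (h₂ : g.PD Ψ) : g.PD (fun w => Φ w ∨ Ψ w) :=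
  (h₁.not.imp h₂).congr fun _ => by tauto

theorem ex (h : g.PD (fun w => Θ (fun k => w (k + 1)) (w 0))) : g.PD (fun w => ∃ x, Θ w x) :=
  (all (Θ := fun w x => ¬ Θ w x) h.not).not.congr fun _ => by simp

theorem mem (i j : ℕ) : g.PD (fun w => g.E (w i) (w j)) := udef (UDef.mem i j)

theorem eq (i j : ℕ) : g.PD (fun w => w i = w j) := udef (UDef.eq i j)

theorem pr (i j k : ℕ) : g.PD (fun w => w i = pr (w j) (w k)) :=
  (udef (UDef.isPair i j k)).congr fun _ => isPair_iff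

theorem exists_fml (h : g.PD Φ) (n : ℕ) : ∃ (φ : Fml) (l : List g.M), ∀ w : ℕ → g.M,
    (∀ k, w (k + n) = env (g.v emp) l k) →
      (Sat g.E φ w ↔ Φ (fun k => if k < n then w k else w 0)) := by
  obtain ⟨φ, p, h⟩ := h
  obtain ⟨m, hm⟩ := fml_exists_bound g.E φ
  refine ⟨φ.rename (imix (fun k => if k < n then k else 0) (fun k => k + n)),
    List.ofFn (fun i : Fin m => p i), fun w hw => ?_⟩
  rw [sat_rename, ← h]
  refine hm _ _ fun k hk => ?_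
  rcases Nat.even_or_odd' k with ⟨j, rfl | rfl⟩
  · simp only [imix_even]
    split_ifs <;> rfl
  · simp only [imix_odd, hw, env]
    rw [List.getD_eq_getElem _ _ (by simp; omega)]
    simp

end PD

/-- Definable subsets of the model. -/
def D1 (g : Gen P) (S : g.M → Prop) : Prop := g.PD (fun w => S (w 0))

theorem D1.at {S : g.M → Prop} (h : g.D1 S) (i : ℕ) : g.PD (fun w => S (w i)) :=
  PD.rename h (fun _ => i)

theorem D1.sep {S : g.M → Prop} (h : g.D1 S) (a : g.M) : ∃ b, ∀ x, g.E x b ↔ g.E x a ∧ S x := by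
  obtain ⟨φ, l, h⟩ := PD.exists_fml h 1
  obtain ⟨b, hb⟩ := sep_fml φ l a
  exact ⟨b, fun x => (hb x).trans (and_congr_right fun _ => h _ fun _ => rfl)⟩

theorem D1.coll {S : g.M → Prop} (h : g.D1 S) (a : g.M) :
    ∃ c, ∀ x, g.E x a → (∃ y, S (pr x y)) → ∃ y, g.E y c ∧ S (pr x y) := by
  have h' : g.PD (fun w => S (pr (w 1) (w 0))) :=
    (PD.ex (Θ := fun w q => q = pr (w 1) (w 0) ∧ S q) ((PD.pr _ _ _).and (h.at _))).congr
      fun w => by simp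
  obtain ⟨φ, l, h'⟩ := PD.exists_fml h' 2
  obtain ⟨c, hc⟩ := collection φ l a
  have e : ∀ x y, Sat g.E φ (cons y (cons x (env (g.v emp) l))) ↔ S (pr x y) :=
    fun x y => h' _ fun _ => rfl
  simp only [e] at hc
  exact ⟨c, hc⟩

/-- Types coded by a definable class of elements of the model. -/
class Cd (g : Gen P) (α : Type v) where
  ι : α → g.M
  inj : Function.Injective ι
  rng : g.D1 (fun x => ∃ a, ι a = x)

/-- Coded types whose codes lie in a set of the model. -/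
class Bd (g : Gen P) (α : Type v) [Cd g α] : Prop where
  bd : ∃ A : g.M, ∀ a : α, g.E (Cd.ι a) A

open Cd

instance : Cd g g.M where
  ι := id
  inj := Function.injective_id
  rng := (PD.eq 0 0).congr fun w => by simp

@[simp] theorem ι_M (x : g.M) : (ι x : g.M) = x := rfl

noncomputable instance {α : Type v} {β : Type w} [Cd g α] [Cd g β] : Cd g (α × β) where
  ι := fun z => pr (ι z.1) (ι z.2)
  inj := fun a b h => Prod.ext (inj (pr_inj.1 h).1) (inj (pr_inj.1 h).2)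
  rng := by
    have : g.PD (fun w => ∃ x y, w 0 = pr x y ∧ (∃ a : α, ι a = x) ∧ ∃ b : β, ι b = y) :=
      PD.ex (PD.ex ((PD.pr _ _ _).and ((rng.at _).and (rng.at _))))
    refine this.congr fun w => ⟨?_, ?_⟩
    · rintro ⟨_, _, h, ⟨a, rfl⟩, b, rfl⟩
      exact ⟨(a, b), h.symm⟩
    · rintro ⟨⟨a, b⟩, h⟩
      exact ⟨_, _, h.symm, ⟨a, rfl⟩, b, rfl⟩

theorem ι_prod {α : Type v} {β : Type w} [Cd g α] [Cd g β] (z : α × β) :
    (ι z : g.M) = pr (ι z.1) (ι z.2) := rfl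

theorem exists_pr_bound (A B : g.M) : ∃ C, ∀ a b, g.E a A → g.E b B → g.E (pr a b) C := by
  obtain ⟨c, hc⟩ := exists_upair A B
  obtain ⟨U, hU⟩ := exists_union c
  obtain ⟨Q, hQ⟩ := exists_power U
  obtain ⟨R, hR⟩ := exists_power Q
  refine ⟨R, fun a b ha hb => (hR _).2 fun z hz => (hQ _).2 fun y hy => (hU _).2 ?_⟩
  rcases (isPair_pr a b z).1 hz with h | h
  · exact ⟨A, (h y).1 hy ▸ ha, (hc _).2 (Or.inl rfl)⟩
  · rcases (h y).1 hy with rfl | rfl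
    exacts [⟨A, ha, (hc _).2 (Or.inl rfl)⟩, ⟨B, hb, (hc _).2 (Or.inr rfl)⟩]

instance {α : Type v} {β : Type w} [Cd g α] [Cd g β] [Bd g α] [Bd g β] : Bd g (α × β) where
  bd := by
    obtain ⟨A, hA⟩ := Bd.bd (g := g) (α := α)
    obtain ⟨B, hB⟩ := Bd.bd (g := g) (α := β)
    obtain ⟨C, hC⟩ := exists_pr_bound A B
    exact ⟨C, fun z => hC _ _ (hA _) (hB _)⟩

/-- Definable predicates on a coded type. -/
def Df (g : Gen P) {α : Type v} [Cd g α] (Q : α → Prop) : Prop :=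
  g.D1 (fun x => ∃ a, ι a = x ∧ Q a)

/-- Definable functions between coded types. -/
def Tm (g : Gen P) {α : Type v} {β : Type w} [Cd g α] [Cd g β] (f : α → β) : Prop :=
  g.Df (fun z : α × β => z.2 = f z.1)

section Closure

variable {Γ : Type*} {α : Type*} {β : Type*} [Cd g Γ] [Cd g α] [Cd g β]
variable {Q R : Γ → Prop}

theorem Df.congr (h : g.Df Q) (e : ∀ x, Q x ↔ R x) : g.Df R :=
  PD.congr h fun _ => by simp only [e]

theorem Df.ofD1 {S : g.M → Prop} (h : g.D1 S) : g.Df (fun x : Γ => S (ι x)) :=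
  (PD.and (rng (α := Γ)) h).congr fun w => by
    constructor
    · rintro ⟨⟨a, e⟩, h⟩
      exact ⟨a, e, by show S (ι a); rw [e]; exact h⟩
    · rintro ⟨a, e, h⟩
      exact ⟨⟨a, e⟩, by show S (w 0); rw [← show ι a = w 0 from e]; exact h⟩

theorem Df.not (h : g.Df Q) : g.Df (fun x => ¬ Q x) :=
  (Df.ofD1 (S := fun y => ¬ ∃ a, ι a = y ∧ Q a) (PD.not h)).congr fun x => by
    simp [inj.eq_iff]

theorem Df.and (h₁ : g.Df Q) (h₂ : g.Df R) : g.Df (fun x => Q x ∧ R x) :=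
  (Df.ofD1 (S := fun y => (∃ a, ι a = y ∧ Q a) ∧ ∃ a, ι a = y ∧ R a) (PD.and h₁ h₂)).congr
    fun x => by simp [inj.eq_iff]

theorem Df.or (h₁ : g.Df Q) (h₂ : g.Df R) : g.Df (fun x => Q x ∨ R x) :=
  (h₁.not.and h₂.not).not.congr fun _ => by tauto

theorem Df.imp (h₁ : g.Df Q) (h₂ : g.Df R) : g.Df (fun x => Q x → R x) :=
  (h₁.and h₂.not).not.congr fun _ => by tauto

theorem Df.iff (h₁ : g.Df Q) (h₂ : g.Df R) : g.Df (fun x => Q x ↔ R x) :=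
  ((h₁.imp h₂).and (h₂.imp h₁)).congr fun _ => by tauto

theorem Df.ex {Q : Γ → α → Prop} (h : g.Df (fun z : Γ × α => Q z.1 z.2)) :
    g.Df (fun x => ∃ y, Q x y) := by
  have : g.D1 (fun x => ∃ y q, q = pr x y ∧ ∃ a : Γ × α, ι a = q ∧ Q a.1 a.2) :=
    PD.ex (PD.ex ((PD.pr _ _ _).and (D1.at h _)))
  refine (Df.ofD1 this).congr fun x => ⟨?_, ?_⟩
  · rintro ⟨y, _, rfl, ⟨a, b⟩, e, h⟩
    obtain rfl := inj (pr_inj.1 e).1
    exact ⟨b, h⟩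
  · rintro ⟨y, h⟩
    exact ⟨_, _, rfl, (x, y), rfl, h⟩

theorem Df.all {Q : Γ → α → Prop} (h : g.Df (fun z : Γ × α => Q z.1 z.2)) :
    g.Df (fun x => ∀ y, Q x y) :=
  (Df.ex (Q := fun x y => ¬ Q x y) h.not).not.congr fun _ => by simp

theorem Df.ofPD {S : g.M → g.M → Prop} (h : g.PD (fun w => S (w 0) (w 1))) :
    g.Df (fun z : α × β => S (ι z.1) (ι z.2)) := by
  have : g.D1 (fun q => ∃ x y, q = pr x y ∧ S x y) :=
    PD.ex (PD.ex ((PD.pr _ _ _).and (h.rename (cons 1 (fun _ => 0)))))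
  refine (Df.ofD1 this).congr fun z => ⟨?_, fun h => ⟨_, _, rfl, h⟩⟩
  rintro ⟨x, y, e, h⟩
  obtain ⟨rfl, rfl⟩ := pr_inj.1 e
  exact h

theorem Df.comp {Q : α → Prop} {f : Γ → α} (h : g.Df Q) (hf : g.Tm f) :
    g.Df (fun x => Q (f x)) := by
  have h' : g.Df (fun z : Γ × α => Q z.2) :=
    (Df.ofPD (S := fun _ y => ∃ a, ι a = y ∧ Q a) (D1.at h 1)).congr fun z => by
      simp [inj.eq_iff]
  exact (Df.ex (Q := fun x y => y = f x ∧ Q y) (Df.and hf h')).congr fun x => by simp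

theorem Tm.ofPD {f : α → β} {S : g.M → g.M → Prop} (h : g.PD (fun w => S (w 0) (w 1)))
    (e : ∀ a b, S (ι a) (ι b) ↔ b = f a) : g.Tm f :=
  (Df.ofPD h).congr fun z => e z.1 z.2

theorem Tm.id : g.Tm (fun x : Γ => x) :=
  Tm.ofPD (S := fun x y => y = x) (PD.eq _ _) fun _ _ => inj.eq_iff

theorem Tm.const (c : α) : g.Tm (fun _ : Γ => c) :=
  Tm.ofPD (S := fun _ y => y = ι c) (PD.const _ _) fun _ _ => inj.eq_iff

theorem Tm.fst' : g.Tm (fun z : α × β => z.1) :=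
  Tm.ofPD (S := fun x y => ∃ t, x = pr y t) (PD.ex (PD.pr _ _ _)) fun a b => by
    simp [ι_prod, pr_inj, inj.eq_iff, eq_comm]

theorem Tm.snd' : g.Tm (fun z : α × β => z.2) :=
  Tm.ofPD (S := fun x y => ∃ t, x = pr t y) (PD.ex (PD.pr _ _ _)) fun a b => by
    simp [ι_prod, pr_inj, inj.eq_iff, eq_comm]

theorem Tm.rel {f : α → β} (hf : g.Tm f) (i j : ℕ) :
    g.PD (fun w => ∃ a, ι a = w i ∧ ι (f a) = w j) := by
  have : g.PD (fun w => ∃ q, q = pr (w i) (w j) ∧ ∃ z : α × β, ι z = q ∧ z.2 = f z.1) :=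
    PD.ex ((PD.pr _ _ _).and (D1.at (S := fun x => ∃ z : α × β, ι z = x ∧ z.2 = f z.1) hf _))
  refine this.congr fun w => ⟨?_, ?_⟩
  · rintro ⟨_, rfl, ⟨a, b⟩, e, h⟩
    obtain rfl : b = f a := h
    exact ⟨a, pr_inj.1 e⟩
  · rintro ⟨a, e₁, e₂⟩
    exact ⟨_, rfl, (a, f a), by rw [← e₁, ← e₂]; rfl, rfl⟩

theorem Tm.comp {h : α → β} {f : Γ → α} (hh : g.Tm h) (hf : g.Tm f) :
    g.Tm (fun x => h (f x)) :=
  Tm.ofPD (S := fun x y => ∃ t, (∃ a, ι a = x ∧ ι (f a) = t) ∧ ∃ a, ι a = t ∧ ι (h a) = y)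
    (PD.ex ((hf.rel _ _).and (hh.rel _ _))) fun a b => by
      simp [inj.eq_iff, eq_comm]

theorem Tm.pair {f : Γ → α} {h : Γ → β} (hf : g.Tm f) (hh : g.Tm h) :
    g.Tm (fun x => (f x, h x)) :=
  Tm.ofPD (S := fun x y => ∃ s t, y = pr s t ∧ (∃ a, ι a = x ∧ ι (f a) = s) ∧
      ∃ a, ι a = x ∧ ι (h a) = t)
    (PD.ex (PD.ex ((PD.pr _ _ _).and ((hf.rel _ _).and (hh.rel _ _))))) fun a b => by
      simp [inj.eq_iff, ι_prod, pr_inj, Prod.ext_iff]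

theorem Tm.fst {f : Γ → α × β} (hf : g.Tm f) : g.Tm (fun x => (f x).1) := Tm.fst'.comp hf

theorem Tm.snd {f : Γ → α × β} (hf : g.Tm f) : g.Tm (fun x => (f x).2) := Tm.snd'.comp hf

theorem Tm.ι' : g.Tm (fun x : Γ => (ι x : g.M)) :=
  Tm.ofPD (S := fun x y => y = x) (PD.eq _ _) fun _ _ => Iff.rfl

theorem Tm.ι {f : Γ → α} (hf : g.Tm f) : g.Tm (fun x => (ι (f x) : g.M)) := Tm.ι'.comp hf

theorem Df.comp₂ {Q : α → β → Prop} {f : Γ → α} {h : Γ → β}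
    (H : g.Df (fun z : α × β => Q z.1 z.2)) (hf : g.Tm f) (hh : g.Tm h) :
    g.Df (fun x => Q (f x) (h x)) := H.comp (hf.pair hh)

theorem Df.comp₃ {γ : Type*} [Cd g γ] {Q : α → β → γ → Prop} {f : Γ → α} {h : Γ → β} {k : Γ → γ}
    (H : g.Df (fun z : α × β × γ => Q z.1 z.2.1 z.2.2)) (hf : g.Tm f) (hh : g.Tm h)
    (hk : g.Tm k) : g.Df (fun x => Q (f x) (h x) (k x)) := H.comp (hf.pair (hh.pair hk))

theorem Tm.comp₂ {γ : Type*} [Cd g γ] {F : α → β → γ} {f : Γ → α} {h : Γ → β}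
    (H : g.Tm (fun z : α × β => F z.1 z.2)) (hf : g.Tm f) (hh : g.Tm h) :
    g.Tm (fun x => F (f x) (h x)) := H.comp (hf.pair hh)

theorem Df.eq {f h : Γ → α} (hf : g.Tm f) (hh : g.Tm h) : g.Df (fun x => f x = h x) :=
  Df.comp₂ (Q := fun a b => a = b)
    ((Df.ofPD (S := fun x y => x = y) (PD.eq _ _)).congr fun _ => inj.eq_iff) hf hh

theorem Df.mem {f h : Γ → g.M} (hf : g.Tm f) (hh : g.Tm h) : g.Df (fun x => g.E (f x) (h x)) :=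
  Df.comp₂ (Q := g.E) (Df.ofPD (α := g.M) (β := g.M) (S := g.E) (PD.mem _ _)) hf hh

theorem Tm.pr {f h : Γ → g.M} (hf : g.Tm f) (hh : g.Tm h) : g.Tm (fun x => pr (f x) (h x)) :=
  (hf.pair hh).ι

theorem Df.app {f h k : Γ → g.M} (hf : g.Tm f) (hh : g.Tm h) (hk : g.Tm k) :
    g.Df (fun x => App g.E (f x) (h x) (k x)) :=
  (Df.mem (hh.pr hk) hf).congr fun _ => app_iff.symm

theorem Df.udef₃ {S : ∀ (M : Type 3), (M → M → Prop) → M → M → M → Prop}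
    (H : UDef (fun M E w => S M E (w 0) (w 1) (w 2))) {f h k : Γ → g.M} (hf : g.Tm f)
    (hh : g.Tm h) (hk : g.Tm k) : g.Df (fun x => S g.M g.E (f x) (h x) (k x)) := by
  have h₀ : g.PD (fun w => ∃ s t, w 1 = pr s t ∧ S g.M g.E (w 0) s t) :=
    PD.ex (PD.ex ((PD.pr _ _ _).and ((PD.udef H).rename (cons 2 (cons 1 fun _ => 0)))))
  have h₁ := Df.ofPD (α := g.M) (β := g.M × g.M)
    (S := fun x y => ∃ s t, y = pr s t ∧ S g.M g.E x s t) h₀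
  refine Df.comp₃ (Q := S g.M g.E) (h₁.congr fun z => ⟨?_, fun h => ⟨_, _, rfl, h⟩⟩) hf hh hk
  rintro ⟨s, t, e, h⟩
  obtain ⟨rfl, rfl⟩ := pr_inj.1 e
  exact h

theorem Df.isInj {f h k : Γ → g.M} (hf : g.Tm f) (hh : g.Tm h) (hk : g.Tm k) :
    g.Df (fun x => IsInj g.E (f x) (h x) (k x)) :=
  Df.udef₃ (S := fun _ E => IsInj E) (UDef.isInj 0 1 2) hf hh hk

theorem Df.true : g.Df (fun _ : Γ => True) := (Df.eq Tm.id Tm.id).congr fun _ => by simp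

theorem Df.constP (p : Prop) : g.Df (fun _ : Γ => p) := by
  by_cases h : p
  · exact Df.true.congr fun _ => by simp [h]
  · exact Df.true.not.congr fun _ => by simp [h]

theorem Tm.ofRel {f : Γ → α} {Q : Γ → α → Prop} (h : g.Df (fun z : Γ × α => Q z.1 z.2))
    (e : ∀ x y, Q x y ↔ y = f x) : g.Tm f := h.congr fun z => e z.1 z.2

theorem Tm.ite {c : Γ → Prop} [DecidablePred c] {f h : Γ → α} (hc : g.Df c) (hf : g.Tm f)
    (hh : g.Tm h) : g.Tm (fun x => if c x then f x else h x) := by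
  refine Tm.ofRel (Q := fun x y => (c x ∧ y = f x) ∨ (¬ c x ∧ y = h x))
    (((hc.comp Tm.fst').and hf).or ((hc.comp Tm.fst').not.and hh)) fun x y => ?_
  by_cases h : c x <;> simp [h]

/-! ### Separation, replacement and choice for coded types -/

theorem Df.sep {Q : g.M → Prop} (h : g.Df Q) (a : g.M) : ∃ b, ∀ x, g.E x b ↔ g.E x a ∧ Q x := by
  simpa using D1.sep h a

theorem Df.coll [Bd g Γ] {Q : Γ → α → Prop} (h : g.Df (fun z : Γ × α => Q z.1 z.2)) :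
    ∃ c, ∀ x, (∃ y, Q x y) → ∃ y, g.E (ι y) c ∧ Q x y := by
  obtain ⟨A, hA⟩ := Bd.bd (g := g) (α := Γ)
  obtain ⟨c, hc⟩ := D1.coll h A
  refine ⟨c, fun x ⟨y, hy⟩ => ?_⟩
  obtain ⟨y', h₁, ⟨a, b⟩, e, h₂⟩ := hc (ι x) (hA x) ⟨ι y, (x, y), rfl, hy⟩
  obtain ⟨e₁, rfl⟩ := pr_inj.1 e
  obtain rfl := inj e₁
  exact ⟨b, h₁, h₂⟩

theorem exists_image [Bd g Γ] (hQ : g.Df Q) {f : Γ → g.M} (hf : g.Tm f) :
    ∃ S : g.M, ∀ y, g.E y S ↔ ∃ x, Q x ∧ f x = y := by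
  obtain ⟨c, hc⟩ := Df.coll (Q := fun x y => y = f x) hf
  have : g.Df (fun y : g.M => ∃ x, Q x ∧ f x = y) :=
    Df.ex ((hQ.comp Tm.snd').and (Df.eq (hf.comp Tm.snd') Tm.fst'))
  obtain ⟨b, hb⟩ := this.sep c
  refine ⟨b, fun y => (hb y).trans ⟨fun h => h.2, fun ⟨x, h₁, h₂⟩ => ⟨?_, x, h₁, h₂⟩⟩⟩
  obtain ⟨y', h₃, rfl⟩ := hc x ⟨_, rfl⟩
  exact h₂ ▸ h₃

theorem exists_graph [Bd g Γ] (hQ : g.Df Q) {f : Γ → α} (hf : g.Tm f) :
    ∃ F : g.M, (∀ p, g.E p F → ∃ x, Q x ∧ p = pr (ι x) (ι (f x))) ∧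
      ∀ s t, App g.E F s t ↔ ∃ x, Q x ∧ s = ι x ∧ t = ι (f x) := by
  obtain ⟨F, hF⟩ := exists_image hQ (Tm.pr Tm.ι' hf.ι)
  refine ⟨F, fun p hp => ?_, fun s t => ?_⟩
  · obtain ⟨x, h, rfl⟩ := (hF p).1 hp
    exact ⟨x, h, rfl⟩
  · rw [app_iff, hF]
    simp only [pr_inj, eq_comm]

theorem exists_enum (c : g.M) : ∃ f : g.M, (∀ y, g.E y c → ∃ s, App g.E f s y) ∧
    ∀ s s' y y', App g.E f s y → App g.E f s' y' → g.E s s' ∨ (s = s' ∧ y = y') ∨ g.E s' s := by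
  obtain ⟨τ, hτ, rfl⟩ := exists_v c
  let o : τ.I → Name P := ordN (woWf τ.I)
  have hf : ∀ s t, App g.E (g.v (enumN τ)) s t ↔
      ∃ j, ⊤ ∈ g.G ∧ o j ∈ g.N ∧ τ.A j ∈ g.N ∧ s = g.v (o j) ∧ t = g.v (τ.A j) :=
    fun s t => app_relN (A := o) (A' := τ.A) (B := fun _ => ⊤) (enumN_mem hτ)
  refine ⟨g.v (enumN τ), fun y hy => ?_, fun s s' y y' h h' => ?_⟩
  · obtain ⟨i, -, hi, rfl⟩ := (E_v hτ).1 hy
    have h : ∃ j, τ.A j = τ.A i := ⟨i, rfl⟩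
    have := idxN_mem hτ hi
    unfold idxN at this
    rw [dif_pos h, pairN_mem_iff] at this
    exact ⟨_, (hf _ _).2 ⟨h.choose, g.top, this.1, this.2, rfl, by rw [h.choose_spec]⟩⟩
  · obtain ⟨j, -, h₁, -, rfl, rfl⟩ := (hf _ _).1 h
    obtain ⟨j', -, h₂, -, rfl, rfl⟩ := (hf _ _).1 h'
    rcases woTri _ j j' with h | rfl | h
    exacts [Or.inl (ord_lt_of _ h₁ h₂ h), Or.inr (Or.inl ⟨rfl, rfl⟩),
      Or.inr (Or.inr (ord_lt_of _ h₂ h₁ h))]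

/-- Definable choice. -/
theorem def_choice [Bd g Γ] {Q : Γ → α → Prop} (h : g.Df (fun z : Γ × α => Q z.1 z.2))
    (tot : ∀ x, ∃ y, Q x y) : ∃ f : Γ → α, g.Tm f ∧ ∀ x, Q x (f x) := by
  obtain ⟨c, hc⟩ := Df.coll h
  obtain ⟨e, he₁, he₂⟩ := exists_enum c
  let S : Γ → α → Prop := fun x y => Q x y ∧ ∃ s : g.M, App g.E e s (ι y) ∧
    ∀ (s' : g.M) (y' : α), g.E s' s → App g.E e s' (ι y') → ¬ Q x y'
  have hS : g.Df (fun z : Γ × α => S z.1 z.2) := by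
    refine h.and (Df.ex (Df.and (Df.app (Tm.const _) Tm.snd' Tm.fst'.snd.ι)
      (Df.all (Df.all (Df.imp (Df.mem Tm.fst'.snd Tm.fst'.fst.snd)
        (Df.imp (Df.app (Tm.const _) Tm.fst'.snd Tm.snd'.ι)
          (Df.not (Df.comp₂ h Tm.fst'.fst.fst.fst Tm.snd'))))))))
  have ex : ∀ x, ∃ y, S x y := by
    intro x
    obtain ⟨y, hy, hq⟩ := hc x (tot x)
    obtain ⟨s, hs⟩ := he₁ _ hy
    obtain ⟨s, ⟨y, h₁, h₂⟩, hmin⟩ := E_wf.has_min {s | ∃ y, App g.E e s (ι y) ∧ Q x y}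
      ⟨s, y, hs, hq⟩
    exact ⟨y, h₂, s, h₁, fun s' y' h₃ h₄ h₅ => hmin s' ⟨y', h₄, h₅⟩ h₃⟩
  choose f hf using ex
  refine ⟨f, Tm.ofRel hS fun x y => ⟨fun ⟨h₁, s, h₂, h₃⟩ => ?_, fun h => h ▸ hf x⟩,
    fun x => (hf x).1⟩
  obtain ⟨h₄, s', h₅, h₆⟩ := hf x
  rcases he₂ _ _ _ _ h₂ h₅ with h | h | h
  · exact absurd h₁ (h₆ _ _ h h₂)
  · exact inj h.2
  · exact absurd h₄ (h₃ _ _ h h₅)

end Closure

end Gen

end Pool.Agent.MP_85ce7b_lc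

end

section

namespace Pool.Agent.MP_85ce7b_lc

open Pool.Agent.MP_c6cf52_lc

open Name

universe u v w

namespace Gen

variable {P : Type 2} [Sz P] [Preorder P] [OrderTop P] [Tame P] {g : Gen P}

open Cd

/-- The natural numbers of the model. -/
noncomputable def nat (g : Gen P) (n : ℕ) : g.M := g.v (ordN natWf ⟨n⟩)

/-- The omega of the model. -/
noncomputable def om (g : Gen P) : g.M := g.v (setN natWf Set.univ)

theorem E_om {x : g.M} : g.E x g.om ↔ ∃ n, g.nat n = x := by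
  unfold om
  rw [E_setN _ g.omega_mem]
  exact ⟨fun ⟨n, _, _, e⟩ => ⟨n.down, e⟩, fun ⟨n, e⟩ => ⟨⟨n⟩, trivial, nat_mem _, e⟩⟩

theorem E_nat {x : g.M} {n : ℕ} : g.E x (g.nat n) ↔ ∃ m < n, g.nat m = x := by
  unfold nat
  rw [E_ordN _ (nat_mem _)]
  exact ⟨fun ⟨m, h, _, e⟩ => ⟨m.down, h, e⟩, fun ⟨m, h, e⟩ => ⟨⟨m⟩, h, nat_mem _, e⟩⟩

theorem nat_inj : Function.Injective g.nat := fun a b h =>
  congrArg ULift.down (ord_inj natWf natTri (nat_mem ⟨a⟩) (nat_mem ⟨b⟩) h)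

theorem nat_lt {m n : ℕ} : g.E (g.nat m) (g.nat n) ↔ m < n := by
  simp [E_nat, nat_inj.eq_iff]

theorem nat_om (n : ℕ) : g.E (g.nat n) g.om := E_om.2 ⟨n, rfl⟩

theorem D1.memc (c : g.M) : g.D1 (fun x => g.E x c) :=
  (PD.ex (Θ := fun w y => y = c ∧ g.E (w 0) y) ((PD.const _ _).and (PD.mem _ _))).congr
    fun w => by simp

noncomputable instance : Cd g ℕ where
  ι := g.nat
  inj := nat_inj
  rng := PD.congr (D1.memc g.om) fun _ => E_om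

instance : Bd g ℕ := ⟨⟨g.om, nat_om⟩⟩

theorem ι_nat (n : ℕ) : (ι n : g.M) = g.nat n := rfl

open Classical in
noncomputable instance : Cd g Prop where
  ι := fun p => if p then g.nat 1 else g.nat 0
  inj := fun p q h => by
    by_cases hp : p <;> by_cases hq : q <;> simp [hp, hq, nat_inj.eq_iff] at h ⊢
  rng := ((PD.const 0 (g.nat 1)).or (PD.const 0 (g.nat 0))).congr fun w => by
    constructor
    · rintro (h | h)
      exacts [⟨True, by simp [h]⟩, ⟨False, by simp [h]⟩]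
    · rintro ⟨p, h⟩
      by_cases hp : p <;> simp [hp] at h <;> simp [h]

/-- Elements of a set of the model, as a type. -/
def Elt (g : Gen P) (A : g.M) : Type 3 := {x : g.M // g.E x A}

instance (A : g.M) : Cd g (g.Elt A) where
  ι := Subtype.val
  inj := Subtype.val_injective
  rng := PD.congr (D1.memc A) fun _ => ⟨fun h => ⟨⟨_, h⟩, rfl⟩, fun ⟨a, e⟩ => e ▸ a.2⟩

instance (A : g.M) : Bd g (g.Elt A) := ⟨⟨A, fun a => a.2⟩⟩

theorem ι_elt {A : g.M} (a : g.Elt A) : (ι a : g.M) = a.1 := rfl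

section

variable {Γ : Type*} {α : Type*} {β : Type*} {γ : Type*} [Cd g Γ] [Cd g α] [Cd g β] [Cd g γ]

theorem Df.tm {Q : Γ → Prop} (h : g.Df Q) : g.Tm Q := by
  refine Tm.ofRel (Q := fun x p => (p = True ∧ Q x) ∨ (p = False ∧ ¬ Q x))
    (((Df.eq Tm.snd' (Tm.const _)).and (h.comp Tm.fst')).or
      ((Df.eq Tm.snd' (Tm.const _)).and (h.comp Tm.fst').not)) fun x p => ?_
  by_cases h : Q x <;> simp [h]

theorem Tm.df {Q : Γ → Prop} (h : g.Tm Q) : g.Df Q :=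
  (Df.eq h (Tm.const True)).congr fun _ => by simp

attribute [fun_prop] Tm

@[fun_prop] theorem tm_id : g.Tm (fun x : Γ => x) := Tm.id

@[fun_prop] theorem tm_const (c : α) : g.Tm (fun _ : Γ => c) := Tm.const c

@[fun_prop] theorem tm_comp {h : α → β} {f : Γ → α} (hh : g.Tm h) (hf : g.Tm f) :
    g.Tm (fun x => h (f x)) := hh.comp hf

@[fun_prop] theorem tm_fst {f : Γ → α × β} (hf : g.Tm f) : g.Tm (fun x => (f x).1) := hf.fst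

@[fun_prop] theorem tm_snd {f : Γ → α × β} (hf : g.Tm f) : g.Tm (fun x => (f x).2) := hf.snd

@[fun_prop] theorem tm_pair {f : Γ → α} {h : Γ → β} (hf : g.Tm f) (hh : g.Tm h) :
    g.Tm (fun x => (f x, h x)) := hf.pair hh

@[fun_prop] theorem tm_ι {f : Γ → α} (hf : g.Tm f) : g.Tm (fun x => (ι (f x) : g.M)) := hf.ι

@[fun_prop] theorem tm_nat {f : Γ → ℕ} (hf : g.Tm f) : g.Tm (fun x => g.nat (f x)) := hf.ι

@[fun_prop] theorem tm_val {A : g.M} {f : Γ → g.Elt A} (hf : g.Tm f) :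
    g.Tm (fun x => (Subtype.val (f x) : g.M)) := hf.ι

@[fun_prop] theorem tm_pr {f h : Γ → g.M} (hf : g.Tm f) (hh : g.Tm h) :
    g.Tm (fun x => pr (f x) (h x)) := hf.pr hh

variable {Q R : Γ → Prop}

@[fun_prop] theorem tm_not (h : g.Tm Q) : g.Tm (fun x => ¬ Q x) := h.df.not.tm

@[fun_prop] theorem tm_and (h₁ : g.Tm Q) (h₂ : g.Tm R) : g.Tm (fun x => Q x ∧ R x) :=
  (h₁.df.and h₂.df).tm

@[fun_prop] theorem tm_or (h₁ : g.Tm Q) (h₂ : g.Tm R) : g.Tm (fun x => Q x ∨ R x) :=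
  (h₁.df.or h₂.df).tm

@[fun_prop] theorem tm_imp (h₁ : g.Tm Q) (h₂ : g.Tm R) : g.Tm (fun x => Q x → R x) :=
  (h₁.df.imp h₂.df).tm

@[fun_prop] theorem tm_iff (h₁ : g.Tm Q) (h₂ : g.Tm R) : g.Tm (fun x => Q x ↔ R x) :=
  (h₁.df.iff h₂.df).tm

@[fun_prop] theorem tm_ex {Q : Γ → α → Prop} (h : g.Tm (fun z : Γ × α => Q z.1 z.2)) :
    g.Tm (fun x => ∃ y, Q x y) := (Df.ex h.df).tm

@[fun_prop] theorem tm_all {Q : Γ → α → Prop} (h : g.Tm (fun z : Γ × α => Q z.1 z.2)) :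
    g.Tm (fun x => ∀ y, Q x y) := (Df.all h.df).tm

@[fun_prop] theorem tm_eq {f h : Γ → α} (hf : g.Tm f) (hh : g.Tm h) :
    g.Tm (fun x => f x = h x) := (Df.eq hf hh).tm

@[fun_prop] theorem tm_ne {f h : Γ → α} (hf : g.Tm f) (hh : g.Tm h) :
    g.Tm (fun x => f x ≠ h x) := (Df.eq hf hh).not.tm

@[fun_prop] theorem tm_E {f h : Γ → g.M} (hf : g.Tm f) (hh : g.Tm h) :
    g.Tm (fun x => g.E (f x) (h x)) := (Df.mem hf hh).tm

@[fun_prop] theorem tm_app {f h k : Γ → g.M} (hf : g.Tm f) (hh : g.Tm h) (hk : g.Tm k) :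
    g.Tm (fun x => App g.E (f x) (h x) (k x)) := (Df.app hf hh hk).tm

@[fun_prop] theorem tm_isInj {f h k : Γ → g.M} (hf : g.Tm f) (hh : g.Tm h) (hk : g.Tm k) :
    g.Tm (fun x => IsInj g.E (f x) (h x) (k x)) := (Df.isInj hf hh hk).tm

@[fun_prop] theorem tm_ite {c : Γ → Prop} {d : ∀ x, Decidable (c x)} {f h : Γ → α} (hc : g.Tm c)
    (hf : g.Tm f) (hh : g.Tm h) : g.Tm (fun x => @ite _ (c x) (d x) (f x) (h x)) :=
  @Tm.ite _ _ _ _ _ _ _ _ _ _ _ d _ _ hc.df hf hh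

@[fun_prop] theorem tm_nat_lt {f h : Γ → ℕ} (hf : g.Tm f) (hh : g.Tm h) :
    g.Tm (fun x => f x < h x) := ((Df.mem hf.ι hh.ι).congr fun _ => nat_lt).tm

@[fun_prop] theorem tm_nat_le {f h : Γ → ℕ} (hf : g.Tm f) (hh : g.Tm h) :
    g.Tm (fun x => f x ≤ h x) := ((tm_nat_lt hh hf).df.not.congr fun _ => not_lt).tm

theorem tm_of_rel {f : Γ → α} {Q : Γ → α → Prop} (h : g.Tm (fun z : Γ × α => Q z.1 z.2))
    (e : ∀ x y, Q x y ↔ y = f x) : g.Tm f := Tm.ofRel h.df e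

theorem tm_succ' : g.Tm (fun n : ℕ => n + 1) :=
  tm_of_rel (Q := fun n m => n < m ∧ ∀ k, n < k → m ≤ k) (by fun_prop) fun n m =>
    ⟨fun ⟨h₁, h₂⟩ => le_antisymm (h₂ _ (Nat.lt_succ_self n)) h₁, fun h => h ▸
      ⟨Nat.lt_succ_self n, fun _ hk => hk⟩⟩

@[fun_prop] theorem tm_succ {f : Γ → ℕ} (hf : g.Tm f) : g.Tm (fun x => Nat.succ (f x)) :=
  tm_succ'.comp hf

theorem tm_sep {Q : g.M → Prop} (h : g.Tm Q) (a : g.M) : ∃ b, ∀ x, g.E x b ↔ g.E x a ∧ Q x :=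
  h.df.sep a

theorem tm_choice [Bd g Γ] {Q : Γ → α → Prop} (h : g.Tm (fun z : Γ × α => Q z.1 z.2))
    (tot : ∀ x, ∃ y, Q x y) : ∃ f : Γ → α, g.Tm f ∧ ∀ x, Q x (f x) := def_choice h.df tot

theorem tm_image [Bd g Γ] (hQ : g.Tm Q) {f : Γ → g.M} (hf : g.Tm f) :
    ∃ S : g.M, ∀ y, g.E y S ↔ ∃ x, Q x ∧ f x = y := exists_image hQ.df hf

theorem exists_finset {S : Set g.M} (h : S.Finite) : ∃ s, ∀ x, g.E x s ↔ x ∈ S := by
  induction S, h using Set.Finite.induction_on with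
  | empty => exact ⟨g.v emp, fun x => by simp [not_E_emp]⟩
  | @insert a S _ _ ih =>
    obtain ⟨s, hs⟩ := ih
    obtain ⟨c, hc⟩ := exists_upair a a
    obtain ⟨d, hd⟩ := exists_upair c s
    obtain ⟨U, hU⟩ := exists_union d
    refine ⟨U, fun x => ?_⟩
    simp only [hU, hd, Set.mem_insert_iff, ← hs]
    constructor
    · rintro ⟨y, h, rfl | rfl⟩
      exacts [Or.inl (by simpa using (hc x).1 h), Or.inr h]
    · rintro (h | h)
      exacts [⟨c, (hc x).2 (Or.inl h), Or.inl rfl⟩, ⟨s, h, Or.inr rfl⟩]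

theorem tm_iter' {F : Γ → α → α} {a : Γ → α} (hF : g.Tm (fun z : Γ × α => F z.1 z.2))
    (ha : g.Tm a) : g.Tm (fun z : Γ × ℕ => (F z.1)^[z.2] (a z.1)) := by
  refine tm_of_rel (Q := fun z y => ∃ s : g.M, App g.E s (g.nat z.2) (ι y) ∧
    (∀ y' : α, App g.E s (g.nat 0) (ι y') → y' = a z.1) ∧
    ∀ (k : ℕ) (y' : α), App g.E s (g.nat k.succ) (ι y') →
      ∃ y'' : α, App g.E s (g.nat k) (ι y'') ∧ y' = F z.1 y'') (by fun_prop) ?_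
  rintro ⟨p, n⟩ y
  constructor
  · rintro ⟨s, h, h₀, h₁⟩
    dsimp only at h h₀ h₁ ⊢
    induction n generalizing y with
    | zero => exact h₀ y h
    | succ n ih =>
      obtain ⟨y', h₂, rfl⟩ := h₁ n y h
      rw [Function.iterate_succ_apply', ih y' h₂]
  · rintro rfl
    obtain ⟨s, hs⟩ := exists_finset
      ((Set.finite_le_nat n).image fun k => pr (g.nat k) (ι ((F p)^[k] (a p))))
    have e : ∀ k (y : α), App g.E s (g.nat k) (ι y) ↔ k ≤ n ∧ y = (F p)^[k] (a p) := by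
      intro k y
      rw [app_iff, hs]
      constructor
      · rintro ⟨j, hj, e⟩
        obtain ⟨e₁, e₂⟩ := pr_inj.1 e
        obtain rfl := nat_inj e₁
        exact ⟨hj, (inj e₂).symm⟩
      · rintro ⟨hk, rfl⟩
        exact ⟨k, hk, rfl⟩
    refine ⟨s, (e _ _).2 ⟨le_rfl, rfl⟩, fun y h => ((e _ _).1 h).2, fun k y h => ?_⟩
    obtain ⟨h₁, rfl⟩ := (e _ _).1 h
    exact ⟨_, (e _ _).2 ⟨Nat.le_of_succ_le h₁, rfl⟩, Function.iterate_succ_apply' _ _ _⟩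

@[fun_prop] theorem tm_iter {F : Γ → α → α} {a : Γ → α} {n : Γ → ℕ}
    (hF : g.Tm (fun z : Γ × α => F z.1 z.2)) (hn : g.Tm n) (ha : g.Tm a) :
    g.Tm (fun x => (F x)^[n x] (a x)) :=
  (tm_iter' hF ha).comp (Tm.id.pair hn)

@[fun_prop] theorem tm_add {f h : Γ → ℕ} (hf : g.Tm f) (hh : g.Tm h) :
    g.Tm (fun x => f x + h x) := by
  have : g.Tm (fun x => Nat.succ^[h x] (f x)) := by fun_prop
  simpa only [Nat.succ_iterate] using this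

@[fun_prop] theorem tm_mul {f h : Γ → ℕ} (hf : g.Tm f) (hh : g.Tm h) :
    g.Tm (fun x => f x * h x) := by
  have : g.Tm (fun x => (fun k => k + f x)^[h x] 0) := by fun_prop
  have e : ∀ a n : ℕ, (fun k => k + a)^[n] 0 = a * n := fun a n => by
    induction n with
    | zero => rfl
    | succ n ih => rw [Function.iterate_succ_apply', ih, Nat.mul_succ]
  simpa only [e] using this

@[fun_prop] theorem tm_natPair {f h : Γ → ℕ} (hf : g.Tm f) (hh : g.Tm h) :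
    g.Tm (fun x => Nat.pair (f x) (h x)) := by
  unfold Nat.pair
  fun_prop

@[fun_prop] theorem tm_nat_max {f h : Γ → ℕ} (hf : g.Tm f) (hh : g.Tm h) :
    g.Tm (fun x => max (f x) (h x)) := by
  simp only [max_def]
  fun_prop

/-- Left inverse of the coding. -/
noncomputable def un (α : Type*) [Cd g α] [Nonempty α] (x : g.M) : α := Function.invFun ι x

@[simp] theorem un_ι [Nonempty α] (a : α) : un α (ι a : g.M) = a :=
  Function.leftInverse_invFun inj a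

@[fun_prop] theorem tm_un [Nonempty α] {f : Γ → g.M} (hf : g.Tm f) :
    g.Tm (fun x => un α (f x)) := by
  refine tm_of_rel (Q := fun x a => ι a = f x ∨ (¬ (∃ b : α, ι b = f x) ∧
    a = Classical.choice inferInstance)) (by fun_prop) fun x a => ?_
  by_cases h : ∃ b : α, ι b = f x
  · obtain ⟨b, e⟩ := h
    simp [← e, inj.eq_iff]
  · have h' : ¬ ι a = f x := fun e => h ⟨a, e⟩
    simp only [h', h, false_or, not_false_iff, true_and, un, Function.invFun_neg h]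

open Classical in
/-- The function coded by an element of the model. -/
noncomputable def ev (α : Type*) (β : Type*) [Cd g α] [Cd g β] [Nonempty β] (s : g.M) (a : α) :
    β := if h : ∃ b : β, ∀ b' : β, App g.E s (ι a) (ι b') ↔ b' = b then h.choose
      else Classical.choice inferInstance

theorem ev_eq [Nonempty β] {s : g.M} {a : α} {b : β}
    (h : ∀ b' : β, App g.E s (ι a) (ι b') ↔ b' = b) : ev α β s a = b := by
  have h' : ∃ b : β, ∀ b' : β, App g.E s (ι a) (ι b') ↔ b' = b := ⟨b, h⟩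
  unfold ev
  rw [dif_pos h']
  exact (h _).1 ((h'.choose_spec _).2 rfl)

@[fun_prop] theorem tm_ev [Nonempty β] {s : Γ → g.M} {a : Γ → α} (hs : g.Tm s) (ha : g.Tm a) :
    g.Tm (fun x => ev α β (s x) (a x)) := by
  refine tm_of_rel (Q := fun x b => (∀ b' : β, App g.E (s x) (ι (a x)) (ι b') ↔ b' = b) ∨
    (¬ (∃ b : β, ∀ b' : β, App g.E (s x) (ι (a x)) (ι b') ↔ b' = b) ∧
      b = Classical.choice inferInstance)) (by fun_prop) fun x b => ?_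
  by_cases h : ∃ b : β, ∀ b' : β, App g.E (s x) (ι (a x)) (ι b') ↔ b' = b
  · obtain ⟨c, hc⟩ := h
    have h' : ∃ b : β, ∀ b' : β, App g.E (s x) (ι (a x)) (ι b') ↔ b' = b := ⟨c, hc⟩
    rw [ev_eq hc]
    simp only [h', not_true, false_and, or_false]
    exact ⟨fun h => (hc _).1 ((h _).2 rfl), fun h => h ▸ hc⟩
  · have h' : ¬ ∀ b' : β, App g.E (s x) (ι (a x)) (ι b') ↔ b' = b := fun e => h ⟨b, e⟩
    simp only [h', h, false_or, not_false_iff, true_and, ev, dif_neg]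

theorem exists_ev [Nonempty β] [Bd g α] {f : α → β} (hf : g.Tm f) : ∃ s : g.M, ev α β s = f := by
  obtain ⟨F, -, hF⟩ := exists_graph Df.true hf
  exact ⟨F, funext fun a => ev_eq fun b => by simp [hF, inj.eq_iff]⟩

theorem tm_choice_fun [Nonempty β] [Bd g Γ] [Bd g α] {Q : Γ → (α → β) → Prop}
    (hQ : g.Tm (fun z : Γ × g.M => Q z.1 (ev α β z.2))) (tot : ∀ p, ∃ f, g.Tm f ∧ Q p f) :
    ∃ F : Γ → α → β, g.Tm (fun z : Γ × α => F z.1 z.2) ∧ ∀ p, Q p (F p) := by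
  obtain ⟨s, hs, h⟩ := tm_choice (Q := fun p s => Q p (ev α β s)) hQ fun p => by
    obtain ⟨f, hf, h⟩ := tot p
    obtain ⟨s, rfl⟩ := exists_ev hf
    exact ⟨s, h⟩
  exact ⟨fun p => ev α β (s p), by fun_prop, h⟩

theorem isInj_of_graph {A B F : g.M} {f : g.M → g.M}
    (hF : ∀ p, g.E p F ↔ ∃ x, g.E x A ∧ pr x (f x) = p) (h₁ : ∀ x, g.E x A → g.E (f x) B)
    (h₂ : ∀ x y, g.E x A → g.E y A → f x = f y → x = y) : IsInj g.E F A B := by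
  have e : ∀ s t, App g.E F s t ↔ g.E s A ∧ t = f s := by
    intro s t
    rw [app_iff, hF]
    constructor
    · rintro ⟨x, hx, e⟩
      obtain ⟨rfl, rfl⟩ := pr_inj.1 e
      exact ⟨hx, rfl⟩
    · rintro ⟨h, rfl⟩
      exact ⟨s, h, rfl⟩
  refine ⟨⟨fun p hp => ?_, fun a ha => ⟨f a, (e _ _).2 ⟨ha, rfl⟩, fun b hb => ((e _ _).1 hb).2⟩⟩,
    fun a a' b h h' => h₂ _ _ ((e _ _).1 h).1 ((e _ _).1 h').1
      (((e _ _).1 h).2.symm.trans ((e _ _).1 h').2)⟩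
  obtain ⟨x, hx, rfl⟩ := (hF p).1 hp
  exact ⟨x, f x, hx, h₁ x hx, isPair_pr _ _⟩

theorem exists_isInj {A B : g.M} {f : g.M → g.M} (hf : g.Tm f) (h₁ : ∀ x, g.E x A → g.E (f x) B)
    (h₂ : ∀ x y, g.E x A → g.E y A → f x = f y → x = y) : ∃ F, IsInj g.E F A B := by
  obtain ⟨F, hF⟩ := tm_image (Γ := g.Elt A) (Q := fun _ => True) (f := fun x => pr x.1 (f x.1))
    (by fun_prop) (by fun_prop)
  exact ⟨F, isInj_of_graph (fun p => (hF p).trans ⟨fun ⟨x, _, e⟩ => ⟨x.1, x.2, e⟩,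
    fun ⟨x, hx, e⟩ => ⟨⟨x, hx⟩, trivial, e⟩⟩) h₁ h₂⟩

instance : Nonempty g.M := ⟨g.om⟩

theorem app_ev {F A B x : g.M} (h : IsFun g.E F A B) (hx : g.E x A) :
    App g.E F x (ev g.M g.M F x) := by
  obtain ⟨b, -, hb⟩ := fun_ex h hx
  rw [ev_eq (b := b) fun b' => ⟨fun h' => fun_uniq h h' hb, fun e => e ▸ hb⟩]
  exact hb

theorem ctbl_iff {a : g.M} : (∃ F, IsInj g.E F a g.om) ↔
    ∃ f : g.M → ℕ, g.Tm f ∧ ∀ x y, g.E x a → g.E y a → f x = f y → x = y := by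
  constructor
  · rintro ⟨F, hF⟩
    refine ⟨fun x => un ℕ (ev g.M g.M F x), by fun_prop, fun x y hx hy e => ?_⟩
    have h₁ := app_ev hF.1 hx
    have h₂ := app_ev hF.1 hy
    obtain ⟨n, hn⟩ := E_om.1 (fun_mem hF.1 h₁).2
    obtain ⟨m, hm⟩ := E_om.1 (fun_mem hF.1 h₂).2
    rw [← hn] at h₁
    rw [← hm] at h₂
    dsimp only at e
    rw [← hn, ← hm, ← ι_nat, ← ι_nat, un_ι, un_ι] at e
    exact hF.2 _ _ _ h₁ (e ▸ h₂)
  · rintro ⟨f, hf, h⟩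
    exact exists_isInj (f := fun x => g.nat (f x)) (by fun_prop) (fun x _ => nat_om _)
      fun x y hx hy e => h x y hx hy (nat_inj e)

theorem exists_fin {S : Set g.M} (h : S.Finite) :
    ∃ n s f, g.E n g.om ∧ (∀ V, g.E V s ↔ V ∈ S) ∧ IsInj g.E f s n := by
  classical
  obtain ⟨s, hs⟩ := exists_finset h
  obtain ⟨n, e, he⟩ := h.fin_embedding
  have h₁ : ∀ x ∈ S, ∃ i, e i = x := fun x hx => by rw [← he] at hx; exact hx
  let f : g.M → g.M := fun x => if hx : x ∈ S then g.nat (h₁ x hx).choose else x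
  obtain ⟨F, hF⟩ := exists_finset (h.image fun x => pr x (f x))
  refine ⟨g.nat n, s, F, nat_om n, hs, isInj_of_graph (f := f) (fun p => by simp [hF, hs])
    (fun x hx => ?_) fun x y hx hy e' => ?_⟩
  · rw [hs] at hx
    simp only [f, dif_pos hx]
    exact nat_lt.2 (Fin.is_lt _)
  · rw [hs] at hx hy
    simp only [f, dif_pos hx, dif_pos hy] at e'
    rw [← (h₁ x hx).choose_spec, ← (h₁ y hy).choose_spec, Fin.ext (nat_inj e')]

end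

end Gen

end Pool.Agent.MP_85ce7b_lc

end

section

namespace Pool.Agent.MP_85ce7b_lc

open Pool.Agent.MP_c6cf52_lc

universe u

section General

variable {M : Type u} (E : M → M → Prop)

/-- The relation `f` is single valued. -/
def Fnl (f : M) : Prop := ∀ x y y', App E f x y → App E f x y' → y = y'

/-- There is a bound below `x` above which there is no cardinal below `x`. -/
def Succ (x : M) : Prop := ∃ b, E b x ∧ ∀ z, E b z → E z x → ¬ IsCard E z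

/-- The relation `f` maps `c` cofinally into `k`. -/
def CofMap (f c k : M) : Prop :=
  ∀ x, E x k → ∃ i y, E i c ∧ E y k ∧ App E f i y ∧ Leq E x y

/-- What the collapse `π` of `Y` does at the ordinal `x`. -/
def HullAt (k Y π x y : M) : Prop :=
  App E π x y ∧ IsOrd E y ∧ (∀ z, E z y ↔ ∃ w, E w Y ∧ E w x ∧ App E π w z) ∧ (E x k → y = x) ∧
    (IsCard E x → IsCard E y) ∧
    (E k x → IsCard E x → (IsReg E x ∧ Succ E x ∧ IsReg E y ∧ Succ E y) ∨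
      (¬ IsReg E x ∧ ¬ IsReg E y))

/-- `Y` is a small hull, `π` collapses its ordinals, `m = Y ∩ k` has cofinality `w` (omega). -/
def Hull (k w Y π m : M) : Prop :=
  Lt E Y k ∧ E k Y ∧ E m k ∧ (∀ x, E x m ↔ E x Y ∧ E x k) ∧ App E π k m ∧ Fnl E π ∧
    (∀ a b p, E a Y → E b Y → IsPair E p a b → E p Y) ∧ (∃ f, Fnl E f ∧ CofMap E f w m) ∧
    ∀ x, E x Y → IsOrd E x → ∃ y, HullAt E k Y π x y

end General

namespace Gen

variable {P : Type 2} [Sz P] [Preorder P] [OrderTop P] [Tame P]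

/-- The facts about the generic model that the forcing provides. -/
structure Facts (g : Gen P) (α γ : Ordinal.{1}) (k s : g.M) : Prop where
  k_ord : IsOrd g.E k
  s_k : g.E s k
  om_s : g.E g.om s
  al : ∃ a, g.E a s ∧ Enum g.E (fun x => g.E x a) α
  core : ∀ Θ : g.M → g.M → Prop, g.Tm (fun z : g.M × g.M => Θ z.1 z.2) → ∀ ξ, g.E ξ k →
    ∃ Y π m, Hull g.E k g.om Y π m ∧ Sub g.E ξ Y ∧
      ∀ a, g.E a Y → (∃ y, Θ a y) → ∃ y, g.E y Y ∧ Θ a y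
  top : ∀ δ < α, Lim g.E (RegGe g.E δ) k
  gap : ∀ x, g.E s x → g.E x k → ¬ RegGe g.E α x
  low : Enum g.E (fun x => RegAt g.E α x ∧ Leq g.E x s) γ
  gch : ∀ m, g.E m s → IsCard g.E m → Inf g.E m → ∃ b D, IsOrd g.E b ∧
    (∀ S, Sub g.E S m → ∃ j, g.E j b ∧ ∀ i, g.E i m → (App g.E D j i ↔ g.E i S)) ∧
    ∀ c₁ c₂ c₃, IsCard g.E c₁ → IsCard g.E c₂ → IsCard g.E c₃ → g.E m c₁ → g.E c₁ c₂ →
      g.E c₂ c₃ → ¬ Leq g.E c₃ b
  fail : ∃ n₀ n₁ n₂ n₃ F, (∃ x, g.E x n₀) ∧ (∀ x, g.E x n₀ → ∃ y, g.E y n₀ ∧ g.E x y) ∧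
    g.E n₀ n₁ ∧ g.E n₁ n₂ ∧ g.E n₂ n₃ ∧ IsCard g.E n₁ ∧ IsCard g.E n₂ ∧ IsCard g.E n₃ ∧
    ∀ j j', g.E j n₃ → g.E j' n₃ → j ≠ j' →
      ∃ i, g.E i n₀ ∧ ¬ (App g.E F j i ↔ App g.E F j' i)

end Gen

end Pool.Agent.MP_85ce7b_lc

end

section

namespace Pool.Agent.MP_85ce7b_lc

open Pool.Agent.MP_c6cf52_lc Name

universe v

section Gen

variable {M : Type v} (E : M → M → Prop)

/-- `|X| ≤ |Y|`. -/
def LeC (X Y : M) : Prop := ∃ f, IsInj E f X Y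

/-- `|X| = |Y|`. -/
def EqC (X Y : M) : Prop := ∃ f, Bij E f X Y

/-- `d` is the ordinal of the model of type `δ`. -/
def Rep (d : M) (δ : Ordinal.{1}) : Prop := IsOrd E d ∧ Enum E (fun x => E x d) δ

/-- `Q` is the power set of `x`. -/
def IsPow (Q x : M) : Prop := ∀ z, E z Q ↔ Sub E z x

/-- `c` is the intersection of `a` and `b`. -/
def IsInt (c a b : M) : Prop := ∀ z, E z c ↔ E z a ∧ E z b

/-- `S` is an unbounded subset of the ordinal `k`. -/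
def Unb (S k : M) : Prop := Sub E S k ∧ ∀ x, E x k → ∃ y, E y S ∧ Leq E x y

/-- `l` is the least cardinal above `m`. -/
def IsSucc (m l : M) : Prop := IsCard E l ∧ E m l ∧ ∀ z, E m z → E z l → ¬ IsCard E z

/-- `T` tabulates the classes `Reg_{≥ e}`, `e ≤ d`, up to `x`. -/
def Tab (T d x : M) : Prop :=
  ∀ e y, Leq E e d → Leq E y x →
    (App E T e y ↔ IsReg E y ∧ ∀ e', E e' e → ¬ SuccPt E (fun z => App E T e' z) y)

/-- First-order version of `RegGe`. -/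
def RegGeI (d x : M) : Prop := IsOrd E x ∧ ∃ T, Tab E T d x ∧ App E T d x

/-- First-order version of `RegAt`. -/
def RegAtI (d x : M) : Prop := SuccPt E (fun z => RegGeI E d z) x

/-- First-order version of `Otp`. -/
def OtpI (Z d : M) : Prop :=
  ∃ f Y, IsInj E f d Y ∧ ∀ x y, App E Z x y ↔ ∃ i j, Leq E i j ∧ App E f i x ∧ App E f j y

/-- The truth condition of `Q^α`. -/
def QQ (α : Ordinal.{1}) (X Y Z : M) : Prop :=
  ∃ l, ∃ δ < α, Cof E X l ∧ Cof E Y l ∧ Otp E Z δ ∧ RegAt E δ l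

/-- The truth condition of `R^α`. -/
def RR (α : Ordinal.{1}) (X Z : M) : Prop :=
  ∃ l, ∃ δ < α, EqC E X l ∧ Otp E Z δ ∧ RegAt E δ l

end Gen

namespace UD

theorem sub (i j : ℕ) : UDef.{v} (fun _ E w => Sub E (w i) (w j)) :=
  UDef.all ((UDef.mem _ _).imp (UDef.mem _ _))

theorem leq (i j : ℕ) : UDef.{v} (fun _ E w => Leq E (w i) (w j)) :=
  (UDef.mem _ _).or (UDef.eq _ _)

theorem bij (i j k : ℕ) : UDef.{v} (fun _ E w => Bij E (w i) (w j) (w k)) :=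
  (UDef.isInj _ _ _).and (UDef.all ((UDef.mem _ _).imp (UDef.ex (UDef.app _ _ _))))

theorem leC (i j : ℕ) : UDef.{v} (fun _ E w => LeC E (w i) (w j)) := UDef.ex (UDef.isInj _ _ _)

theorem eqC (i j : ℕ) : UDef.{v} (fun _ E w => EqC E (w i) (w j)) := UDef.ex (bij _ _ _)

theorem lt (i j : ℕ) : UDef.{v} (fun _ E w => Lt E (w i) (w j)) :=
  UDef.ex (UDef.ex ((UDef.mem _ _).and (UDef.isInj _ _ _)))

theorem isOrd (i : ℕ) : UDef.{v} (fun _ E w => IsOrd E (w i)) := by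
  unfold IsOrd
  repeat' first
    | exact UDef.mem _ _ | exact UDef.eq _ _
    | apply UDef.and | apply UDef.or | apply UDef.imp | apply UDef.all

theorem isCard (i : ℕ) : UDef.{v} (fun _ E w => IsCard E (w i)) := by
  unfold IsCard
  repeat' first
    | exact UDef.mem _ _ | exact UDef.eq _ _ | exact isOrd _ | exact UDef.isInj _ _ _
    | apply UDef.and | apply UDef.not | apply UDef.imp | apply UDef.all | apply UDef.ex

theorem hasOtp (i j : ℕ) : UDef.{v} (fun _ E w => HasOtp E (w i) (w j)) := by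
  unfold HasOtp
  repeat' first
    | exact UDef.mem _ _ | exact UDef.eq _ _ | exact UDef.isFun _ _ _ | exact UDef.app _ _ _
    | apply UDef.and | apply UDef.imp | apply UDef.all | apply UDef.ex

theorem inf (i : ℕ) : UDef.{v} (fun _ E w => Inf E (w i)) := by
  unfold Inf
  repeat' first
    | exact UDef.mem _ _ | exact leq _ _
    | apply UDef.and | apply UDef.imp | apply UDef.all | apply UDef.ex

theorem isReg (i : ℕ) : UDef.{v} (fun _ E w => IsReg E (w i)) := by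
  unfold IsReg
  repeat' first
    | exact UDef.mem _ _ | exact leq _ _ | exact sub _ _ | exact isCard _ | exact inf _
    | exact UDef.isInj _ _ _
    | apply UDef.and | apply UDef.imp | apply UDef.all | apply UDef.ex

theorem isPow (i j : ℕ) : UDef.{v} (fun _ E w => IsPow E (w i) (w j)) :=
  UDef.all ((UDef.mem _ _).iff (sub _ _))

theorem isInt (i j k : ℕ) : UDef.{v} (fun _ E w => IsInt E (w i) (w j) (w k)) :=
  UDef.all ((UDef.mem _ _).iff ((UDef.mem _ _).and (UDef.mem _ _)))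

theorem unb (i j : ℕ) : UDef.{v} (fun _ E w => Unb E (w i) (w j)) :=
  (sub _ _).and (UDef.all ((UDef.mem _ _).imp (UDef.ex ((UDef.mem _ _).and (leq _ _)))))

theorem isSucc (i j : ℕ) : UDef.{v} (fun _ E w => IsSucc E (w i) (w j)) := by
  unfold IsSucc
  repeat' first
    | exact UDef.mem _ _ | exact isCard _
    | apply UDef.and | apply UDef.not | apply UDef.imp | apply UDef.all

theorem tab (i j k : ℕ) : UDef.{v} (fun _ E w => Tab E (w i) (w j) (w k)) := by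
  unfold Tab SuccPt Cl Lim
  repeat' first
    | exact UDef.mem _ _ | exact leq _ _ | exact isReg _ | exact isOrd _ | exact UDef.app _ _ _
    | apply UDef.and | apply UDef.or | apply UDef.iff | apply UDef.not | apply UDef.imp
    | apply UDef.all | apply UDef.ex

theorem regGeI (i j : ℕ) : UDef.{v} (fun _ E w => RegGeI E (w i) (w j)) :=
  (isOrd _).and (UDef.ex ((tab _ _ _).and (UDef.app _ _ _)))

theorem limReg (i j : ℕ) : UDef.{v} (fun _ E w => Lim E (fun z => RegGeI E (w i) z) (w j)) := by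
  unfold Lim
  repeat' first
    | exact UDef.mem _ _ | exact regGeI _ _
    | apply UDef.and | apply UDef.imp | apply UDef.all | apply UDef.ex

theorem clReg (i j : ℕ) : UDef.{v} (fun _ E w => Cl E (fun z => RegGeI E (w i) z) (w j)) :=
  (regGeI _ _).or ((isOrd _).and (limReg _ _))

theorem regAtI (i j : ℕ) : UDef.{v} (fun _ E w => RegAtI E (w i) (w j)) := by
  unfold RegAtI SuccPt
  repeat' first
    | exact UDef.mem _ _ | exact clReg _ _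
    | apply UDef.and | apply UDef.not | apply UDef.imp | apply UDef.all | apply UDef.ex

theorem otpI (i j : ℕ) : UDef.{v} (fun _ E w => OtpI E (w i) (w j)) := by
  unfold OtpI
  repeat' first
    | exact leq _ _ | exact UDef.isInj _ _ _ | exact UDef.app _ _ _
    | apply UDef.and | apply UDef.iff | apply UDef.all | apply UDef.ex

theorem lin (i : ℕ) : UDef.{v} (fun _ E w => Lin E (w i)) := by
  unfold Lin
  repeat' first
    | exact UDef.eq _ _ | exact UDef.app _ _ _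
    | apply UDef.and | apply UDef.or | apply UDef.imp | apply UDef.all

theorem cofinal (i j : ℕ) : UDef.{v} (fun _ E w => Cofinal E (w i) (w j)) := by
  unfold Cofinal
  repeat' first
    | exact UDef.mem _ _ | exact UDef.app _ _ _
    | apply UDef.and | apply UDef.imp | apply UDef.all | apply UDef.ex

theorem cof (i j : ℕ) : UDef.{v} (fun _ E w => Cof E (w i) (w j)) := by
  unfold Cof
  repeat' first
    | exact lin _ | exact isCard _ | exact cofinal _ _ | exact bij _ _ _ | exact UDef.isInj _ _ _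
    | apply UDef.and | apply UDef.imp | apply UDef.all | apply UDef.ex

end UD

variable {P : Type 2} [Sz P] [Preorder P] [OrderTop P] [Tame P]

namespace Gen

variable {g : Gen P} {Γ : Type*} [Cd g Γ] {f h k : Γ → g.M}

theorem tm_ud1 {S : ∀ (M : Type 3), (M → M → Prop) → M → Prop}
    (H : UDef (fun M E w => S M E (w 0))) (hf : g.Tm f) : g.Tm (fun x => S g.M g.E (f x)) :=
  (Df.udef₃ (S := fun M E a _ _ => S M E a) H hf hf hf).tm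

theorem tm_ud2 {S : ∀ (M : Type 3), (M → M → Prop) → M → M → Prop}
    (H : UDef (fun M E w => S M E (w 0) (w 1))) (hf : g.Tm f) (hh : g.Tm h) :
    g.Tm (fun x => S g.M g.E (f x) (h x)) :=
  (Df.udef₃ (S := fun M E a b _ => S M E a b) H hf hh hf).tm

theorem tm_ud3 {S : ∀ (M : Type 3), (M → M → Prop) → M → M → M → Prop}
    (H : UDef (fun M E w => S M E (w 0) (w 1) (w 2))) (hf : g.Tm f) (hh : g.Tm h) (hk : g.Tm k) :
    g.Tm (fun x => S g.M g.E (f x) (h x) (k x)) := (Df.udef₃ H hf hh hk).tm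

@[fun_prop] theorem tm_sub (hf : g.Tm f) (hh : g.Tm h) : g.Tm (fun x => Sub g.E (f x) (h x)) :=
  tm_ud2 (S := fun _ E => Sub E) (UD.sub 0 1) hf hh

@[fun_prop] theorem tm_leq (hf : g.Tm f) (hh : g.Tm h) : g.Tm (fun x => Leq g.E (f x) (h x)) :=
  tm_ud2 (S := fun _ E => Leq E) (UD.leq 0 1) hf hh

@[fun_prop] theorem tm_bij (hf : g.Tm f) (hh : g.Tm h) (hk : g.Tm k) :
    g.Tm (fun x => Bij g.E (f x) (h x) (k x)) :=
  tm_ud3 (S := fun _ E => Bij E) (UD.bij 0 1 2) hf hh hk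

@[fun_prop] theorem tm_isFun (hf : g.Tm f) (hh : g.Tm h) (hk : g.Tm k) :
    g.Tm (fun x => IsFun g.E (f x) (h x) (k x)) :=
  tm_ud3 (S := fun _ E => IsFun E) (UDef.isFun 0 1 2) hf hh hk

@[fun_prop] theorem tm_isPair (hf : g.Tm f) (hh : g.Tm h) (hk : g.Tm k) :
    g.Tm (fun x => IsPair g.E (f x) (h x) (k x)) :=
  tm_ud3 (S := fun _ E => IsPair E) (UDef.isPair 0 1 2) hf hh hk

@[fun_prop] theorem tm_leC (hf : g.Tm f) (hh : g.Tm h) : g.Tm (fun x => LeC g.E (f x) (h x)) :=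
  tm_ud2 (S := fun _ E => LeC E) (UD.leC 0 1) hf hh

@[fun_prop] theorem tm_eqC (hf : g.Tm f) (hh : g.Tm h) : g.Tm (fun x => EqC g.E (f x) (h x)) :=
  tm_ud2 (S := fun _ E => EqC E) (UD.eqC 0 1) hf hh

@[fun_prop] theorem tm_lt (hf : g.Tm f) (hh : g.Tm h) : g.Tm (fun x => Lt g.E (f x) (h x)) :=
  tm_ud2 (S := fun _ E => Lt E) (UD.lt 0 1) hf hh

@[fun_prop] theorem tm_isOrd (hf : g.Tm f) : g.Tm (fun x => IsOrd g.E (f x)) :=
  tm_ud1 (S := fun _ E => IsOrd E) (UD.isOrd 0) hf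

@[fun_prop] theorem tm_isCard (hf : g.Tm f) : g.Tm (fun x => IsCard g.E (f x)) :=
  tm_ud1 (S := fun _ E => IsCard E) (UD.isCard 0) hf

@[fun_prop] theorem tm_hasOtp (hf : g.Tm f) (hh : g.Tm h) :
    g.Tm (fun x => HasOtp g.E (f x) (h x)) :=
  tm_ud2 (S := fun _ E => HasOtp E) (UD.hasOtp 0 1) hf hh

@[fun_prop] theorem tm_inf (hf : g.Tm f) : g.Tm (fun x => Inf g.E (f x)) :=
  tm_ud1 (S := fun _ E => Inf E) (UD.inf 0) hf

@[fun_prop] theorem tm_isReg (hf : g.Tm f) : g.Tm (fun x => IsReg g.E (f x)) :=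
  tm_ud1 (S := fun _ E => IsReg E) (UD.isReg 0) hf

@[fun_prop] theorem tm_isPow (hf : g.Tm f) (hh : g.Tm h) :
    g.Tm (fun x => IsPow g.E (f x) (h x)) :=
  tm_ud2 (S := fun _ E => IsPow E) (UD.isPow 0 1) hf hh

@[fun_prop] theorem tm_isInt (hf : g.Tm f) (hh : g.Tm h) (hk : g.Tm k) :
    g.Tm (fun x => IsInt g.E (f x) (h x) (k x)) :=
  tm_ud3 (S := fun _ E => IsInt E) (UD.isInt 0 1 2) hf hh hk

@[fun_prop] theorem tm_unb (hf : g.Tm f) (hh : g.Tm h) : g.Tm (fun x => Unb g.E (f x) (h x)) :=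
  tm_ud2 (S := fun _ E => Unb E) (UD.unb 0 1) hf hh

@[fun_prop] theorem tm_isSucc (hf : g.Tm f) (hh : g.Tm h) :
    g.Tm (fun x => IsSucc g.E (f x) (h x)) :=
  tm_ud2 (S := fun _ E => IsSucc E) (UD.isSucc 0 1) hf hh

@[fun_prop] theorem tm_regGeI (hf : g.Tm f) (hh : g.Tm h) :
    g.Tm (fun x => RegGeI g.E (f x) (h x)) :=
  tm_ud2 (S := fun _ E => RegGeI E) (UD.regGeI 0 1) hf hh

@[fun_prop] theorem tm_clReg (hf : g.Tm f) (hh : g.Tm h) :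
    g.Tm (fun x => Cl g.E (fun z => RegGeI g.E (f x) z) (h x)) :=
  tm_ud2 (S := fun _ E a b => Cl E (fun z => RegGeI E a z) b) (UD.clReg 0 1) hf hh

@[fun_prop] theorem tm_regAtI (hf : g.Tm f) (hh : g.Tm h) :
    g.Tm (fun x => RegAtI g.E (f x) (h x)) :=
  tm_ud2 (S := fun _ E => RegAtI E) (UD.regAtI 0 1) hf hh

@[fun_prop] theorem tm_otpI (hf : g.Tm f) (hh : g.Tm h) : g.Tm (fun x => OtpI g.E (f x) (h x)) :=
  tm_ud2 (S := fun _ E => OtpI E) (UD.otpI 0 1) hf hh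

@[fun_prop] theorem tm_lin (hf : g.Tm f) : g.Tm (fun x => Lin g.E (f x)) :=
  tm_ud1 (S := fun _ E => Lin E) (UD.lin 0) hf

@[fun_prop] theorem tm_cofinal (hf : g.Tm f) (hh : g.Tm h) :
    g.Tm (fun x => Cofinal g.E (f x) (h x)) :=
  tm_ud2 (S := fun _ E => Cofinal E) (UD.cofinal 0 1) hf hh

@[fun_prop] theorem tm_cof (hf : g.Tm f) (hh : g.Tm h) : g.Tm (fun x => Cof g.E (f x) (h x)) :=
  tm_ud2 (S := fun _ E => Cof E) (UD.cof 0 1) hf hh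

end Gen

end Pool.Agent.MP_85ce7b_lc

end

section

namespace Pool.Agent.MP_85ce7b_lc

open Pool.Agent.MP_c6cf52_lc Name

variable {P : Type 2} [Sz P] [Preorder P] [OrderTop P] [Tame P]

namespace Gen

variable {g : Gen P}

/-! ### Ordinals -/

theorem E_trans {A x y z : g.M} (h : IsOrd g.E A) (hz : g.E z A) (hxy : g.E x y)
    (hyz : g.E y z) : g.E x z := by
  rcases h.2 x z (h.1 _ _ (h.1 _ _ hz hyz) hxy) hz with e | rfl | e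
  · exact e
  · exact (E_wf.asymmetric _ _ hxy hyz).elim
  · exact (E_wf.asymmetric₃ _ _ _ hxy hyz e).elim

theorem isOrd_of_E {A a : g.M} (h : IsOrd g.E A) (ha : g.E a A) : IsOrd g.E a :=
  ⟨fun _ _ hx hy => E_trans h ha hy hx, fun _ _ hx hy => h.2 _ _ (h.1 _ _ ha hx) (h.1 _ _ ha hy)⟩

theorem isOrdinal_of {a : g.M} (h : IsOrd g.E a) : a.1.IsOrdinal := by
  constructor
  · intro y hy z hz
    obtain ⟨y, rfl⟩ := trans hy
    obtain ⟨z, rfl⟩ := trans hz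
    exact h.1 _ _ hy hz
  · intro y z w h₁ h₂ h₃
    obtain ⟨w, rfl⟩ := trans h₃
    obtain ⟨z, rfl⟩ := trans h₂
    obtain ⟨y, rfl⟩ := trans h₁
    exact E_trans h h₃ h₁ h₂

theorem ord_tri {a b : g.M} (ha : IsOrd g.E a) (hb : IsOrd g.E b) :
    g.E a b ∨ a = b ∨ g.E b a := by
  rcases (isOrdinal_of ha).mem_trichotomous (isOrdinal_of hb) with h | h | h
  exacts [Or.inl h, Or.inr (Or.inl (Subtype.ext h)), Or.inr (Or.inr h)]

theorem E_asymm {a b : g.M} (h : g.E a b) : ¬ g.E b a := E_wf.asymmetric _ _ h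

/-- `a < b < c` with `c` an ordinal. -/
theorem lt_lt {a b c : g.M} (hc : IsOrd g.E c) (h₁ : g.E a b) (h₂ : g.E b c) : g.E a c :=
  hc.1 _ _ h₂ h₁

theorem leq_refl (a : g.M) : Leq g.E a a := Or.inr rfl

theorem leq_lt {a b c : g.M} (hc : IsOrd g.E c) (h₁ : Leq g.E a b) (h₂ : g.E b c) : g.E a c :=
  h₁.elim (fun h => lt_lt hc h h₂) fun h => h ▸ h₂

theorem lt_leq {a b c : g.M} (hc : IsOrd g.E c) (h₁ : g.E a b) (h₂ : Leq g.E b c) : g.E a c :=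
  h₂.elim (fun h => lt_lt hc h₁ h) fun h => h ▸ h₁

theorem leq_trans {a b c : g.M} (hc : IsOrd g.E c) (h₁ : Leq g.E a b) (h₂ : Leq g.E b c) :
    Leq g.E a c := h₂.elim (fun h => Or.inl (leq_lt hc h₁ h)) fun h => h ▸ h₁

theorem not_lt_of_leq {a b : g.M} (h : Leq g.E a b) : ¬ g.E b a :=
  h.elim E_asymm fun e => e ▸ E_irrefl _

theorem leq_antisymm {a b : g.M} (h₁ : Leq g.E a b) (h₂ : Leq g.E b a) : a = b :=
  h₁.resolve_left (not_lt_of_leq h₂)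

theorem leq_of_not_lt {a b : g.M} (ha : IsOrd g.E a) (hb : IsOrd g.E b) (h : ¬ g.E b a) :
    Leq g.E a b := (ord_tri ha hb).imp_right fun h' => h'.resolve_right h

theorem lt_of_not_leq {a b : g.M} (ha : IsOrd g.E a) (hb : IsOrd g.E b) (h : ¬ Leq g.E b a) :
    g.E a b := by
  by_contra h'
  exact h (leq_of_not_lt hb ha h')

theorem isOrd_of_leq {a b : g.M} (hb : IsOrd g.E b) (h : Leq g.E a b) : IsOrd g.E a :=
  h.elim (isOrd_of_E hb) fun e => e ▸ hb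

theorem sub_of_leq {a b : g.M} (hb : IsOrd g.E b) (h : Leq g.E a b) : Sub g.E a b :=
  fun _ hx => lt_leq hb hx h

theorem leq_of_sub {a b : g.M} (ha : IsOrd g.E a) (hb : IsOrd g.E b) (h : Sub g.E a b) :
    Leq g.E a b := leq_of_not_lt ha hb fun h' => E_irrefl _ (h b h')

/-- A transitive set of ordinals is an ordinal. -/
theorem isOrd_of_trans {a : g.M} (h₁ : ∀ x, g.E x a → IsOrd g.E x)
    (h₂ : ∀ x y, g.E x a → g.E y x → g.E y a) : IsOrd g.E a :=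
  ⟨h₂, fun x y hx hy => ord_tri (h₁ x hx) (h₁ y hy)⟩

/-- Least element principle (for arbitrary external properties). -/
theorem exists_min {Q : g.M → Prop} (h : ∃ x, Q x) : ∃ x, Q x ∧ ∀ y, g.E y x → ¬ Q y := by
  obtain ⟨x, hx, hmin⟩ := E_wf.has_min {x | Q x} h
  exact ⟨x, hx, fun y hy h' => hmin y h' hy⟩

theorem exists_sc (a : g.M) : ∃ b, ∀ z, g.E z b ↔ Leq g.E z a := by
  obtain ⟨s, hs⟩ := exists_upair a a
  obtain ⟨p, hp⟩ := exists_upair a s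
  obtain ⟨u, hu⟩ := exists_union p
  refine ⟨u, fun z => (hu z).trans ⟨?_, ?_⟩⟩
  · rintro ⟨y, h₁, h₂⟩
    rcases (hp y).1 h₂ with rfl | rfl
    · exact Or.inl h₁
    · exact Or.inr (((hs z).1 h₁).elim id id)
  · rintro (h | rfl)
    · exact ⟨a, h, (hp _).2 (Or.inl rfl)⟩
    · exact ⟨s, (hs _).2 (Or.inl rfl), (hp _).2 (Or.inr rfl)⟩

/-- The successor `a ∪ {a}`. -/
noncomputable def sc (a : g.M) : g.M := (exists_sc a).choose

theorem E_sc {a z : g.M} : g.E z (sc a) ↔ Leq g.E z a := (exists_sc a).choose_spec z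

theorem lt_sc (a : g.M) : g.E a (sc a) := E_sc.2 (leq_refl a)

@[fun_prop] theorem tm_sc {Γ : Type*} [Cd g Γ] {f : Γ → g.M} (hf : g.Tm f) :
    g.Tm (fun x => sc (f x)) :=
  tm_of_rel (Q := fun x y => ∀ z, g.E z y ↔ Leq g.E z (f x)) (by fun_prop) fun _ _ =>
    ⟨fun h => ext fun z => (h z).trans E_sc.symm, fun h _ => h ▸ E_sc⟩

theorem isOrd_sc {a : g.M} (h : IsOrd g.E a) : IsOrd g.E (sc a) :=
  isOrd_of_trans (fun _ hx => isOrd_of_leq h (E_sc.1 hx))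
    fun _ _ hx hy => E_sc.2 (Or.inl (lt_leq h hy (E_sc.1 hx)))

theorem sc_leq {a b : g.M} (hb : IsOrd g.E b) (h : g.E a b) : Leq g.E (sc a) b :=
  leq_of_sub (isOrd_sc (isOrd_of_E hb h)) hb fun _ hx => leq_lt hb (E_sc.1 hx) h

theorem sc_nat (n : ℕ) : sc (g.nat n) = g.nat (n + 1) := ext fun z => by
  rw [E_sc, Leq, E_nat, E_nat]
  constructor
  · rintro (⟨m, hm, rfl⟩ | rfl)
    exacts [⟨m, by omega, rfl⟩, ⟨n, by omega, rfl⟩]
  · rintro ⟨m, hm, rfl⟩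
    rcases Nat.lt_succ_iff_lt_or_eq.1 hm with h | rfl
    exacts [Or.inl ⟨m, h, rfl⟩, Or.inr rfl]

/-- The supremum of a set of ordinals. -/
theorem exists_sup {S : g.M} (h : ∀ x, g.E x S → IsOrd g.E x) :
    ∃ u, IsOrd g.E u ∧ ∀ z, g.E z u ↔ ∃ y, g.E z y ∧ g.E y S := by
  obtain ⟨u, hu⟩ := exists_union S
  refine ⟨u, isOrd_of_trans (fun x hx => ?_) fun x y hx hy => ?_, hu⟩
  · obtain ⟨y, h₁, h₂⟩ := (hu x).1 hx
    exact isOrd_of_E (h y h₂) h₁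
  · obtain ⟨z, h₁, h₂⟩ := (hu x).1 hx
    exact (hu y).2 ⟨z, lt_lt (h z h₂) hy h₁, h₂⟩

theorem isOrd_om : IsOrd g.E g.om :=
  isOrd_setN natWf natTri g.omega_mem fun _ _ _ _ => trivial

theorem isOrd_nat (n : ℕ) : IsOrd g.E (g.nat n) := isOrd_of_E isOrd_om (nat_om n)

theorem not_E_zero (x : g.M) : ¬ g.E x (g.nat 0) := fun h => by
  obtain ⟨m, hm, -⟩ := E_nat.1 h
  omega

theorem eq_zero {a : g.M} (h : ∀ x, ¬ g.E x a) : a = g.nat 0 :=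
  ext fun x => iff_of_false (h x) (not_E_zero x)

theorem emp_eq : g.v emp = g.nat 0 := eq_zero not_E_emp

theorem zero_leq {a : g.M} (h : IsOrd g.E a) : Leq g.E (g.nat 0) a :=
  leq_of_sub (isOrd_nat 0) h fun x hx => absurd hx (not_E_zero x)

/-- A nonempty ordinal without a largest element is at least `ω`. -/
theorem om_leq {l : g.M} (hl : IsOrd g.E l) (h₁ : ∃ x, g.E x l)
    (h₂ : ∀ x, g.E x l → ∃ y, g.E y l ∧ g.E x y) : Leq g.E g.om l := by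
  refine leq_of_sub isOrd_om hl fun x hx => ?_
  obtain ⟨n, rfl⟩ := E_om.1 hx
  clear hx
  induction n with
  | zero =>
    obtain ⟨x, hx⟩ := h₁
    exact leq_lt hl (zero_leq (isOrd_of_E hl hx)) hx
  | succ n ih =>
    obtain ⟨y, h₃, h₄⟩ := h₂ _ ih
    rw [← sc_nat]
    exact leq_lt hl (sc_leq (isOrd_of_E hl h₃) h₄) h₃

theorem inf_iff {k : g.M} (hk : IsOrd g.E k) : Inf g.E k ↔ Leq g.E g.om k := by
  constructor
  · rintro ⟨l, h₀, h₁, h₂⟩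
    exact leq_trans hk (om_leq (isOrd_of_leq hk h₀) h₁ h₂) h₀
  · refine fun h => ⟨g.om, h, ⟨_, nat_om 0⟩, fun x hx => ?_⟩
    obtain ⟨n, rfl⟩ := E_om.1 hx
    exact ⟨_, nat_om (n + 1), nat_lt.2 (Nat.lt_succ_self n)⟩

theorem inf_om : Inf g.E g.om := (inf_iff isOrd_om).2 (leq_refl _)

/-! ### Sets, relations and functions -/

theorem exists_int (a b : g.M) : ∃ c, IsInt g.E c a b :=
  tm_sep (Q := fun z => g.E z b) (by fun_prop) a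

theorem exists_pow (a : g.M) : ∃ Q, IsPow g.E Q a := exists_power a

theorem exists_prod (A B : g.M) : ∃ C, ∀ p, g.E p C ↔ ∃ a b, g.E a A ∧ g.E b B ∧ p = pr a b := by
  obtain ⟨C, hC⟩ := exists_pr_bound A B
  obtain ⟨R, hR⟩ := tm_sep (Q := fun p => ∃ a b, g.E a A ∧ g.E b B ∧ p = pr a b) (by fun_prop) C
  exact ⟨R, fun p => (hR p).trans ⟨fun h => h.2, fun ⟨a, b, ha, hb, e⟩ =>
    ⟨e ▸ hC a b ha hb, a, b, ha, hb, e⟩⟩⟩

/-- A definable relation between two sets is a set of pairs. -/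
theorem exists_rel (A B : g.M) {Q : g.M → g.M → Prop}
    (hQ : g.Tm (fun z : g.M × g.M => Q z.1 z.2)) :
    ∃ R, (∀ p, g.E p R ↔ ∃ a b, g.E a A ∧ g.E b B ∧ p = pr a b ∧ Q a b) ∧
      ∀ a b, App g.E R a b ↔ g.E a A ∧ g.E b B ∧ Q a b := by
  obtain ⟨C, hC⟩ := exists_pr_bound A B
  obtain ⟨R, hR⟩ := tm_sep (Q := fun p => ∃ a b, g.E a A ∧ g.E b B ∧ p = pr a b ∧ Q a b)
    (by fun_prop) C
  have h : ∀ p, g.E p R ↔ ∃ a b, g.E a A ∧ g.E b B ∧ p = pr a b ∧ Q a b := fun p =>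
    (hR p).trans ⟨fun h => h.2, fun ⟨a, b, ha, hb, e, h⟩ => ⟨e ▸ hC a b ha hb, a, b, ha, hb, e, h⟩⟩
  refine ⟨R, h, fun a b => ?_⟩
  rw [app_iff, h]
  constructor
  · rintro ⟨a', b', ha, hb, e, h⟩
    obtain ⟨rfl, rfl⟩ := pr_inj.1 e
    exact ⟨ha, hb, h⟩
  · exact fun h => ⟨a, b, h.1, h.2.1, rfl, h.2.2⟩

/-- A definable total relation is uniformized by a function of the model. -/
theorem exists_fun {A B : g.M} {Q : g.M → g.M → Prop}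
    (hQ : g.Tm (fun z : g.M × g.M => Q z.1 z.2)) (tot : ∀ x, g.E x A → ∃ y, g.E y B ∧ Q x y) :
    ∃ F, IsFun g.E F A B ∧ ∀ s t, App g.E F s t → Q s t := by
  obtain ⟨f, hf, h⟩ := tm_choice (Γ := g.Elt A) (Q := fun x y => g.E y B ∧ Q x.1 y)
    (tm_and (by fun_prop) (hQ.comp₂ (F := Q) (tm_val tm_id.fst) tm_id.snd)) fun x => tot x.1 x.2
  obtain ⟨F, h₁, h₂⟩ := exists_graph (Γ := g.Elt A) Df.true hf
  refine ⟨F, ⟨fun p hp => ?_, fun a ha => ⟨f ⟨a, ha⟩, (h₂ _ _).2 ⟨⟨a, ha⟩, trivial, rfl, rfl⟩,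
    fun b hb => ?_⟩⟩, fun s t hst => ?_⟩
  · obtain ⟨x, -, rfl⟩ := h₁ p hp
    exact ⟨x.1, f x, x.2, (h x).1, isPair_pr _ _⟩
  · obtain ⟨x, -, e, rfl⟩ := (h₂ _ _).1 hb
    obtain rfl : x = ⟨a, ha⟩ := Subtype.ext e.symm
    rfl
  · obtain ⟨x, -, rfl, rfl⟩ := (h₂ _ _).1 hst
    exact (h x).2

/-- The same without a bound for the values. -/
theorem exists_fun' {A : g.M} {Q : g.M → g.M → Prop}
    (hQ : g.Tm (fun z : g.M × g.M => Q z.1 z.2)) (tot : ∀ x, g.E x A → ∃ y, Q x y) :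
    ∃ F B, IsFun g.E F A B ∧ ∀ s t, App g.E F s t → Q s t := by
  obtain ⟨f, hf, h⟩ := tm_choice (Γ := g.Elt A) (Q := fun x y => Q x.1 y)
    (hQ.comp₂ (F := Q) (tm_val tm_id.fst) tm_id.snd) fun x => tot x.1 x.2
  obtain ⟨B, hB⟩ := tm_image (Γ := g.Elt A) (Q := fun _ => True) (f := f) (by fun_prop) hf
  obtain ⟨F, hF⟩ := exists_fun (A := A) (B := B) hQ fun x hx =>
    ⟨f ⟨x, hx⟩, (hB _).2 ⟨_, trivial, rfl⟩, h ⟨x, hx⟩⟩
  exact ⟨F, B, hF⟩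

theorem leC_of_rel {D a : g.M} {Q : g.M → g.M → Prop}
    (hQ : g.Tm (fun z : g.M × g.M => Q z.1 z.2)) (tot : ∀ W, g.E W D → ∃ ξ, g.E ξ a ∧ Q W ξ)
    (uniq : ∀ W W' ξ, g.E W D → g.E W' D → Q W ξ → Q W' ξ → W = W') : LeC g.E D a := by
  obtain ⟨F, h₁, h₂⟩ := exists_fun hQ tot
  exact ⟨F, h₁, fun x y b hx hy =>
    uniq x y b (fun_mem h₁ hx).1 (fun_mem h₁ hy).1 (h₂ _ _ hx) (h₂ _ _ hy)⟩

/-- A definable one-to-one correspondence gives a bijection of the model. -/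
theorem eqC_of_rel {D a : g.M} {Q : g.M → g.M → Prop}
    (hQ : g.Tm (fun z : g.M × g.M => Q z.1 z.2)) (tot : ∀ W, g.E W D → ∃ ξ, g.E ξ a ∧ Q W ξ)
    (tot' : ∀ ξ, g.E ξ a → ∃ W, g.E W D ∧ Q W ξ)
    (uniq : ∀ W W' ξ, g.E W D → g.E W' D → Q W ξ → Q W' ξ → W = W')
    (uniq' : ∀ W ξ ξ', g.E ξ a → g.E ξ' a → Q W ξ → Q W ξ' → ξ = ξ') : EqC g.E D a := by
  obtain ⟨F, h₁, h₂⟩ := exists_fun hQ tot
  refine ⟨F, ⟨h₁, fun x y b hx hy =>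
    uniq x y b (fun_mem h₁ hx).1 (fun_mem h₁ hy).1 (h₂ _ _ hx) (h₂ _ _ hy)⟩, fun y hy => ?_⟩
  obtain ⟨W, h₃, h₄⟩ := tot' y hy
  obtain ⟨b, h₅, h₆⟩ := fun_ex h₁ h₃
  exact ⟨W, uniq' W b y h₅ hy (h₂ _ _ h₆) h₄ ▸ h₆⟩

theorem leC_of_sub {A B : g.M} (h : Sub g.E A B) : LeC g.E A B :=
  leC_of_rel (Q := fun a b => a = b) (by fun_prop) (fun a ha => ⟨a, h a ha, rfl⟩)
    fun _ _ _ _ _ h₁ h₂ => h₁.trans h₂.symm

theorem leC_refl (A : g.M) : LeC g.E A A := leC_of_sub fun _ h => h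

theorem leC_trans {A B C : g.M} (h₁ : LeC g.E A B) (h₂ : LeC g.E B C) : LeC g.E A C := by
  obtain ⟨F, hF⟩ := h₁
  obtain ⟨G, hG⟩ := h₂
  exact leC_of_rel (Q := fun a c => ∃ b, App g.E F a b ∧ App g.E G b c) (by fun_prop)
    (fun a ha => by
      obtain ⟨b, hb, h₁⟩ := fun_ex hF.1 ha
      obtain ⟨c, hc, h₂⟩ := fun_ex hG.1 hb
      exact ⟨c, hc, b, h₁, h₂⟩)
    fun a a' c _ _ ⟨b, h₁, h₂⟩ ⟨b', h₃, h₄⟩ => hF.2 _ _ _ h₁ (hG.2 _ _ _ h₂ h₄ ▸ h₃)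

/-- If a definable relation maps `B` onto `A`, then `|A| ≤ |B|`. -/
theorem leC_of_onto {A B : g.M} {Q : g.M → g.M → Prop}
    (hQ : g.Tm (fun z : g.M × g.M => Q z.1 z.2)) (tot : ∀ a, g.E a A → ∃ b, g.E b B ∧ Q b a)
    (uniq : ∀ b a a', Q b a → Q b a' → a = a') : LeC g.E A B :=
  leC_of_rel (Q := fun a b => Q b a) (hQ.comp₂ (F := Q) tm_id.snd tm_id.fst) tot
    fun a a' b _ _ h h' => uniq b a a' h h'

theorem EqC.le {A B : g.M} (h : EqC g.E A B) : LeC g.E A B := h.imp fun _ h => h.1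

theorem eqC_refl (A : g.M) : EqC g.E A A :=
  eqC_of_rel (Q := fun a b => a = b) (by fun_prop) (fun a ha => ⟨a, ha, rfl⟩)
    (fun a ha => ⟨a, ha, rfl⟩) (fun _ _ _ _ _ h₁ h₂ => h₁.trans h₂.symm)
    fun _ _ _ _ _ h₁ h₂ => h₁.symm.trans h₂

theorem eqC_symm {A B : g.M} (h : EqC g.E A B) : EqC g.E B A := by
  obtain ⟨F, hF, hs⟩ := h
  exact eqC_of_rel (Q := fun b a => App g.E F a b) (by fun_prop)
    (fun b hb => (hs b hb).imp fun a ha => ⟨(fun_mem hF.1 ha).1, ha⟩)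
    (fun a ha => fun_ex hF.1 ha) (fun _ _ _ _ _ h₁ h₂ => fun_uniq hF.1 h₁ h₂)
    fun _ _ _ _ _ h₁ h₂ => hF.2 _ _ _ h₁ h₂

theorem EqC.ge {A B : g.M} (h : EqC g.E A B) : LeC g.E B A := EqC.le (eqC_symm h)

theorem eqC_trans {A B C : g.M} (h₁ : EqC g.E A B) (h₂ : EqC g.E B C) : EqC g.E A C := by
  obtain ⟨F, hF, hF'⟩ := h₁
  obtain ⟨G, hG, hG'⟩ := h₂
  exact eqC_of_rel (Q := fun a c => ∃ b, App g.E F a b ∧ App g.E G b c) (by fun_prop)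
    (fun a ha => by
      obtain ⟨b, hb, h₁⟩ := fun_ex hF.1 ha
      obtain ⟨c, hc, h₂⟩ := fun_ex hG.1 hb
      exact ⟨c, hc, b, h₁, h₂⟩)
    (fun c hc => by
      obtain ⟨b, hb⟩ := hG' c hc
      obtain ⟨a, ha⟩ := hF' b (fun_mem hG.1 hb).1
      exact ⟨a, (fun_mem hF.1 ha).1, b, ha, hb⟩)
    (fun a a' c _ _ ⟨b, h₁, h₂⟩ ⟨b', h₃, h₄⟩ => hF.2 _ _ _ h₁ (hG.2 _ _ _ h₂ h₄ ▸ h₃))
    fun a c c' _ _ ⟨b, h₁, h₂⟩ ⟨b', h₃, h₄⟩ => fun_uniq hG.1 h₂ (fun_uniq hF.1 h₃ h₁ ▸ h₄)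

theorem lt_iff {X k : g.M} : Lt g.E X k ↔ ∃ m, g.E m k ∧ LeC g.E X m :=
  ⟨fun ⟨m, f, h₁, h₂⟩ => ⟨m, h₁, f, h₂⟩, fun ⟨m, h₁, f, h₂⟩ => ⟨m, f, h₁, h₂⟩⟩

theorem lt_of_leC {X Y k : g.M} (h₁ : LeC g.E X Y) (h₂ : Lt g.E Y k) : Lt g.E X k :=
  let ⟨m, h₃, h₄⟩ := lt_iff.1 h₂
  lt_iff.2 ⟨m, h₃, leC_trans h₁ h₄⟩

/-- A cardinal that injects into an ordinal is below it. -/
theorem card_leq {l b : g.M} (hl : IsCard g.E l) (hb : IsOrd g.E b) (h : LeC g.E l b) :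
    Leq g.E l b := leq_of_not_lt hl.1 hb fun h' => hl.2 b h' h

theorem card_eq {l m : g.M} (hl : IsCard g.E l) (hm : IsCard g.E m) (h₁ : LeC g.E l m)
    (h₂ : LeC g.E m l) : l = m := leq_antisymm (card_leq hl hm.1 h₁) (card_leq hm hl.1 h₂)

/-- An infinite cardinal is closed under successor. -/
theorem sc_lt_card {l a : g.M} (hl : IsCard g.E l) (hi : Inf g.E l) (ha : g.E a l) :
    g.E (sc a) l := by
  classical
  refine (sc_leq hl.1 ha).resolve_right fun e => hl.2 a ha ?_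
  have ho := (inf_iff hl.1).1 hi
  have hoa : Leq g.E g.om a := by
    refine leq_of_not_lt isOrd_om (isOrd_of_E hl.1 ha) fun h => ?_
    obtain ⟨n, rfl⟩ := E_om.1 h
    rw [sc_nat] at e
    exact not_lt_of_leq ho (e ▸ nat_om _)
  have ha' := isOrd_of_E hl.1 ha
  subst e
  refine leC_of_rel (Q := fun x y => (x = a ∧ y = g.nat 0) ∨
    (x ≠ a ∧ g.E x g.om ∧ y = sc x) ∨ (x ≠ a ∧ ¬ g.E x g.om ∧ y = x)) (by fun_prop)
    (fun x hx => ?_) fun x x' y _ _ h h' => ?_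
  · by_cases h₁ : x = a
    · exact ⟨_, lt_leq ha' (nat_om 0) hoa, Or.inl ⟨h₁, rfl⟩⟩
    · by_cases h₂ : g.E x g.om
      · obtain ⟨n, rfl⟩ := E_om.1 h₂
        exact ⟨_, lt_leq ha' (nat_om (n + 1)) hoa, Or.inr (Or.inl ⟨h₁, h₂, (sc_nat n).symm⟩)⟩
      · exact ⟨x, (E_sc.1 hx).resolve_right h₁, Or.inr (Or.inr ⟨h₁, h₂, rfl⟩)⟩
  · have k : ∀ z, g.E z g.om → ∃ n, z = g.nat n ∧ sc z = g.nat (n + 1) := fun z hz => by
      obtain ⟨n, rfl⟩ := E_om.1 hz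
      exact ⟨n, rfl, sc_nat n⟩
    rcases h with ⟨rfl, rfl⟩ | ⟨-, h₁, rfl⟩ | ⟨-, h₁, rfl⟩ <;>
      rcases h' with ⟨rfl, h₂⟩ | ⟨-, h₂, h₃⟩ | ⟨-, h₂, h₃⟩
    · rfl
    · obtain ⟨n, -, e⟩ := k _ h₂
      exact absurd (nat_inj (h₃.trans e)) (by omega)
    · exact absurd (h₃ ▸ nat_om 0) h₂
    · obtain ⟨n, -, e⟩ := k _ h₁
      exact absurd (nat_inj (h₂.symm.trans e)) (by omega)
    · obtain ⟨n, rfl, e⟩ := k _ h₁
      obtain ⟨m, rfl, e'⟩ := k _ h₂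
      obtain rfl : n = m := by have := nat_inj (e.symm.trans (h₃.trans e')); omega
      rfl
    · obtain ⟨n, rfl, e⟩ := k _ h₁
      exact absurd (h₃ ▸ e ▸ nat_om _) h₂
    · exact absurd (h₂ ▸ nat_om 0) h₁
    · obtain ⟨n, rfl, e⟩ := k _ h₂
      exact absurd (h₃ ▸ e ▸ nat_om _) h₁
    · exact h₃

end Gen

end Pool.Agent.MP_85ce7b_lc

end

section

namespace Pool.Agent.MP_85ce7b_lc

open Pool.Agent.MP_c6cf52_lc Name

variable {P : Type 2} [Sz P] [Preorder P] [OrderTop P] [Tame P]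

namespace Gen

variable {g : Gen P}

/-- The increasing enumeration `f` of `c` with domain `t`. -/
structure En (g : Gen P) (f c t : g.M) : Prop where
  ord : IsOrd g.E t
  fn : IsFun g.E f t c
  onto : ∀ b, g.E b c → ∃ a, App g.E f a b
  mono : ∀ a a' b b', App g.E f a b → App g.E f a' b' → g.E a a' → g.E b b'

theorem En.otp {f c t : g.M} (h : En g f c t) : HasOtp g.E c t := ⟨f, h.fn, h.onto, h.mono⟩

theorem en_of_otp {c t : g.M} (ht : IsOrd g.E t) (h : HasOtp g.E c t) : ∃ f, En g f c t :=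
  let ⟨f, h₁, h₂, h₃⟩ := h
  ⟨f, ht, h₁, h₂, h₃⟩

theorem En.lt_iff {f c t a a' b b' : g.M} (h : En g f c t) (h₁ : App g.E f a b)
    (h₂ : App g.E f a' b') : g.E b b' ↔ g.E a a' := by
  refine ⟨fun hb => ?_, h.mono _ _ _ _ h₁ h₂⟩
  rcases h.ord.2 a a' (fun_mem h.fn h₁).1 (fun_mem h.fn h₂).1 with e | rfl | e
  · exact e
  · exact absurd (fun_uniq h.fn h₁ h₂ ▸ hb) (E_irrefl _)
  · exact absurd (h.mono _ _ _ _ h₂ h₁ e) (E_asymm hb)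

theorem En.inj {f c t a a' b : g.M} (h : En g f c t) (h₁ : App g.E f a b)
    (h₂ : App g.E f a' b) : a = a' := by
  rcases h.ord.2 a a' (fun_mem h.fn h₁).1 (fun_mem h.fn h₂).1 with e | e | e
  · exact absurd (h.mono _ _ _ _ h₁ h₂ e) (E_irrefl _)
  · exact e
  · exact absurd (h.mono _ _ _ _ h₂ h₁ e) (E_irrefl _)

theorem En.bij {f c t : g.M} (h : En g f c t) : Bij g.E f t c :=
  ⟨⟨h.fn, fun _ _ _ => h.inj⟩, h.onto⟩

theorem En.init {f c t i y c' : g.M} (h : En g f c t) (hi : App g.E f i y)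
    (hc : IsInt g.E c' c y) : HasOtp g.E c' i := by
  have hit := (fun_mem h.fn hi).1
  obtain ⟨F, h₁, h₂⟩ := exists_fun (A := i) (B := c') (Q := fun a b => App g.E f a b)
    (by fun_prop) fun a ha => by
      obtain ⟨b, h₁, h₂⟩ := fun_ex h.fn (lt_lt h.ord ha hit)
      exact ⟨b, (hc b).2 ⟨h₁, h.mono _ _ _ _ h₂ hi ha⟩, h₂⟩
  refine ⟨F, h₁, fun b hb => ?_, fun a a' b b' k₁ k₂ => h.mono _ _ _ _ (h₂ _ _ k₁) (h₂ _ _ k₂)⟩
  obtain ⟨a, ha⟩ := h.onto b ((hc b).1 hb).1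
  obtain ⟨b', -, k⟩ := fun_ex h₁ ((h.lt_iff ha hi).1 ((hc b).1 hb).2)
  exact ⟨a, fun_uniq h.fn (h₂ _ _ k) ha ▸ k⟩

theorem En.uniq {f f' c t t' : g.M} (h : En g f c t) (h' : En g f' c t') : t = t' := by
  have key : ∀ i j y, App g.E f i y → App g.E f' j y → i = j := by
    intro i
    induction i using E_wf.induction with
    | _ i ih =>
      intro j y h₁ h₂
      refine ext fun z => ⟨fun hz => ?_, fun hz => ?_⟩
      · obtain ⟨y', k₁, k₂⟩ := fun_ex h.fn (lt_lt h.ord hz (fun_mem h.fn h₁).1)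
        obtain ⟨j', k₃⟩ := h'.onto y' k₁
        rw [ih z hz j' y' k₂ k₃]
        exact (h'.lt_iff k₃ h₂).1 (h.mono _ _ _ _ k₂ h₁ hz)
      · obtain ⟨y', k₁, k₂⟩ := fun_ex h'.fn (lt_lt h'.ord hz (fun_mem h'.fn h₂).1)
        obtain ⟨i', k₃⟩ := h.onto y' k₁
        have k₄ := (h.lt_iff k₃ h₁).1 (h'.mono _ _ _ _ k₂ h₂ hz)
        exact ih i' k₄ z y' k₃ k₂ ▸ k₄
  refine ext fun z => ⟨fun hz => ?_, fun hz => ?_⟩
  · obtain ⟨y, k₁, k₂⟩ := fun_ex h.fn hz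
    obtain ⟨j, k₃⟩ := h'.onto y k₁
    exact key _ _ _ k₂ k₃ ▸ (fun_mem h'.fn k₃).1
  · obtain ⟨y, k₁, k₂⟩ := fun_ex h'.fn hz
    obtain ⟨j, k₃⟩ := h.onto y k₁
    exact key _ _ _ k₃ k₂ ▸ (fun_mem h.fn k₃).1

theorem otp_uniq {c t t' : g.M} (ht : IsOrd g.E t) (ht' : IsOrd g.E t') (h : HasOtp g.E c t)
    (h' : HasOtp g.E c t') : t = t' :=
  let ⟨_, h⟩ := en_of_otp ht h
  let ⟨_, h'⟩ := en_of_otp ht' h'
  h.uniq h'

theorem otp_step {c : g.M} (hc : ∀ x, g.E x c → IsOrd g.E x)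
    (H : ∀ y, g.E y c → ∃ i, IsOrd g.E i ∧ ∃ c', IsInt g.E c' c y ∧ HasOtp g.E c' i) :
    ∃ f t, En g f c t := by
  obtain ⟨h, B, h₁, h₂⟩ := exists_fun' (A := c)
    (Q := fun y i => IsOrd g.E i ∧ ∃ c', IsInt g.E c' c y ∧ HasOtp g.E c' i) (by fun_prop) H
  obtain ⟨t, ht⟩ := tm_sep (Q := fun i => ∃ y, App g.E h y i) (by fun_prop) B
  have ht' : ∀ i, g.E i t ↔ ∃ y, App g.E h y i := fun i =>
    (ht i).trans ⟨fun k => k.2, fun ⟨y, k⟩ => ⟨(fun_mem h₁ k).2, y, k⟩⟩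
  have key : ∀ y i z, App g.E h y i → (g.E z i ↔ ∃ y', g.E y' y ∧ App g.E h y' z) := by
    intro y i z k
    obtain ⟨k₁, c', k₂, k₃⟩ := h₂ _ _ k
    obtain ⟨f, hf⟩ := en_of_otp k₁ k₃
    have aux : ∀ z y' j, App g.E f z y' → App g.E h y' j → z = j := by
      intro z y' j e₁ e₂
      obtain ⟨e₃, c'', e₄, e₅⟩ := h₂ _ _ e₂
      have e₆ := (k₂ _).1 (fun_mem hf.fn e₁).2
      exact otp_uniq (isOrd_of_E k₁ (fun_mem hf.fn e₁).1) e₃ (hf.init e₁ fun u => (e₄ u).trans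
        ⟨fun e => ⟨(k₂ u).2 ⟨e.1, lt_lt (hc _ (fun_mem h₁ k).1) e.2 e₆.2⟩, e.2⟩,
          fun e => ⟨((k₂ u).1 e.1).1, e.2⟩⟩) e₅
    constructor
    · intro hz
      obtain ⟨y', e₁, e₂⟩ := fun_ex hf.fn hz
      obtain ⟨j, -, e₃⟩ := fun_ex h₁ ((k₂ _).1 e₁).1
      exact ⟨y', ((k₂ _).1 e₁).2, aux _ _ _ e₂ e₃ ▸ e₃⟩
    · rintro ⟨y', e₁, e₂⟩
      obtain ⟨a, ha⟩ := hf.onto y' ((k₂ _).2 ⟨(fun_mem h₁ e₂).1, e₁⟩)
      exact aux _ _ _ ha e₂ ▸ (fun_mem hf.fn ha).1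
  have mono : ∀ y y' i i', App g.E h y i → App g.E h y' i' → g.E i i' → g.E y y' := by
    intro y y' i i' k k' hi
    rcases ord_tri (hc _ (fun_mem h₁ k).1) (hc _ (fun_mem h₁ k').1) with e | rfl | e
    · exact e
    · exact absurd (fun_uniq h₁ k k' ▸ hi) (E_irrefl _)
    · exact absurd ((key _ _ _ k).2 ⟨_, e, k'⟩) (E_asymm hi)
  obtain ⟨f, f₁, f₂⟩ := exists_fun (A := t) (B := c) (Q := fun i y => App g.E h y i)
    (by fun_prop) fun i hi => ((ht' i).1 hi).imp fun y k => ⟨(fun_mem h₁ k).1, k⟩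
  refine ⟨f, t, isOrd_of_trans (fun i hi => ?_) fun i z hi hz => ?_, f₁, fun y hy => ?_,
    fun i i' y y' k k' => mono _ _ _ _ (f₂ _ _ k) (f₂ _ _ k')⟩
  · obtain ⟨y, k⟩ := (ht' i).1 hi
    exact (h₂ _ _ k).1
  · obtain ⟨y, k⟩ := (ht' i).1 hi
    obtain ⟨y', -, k'⟩ := (key _ _ _ k).1 hz
    exact (ht' z).2 ⟨y', k'⟩
  · obtain ⟨i, -, k⟩ := fun_ex h₁ hy
    obtain ⟨y', k₁, k₂⟩ := fun_ex f₁ ((ht' i).2 ⟨y, k⟩)
    have k₃ := f₂ _ _ k₂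
    rcases ord_tri (hc _ hy) (hc _ k₁) with e | rfl | e
    · exact absurd ((key _ _ _ k₃).2 ⟨_, e, k⟩) (E_irrefl _)
    · exact ⟨i, k₂⟩
    · exact absurd ((key _ _ _ k).2 ⟨_, e, k₃⟩) (E_irrefl _)

/-- Every set of ordinals has an increasing enumeration. -/
theorem exists_en {c : g.M} (hc : ∀ x, g.E x c → IsOrd g.E x) : ∃ f t, En g f c t := by
  refine otp_step hc fun y => ?_
  induction y using E_wf.induction with
  | _ y ih =>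
    intro hy
    obtain ⟨c', hc'⟩ := exists_int c y
    obtain ⟨f, t, h⟩ := otp_step (c := c') (fun x hx => hc x ((hc' x).1 hx).1) fun z hz => by
      obtain ⟨i, h₁, d, h₂, h₃⟩ := ih z ((hc' z).1 hz).2 ((hc' z).1 hz).1
      exact ⟨i, h₁, d, fun u => (h₂ u).trans
        ⟨fun e => ⟨(hc' u).2 ⟨e.1, lt_lt (hc y hy) e.2 ((hc' z).1 hz).2⟩, e.2⟩,
          fun e => ⟨((hc' u).1 e.1).1, e.2⟩⟩, h₃⟩
    exact ⟨t, h.ord, c', hc', h.otp⟩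

theorem En.le_val {f c t : g.M} (h : En g f c t) (hc : ∀ x, g.E x c → IsOrd g.E x) :
    ∀ i y, App g.E f i y → Leq g.E i y := by
  intro i
  induction i using E_wf.induction with
  | _ i ih =>
    intro y k
    have hi := (fun_mem h.fn k).1
    have hy := hc _ (fun_mem h.fn k).2
    refine leq_of_sub (isOrd_of_E h.ord hi) hy fun z hz => ?_
    obtain ⟨y', -, k'⟩ := fun_ex h.fn (lt_lt h.ord hz hi)
    exact leq_lt hy (ih z hz y' k') (h.mono _ _ _ _ k' k hz)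

theorem En.leq {f c t b : g.M} (h : En g f c t) (hb : IsOrd g.E b) (hc : Sub g.E c b) :
    Leq g.E t b := leq_of_sub h.ord hb fun i hi =>
  let ⟨y, k₁, k₂⟩ := fun_ex h.fn hi
  leq_lt hb (h.le_val (fun x hx => isOrd_of_E hb (hc x hx)) i y k₂) (hc y k₁)

theorem En.eqC {f c t : g.M} (h : En g f c t) : EqC g.E t c := ⟨f, h.bij⟩

/-- A set that injects into an ordinal `b` is equinumerous with an ordinal `t ≤ b`. -/
theorem eqC_ord_of_leC {X b : g.M} (hb : IsOrd g.E b) (h : LeC g.E X b) :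
    ∃ t, Leq g.E t b ∧ EqC g.E X t := by
  obtain ⟨F, hF⟩ := h
  obtain ⟨c, hc⟩ := tm_sep (Q := fun y => ∃ x, App g.E F x y) (by fun_prop) b
  obtain ⟨f, t, h⟩ := exists_en (c := c) fun x hx => isOrd_of_E hb ((hc x).1 hx).1
  refine ⟨t, h.leq hb fun x hx => ((hc x).1 hx).1, eqC_trans ?_ (eqC_symm h.eqC)⟩
  exact eqC_of_rel (Q := fun x y => App g.E F x y) (by fun_prop)
    (fun x hx => let ⟨y, k₁, k₂⟩ := fun_ex hF.1 hx; ⟨y, (hc y).2 ⟨k₁, x, k₂⟩, k₂⟩)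
    (fun y hy => let ⟨x, k⟩ := ((hc y).1 hy).2; ⟨x, (fun_mem hF.1 k).1, k⟩)
    (fun _ _ _ _ _ k k' => hF.2 _ _ _ k k') fun _ _ _ _ _ k k' => fun_uniq hF.1 k k'

theorem exists_ord_inj (c : g.M) : ∃ δ, IsOrd g.E δ ∧ LeC g.E c δ := by
  obtain ⟨τ, hτ, rfl⟩ := exists_v c
  let mN : Name P := setN (woWf τ.I) Set.univ
  let eN : Name P := relN τ.A (fun j => ordN (woWf τ.I) j) fun _ => ⊤
  refine dens (Ψ := fun M E w => ∃ δ, IsOrd E δ ∧ LeC E (w 0) δ)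
    (UDef.ex ((UD.isOrd _).and (UD.leC _ _)))
    (l1 hτ) fun p _ => ⟨p, le_rfl, {mN, eN}, (Set.toFinite _).countable, fun g' _ hC hl => ?_⟩
  have b₁ : mN ∈ g'.N := hC (by simp)
  have b₂ : eN ∈ g'.N := hC (by simp)
  have b₃ : τ ∈ g'.N := hl _ (by simp)
  have hF := leC_of_rel (D := g'.v τ) (a := g'.v mN)
    (Q := fun W ξ => App g'.E (g'.v eN) W ξ) (by fun_prop) (fun W hW => by
      obtain ⟨i, -, hi, rfl⟩ := (E_v b₃).1 hW
      exact dens (Ψ := fun M E w => ∃ ξ, E ξ (w 0) ∧ App E (w 1) (w 2) ξ)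
        (UDef.ex ((UDef.mem _ _).and (UDef.app _ _ _))) (l3 b₁ b₂ hi) fun q _ =>
        ⟨q, le_rfl, {ordN (woWf τ.I) i}, Set.countable_singleton _, fun g₂ _ hC₂ hl₂ =>
          ⟨_, (E_setN _ (hl₂ mN (by simp))).2 ⟨i, trivial, hC₂ rfl, rfl⟩,
            (app_relN (hl₂ eN (by simp))).2
              ⟨i, g₂.top, hl₂ (τ.A i) (by simp), hC₂ rfl, rfl, rfl⟩⟩⟩)
    fun W W' ξ _ _ h h' => by
      obtain ⟨w, -, -, a₁, rfl, rfl⟩ := (app_relN b₂).1 h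
      obtain ⟨w', -, -, a₂, rfl, e'⟩ := (app_relN b₂).1 h'
      rw [ord_inj _ (woTri _) a₁ a₂ e']
  exact ⟨_, isOrd_setN _ (woTri _) b₁ fun _ _ _ _ => trivial, hF⟩

/-- Every set has a cardinality. -/
theorem exists_card (X : g.M) : ∃ l, IsCard g.E l ∧ EqC g.E X l := by
  obtain ⟨δ, h₁, h₂⟩ := exists_ord_inj X
  obtain ⟨t, h₃, h₄⟩ := eqC_ord_of_leC h₁ h₂
  obtain ⟨l, ⟨h₅, h₆⟩, hmin⟩ := exists_min (Q := fun l => IsOrd g.E l ∧ EqC g.E X l)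
    ⟨t, isOrd_of_leq h₁ h₃, h₄⟩
  refine ⟨l, ⟨h₅, fun a ha h => ?_⟩, h₆⟩
  have ha' := isOrd_of_E h₅ ha
  obtain ⟨t', h₇, h₈⟩ := eqC_ord_of_leC ha' (leC_trans (EqC.le h₆) h)
  exact hmin t' (leq_lt h₅ h₇ ha) ⟨isOrd_of_leq ha' h₇, h₈⟩

theorem eqC_of_leC {X Y : g.M} (h₁ : LeC g.E X Y) (h₂ : LeC g.E Y X) : EqC g.E X Y := by
  obtain ⟨l, k₁, k₂⟩ := exists_card X
  obtain ⟨m, k₃, k₄⟩ := exists_card Y
  obtain rfl := card_eq k₁ k₃ (leC_trans (EqC.ge k₂) (leC_trans h₁ (EqC.le k₄)))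
    (leC_trans (EqC.ge k₄) (leC_trans h₂ (EqC.le k₂)))
  exact eqC_trans k₂ (eqC_symm k₄)

/-- An ordinal that is not equinumerous with a smaller one is a cardinal. -/
theorem isCard_of_not_eqC {l : g.M} (hl : IsOrd g.E l) (h : ∀ b, g.E b l → ¬ EqC g.E b l) :
    IsCard g.E l :=
  ⟨hl, fun b hb h' => h b hb (eqC_of_leC (leC_of_sub (sub_of_leq hl (Or.inl hb))) h')⟩

/-- Either `k` injects into `X` or `X` is smaller than `k`. -/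
theorem leC_or_lt {k : g.M} (hk : IsOrd g.E k) (X : g.M) : LeC g.E k X ∨ Lt g.E X k := by
  obtain ⟨l, h₁, h₂⟩ := exists_card X
  by_cases h : g.E l k
  · exact Or.inr (lt_iff.2 ⟨l, h, EqC.le h₂⟩)
  · exact Or.inl (leC_trans (leC_of_sub (sub_of_leq h₁.1 (leq_of_not_lt hk h₁.1 h))) (EqC.ge h₂))

theorem not_lt_of_leC {k X : g.M} (hk : IsCard g.E k) (h : LeC g.E k X) : ¬ Lt g.E X k :=
  fun h' => let ⟨m, h₁, h₂⟩ := lt_iff.1 h'; hk.2 m h₁ (leC_trans h h₂)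

end Gen

end Pool.Agent.MP_85ce7b_lc

end

section

namespace Pool.Agent.MP_85ce7b_lc

open Pool.Agent.MP_c6cf52_lc

theorem regGe_def {M : Type*} (E : M → M → Prop) (δ : Ordinal.{1}) (x : M) :
    RegGe E δ x ↔ IsReg E x ∧ ∀ β < δ, ¬ RegAt E β x := by
  unfold RegAt RegGe
  rw [WellFounded.fix_eq]

theorem RegGe.mono {M : Type*} {E : M → M → Prop} {β δ : Ordinal.{1}} {x : M} (h : RegGe E δ x)
    (hβ : β ≤ δ) : RegGe E β x :=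
  (regGe_def _ _ _).2 ⟨((regGe_def _ _ _).1 h).1,
    fun η hη => ((regGe_def _ _ _).1 h).2 η (hη.trans_le hβ)⟩

theorem RegGe.reg {M : Type*} {E : M → M → Prop} {δ : Ordinal.{1}} {x : M} (h : RegGe E δ x) :
    IsReg E x := ((regGe_def _ _ _).1 h).1

namespace Gen

variable {P : Type 2} [Sz P] [Preorder P] [OrderTop P] [Tame P] {g : Gen P}

theorem ord_mem {a b : g.M} (ha : IsOrd g.E a) (hb : g.E b a) : IsOrd g.E b := isOrd_of_E ha hb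

theorem not_leC_nat (n : ℕ) : ¬ LeC g.E (g.nat (n + 1)) (g.nat n) := by
  rintro ⟨f, hf⟩
  have h : ∀ i : Fin (n + 1), ∃ j : Fin n, App g.E f (g.nat i) (g.nat j) := fun i => by
    obtain ⟨b, h₁, h₂⟩ := fun_ex hf.1 (nat_lt.2 i.2)
    obtain ⟨m, hm, rfl⟩ := E_nat.1 h₁
    exact ⟨⟨m, hm⟩, h₂⟩
  choose F hF using h
  have := Fintype.card_le_of_injective F fun i i' e =>
    Fin.ext (nat_inj (hf.2 _ _ _ (hF i) (e ▸ hF i')))
  simp at this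

theorem isCard_nat (n : ℕ) : IsCard g.E (g.nat n) :=
  ⟨isOrd_nat n, fun a ha h => by
    obtain ⟨m, hm, rfl⟩ := E_nat.1 ha
    exact not_leC_nat m (leC_trans (leC_of_sub fun x hx => by
      obtain ⟨j, hj, rfl⟩ := E_nat.1 hx
      exact nat_lt.2 (by omega)) h)⟩

theorem isCard_om : IsCard g.E g.om :=
  ⟨isOrd_om, fun a ha h => by
    obtain ⟨m, rfl⟩ := E_om.1 ha
    exact not_leC_nat m (leC_trans (leC_of_sub (sub_of_leq isOrd_om (Or.inl (nat_om _)))) h)⟩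

theorem isReg_om : IsReg g.E g.om := by
  refine ⟨isCard_om, inf_om, fun S h₁ h₂ => (leC_or_lt isOrd_om S).resolve_right fun h => ?_⟩
  obtain ⟨m, hm, f, hf⟩ := lt_iff.1 h
  obtain ⟨m, rfl⟩ := E_om.1 hm
  have k : ∀ j : ℕ, ∃ n : ℕ, ∀ x, App g.E f x (g.nat j) → g.E x (g.nat n) := fun j => by
    by_cases e : ∃ x, App g.E f x (g.nat j)
    · obtain ⟨x, hx⟩ := e
      obtain ⟨n, rfl⟩ := E_om.1 (h₁ x (fun_mem hf.1 hx).1)
      exact ⟨n + 1, fun y hy => hf.2 _ _ _ hx hy ▸ nat_lt.2 (Nat.lt_succ_self n)⟩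
    · exact ⟨0, fun x hx => absurd ⟨x, hx⟩ e⟩
  choose N hN using k
  obtain ⟨y, hy, k₁⟩ := h₂ _ (nat_om ((Finset.range m).sup N))
  obtain ⟨b, k₂, k₃⟩ := fun_ex hf.1 hy
  obtain ⟨j, hj, rfl⟩ := E_nat.1 k₂
  obtain ⟨i, hi, rfl⟩ := E_nat.1 (hN j y k₃)
  exact not_lt_of_leq k₁ (nat_lt.2 (hi.trans_le (Finset.le_sup (Finset.mem_range.2 hj))))

theorem leC_of_fnl {Y c f : g.M} (hf : Fnl g.E f)
    (h : ∀ y, g.E y Y → ∃ i, g.E i c ∧ App g.E f i y) : LeC g.E Y c :=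
  leC_of_onto (Q := fun i y => App g.E f i y) (by fun_prop) h hf

theorem lt_of_rel {Y k c f : g.M} (hk : IsOrd g.E k) (hc : g.E c k) (hf : Fnl g.E f)
    (h : ∀ y, g.E y Y → ∃ i, g.E i c ∧ App g.E f i y) : Lt g.E Y k :=
  have _ := hk
  lt_iff.2 ⟨c, hc, leC_of_fnl hf h⟩

theorem not_card_of_rel {k c f : g.M} (hc : g.E c k) (hf : Fnl g.E f)
    (h : ∀ y, g.E y k → ∃ i, g.E i c ∧ App g.E f i y) : ¬ IsCard g.E k :=
  fun hk => hk.2 c hc (leC_of_fnl hf h)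

theorem card_of_lim {k : g.M} (hk : IsOrd g.E k)
    (h : ∀ x, g.E x k → ∃ z, IsCard g.E z ∧ g.E x z ∧ Leq g.E z k) : IsCard g.E k :=
  ⟨hk, fun a ha h' =>
    let ⟨_, h₁, h₂, h₃⟩ := h a ha
    h₁.2 a h₂ (leC_trans (leC_of_sub (sub_of_leq hk h₃)) h')⟩

/-- An ordinal with a small unbounded subset is not regular. -/
theorem not_reg_of_unb {k S b : g.M} (h : Unb g.E S k) (hb : g.E b k) (hS : LeC g.E S b) :
    ¬ IsReg g.E k := fun hk => hk.1.2 b hb (leC_trans (hk.2.2 S h.1 h.2) hS)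

theorem not_reg_of_cof {k c f : g.M} (hc : g.E c k) (hf : Fnl g.E f) (h : CofMap g.E f c k) :
    ¬ IsReg g.E k := by
  obtain ⟨S, hS⟩ := tm_sep (Q := fun y => ∃ i, g.E i c ∧ App g.E f i y) (by fun_prop) k
  exact not_reg_of_unb ⟨fun y hy => ((hS y).1 hy).1, fun x hx =>
    let ⟨i, y, h₁, h₂, h₃, h₄⟩ := h x hx
    ⟨y, (hS y).2 ⟨h₂, i, h₁, h₃⟩, h₄⟩⟩ hc (leC_of_fnl hf fun y hy => ((hS y).1 hy).2)

/-- A singular ordinal has a small unbounded subset. -/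
theorem unb_of_not_reg {k : g.M} (hk : IsOrd g.E k) (hi : Inf g.E k) (h : ¬ IsReg g.E k) :
    ∃ S c, g.E c k ∧ Unb g.E S k ∧ LeC g.E S c := by
  by_cases hc : IsCard g.E k
  · by_contra H
    refine h ⟨hc, hi, fun S h₁ h₂ => (leC_or_lt hk S).resolve_right fun h₃ => ?_⟩
    obtain ⟨c, h₄, h₅⟩ := lt_iff.1 h₃
    exact H ⟨S, c, h₄, ⟨h₁, h₂⟩, h₅⟩
  · by_contra H
    exact hc ⟨hk, fun c h₁ h₂ => H ⟨k, c, h₁, ⟨fun _ h => h, fun x hx => ⟨x, hx, leq_refl x⟩⟩, h₂⟩⟩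

theorem cof_of_not_reg {k : g.M} (hk : IsOrd g.E k) (hi : Inf g.E k) (h : ¬ IsReg g.E k) :
    ∃ c f, g.E c k ∧ Fnl g.E f ∧ CofMap g.E f c k := by
  obtain ⟨S, c, h₁, h₂, F, hF⟩ := unb_of_not_reg hk hi h
  obtain ⟨f, -, hf⟩ := exists_rel c S (Q := fun i y => App g.E F y i) (by fun_prop)
  refine ⟨c, f, h₁, fun x y y' e e' => hF.2 _ _ _ ((hf _ _).1 e).2.2 ((hf _ _).1 e').2.2,
    fun x hx => ?_⟩
  obtain ⟨y, k₁, k₂⟩ := h₂.2 x hx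
  obtain ⟨i, k₃, k₄⟩ := fun_ex hF.1 k₁
  exact ⟨i, y, k₃, h₂.1 y k₁, (hf _ _).2 ⟨k₃, k₁, k₄⟩, k₂⟩

theorem IsReg.om_leq {x : g.M} (h : IsReg g.E x) : Leq g.E g.om x := (inf_iff h.1.1).1 h.2.1

theorem regGe_om (δ : Ordinal.{1}) : RegGe g.E δ g.om := by
  refine (regGe_def _ _ _).2 ⟨isReg_om, fun β _ ⟨_, y, h₁, h₂, _⟩ => ?_⟩
  have key : ∀ y, g.E y g.om → ¬ RegGe g.E β y := fun y hy h =>
    not_lt_of_leq (IsReg.om_leq h.reg) hy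
  rcases h₂ with h₂ | ⟨-, ⟨z, hz⟩, h₂⟩
  · exact key y h₁ h₂
  · obtain ⟨u, h₃, -, h₄⟩ := h₂ z hz
    exact key u (lt_lt isOrd_om h₃ h₁) h₄

theorem cl_ord {δ : Ordinal.{1}} {x : g.M} (h : Cl g.E (RegGe g.E δ) x) : IsOrd g.E x :=
  h.elim (fun h => h.reg.1.1) fun h => h.1

theorem regAt_iff {δ : Ordinal.{1}} {x : g.M} :
    RegAt g.E δ x ↔ RegGe g.E δ x ∧ x ≠ g.om ∧ ¬ Lim g.E (RegGe g.E δ) x := by
  constructor
  · rintro ⟨h₁, y, h₂, h₃, h₄⟩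
    have nl : ¬ Lim g.E (RegGe g.E δ) x := fun h =>
      let ⟨z, k₁, k₂, k₃⟩ := h.2 y h₂
      h₄ z k₂ k₁ (Or.inl k₃)
    refine ⟨h₁.resolve_right fun h => nl h.2, ?_, nl⟩
    rintro rfl
    exact ((regGe_def _ _ _).1 (regGe_om (Order.succ δ))).2 δ (Order.lt_succ δ) ⟨h₁, y, h₂, h₃, h₄⟩
  · rintro ⟨h₁, h₂, h₃⟩
    have hx := h₁.reg.1.1
    have ho : g.E g.om x := (IsReg.om_leq h₁.reg).resolve_right (Ne.symm h₂)
    obtain ⟨b, hb, k⟩ : ∃ b, g.E b x ∧ ∀ z, g.E z x → g.E b z → ¬ RegGe g.E δ z := by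
      by_contra H
      push Not at H
      exact h₃ ⟨⟨_, ho⟩, H⟩
    obtain ⟨y, ⟨y₁, y₂⟩, ymin⟩ := exists_min
      (Q := fun y => g.E y x ∧ ∀ z, g.E z x → g.E y z → ¬ RegGe g.E δ z) ⟨b, hb, k⟩
    have hy := isOrd_of_E hx y₁
    refine ⟨Or.inl h₁, y, y₁, ?_, ?_⟩
    · by_cases e : RegGe g.E δ y
      · exact Or.inl e
      · have oy : g.E g.om y := by
          rcases ord_tri isOrd_om hy with k | k | k
          · exact k
          · exact absurd (k ▸ regGe_om δ) e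
          · exact absurd (regGe_om δ) (y₂ _ ho k)
        refine Or.inr ⟨hy, ⟨_, oy⟩, fun u hu => ?_⟩
        have := ymin u hu
        push Not at this
        obtain ⟨z, z₁, z₂, z₃⟩ := this (lt_lt hx hu y₁)
        refine ⟨z, ?_, z₂, z₃⟩
        rcases ord_tri (isOrd_of_E hx z₁) hy with k | rfl | k
        · exact k
        · exact absurd z₃ e
        · exact absurd z₃ (y₂ z z₁ k)
    · rintro z z₁ z₂ (k | ⟨-, -, k⟩)
      · exact y₂ z z₂ z₁ k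
      · obtain ⟨u, u₁, u₂, u₃⟩ := k y z₁
        exact y₂ u (lt_lt hx u₁ z₂) u₂ u₃

theorem regGe_iff {δ : Ordinal.{1}} {x : g.M} :
    RegGe g.E δ x ↔ IsReg g.E x ∧ (x = g.om ∨ ∀ β < δ, Lim g.E (RegGe g.E β) x) := by
  constructor
  · intro h
    refine ⟨h.reg, or_iff_not_imp_left.2 fun h₁ β hβ => ?_⟩
    by_contra h₂
    exact ((regGe_def _ _ _).1 h).2 β hβ (regAt_iff.2 ⟨h.mono hβ.le, h₁, h₂⟩)
  · rintro ⟨h₁, rfl | h₂⟩
    · exact regGe_om δ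
    · exact (regGe_def _ _ _).2 ⟨h₁, fun β hβ h => (regAt_iff.1 h).2.2 (h₂ β hβ)⟩

end Gen

end Pool.Agent.MP_85ce7b_lc

end

section

namespace Pool.Agent.MP_85ce7b_lc

open Pool.Agent.MP_c6cf52_lc

namespace Gen

variable {P : Type 2} [Sz P] [Preorder P] [OrderTop P] [Tame P] {g : Gen P}

theorem rep_aux {d : g.M} {δ : Ordinal.{1}} (hd : IsOrd g.E d) {e : Set.Iio δ → g.M}
    (h₁ : ∀ i j, g.E (e i) (e j) ↔ i < j) (h₂ : ∀ x, g.E x d ↔ ∃ i, e i = x) (i : Set.Iio δ) :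
    Rep g.E (e i) i.1 := by
  have hi := (h₂ _).2 ⟨i, rfl⟩
  refine ⟨isOrd_of_E hd hi, fun j => e ⟨j.1, (Set.mem_Iio.1 j.2).trans i.2⟩, fun j k => h₁ _ _, fun x => ?_⟩
  constructor
  · intro hx
    obtain ⟨j, rfl⟩ := (h₂ x).1 (lt_lt hd hx hi)
    exact ⟨⟨j.1, (h₁ _ _).1 hx⟩, rfl⟩
  · rintro ⟨j, rfl⟩
    exact (h₁ _ _).2 j.2

theorem rep_mem {d x : g.M} {δ : Ordinal.{1}} (h : Rep g.E d δ) (hx : g.E x d) :
    ∃ β < δ, Rep g.E x β := by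
  obtain ⟨hd, e, h₁, h₂⟩ := h
  obtain ⟨i, rfl⟩ := (h₂ x).1 hx
  exact ⟨i.1, i.2, rep_aux hd h₁ h₂ i⟩

theorem rep_lt {d : g.M} {δ β : Ordinal.{1}} (h : Rep g.E d δ) (hβ : β < δ) :
    ∃ x, g.E x d ∧ Rep g.E x β := by
  obtain ⟨hd, e, h₁, h₂⟩ := h
  exact ⟨_, (h₂ _).2 ⟨⟨β, hβ⟩, rfl⟩, rep_aux hd h₁ h₂ ⟨β, hβ⟩⟩

theorem rep_uniq {δ : Ordinal.{1}} : ∀ {d d' : g.M}, Rep g.E d δ → Rep g.E d' δ → d = d' := by
  induction δ using WellFoundedLT.induction with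
  | _ δ ih =>
    intro d d' h h'
    refine ext fun x => ⟨fun hx => ?_, fun hx => ?_⟩
    · obtain ⟨β, h₁, h₂⟩ := rep_mem h hx
      obtain ⟨y, h₃, h₄⟩ := rep_lt h' h₁
      exact ih β h₁ h₂ h₄ ▸ h₃
    · obtain ⟨β, h₁, h₂⟩ := rep_mem h' hx
      obtain ⟨y, h₃, h₄⟩ := rep_lt h h₁
      exact ih β h₁ h₂ h₄ ▸ h₃

theorem rep_inj {d : g.M} {δ δ' : Ordinal.{1}} (h : Rep g.E d δ) (h' : Rep g.E d δ') : δ = δ' := by
  rcases lt_trichotomy δ δ' with e | e | e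
  · obtain ⟨x, h₁, h₂⟩ := rep_lt h' e
    exact absurd (rep_uniq h₂ h ▸ h₁) (E_irrefl _)
  · exact e
  · obtain ⟨x, h₁, h₂⟩ := rep_lt h e
    exact absurd (rep_uniq h₂ h' ▸ h₁) (E_irrefl _)

theorem rep_lt_iff {x d : g.M} {β δ : Ordinal.{1}} (hx : Rep g.E x β) (hd : Rep g.E d δ) :
    g.E x d ↔ β < δ :=
  ⟨fun h => let ⟨_, h₁, h₂⟩ := rep_mem hd h; rep_inj h₂ hx ▸ h₁,
    fun h => let ⟨_, h₁, h₂⟩ := rep_lt hd h; rep_uniq h₂ hx ▸ h₁⟩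

theorem cl_congr {S S' : g.M → Prop} {y : g.M} (h : ∀ z, Leq g.E z y → (S z ↔ S' z)) :
    Cl g.E S y ↔ Cl g.E S' y :=
  or_congr (h y (leq_refl y)) (and_congr_right fun _ => and_congr_right fun _ =>
    forall₂_congr fun _ _ => exists_congr fun z => and_congr_right fun hz =>
      and_congr_right fun _ => h z (Or.inl hz))

theorem succPt_congr {S S' : g.M → Prop} {y : g.M} (hy : IsOrd g.E y)
    (h : ∀ z, Leq g.E z y → (S z ↔ S' z)) : SuccPt g.E S y ↔ SuccPt g.E S' y := by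
  have k : ∀ u, g.E u y → (Cl g.E S u ↔ Cl g.E S' u) := fun u hu =>
    cl_congr fun z hz => h z (Or.inl (leq_lt hy hz hu))
  exact and_congr (cl_congr h) (exists_congr fun u => and_congr_right fun hu =>
    and_congr (k u hu) (forall₃_congr fun z _ hz => not_congr (k z hz)))

theorem tab_sound {T d x : g.M} (hT : Tab g.E T d x) (hd : IsOrd g.E d) (hx : IsOrd g.E x)
    (β : Ordinal.{1}) : ∀ e, Rep g.E e β → Leq g.E e d → ∀ y, Leq g.E y x →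
      (App g.E T e y ↔ RegGe g.E β y) := by
  induction β using WellFoundedLT.induction with
  | _ β ih =>
    intro e he hed y hy
    rw [hT e y hed hy, regGe_def]
    have k : ∀ e' β', β' < β → Rep g.E e' β' →
        (SuccPt g.E (fun z => App g.E T e' z) y ↔ RegAt g.E β' y) := fun e' β' h₁ h₂ =>
      succPt_congr (isOrd_of_leq hx hy) fun z hz => ih β' h₁ e' h₂
        (Or.inl (lt_leq hd ((rep_lt_iff h₂ he).2 h₁) hed)) z (leq_trans hx hz hy)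
    refine and_congr_right fun _ => ⟨fun h β' hβ => ?_, fun h e' he' => ?_⟩
    · obtain ⟨e', h₁, h₂⟩ := rep_lt he hβ
      exact fun h₃ => h e' h₁ ((k e' β' hβ h₂).2 h₃)
    · obtain ⟨β', h₁, h₂⟩ := rep_mem he he'
      exact fun h₃ => h β' h₁ ((k e' β' h₁ h₂).1 h₃)

theorem regGeI_iff {δ : Ordinal.{1}} : ∀ {d x : g.M}, Rep g.E d δ →
    (RegGeI g.E d x ↔ RegGe g.E δ x) := by
  induction δ using WellFoundedLT.induction with
  | _ δ ih =>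
    intro d x hd
    refine ⟨fun ⟨hx, T, h₁, h₂⟩ => (tab_sound h₁ hd.1 hx δ d hd (leq_refl d) x (leq_refl x)).1 h₂,
      fun h => ?_⟩
    have hx := h.reg.1.1
    obtain ⟨T, -, hT⟩ := exists_rel (sc d) (sc x)
      (Q := fun e y => IsReg g.E y ∧ ∀ e', g.E e' e → ¬ RegAtI g.E e' y) (by fun_prop)
    have k₁ : ∀ e β y, β < δ → Rep g.E e β → (RegAtI g.E e y ↔ RegAt g.E β y) := fun e β y h₁ h₂ => by
      unfold RegAtI RegAt
      rw [show (fun z => RegGeI g.E e z) = RegGe g.E β from funext fun z => propext (ih β h₁ h₂)]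
    have k₂ : ∀ e β y, β ≤ δ → Rep g.E e β →
        ((IsReg g.E y ∧ ∀ e', g.E e' e → ¬ RegAtI g.E e' y) ↔ RegGe g.E β y) := by
      intro e β y h₁ h₂
      rw [regGe_def]
      refine and_congr_right fun _ => ⟨fun h β' hβ => ?_, fun h e' he' => ?_⟩
      · obtain ⟨e', h₃, h₄⟩ := rep_lt h₂ hβ
        exact fun h₅ => h e' h₃ ((k₁ e' β' y (hβ.trans_le h₁) h₄).2 h₅)
      · obtain ⟨β', h₃, h₄⟩ := rep_mem h₂ he'
        exact fun h₅ => h β' h₃ ((k₁ e' β' y (h₃.trans_le h₁) h₄).1 h₅)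
    refine ⟨hx, T, fun e y he hy => ?_, (hT _ _).2 ⟨lt_sc d, lt_sc x, (k₂ d δ x le_rfl hd).2 h⟩⟩
    rw [hT, and_iff_right (E_sc.2 he), and_iff_right (E_sc.2 hy)]
    refine and_congr_right fun _ => forall₂_congr fun e' he' => not_congr ?_
    have he'' := lt_leq hd.1 he' he
    obtain ⟨β, h₁, h₂⟩ := rep_mem hd he''
    refine succPt_congr (isOrd_of_leq hx hy) fun z hz => ?_
    rw [hT, and_iff_right (E_sc.2 (Or.inl he'')), and_iff_right (E_sc.2 (leq_trans hx hz hy)),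
      k₂ e' β z h₁.le h₂]
    exact ih β h₁ h₂

theorem regGeI_eq {δ : Ordinal.{1}} {d : g.M} (h : Rep g.E d δ) :
    (fun z => RegGeI g.E d z) = RegGe g.E δ := funext fun _ => propext (regGeI_iff h)

theorem regAtI_iff {δ : Ordinal.{1}} {d x : g.M} (h : Rep g.E d δ) :
    RegAtI g.E d x ↔ RegAt g.E δ x := by
  unfold RegAtI RegAt
  rw [regGeI_eq h]

theorem otpI_iff {δ : Ordinal.{1}} {d Z : g.M} (h : Rep g.E d δ) :
    OtpI g.E Z d ↔ Otp g.E Z δ :=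
  ⟨fun ⟨f, Y, h₁, h₂⟩ => ⟨d, f, Y, h.1, h.2, h₁, h₂⟩,
    fun ⟨_, f, Y, h₀, h₀', h₁, h₂⟩ => ⟨f, Y, rep_uniq ⟨h₀, h₀'⟩ h ▸ h₁, h₂⟩⟩

theorem ex_lt_iff {α : Ordinal.{1}} {a Z l : g.M} (h : Rep g.E a α) :
    (∃ δ < α, Otp g.E Z δ ∧ RegAt g.E δ l) ↔ ∃ d, g.E d a ∧ OtpI g.E Z d ∧ RegAtI g.E d l :=
  ⟨fun ⟨_, h₁, h₂, h₃⟩ =>
    let ⟨d, h₄, h₅⟩ := rep_lt h h₁
    ⟨d, h₄, (otpI_iff h₅).2 h₂, (regAtI_iff h₅).2 h₃⟩,
  fun ⟨_, h₁, h₂, h₃⟩ =>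
    let ⟨δ, h₄, h₅⟩ := rep_mem h h₁
    ⟨δ, h₄, (otpI_iff h₅).1 h₂, (regAtI_iff h₅).1 h₃⟩⟩

theorem qq_iff {α : Ordinal.{1}} {a X Y Z : g.M} (h : Rep g.E a α) : QQ g.E α X Y Z ↔
    ∃ l, Cof g.E X l ∧ Cof g.E Y l ∧ ∃ d, g.E d a ∧ OtpI g.E Z d ∧ RegAtI g.E d l :=
  exists_congr fun _ => by
    rw [← ex_lt_iff h]
    exact ⟨fun ⟨δ, h₁, h₂, h₃, h₄⟩ => ⟨h₂, h₃, δ, h₁, h₄⟩,
      fun ⟨h₂, h₃, δ, h₁, h₄⟩ => ⟨δ, h₁, h₂, h₃, h₄⟩⟩

theorem rr_iff {α : Ordinal.{1}} {a X Z : g.M} (h : Rep g.E a α) : RR g.E α X Z ↔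
    ∃ l, EqC g.E X l ∧ ∃ d, g.E d a ∧ OtpI g.E Z d ∧ RegAtI g.E d l :=
  exists_congr fun _ => by
    rw [← ex_lt_iff h]
    exact ⟨fun ⟨δ, h₁, h₂, h₄⟩ => ⟨h₂, δ, h₁, h₄⟩, fun ⟨h₂, δ, h₁, h₄⟩ => ⟨δ, h₁, h₂, h₄⟩⟩

theorem RegAt.reg {δ : Ordinal.{1}} {x : g.M} (h : RegAt g.E δ x) : IsReg g.E x :=
  (regAt_iff.1 h).1.reg

theorem RegAt.om_lt {δ : Ordinal.{1}} {x : g.M} (h : RegAt g.E δ x) : g.E g.om x :=
  (IsReg.om_leq (RegAt.reg h)).resolve_right (regAt_iff.1 h).2.1.symm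

theorem exists_regAt {α : Ordinal.{1}} {x : g.M} (h₁ : IsReg g.E x) (h₂ : ¬ RegGe g.E α x) :
    ∃ δ < α, RegAt g.E δ x := by
  by_contra h
  exact h₂ ((regGe_def _ _ _).2 ⟨h₁, fun β hβ h₃ => h ⟨β, hβ, h₃⟩⟩)

/-- An uncountable regular cardinal that is not a limit of cardinals is exactly in `Reg_0`. -/
theorem regAt_succ {δ : Ordinal.{1}} {x : g.M} (h₁ : IsReg g.E x) (h₂ : Succ g.E x)
    (h₃ : g.E g.om x) : RegAt g.E δ x ↔ δ = 0 := by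
  obtain ⟨b, hb, k⟩ := h₂
  have nl : ¬ Lim g.E (RegGe g.E 0) x := fun h =>
    let ⟨z, k₁, k₂, k₃⟩ := h.2 b hb
    k z k₂ k₁ k₃.reg.1
  have ne : x ≠ g.om := fun e => E_irrefl _ (e ▸ h₃)
  constructor
  · intro h
    by_contra e
    exact nl (((regGe_iff.1 (regAt_iff.1 h).1).2.resolve_left ne) 0 (pos_iff_ne_zero.2 e))
  · rintro rfl
    exact regAt_iff.2 ⟨(regGe_def _ _ _).2 ⟨h₁, fun β hβ => absurd hβ (by simp)⟩, ne, nl⟩

end Gen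

end Pool.Agent.MP_85ce7b_lc

end

section

namespace Pool.Agent.MP_85ce7b_lc

open Pool.Agent.MP_c6cf52_lc

section General

variable {M : Type*} (E : M → M → Prop)

/-- `x, y, z` witness that `X` is not a linear order. -/
def NL (X x y z : M) : Prop :=
  (App E X x y ∧ ¬ (App E X x x ∧ App E X y y)) ∨ (App E X x y ∧ App E X y x ∧ x ≠ y) ∨
    (App E X x y ∧ App E X y z ∧ ¬ App E X x z) ∨
    (App E X x x ∧ App E X y y ∧ ¬ App E X x y ∧ ¬ App E X y x)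

/-- `O` is the order `≤` on the set of ordinals `c`. -/
def OrdRel (O c : M) : Prop := ∀ x y, App E O x y ↔ E x c ∧ E y c ∧ Leq E x y

/-- `Y` is closed under witnesses for `Θ`. -/
def Cl3 (Y : M) (Θ : M → M → M → M → Prop) : Prop :=
  ∀ a b c, E a Y → E b Y → E c Y → (∃ y, Θ a b c y) → ∃ y, E y Y ∧ Θ a b c y

end General

namespace Gen

variable {P : Type 2} [Sz P] [Preorder P] [OrderTop P] [Tame P]

/-- A hull with the closure properties used for the upper bound. -/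
structure HC (g : Gen P) (α : Ordinal.{1}) (k Y π m a : g.M) : Prop where
  hull : Hull g.E k g.om Y π m
  k_ge : RegGe g.E α k
  om_k : g.E g.om k
  om_Y : g.E g.om Y
  a_rep : Rep g.E a α
  a_k : g.E a k
  a_Y : g.E a Y
  fst : ∀ x y, g.E (pr x y) Y → g.E x Y
  snd : ∀ x y, g.E (pr x y) Y → g.E y Y
  app : ∀ f x, g.E f Y → g.E x Y → (∃ y, App g.E f x y) → ∃ y, g.E y Y ∧ App g.E f x y
  inv : ∀ f y, g.E f Y → g.E y Y → (∃ x, App g.E f x y) → ∃ x, g.E x Y ∧ App g.E f x y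
  card : ∀ X, g.E X Y → ∃ l f, g.E l Y ∧ g.E f Y ∧ IsCard g.E l ∧ Bij g.E f X l
  cofw : ∀ X, g.E X Y → Lin g.E X → ∃ l S f, g.E l Y ∧ g.E S Y ∧ g.E f Y ∧ Cof g.E X l ∧
    Cofinal g.E S X ∧ Bij g.E f S l
  nlin : ∀ X, g.E X Y → (∃ x y z, NL g.E X x y z) →
    ∃ x y z, g.E x Y ∧ g.E y Y ∧ g.E z Y ∧ NL g.E X x y z
  up : ∀ X S x, g.E X Y → g.E S Y → g.E x Y → (∃ s, g.E s S ∧ App g.E X x s) →
    ∃ s, g.E s Y ∧ g.E s S ∧ App g.E X x s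
  above : ∀ X f i, g.E X Y → g.E f Y → g.E i Y →
    (∃ x, App g.E X x x ∧ ∀ s j, App g.E f s j → Leq g.E j i → ¬ App g.E X x s) →
    ∃ x, g.E x Y ∧ App g.E X x x ∧ ∀ s j, App g.E f s j → Leq g.E j i → ¬ App g.E X x s
  fld : ∀ Z, g.E Z Y → ∃ F, g.E F Y ∧ ∀ x, g.E x F ↔ ∃ y, App g.E Z x y ∨ App g.E Z y x

/-- What elementarity of `B` in `A` gives for the ternary relations `S r`, `r ∈ L`. -/
structure LB (g : Gen P) (α : Ordinal.{1}) (q : Bool) (L A B : g.M)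
    (S : g.M → g.M → g.M → g.M → Prop) : Prop where
  sub : Sub g.E B A
  ne : ∃ x, g.E x B
  cl : ∀ r x y, g.E r L → g.E x B → g.E y B → (∃ z, g.E z A ∧ S r x y z) →
    ∃ z, g.E z B ∧ S r x y z
  eqc : ∀ r x x' X X' Y Y', g.E r L → g.E x B → g.E x' B → Ext1 g.E A (S r x x) X →
    Ext1 g.E A (S r x' x') X' → Ext1 g.E B (S r x x) Y → Ext1 g.E B (S r x' x') Y' →
    (EqC g.E X X' ↔ EqC g.E Y Y')
  hQ : q = true → ∀ r x x' d X X' Z Y Y' W, g.E r L → g.E x B → g.E x' B → g.E d B →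
    Ext2 g.E A (S r x) X → Ext2 g.E A (S r x') X' → Ext2 g.E A (S r d) Z →
    Ext2 g.E B (S r x) Y → Ext2 g.E B (S r x') Y' → Ext2 g.E B (S r d) W →
    (QQ g.E α X X' Z ↔ QQ g.E α Y Y' W)
  hR : q = false → ∀ r r' x d X Z Y W, g.E r L → g.E r' L → g.E x B → g.E d B →
    Ext1 g.E A (S r x x) X → Ext2 g.E A (S r' d) Z → Ext1 g.E B (S r x x) Y →
    Ext2 g.E B (S r' d) W → (RR g.E α X Z ↔ RR g.E α Y W)

variable {g : Gen P}

theorem not_lin_iff {X : g.M} : ¬ Lin g.E X ↔ ∃ x y z, NL g.E X x y z := by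
  unfold Lin NL
  constructor
  · intro h
    by_contra H
    push Not at H
    refine h ⟨fun x y k => (H x y x).1 k, fun x y => (H x y x).2.1, fun x y z => (H x y z).2.2.1,
      fun x y k k' => ?_⟩
    by_contra e
    push Not at e
    exact e.2 ((H x y x).2.2.2 k k' e.1)
  · rintro ⟨x, y, z, h | h | h | h⟩ ⟨h₁, h₂, h₃, h₄⟩
    · exact h.2 (h₁ _ _ h.1)
    · exact h.2.2 (h₂ _ _ h.1 h.2.1)
    · exact h.2.2 (h₃ _ _ _ h.1 h.2.1)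
    · exact (h₄ _ _ h.1 h.2.1).elim h.2.2.1 h.2.2.2

theorem ext2_app {A X : g.M} {Φ : g.M → g.M → Prop} (h : Ext2 g.E A Φ X) (x y : g.M) :
    App g.E X x y ↔ g.E x A ∧ g.E y A ∧ Φ x y := by
  rw [app_iff, h]
  simp only [isPair_iff, pr_inj]
  exact ⟨fun ⟨_, _, h₁, h₂, ⟨e₁, e₂⟩, h₃⟩ => e₁ ▸ e₂ ▸ ⟨h₁, h₂, h₃⟩,
    fun ⟨h₁, h₂, h₃⟩ => ⟨x, y, h₁, h₂, ⟨rfl, rfl⟩, h₃⟩⟩

theorem exists_ext1 (A : g.M) {Φ : g.M → Prop} (h : g.Tm Φ) : ∃ X, Ext1 g.E A Φ X := tm_sep h A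

theorem exists_ext2 (A : g.M) {Φ : g.M → g.M → Prop}
    (h : g.Tm (fun z : g.M × g.M => Φ z.1 z.2)) : ∃ X, Ext2 g.E A Φ X := by
  obtain ⟨X, h₁, -⟩ := exists_rel A A h
  exact ⟨X, fun p => by simpa only [isPair_iff] using h₁ p⟩

theorem ext1_uniq {A X X' : g.M} {Φ : g.M → Prop} (h : Ext1 g.E A Φ X) (h' : Ext1 g.E A Φ X') :
    X = X' := ext fun x => (h x).trans (h' x).symm

theorem ext2_uniq {A X X' : g.M} {Φ : g.M → g.M → Prop} (h : Ext2 g.E A Φ X)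
    (h' : Ext2 g.E A Φ X') : X = X' := ext fun x => (h x).trans (h' x).symm

end Gen

end Pool.Agent.MP_85ce7b_lc

end

section

namespace Pool.Agent.MP_85ce7b_lc

open Pool.Agent.MP_c6cf52_lc

namespace Gen

variable {P : Type 2} [Sz P] [Preorder P] [OrderTop P] [Tame P] {g : Gen P}

theorem tcof_field (X : g.M) : ∃ F, ∀ x, g.E x F ↔ App g.E X x x := by
  obtain ⟨U₁, h₁⟩ := weak_union X
  obtain ⟨U₂, h₂⟩ := weak_union U₁
  obtain ⟨F, hF⟩ := tm_sep (Q := fun x => App g.E X x x) (by fun_prop) U₂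
  refine ⟨F, fun x => (hF x).trans ⟨fun k => k.2, fun k => ⟨?_, k⟩⟩⟩
  obtain ⟨p, k₁, k₂⟩ := k
  obtain ⟨s, hs⟩ := exists_upair x x
  exact h₂ x s ((hs x).2 (Or.inl rfl)) (h₁ s p ((k₂ s).2 (Or.inr hs)) k₁)

theorem tcof_id (d : g.M) : ∃ f, IsFun g.E f d d ∧ ∀ a b, App g.E f a b ↔ g.E a d ∧ a = b := by
  obtain ⟨f, h₁, h₂⟩ := exists_fun (A := d) (B := d) (Q := fun a b => a = b) (by fun_prop)
    fun a ha => ⟨a, ha, rfl⟩
  refine ⟨f, h₁, fun a b => ⟨fun k => ⟨(fun_mem h₁ k).1, h₂ _ _ k⟩, ?_⟩⟩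
  rintro ⟨ha, rfl⟩
  obtain ⟨b, -, k⟩ := fun_ex h₁ ha
  exact (h₂ _ _ k).symm ▸ k

theorem tcof_self {O c : g.M} (h : OrdRel g.E O c) : Cofinal g.E c O :=
  ⟨fun s hs => (h s s).2 ⟨hs, hs, leq_refl s⟩, fun x hx => ⟨x, ((h x x).1 hx).1, hx⟩⟩

theorem exists_cof {X : g.M} (h : Lin g.E X) : ∃ l, Cof g.E X l := by
  obtain ⟨F, hF⟩ := tcof_field X
  obtain ⟨l₀, h₁, h₂⟩ := exists_card F
  obtain ⟨l, ⟨k₁, S, k₂, f, k₃⟩, hmin⟩ := exists_min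
    (Q := fun l => IsCard g.E l ∧ ∃ S, Cofinal g.E S X ∧ EqC g.E S l)
    ⟨l₀, h₁, F, ⟨fun s hs => (hF s).1 hs, fun x hx => ⟨x, (hF x).2 hx, hx⟩⟩, h₂⟩
  refine ⟨l, h, k₁, ⟨S, f, k₂, k₃⟩, fun S' hS' => ?_⟩
  obtain ⟨l', e₁, e₂⟩ := exists_card S'
  have e₃ : Leq g.E l l' := leq_of_not_lt k₁.1 e₁.1 fun e => hmin l' e ⟨e₁, S', hS', e₂⟩
  exact leC_trans (leC_of_sub (sub_of_leq e₁.1 e₃)) (EqC.ge e₂)

theorem cof_uniq {X l l' : g.M} (h : Cof g.E X l) (h' : Cof g.E X l') : l = l' := by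
  obtain ⟨-, h₁, ⟨S, f, h₂, h₃⟩, h₄⟩ := h
  obtain ⟨-, k₁, ⟨S', f', k₂, k₃⟩, k₄⟩ := h'
  exact card_eq h₁ k₁ (leC_trans (h₄ S' k₂) ⟨f', k₃.1⟩) (leC_trans (k₄ S h₂) ⟨f, h₃.1⟩)

/-- Fewer than `l` points of an order of infinite cofinality `l` are not cofinal. -/
theorem cof_above {X l S f i : g.M} (h : Cof g.E X l) (hi : Inf g.E l) (hS : Cofinal g.E S X)
    (hf : Bij g.E f S l) (hil : g.E i l) :
    ∃ x, App g.E X x x ∧ ∀ s j, App g.E f s j → Leq g.E j i → ¬ App g.E X x s := by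
  by_contra H
  obtain ⟨T, hT⟩ := tm_sep (Q := fun s => ∃ j, App g.E f s j ∧ Leq g.E j i) (by fun_prop) S
  have hc : Cofinal g.E T X := by
    refine ⟨fun s hs => hS.1 s ((hT s).1 hs).1, fun x hx => ?_⟩
    by_contra e
    exact H ⟨x, hx, fun s j k₁ k₂ k₃ =>
      e ⟨s, (hT s).2 ⟨(fun_mem hf.1.1 k₁).1, j, k₁, k₂⟩, k₃⟩⟩
  have hle : LeC g.E T (sc i) :=
    leC_of_rel (Q := fun s j => App g.E f s j) (by fun_prop)
      (fun s hs => let ⟨j, k₁, k₂⟩ := ((hT s).1 hs).2; ⟨j, E_sc.2 k₂, k₁⟩)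
      fun _ _ _ _ _ k k' => hf.1.2 _ _ _ k k'
  exact h.2.1.2 _ (sc_lt_card h.2.1 hi hil) (leC_trans (h.2.2.2 T hc) hle)

theorem cof_reg {X l : g.M} (h : Cof g.E X l) (hi : Inf g.E l) : IsReg g.E l := by
  refine ⟨h.2.1, hi, fun S' h₁ h₂ => ?_⟩
  obtain ⟨S, f, hS, hf⟩ := h.2.2.1
  obtain ⟨F, B, k₁, k₂⟩ := exists_fun' (A := S')
    (Q := fun i x => App g.E X x x ∧ ∀ s j, App g.E f s j → Leq g.E j i → ¬ App g.E X x s)
    (by fun_prop) fun i hi' => cof_above h hi hS hf (h₁ i hi')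
  obtain ⟨C, hC⟩ := tm_sep (Q := fun x => ∃ i, App g.E F i x) (by fun_prop) B
  have hc : Cofinal g.E C X := by
    refine ⟨fun x hx => ?_, fun x hx => ?_⟩
    · obtain ⟨i, k⟩ := ((hC x).1 hx).2
      exact (k₂ _ _ k).1
    · obtain ⟨s, e₁, e₂⟩ := hS.2 x hx
      obtain ⟨j, e₃, e₄⟩ := fun_ex hf.1.1 e₁
      obtain ⟨i, e₅, e₆⟩ := h₂ j e₃
      obtain ⟨y, e₇, e₈⟩ := fun_ex k₁ e₅
      have e₉ := k₂ _ _ e₈
      exact ⟨y, (hC y).2 ⟨e₇, i, e₈⟩, h.1.2.2.1 _ _ _ e₂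
        ((h.1.2.2.2 y s e₉.1 (hS.1 s e₁)).resolve_left (e₉.2 s j e₄ e₆))⟩
  have hle : LeC g.E C S' :=
    leC_of_onto (Q := fun i x => App g.E F i x) (by fun_prop)
      (fun x hx => let ⟨i, k⟩ := ((hC x).1 hx).2; ⟨i, (fun_mem k₁ k).1, k⟩)
      fun _ _ _ k k' => fun_uniq k₁ k k'
  exact leC_trans (h.2.2.2 C hc) hle

theorem lin_ordRel {O c : g.M} (hc : ∀ x, g.E x c → IsOrd g.E x) (h : OrdRel g.E O c) :
    Lin g.E O := by
  refine ⟨fun x y k => ?_, fun x y k k' => ?_, fun x y z k k' => ?_, fun x y k k' => ?_⟩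
  · obtain ⟨k₁, k₂, -⟩ := (h x y).1 k
    exact ⟨(h x x).2 ⟨k₁, k₁, leq_refl x⟩, (h y y).2 ⟨k₂, k₂, leq_refl y⟩⟩
  · exact leq_antisymm ((h x y).1 k).2.2 ((h y x).1 k').2.2
  · obtain ⟨k₁, -, k₃⟩ := (h x y).1 k
    obtain ⟨-, k₅, k₆⟩ := (h y z).1 k'
    exact (h x z).2 ⟨k₁, k₅, leq_trans (hc z k₅) k₃ k₆⟩
  · have k₁ := ((h x x).1 k).1
    have k₂ := ((h y y).1 k').1
    rcases ord_tri (hc x k₁) (hc y k₂) with e | e | e
    · exact Or.inl ((h x y).2 ⟨k₁, k₂, Or.inl e⟩)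
    · exact Or.inl ((h x y).2 ⟨k₁, k₂, Or.inr e⟩)
    · exact Or.inr ((h y x).2 ⟨k₂, k₁, Or.inl e⟩)

theorem cof_ordRel {O l : g.M} (hl : IsReg g.E l) (h : OrdRel g.E O l) : Cof g.E O l := by
  obtain ⟨f, hf⟩ := eqC_refl l
  refine ⟨lin_ordRel (fun x hx => isOrd_of_E hl.1.1 hx) h, hl.1, ⟨l, f, tcof_self h, hf⟩,
    fun S hS => hl.2.2 S (fun s hs => ((h s s).1 (hS.1 s hs)).1) fun x hx => ?_⟩
  obtain ⟨s, k₁, k₂⟩ := hS.2 x ((h x x).2 ⟨hx, hx, leq_refl x⟩)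
  exact ⟨s, k₁, ((h x s).1 k₂).2.2⟩

theorem cof_ordRel_leq {O x l : g.M} (hx : IsOrd g.E x) (h : OrdRel g.E O x)
    (hl : Cof g.E O l) : Leq g.E l x := by
  exact card_leq hl.2.1 hx (hl.2.2.2 x (tcof_self h))

theorem otpI_ordRel {O d : g.M} (hd : IsOrd g.E d) (h : OrdRel g.E O d) : OtpI g.E O d := by
  have _ := hd
  obtain ⟨f, h₁, h₂⟩ := tcof_id d
  refine ⟨f, d, ⟨h₁, fun a a' b k k' => ((h₂ _ _).1 k).2.trans ((h₂ _ _).1 k').2.symm⟩,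
    fun x y => (h x y).trans ⟨fun k => ?_, ?_⟩⟩
  · exact ⟨x, y, k.2.2, (h₂ _ _).2 ⟨k.1, rfl⟩, (h₂ _ _).2 ⟨k.2.1, rfl⟩⟩
  · rintro ⟨i, j, k₁, k₂, k₃⟩
    obtain ⟨k₄, rfl⟩ := (h₂ _ _).1 k₂
    obtain ⟨k₅, rfl⟩ := (h₂ _ _).1 k₃
    exact ⟨k₄, k₅, k₁⟩

theorem otpI_uniq {Z d d' : g.M} (hd : IsOrd g.E d) (hd' : IsOrd g.E d') (h : OtpI g.E Z d)
    (h' : OtpI g.E Z d') : d = d' := by
  obtain ⟨f, Y, hf, hZ⟩ := h
  obtain ⟨f', Y', hf', hZ'⟩ := h'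
  obtain ⟨H, h₁, h₂⟩ := exists_fun (A := d) (B := d')
    (Q := fun i i' => ∃ x, App g.E f i x ∧ App g.E f' i' x) (by fun_prop) fun i hi => by
      obtain ⟨x, -, k⟩ := fun_ex hf.1 hi
      obtain ⟨i', -, -, k', -⟩ := (hZ' x x).1 ((hZ x x).2 ⟨i, i, leq_refl i, k, k⟩)
      exact ⟨i', (fun_mem hf'.1 k').1, x, k, k'⟩
  have e₁ : En g H d' d := by
    refine ⟨hd, h₁, fun i' hi' => ?_, fun a a' b b' k k' e => ?_⟩
    · obtain ⟨x, -, k'⟩ := fun_ex hf'.1 hi'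
      obtain ⟨i, -, -, k, -⟩ := (hZ x x).1 ((hZ' x x).2 ⟨i', i', leq_refl i', k', k'⟩)
      obtain ⟨b, -, k₁⟩ := fun_ex h₁ (fun_mem hf.1 k).1
      obtain ⟨x', k₂, k₃⟩ := h₂ _ _ k₁
      obtain rfl := fun_uniq hf.1 k k₂
      exact ⟨i, hf'.2 _ _ _ k₃ k' ▸ k₁⟩
    · obtain ⟨x, k₁, k₂⟩ := h₂ _ _ k
      obtain ⟨x', k₃, k₄⟩ := h₂ _ _ k'
      obtain ⟨i, j, k₅, k₆, k₇⟩ := (hZ' x x').1 ((hZ x x').2 ⟨a, a', Or.inl e, k₁, k₃⟩)
      obtain rfl := hf'.2 _ _ _ k₆ k₂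
      obtain rfl := hf'.2 _ _ _ k₇ k₄
      refine k₅.resolve_right fun e' => ?_
      subst e'
      obtain rfl := fun_uniq hf'.1 k₂ k₄
      obtain rfl := hf.2 _ _ _ k₁ k₃
      exact E_irrefl _ e
  obtain ⟨I, k₁, k₂⟩ := tcof_id d'
  have e₂ : En g I d' d' := by
    refine ⟨hd', k₁, fun b hb => ⟨b, (k₂ _ _).2 ⟨hb, rfl⟩⟩, fun a a' b b' k k' e => ?_⟩
    obtain ⟨-, rfl⟩ := (k₂ _ _).1 k
    obtain ⟨-, rfl⟩ := (k₂ _ _).1 k'
    exact e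
  exact e₁.uniq e₂

end Gen

end Pool.Agent.MP_85ce7b_lc

end

section

namespace Pool.Agent.MP_85ce7b_lc

open Pool.Agent.MP_c6cf52_lc

namespace Gen

variable {P : Type 2} [Sz P] [Preorder P] [OrderTop P] [Tame P] {g : Gen P}

variable {α : Ordinal.{1}} {k Y π m a : g.M}

theorem HC.pr_iff (H : HC g α k Y π m a) {x y : g.M} :
    g.E (pr x y) Y ↔ g.E x Y ∧ g.E y Y :=
  ⟨fun h => ⟨H.fst x y h, H.snd x y h⟩,
    fun h => H.hull.2.2.2.2.2.2.1 x y _ h.1 h.2 (isPair_pr x y)⟩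

theorem HC.app_int (H : HC g α k Y π m a) {X Xb : g.M} (h : IsInt g.E Xb X Y) (x y : g.M) :
    App g.E Xb x y ↔ App g.E X x y ∧ g.E x Y ∧ g.E y Y := by
  rw [app_iff, h, H.pr_iff, app_iff]

theorem HC.th_kord (H : HC g α k Y π m a) : IsOrd g.E k := H.k_ge.reg.1.1

theorem HC.th_fnl (H : HC g α k Y π m a) : Fnl g.E π := H.hull.2.2.2.2.2.1

theorem HC.th_at (H : HC g α k Y π m a) {x : g.M} (h₁ : g.E x Y) (h₂ : IsOrd g.E x) :
    ∃ y, HullAt g.E k Y π x y := H.hull.2.2.2.2.2.2.2.2 x h₁ h₂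

theorem HC.th_m (H : HC g α k Y π m a) (x : g.M) : g.E x m ↔ g.E x Y ∧ g.E x k :=
  H.hull.2.2.2.1 x

theorem HC.th_fix (H : HC g α k Y π m a) {x : g.M} (h₁ : g.E x Y) (h₂ : g.E x k) :
    App g.E π x x := by
  obtain ⟨y, hy⟩ := H.th_at h₁ (isOrd_of_E H.th_kord h₂)
  have e := hy.2.2.2.1 h₂
  subst e
  exact hy.1

theorem HC.th_mcard (H : HC g α k Y π m a) : IsCard g.E m := by
  obtain ⟨y, hy⟩ := H.th_at H.hull.2.1 H.th_kord
  exact H.th_fnl _ _ _ hy.1 H.hull.2.2.2.2.1 ▸ hy.2.2.2.2.1 H.k_ge.reg.1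

theorem HC.sub_of_lt (H : HC g α k Y π m a) {x : g.M} (h₁ : g.E x Y) (h₂ : g.E x k) :
    Sub g.E x Y := fun y hy =>
  ((H.th_m y).1 (lt_lt (isOrd_of_E H.th_kord H.hull.2.2.1) hy ((H.th_m x).2 ⟨h₁, h₂⟩))).1

theorem HC.nat_mem (H : HC g α k Y π m a) (n : ℕ) : g.E (g.nat n) Y :=
  H.sub_of_lt H.om_Y H.om_k _ (nat_om n)

theorem HC.bar_inj (H : HC g α k Y π m a) {x x' y : g.M} (h₁ : g.E x Y) (h₂ : g.E x' Y)
    (h₃ : IsOrd g.E x) (h₄ : IsOrd g.E x') (h : App g.E π x y) (h' : App g.E π x' y) :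
    x = x' := by
  have key : ∀ u u', g.E u Y → g.E u' Y → IsOrd g.E u' → App g.E π u y → App g.E π u' y →
      ¬ g.E u u' := fun u u' k₁ k₂ k₃ k₄ k₅ k₆ => by
    obtain ⟨z, hz⟩ := H.th_at k₂ k₃
    have e : z = y := H.th_fnl _ _ _ hz.1 k₅
    subst e
    exact E_irrefl _ ((hz.2.2.1 z).2 ⟨u, k₁, k₆, k₄⟩)
  rcases ord_tri h₃ h₄ with e | e | e
  · exact absurd e (key x x' h₁ h₂ h₄ h h')
  · exact e
  · exact absurd e (key x' x h₂ h₁ h₃ h' h)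

/-- The trace of a set has the collapsed cardinality. -/
theorem HC.bar_eqC (H : HC g α k Y π m a) {X Xb f l lb : g.M} (hf : g.E f Y) (hl : g.E l Y)
    (ho : IsOrd g.E l) (hb : Bij g.E f X l) (h : HullAt g.E k Y π l lb)
    (hX : IsInt g.E Xb X Y) : EqC g.E Xb lb := by
  have _ := hl
  refine eqC_of_rel (Q := fun x z => ∃ w, g.E w Y ∧ App g.E f x w ∧ App g.E π w z) (by fun_prop)
    (fun x hx => ?_) (fun z hz => ?_) ?_ ?_
  · obtain ⟨k₁, k₂⟩ := (hX x).1 hx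
    obtain ⟨b, -, k₃⟩ := fun_ex hb.1.1 k₁
    obtain ⟨w, k₄, k₅⟩ := H.app f x hf k₂ ⟨b, k₃⟩
    have k₆ := (fun_mem hb.1.1 k₅).2
    obtain ⟨z, hz⟩ := H.th_at k₄ (isOrd_of_E ho k₆)
    exact ⟨z, (h.2.2.1 z).2 ⟨w, k₄, k₆, hz.1⟩, w, k₄, k₅, hz.1⟩
  · obtain ⟨w, k₁, k₂, k₃⟩ := (h.2.2.1 z).1 hz
    obtain ⟨x, k₄, k₅⟩ := H.inv f w hf k₁ (hb.2 w k₂)
    exact ⟨x, (hX x).2 ⟨(fun_mem hb.1.1 k₅).1, k₄⟩, w, k₁, k₅, k₃⟩
  · rintro x x' z - - ⟨w, k₁, k₂, k₃⟩ ⟨w', k₄, k₅, k₆⟩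
    have e := H.bar_inj k₁ k₄ (isOrd_of_E ho (fun_mem hb.1.1 k₂).2)
      (isOrd_of_E ho (fun_mem hb.1.1 k₅).2) k₃ k₆
    subst e
    exact hb.1.2 _ _ _ k₂ k₅
  · rintro x z z' - - ⟨w, -, k₂, k₃⟩ ⟨w', -, k₅, k₆⟩
    have e := fun_uniq hb.1.1 k₂ k₅
    subst e
    exact H.th_fnl _ _ _ k₃ k₆

theorem th_card_uniq {X l l' : g.M} (hl : IsCard g.E l) (hl' : IsCard g.E l') (h : EqC g.E X l)
    (h' : EqC g.E X l') : l = l' :=
  card_eq hl hl' (leC_trans (EqC.ge h) (EqC.le h')) (leC_trans (EqC.ge h') (EqC.le h))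

theorem th_eqC_iff {X X' l l' : g.M} (hl : IsCard g.E l) (hl' : IsCard g.E l') (h : EqC g.E X l)
    (h' : EqC g.E X' l') : EqC g.E X X' ↔ l = l' :=
  ⟨fun e => th_card_uniq hl hl' h (eqC_trans e h'), fun e => eqC_trans h (e ▸ eqC_symm h')⟩

theorem HC.eqC_iff (H : HC g α k Y π m a) {X X' Xb Xb' : g.M} (h₁ : g.E X Y) (h₂ : g.E X' Y)
    (h₃ : IsInt g.E Xb X Y) (h₄ : IsInt g.E Xb' X' Y) : EqC g.E X X' ↔ EqC g.E Xb Xb' := by
  obtain ⟨l, f, k₁, k₂, k₃, k₄⟩ := H.card X h₁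
  obtain ⟨l', f', j₁, j₂, j₃, j₄⟩ := H.card X' h₂
  obtain ⟨lb, hb⟩ := H.th_at k₁ k₃.1
  obtain ⟨lb', hb'⟩ := H.th_at j₁ j₃.1
  rw [th_eqC_iff k₃ j₃ ⟨f, k₄⟩ ⟨f', j₄⟩, th_eqC_iff (hb.2.2.2.2.1 k₃) (hb'.2.2.2.2.1 j₃)
    (H.bar_eqC k₂ k₁ k₃.1 k₄ hb h₃) (H.bar_eqC j₂ j₁ j₃.1 j₄ hb' h₄)]
  exact ⟨fun e => H.th_fnl _ _ _ hb.1 (e ▸ hb'.1),
    fun e => H.bar_inj k₁ j₁ k₃.1 j₃.1 hb.1 (e ▸ hb'.1)⟩

theorem HC.regAt_bar (H : HC g α k Y π m a) {l lb : g.M} (hl : g.E l Y) (hc : IsCard g.E l)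
    (h : HullAt g.E k Y π l lb) {δ : Ordinal.{1}} (hδ : δ < α) :
    RegAt g.E δ l ↔ RegAt g.E δ lb := by
  have _ := hl
  rcases ord_tri hc.1 H.th_kord with e | e | e
  · rw [h.2.2.2.1 e]
  · subst e
    have e : lb = m := H.th_fnl _ _ _ h.1 H.hull.2.2.2.2.1
    subst e
    obtain ⟨f, f₁, f₂⟩ := H.hull.2.2.2.2.2.2.2.1
    exact iff_of_false (((regGe_def _ _ _).1 H.k_ge).2 δ hδ) fun k =>
      not_reg_of_cof ((H.th_m _).2 ⟨H.om_Y, H.om_k⟩) f₁ f₂ (RegAt.reg k)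
  · rcases h.2.2.2.2.2 e hc with ⟨k₁, k₂, k₃, k₄⟩ | ⟨k₁, k₂⟩
    · have o := lt_lt hc.1 H.om_k e
      rw [regAt_succ k₁ k₂ o, regAt_succ k₃ k₄
        ((h.2.2.1 _).2 ⟨_, H.om_Y, o, H.th_fix H.om_Y H.om_k⟩)]
    · exact iff_of_false (fun k => k₁ (RegAt.reg k)) fun k => k₂ (RegAt.reg k)

theorem th_fld_le {Z F d : g.M} (h : OtpI g.E Z d)
    (hF : ∀ x, g.E x F → ∃ y, App g.E Z x y ∨ App g.E Z y x) : LeC g.E F d := by
  obtain ⟨e, W, he, hZ⟩ := h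
  refine leC_of_onto (Q := fun i x => App g.E e i x) (by fun_prop) (fun x hx => ?_)
    fun _ _ _ k k' => fun_uniq he.1 k k'
  obtain ⟨y, k | k⟩ := hF x hx
  · obtain ⟨i, j, -, k₁, -⟩ := (hZ _ _).1 k
    exact ⟨i, (fun_mem he.1 k₁).1, k₁⟩
  · obtain ⟨i, j, -, -, k₁⟩ := (hZ _ _).1 k
    exact ⟨j, (fun_mem he.1 k₁).1, k₁⟩

theorem HC.otpI_bar (H : HC g α k Y π m a) {Z Zb d : g.M} (h₁ : g.E Z Y) (h₂ : IsInt g.E Zb Z Y)
    (hd : g.E d a) : OtpI g.E Z d ↔ OtpI g.E Zb d := by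
  obtain ⟨F, hFY, hF⟩ := H.fld Z h₁
  obtain ⟨l, f, k₁, k₂, k₃, k₄⟩ := H.card F hFY
  have dk : g.E d k := lt_lt H.th_kord hd H.a_k
  by_cases hl : g.E l k
  · have sF : Sub g.E F Y := fun x hx => by
      obtain ⟨b, b₁, b₂⟩ := fun_ex k₄.1.1 hx
      obtain ⟨x', x₁, x₂⟩ := H.inv f b k₂ (H.sub_of_lt k₁ hl b b₁) ⟨x, b₂⟩
      exact k₄.1.2 _ _ _ x₂ b₂ ▸ x₁
    have e : ∀ x y, App g.E Zb x y ↔ App g.E Z x y := fun x y =>
      (H.app_int h₂ x y).trans (and_iff_left_of_imp fun h =>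
        ⟨sF x ((hF x).2 ⟨y, Or.inl h⟩), sF y ((hF y).2 ⟨x, Or.inr h⟩)⟩)
    unfold OtpI
    simp only [e]
  · have kl : Leq g.E k l := leq_of_not_lt H.th_kord k₃.1 hl
    refine iff_of_false (fun h => ?_) fun h => ?_
    · exact k₃.2 d (lt_leq k₃.1 dk kl)
        (leC_trans (EqC.ge ⟨f, k₄⟩) (th_fld_le h fun x hx => (hF x).1 hx))
    · obtain ⟨Fb, hFb⟩ := exists_int F Y
      obtain ⟨lb, hb⟩ := H.th_at k₁ k₃.1
      have e₁ : LeC g.E Fb d := th_fld_le h fun x hx => by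
        obtain ⟨x₁, x₂⟩ := (hFb x).1 hx
        obtain ⟨y, k | k⟩ := (hF x).1 x₁
        · obtain ⟨y', y₁, y₂⟩ := H.app Z x h₁ x₂ ⟨y, k⟩
          exact ⟨y', Or.inl ((H.app_int h₂ _ _).2 ⟨y₂, x₂, y₁⟩)⟩
        · obtain ⟨y', y₁, y₂⟩ := H.inv Z x h₁ x₂ ⟨y, k⟩
          exact ⟨y', Or.inr ((H.app_int h₂ _ _).2 ⟨y₂, y₁, x₂⟩)⟩
      have e₂ : Sub g.E m lb := fun z hz => by
        obtain ⟨z₁, z₂⟩ := (H.th_m z).1 hz
        exact (hb.2.2.1 z).2 ⟨z, z₁, lt_leq k₃.1 z₂ kl, H.th_fix z₁ z₂⟩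
      exact H.th_mcard.2 d ((H.th_m d).2 ⟨H.sub_of_lt H.a_Y H.a_k d hd, dk⟩)
        (leC_trans (leC_of_sub e₂) (leC_trans (EqC.ge (H.bar_eqC k₂ k₁ k₃.1 k₄ hb hFb)) e₁))

theorem HC.rr_bar (H : HC g α k Y π m a) {X Z Xb Zb : g.M} (h₁ : g.E X Y) (h₂ : g.E Z Y)
    (h₃ : IsInt g.E Xb X Y) (h₄ : IsInt g.E Zb Z Y) : RR g.E α X Z ↔ RR g.E α Xb Zb := by
  obtain ⟨l, f, k₁, k₂, k₃, k₄⟩ := H.card X h₁
  obtain ⟨lb, hb⟩ := H.th_at k₁ k₃.1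
  have eb := H.bar_eqC k₂ k₁ k₃.1 k₄ hb h₃
  rw [rr_iff H.a_rep, rr_iff H.a_rep]
  constructor
  · rintro ⟨l', j₁, d, j₂, j₃, j₄⟩
    obtain ⟨δ, hδ, rd⟩ := rep_mem H.a_rep j₂
    have r := (regAtI_iff rd).1 j₄
    have e : l' = l := th_card_uniq (RegAt.reg r).1 k₃ j₁ ⟨f, k₄⟩
    subst e
    exact ⟨lb, eb, d, j₂, (H.otpI_bar h₂ h₄ j₂).1 j₃,
      (regAtI_iff rd).2 ((H.regAt_bar k₁ k₃ hb hδ).1 r)⟩
  · rintro ⟨l', j₁, d, j₂, j₃, j₄⟩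
    obtain ⟨δ, hδ, rd⟩ := rep_mem H.a_rep j₂
    have r := (regAtI_iff rd).1 j₄
    have e : l' = lb := th_card_uniq (RegAt.reg r).1 (hb.2.2.2.2.1 k₃) j₁ eb
    subst e
    exact ⟨l, ⟨f, k₄⟩, d, j₂, (H.otpI_bar h₂ h₄ j₂).2 j₃,
      (regAtI_iff rd).2 ((H.regAt_bar k₁ k₃ hb hδ).2 r)⟩

end Gen

end Pool.Agent.MP_85ce7b_lc

end

section

namespace Pool.Agent.MP_85ce7b_lc

open Pool.Agent.MP_c6cf52_lc

namespace Gen

variable {P : Type 2} [Sz P] [Preorder P] [OrderTop P] [Tame P] {g : Gen P}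

variable {α : Ordinal.{1}} {k Y π m a : g.M}

theorem HC.th2_lin (H : HC g α k Y π m a) {X Xb : g.M} (h₁ : g.E X Y) (h : IsInt g.E Xb X Y) :
    Lin g.E X ↔ Lin g.E Xb := by
  constructor
  · rintro ⟨l₁, l₂, l₃, l₄⟩
    simp only [Lin, H.app_int h]
    exact ⟨fun x y e => ⟨⟨(l₁ x y e.1).1, e.2.1, e.2.1⟩, (l₁ x y e.1).2, e.2.2, e.2.2⟩,
      fun x y e e' => l₂ x y e.1 e'.1, fun x y z e e' => ⟨l₃ x y z e.1 e'.1, e.2.1, e'.2.2⟩,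
      fun x y e e' => (l₄ x y e.1 e'.1).imp (fun u => ⟨u, e.2.1, e'.2.1⟩)
        fun u => ⟨u, e'.2.1, e.2.1⟩⟩
  · intro hb
    by_contra hn
    obtain ⟨x, y, z, hx, hy, hz, e⟩ := H.nlin X h₁ (not_lin_iff.1 hn)
    refine not_lin_iff.2 ⟨x, y, z, ?_⟩ hb
    simpa only [NL, H.app_int h, hx, hy, hz, and_true] using e

/-- The trace of a cofinal set in the hull is cofinal in the trace. -/
theorem HC.th2_cofinal (H : HC g α k Y π m a) {X Xb S Sb : g.M} (h₁ : g.E X Y) (h₂ : g.E S Y)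
    (h : IsInt g.E Xb X Y) (h' : IsInt g.E Sb S Y) (hS : Cofinal g.E S X) :
    Cofinal g.E Sb Xb := by
  refine ⟨fun s hs => ?_, fun x hx => ?_⟩
  · obtain ⟨s₁, s₂⟩ := (h' s).1 hs
    exact (H.app_int h _ _).2 ⟨hS.1 s s₁, s₂, s₂⟩
  · obtain ⟨x₁, x₂, -⟩ := (H.app_int h _ _).1 hx
    obtain ⟨s, s₁, s₂, s₃⟩ := H.up X S x h₁ h₂ x₂ (hS.2 x x₁)
    exact ⟨s, (h' s).2 ⟨s₂, s₁⟩, (H.app_int h _ _).2 ⟨s₃, x₂, s₁⟩⟩

theorem HC.th2_low (H : HC g α k Y π m a) {X Xb l S f : g.M} (h₁ : g.E X Y)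
    (h : IsInt g.E Xb X Y) (hl : g.E l Y) (hf : g.E f Y) (hc : Cof g.E X l)
    (hS : Cofinal g.E S X) (hb : Bij g.E f S l) (hk : g.E l k) : Cof g.E Xb l := by
  have sS : Sub g.E S Y := fun x hx => by
    obtain ⟨b, b₁, b₂⟩ := fun_ex hb.1.1 hx
    obtain ⟨x', x₁, x₂⟩ := H.inv f b hf (H.sub_of_lt hl hk b b₁) ⟨x, b₂⟩
    exact hb.1.2 _ _ _ x₂ b₂ ▸ x₁
  refine ⟨(H.th2_lin h₁ h).1 hc.1, hc.2.1, ⟨S, f, ⟨fun s hs => ?_, fun x hx => ?_⟩, hb⟩,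
    fun S' hS' => hc.2.2.2 S' ⟨fun s hs => ((H.app_int h _ _).1 (hS'.1 s hs)).1, fun x hx => ?_⟩⟩
  · exact (H.app_int h _ _).2 ⟨hS.1 s hs, sS s hs, sS s hs⟩
  · obtain ⟨x₁, x₂, -⟩ := (H.app_int h _ _).1 hx
    obtain ⟨s, s₁, s₂⟩ := hS.2 x x₁
    exact ⟨s, s₁, (H.app_int h _ _).2 ⟨s₂, x₂, sS s s₁⟩⟩
  · obtain ⟨s, s₁, s₂⟩ := hS.2 x hx
    obtain ⟨s', t₁, t₂⟩ := hS'.2 s ((H.app_int h _ _).2 ⟨hS.1 s s₁, sS s s₁, sS s s₁⟩)
    exact ⟨s', t₁, hc.1.2.2.1 _ _ _ s₂ ((H.app_int h _ _).1 t₂).1⟩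

theorem HC.th2_high (H : HC g α k Y π m a) {X Xb l lb S f : g.M} (h₁ : g.E X Y)
    (h : IsInt g.E Xb X Y) (hl : g.E l Y) (hSY : g.E S Y) (hf : g.E f Y) (hc : Cof g.E X l)
    (hS : Cofinal g.E S X) (hb : Bij g.E f S l) (hh : HullAt g.E k Y π l lb) (hk : g.E k l) :
    Cof g.E Xb lb := by
  have lo : IsOrd g.E l := hc.2.1.1
  have li : Inf g.E l := (inf_iff lo).2 (Or.inl (lt_lt lo H.om_k hk))
  have rb : IsReg g.E lb := by
    rcases hh.2.2.2.2.2 hk hc.2.1 with e | e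
    · exact e.2.2.1
    · exact absurd (cof_reg hc li) e.1
  obtain ⟨Sb, hSb⟩ := exists_int S Y
  have cb := H.th2_cofinal h₁ hSY h hSb hS
  obtain ⟨fb, hfb⟩ := H.bar_eqC hf hl lo hb hh hSb
  refine ⟨(H.th2_lin h₁ h).1 hc.1, rb.1, ⟨Sb, fb, cb, hfb⟩, fun S' hS' => ?_⟩
  obtain ⟨F, F₁, F₂⟩ := exists_fun (A := S') (B := lb)
    (Q := fun s' z => ∃ j s, g.E j Y ∧ App g.E π j z ∧ App g.E f s j ∧ App g.E X s' s)
    (by fun_prop) fun s' hs' => by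
      obtain ⟨s, s₁, s₂⟩ := cb.2 s' (hS'.1 s' hs')
      obtain ⟨s₃, s₄⟩ := (hSb s).1 s₁
      obtain ⟨b, -, b₂⟩ := fun_ex hb.1.1 s₃
      obtain ⟨j, j₁, j₂⟩ := H.app f s hf s₄ ⟨b, b₂⟩
      have j₃ := (fun_mem hb.1.1 j₂).2
      obtain ⟨z, hz⟩ := H.th_at j₁ (isOrd_of_E lo j₃)
      exact ⟨z, (hh.2.2.1 z).2 ⟨j, j₁, j₃, hz.1⟩, j, s, j₁, hz.1, j₂, ((H.app_int h _ _).1 s₂).1⟩
  obtain ⟨C, hC⟩ := tm_sep (Q := fun z => ∃ s', App g.E F s' z) (by fun_prop) lb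
  have e₁ : LeC g.E lb C := rb.2.2 C (fun z hz => ((hC z).1 hz).1) fun z₀ hz₀ => by
    obtain ⟨i, i₁, i₂, i₃⟩ := (hh.2.2.1 z₀).1 hz₀
    obtain ⟨x, x₁, x₂, x₃⟩ := H.above X f i h₁ hf i₁ (cof_above hc li hS hb i₂)
    obtain ⟨s', t₁, t₂⟩ := hS'.2 x ((H.app_int h _ _).2 ⟨x₂, x₁, x₁⟩)
    obtain ⟨z, z₁, z₂⟩ := fun_ex F₁ t₁
    obtain ⟨j, s, j₁, j₂, j₃, j₄⟩ := F₂ _ _ z₂
    have jo : IsOrd g.E j := isOrd_of_E lo (fun_mem hb.1.1 j₃).2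
    have ij : g.E i j := lt_of_not_leq (isOrd_of_E lo i₂) jo fun e =>
      x₃ s j j₃ e (hc.1.2.2.1 _ _ _ ((H.app_int h _ _).1 t₂).1 j₄)
    obtain ⟨y, hy⟩ := H.th_at j₁ jo
    have e : y = z := H.th_fnl _ _ _ hy.1 j₂
    subst e
    exact ⟨y, (hC y).2 ⟨z₁, s', z₂⟩, Or.inl ((hy.2.2.1 z₀).2 ⟨i, i₁, ij, i₃⟩)⟩
  have e₂ : LeC g.E C S' := leC_of_onto (Q := fun s' z => App g.E F s' z) (by fun_prop)
    (fun z hz => by
      obtain ⟨s', hs'⟩ := ((hC z).1 hz).2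
      exact ⟨s', (fun_mem F₁ hs').1, hs'⟩) fun _ _ _ u u' => fun_uniq F₁ u u'
  exact leC_trans e₁ e₂

theorem HC.th2_mid (H : HC g α k Y π m a) {X Xb l S f : g.M} (h₁ : g.E X Y)
    (h : IsInt g.E Xb X Y) (hSY : g.E S Y) (hf : g.E f Y) (hc : Cof g.E X k)
    (hS : Cofinal g.E S X) (hb : Bij g.E f S k) (hl : Cof g.E Xb l) : LeC g.E l g.om := by
  have ki : Inf g.E k := H.k_ge.reg.2.1
  obtain ⟨u, u₁, u₂⟩ := H.hull.2.2.2.2.2.2.2.1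
  have key : ∀ i, g.E i Y → g.E i k → ∃ x, g.E x Y ∧ App g.E X x x ∧
      ∀ s j, App g.E f s j → Leq g.E j i → ¬ App g.E X x s := fun i i₁ i₂ =>
    H.above X f i h₁ hf i₁ (cof_above hc ki hS hb i₂)
  obtain ⟨F, F₁, F₂⟩ := exists_fun (A := g.om) (B := Y)
    (Q := fun n x => App g.E X x x ∧ ∀ i s j, App g.E u n i → g.E i m → App g.E f s j →
      Leq g.E j i → ¬ App g.E X x s) (by fun_prop) fun n _ => by
      by_cases e : ∃ i, App g.E u n i ∧ g.E i m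
      · obtain ⟨i, i₁, i₂⟩ := e
        obtain ⟨x, x₁, x₂, x₃⟩ := key i ((H.th_m i).1 i₂).1 ((H.th_m i).1 i₂).2
        refine ⟨x, x₁, x₂, fun i' s j k₁ _ k₃ k₄ => x₃ s j k₃ ?_⟩
        exact u₁ _ _ _ k₁ i₁ ▸ k₄
      · obtain ⟨x, x₁, x₂, -⟩ := key (g.nat 0) (H.nat_mem 0) (lt_lt H.th_kord (nat_om 0) H.om_k)
        exact ⟨x, x₁, x₂, fun i s j k₁ k₂ => absurd ⟨i, k₁, k₂⟩ e⟩
  obtain ⟨T, hT⟩ := tm_sep (Q := fun x => ∃ n, App g.E F n x) (by fun_prop) Y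
  have e₁ : LeC g.E l T := hl.2.2.2 T ⟨fun x hx => ?_, fun x hx => ?_⟩
  · exact leC_trans e₁ (leC_of_onto (Q := fun n x => App g.E F n x) (by fun_prop)
      (fun x hx => by
        obtain ⟨n, hn⟩ := ((hT x).1 hx).2
        exact ⟨n, (fun_mem F₁ hn).1, hn⟩) fun _ _ _ v v' => fun_uniq F₁ v v')
  · obtain ⟨x₁, n, hn⟩ := (hT x).1 hx
    exact (H.app_int h _ _).2 ⟨(F₂ _ _ hn).1, x₁, x₁⟩
  · obtain ⟨x₁, x₂, -⟩ := (H.app_int h _ _).1 hx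
    obtain ⟨s, s₁, s₂, s₃⟩ := H.up X S x h₁ hSY x₂ (hS.2 x x₁)
    obtain ⟨b, -, b₂⟩ := fun_ex hb.1.1 s₂
    obtain ⟨j, j₁, j₂⟩ := H.app f s hf s₁ ⟨b, b₂⟩
    obtain ⟨n, i, n₁, i₁, i₂, i₃⟩ := u₂ j ((H.th_m j).2 ⟨j₁, (fun_mem hb.1.1 j₂).2⟩)
    obtain ⟨y, y₁, y₂⟩ := fun_ex F₁ n₁
    have y₃ := F₂ _ _ y₂
    have y₄ : App g.E X s y :=
      (hc.1.2.2.2 s y (hS.1 s s₂) y₃.1).resolve_right (y₃.2 i s j i₂ i₁ j₂ i₃)
    exact ⟨y, (hT y).2 ⟨y₁, n, y₂⟩, (H.app_int h _ _).2 ⟨hc.1.2.2.1 _ _ _ s₃ y₄, x₂, y₁⟩⟩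

/-- The cofinality of the trace of a linear order in the hull. -/
theorem HC.th2_cof (H : HC g α k Y π m a) {X Xb : g.M} (h₁ : g.E X Y) (h : IsInt g.E Xb X Y)
    (hX : Lin g.E X) : ∃ l lb, g.E l Y ∧ Cof g.E X l ∧ HullAt g.E k Y π l lb ∧
      (l ≠ k → Cof g.E Xb lb) ∧ (l = k → ∀ l', Cof g.E Xb l' → LeC g.E l' g.om) := by
  obtain ⟨l, S, f, k₁, k₂, k₃, k₄, k₅, k₆⟩ := H.cofw X h₁ hX
  obtain ⟨lb, hb⟩ := H.th_at k₁ k₄.2.1.1
  refine ⟨l, lb, k₁, k₄, hb, fun e => ?_, fun e l' hl' => ?_⟩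
  · rcases ord_tri k₄.2.1.1 H.th_kord with e' | e' | e'
    · rw [hb.2.2.2.1 e']
      exact H.th2_low h₁ h k₁ k₃ k₄ k₅ k₆ e'
    · exact absurd e' e
    · exact H.th2_high h₁ h k₁ k₂ k₃ k₄ k₅ k₆ hb e'
  · subst e
    exact H.th2_mid h₁ h k₂ k₃ k₄ k₅ k₆ hl'

theorem HC.qq_bar (H : HC g α k Y π m a) {X X' Z Xb Xb' Zb : g.M} (h₁ : g.E X Y)
    (h₂ : g.E X' Y) (h₃ : g.E Z Y) (h₄ : IsInt g.E Xb X Y) (h₅ : IsInt g.E Xb' X' Y)
    (h₆ : IsInt g.E Zb Z Y) : QQ g.E α X X' Z ↔ QQ g.E α Xb Xb' Zb := by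
  rw [qq_iff H.a_rep, qq_iff H.a_rep]
  constructor
  · rintro ⟨l₀, c₁, c₂, d, j₂, j₃, j₄⟩
    obtain ⟨δ, hδ, rd⟩ := rep_mem H.a_rep j₂
    have r := (regAtI_iff rd).1 j₄
    obtain ⟨l, lb, k₁, k₂, k₃, k₄, -⟩ := H.th2_cof h₁ h₄ c₁.1
    obtain ⟨l', lb', n₁, n₂, n₃, n₄, -⟩ := H.th2_cof h₂ h₅ c₂.1
    obtain rfl : l₀ = l := cof_uniq c₁ k₂
    obtain rfl : l₀ = l' := cof_uniq c₂ n₂
    obtain rfl : lb = lb' := H.th_fnl _ _ _ k₃.1 n₃.1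
    have ne : l₀ ≠ k := fun e => ((regGe_def _ _ _).1 H.k_ge).2 δ hδ (e ▸ r)
    exact ⟨lb, k₄ ne, n₄ ne, d, j₂, (H.otpI_bar h₃ h₆ j₂).1 j₃,
      (regAtI_iff rd).2 ((H.regAt_bar k₁ c₁.2.1 k₃ hδ).1 r)⟩
  · rintro ⟨l₀, c₁, c₂, d, j₂, j₃, j₄⟩
    obtain ⟨δ, hδ, rd⟩ := rep_mem H.a_rep j₂
    have r := (regAtI_iff rd).1 j₄
    have no : ¬ LeC g.E l₀ g.om := fun e =>
      not_lt_of_leq (card_leq c₁.2.1 isOrd_om e) (RegAt.om_lt r)
    obtain ⟨l, lb, k₁, k₂, k₃, k₄, k₅⟩ := H.th2_cof h₁ h₄ ((H.th2_lin h₁ h₄).2 c₁.1)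
    obtain ⟨l', lb', n₁, n₂, n₃, n₄, n₅⟩ := H.th2_cof h₂ h₅ ((H.th2_lin h₂ h₅).2 c₂.1)
    obtain rfl : l₀ = lb := cof_uniq c₁ (k₄ fun e => no (k₅ e _ c₁))
    obtain rfl : l₀ = lb' := cof_uniq c₂ (n₄ fun e => no (n₅ e _ c₂))
    obtain rfl : l = l' := H.bar_inj k₁ n₁ k₂.2.1.1 n₂.2.1.1 k₃.1 n₃.1
    exact ⟨l, k₂, n₂, d, j₂, (H.otpI_bar h₃ h₆ j₂).2 j₃,
      (regAtI_iff rd).2 ((H.regAt_bar k₁ k₂.2.1 k₃ hδ).2 r)⟩

end Gen

end Pool.Agent.MP_85ce7b_lc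

end

section

namespace Pool.Agent.MP_85ce7b_lc

open Pool.Agent.MP_c6cf52_lc

namespace Gen

variable {P : Type 2} [Sz P] [Preorder P] [OrderTop P] [Tame P] {g : Gen P}

variable {α γ : Ordinal.{1}} {k s : g.M}

theorem Facts.k_ge (F : g.Facts α γ k s) : RegGe g.E α k := by
  refine regGe_iff.2 ⟨?_, Or.inr F.top⟩
  by_contra h
  obtain ⟨c, f, h₁, h₂, h₃⟩ := cof_of_not_reg F.k_ord
    ((inf_iff F.k_ord).2 (Or.inl (lt_lt F.k_ord F.om_s F.s_k))) h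
  obtain ⟨Y, π, m, ⟨-, -, k₁, k₂, -⟩, k₃, k₄⟩ := F.core (fun i y => App g.E f i y) (by fun_prop) c h₁
  obtain ⟨i, y, e₁, e₂, e₃, e₄⟩ := h₃ m k₁
  obtain ⟨y', e₅, e₆⟩ := k₄ i (k₃ i e₁) ⟨y, e₃⟩
  exact not_lt_of_leq e₄ ((k₂ y).2 ⟨h₂ _ _ _ e₆ e₃ ▸ e₅, e₂⟩)

theorem exists_joint (L : List (g.M → g.M → g.M → g.M → Prop))
    (hL : ∀ Θ ∈ L, g.Tm (fun z : g.M × g.M × g.M × g.M => Θ z.1 z.2.1 z.2.2.1 z.2.2.2)) :
    ∃ Ψ : ℕ → g.M × g.M × g.M × g.M → Prop,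
      g.Tm (fun z : ℕ × (g.M × g.M × g.M × g.M) => Ψ z.1 z.2) ∧
      ∀ Θ ∈ L, ∃ n, ∀ a b c y, Ψ n (a, b, c, y) ↔ Θ a b c y := by
  induction L with
  | nil => exact ⟨fun _ _ => True, by fun_prop, by simp⟩
  | cons Θ L ih =>
    obtain ⟨Ψ, h₁, h₂⟩ := ih fun Θ' h => hL Θ' (List.mem_cons_of_mem _ h)
    have h₀ := hL Θ List.mem_cons_self
    refine ⟨fun n z => (n = 0 ∧ Θ z.1 z.2.1 z.2.2.1 z.2.2.2) ∨ ∃ j, n = Nat.succ j ∧ Ψ j z,
      tm_or (tm_and (by fun_prop) (h₀.comp tm_id.snd)) (tm_ex (tm_and (by fun_prop)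
        (h₁.comp₂ (F := Ψ) tm_id.snd tm_id.fst.snd))), fun Θ' h => ?_⟩
    rcases List.mem_cons.1 h with rfl | h
    · exact ⟨0, fun a b c y => by simp⟩
    · obtain ⟨n, hn⟩ := h₂ Θ' h
      exact ⟨n + 1, fun a b c y => by simp [hn]⟩

theorem Facts.core_list (F : g.Facts α γ k s) (L : List (g.M → g.M → g.M → g.M → Prop))
    (hL : ∀ Θ ∈ L, g.Tm (fun z : g.M × g.M × g.M × g.M => Θ z.1 z.2.1 z.2.2.1 z.2.2.2))
    {ξ : g.M} (hξ : g.E ξ k) :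
    ∃ Y π m, Hull g.E k g.om Y π m ∧ Sub g.E ξ Y ∧ Sub g.E s Y ∧ ∀ Θ ∈ L, Cl3 g.E Y Θ := by
  obtain ⟨Ψ, h₁, h₂⟩ := exists_joint L hL
  have hs := isOrd_of_E F.k_ord F.s_k
  obtain ⟨η, e₁, e₂, e₃⟩ : ∃ η, g.E η k ∧ Sub g.E ξ η ∧ Sub g.E s η := by
    by_cases h : g.E s ξ
    · exact ⟨ξ, hξ, fun _ h => h, sub_of_leq (isOrd_of_E F.k_ord hξ) (Or.inl h)⟩
    · exact ⟨s, F.s_k, sub_of_leq hs (leq_of_not_lt (isOrd_of_E F.k_ord hξ) hs h), fun _ h => h⟩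
  obtain ⟨Y, π, m, H, k₁, k₂⟩ := F.core (fun p y => ∃ (n : ℕ) (a b c : g.M),
    p = pr (g.nat n) (pr a (pr b c)) ∧ Ψ n (a, b, c, y))
    (tm_ex (tm_ex (tm_ex (tm_ex (tm_and (by fun_prop) (h₁.comp₂ (F := Ψ) (by fun_prop)
      (by fun_prop))))))) η e₁
  refine ⟨Y, π, m, H, fun x hx => k₁ x (e₂ x hx), fun x hx => k₁ x (e₃ x hx), fun Θ h => ?_⟩
  obtain ⟨n, hn⟩ := h₂ Θ h
  rintro a b c ha hb hc ⟨y, hy⟩
  have hp := fun a b ha hb => H.2.2.2.2.2.2.1 a b (pr a b) ha hb (isPair_pr a b)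
  obtain ⟨y', k₃, n', a', b', c', e, k₄⟩ := k₂ _ (hp _ _ (k₁ _ (e₃ _ (lt_lt hs (nat_om n) F.om_s)))
    (hp _ _ ha (hp _ _ hb hc))) ⟨y, n, a, b, c, rfl, (hn _ _ _ _).2 hy⟩
  simp only [pr_inj, nat_inj.eq_iff] at e
  obtain ⟨rfl, rfl, rfl, rfl⟩ := e
  exact ⟨y', k₃, (hn _ _ _ _).1 k₄⟩

theorem exists_fld (Z : g.M) : ∃ F, ∀ x, g.E x F ↔ ∃ y, App g.E Z x y ∨ App g.E Z y x := by
  obtain ⟨U, hU⟩ := exists_union Z
  obtain ⟨V, hV⟩ := exists_union U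
  obtain ⟨F, hF⟩ := tm_sep (Q := fun x => ∃ y, App g.E Z x y ∨ App g.E Z y x) (by fun_prop) V
  refine ⟨F, fun x => (hF x).trans (and_iff_right_of_imp ?_)⟩
  have k : ∀ a b, App g.E Z a b → g.E a V ∧ g.E b V := fun a b h => by
    obtain ⟨u, hu⟩ := exists_upair a b
    have := (hU u).2 ⟨_, (isPair_pr a b u).2 (Or.inr hu), app_iff.1 h⟩
    exact ⟨(hV a).2 ⟨u, (hu a).2 (Or.inl rfl), this⟩, (hV b).2 ⟨u, (hu b).2 (Or.inr rfl), this⟩⟩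
  rintro ⟨y, h | h⟩
  exacts [(k _ _ h).1, (k _ _ h).2]

theorem Facts.exists_hc (F : g.Facts α γ k s) (L : List (g.M → g.M → g.M → g.M → Prop))
    (hL : ∀ Θ ∈ L, g.Tm (fun z : g.M × g.M × g.M × g.M => Θ z.1 z.2.1 z.2.2.1 z.2.2.2))
    {ξ : g.M} (hξ : g.E ξ k) :
    ∃ Y π m a, HC g α k Y π m a ∧ Sub g.E ξ Y ∧ ∀ Θ ∈ L, Cl3 g.E Y Θ := by
  obtain ⟨a, ha, ha'⟩ := F.al
  have hs := isOrd_of_E F.k_ord F.s_k
  obtain ⟨Y, π, m, H, k₁, k₂, k₃⟩ := F.core_list (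
    (fun p _ _ x => ∃ y, p = pr x y) :: (fun p _ _ y => ∃ x, p = pr x y) ::
    (fun f x _ y => App g.E f x y) :: (fun f y _ x => App g.E f x y) ::
    (fun X _ _ p => ∃ l f, p = pr l f ∧ IsCard g.E l ∧ Bij g.E f X l) ::
    (fun X _ _ p => ∃ l S f, p = pr l (pr S f) ∧ Cof g.E X l ∧ Cofinal g.E S X ∧ Bij g.E f S l) ::
    (fun X _ _ p => ∃ x y z, p = pr x (pr y z) ∧ NL g.E X x y z) ::
    (fun X S x s => g.E s S ∧ App g.E X x s) ::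
    (fun X f i x => App g.E X x x ∧ ∀ s j, App g.E f s j → Leq g.E j i → ¬ App g.E X x s) ::
    (fun Z _ _ F => ∀ x, g.E x F ↔ ∃ y, App g.E Z x y ∨ App g.E Z y x) :: L) (by
      simp only [List.forall_mem_cons, NL]
      refine ⟨?_, ?_, ?_, ?_, ?_, ?_, ?_, ?_, ?_, ?_, hL⟩ <;> fun_prop) hξ
  simp only [List.forall_mem_cons] at k₃
  obtain ⟨c₁, c₂, c₃, c₄, c₅, c₆, c₇, c₈, c₉, c₁₀, k₃⟩ := k₃
  have fst : ∀ x y, g.E (pr x y) Y → g.E x Y := fun x y h => by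
    obtain ⟨x', e₁, y', e₂⟩ := c₁ _ _ _ h h h ⟨x, y, rfl⟩
    exact (pr_inj.1 e₂).1 ▸ e₁
  have snd : ∀ x y, g.E (pr x y) Y → g.E y Y := fun x y h => by
    obtain ⟨y', e₁, x', e₂⟩ := c₂ _ _ _ h h h ⟨y, x, rfl⟩
    exact (pr_inj.1 e₂).2 ▸ e₁
  refine ⟨Y, π, m, a, ⟨H, F.k_ge, lt_lt F.k_ord F.om_s F.s_k, k₂ _ F.om_s,
    ⟨isOrd_of_E hs ha, ha'⟩, lt_lt F.k_ord ha F.s_k, k₂ _ ha, fst, snd,
    fun f x h h' => c₃ f x x h h' h', fun f x h h' => c₄ f x x h h' h', fun X h => ?_,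
    fun X h h' => ?_, fun X h ⟨x, y, z, h'⟩ => ?_, c₈, c₉,
    fun Z h => c₁₀ Z Z Z h h h (exists_fld Z)⟩, k₁, k₃⟩
  · obtain ⟨l, e₁, f, e₂⟩ := exists_card X
    obtain ⟨_, e₃, l, f, rfl, e₄⟩ := c₅ X X X h h h ⟨_, l, f, rfl, e₁, e₂⟩
    exact ⟨l, f, fst _ _ e₃, snd _ _ e₃, e₄⟩
  · obtain ⟨l, e₁⟩ := exists_cof h'
    obtain ⟨S, f, e₂⟩ := e₁.2.2.1
    obtain ⟨_, e₃, l, S, f, rfl, e₄⟩ := c₆ X X X h h h ⟨_, l, S, f, rfl, e₁, e₂⟩
    exact ⟨l, S, f, fst _ _ e₃, fst _ _ (snd _ _ e₃), snd _ _ (snd _ _ e₃), e₄⟩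
  · obtain ⟨_, e₃, x, y, z, rfl, e₄⟩ := c₇ X X X h h h ⟨_, x, y, z, rfl, h'⟩
    exact ⟨x, y, z, fst _ _ e₃, fst _ _ (snd _ _ e₃), snd _ _ (snd _ _ e₃), e₄⟩

end Gen

end Pool.Agent.MP_85ce7b_lc

end

section

namespace Pool.Agent.MP_85ce7b_lc

open Pool.Agent.MP_c6cf52_lc

theorem ttr_cons {M : Type*} {n m : ℕ} {v v' : ℕ → M} (h : ∀ i < n, v i = v' i) (hm : m ≤ n)
    (x : M) : ∀ i < m, cons x v i = cons x v' i
  | 0, _ => rfl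
  | i + 1, _ => h i (by omega)

/-- Truth depends on finitely many variables. -/
theorem ttr_bound {M : Type*} (E : M → M → Prop) (α : Ordinal.{1}) (J : M) (φ : Fm M) :
    ∃ n, ∀ (A : M) (v v' : ℕ → M), (∀ i < n, v i = v' i) →
      (Tr E α A J φ v ↔ Tr E α A J φ v') := by
  induction φ with
  | rel r l =>
    refine ⟨l.sum + 1, fun A v v' h => ?_⟩
    have : l.map v = l.map v' :=
      List.map_congr_left fun i hi => h i (Nat.lt_succ_of_le (List.le_sum_of_mem hi))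
    simp only [Tr, this]
  | eq i j =>
    exact ⟨max i j + 1, fun A v v' h => by simp only [Tr, h i (by omega), h j (by omega)]⟩
  | bot => exact ⟨0, fun _ _ _ _ => Iff.rfl⟩
  | imp φ ψ ih₁ ih₂ =>
    obtain ⟨n, h₁⟩ := ih₁
    obtain ⟨m, h₂⟩ := ih₂
    exact ⟨max n m, fun A v v' h => imp_congr (h₁ A v v' fun k hk => h k (by omega))
      (h₂ A v v' fun k hk => h k (by omega))⟩
  | all φ ih =>
    obtain ⟨n, h₁⟩ := ih
    exact ⟨n, fun A v v' h => forall_congr' fun x => imp_congr_right fun _ =>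
      h₁ A _ _ (ttr_cons h le_rfl x)⟩
  | I φ ψ ih₁ ih₂ =>
    obtain ⟨n, h₁⟩ := ih₁
    obtain ⟨m, h₂⟩ := ih₂
    refine ⟨max n m, fun A v v' h => ?_⟩
    have e₁ := funext fun x => propext (h₁ A _ _ (ttr_cons h (le_max_left _ _) x))
    have e₂ := funext fun x => propext (h₂ A _ _ (ttr_cons h (le_max_right _ _) x))
    unfold Tr
    rw [e₁, e₂]
  | Q φ ψ χ ih₁ ih₂ ih₃ =>
    obtain ⟨n, h₁⟩ := ih₁
    obtain ⟨m, h₂⟩ := ih₂
    obtain ⟨l, h₃⟩ := ih₃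
    refine ⟨n + m + l, fun A v v' h => ?_⟩
    have e₁ := funext fun x => funext fun y =>
      propext (h₁ A _ _ (ttr_cons (ttr_cons h le_rfl x) (by omega) y))
    have e₂ := funext fun x => funext fun y =>
      propext (h₂ A _ _ (ttr_cons (ttr_cons h le_rfl x) (by omega) y))
    have e₃ := funext fun x => funext fun y =>
      propext (h₃ A _ _ (ttr_cons (ttr_cons h le_rfl x) (by omega) y))
    unfold Tr
    rw [e₁, e₂, e₃]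
  | R φ χ ih₁ ih₃ =>
    obtain ⟨n, h₁⟩ := ih₁
    obtain ⟨l, h₃⟩ := ih₃
    refine ⟨n + l, fun A v v' h => ?_⟩
    have e₁ := funext fun x => propext (h₁ A _ _ (ttr_cons h (by omega) x))
    have e₃ := funext fun x => funext fun y =>
      propext (h₃ A _ _ (ttr_cons (ttr_cons h le_rfl x) (by omega) y))
    unfold Tr
    rw [e₁, e₃]

theorem ttr_I {M : Type*} {E : M → M → Prop} {α : Ordinal.{1}} {A J : M} {φ ψ : Fm M}
    {v : ℕ → M} : Tr E α A J (.I φ ψ) v ↔ ∃ X Y, Ext1 E A (fun x => Tr E α A J φ (cons x v)) X ∧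
      Ext1 E A (fun x => Tr E α A J ψ (cons x v)) Y ∧ EqC E X Y :=
  ⟨fun ⟨X, Y, f, h₁, h₂, h₃⟩ => ⟨X, Y, h₁, h₂, f, h₃⟩,
    fun ⟨X, Y, h₁, h₂, f, h₃⟩ => ⟨X, Y, f, h₁, h₂, h₃⟩⟩

theorem ttr_Q {M : Type*} {E : M → M → Prop} {α : Ordinal.{1}} {A J : M} {φ ψ χ : Fm M}
    {v : ℕ → M} : Tr E α A J (.Q φ ψ χ) v ↔
      ∃ X Y Z, Ext2 E A (fun x y => Tr E α A J φ (cons y (cons x v))) X ∧
        Ext2 E A (fun x y => Tr E α A J ψ (cons y (cons x v))) Y ∧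
        Ext2 E A (fun x y => Tr E α A J χ (cons y (cons x v))) Z ∧ QQ E α X Y Z :=
  ⟨fun ⟨X, Y, Z, l, δ, h, h₁, h₂, h₃, h₄⟩ => ⟨X, Y, Z, h₁, h₂, h₃, l, δ, h, h₄⟩,
    fun ⟨X, Y, Z, h₁, h₂, h₃, l, δ, h, h₄⟩ => ⟨X, Y, Z, l, δ, h, h₁, h₂, h₃, h₄⟩⟩

theorem ttr_R {M : Type*} {E : M → M → Prop} {α : Ordinal.{1}} {A J : M} {φ χ : Fm M}
    {v : ℕ → M} : Tr E α A J (.R φ χ) v ↔
      ∃ X Z, Ext1 E A (fun x => Tr E α A J φ (cons x v)) X ∧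
        Ext2 E A (fun x y => Tr E α A J χ (cons y (cons x v))) Z ∧ RR E α X Z :=
  ⟨fun ⟨X, Z, l, f, δ, h, h₁, h₂, h₃, h₄⟩ => ⟨X, Z, h₁, h₂, l, δ, h, ⟨f, h₃⟩, h₄⟩,
    fun ⟨X, Z, h₁, h₂, l, δ, h, ⟨f, h₃⟩, h₄⟩ => ⟨X, Z, l, f, δ, h, h₁, h₂, h₃, h₄⟩⟩

theorem ttr_ext1 {M : Type*} {E : M → M → Prop} {A X : M} {Φ Ψ : M → Prop}
    (h : ∀ x, E x A → (Φ x ↔ Ψ x)) : Ext1 E A Φ X ↔ Ext1 E A Ψ X :=
  forall_congr' fun x => iff_congr Iff.rfl (and_congr_right (h x))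

theorem ttr_ext2 {M : Type*} {E : M → M → Prop} {A X : M} {Φ Ψ : M → M → Prop}
    (h : ∀ x y, E x A → E y A → (Φ x y ↔ Ψ x y)) : Ext2 E A Φ X ↔ Ext2 E A Ψ X :=
  forall_congr' fun _ => iff_congr Iff.rfl (exists_congr fun x => exists_congr fun y =>
    and_congr_right fun hx => and_congr_right fun hy => and_congr_right fun _ => h x y hx hy)

namespace Gen

variable {P : Type 2} [Sz P] [Preorder P] [OrderTop P] [Tame P] {g : Gen P}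

theorem ttr_fst : ∃ f : g.M → g.M, g.Tm f ∧ ∀ x y, f (pr x y) = x := by
  classical
  refine ⟨fun p => if h : ∃ x y, p = pr x y then h.choose else p, tm_of_rel
    (Q := fun p z => (∃ y, p = pr z y) ∨ ((¬ ∃ x y, p = pr x y) ∧ z = p)) (by fun_prop) ?_, ?_⟩
  · intro p z
    by_cases h : ∃ x y, p = pr x y
    · obtain ⟨y, hy⟩ := h.choose_spec
      rw [dif_pos h]
      exact ⟨fun h' => h'.elim (fun ⟨_, e⟩ => (pr_inj.1 (e.symm.trans hy)).1) fun e => (e.1 h).elim,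
        fun e => Or.inl ⟨y, e ▸ hy⟩⟩
    · rw [dif_neg h]
      exact ⟨fun h' => h'.elim (fun ⟨y, e⟩ => (h ⟨z, y, e⟩).elim) fun e => e.2,
        fun e => Or.inr ⟨h, e⟩⟩
  · intro x y
    have h : ∃ x' y', pr x y = pr x' y' := ⟨x, y, rfl⟩
    obtain ⟨y', hy⟩ := h.choose_spec
    simp only [dif_pos h]
    exact (pr_inj.1 hy).1.symm

theorem ttr_snd : ∃ f : g.M → g.M, g.Tm f ∧ ∀ x y, f (pr x y) = y := by
  classical
  refine ⟨fun p => if h : ∃ y x, p = pr x y then h.choose else p, tm_of_rel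
    (Q := fun p z => (∃ x, p = pr x z) ∨ ((¬ ∃ y x, p = pr x y) ∧ z = p)) (by fun_prop) ?_, ?_⟩
  · intro p z
    by_cases h : ∃ y x, p = pr x y
    · obtain ⟨y, hy⟩ := h.choose_spec
      rw [dif_pos h]
      exact ⟨fun h' => h'.elim (fun ⟨_, e⟩ => (pr_inj.1 (e.symm.trans hy)).2) fun e => (e.1 h).elim,
        fun e => Or.inl ⟨y, e ▸ hy⟩⟩
    · rw [dif_neg h]
      exact ⟨fun h' => h'.elim (fun ⟨y, e⟩ => (h ⟨z, y, e⟩).elim) fun e => e.2,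
        fun e => Or.inr ⟨h, e⟩⟩
  · intro x y
    have h : ∃ y' x', pr x y = pr x' y' := ⟨y, x, rfl⟩
    obtain ⟨y', hy⟩ := h.choose_spec
    simp only [dif_pos h]
    exact (pr_inj.1 hy).2.symm

theorem ttr_exists_dec : ∃ d : g.M → ℕ → g.M, g.Tm (fun z : g.M × ℕ => d z.1 z.2) ∧
    ∀ x t, d (pr x t) = cons x (d t) := by
  obtain ⟨f, hf, h⟩ := ttr_fst (g := g)
  obtain ⟨f', hf', h'⟩ := ttr_snd (g := g)
  refine ⟨fun t n => f (f'^[n] t), hf.comp (tm_iter (F := fun _ => f') (hf'.comp tm_id.snd)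
    tm_id.snd tm_id.fst), fun x t => funext fun n => ?_⟩
  cases n with
  | zero => exact h x t
  | succ n => simp only [Function.iterate_succ_apply, h', cons_succ]

/-- Decoding of nested pairs. -/
noncomputable def ttrD : g.M → ℕ → g.M := ttr_exists_dec.choose

theorem ttrD_pr (x t : g.M) : ttrD (pr x t) = cons x (ttrD t) := ttr_exists_dec.choose_spec.2 x t

/-- `X` is the section of `D` at `t`. -/
def TSec1 (A D t X : g.M) : Prop := Ext1 g.E A (fun x => g.E (pr x t) D) X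

/-- `X` is the binary section of `D` at `t`. -/
def TSec2 (A D t X : g.M) : Prop := Ext2 g.E A (fun x y => g.E (pr y (pr x t)) D) X

section

variable {Γ : Type*} [Cd g Γ] {f h k : Γ → g.M}

@[fun_prop] theorem tm_ttrD {n : Γ → ℕ} (hf : g.Tm f) (hn : g.Tm n) :
    g.Tm (fun x => ttrD (f x) (n x)) :=
  Tm.comp₂ (F := ttrD) ttr_exists_dec.choose_spec.1 hf hn

@[fun_prop] theorem tm_tSec1 (A : g.M) (hf : g.Tm f) (hh : g.Tm h) (hk : g.Tm k) :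
    g.Tm (fun x => TSec1 A (f x) (h x) (k x)) := by
  unfold TSec1 Ext1
  fun_prop

@[fun_prop] theorem tm_tSec2 (A : g.M) (hf : g.Tm f) (hh : g.Tm h) (hk : g.Tm k) :
    g.Tm (fun x => TSec2 A (f x) (h x) (k x)) := by
  unfold TSec2 Ext2
  fun_prop

theorem ttr_tm_qq {α : Ordinal.{1}} {a : g.M} (H : Rep g.E a α) :
    g.Tm (fun z : g.M × g.M × g.M => QQ g.E α z.1 z.2.1 z.2.2) := by
  simp only [qq_iff H]
  fun_prop

theorem ttr_tm_rr {α : Ordinal.{1}} {a : g.M} (H : Rep g.E a α) :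
    g.Tm (fun z : g.M × g.M => RR g.E α z.1 z.2) := by
  simp only [rr_iff H]
  fun_prop

end

theorem ttr_tup (l : List g.M) : ∃ u, ∀ w, Tup g.E l w ↔ w = u := by
  induction l with
  | nil => exact ⟨g.nat 0, fun w => ⟨eq_zero, fun e => e ▸ not_E_zero⟩⟩
  | cons a l ih =>
    obtain ⟨u, hu⟩ := ih
    exact ⟨pr a u, fun w => ⟨fun ⟨s, h₁, h₂⟩ => (hu s).1 h₁ ▸ isPair_iff.1 h₂,
      fun e => ⟨u, (hu u).2 rfl, isPair_iff.2 e⟩⟩⟩

theorem ttr_graph {V : g.M} {Q : g.M → g.M → Prop}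
    (hQ : g.Tm (fun z : g.M × g.M => Q z.1 z.2)) (h : ∀ t, g.E t V → ∃ u, ∀ w, Q t w ↔ w = u) :
    ∃ G, ∀ t, g.E t V → ∀ u, App g.E G t u ↔ Q t u := by
  obtain ⟨G, B, h₁, h₂⟩ := exists_fun' (A := V) hQ fun t ht =>
    (h t ht).imp fun u hu => (hu u).2 rfl
  refine ⟨G, fun t ht u => ⟨h₂ t u, fun hu => ?_⟩⟩
  obtain ⟨w, -, hw⟩ := fun_ex h₁ ht
  obtain ⟨u', h'⟩ := h t ht
  rwa [(h' u).1 hu, ← (h' w).1 (h₂ t w hw)]

theorem Facts.ttr_hc {α γ : Ordinal.{1}} {k s : g.M} (F : g.Facts α γ k s)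
    (L : List (g.M → g.M → g.M → g.M → Prop))
    (hL : ∀ Θ ∈ L, g.Tm (fun z : g.M × g.M × g.M × g.M => Θ z.1 z.2.1 z.2.2.1 z.2.2.2))
    (S : List (g.M → g.M → g.M → Prop))
    (hS : ∀ Φ ∈ S, g.Tm (fun z : g.M × g.M × g.M => Φ z.1 z.2.1 z.2.2))
    {ξ : g.M} (hξ : g.E ξ k) :
    ∃ Y π m a, HC g α k Y π m a ∧ Sub g.E ξ Y ∧ (∀ Θ ∈ L, Cl3 g.E Y Θ) ∧
      ∀ Φ ∈ S, ∀ V b c, g.E V Y → g.E b Y → g.E c Y →
        ∃ D, g.E D Y ∧ ∀ t, g.E t V → (g.E t D ↔ Φ b c t) := by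
  obtain ⟨Y, π, m, a, H, h₁, h₂⟩ := F.exists_hc
    (L ++ S.map fun Φ a b c y => ∀ t, g.E t a → (g.E t y ↔ Φ b c t)) (fun Θ hΘ => by
      rcases List.mem_append.1 hΘ with h | h
      · exact hL Θ h
      · obtain ⟨Φ, hΦ, rfl⟩ := List.mem_map.1 h
        refine tm_all (tm_imp (by fun_prop) (tm_iff (by fun_prop) ?_))
        exact (hS Φ hΦ).comp (f := fun z : (g.M × g.M × g.M × g.M) × g.M =>
          (z.1.2.1, z.1.2.2.1, z.2)) (by fun_prop)) hξ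
  refine ⟨Y, π, m, a, H, h₁, fun Θ h => h₂ Θ (List.mem_append_left _ h),
    fun Φ h V b c hV hb hc => h₂ _ (List.mem_append_right _ (List.mem_map_of_mem h)) V b c hV hb hc ?_⟩
  obtain ⟨D, hD⟩ := tm_sep (Q := Φ b c)
    ((hS Φ h).comp (f := fun t : g.M => (b, c, t)) (by fun_prop)) V
  exact ⟨D, fun t ht => (hD t).trans ⟨fun h => h.2, fun h => ⟨ht, h⟩⟩⟩

end Gen

end Pool.Agent.MP_85ce7b_lc

end

section

namespace Pool.Agent.MP_85ce7b_lc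

open Pool.Agent.MP_c6cf52_lc

namespace Gen

variable {P : Type 2} [Sz P] [Preorder P] [OrderTop P] [Tame P] {g : Gen P}

/-- Operations with witnesses. -/
def ttrL (A f : g.M) : List (g.M → g.M → g.M → g.M → Prop) :=
  [fun a _ _ y => ∀ x t, g.E x A → g.E t a → g.E (pr x t) y,
    fun a _ _ y => g.E a y,
    fun a b _ y => TSec1 A a b y,
    fun a b _ y => TSec2 A a b y,
    fun a _ _ y => g.E y A ∧ ¬ g.E y a,
    fun a _ _ y => App g.E f y a,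
    fun a _ _ y => ∀ t, g.E t a → ∀ u, App g.E y t u ↔ ∀ x, ¬ g.E x u,
    fun a b c y => ∀ t, g.E t a → ∀ u, App g.E y t u ↔
      ∃ i : ℕ, b = g.nat i ∧ ∃ s, App g.E c t s ∧ IsPair g.E u (ttrD t i) s]

/-- Operations given by separation. -/
def ttrS (α : Ordinal.{1}) (A J : g.M) : List (g.M → g.M → g.M → Prop) :=
  [fun b c t => ∃ S u, App g.E J b S ∧ App g.E c t u ∧ g.E u S,
    fun b c t => ∃ i j : ℕ, b = g.nat i ∧ c = g.nat j ∧ ttrD t i = ttrD t j,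
    fun b c t => g.E t b → g.E t c,
    fun b _ t => ∀ x, g.E x A → g.E (pr x t) b,
    fun b c t => ∃ X X', TSec1 A b t X ∧ TSec1 A c t X' ∧ EqC g.E X X',
    fun b c t => ∃ D D', b = pr D D' ∧
      ∃ X X' Z, TSec2 A D t X ∧ TSec2 A D' t X' ∧ TSec2 A c t Z ∧ QQ g.E α X X' Z,
    fun b c t => ∃ X Z, TSec1 A b t X ∧ TSec2 A c t Z ∧ RR g.E α X Z]

theorem ttrL_tm (A f : g.M) : ∀ Θ ∈ ttrL A f,
    g.Tm (fun z : g.M × g.M × g.M × g.M => Θ z.1 z.2.1 z.2.2.1 z.2.2.2) := by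
  simp only [ttrL, List.forall_mem_cons]
  refine ⟨?_, ?_, ?_, ?_, ?_, ?_, ?_, ?_, fun _ h => (List.not_mem_nil h).elim⟩ <;> fun_prop

theorem ttrS_tm {α : Ordinal.{1}} {a : g.M} (H : Rep g.E a α) (A J : g.M) : ∀ Φ ∈ ttrS α A J,
    g.Tm (fun z : g.M × g.M × g.M => Φ z.1 z.2.1 z.2.2) := by
  simp only [ttrS, List.forall_mem_cons, qq_iff H, rr_iff H]
  refine ⟨?_, ?_, ?_, ?_, ?_, ?_, ?_, fun _ h => (List.not_mem_nil h).elim⟩ <;> fun_prop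

section

variable {α : Ordinal.{1}} {k Y π m a A J f : g.M}

theorem ttr_gr (H : HC g α k Y π m a) (hL : ∀ Θ ∈ ttrL A f, Cl3 g.E Y Θ) {V : g.M}
    (hV : g.E V Y) (l : List ℕ) :
    ∃ G, g.E G Y ∧ ∀ t, g.E t V → ∀ u, App g.E G t u ↔ Tup g.E (l.map (ttrD t)) u := by
  simp only [ttrL, List.forall_mem_cons] at hL
  obtain ⟨-, -, -, -, -, -, h₁, h₂, -⟩ := hL
  induction l with
  | nil => exact h₁ V V V hV hV hV (ttr_graph (by fun_prop) fun _ _ => ttr_tup [])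
  | cons i l ih =>
    obtain ⟨G, hG, h⟩ := ih
    have e : ∀ t, g.E t V → ∀ u, (∃ j : ℕ, g.nat i = g.nat j ∧
        ∃ s, App g.E G t s ∧ IsPair g.E u (ttrD t j) s) ↔ Tup g.E ((i :: l).map (ttrD t)) u :=
      fun t ht u => ⟨fun ⟨j, e, s, h₃, h₄⟩ => ⟨s, (h t ht s).1 h₃, nat_inj e ▸ h₄⟩,
        fun ⟨s, h₃, h₄⟩ => ⟨i, rfl, s, (h t ht s).2 h₃, h₄⟩⟩
    obtain ⟨G', hG', h'⟩ := h₂ V _ G hV (H.nat_mem i) hG (ttr_graph (by fun_prop) fun t ht =>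
      (ttr_tup ((i :: l).map (ttrD t))).imp fun u hu w => (e t ht w).trans (hu w))
    exact ⟨G', hG', fun t ht u => (h' t ht u).trans (e t ht u)⟩

theorem ttr_def (H : HC g α k Y π m a) (hL : ∀ Θ ∈ ttrL A f, Cl3 g.E Y Θ)
    (hS : ∀ Φ ∈ ttrS α A J, ∀ V b c, g.E V Y → g.E b Y → g.E c Y →
      ∃ D, g.E D Y ∧ ∀ t, g.E t V → (g.E t D ↔ Φ b c t))
    (hJ : ∀ r S, App g.E J r S → g.E r Y) (φ : Fm g.M) :
    ∀ V, g.E V Y → ∃ D, g.E D Y ∧ ∀ t, g.E t V → (g.E t D ↔ Tr g.E α A J φ (ttrD t)) := by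
  have gr := fun V hV => ttr_gr H hL (V := V) hV
  simp only [ttrL, List.forall_mem_cons] at hL
  simp only [ttrS, List.forall_mem_cons] at hS
  obtain ⟨s₁, s₂, s₃, s₄, s₅, s₆, s₇, -⟩ := hS
  have pd : ∀ V, g.E V Y → ∃ V', g.E V' Y ∧ ∀ x t, g.E x A → g.E t V → g.E (pr x t) V' :=
    fun V hV => hL.1 V V V hV hV hV (exists_pr_bound A V)
  have z := H.nat_mem 0
  induction φ with
  | rel r l =>
    intro V hV
    by_cases hr : g.E r Y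
    · obtain ⟨G, hG, h⟩ := gr V hV l
      obtain ⟨D, hD, h'⟩ := s₁ V r G hV hr hG
      exact ⟨D, hD, fun t ht => (h' t ht).trans (exists_congr fun S => exists_congr fun u =>
        and_congr_right fun _ => and_congr_left fun _ => h t ht u)⟩
    · exact ⟨_, z, fun t _ => ⟨fun h => (not_E_zero t h).elim,
        fun ⟨S, _, h, _⟩ => (hr (hJ r S h)).elim⟩⟩
  | eq i j =>
    intro V hV
    obtain ⟨D, hD, h⟩ := s₂ V _ _ hV (H.nat_mem i) (H.nat_mem j)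
    exact ⟨D, hD, fun t ht => (h t ht).trans ⟨fun ⟨i', j', e, e', h⟩ => by
      rw [← nat_inj e, ← nat_inj e'] at h
      exact h, fun h => ⟨i, j, rfl, rfl, h⟩⟩⟩
  | bot => exact fun V _ => ⟨_, z, fun t _ => ⟨not_E_zero t, False.elim⟩⟩
  | imp φ ψ ih₁ ih₂ =>
    intro V hV
    obtain ⟨D₁, hD₁, h₁⟩ := ih₁ V hV
    obtain ⟨D₂, hD₂, h₂⟩ := ih₂ V hV
    obtain ⟨D, hD, h⟩ := s₃ V _ _ hV hD₁ hD₂
    exact ⟨D, hD, fun t ht => (h t ht).trans (imp_congr (h₁ t ht) (h₂ t ht))⟩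
  | all φ ih =>
    intro V hV
    obtain ⟨V', hV', p⟩ := pd V hV
    obtain ⟨D₁, hD₁, h₁⟩ := ih V' hV'
    obtain ⟨D, hD, h⟩ := s₄ V _ _ hV hD₁ hD₁
    exact ⟨D, hD, fun t ht => (h t ht).trans (forall_congr' fun x => imp_congr_right fun hx =>
      ttrD_pr x t ▸ h₁ _ (p x t hx ht))⟩
  | I φ ψ ih₁ ih₂ =>
    intro V hV
    obtain ⟨V', hV', p⟩ := pd V hV
    obtain ⟨D₁, hD₁, h₁⟩ := ih₁ V' hV'
    obtain ⟨D₂, hD₂, h₂⟩ := ih₂ V' hV'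
    obtain ⟨D, hD, h⟩ := s₅ V _ _ hV hD₁ hD₂
    refine ⟨D, hD, fun t ht => (h t ht).trans (Iff.trans ?_ ttr_I.symm)⟩
    exact exists_congr fun X => exists_congr fun X' => and_congr
      (ttr_ext1 fun x hx => ttrD_pr x t ▸ h₁ _ (p x t hx ht)) (and_congr_left fun _ =>
        ttr_ext1 fun x hx => ttrD_pr x t ▸ h₂ _ (p x t hx ht))
  | Q φ ψ χ ih₁ ih₂ ih₃ =>
    intro V hV
    obtain ⟨V', hV', p⟩ := pd V hV
    obtain ⟨V'', hV'', p'⟩ := pd V' hV'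
    obtain ⟨D₁, hD₁, h₁⟩ := ih₁ V'' hV''
    obtain ⟨D₂, hD₂, h₂⟩ := ih₂ V'' hV''
    obtain ⟨D₃, hD₃, h₃⟩ := ih₃ V'' hV''
    obtain ⟨D, hD, h⟩ := s₆ V _ _ hV (H.pr_iff.2 ⟨hD₁, hD₂⟩) hD₃
    refine ⟨D, hD, fun t ht => (h t ht).trans (Iff.trans ?_ ttr_Q.symm)⟩
    simp only [pr_inj, and_assoc, exists_and_left, exists_eq_left']
    simp only [← exists_and_left]
    exact exists_congr fun X => exists_congr fun X' => exists_congr fun Z => and_congr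
      (ttr_ext2 fun x y hx hy => ttrD_pr x t ▸ ttrD_pr y _ ▸ h₁ _ (p' y _ hy (p x t hx ht)))
      (and_congr
        (ttr_ext2 fun x y hx hy => ttrD_pr x t ▸ ttrD_pr y _ ▸ h₂ _ (p' y _ hy (p x t hx ht)))
        (and_congr_left fun _ => ttr_ext2 fun x y hx hy =>
          ttrD_pr x t ▸ ttrD_pr y _ ▸ h₃ _ (p' y _ hy (p x t hx ht))))
  | R φ χ ih₁ ih₃ =>
    intro V hV
    obtain ⟨V', hV', p⟩ := pd V hV
    obtain ⟨V'', hV'', p'⟩ := pd V' hV'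
    obtain ⟨D₁, hD₁, h₁⟩ := ih₁ V' hV'
    obtain ⟨D₃, hD₃, h₃⟩ := ih₃ V'' hV''
    obtain ⟨D, hD, h⟩ := s₇ V _ _ hV hD₁ hD₃
    refine ⟨D, hD, fun t ht => (h t ht).trans (Iff.trans ?_ ttr_R.symm)⟩
    exact exists_congr fun X => exists_congr fun Z => and_congr
      (ttr_ext1 fun x hx => ttrD_pr x t ▸ h₁ _ (p x t hx ht))
      (and_congr_left fun _ => ttr_ext2 fun x y hx hy =>
        ttrD_pr x t ▸ ttrD_pr y _ ▸ h₃ _ (p' y _ hy (p x t hx ht)))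

theorem ttr_elem (H : HC g α k Y π m a) (hL : ∀ Θ ∈ ttrL A f, Cl3 g.E Y Θ)
    (hD : ∀ (φ : Fm g.M) V, g.E V Y →
      ∃ D, g.E D Y ∧ ∀ t, g.E t V → (g.E t D ↔ Tr g.E α A J φ (ttrD t)))
    {B : g.M} (hB : IsInt g.E B A Y) (φ : Fm g.M) :
    ∀ t, g.E t Y → (Tr g.E α B J φ (ttrD t) ↔ Tr g.E α A J φ (ttrD t)) := by
  simp only [ttrL, List.forall_mem_cons] at hL
  obtain ⟨l₁, l₂, l₃, l₄, l₅, -⟩ := hL
  have pd : ∀ V, g.E V Y → ∃ V', g.E V' Y ∧ ∀ x t, g.E x A → g.E t V → g.E (pr x t) V' :=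
    fun V hV => l₁ V V V hV hV hV (exists_pr_bound A V)
  have e₁ : ∀ (φ : Fm g.M) t, g.E t Y →
      (∀ t, g.E t Y → (Tr g.E α B J φ (ttrD t) ↔ Tr g.E α A J φ (ttrD t))) →
      ∃ X Xb, g.E X Y ∧ IsInt g.E Xb X Y ∧
        Ext1 g.E A (fun x => Tr g.E α A J φ (cons x (ttrD t))) X ∧
        Ext1 g.E B (fun x => Tr g.E α B J φ (cons x (ttrD t))) Xb := by
    intro φ t ht ih
    obtain ⟨V, hV, htV⟩ := l₂ t t t ht ht ht ⟨_, lt_sc t⟩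
    obtain ⟨V', hV', p⟩ := pd V hV
    obtain ⟨D, hD, h⟩ := hD φ V' hV'
    obtain ⟨X, hX, h'⟩ := l₃ D t t hD ht ht (exists_ext1 A (by fun_prop))
    replace h' := (ttr_ext1 fun x hx => ttrD_pr x t ▸ h _ (p x t hx htV)).1 h'
    obtain ⟨Xb, hb⟩ := exists_int X Y
    refine ⟨X, Xb, hX, hb, h', fun x => ?_⟩
    rw [hb, h', hB, and_right_comm]
    exact and_congr_right fun hx => (ttrD_pr x t ▸ ih _ (H.pr_iff.2 ⟨hx.2, ht⟩)).symm
  have e₂ : ∀ (φ : Fm g.M) t, g.E t Y →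
      (∀ t, g.E t Y → (Tr g.E α B J φ (ttrD t) ↔ Tr g.E α A J φ (ttrD t))) →
      ∃ X Xb, g.E X Y ∧ IsInt g.E Xb X Y ∧
        Ext2 g.E A (fun x y => Tr g.E α A J φ (cons y (cons x (ttrD t)))) X ∧
        Ext2 g.E B (fun x y => Tr g.E α B J φ (cons y (cons x (ttrD t)))) Xb := by
    intro φ t ht ih
    obtain ⟨V, hV, htV⟩ := l₂ t t t ht ht ht ⟨_, lt_sc t⟩
    obtain ⟨V', hV', p⟩ := pd V hV
    obtain ⟨V'', hV'', p'⟩ := pd V' hV'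
    obtain ⟨D, hD, h⟩ := hD φ V'' hV''
    obtain ⟨X, hX, h'⟩ := l₄ D t t hD ht ht (exists_ext2 A (by fun_prop))
    replace h' := (ttr_ext2 fun x y hx hy =>
      ttrD_pr x t ▸ ttrD_pr y _ ▸ h _ (p' y _ hy (p x t hx htV))).1 h'
    obtain ⟨Xb, hb⟩ := exists_int X Y
    have i : ∀ x y, g.E x Y → g.E y Y → (Tr g.E α B J φ (cons y (cons x (ttrD t))) ↔
        Tr g.E α A J φ (cons y (cons x (ttrD t)))) := fun x y hx hy =>
      ttrD_pr x t ▸ ttrD_pr y _ ▸ ih _ (H.pr_iff.2 ⟨hy, H.pr_iff.2 ⟨hx, ht⟩⟩)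
    refine ⟨X, Xb, hX, hb, h', fun u => ?_⟩
    rw [hb, h']
    constructor
    · rintro ⟨⟨x, y, hx, hy, e, h₀⟩, hu⟩
      obtain ⟨hx', hy'⟩ := H.pr_iff.1 (isPair_iff.1 e ▸ hu)
      exact ⟨x, y, (hB x).2 ⟨hx, hx'⟩, (hB y).2 ⟨hy, hy'⟩, e, (i x y hx' hy').2 h₀⟩
    · rintro ⟨x, y, hx, hy, e, h₀⟩
      obtain ⟨hx, hx'⟩ := (hB x).1 hx
      obtain ⟨hy, hy'⟩ := (hB y).1 hy
      exact ⟨⟨x, y, hx, hy, e, (i x y hx' hy').1 h₀⟩, isPair_iff.1 e ▸ H.pr_iff.2 ⟨hx', hy'⟩⟩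
  induction φ with
  | rel r l => exact fun _ _ => Iff.rfl
  | eq i j => exact fun _ _ => Iff.rfl
  | bot => exact fun _ _ => Iff.rfl
  | imp φ ψ ih₁ ih₂ => exact fun t ht => imp_congr (ih₁ t ht) (ih₂ t ht)
  | all φ ih =>
    intro t ht
    obtain ⟨X, Xb, hX, hb, h, h'⟩ := e₁ φ t ht ih
    refine ⟨fun h₀ x hx => ?_, fun h₀ x hx => ((h' x).1 ((hb x).2
      ⟨(h x).2 ⟨((hB x).1 hx).1, h₀ x ((hB x).1 hx).1⟩, ((hB x).1 hx).2⟩)).2⟩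
    by_contra c
    obtain ⟨y, hy, h₁, h₂⟩ := l₅ X X X hX hX hX ⟨x, hx, fun e => c ((h x).1 e).2⟩
    have hyB := (hB y).2 ⟨h₁, hy⟩
    exact h₂ ((hb y).1 ((h' y).2 ⟨hyB, h₀ y hyB⟩)).1
  | I φ ψ ih₁ ih₂ =>
    intro t ht
    obtain ⟨X, Xb, hX, hb, h, h'⟩ := e₁ φ t ht ih₁
    obtain ⟨X', Xb', hX', hb', k, k'⟩ := e₁ ψ t ht ih₂
    rw [ttr_I, ttr_I]
    exact ⟨fun ⟨_, _, h₁, h₂, h₃⟩ => ⟨X, X', h, k, (H.eqC_iff hX hX' hb hb').2
        (ext1_uniq h₁ h' ▸ ext1_uniq h₂ k' ▸ h₃)⟩,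
      fun ⟨_, _, h₁, h₂, h₃⟩ => ⟨Xb, Xb', h', k', (H.eqC_iff hX hX' hb hb').1
        (ext1_uniq h₁ h ▸ ext1_uniq h₂ k ▸ h₃)⟩⟩
  | Q φ ψ χ ih₁ ih₂ ih₃ =>
    intro t ht
    obtain ⟨X, Xb, hX, hb, h, h'⟩ := e₂ φ t ht ih₁
    obtain ⟨X', Xb', hX', hb', k, k'⟩ := e₂ ψ t ht ih₂
    obtain ⟨Z, Zb, hZ, hc, j, j'⟩ := e₂ χ t ht ih₃
    rw [ttr_Q, ttr_Q]
    exact ⟨fun ⟨_, _, _, h₁, h₂, h₃, h₄⟩ => ⟨X, X', Z, h, k, j, (H.qq_bar hX hX' hZ hb hb' hc).2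
        (ext2_uniq h₁ h' ▸ ext2_uniq h₂ k' ▸ ext2_uniq h₃ j' ▸ h₄)⟩,
      fun ⟨_, _, _, h₁, h₂, h₃, h₄⟩ => ⟨Xb, Xb', Zb, h', k', j', (H.qq_bar hX hX' hZ hb hb' hc).1
        (ext2_uniq h₁ h ▸ ext2_uniq h₂ k ▸ ext2_uniq h₃ j ▸ h₄)⟩⟩
  | R φ χ ih₁ ih₃ =>
    intro t ht
    obtain ⟨X, Xb, hX, hb, h, h'⟩ := e₁ φ t ht ih₁
    obtain ⟨Z, Zb, hZ, hc, j, j'⟩ := e₂ χ t ht ih₃
    rw [ttr_R, ttr_R]
    exact ⟨fun ⟨_, _, h₁, h₃, h₄⟩ => ⟨X, Z, h, j, (H.rr_bar hX hZ hb hc).2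
        (ext1_uniq h₁ h' ▸ ext2_uniq h₃ j' ▸ h₄)⟩,
      fun ⟨_, _, h₁, h₃, h₄⟩ => ⟨Xb, Zb, h', j', (H.rr_bar hX hZ hb hc).1
        (ext1_uniq h₁ h ▸ ext2_uniq h₃ j ▸ h₄)⟩⟩

theorem ttr_enc (H : HC g α k Y π m a) (n : ℕ) : ∀ v : ℕ → g.M, (∀ i, g.E (v i) Y) →
    ∃ t, g.E t Y ∧ ∀ i < n, v i = ttrD t i := by
  induction n with
  | zero => exact fun _ _ => ⟨_, H.nat_mem 0, fun i hi => (Nat.not_lt_zero i hi).elim⟩
  | succ n ih =>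
    intro v hv
    obtain ⟨t, ht, h⟩ := ih (fun i => v (i + 1)) fun i => hv _
    refine ⟨pr (v 0) t, H.pr_iff.2 ⟨hv 0, ht⟩, fun i hi => ?_⟩
    rw [ttrD_pr]
    cases i with
    | zero => rfl
    | succ i => exact h i (by omega)

end

theorem Facts.works {α γ : Ordinal.{1}} {k s : g.M} (F : g.Facts α γ k s) (q : Bool) :
    Works g.E α q k := by
  rintro L A J ⟨⟨x₀, hx₀⟩, ⟨Y₀, hJ⟩, -⟩ ⟨b, f, hb, hf⟩
  obtain ⟨a', h₁, h₂⟩ := F.al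
  obtain ⟨Y, π, m, a, H, hb', hL, hS⟩ := F.ttr_hc _ (ttrL_tm A f) _
    (ttrS_tm ⟨isOrd_of_E (isOrd_of_E F.k_ord F.s_k) h₁, h₂⟩ A J) hb
  have hL' := hL
  simp only [ttrL, List.forall_mem_cons] at hL'
  obtain ⟨-, -, -, -, l₅, l₆, -⟩ := hL'
  have hD := ttr_def H hL hS fun r S h => by
    obtain ⟨i, hi, h'⟩ := fun_ex hf.1 (fun_mem hJ h).1
    obtain ⟨r', h₃, h₄⟩ := l₆ i i i (hb' i hi) (hb' i hi) (hb' i hi) ⟨r, h'⟩
    exact hf.2 _ _ _ h₄ h' ▸ h₃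
  obtain ⟨B, hB⟩ := exists_int A Y
  have z := H.nat_mem 0
  obtain ⟨x, hx, hx', -⟩ := l₅ _ _ _ z z z ⟨x₀, hx₀, not_E_zero _⟩
  refine ⟨B, fun x h => ((hB x).1 h).1, ⟨x, (hB x).2 ⟨hx', hx⟩⟩,
    lt_of_leC (leC_of_sub fun x h => ((hB x).1 h).2) H.hull.1, fun φ _ v hv => ?_⟩
  obtain ⟨n, hn⟩ := ttr_bound g.E α J φ
  obtain ⟨t, ht, h⟩ := ttr_enc H n v fun i => ((hB _).1 (hv i)).2
  rw [hn B _ _ h, hn A _ _ h]
  exact ttr_elem H hL hD hB φ t ht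

end Gen

end Pool.Agent.MP_85ce7b_lc

end

section

namespace Pool.Agent.MP_85ce7b_lc

open Pool.Agent.MP_c6cf52_lc

namespace Gen

variable {P : Type 2} [Sz P] [Preorder P] [OrderTop P] [Tame P] {g : Gen P}

theorem tup3_iff {x y z t : g.M} :
    Tup g.E [x, y, z] t ↔ t = pr x (pr y (pr z (g.nat 0))) := by
  simp only [Tup, isPair_iff]
  constructor
  · rintro ⟨_, ⟨_, ⟨e, h, rfl⟩, rfl⟩, rfl⟩
    rw [eq_zero h]
  · rintro rfl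
    exact ⟨_, ⟨_, ⟨_, not_E_zero, rfl⟩, rfl⟩, rfl⟩

theorem ext1_congr {C X : g.M} {Φ Ψ : g.M → Prop} (h : ∀ x, g.E x C → (Φ x ↔ Ψ x)) :
    Ext1 g.E C Φ X ↔ Ext1 g.E C Ψ X :=
  forall_congr' fun x => iff_congr Iff.rfl (and_congr_right (h x))

theorem ext2_congr {C X : g.M} {Φ Ψ : g.M → g.M → Prop}
    (h : ∀ x y, g.E x C → g.E y C → (Φ x y ↔ Ψ x y)) : Ext2 g.E C Φ X ↔ Ext2 g.E C Ψ X :=
  forall_congr' fun _ => iff_congr Iff.rfl (exists₂_congr fun x y => and_congr_right fun hx =>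
    and_congr_right fun hy => and_congr_right fun _ => h x y hx hy)

theorem exists_lb {α : Ordinal.{1}} {q : Bool} {m L A : g.M} {S : g.M → g.M → g.M → g.M → Prop}
    (hS : g.Tm (fun z : g.M × g.M × g.M × g.M => S z.1 z.2.1 z.2.2.1 z.2.2.2))
    (hA : ∃ x, g.E x A) (hW : Works g.E α q m) (hL : Lt g.E L m) :
    ∃ B, Lt g.E B m ∧ LB g α q L A B S := by
  have hS' : ∀ {Γ : Type 3} [Cd g Γ] {a b c d : Γ → g.M}, g.Tm a → g.Tm b → g.Tm c → g.Tm d →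
      g.Tm (fun w => S (a w) (b w) (c w) (d w)) := fun ha hb hc hd =>
    hS.comp (ha.pair (hb.pair (hc.pair hd)))
  obtain ⟨C₁, c₁⟩ := exists_pr_bound A (g.nat 1)
  obtain ⟨C₂, c₂⟩ := exists_pr_bound A C₁
  obtain ⟨C₃, c₃⟩ := exists_pr_bound A C₂
  obtain ⟨J, Y, j₁, j₂⟩ := exists_fun' (A := L) (Q := fun r X => ∀ t, g.E t X ↔ ∃ x y z,
      g.E x A ∧ g.E y A ∧ g.E z A ∧ t = pr x (pr y (pr z (g.nat 0))) ∧ S r x y z)
    (tm_all (tm_iff (by fun_prop) (tm_ex (tm_ex (tm_ex (tm_and (by fun_prop) (tm_and (by fun_prop)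
      (tm_and (by fun_prop) (tm_and (by fun_prop) (hS' (by fun_prop) (by fun_prop) (by fun_prop)
        (by fun_prop))))))))))) fun r _ => by
      obtain ⟨X, hX⟩ := tm_sep (Q := fun t => ∃ x y z, g.E x A ∧ g.E y A ∧ g.E z A ∧
        t = pr x (pr y (pr z (g.nat 0))) ∧ S r x y z) (tm_ex (tm_ex (tm_ex (tm_and (by fun_prop)
          (tm_and (by fun_prop) (tm_and (by fun_prop) (tm_and (by fun_prop) (hS' (by fun_prop)
            (by fun_prop) (by fun_prop) (by fun_prop))))))))) C₃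
      refine ⟨X, fun t => (hX t).trans (and_iff_right_of_imp ?_)⟩
      rintro ⟨x, y, z, h₁, h₂, h₃, rfl, -⟩
      exact c₃ _ _ h₁ (c₂ _ _ h₂ (c₁ _ _ h₃ (nat_lt.2 Nat.one_pos)))
  obtain ⟨B, b₁, b₂, b₃, H⟩ := hW L A J ⟨hA, ⟨Y, j₁⟩, fun r X h => ⟨3, fun t ht => by
    obtain ⟨x, y, z, h₁, h₂, h₃, rfl, -⟩ := (j₂ _ _ h t).1 ht
    exact ⟨[x, y, z], rfl, by simp [h₁, h₂, h₃], tup3_iff.2 rfl⟩⟩⟩ hL
  have at' : ∀ C r i j k (v : ℕ → g.M), g.E r L → g.E (v i) A → g.E (v j) A → g.E (v k) A →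
      (Tr g.E α C J (.rel r [i, j, k]) v ↔ S r (v i) (v j) (v k)) := by
    intro C r i j k v hr h₁ h₂ h₃
    simp only [Tr, List.map, tup3_iff]
    constructor
    · rintro ⟨X, _, e₁, rfl, e₂⟩
      obtain ⟨x, y, z, -, -, -, e, e₃⟩ := (j₂ _ _ e₁ _).1 e₂
      simp only [pr_inj, and_true] at e
      obtain ⟨rfl, rfl, rfl⟩ := e
      exact e₃
    · intro h
      obtain ⟨X, -, e⟩ := fun_ex j₁ hr
      exact ⟨X, _, e, rfl, (j₂ _ _ e _).2 ⟨_, _, _, h₁, h₂, h₃, rfl, h⟩⟩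
  have e1 : ∀ C r i (v : ℕ → g.M) X, Sub g.E C A → g.E r L → g.E (v i) B →
      (Ext1 g.E C (fun x => Tr g.E α C J (.rel r [i + 1, i + 1, 0]) (cons x v)) X ↔
        Ext1 g.E C (S r (v i) (v i)) X) := fun C r i v X hC hr hv =>
    ext1_congr fun x hx => at' C r _ _ _ (cons x v) hr (b₁ _ hv) (b₁ _ hv) (hC _ hx)
  have e2 : ∀ C r i (v : ℕ → g.M) X, Sub g.E C A → g.E r L → g.E (v i) B →
      (Ext2 g.E C (fun x y => Tr g.E α C J (.rel r [i + 2, 1, 0]) (cons y (cons x v))) X ↔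
        Ext2 g.E C (S r (v i)) X) := fun C r i v X hC hr hv =>
    ext2_congr fun x y hx hy => at' C r _ _ _ (cons y (cons x v)) hr (b₁ _ hv) (hC _ hx) (hC _ hy)
  have hv : ∀ x y z, g.E x B → g.E y B → g.E z B → ∀ i, g.E (cons x (cons y fun _ => z) i) B := by
    rintro x y z hx hy hz (_ | _ | _)
    exacts [hx, hy, hz]
  have sA : Sub g.E A A := fun _ h => h
  refine ⟨B, b₃, b₁, b₂, fun r x y hr hx hy ⟨z, h₁, h₂⟩ => ?_,
    fun r x x' X X' Y Y' hr hx hx' h₁ h₂ h₃ h₄ => ?_,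
    fun hq r x x' d X X' Z Y Y' W hr hx hx' hd h₁ h₂ h₃ h₄ h₅ h₆ => ?_,
    fun hq r r' x d X Z Y W hr hr' hx hd h₁ h₂ h₃ h₄ => ?_⟩
  · by_contra h
    push Not at h
    refine (H (.all (.imp (.rel r [1, 2, 0]) .bot)) ⟨trivial, trivial⟩ _ (hv x y y hx hy hy)).1
      (fun u hu k => h u hu ((at' B r 1 2 0 _ hr (b₁ _ hx) (b₁ _ hy) (b₁ _ hu)).1 k)) z h₁ ?_
    exact (at' A r 1 2 0 _ hr (b₁ _ hx) (b₁ _ hy) h₁).2 h₂
  · have key : ∀ C U U', Sub g.E C A → Ext1 g.E C (S r x x) U → Ext1 g.E C (S r x' x') U' →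
        (Tr g.E α C J (.I (.rel r [1, 1, 0]) (.rel r [2, 2, 0])) (cons x (cons x' fun _ => x')) ↔
          EqC g.E U U') := fun C U U' hC k₁ k₂ =>
      ⟨fun ⟨V, V', f, l₁, l₂, l₃⟩ => ext1_uniq ((e1 C r 0 _ V hC hr hx).1 l₁) k₁ ▸
        ext1_uniq ((e1 C r 1 _ V' hC hr hx').1 l₂) k₂ ▸ ⟨f, l₃⟩,
      fun ⟨f, l⟩ => ⟨U, U', f, (e1 C r 0 _ U hC hr hx).2 k₁, (e1 C r 1 _ U' hC hr hx').2 k₂, l⟩⟩
    rw [← key A X X' sA h₁ h₂, ← key B Y Y' b₁ h₃ h₄]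
    exact (H (.I (.rel _ _) (.rel _ _)) ⟨trivial, trivial⟩ _ (hv x x' x' hx hx' hx')).symm
  · have key : ∀ C U U' V, Sub g.E C A → Ext2 g.E C (S r x) U → Ext2 g.E C (S r x') U' →
        Ext2 g.E C (S r d) V → (Tr g.E α C J (.Q (.rel r [2, 1, 0]) (.rel r [3, 1, 0])
          (.rel r [4, 1, 0])) (cons x (cons x' fun _ => d)) ↔ QQ g.E α U U' V) :=
      fun C U U' V hC k₁ k₂ k₃ =>
      ⟨fun ⟨T, T', T'', l, δ, l₀, l₁, l₂, l₃, l₄⟩ => ext2_uniq ((e2 C r 0 _ T hC hr hx).1 l₁) k₁ ▸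
        ext2_uniq ((e2 C r 1 _ T' hC hr hx').1 l₂) k₂ ▸
        ext2_uniq ((e2 C r 2 _ T'' hC hr hd).1 l₃) k₃ ▸ ⟨l, δ, l₀, l₄⟩,
      fun ⟨l, δ, l₀, l₄⟩ => ⟨U, U', V, l, δ, l₀, (e2 C r 0 _ U hC hr hx).2 k₁,
        (e2 C r 1 _ U' hC hr hx').2 k₂, (e2 C r 2 _ V hC hr hd).2 k₃, l₄⟩⟩
    rw [← key A X X' Z sA h₁ h₂ h₃, ← key B Y Y' W b₁ h₄ h₅ h₆]
    exact (H (.Q (.rel _ _) (.rel _ _) (.rel _ _)) ⟨hq, trivial, trivial, trivial⟩ _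
      (hv x x' d hx hx' hd)).symm
  · have key : ∀ C U V, Sub g.E C A → Ext1 g.E C (S r x x) U → Ext2 g.E C (S r' d) V →
        (Tr g.E α C J (.R (.rel r [1, 1, 0]) (.rel r' [3, 1, 0])) (cons x (cons d fun _ => d)) ↔
          RR g.E α U V) := fun C U V hC k₁ k₂ =>
      ⟨fun ⟨T, T', l, f, δ, l₀, l₁, l₂, l₃, l₄⟩ => ext1_uniq ((e1 C r 0 _ T hC hr hx).1 l₁) k₁ ▸
        ext2_uniq ((e2 C r' 1 _ T' hC hr' hd).1 l₂) k₂ ▸ ⟨l, δ, l₀, ⟨f, l₃⟩, l₄⟩,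
      fun ⟨l, δ, l₀, ⟨f, l₃⟩, l₄⟩ => ⟨U, V, l, f, δ, l₀, (e1 C r 0 _ U hC hr hx).2 k₁,
        (e2 C r' 1 _ V hC hr' hd).2 k₂, l₃, l₄⟩⟩
    rw [← key A X Z sA h₁ h₂, ← key B Y W b₁ h₃ h₄]
    exact (H (.R (.rel _ _) (.rel _ _)) ⟨hq, trivial, trivial⟩ _ (hv x d d hx hd hd)).symm

end Gen

end Pool.Agent.MP_85ce7b_lc

end

section

namespace Pool.Agent.MP_85ce7b_lc

open Pool.Agent.MP_c6cf52_lc

namespace Gen

variable {P : Type 2} [Sz P] [Preorder P] [OrderTop P] [Tame P] {g : Gen P}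

theorem TA_int {B n x c c' : g.M} (hn : IsOrd g.E n) (hx : g.E x n) (hc : IsInt g.E c B n)
    (hc' : IsInt g.E c' B x) : IsInt g.E c' c x := fun u => (hc' u).trans
  ⟨fun e => ⟨(hc u).2 ⟨e.1, lt_lt hn e.2 hx⟩, e.2⟩, fun e => ⟨((hc u).1 e.1).1, e.2⟩⟩

theorem TA_card {B n c e t : g.M} (hn : IsCard g.E n) (hc : IsInt g.E c B n) (h : En g e c t)
    (heq : ∀ x Y, g.E x B → g.E x n → IsInt g.E Y B x → EqC g.E Y c → EqC g.E x n) :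
    IsCard g.E t := by
  refine isCard_of_not_eqC h.ord fun i hi he => ?_
  obtain ⟨x, hx, hix⟩ := fun_ex h.fn hi
  obtain ⟨x₁, x₂⟩ := (hc x).1 hx
  obtain ⟨Y, hY⟩ := exists_int B x
  obtain ⟨f, hf⟩ := en_of_otp (isOrd_of_E h.ord hi) (h.init hix (TA_int hn.1 x₂ hc hY))
  exact hn.2 x x₂ (EqC.ge (heq x Y x₁ x₂ hY (eqC_trans (eqC_symm hf.eqC) (eqC_trans he h.eqC))))

theorem TA_lt {B n n' c c' e e' t t' : g.M} (hn : IsOrd g.E n') (hl : g.E n n') (hB : g.E n B)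
    (hc : IsInt g.E c B n) (hc' : IsInt g.E c' B n') (h : En g e c t) (h' : En g e' c' t') :
    g.E t t' := by
  obtain ⟨i, hi⟩ := h'.onto n ((hc' n).2 ⟨hB, hl⟩)
  have hit := (fun_mem h'.fn hi).1
  rwa [otp_uniq h.ord (isOrd_of_E h'.ord hit) h.otp (h'.init hi (TA_int hn hl hc' hc))]

theorem TA_core {α γ : Ordinal.{1}} {k s B n₀ n₁ n₂ n₃ R : g.M} (F : g.Facts α γ k s)
    (hB : Lt g.E B s) (l₁ : g.E n₀ n₁) (l₂ : g.E n₁ n₂) (l₃ : g.E n₂ n₃) (k₁ : IsCard g.E n₁)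
    (k₂ : IsCard g.E n₂) (k₃ : IsCard g.E n₃) (b₀ : g.E n₀ B) (b₁ : g.E n₁ B) (b₂ : g.E n₂ B)
    (b₃ : g.E n₃ B)
    (heq : ∀ x n Y c, g.E x B → g.E n B → Leq g.E n n₃ → g.E x n → IsInt g.E Y B x →
      IsInt g.E c B n → EqC g.E Y c → EqC g.E x n)
    (hsep : ∀ x y, g.E x B → g.E y B → g.E x n₃ → g.E y n₃ → x ≠ y →
      ∃ z, g.E z B ∧ g.E z n₀ ∧ ¬ (App g.E R x z ↔ App g.E R y z))
    (hup : ∀ x, g.E x B → g.E x n₀ → ∃ z, g.E z B ∧ g.E x z ∧ g.E z n₀)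
    (hne : ∃ z, g.E z B ∧ g.E z n₀) : False := by
  have o₀ := isOrd_of_E k₁.1 l₁
  have en : ∀ n, IsOrd g.E n → ∃ c e t, IsInt g.E c B n ∧ En g e c t := fun n hn => by
    obtain ⟨c, hc⟩ := exists_int B n
    obtain ⟨e, t, h⟩ := exists_en (c := c) fun x hx => isOrd_of_E hn ((hc x).1 hx).2
    exact ⟨c, e, t, hc, h⟩
  obtain ⟨c₀, e₀, t₀, i₀, h₀⟩ := en n₀ o₀
  obtain ⟨c₁, e₁, t₁, i₁, h₁⟩ := en n₁ k₁.1
  obtain ⟨c₂, e₂, t₂, i₂, h₂⟩ := en n₂ k₂.1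
  obtain ⟨c₃, e₃, t₃, i₃, h₃⟩ := en n₃ k₃.1
  have d₁ := TA_card k₁ i₁ h₁ fun x Y a b c =>
    heq x n₁ Y c₁ a b₁ (Or.inl (lt_lt k₃.1 l₂ l₃)) b c i₁
  have d₂ := TA_card k₂ i₂ h₂ fun x Y a b c => heq x n₂ Y c₂ a b₂ (Or.inl l₃) b c i₂
  have d₃ := TA_card k₃ i₃ h₃ fun x Y a b c => heq x n₃ Y c₃ a b₃ (leq_refl _) b c i₃
  have m₁ := TA_lt k₁.1 l₁ b₀ i₀ i₁ h₀ h₁
  have m₂ := TA_lt k₂.1 l₂ b₁ i₁ i₂ h₁ h₂
  have m₃ := TA_lt k₃.1 l₃ b₂ i₂ i₃ h₂ h₃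
  have ho : Leq g.E g.om t₀ := by
    refine om_leq h₀.ord ?_ fun i hi => ?_
    · obtain ⟨z, hz⟩ := hne
      obtain ⟨i, hi⟩ := h₀.onto z ((i₀ z).2 hz)
      exact ⟨i, (fun_mem h₀.fn hi).1⟩
    · obtain ⟨x, hx, hix⟩ := fun_ex h₀.fn hi
      obtain ⟨z, z₁, z₂, z₃⟩ := hup x ((i₀ x).1 hx).1 ((i₀ x).1 hx).2
      obtain ⟨j, hj⟩ := h₀.onto z ((i₀ z).2 ⟨z₁, z₃⟩)
      exact ⟨j, (fun_mem h₀.fn hj).1, (h₀.lt_iff hix hj).1 z₂⟩
  obtain ⟨m, hm, hcm⟩ := exists_card c₀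
  have hmt : Leq g.E m t₀ := card_leq hm h₀.ord (leC_trans (EqC.ge hcm) (EqC.ge h₀.eqC))
  have hom : Leq g.E g.om m := by
    refine leq_of_not_lt isOrd_om hm.1 fun h => ?_
    have a₁ : LeC g.E g.om m := leC_trans (leC_of_sub (sub_of_leq h₀.ord ho))
      (leC_trans (EqC.le h₀.eqC) (EqC.le hcm))
    exact isCard_om.2 m h a₁
  have os := isOrd_of_E F.k_ord F.s_k
  have hms : g.E m s := by
    obtain ⟨u, hu, hBu⟩ := lt_iff.1 hB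
    exact leq_lt os (card_leq hm (isOrd_of_E os hu) (leC_trans (EqC.ge hcm)
      (leC_trans (leC_of_sub fun x hx => ((i₀ x).1 hx).1) hBu))) hu
  obtain ⟨b, D, hb, hD, hn⟩ := F.gch m hms hm ((inf_iff hm.1).2 hom)
  obtain ⟨h, hh, hh'⟩ := eqC_symm hcm
  refine hn t₁ t₂ t₃ d₁ d₂ d₃ (leq_lt h₁.ord hmt m₁) m₂ m₃ (card_leq d₃ hb ?_)
  refine leC_of_rel (Q := fun i j => ∃ x, App g.E e₃ i x ∧ ∀ u, g.E u m →
    (App g.E D j u ↔ ∃ z, App g.E h u z ∧ App g.E R x z)) (by fun_prop) (fun i hi => ?_) ?_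
  · obtain ⟨x, -, hx⟩ := fun_ex h₃.fn hi
    obtain ⟨S, hS⟩ := tm_sep (Q := fun u => ∃ z, App g.E h u z ∧ App g.E R x z) (by fun_prop) m
    obtain ⟨j, hj, H⟩ := hD S fun u hu => ((hS u).1 hu).1
    exact ⟨j, hj, x, hx, fun u hu => (H u hu).trans ((hS u).trans (and_iff_right hu))⟩
  · rintro i i' j - - ⟨x, hx, H⟩ ⟨y, hy, H'⟩
    obtain ⟨x₁, x₂⟩ := (i₃ x).1 (fun_mem h₃.fn hx).2
    obtain ⟨y₁, y₂⟩ := (i₃ y).1 (fun_mem h₃.fn hy).2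
    by_cases e : x = y
    · exact h₃.inj hx (e ▸ hy)
    obtain ⟨z, z₁, z₂, z₃⟩ := hsep x y x₁ y₁ x₂ y₂ e
    obtain ⟨u, hu⟩ := hh' z ((i₀ z).2 ⟨z₁, z₂⟩)
    have a := (H u (fun_mem hh.1 hu).1).symm.trans (H' u (fun_mem hh.1 hu).1)
    refine absurd ⟨fun r => ?_, fun r => ?_⟩ z₃
    · obtain ⟨z', a₁, a₂⟩ := a.1 ⟨z, hu, r⟩
      exact fun_uniq hh.1 a₁ hu ▸ a₂
    · obtain ⟨z', a₁, a₂⟩ := a.2 ⟨z, hu, r⟩
      exact fun_uniq hh.1 a₁ hu ▸ a₂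

theorem Facts.not_works_low {α γ : Ordinal.{1}} {k s m : g.M} (F : g.Facts α γ k s) (q : Bool)
    (hm : IsCard g.E m) (hi : Inf g.E m) (hs : Leq g.E m s) : ¬ Works g.E α q m := by
  intro hW
  obtain ⟨n₀, n₁, n₂, n₃, R, a₁, a₂, l₁, l₂, l₃, k₁, k₂, k₃, hR⟩ := F.fail
  have os := isOrd_of_E F.k_ord F.s_k
  obtain ⟨B, hB, H⟩ := exists_lb (L := g.nat 8) (A := sc n₃)
    (S := fun r x y z => (r = g.nat 0 ∧ g.E z x) ∨ (r = g.nat 1 ∧ z = n₀) ∨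
      (r = g.nat 2 ∧ z = n₁) ∨ (r = g.nat 3 ∧ z = n₂) ∨ (r = g.nat 4 ∧ z = n₃) ∨
      (r = g.nat 5 ∧ g.E z n₀ ∧ ¬ (App g.E R x z ↔ App g.E R y z)) ∨
      (r = g.nat 6 ∧ g.E x z ∧ g.E z n₀) ∨ (r = g.nat 7 ∧ g.E z n₀))
    (by fun_prop) ⟨n₃, lt_sc n₃⟩ hW
    (lt_iff.2 ⟨_, lt_leq hm.1 (nat_om 8) ((inf_iff hm.1).1 hi), leC_refl _⟩)
  have p₂ : g.E n₂ (sc n₃) := E_sc.2 (Or.inl l₃)
  have p₁ : g.E n₁ (sc n₃) := lt_lt (isOrd_sc k₃.1) l₂ p₂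
  have p₀ : g.E n₀ (sc n₃) := lt_lt (isOrd_sc k₃.1) l₁ p₁
  have q₀ : ∀ z, g.E z n₀ → g.E z (sc n₃) := fun z hz => lt_lt (isOrd_sc k₃.1) hz p₀
  obtain ⟨w, hw⟩ := H.ne
  have c₀ := H.eqc (g.nat 0)
  have c₁ := H.cl (g.nat 1) w w (nat_lt.2 (by omega)) hw hw
  have c₂ := H.cl (g.nat 2) w w (nat_lt.2 (by omega)) hw hw
  have c₃ := H.cl (g.nat 3) w w (nat_lt.2 (by omega)) hw hw
  have c₄ := H.cl (g.nat 4) w w (nat_lt.2 (by omega)) hw hw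
  have c₅ := fun x y => H.cl (g.nat 5) x y (nat_lt.2 (by omega))
  have c₆ := fun x => H.cl (g.nat 6) x x (nat_lt.2 (by omega))
  have c₇ := H.cl (g.nat 7) w w (nat_lt.2 (by omega)) hw hw
  simp only [nat_inj.eq_iff, Ext1, true_and, false_and, or_false, false_or, exists_eq_right,
    OfNat.ofNat_ne_zero, OfNat.ofNat_ne_one, OfNat.zero_ne_ofNat, OfNat.one_ne_ofNat,
    Nat.reduceEqDiff, one_ne_zero, zero_ne_one] at c₀ c₁ c₂ c₃ c₄ c₅ c₆ c₇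
  obtain ⟨u, hu, hBu⟩ := lt_iff.1 hB
  refine TA_core (R := R) F (lt_iff.2 ⟨u, lt_leq os hu hs, hBu⟩) l₁ l₂ l₃ k₁ k₂ k₃ (c₁ p₀) (c₂ p₁)
    (c₃ p₂) (c₄ (lt_sc n₃)) (fun x n Y c hx hn h₁ h₂ hY hc he => ?_) (fun x y hx hy x₃ y₃ e => ?_)
    (fun x hx x₀ => ?_) (c₇ (a₁.imp fun z hz => ⟨q₀ z hz, hz⟩))
  · have o := isOrd_sc k₃.1
    have n' := E_sc.2 h₁
    exact (c₀ x n x n Y c (nat_lt.2 (by omega)) hx hn
      (fun z => (and_iff_right_of_imp fun hz => lt_lt o hz (lt_lt o h₂ n')).symm)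
      (fun z => (and_iff_right_of_imp fun hz => lt_lt o hz n').symm) hY hc).2 he
  · exact c₅ x y hx hy ((hR x y x₃ y₃ e).imp fun z hz => ⟨q₀ z hz.1, hz⟩)
  · exact c₆ x hx hx ((a₂ x x₀).imp fun z hz => ⟨q₀ z hz.1, hz.2, hz.1⟩)

end Gen

end Pool.Agent.MP_85ce7b_lc

end

section

namespace Pool.Agent.MP_85ce7b_lc

open Pool.Agent.MP_c6cf52_lc

namespace Gen

variable {P : Type 2} [Sz P] [Preorder P] [OrderTop P] [Tame P] {g : Gen P}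

/-- The relations of the structure used in the middle range. -/
def tbS (G m r x y z : g.M) : Prop :=
  (¬ g.E r g.om ∧ z = r) ∨ (r = g.nat 0 ∧ g.E z x) ∨
    (r = g.nat 1 ∧ g.E y x ∧ g.E z x ∧ Leq g.E y z) ∨ (r = g.nat 2 ∧ z = m) ∨
    (r = g.nat 3 ∧ z = g.nat 0) ∨ (r = g.nat 4 ∧ z = sc x) ∨
    (r = g.nat 5 ∧ ∃ f, App g.E G x (pr z f)) ∨
    (r = g.nat 6 ∧ g.E z x ∧ ∃ c f, App g.E G x (pr c f) ∧ App g.E f y z) ∨
    (r = g.nat 7 ∧ g.E z x ∧ Cl g.E (fun w => RegGeI g.E y w) z ∧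
      ∀ u, g.E z u → g.E u x → ¬ Cl g.E (fun w => RegGeI g.E y w) u)

theorem tbS_tm (G m : g.M) :
    g.Tm (fun z : g.M × g.M × g.M × g.M => tbS G m z.1 z.2.1 z.2.2.1 z.2.2.2) := by
  unfold tbS
  fun_prop

theorem tbS_tm2 (G m r x : g.M) : g.Tm (fun z : g.M × g.M => tbS G m r x z.1 z.2) := by
  unfold tbS
  fun_prop

section

variable {G m r x y z : g.M}

theorem tbS_big (h : ¬ g.E r g.om) : tbS G m r x y z ↔ z = r := by
  have k : ∀ n, r ≠ g.nat n := fun n e => h (e ▸ nat_om n)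
  simp [tbS, h, k]

theorem tbS0 : tbS G m (g.nat 0) x y z ↔ g.E z x := by simp [tbS, nat_om, nat_inj.eq_iff]

theorem tbS1 : tbS G m (g.nat 1) x y z ↔ g.E y x ∧ g.E z x ∧ Leq g.E y z := by
  simp [tbS, nat_om, nat_inj.eq_iff]

theorem tbS2 : tbS G m (g.nat 2) x y z ↔ z = m := by simp [tbS, nat_om, nat_inj.eq_iff]

theorem tbS3 : tbS G m (g.nat 3) x y z ↔ z = g.nat 0 := by simp [tbS, nat_om, nat_inj.eq_iff]

theorem tbS4 : tbS G m (g.nat 4) x y z ↔ z = sc x := by simp [tbS, nat_om, nat_inj.eq_iff]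

theorem tbS5 : tbS G m (g.nat 5) x y z ↔ ∃ f, App g.E G x (pr z f) := by
  simp [tbS, nat_om, nat_inj.eq_iff]

theorem tbS6 : tbS G m (g.nat 6) x y z ↔
    g.E z x ∧ ∃ c f, App g.E G x (pr c f) ∧ App g.E f y z := by
  simp [tbS, nat_om, nat_inj.eq_iff]

theorem tbS7 : tbS G m (g.nat 7) x y z ↔ g.E z x ∧ Cl g.E (fun w => RegGeI g.E y w) z ∧
    ∀ u, g.E z u → g.E u x → ¬ Cl g.E (fun w => RegGeI g.E y w) u := by
  simp [tbS, nat_om, nat_inj.eq_iff]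

theorem tb_ext1 {D c : g.M} (h : IsInt g.E c D x) : Ext1 g.E D (tbS G m (g.nat 0) x x) c :=
  fun z => (h z).trans (and_congr_right fun _ => tbS0.symm)

theorem tb_ext2 {D c : g.M} (h : IsInt g.E c D x) :
    ∃ X, Ext2 g.E D (tbS G m (g.nat 1) x) X ∧ OrdRel g.E X c := by
  obtain ⟨X, hX⟩ := exists_ext2 D (tbS_tm2 G m (g.nat 1) x)
  refine ⟨X, hX, fun u v => ?_⟩
  rw [ext2_app hX, tbS1, h u, h v]
  exact ⟨fun ⟨a, b, c, d, e⟩ => ⟨⟨a, c⟩, ⟨b, d⟩, e⟩, fun ⟨⟨a, c⟩, ⟨b, d⟩, e⟩ => ⟨a, b, c, d, e⟩⟩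

theorem tb_int {D : g.M} (h : Sub g.E x D) : IsInt g.E x D x :=
  fun z => ⟨fun k => ⟨h z k, k⟩, fun k => k.2⟩

end

theorem Facts.not_works_mid {α γ : Ordinal.{1}} {k s m : g.M} (F : g.Facts α γ k s) (q : Bool)
    (hm : IsCard g.E m) (hs : g.E s m) (hk : g.E m k) : ¬ Works g.E α q m := by
  intro hW
  have os := isOrd_of_E hm.1 hs
  obtain ⟨a, as, ha'⟩ := F.al
  have ha : Rep g.E a α := ⟨isOrd_of_E os as, ha'⟩
  have im : Inf g.E m := (inf_iff hm.1).2 (Or.inl (lt_lt hm.1 F.om_s hs))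
  obtain ⟨G, G', hG, hG'⟩ := exists_fun' (A := sc m) (Q := fun x y => Inf g.E x → ¬ IsReg g.E x →
    ∃ c f, y = pr c f ∧ g.E c x ∧ Fnl g.E f ∧ CofMap g.E f c x)
    (by unfold Fnl CofMap; fun_prop) (fun x hx => by
      by_cases h : Inf g.E x ∧ ¬ IsReg g.E x
      · obtain ⟨c, f, h'⟩ := cof_of_not_reg (isOrd_of_leq hm.1 (E_sc.1 hx)) h.1 h.2
        exact ⟨pr c f, fun _ _ => ⟨c, f, rfl, h'⟩⟩
      · exact ⟨x, fun h₁ h₂ => absurd ⟨h₁, h₂⟩ h⟩)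
  obtain ⟨B, hB, lb⟩ := exists_lb (α := α) (q := q) (L := sc s) (A := sc m) (tbS_tm G m)
    ⟨m, lt_sc m⟩ hW (lt_iff.2 ⟨_, sc_lt_card hm im hs, leC_refl _⟩)
  have nL : ∀ n, g.E (g.nat n) (sc s) := fun n => E_sc.2 (Or.inl (lt_lt os (nat_om n) F.om_s))
  obtain ⟨x₀, hx₀⟩ := lb.ne
  have mB : g.E m B := by
    obtain ⟨z, h₁, h₂⟩ := lb.cl _ x₀ x₀ (nL 2) hx₀ hx₀ ⟨m, lt_sc m, tbS2.2 rfl⟩
    exact tbS2.1 h₂ ▸ h₁
  have nB : ∀ n, g.E (g.nat n) B := fun n => by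
    induction n with
    | zero =>
      obtain ⟨z, h₁, h₂⟩ := lb.cl _ x₀ x₀ (nL 3) hx₀ hx₀ ⟨_, E_sc.2 (zero_leq hm.1), tbS3.2 rfl⟩
      exact tbS3.1 h₂ ▸ h₁
    | succ n ih =>
      obtain ⟨z, h₁, h₂⟩ := lb.cl _ _ _ (nL 4) ih ih ⟨_, E_sc.2 (sc_leq hm.1
        (leq_lt hm.1 (E_sc.1 (nL n)) hs)), tbS4.2 rfl⟩
      rw [← sc_nat]
      exact tbS4.1 h₂ ▸ h₁
  have sB : ∀ x, Leq g.E x s → g.E x B := fun x hx => by
    by_cases h : g.E x g.om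
    · obtain ⟨n, rfl⟩ := E_om.1 h
      exact nB n
    · obtain ⟨z, h₁, h₂⟩ := lb.cl x x₀ x₀ (E_sc.2 hx) hx₀ hx₀
        ⟨x, E_sc.2 (Or.inl (leq_lt hm.1 hx hs)), (tbS_big h).2 rfl⟩
      exact (tbS_big h).1 h₂ ▸ h₁
  obtain ⟨la, ⟨laB, nla⟩, hmin'⟩ := exists_min (Q := fun x => g.E x B ∧ ¬ Sub g.E x B)
    ⟨m, mB, fun h => not_lt_of_leC hm (leC_of_sub h) hB⟩
  have hmin : ∀ y, g.E y la → g.E y B → Sub g.E y B := fun y h₁ h₂ => by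
    by_contra h
    exact hmin' y h₁ ⟨h₂, h⟩
  have lam : Leq g.E la m := E_sc.1 (lb.sub la laB)
  have ola := isOrd_of_leq hm.1 lam
  have laA : Sub g.E la (sc m) := fun x hx => E_sc.2 (Or.inl (lt_leq hm.1 hx lam))
  have sla : g.E s la := lt_of_not_leq os ola fun h =>
    nla fun x hx => sB x (Or.inl (lt_leq os hx h))
  obtain ⟨c₀, hc₀⟩ := exists_int B la
  have oc : IsOrd g.E c₀ := isOrd_of_trans (fun x hx => isOrd_of_E ola ((hc₀ x).1 hx).2)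
    fun x y hx hy => (hc₀ y).2 ⟨hmin x ((hc₀ x).1 hx).2 ((hc₀ x).1 hx).1 y hy,
      lt_lt ola hy ((hc₀ x).1 hx).2⟩
  have cla : g.E c₀ la := (leq_of_sub oc ola fun x hx => ((hc₀ x).1 hx).2).resolve_right
    fun e => nla fun x hx => ((hc₀ x).1 (e ▸ hx)).1
  have rla : IsReg g.E la := by
    by_contra h
    obtain ⟨p, -, hp⟩ := fun_ex hG (E_sc.2 lam)
    obtain ⟨c, f, rfl, h₁, h₂, h₃⟩ := hG' _ _ hp
      ((inf_iff ola).2 (Or.inl (lt_lt ola F.om_s sla))) h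
    have cB : g.E c B := by
      obtain ⟨z, k₁, k₂⟩ := lb.cl _ la la (nL 5) laB laB ⟨c, laA c h₁, tbS5.2 ⟨f, hp⟩⟩
      obtain ⟨f', k₃⟩ := tbS5.1 k₂
      exact (pr_inj.1 (fun_uniq hG k₃ hp)).1 ▸ k₁
    refine nla fun x hx => ?_
    obtain ⟨i, y, k₁, k₂, k₃, k₄⟩ := h₃ x hx
    obtain ⟨z, j₁, j₂⟩ := lb.cl _ la i (nL 6) laB (hmin c h₁ cB i k₁)
      ⟨y, laA y k₂, tbS6.2 ⟨k₂, c, f, hp, k₃⟩⟩
    obtain ⟨-, c', f', j₃, j₄⟩ := tbS6.1 j₂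
    obtain ⟨-, rfl⟩ := pr_inj.1 (fun_uniq hG j₃ hp)
    obtain rfl := h₂ _ _ _ j₄ k₃
    exact k₄.elim (hmin z k₂ j₁ x) fun e => e ▸ j₁
  obtain ⟨δ, hδ, rat⟩ := exists_regAt rla (F.gap la sla (leq_lt F.k_ord lam hk))
  obtain ⟨d, da, hd⟩ := rep_lt ha hδ
  have ds : g.E d s := lt_lt os da as
  have dB : g.E d B := sB d (Or.inl ds)
  have dla : g.E d la := lt_lt ola ds sla
  have ratI := (regAtI_iff hd).2 rat
  have key : ¬ RegAtI g.E d c₀ := by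
    obtain ⟨-, y, h₁, h₂⟩ := ratI
    obtain ⟨z, k₁, k₂⟩ := lb.cl _ la d (nL 7) laB dB ⟨y, laA y h₁, tbS7.2 ⟨h₁, h₂⟩⟩
    obtain ⟨k₃, -, k₄⟩ := tbS7.1 k₂
    exact fun h => k₄ c₀ ((hc₀ z).2 ⟨k₁, k₃⟩) cla h.1
  have inA : ∀ x, g.E x la → IsInt g.E x (sc m) x := fun x hx =>
    tb_int fun y hy => laA y (lt_lt ola hy hx)
  obtain ⟨Z, hZ, oZ⟩ := tb_ext2 (G := G) (m := m) (inA d dla)
  obtain ⟨W, hW', oW⟩ := tb_ext2 (G := G) (m := m) (tb_int (hmin d dla dB))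
  have uW : ∀ d', g.E d' a → OtpI g.E W d' → d' = d := fun d' h₁ h₂ =>
    otpI_uniq (isOrd_of_E ha.1 h₁) hd.1 h₂ (otpI_ordRel hd.1 oW)
  cases q with
  | false =>
    obtain ⟨l, h₁, d', h₂, h₃, h₄⟩ := (rr_iff ha).1 ((lb.hR rfl _ _ la d la Z c₀ W (nL 0) (nL 1) laB
      dB (tb_ext1 (tb_int laA)) hZ (tb_ext1 hc₀) hW').1
      ((rr_iff ha).2 ⟨la, eqC_refl la, d, da, otpI_ordRel hd.1 oZ, ratI⟩))
    obtain rfl := uW d' h₂ h₃
    have cc : IsCard g.E c₀ := isCard_of_not_eqC oc fun b hb h => by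
      obtain ⟨b₁, b₂⟩ := (hc₀ b).1 hb
      exact rla.1.2 b b₂ (EqC.ge ((lb.eqc _ b la b la b c₀ (nL 0) b₁ laB (tb_ext1 (inA b b₂))
        (tb_ext1 (tb_int laA)) (tb_ext1 (tb_int (hmin b b₂ b₁))) (tb_ext1 hc₀)).2 h))
    obtain rfl := card_eq cc (RegAt.reg ((regAtI_iff hd).1 h₄)).1 (EqC.le h₁) (EqC.ge h₁)
    exact key h₄
  | true =>
    obtain ⟨X, hX, oX⟩ := tb_ext2 (G := G) (m := m) (tb_int laA)
    obtain ⟨Y, hY, oY⟩ := tb_ext2 (G := G) (m := m) hc₀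
    have cX := cof_ordRel rla oX
    obtain ⟨l, h₁, -, d', h₂, h₃, h₄⟩ := (qq_iff ha).1 ((lb.hQ rfl _ la la d X X Z Y Y W (nL 1) laB
      laB dB hX hX hZ hY hY hW').1
      ((qq_iff ha).2 ⟨la, cX, cX, d, da, otpI_ordRel hd.1 oZ, ratI⟩))
    obtain rfl := uW d' h₂ h₃
    rcases cof_ordRel_leq oc oY h₁ with h | rfl
    · obtain ⟨l₁, l₂⟩ := (hc₀ l).1 h
      have rl := RegAt.reg ((regAtI_iff hd).1 h₄)
      obtain ⟨X', hX', oX'⟩ := tb_ext2 (G := G) (m := m) (inA l l₂)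
      obtain ⟨Y', hY', oY'⟩ := tb_ext2 (G := G) (m := m) (tb_int (hmin l l₂ l₁))
      obtain ⟨l', k₁, k₂, -⟩ := (qq_iff ha).1 ((lb.hQ rfl _ la l d' X X' Z Y Y' W (nL 1) laB
        l₁ dB hX hX' hZ hY hY' hW').2
        ((qq_iff ha).2 ⟨l, h₁, cof_ordRel rl oY', d', h₂, h₃, h₄⟩))
      obtain rfl := cof_uniq k₁ cX
      obtain rfl := cof_uniq k₂ (cof_ordRel rl oX')
      exact E_irrefl _ l₂
    · exact key h₄

end Gen

end Pool.Agent.MP_85ce7b_lc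

end

section

namespace Pool.Agent.MP_85ce7b_lc

open Pool.Agent.MP_c6cf52_lc

namespace Gen

variable {P : Type 2} [Sz P] [Preorder P] [OrderTop P] [Tame P] {g : Gen P}

theorem Facts.lst {α γ : Ordinal.{1}} {k s : g.M} (h : g.Facts α γ k s) (q : Bool) :
    LST g.E α q k :=
  ⟨h.k_ge.reg.1, h.k_ge.reg.2.1, h.works q, fun m h₁ h₂ h₃ => by
    by_cases h₄ : g.E s m
    · exact h.not_works_mid q h₂ h₄ h₁
    · exact h.not_works_low q h₂ h₃ (leq_of_not_lt h₂.1 (isOrd_of_E h.k_ord h.s_k) h₄)⟩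

theorem Facts.main {α γ : Ordinal.{1}} {k s : g.M} (h : g.Facts α γ k s) (hα : 0 < α) :
    Nth g.E α γ k ∧ LST g.E α true k ∧ LST g.E α false k := by
  have _ := hα
  have hs := isOrd_of_E h.k_ord h.s_k
  refine ⟨⟨regAt_iff.2 ⟨h.k_ge, fun e => ?_, fun H => ?_⟩, ?_⟩, h.lst _, h.lst _⟩
  · exact E_asymm h.om_s (e ▸ h.s_k)
  · obtain ⟨z, h₁, h₂, h₃⟩ := H.2 s h.s_k
    exact h.gap z h₂ h₁ h₃
  · obtain ⟨e, h₁, h₂⟩ := h.low
    refine ⟨e, h₁, fun x => Iff.trans (and_congr_right fun hx => ⟨fun hk => ?_, fun hk =>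
      leq_lt h.k_ord hk h.s_k⟩) (h₂ x)⟩
    exact leq_of_not_lt (isOrd_of_E h.k_ord hk) hs fun h' => h.gap x h' hk (regAt_iff.1 hx).1

end Gen

end Pool.Agent.MP_85ce7b_lc

end
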