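import Pool.Agent.Mg.F85ce7b.Gb68bf5
import Pool.Agent.Mg.F85ce7b.G06f2c3
import Pool.Agent.Mg.F85ce7b.G9efb9d

section

namespace Pool.Agent.MP_85ce7b_lc

open Pool.Agent.MP_c6cf52_lc Name Set Cardinal Ordinal Dat

namespace Ctx

variable {C : Ctx}

/-- The semantic description of the hull given by a master condition. -/
structure HD (g : Gen C.Po) (X : Set Od) (μ top : Od) (e : Od → Od) (Y π : g.M) : Prop where
  nice : Nice C X μ top e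
  cond : ∃ ρ ∈ g.G, Spec ρ.r μ ∧ Intv ρ.r μ (top + 1)
  ink : g.In C.kap
  inm : g.In μ
  app : ∀ s t, App g.E π s t ↔ ∃ b < top, g.In (e b) ∧ g.In b ∧ s = g.o (e b) ∧ t = g.o b
  ord : ∀ x, g.E x Y → IsOrd g.E x → ∃ y, App g.E π x y
  up : ∀ b < top, g.In b → g.In (e b)
  mem : ∀ a ∈ X, g.In a → g.E (g.o a) Y
  lt : Lt g.E Y (g.o C.kap)
  pair : ∀ a b p, g.E a Y → g.E b Y → IsPair g.E p a b → g.E p Y

theorem fh_lt_iff {X : Set Od} {μ top : Od} {e : Od → Od} (h : Nice C X μ top e) {a b : Od}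
    (ha : a < top) (hb : b < top) : e a < e b ↔ a < b := by
  refine ⟨fun k => ?_, fun k => h.mono a b k hb⟩
  rcases lt_trichotomy a b with k' | rfl | k'
  · exact k'
  · exact absurd k (lt_irrefl _)
  · exact absurd (h.mono b a k' ha) k.not_gt

theorem fh_inj {X : Set Od} {μ top : Od} {e : Od → Od} (h : Nice C X μ top e) {a b : Od}
    (ha : a < top) (hb : b < top) (k : e a = e b) : a = b :=
  le_antisymm (not_lt.1 fun k' => ((fh_lt_iff h hb ha).2 k').ne' k)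
    (not_lt.1 fun k' => ((fh_lt_iff h ha hb).2 k').ne k)

theorem fh_lt_kap {X : Set Od} {μ top : Od} {e : Od → Od} (h : Nice C X μ top e) {b : Od}
    (hb : b < top) : e b < C.kap ↔ b < μ := by
  rw [← h.kap, fh_lt_iff h hb h.mu_lt]

theorem fh_kap_lt {X : Set Od} {μ top : Od} {e : Od → Od} (h : Nice C X μ top e) {b : Od}
    (hb : b < top) : C.kap < e b ↔ μ < b := by
  rw [← h.kap, fh_lt_iff h h.mu_lt hb]

theorem fh_intv {p : Raw} {a b c : Od} (h : Intv p a b) (hc : c ≤ b) : Intv p a c :=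
  ⟨fun _ hx => h.1 ⟨hx.1, hx.2.trans hc⟩, fun x h₁ h₂ => h.2 x h₁ (h₂.trans hc)⟩

theorem fh_sing {g : Gen C.Po} {z : Od} (hz : Order.IsSuccLimit z) (hn : ¬ Inac z)
    (h : g.In (C.B z).ord) : ¬ IsReg g.E (g.o (C.B z).ord) :=
  Gen.not_reg_ground h (ord_lt_ord.2 (C.bf.singular hz hn))

/-- The cardinal structure above `κ` is reflected by the collapse. -/
theorem HD.above {g : Gen C.Po} {X : Set Od} {μ top : Od} {e : Od → Od} {Y π : g.M}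
    (h : HD g X μ top e Y π) {b : Od} (hb : b < top) (h₁ : g.In (e b)) (h₂ : g.In b)
    (hk : C.kap < e b) (hc : IsCard g.E (g.o (e b))) :
    (IsReg g.E (g.o (e b)) ∧ Succ g.E (g.o (e b)) ∧ IsReg g.E (g.o b) ∧ Succ g.E (g.o b)) ∨
      (IsCard g.E (g.o b) ∧ ¬ IsReg g.E (g.o (e b)) ∧ ¬ IsReg g.E (g.o b)) := by
  have hn := h.nice
  obtain ⟨ρ, hρ, hs, hi⟩ := h.cond
  have hX : e b ∈ X := (hn.rng _).2 ⟨b, hb, rfl⟩
  rcases card_above hk h₁ hc with ⟨z, z₁, z₂⟩ | ⟨z, z₁, z₂, z₃⟩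
  · obtain ⟨y, hy, rfl⟩ := (hn.rng z).1 (hn.idx _ hX z z₁ (Or.inr z₂))
    have y₁ : μ ≤ y := not_lt.1 fun k => ((fh_lt_kap hn hy).2 k).not_ge z₁
    have y₂ := (hn.succ y hy).1
    have y₃ : (Order.succ (C.B y)).ord < top :=
      (ord_le_ord.2 (C.bf.succ_le (lt_add_one y))).trans_lt
        (hn.beth _ (y₁.trans (lt_add_one y).le) y₂).1
    obtain rfl : b = (Order.succ (C.B y)).ord :=
      fh_inj hn hb y₃ (z₂.trans (hn.sbeth y y₁ hy).symm)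
    have y₄ : y + 1 ≤ top + 1 := y₂.le.trans (lt_add_one top).le
    have y₅ : y + 1 ∈ ρ.r.c := hi.1 ⟨y₁.trans (lt_add_one y).le, y₄⟩
    have y₆ : y ≤ top + 1 := (lt_add_one y).le.trans y₄
    refine Or.inl ⟨?_, ?_, ?_, Gen.succ_ground h₂⟩
    · rw [z₂] at h₁ ⊢
      exact reg_T z₁ h₁
    · rw [z₂] at h₁ ⊢
      exact Gen.succ_ground h₁
    · rcases y₁.eq_or_lt with rfl | y₇
      · exact reg_succ_pt hρ (Or.inr hs) y₅ h₂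
      · rcases Order.mem_range_succ_or_isSuccPrelimit y with ⟨x, hx⟩ | hp
        · exact reg_succ_pt hρ (Or.inl (Or.inl ⟨hi.1 ⟨y₁, y₆⟩, hi.2 y y₇ y₆, x,
            by rw [← hx, Order.succ_eq_add_one]⟩)) y₅ h₂
        · exact reg_succ_lim hρ (fh_intv hi y₄) y₇
            ⟨(lt_of_le_of_lt zero_le y₇).not_isMin, hp⟩ (hn.noin y y₇ y₆) h₂
  · obtain ⟨y, hy, rfl⟩ := (hn.rng z).1 (hn.idx _ hX z z₁.le (Or.inl z₃))
    have y₁ : μ < y := (fh_kap_lt hn hy).1 z₁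
    obtain ⟨y₂, y₃⟩ := hn.beth y y₁.le hy
    obtain rfl : b = (C.B y).ord := fh_inj hn hb y₂ (z₃.trans y₃.symm)
    have y₆ : y ≤ top + 1 := hy.le.trans (lt_add_one top).le
    have hl : Order.IsSuccLimit y := by
      refine ⟨(lt_of_le_of_lt zero_le y₁).not_isMin, ?_⟩
      rcases Order.mem_range_succ_or_isSuccPrelimit y with ⟨x, hx⟩ | hp
      · rw [Order.succ_eq_add_one] at hx
        subst hx
        rw [(hn.succ x ((lt_add_one x).trans hy)).2] at z₂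
        exact absurd (z₂.add_one_lt (lt_add_one _)) (lt_irrefl _)
      · exact hp
    refine Or.inr ⟨card_lim_int hρ (fh_intv hi y₆) y₁ hl h₂, ?_,
      fh_sing hl (hn.noin y y₁ y₆) h₂⟩
    rw [z₃] at h₁ ⊢
    exact fh_sing z₂ (C.noin _ z₁ ((C.bf.le_ord _).trans_lt h₁.1)) h₁

theorem HD.hull {g : Gen C.Po} {X : Set Od} {μ top : Od} {e : Od → Od} {Y π : g.M}
    (h : HD g X μ top e Y π) :
    Hull g.E (g.o C.kap) g.om Y π (g.o μ) ∧ Sub g.E (g.o μ) Y := by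
  have hn := h.nice
  have hmk : μ < C.kap := hn.mu_lt.trans hn.top_lt
  have hsub : Sub g.E (g.o μ) Y := fun x hx => by
    obtain ⟨b, hb, hb', rfl⟩ := (Gen.E_o h.inm).1 hx
    exact h.mem b ((hn.rng b).2 ⟨b, hb.trans hn.mu_lt, hn.id b hb⟩) hb'
  obtain ⟨ρ, hρ, hs, -⟩ := h.cond
  refine ⟨⟨h.lt, h.mem _ ((hn.rng _).2 ⟨μ, hn.mu_lt, hn.kap⟩) h.ink,
    (Gen.o_lt_iff h.inm h.ink).2 hmk, fun x => ⟨fun hx => ⟨hsub x hx, ?_⟩, fun ⟨h₁, h₂⟩ => ?_⟩,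
    (h.app _ _).2 ⟨μ, hn.mu_lt, hn.kap.symm ▸ h.ink, h.inm, by rw [hn.kap], rfl⟩,
    fun x y y' k k' => ?_, h.pair, cof_spec hρ hs h.inm, fun x hx ho => ?_⟩, hsub⟩
  · exact Gen.lt_lt (Gen.isOrd_o h.ink) hx ((Gen.o_lt_iff h.inm h.ink).2 hmk)
  · obtain ⟨y, hy⟩ := h.ord x h₁ (Gen.isOrd_of_E (Gen.isOrd_o h.ink) h₂)
    obtain ⟨b, hb, b₁, -, rfl, -⟩ := (h.app _ _).1 hy
    have k := (fh_lt_kap hn hb).1 ((Gen.o_lt_iff b₁ h.ink).1 h₂)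
    exact (Gen.o_lt_iff b₁ h.inm).2 ((hn.id b k).trans_lt k)
  · obtain ⟨b, hb, b₁, -, rfl, rfl⟩ := (h.app _ _).1 k
    obtain ⟨c, hc, c₁, -, c₂, rfl⟩ := (h.app _ _).1 k'
    rw [fh_inj hn hb hc (Gen.o_inj b₁ c₁ c₂)]
  · obtain ⟨y, hy⟩ := h.ord x hx ho
    obtain ⟨b, hb, b₁, b₂, rfl, rfl⟩ := (h.app _ _).1 hy
    refine ⟨_, hy, Gen.isOrd_o b₂, fun z => ⟨fun hz => ?_, fun ⟨w, _, w₂, w₃⟩ => ?_⟩,
      fun k => ?_, fun k => ?_, fun k k' => ?_⟩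
    · obtain ⟨c, hc, c₁, rfl⟩ := (Gen.E_o b₂).1 hz
      have c₂ := hc.trans hb
      have c₃ := h.up c c₂ c₁
      exact ⟨g.o (e c), h.mem _ ((hn.rng _).2 ⟨c, c₂, rfl⟩) c₃,
        (Gen.o_lt_iff c₃ b₁).2 (hn.mono c b hc hb), (h.app _ _).2 ⟨c, c₂, c₃, c₁, rfl, rfl⟩⟩
    · obtain ⟨c, hc, c₁, c₂, rfl, rfl⟩ := (h.app _ _).1 w₃
      exact (Gen.o_lt_iff c₂ b₂).2 ((fh_lt_iff hn hc hb).1 ((Gen.o_lt_iff c₁ b₁).1 w₂))
    · rw [hn.id b ((fh_lt_kap hn hb).1 ((Gen.o_lt_iff b₁ h.ink).1 k))]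
    · rcases lt_trichotomy b μ with k' | rfl | k'
      · rwa [hn.id b k'] at k
      · exact card_spec hρ hs b₂
      · rcases h.above hb b₁ b₂ ((fh_kap_lt hn hb).2 k') k with k₁ | k₁
        exacts [k₁.2.2.1.1, k₁.1]
    · exact (h.above hb b₁ b₂ ((Gen.o_lt_iff h.ink b₁).1 k) k').imp id fun k₁ => k₁.2

end Ctx

end Pool.Agent.MP_85ce7b_lc

end

section

namespace Pool.Agent.MP_85ce7b_lc

open Set Cardinal Ordinal Dat Filter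

namespace Ctx

/-- Extensions of `σ` below the level `y`. -/
def Md (C : Ctx) (σ : C.Po) (y : Od) (t : Tri) : Prop :=
  C.TV t ∧ σ.t ⊆ t ∧ ∀ z ∈ t, y ≤ z.1 → z ∈ σ.t

theorem card_md {C : Ctx} {y : Od} (σ : C.Po) (hy : C.Lev y) :
    Cardinal.mk {t | C.Md σ y t} ≤ lift.{2} (C.B y) := by
  refine le_trans (mk_le_of_injective (f := fun t : {t | C.Md σ y t} =>
    (⟨glue y ⟨σ.r, t.1, σ.hr, t.2.1⟩ ⊤, glue_top_mem _ _⟩ : C.Low y)) fun t t' e => ?_) (card_low hy)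
  have k : ∀ t t' : {t | C.Md σ y t}, (glue y ⟨σ.r, t.1, σ.hr, t.2.1⟩ ⊤).t =
      (glue y ⟨σ.r, t'.1, σ.hr, t'.2.1⟩ ⊤).t → t.1 ⊆ t'.1 := fun t t' e z hz => by
    rcases lt_or_ge z.1 y with h | h
    · exact (e.subset (Or.inl ⟨hz, h⟩)).elim (fun k => k.1) fun k => k.1.elim
    · exact t'.2.2.1 (t.2.2.2 z hz h)
  have e' := congrArg (fun w : C.Low y => w.1.t) e
  exact Subtype.ext (subset_antisymm (k _ _ e') (k _ _ e'.symm))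

section

variable {C : Ctx} {Ex : Type 3} {emb : Od → Ex} {op : Ex → Ex → Ex}
  {G : Ex → C.Po → Ex → Od → Prop} {π₀ σ : C.Po} {lam : Od} {y : ℕ → Od} {en : Od → Ex}
  (T : C.Tw emb op G π₀ lam y σ en)
include T

theorem Tw.succ_lt {x : Od} (hx : x < lam) : (Order.succ (C.B x)).ord < lam :=
  (ord_le_ord.2 (C.bf.succ_le (lt_add_one x))).trans_lt (T.beth x hx)

theorem Tw.md_lt {n : ℕ} {t : Tri} (h : C.Md σ (y n) t) {x i c : Od} (k : (x, i, c) ∈ t) :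
    x < lam ∧ i < lam ∧ c < lam := by
  have hx : x < lam := (lt_or_ge x (y n)).elim (fun e => e.trans (T.lt n))
    fun e => T.supp _ (h.2.2 _ k e)
  obtain ⟨j, h₁, h₂⟩ := h.1.dom x
  exact ⟨hx, (h₂ i c k).trans (h₁.trans (T.succ_lt hx)), (h.1.rng x i c k).2.trans (T.beth x hx)⟩

theorem Tw.exists_cd : ∃ cd : Od → Tri, ∀ n t, C.Md σ (y n) t → ∃ c < lam, cd c = t := by
  have k : ∀ n, C.B (y n) ≤ lam.card := fun n => by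
    simpa using card_le_card ((ord_le_ord.2 (C.bf.mono (lt_add_one _).le)).trans
      (T.beth _ (T.lt n)).le)
  obtain ⟨cd, h⟩ := exists_enum_of_le (S := ⋃ n : ULift.{2} ℕ, {t | C.Md σ (y n.down) t})
    (c := lam.card) ((mk_iUnion_le _).trans (mul_le_of_le
      (aleph0_le_lift.2 ((C.bf.aleph0_le _).trans (k 0)))
      (mk_le_aleph0.trans (aleph0_le_lift.2 ((C.bf.aleph0_le _).trans (k 0))))
      (ciSup_le' fun n => (card_md σ (T.lev _)).trans (Cardinal.lift_le.2 (k _)))))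
  exact ⟨cd, fun n t e => (h t (mem_iUnion.2 ⟨⟨n⟩, e⟩)).imp fun _ k =>
    ⟨k.1.trans_le (ord_card_le lam), k.2⟩⟩

theorem Tw.den (mono : ∀ x m m' τ a, G x m τ a → m' ≤ m → G x m' τ a)
    (dense : ∀ x π, ∃ m ≤ π, ∃ τ, ∃ a < C.th.ord, G x m τ a) {i : Od} (hi : i < lam) :
    ∃ n, ∀ t r, C.Md σ (y n) t → C.LeT C.kap r σ.r → ∃ ρ : C.Po, C.LeT C.kap ρ.r r ∧
      C.Md σ (y n) ρ.t ∧ t ⊆ ρ.t ∧ ∃ j < lam, ∃ a < lam, G (en i) ρ (en j) a := by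
  obtain ⟨n, hn⟩ := T.red i hi
  refine ⟨n, fun t r ht hr => ?_⟩
  obtain ⟨ρ, h₁, h₂⟩ := dense (en i) ⟨r, t, inR_le σ.hr hr, ht.1⟩
  obtain ⟨j, hj, a, ha, h₃⟩ := hn ρ (h₁.trans (le_of_sub hr ht.2.1)) h₂
  obtain ⟨σ', h₄, h₅⟩ := pred_fill h₁ C.kap
  have h₆ : t ⊆ (glue (y n) (glue C.kap ρ σ') σ).t := fun z hz => (lt_or_ge z.1 (y n)).imp
    (fun e => ⟨Or.inr ⟨h₄.2.1 hz, (ht.1.rng _ _ _ hz).1⟩, e⟩) fun e => ⟨ht.2.2 z hz e, e⟩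
  refine ⟨glue (y n) (glue C.kap ρ σ') σ, h₁.1, ⟨Po.ht _, ht.2.1.trans h₆, fun z hz e =>
    hz.elim (fun k => absurd k.2 e.not_gt) fun k => k.1⟩, h₆, j, hj, a, ha,
    mono _ _ _ _ _ h₃ ⟨pred_refl ρ, ?_⟩⟩
  rintro x i c (k | k)
  · obtain ⟨c', k₁, k₂⟩ := h₅.2 x i c k.1
    exact ⟨c', Or.inl ⟨k₁, k.2⟩, k₂⟩
  · exact ⟨c, Or.inr k, eqv_refl ρ.hr _⟩

theorem Tw.md_tc {U : Ultrafilter (Set Od)} (h : SCO C.kap lam U) {n : ℕ} {S : Set Od → Tri}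
    (k : ∀ᶠ X in U, C.Tc σ X (y n) (S X)) :
    C.Md σ (y n) {z | (∀ᶠ X in U, z ∈ S X) ∨ (z ∈ σ.t ∧ y n ≤ z.1)} := by
  have k₁ : ∀ {x i c}, (∀ᶠ X in (U : Filter (Set Od)), (x, i, c) ∈ S X) →
      C.kap ≤ x ∧ x < y n ∧ c < (C.B (x + 1)).ord := fun e =>
    let ⟨_, e₁, e₂⟩ := (k.and e).exists
    e₁.rng _ _ _ e₂
  refine ⟨⟨fun x i c e => e.elim (fun e => ⟨(k₁ e).1, (k₁ e).2.2⟩) fun e => σ.ht.rng x i c e.1, ?_,
    fun x => ?_, lam, T.th, fun x i c e => e.elim (fun e => (k₁ e).2.1.trans (T.lt n))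
      fun e => T.supp _ e.1⟩, fun ⟨x, i, c⟩ hz => ?_, fun ⟨x, i, c⟩ hz e => hz.elim
        (fun k => absurd (k₁ k).2.1 e.not_gt) fun k => k.1⟩
  · rintro x i c c' (e | e) (e' | e')
    · obtain ⟨X, e₁, e₂, e₃⟩ := (k.and (e.and e')).exists
      exact e₁.fn x i c c' e₂ e₃
    · exact absurd (k₁ e).2.1 e'.2.not_gt
    · exact absurd (k₁ e').2.1 e.2.not_gt
    · exact σ.ht.fn x i c c' e.1 e'.1
  · rcases lt_or_ge x (y n) with hx | hx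
    · have k₂ : ∀ᶠ X in (U : Filter (Set Od)), ∃ j ∈ X, j < (Order.succ (C.B x)).ord ∧
          ∀ i c, (x, i, c) ∈ S X → i < j := by
        filter_upwards [k, h.fine x (hx.trans (T.lt n))] with X e₁ e₂
        exact e₁.dom x e₂
      obtain ⟨f, hf⟩ := k₂.choice
      obtain ⟨j, -, hj⟩ := h.const (hf.mono fun _ e => e.1)
      obtain ⟨X, e₁, e₂⟩ := (hf.and hj).exists
      refine ⟨j, e₂ ▸ e₁.2.1, fun i c e => e.elim (fun e => ?_) fun e => absurd hx e.2.not_gt⟩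
      obtain ⟨Y, n₁, n₂, n₃⟩ := (hf.and (hj.and e)).exists
      exact n₂ ▸ n₁.2.2 i c n₃
    · exact (σ.ht.dom x).imp fun j e => ⟨e.1, fun i c e' => e'.elim
        (fun e' => absurd (k₁ e').2.1 hx.not_gt) fun e' => e.2 i c e'.1⟩
  · refine (lt_or_ge x (y n)).imp (fun e => ?_) fun e => ⟨hz, e⟩
    obtain ⟨e₁, e₂, e₃⟩ := T.md_lt (n := n) ⟨σ.ht, subset_rfl, fun _ e _ => e⟩ hz
    filter_upwards [k, h.fine x e₁, h.fine i e₂, h.fine c e₃] with X n₁ n₂ n₃ n₄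
    exact n₁.sub x n₂ i n₃ c n₄ hz e

end

/-- The master condition lemma. -/
theorem master (C : Ctx) {Ex : Type 3} (emb : Od → Ex) (op : Ex → Ex → Ex)
    (G : Ex → C.Po → Ex → Od → Prop)
    (mono : ∀ x m m' τ a, G x m τ a → m' ≤ m → G x m' τ a)
    (dense : ∀ x π, ∃ m ≤ π, ∃ τ, ∃ a < C.th.ord, G x m τ a)
    (π₀ : C.Po) {ξ : Od} (hξ : ξ < C.kap) :
    ∃ (XE : Set Ex) (X : Set Od) (μ top : Od) (e : Od → Od) (π : C.Po), π ≤ π₀ ∧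
      Nice C X μ top e ∧ X ⊆ Iio C.th.ord ∧ ξ ≤ μ ∧ Spec π.r μ ∧ Intv π.r μ (top + 1) ∧
      (∃ ν < C.kap, ∃ en : Od → Ex, XE = en '' Iio ν) ∧ (∀ a ∈ X, emb a ∈ XE) ∧
      (∀ x ∈ XE, ∀ x' ∈ XE, op x x' ∈ XE) ∧
      ∀ x ∈ XE, ∀ ρ ≤ π, ∃ ρ' ≤ ρ, ∃ τ ∈ XE, ∃ a ∈ X, G x ρ' τ a := by
  obtain ⟨lam, y, σ, en, T⟩ := C.exists_tower emb op G mono π₀
  obtain ⟨U, h⟩ := C.sco T.th
  obtain ⟨cd, hcd⟩ := T.exists_cd
  have hl : C.kap < lam := (pred_lev_le (T.lev 0)).trans_lt (T.lt 0)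
  have hω := C.kin.omega_lt
  have hb : ∀ {b}, Bdd C.kap b → ∀ᶠ X in (U : Filter (Set Od)), Bdd (mu X) b :=
    fun ⟨a, e₁, e₂⟩ => (h.lt_mu hl.le e₁).mono fun _ e => ⟨a, e, e₂⟩
  have a₀ := C.pre_nice h hl T.th T.beth ⟨y, T.lt, T.cof⟩
  have a₁ : ∀ {n t}, C.Md σ (y n) t → ∀ᶠ X : Set Od in U, ∃ c ∈ X, cd c = t := fun e =>
    let ⟨c, e₁, e₂⟩ := hcd _ _ e
    mem_of_superset (h.fine c e₁) fun _ k => ⟨c, k, e₂⟩
  have a₂ : ∀ᶠ X : Set Od in U, ∀ c ∈ X, ∀ x ∈ X, (∃ j, j < (Order.succ (C.B x)).ord ∧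
      ∀ i d, (x, i, d) ∈ cd c → i < j) → ∃ j ∈ X, j < (Order.succ (C.B x)).ord ∧
        ∀ i d, (x, i, d) ∈ cd c → i < j :=
    h.diag2 fun c _ x hx => h.ex_mem fun j e => e.1.trans (T.succ_lt hx)
  have a₃ : ∀ᶠ X : Set Od in U, ∀ a ∈ X, ∀ b ∈ X, (∃ n, C.Md σ (y n) (cd a)) →
      (∃ n, C.Md σ (y n) (cd b)) → (∃ x i c c', (x, i, c) ∈ cd a ∧ (x, i, c') ∈ cd b ∧ c ≠ c') →
        ∃ x ∈ X, ∃ i ∈ X, ∃ c ∈ X, ∃ c' ∈ X, (x, i, c) ∈ cd a ∧ (x, i, c') ∈ cd b ∧ c ≠ c' :=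
    h.diag2 fun a _ b _ => ev_imp fun k₁ => ev_imp fun k₂ => ev_imp fun k₃ => by
      obtain ⟨_, ⟨n, k₁⟩, ⟨m, k₂⟩, x, i, c, c', k₃⟩ := (k₁.and (k₂.and k₃)).exists
      obtain ⟨e₁, e₂, e₃⟩ := T.md_lt k₁ k₃.1
      filter_upwards [h.fine x e₁, h.fine i e₂, h.fine c e₃, h.fine c' (T.md_lt k₂ k₃.2.1).2.2]
        with X n₁ n₂ n₃ n₄
      exact ⟨x, n₁, i, n₂, c, n₃, c', n₄, k₃⟩
  have a₄ : ∀ᶠ X : Set Od in U, ∀ n S, C.Tc σ X (y n) S → ∃ t, (C.Md σ (y n) t ∧ ∃ c ∈ X, cd c = t) ∧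
      ∀ x ∈ X, ∀ i ∈ X, ∀ c ∈ X, x < y n → ((x, i, c) ∈ t ↔ (x, i, c) ∈ S) :=
    h.ctbl hω fun n => ev_all fun S => ev_imp fun k => by
      filter_upwards [a₁ (T.md_tc h k), h.diag3 fun a _ b _ d _ =>
        SCO.ev_iff fun X => (a, b, d) ∈ S X] with X e₁ e₂
      exact ⟨_, ⟨T.md_tc h k, e₁⟩, fun x hx i hi c hc e => (or_iff_left fun k =>
        absurd e k.2.not_gt).trans (e₂ x hx i hi c hc).symm⟩
  have a₅ : ∀ᶠ X : Set Od in U, ∀ i ∈ X, ∃ n, ∀ c ∈ X, ∀ ζ < mu X, C.Md σ (y n) (cd c) →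
      C.LeT C.kap (C.dec ζ) σ.r → ∃ ρ : C.Po, Bdd (mu X) ρ.r ∧ C.LeT C.kap ρ.r (C.dec ζ) ∧
        (C.Md σ (y n) ρ.t ∧ ∃ c ∈ X, cd c = ρ.t) ∧ cd c ⊆ ρ.t ∧
          ∃ τ ∈ en '' X, ∃ a ∈ X, G (en i) ρ τ a := h.diag fun i hi => by
    obtain ⟨n, hn⟩ := T.den mono dense hi
    refine (h.diag fun c _ => h.diag_mu fun ζ _ => ev_imp fun k₁ => ev_imp fun k₂ => ?_).mono
      fun _ e => ⟨n, e⟩
    obtain ⟨ρ, e₁, e₂, e₃, j, hj, a, ha, e₄⟩ := hn _ _ k₁.exists.choose_spec k₂.exists.choose_spec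
    filter_upwards [hb (pred_bdd ρ.hr), a₁ e₂, h.fine j hj, h.fine a ha] with X n₁ n₂ n₃ n₄
    exact ⟨ρ, n₁, e₁, ⟨e₂, n₂⟩, e₃, _, ⟨j, n₃, rfl⟩, a, n₄, e₄⟩
  have a₆ : ∀ᶠ X : Set Od in U, ∀ a ∈ X, emb a ∈ en '' X := h.diag fun a ha =>
    let ⟨i, e₁, e₂⟩ := T.emb a ha
    mem_of_superset (h.fine i e₁) fun _ k => ⟨i, k, e₂⟩
  have a₇ : ∀ᶠ X : Set Od in U, ∀ i ∈ X, ∀ j ∈ X, op (en i) (en j) ∈ en '' X :=
    h.diag2 fun i hi j hj =>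
      let ⟨k, e₁, e₂⟩ := T.op i hi j hj
      mem_of_superset (h.fine k e₁) fun _ e => ⟨k, e, e₂⟩
  have m₀ : C.Md σ (y 0) σ.t := ⟨σ.ht, subset_rfl, fun _ e _ => e⟩
  obtain ⟨X, ⟨top, e, -, b₀⟩, b₁, b₂, b₃, b₄, b₅, b₆, b₇, b₈, b₉, c₀, c₁, c₂, c₃⟩ :=
    (a₀.and ((a₁ m₀).and (a₂.and (a₃.and (a₄.and (a₅.and (a₆.and (a₇.and
      ((C.sp_ae h (T.beth _ hl) (a₀.mono fun _ ⟨_, e, he, _⟩ => ⟨e, he⟩)).and
      ((h.ctbl hω (Φ := fun n X => y n ∈ X) fun n => h.fine _ (T.lt n)).and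
      ((h.lt_mu hl.le hξ).and ((hb (pred_bdd σ.hr)).and
        (Eventually.and h.sub h.card))))))))))))).exists
  have N := b₀ b₈
  have H : C.Hl σ X {t | (∃ n, C.Md σ (y n) t) ∧ ∃ c ∈ X, cd c = t} :=
    ⟨((mk_le_mk_of_subset (t := cd '' X) fun _ k => k.2).trans mk_image_le).trans c₃.le,
      ⟨⟨0, m₀⟩, b₁⟩, fun _ ⟨⟨_, k⟩, _⟩ => k.1,
      ⟨lam, T.th, fun _ ⟨⟨_, k⟩, _⟩ _ hz => (T.md_lt k hz).1⟩,
      fun _ ⟨⟨_, k⟩, c, k₁, k₂⟩ x hx => k₂ ▸ b₂ c k₁ x hx (k₂ ▸ k.1.dom x),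
      by
        rintro _ ⟨k₁, a, ha, rfl⟩ _ ⟨k₂, b, hb, rfl⟩ k x i c c' e₁ e₂
        by_contra e₃
        obtain ⟨x, hx, i, hi, c, hc, c', hc', n₁, n₂, n₃⟩ :=
          b₃ a ha b hb k₁ k₂ ⟨x, i, c, c', e₁, e₂, e₃⟩
        exact n₃ (k x hx i hi c hc c' hc' n₁ n₂)⟩
  obtain ⟨π, d₁, d₂, d₃, d₄, d₅, K⟩ := exists_mc N H c₁
  refine ⟨en '' X, X, mu X, top, e, π, (K π le_rfl σ H.mem d₁ d₄).trans
    (le_of_sub (T.r ▸ pred_refl σ) T.t), N, fun a ha => lt_trans (c₂ ha) T.th, c₀.le, d₂, d₃,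
    ⟨top, N.top_lt, en ∘ e, ?_⟩, b₆, ?_, ?_⟩
  · rw [image_comp]
    exact congrArg _ (Set.ext N.rng)
  · rintro _ ⟨i, hi, rfl⟩ _ ⟨j, hj, rfl⟩
    exact b₇ i hi j hj
  · rintro _ ⟨i, hi, rfl⟩
    obtain ⟨n, hn⟩ := b₅ i hi
    refine mc_gen (XT' := {t | C.Md σ (y n) t ∧ ∃ c ∈ X, cd c = t}) N H d₂ d₃ d₄ d₅ K
      (fun p q ⟨τ, k₁, a, k₂, k₃⟩ k => ⟨τ, k₁, a, k₂, mono _ _ _ _ _ k₃ k⟩) (b₉ n)
      (pred_lev_le (T.lev n)) (fun _ k => ⟨⟨n, k.1⟩, k.2⟩) ⟨fun _ k => k.1.2.2, b₄ n, ?_⟩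
    rintro _ ⟨k₁, c, hc, rfl⟩ r k₂ k₃
    obtain ⟨ζ, hζ, rfl⟩ := C.hdec _ r (sp_inac N.sp) k₂
    exact hn c hc ζ hζ k₁ k₃

end Ctx

end Pool.Agent.MP_85ce7b_lc

end

section

namespace Pool.Agent.MP_85ce7b_lc

open Pool.Agent.MP_c6cf52_lc Name Set Cardinal Ordinal Dat

theorem UD.fcore_hullAt (i j k l m : ℕ) :
    UDef.{3} (fun _ E w => HullAt E (w i) (w j) (w k) (w l) (w m)) := by
  unfold HullAt
  repeat' first
    | exact UDef.mem _ _ | exact UDef.eq _ _ | exact UDef.app _ _ _ | exact UD.isOrd _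
    | exact UD.isCard _ | exact UD.isReg _ | exact Gen.nbnd_succ _
    | apply UDef.and | apply UDef.or | apply UDef.iff | apply UDef.not | apply UDef.imp
    | apply UDef.all | apply UDef.ex

theorem UD.hull (i j k l m : ℕ) :
    UDef.{3} (fun _ E w => Hull E (w i) (w j) (w k) (w l) (w m)) := by
  unfold Hull
  repeat' first
    | exact UDef.mem _ _ | exact UDef.app _ _ _ | exact UD.isOrd _ | exact UD.lt _ _
    | exact UDef.isPair _ _ _ | exact Gen.nbnd_fnl _ | exact Gen.nbnd_cofMap _ _ _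
    | exact UD.fcore_hullAt _ _ _ _ _
    | apply UDef.and | apply UDef.iff | apply UDef.imp | apply UDef.all | apply UDef.ex

theorem UD.fcore_sat (φ : Fml) (i j n : ℕ) :
    UDef.{3} (fun _ E w => Sat E φ (cons (w i) (cons (w j) (fun k => w (k + n))))) := by
  refine (UDef.sat φ (cons i (cons j (fun k => k + n)))).congr fun M E w => ?_
  have : (fun k => w (cons i (cons j fun k => k + n) k)) =
      cons (w i) (cons (w j) fun k => w (k + n)) := by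
    funext k
    rcases k with _ | _ | k <;> rfl
  rw [this]

theorem Gen.tm_fml {P : Type 2} [Sz P] [Preorder P] [OrderTop P] [Tame P] {g : Gen P}
    {Θ : g.M → g.M → Prop} (h : g.Tm (fun z : g.M × g.M => Θ z.1 z.2)) :
    ∃ (φ : Fml) (l : List (Name P)), (∀ x ∈ l, x ∈ g.N) ∧
      ∀ a y, Θ a y ↔ Sat g.E φ (cons y (cons a (g.w l))) := by
  have h' : g.PD (fun w => Θ (w 1) (w 0)) := by
    refine (Gen.PD.ex (Θ := fun w q => q = Gen.pr (w 1) (w 0) ∧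
      ∃ z : g.M × g.M, Gen.Cd.ι z = q ∧ Θ z.1 z.2)
      ((Gen.PD.pr _ _ _).and (Gen.D1.at h.df _))).congr fun w => ⟨?_, fun k => ?_⟩
    · rintro ⟨_, rfl, ⟨a, b⟩, e, k⟩
      obtain ⟨e₁, e₂⟩ : a = w 1 ∧ b = w 0 := Gen.pr_inj.1 e
      exact e₁ ▸ e₂ ▸ k
    · exact ⟨_, rfl, (w 1, w 0), rfl, k⟩
  obtain ⟨φ, l, h'⟩ := Gen.PD.exists_fml h' 2
  obtain ⟨l', hl, e⟩ := Gen.exists_vl l
  exact ⟨φ, l', hl, fun a y => (h' (cons y (cons a (g.w l'))) fun k => congrFun e k).symm⟩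

namespace Ctx

variable {C : Ctx}

/-- The dense relation used for the master condition. -/
def fcoreG (φ : Fml) (l : List (Name C.Po)) (σ : Name C.Po) (m : C.Po) (τ : Name C.Po)
    (a : Od) : Prop :=
  (Forces φ (env emp (τ :: σ :: l)) m ∨
    ∀ r ≤ m, ∀ τ', ¬ Forces φ (env emp (τ' :: σ :: l)) r) ∧
  (FEq σ (oN a) m ∨ ∀ r ≤ m, ∀ a' < C.th.ord, ¬ FEq σ (oN a') r)

theorem fcoreG_mono (φ : Fml) (l : List (Name C.Po)) (σ : Name C.Po) (m m' : C.Po)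
    (τ : Name C.Po) (a : Od) (h : fcoreG φ l σ m τ a) (hm : m' ≤ m) : fcoreG φ l σ m' τ a :=
  ⟨h.1.imp (fun k => k.mono hm) fun k r hr => k r (hr.trans hm),
    h.2.imp (fun k => k.mono hm) fun k r hr => k r (hr.trans hm)⟩

theorem fcoreG_dense (φ : Fml) (l : List (Name C.Po)) (σ : Name C.Po) (π : C.Po) :
    ∃ m ≤ π, ∃ τ, ∃ a < C.th.ord, fcoreG φ l σ m τ a := by
  obtain ⟨m₁, h₁, τ, k₁⟩ : ∃ m₁ ≤ π, ∃ τ, Forces φ (env emp (τ :: σ :: l)) m₁ ∨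
      ∀ r ≤ m₁, ∀ τ', ¬ Forces φ (env emp (τ' :: σ :: l)) r := by
    by_cases e : ∃ r ≤ π, ∃ τ', Forces φ (env emp (τ' :: σ :: l)) r
    · obtain ⟨r, hr, τ', k⟩ := e
      exact ⟨r, hr, τ', Or.inl k⟩
    · exact ⟨π, le_rfl, emp, Or.inr fun r hr τ' k => e ⟨r, hr, τ', k⟩⟩
  obtain ⟨m, h₂, a, ha, k₂⟩ : ∃ m ≤ m₁, ∃ a < C.th.ord,
      FEq σ (oN a) m ∨ ∀ r ≤ m, ∀ a' < C.th.ord, ¬ FEq σ (oN a') r := by
    by_cases e : ∃ r ≤ m₁, ∃ a' < C.th.ord, FEq σ (oN a') r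
    · obtain ⟨r, hr, a', ha', k⟩ := e
      exact ⟨r, hr, a', ha', Or.inl k⟩
    · exact ⟨m₁, le_rfl, C.kap, C.k_lt, Or.inr fun r hr a' ha' k => e ⟨r, hr, a', ha', k⟩⟩
  exact ⟨m, h₂.trans h₁, τ, a, ha,
    k₁.imp (fun k => k.mono h₂) fun k r hr => k r (hr.trans h₂), k₂⟩

/-- Densely many conditions force the existence of a hull. -/
theorem core_dense (φ : Fml) (l : List (Name C.Po)) {ξ : Od} (hξ : ξ < C.kap) (π₀ : C.Po) :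
    ∃ π ≤ π₀, ∃ (Cs : Set (Name C.Po)) (S : Set Od), Cs.Countable ∧ S.Countable ∧
      S ⊆ Iio C.th.ord ∧ ∀ g : Gen C.Po, π ∈ g.G → Cs ⊆ g.N → (∀ a ∈ S, g.In a) →
        (∀ x ∈ l, x ∈ g.N) → g.In ξ → ∃ Y p m, Hull g.E (g.o C.kap) g.om Y p m ∧
          Sub g.E (g.o ξ) Y ∧ ∀ a, g.E a Y → (∃ y, Sat g.E φ (cons y (cons a (g.w l)))) →
            ∃ y, g.E y Y ∧ Sat g.E φ (cons y (cons a (g.w l))) := by
  obtain ⟨XE, X, μ, top, e, π, hπ, hN, hX, hξμ, hsp, hint, ⟨ν, hν, en, rfl⟩, hemb, hop, hG⟩ :=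
    C.master oN pairN (fcoreG φ l) (fcoreG_mono φ l) (fcoreG_dense φ l) π₀ hξ
  have htop : top < C.th.ord := hN.top_lt.trans C.k_lt
  have hν' : ν < C.th.ord := hν.trans C.k_lt
  have he : ∀ b < top, e b < C.th.ord := fun b hb => hX ((hN.rng _).2 ⟨b, hb, rfl⟩)
  obtain ⟨bd, hbd, hbd'⟩ := C.th_inac.bound htop e he
  obtain ⟨pN, hpN⟩ := (FR.ground (P := C.Po) fun a b => b < top ∧ e b = a).name
    (bd := max bd top) (max_lt hbd htop)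
  have happ : ∀ g : Gen C.Po, pN ∈ g.N → ∀ s t, App g.E (g.v pN) s t ↔
      ∃ b < top, g.In (e b) ∧ g.In b ∧ s = g.o (e b) ∧ t = g.o b := by
    intro g hg s t
    rw [hpN g hg]
    constructor
    · rintro ⟨a, -, b, -, k₁, k₂, k₃, k₄, -, -, k₅, rfl⟩
      exact ⟨b, k₅, k₁, k₂, k₃, k₄⟩
    · rintro ⟨b, k₅, k₁, k₂, k₃, k₄⟩
      exact ⟨e b, lt_max_of_lt_left (hbd' b k₅), b, lt_max_of_lt_right k₅, k₁, k₂, k₃, k₄,
        ⊤, g.top, k₅, rfl⟩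
  have hsm : Sm C.Po (Iio ν) := Sm.iio (P := C.Po) hν'
  let YN : Name C.Po := fam (fun i : Iio ν => en i.1)
  let eN : Name C.Po := Gen.relN (fun i : Iio ν => oN i.1) (fun i => en i.1) (fun _ => ⊤)
  have hY : ∀ g : Gen C.Po, YN ∈ g.N → ∀ x, g.E x (g.v YN) ↔
      ∃ i < ν, en i ∈ g.N ∧ g.v (en i) = x := fun g hg x =>
    (Gen.E_fam hg).trans ⟨fun ⟨i, k⟩ => ⟨i.1, i.2, k⟩, fun ⟨i, hi, k⟩ => ⟨⟨i, hi⟩, k⟩⟩
  have hE : ∀ g : Gen C.Po, eN ∈ g.N → ∀ s t, App g.E (g.v eN) s t ↔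
      ∃ i < ν, g.In i ∧ en i ∈ g.N ∧ s = g.o i ∧ t = g.v (en i) := fun g hg s t =>
    (Gen.app_relN hg).trans
      ⟨fun ⟨i, _, k₁, k₂⟩ => ⟨i.1, i.2, ⟨lt_trans i.2 hν', k₁⟩, k₂⟩,
        fun ⟨i, hi, k₁, k₂⟩ => ⟨⟨i, hi⟩, g.top, k₁.2, k₂⟩⟩
  refine ⟨π, hπ, {YN, eN, pN}, {C.kap, μ, ν}, (toFinite _).countable, (toFinite _).countable,
    ?_, fun g hg hC hS hl hξ' => ?_⟩
  · rintro _ (rfl | rfl | rfl)
    exacts [C.k_lt, hN.mu_lt.trans htop, hν']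
  have cY : YN ∈ g.N := hC (by simp)
  have cE : eN ∈ g.N := hC (by simp)
  have cP : pN ∈ g.N := hC (by simp)
  have sk : g.In C.kap := hS _ (by simp)
  have sm : g.In μ := hS _ (by simp)
  have sn : g.In ν := hS _ (by simp)
  have hd : HD g X μ top e (g.v YN) (g.v pN) := by
    refine ⟨hN, ⟨π, hg, hsp, hint⟩, sk, sm, happ g cP, ?_, ?_, ?_, ?_, ?_⟩
    · intro x hx ho
      obtain ⟨i, hi, hi', rfl⟩ := (hY g cY x).1 hx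
      obtain ⟨a', ha', ea⟩ := Gen.ord_repr ho
      obtain ⟨p, hp, f⟩ := (Gen.v_eq_iff hi' ha'.2).1 ea.symm
      refine Gen.dens_o (Ψ := fun _ E w => ∃ y, App E (w 1) (w 0) y)
        (UDef.ex (UDef.app _ _ _)) (Gen.l2 hi' cP) fun p₁ hp₁ => ?_
      obtain ⟨q₀, hq₀, q₁, q₂⟩ := g.dir hp₁ hp
      obtain ⟨q, -, q₃, q₄⟩ := g.dir hq₀ hg
      obtain ⟨ρ, hρ, τ, -, a, ha, -, k⟩ := hG (en i) ⟨i, hi, rfl⟩ q q₄
      obtain ⟨b, hb, rfl⟩ := (hN.rng a).1 ha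
      have k' : FEq (en i) (oN (e b)) ρ :=
        k.resolve_right fun k => k ρ le_rfl a' ha'.1 (f.mono (hρ.trans (q₃.trans q₂)))
      refine ⟨ρ, hρ.trans (q₃.trans q₁), ∅, {e b, b}, countable_empty, (toFinite _).countable,
        ?_, fun g' hρ' _ hS' hl' => ?_⟩
      · rintro _ (rfl | rfl)
        exacts [he b hb, hb.trans htop]
      have n₁ := hS' (e b) (by simp)
      have n₂ := hS' b (by simp)
      exact ⟨g'.o b, (happ g' (hl' _ (by simp)) _ _).2 ⟨b, hb, n₁, n₂,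
        (Gen.v_eq_iff (hl' (en i) (by simp)) n₁.2).2 ⟨ρ, hρ', k'⟩, rfl⟩⟩
    · intro b hb hb'
      have : ∃ x, App g.E (g.v pN) x (g.o b) := by
        refine Gen.dens_o (Ψ := fun _ E w => ∃ x, App E (w 0) x (w 1))
          (UDef.ex (UDef.app _ _ _)) (Gen.l2 cP hb'.2) fun p₁ _ => ?_
        refine ⟨p₁, le_rfl, ∅, {e b}, countable_empty, countable_singleton _,
          singleton_subset_iff.2 (he b hb), fun g' _ _ hS' hl' => ?_⟩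
        exact ⟨g'.o (e b), (happ g' (hl' _ (by simp)) _ _).2 ⟨b, hb, hS' _ rfl,
          ⟨hb'.1, hl' _ (by simp)⟩, rfl, rfl⟩⟩
      obtain ⟨x, hx⟩ := this
      obtain ⟨b', -, k₁, k₂, -, k₃⟩ := (happ g cP _ _).1 hx
      exact Gen.o_inj hb' k₂ k₃ ▸ k₁
    · intro a ha ha'
      obtain ⟨i, hi, k⟩ := hemb a ha
      exact (hY g cY _).2 ⟨i, hi, k ▸ ha'.2, by rw [k]; rfl⟩
    · refine Gen.lt_of_rel (c := g.o ν) (f := g.v eN) (Gen.isOrd_o sk)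
        ((Gen.o_lt_iff sn sk).2 hν) (fun x y y' k k' => ?_) fun y hy => ?_
      · obtain ⟨i, -, k₁, -, rfl, rfl⟩ := (hE g cE _ _).1 k
        obtain ⟨j, -, k₂, -, k₃, rfl⟩ := (hE g cE _ _).1 k'
        rw [Gen.o_inj k₁ k₂ k₃]
      · obtain ⟨i, hi, hi', rfl⟩ := (hY g cY y).1 hy
        refine Gen.dens_o (Ψ := fun _ E w => ∃ i, E i (w 0) ∧ App E (w 1) i (w 2))
          (UDef.ex ((UDef.mem _ _).and (UDef.app _ _ _))) (Gen.l3 sn.2 cE hi') fun p₁ _ => ?_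
        refine ⟨p₁, le_rfl, ∅, {i}, countable_empty, countable_singleton _,
          singleton_subset_iff.2 (hi.trans hν'), fun g' _ _ hS' hl' => ?_⟩
        have n₁ := hS' i rfl
        exact ⟨g'.o i, (Gen.o_lt_iff n₁ ⟨hν', hl' _ (by simp)⟩).2 hi,
          (hE g' (hl' _ (by simp)) _ _).2 ⟨i, hi, n₁, hl' _ (by simp), rfl, rfl⟩⟩
    · intro a b p ha hb hp
      obtain ⟨i, hi, hi', rfl⟩ := (hY g cY a).1 ha
      obtain ⟨j, hj, hj', rfl⟩ := (hY g cY b).1 hb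
      obtain ⟨k, hk, hk'⟩ := hop _ ⟨i, hi, rfl⟩ _ ⟨j, hj, rfl⟩
      refine (hY g cY _).2 ⟨k, hk, hk' ▸ Gen.pairN_mem_iff.2 ⟨hi', hj'⟩, ?_⟩
      rw [hk', Gen.v_pairN hi' hj', Gen.isPair_iff.1 hp]
  refine ⟨g.v YN, g.v pN, g.o μ, hd.hull.1, fun x hx => hd.hull.2 x ?_, fun a ha hy => ?_⟩
  · obtain ⟨b, hb, hb', rfl⟩ := (Gen.E_o hξ').1 hx
    exact (Gen.o_lt_iff hb' sm).2 (hb.trans_le hξμ)
  obtain ⟨i, hi, hi', rfl⟩ := (hY g cY a).1 ha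
  obtain ⟨y, hy⟩ := hy
  obtain ⟨σ, hσ, rfl⟩ := Gen.exists_v y
  rw [← Gen.w_cons, ← Gen.w_cons, Gen.truth φ (Gen.lcons hσ (Gen.lcons hi' hl))] at hy
  obtain ⟨p, hp, f⟩ := hy
  refine Gen.dens_o
    (Ψ := fun _ E w => ∃ y, E y (w 0) ∧ Sat E φ (cons y (cons (w 1) fun k => w (k + 2))))
    (UDef.ex ((UDef.mem _ _).and (UD.fcore_sat φ 0 2 3))) (Gen.lcons cY (Gen.lcons hi' hl))
    fun p₁ hp₁ => ?_
  obtain ⟨q₀, hq₀, q₁, q₂⟩ := g.dir hp₁ hp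
  obtain ⟨q, -, q₃, q₄⟩ := g.dir hq₀ hg
  obtain ⟨ρ, hρ, _, ⟨j, hj, rfl⟩, a, -, k, -⟩ := hG (en i) ⟨i, hi, rfl⟩ q q₄
  have k' : Forces φ (env emp (en j :: en i :: l)) ρ :=
    k.resolve_right fun k => k ρ le_rfl σ (f.mono (hρ.trans (q₃.trans q₂)))
  refine ⟨ρ, hρ.trans (q₃.trans q₁), {en j}, ∅, countable_singleton _, countable_empty,
    empty_subset _, fun g' hρ' hC' _ hl' => ?_⟩
  have n₁ : en j ∈ g'.N := hC' rfl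
  have n₂ := (Gen.truth φ (Gen.lcons n₁ fun x hx => hl' x (List.mem_cons_of_mem _ hx))).2
    ⟨ρ, hρ', k'⟩
  rw [Gen.w_cons, Gen.w_cons] at n₂
  exact ⟨g'.v (en j), (hY g' (hl' _ (by simp)) _).2 ⟨j, hj, n₁, rfl⟩, n₂⟩

theorem fact_core {g : Gen C.Po} (hk : g.In C.kap) : ∀ Θ : g.M → g.M → Prop,
    g.Tm (fun z : g.M × g.M => Θ z.1 z.2) → ∀ ξ, g.E ξ (g.o C.kap) →
    ∃ Y π m, Hull g.E (g.o C.kap) g.om Y π m ∧ Sub g.E ξ Y ∧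
      ∀ a, g.E a Y → (∃ y, Θ a y) → ∃ y, g.E y Y ∧ Θ a y := by
  intro Θ hΘ ξ hξ
  obtain ⟨φ, l, hl, h⟩ := Gen.tm_fml hΘ
  obtain ⟨x, hx, hx', rfl⟩ := (Gen.E_o hk).1 hξ
  simp only [h]
  refine Gen.dens_o (Ψ := fun _ E w => ∃ Y π m, Hull E (w 0) (w 1) Y π m ∧ Sub E (w 2) Y ∧
      ∀ a, E a Y → (∃ y, Sat E φ (cons y (cons a fun k => w (k + 3)))) →
        ∃ y, E y Y ∧ Sat E φ (cons y (cons a fun k => w (k + 3))))
    (UDef.ex (UDef.ex (UDef.ex ((UD.hull _ _ _ _ _).and ((UD.sub _ _).and (UDef.all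
      ((UDef.mem _ _).imp ((UDef.ex (UD.fcore_sat φ 0 1 8)).imp
        (UDef.ex ((UDef.mem _ _).and (UD.fcore_sat φ 0 1 8)))))))))))
    (Gen.lcons hk.2 (Gen.lcons g.omega_mem (Gen.lcons hx'.2 hl))) fun p _ => ?_
  obtain ⟨π, hπ, Cs, S, h₁, h₂, h₃, H⟩ := core_dense φ l hx p
  exact ⟨π, hπ, Cs, S, h₁, h₂, h₃, fun g' k₁ k₂ k₃ k₄ => H g' k₁ k₂ k₃
    (fun y hy => k₄ y (by simp [hy])) ⟨hx'.1, k₄ _ (by simp)⟩⟩

end Ctx

end Pool.Agent.MP_85ce7b_lc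

end

section

namespace Pool.Agent.MP_85ce7b_lc

open Pool.Agent.MP_c6cf52_lc Name Set Cardinal Ordinal Dat

theorem Ctx.model (C : Ctx) : ∃ g : Gen C.Po, g.In C.al ∧ g.In C.ga ∧
    g.Facts C.al C.ga (g.o C.kap) (g.o C.s) := by
  have hs : C.s < C.kap := (Order.lt_add_one_iff.2 le_rfl).trans C.s_lt
  have hω : ω < C.s := (omega0_lt_omega_one).trans C.omega1_lt_s
  have hcnt : (C.ke '' Iio C.ga).Countable := (Gen.NOrd_count C.ga_lt).image _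
  obtain ⟨g, -, -, h⟩ := Gen.exists_gen_o (⊤ : C.Po) ∅
    ({C.kap, C.s, C.al, C.ga} ∪ C.ke '' Iio C.ga) countable_empty
    ((Set.toFinite _).countable.union hcnt) (by
      rintro a (h | ⟨i, hi, rfl⟩)
      · have h₁ := C.al_lt.trans C.omega1_lt_s
        have h₂ := C.ga_lt.trans C.omega1_lt_s
        rcases h with rfl | rfl | rfl | rfl
        exacts [C.k_lt, hs.trans C.k_lt, (h₁.trans hs).trans C.k_lt, (h₂.trans hs).trans C.k_lt]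
      · exact ((C.ke_le i hi).trans_lt hs).trans C.k_lt)
  have hk : g.In C.kap := h _ (by simp)
  have hs' : g.In C.s := h _ (by simp)
  have ha : g.In C.al := h _ (by simp)
  have hg : g.In C.ga := h _ (by simp)
  have hke : ∀ i < C.ga, g.In (C.ke i) := fun i hi => h _ (Or.inr ⟨i, hi, rfl⟩)
  exact ⟨g, ha, hg, Gen.isOrd_o hk, (Gen.o_lt_iff hs' hk).2 hs,
    g.o_omega ▸ (Gen.o_lt_iff g.in_omega hs').2 hω,
    ⟨g.o C.al, (Gen.o_lt_iff ha hs').2 (C.al_lt.trans C.omega1_lt_s), (Gen.rep_o ha C.al_lt).2⟩,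
    Ctx.fact_core hk, Ctx.fact_top hk ha, Ctx.fact_gap hk hs' ha, Ctx.fact_low hs' ha hke,
    Ctx.fact_gch hs', Ctx.fact_fail g⟩

theorem main (κ θ : Cardinal.{1}) (hθ : θ.IsInaccessible) (h₁ : ℵ₀ < κ) (h₂ : κ < θ)
    (sc : ∀ T : Type 1, Cardinal.mk T < θ → SCOn κ T) (α γ : Ordinal.{1}) (hα : 0 < α)
    (hα' : α < ω₁) (hγ : 0 < γ) (hγ' : γ < ω₁) :
    ∃ (M : Type 3) (E : M → M → Prop), WellFounded E ∧ IsZFC E ∧
      (∃ a c, IsOrd E a ∧ Enum E (fun x => E x a) α ∧ IsOrd E c ∧ Enum E (fun x => E x c) γ) ∧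
      ∃ k, Nth E α γ k ∧ LST E α true k ∧ LST E α false k := by
  obtain ⟨C, rfl, rfl⟩ := exists_ctx κ θ hθ h₁ h₂ sc α γ hα hα' hγ hγ'
  obtain ⟨g, ha, hg, h⟩ := C.model
  exact ⟨g.M, g.E, Gen.E_wf, g.isZFC, ⟨_, _, (Gen.rep_o ha hα').1, (Gen.rep_o ha hα').2,
    (Gen.rep_o hg hγ').1, (Gen.rep_o hg hγ').2⟩, _, h.main hα⟩

end Pool.Agent.MP_85ce7b_lc

end
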