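import Pool.Agent.MP_85ce7b_lc.L.Defs
import Pool.Agent.Mg.F85ce7b.G9efb9d

section

namespace Pool.Agent.MP_85ce7b_lc

open Set Cardinal Ordinal

abbrev Od : Type 2 := Ordinal.{1}

/-- Inaccessible ordinals. -/
def Inac (x : Od) : Prop := ∃ k : Cardinal.{1}, k.IsInaccessible ∧ k.ord = x

/-- The hierarchy of strongly inaccessible cardinals (`SI 0 = SI 1 = Inac`). -/
def SI : Od → Od → Prop :=
  (wellFounded_lt (α := Od)).fix fun δ ih x =>
    Inac x ∧ ∀ β (h : β < δ), 0 < β → ∀ y < x, ∃ z, y < z ∧ z < x ∧ ih β h z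

theorem SI_iff {δ x : Od} :
    SI δ x ↔ Inac x ∧ ∀ β < δ, 0 < β → ∀ y < x, ∃ z, y < z ∧ z < x ∧ SI β z := by
  unfold SI
  rw [WellFounded.fix_eq]

/-- Data at a special point: a measure one set of codes of blocks, constraints `(ξ, i, v)` for the
first collapse of the block with code `ξ`, and the first points of the blocks inserted so far. -/
@[ext] structure Lo : Type 2 where
  A : Set Od
  F : Set (Od × Od × Od)
  s : Set Od

/-- Raw conditions: points, collapses, data at special points. -/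
@[ext] structure Raw : Type 2 where
  c : Set Od
  h : Od → Set (Od × Od)
  l : Od → Option Lo

/-- The section of a set of triples. -/
def sec (F : Set (Od × Od × Od)) (x : Od) : Set (Od × Od) := {z | (x, z.1, z.2) ∈ F}

/-- Triples below `b`. -/
def Cube (b : Od) : Set (Od × Od × Od) := {z | z.1 < b ∧ z.2.1 < b ∧ z.2.2 < b}

/-- Limit points of a set of ordinals. -/
def LimP (c : Set Od) (x : Od) : Prop := 0 < x ∧ ∀ y < x, ∃ z ∈ c, y < z ∧ z < x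

/-- All data of `r` are bounded below `η`. -/
def Bdd (η : Od) (r : Raw) : Prop :=
  ∃ b < η, r.c ⊆ Iio b ∧ (∀ x i v, (i, v) ∈ r.h x → x < b ∧ i < b ∧ v < b) ∧
    ∀ x L, r.l x = some L → x < b ∧ L.A ⊆ Iio b ∧ L.F ⊆ Cube b ∧ L.s ⊆ Iio b

/-- The first point. -/
noncomputable def fp (b : Raw) : Od := sInf b.c

/-- Direct extension (including end extension). -/
structure Dle (q p : Raw) : Prop where
  c : p.c ⊆ q.c
  new : ∀ x ∈ q.c, x ∉ p.c → ∀ y ∈ p.c, y < x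
  h : ∀ x, p.h x ⊆ q.h x
  l0 : ∀ x ∈ p.c, p.l x = none → q.l x = none
  l1 : ∀ x L, p.l x = some L → ∃ L', q.l x = some L' ∧ L'.A ⊆ L.A ∧
    (∀ ξ ∈ L'.A, sec L.F ξ ⊆ sec L'.F ξ) ∧ L'.s = L.s

/-- `q` and `p` agree from `t` on (the data `l t` belong to the lower part). -/
def Agree (t : Od) (q p : Raw) : Prop :=
  (∀ x, t ≤ x → (x ∈ q.c ↔ x ∈ p.c) ∧ q.h x = p.h x) ∧ ∀ x, t < x → q.l x = p.l x

/-- `q` and `p` agree strictly below `β`. -/
def AgS (β : Od) (q p : Raw) : Prop :=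
  ∀ x < β, (x ∈ q.c ↔ x ∈ p.c) ∧ q.h x = p.h x ∧ q.l x = p.l x

/-- `q` and `p` have the same lower part at `β`. -/
def AgLo (β : Od) (q p : Raw) : Prop := AgS β q p ∧ q.l β = p.l β

open Classical in
/-- The lower part of `q` and the upper part of `u`. -/
noncomputable def mix (β : Od) (q u : Raw) : Raw where
  c := {x | if x < β then x ∈ q.c else x ∈ u.c}
  h := fun x => if x < β then q.h x else u.h x
  l := fun x => if x ≤ β then q.l x else u.l x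

open Classical in
/-- Restriction below `μ`. -/
noncomputable def res (μ : Od) (r : Raw) : Raw where
  c := r.c ∩ Iio μ
  h := fun x => if x < μ then r.h x else ∅
  l := fun x => if x < μ then r.l x else none

open Classical in
/-- Restriction below `μ` together with the set `s` at `μ` (stored at `0`). -/
noncomputable def stem (μ : Od) (r : Raw) : Raw :=
  { res μ r with l := Function.update (res μ r).l 0 ((r.l μ).map fun L => ⟨∅, ∅, L.s⟩) }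

open Classical in
/-- Change of the data at `μ`. -/
noncomputable def setL (μ : Od) (f : Lo → Lo) (r : Raw) : Raw :=
  { r with l := Function.update r.l μ ((r.l μ).map f) }

/-- The set `s` at `t`. -/
def sAt (t : Od) (r : Raw) : Option (Set Od) := (r.l t).map Lo.s

/-- The stem of `r` at `μ`, with `A`, `F` at `μ` and the upper part taken from `u`. -/
noncomputable def gl (μ : Od) (r u : Raw) : Raw :=
  setL μ (fun L => ⟨((u.l μ).getD L).A, ((u.l μ).getD L).F, L.s⟩) (mix μ r u)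

open Classical in
/-- Union of two raw conditions with disjoint sets of points. -/
noncomputable def cat (p b : Raw) : Raw where
  c := p.c ∪ b.c
  h := fun x => p.h x ∪ b.h x
  l := fun x => if x ∈ b.c then b.l x else p.l x

open Classical in
/-- Change of the collapse at `x`. -/
noncomputable def setH (x : Od) (f : Set (Od × Od)) (r : Raw) : Raw :=
  { r with h := Function.update r.h x f }

/-- Insertion of the block `b` below the special point `μ`, with first collapse `f`. -/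
noncomputable def ins (p : Raw) (μ : Od) (b : Raw) (f : Set (Od × Od)) : Raw :=
  setL μ (fun L => ⟨L.A, L.F, insert (fp b) L.s⟩) (cat p (setH (fp b) f b))

/-- An interval of points with trivial data. -/
def itv (a b : Od) : Raw := ⟨Icc a b, fun _ => ∅, fun _ => none⟩

/-- The parameters of the forcing. -/
structure Dat : Type 2 where
  s : Od
  al : Od
  B : Od → Cardinal.{1}
  dec : Od → Raw
  Sp : Set Od
  W : Od → Ultrafilter Od

namespace Dat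

variable (D : Dat)

open Classical in
/-- The domain of the collapse at `x`. -/
noncomputable def dm (x : Od) : Od :=
  if x = D.s then (D.B (D.s + 1)).ord else (Order.succ (D.B x)).ord

/-- `f` is a condition of the collapse at `x` (values are bounded separately). -/
structure Col (x : Od) (f : Set (Od × Od)) : Prop where
  fn : ∀ i v v', (i, v) ∈ f → (i, v') ∈ f → v = v'
  dom : ∀ i v, (i, v) ∈ f → i < D.dm x
  card : Cardinal.mk f ≤ lift.{2} (D.B x)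

/-- The values of the collapses at points below `t` are below `B t`. -/
def Below (t : Od) (p : Raw) : Prop := ∀ x < t, ∀ i v, (i, v) ∈ p.h x → v < (D.B t).ord

/-- Validity of the data at a special point. -/
structure LV (c : Set Od) (μ : Od) (L : Lo) : Prop where
  sp : μ ∈ D.Sp
  gt : D.s + 1 < μ
  pre : ∃ y ∈ c, y < μ
  A : L.A ∈ D.W μ
  Alt : L.A ⊆ Iio μ
  Fb : L.F ⊆ Cube μ
  F : ∀ ξ ∈ L.A, D.Col (fp (D.dec ξ)) (sec L.F ξ) ∧
    ∀ i v, (i, v) ∈ sec L.F ξ → v < (D.B (fp (D.dec ξ) + 1)).ord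
  fin : L.s.Finite
  s : ∀ z ∈ L.s, ∃ y ∈ c, z ≤ y ∧ y < μ

/-- Valid conditions. -/
structure Valid (p : Raw) : Prop where
  ne : p.c.Nonempty
  bd : BddAbove p.c
  cl : ∀ x, LimP p.c x → x ∈ p.c
  h0 : ∀ x, x ∉ p.c → p.h x = ∅
  l0 : ∀ x, x ∉ p.c → p.l x = none
  col : ∀ x, D.Col x (p.h x)
  vs : ∀ i v, (i, v) ∈ p.h D.s → v < ((2 : Cardinal.{1}) ^ D.B D.s).ord
  bel : ∀ y ∈ p.c, D.Below y p
  lim : ∀ x, LimP p.c x → p.l x = none
  eas : ∀ x, LimP p.c x → Inac x →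
    (∃ y < x, ∀ z, y < z → z < x → p.h z = ∅ ∧ p.l z = none) ∧ (D.s < x → ¬ SI D.al x)
  sp : ∀ μ L, p.l μ = some L → D.LV p.c μ L

/-- Blocks below `μ`. -/
structure Blk (μ : Od) (b : Raw) : Prop where
  v : D.Valid b
  bdd : Bdd μ b
  inac : Inac (fp b)
  gt : D.s + 1 < fp b
  nxt : fp b + 1 ∈ b.c
  h : b.h (fp b) = ∅

/-- `b` can be inserted into `p` below `μ`. -/
structure Insb (p : Raw) (μ : Od) (b : Raw) : Prop where
  blk : D.Blk μ b
  lt : ∀ x ∈ p.c, x < μ → x < fp b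
  bel : D.Below (fp b) p

/-- One insertion. -/
def Ins (q p : Raw) (μ : Od) : Prop :=
  ∃ L ξ, p.l μ = some L ∧ ξ ∈ L.A ∧ D.Insb p μ (D.dec ξ) ∧ q = ins p μ (D.dec ξ) (sec L.F ξ)

def Step (p q : Raw) : Prop := D.Valid q ∧ (Dle q p ∨ ∃ μ, D.Ins q p μ)

/-- The order: `q` extends `p`. -/
def Le (q p : Raw) : Prop := D.Valid p ∧ Relation.ReflTransGen D.Step p q

/-- Extension below the cut `t`. -/
structure LeT (t : Od) (q p : Raw) : Prop where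
  le : D.Le q p
  ag : Agree t q p
  bel : D.Below t q

/-- Extension below the cut `t` without insertion at `t`. -/
def LeS (t : Od) (q p : Raw) : Prop := D.LeT t q p ∧ sAt t q = sAt t p

/-- One step below the cut `t`; insertions only at points with property `P`. -/
def StepT (t : Od) (P : Od → Prop) (p q : Raw) : Prop :=
  D.Valid q ∧ Agree t q p ∧ D.Below t q ∧ (Dle q p ∨ ∃ μ, P μ ∧ D.Ins q p μ)

/-- Direct extension between `β` (strictly) and `t`. -/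
structure DS (β t : Od) (q p : Raw) : Prop where
  v : D.Valid q
  d : Dle q p
  lo : AgS β q p
  ag : Agree t q p
  bel : D.Below t q

/-- Direct extension between `β` and `t`. -/
def DT (β t : Od) (q p : Raw) : Prop := D.DS β t q p ∧ q.l β = p.l β

/-- The cut `t` is a point of `p`, or an inaccessible above `p`. -/
structure Scope (t : Od) (p : Raw) : Prop where
  v : D.Valid p
  bel : D.Below t p
  cut : t ∈ p.c ∨ (Inac t ∧ D.s + 1 < t ∧ p.c ⊆ Iio t)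

/-- Restriction of the measure one set at `μ` to blocks starting above `m`. -/
noncomputable def cutA (μ m : Od) (u : Raw) : Raw :=
  setL μ (fun L => ⟨L.A ∩ {ξ | m < fp (D.dec ξ)}, L.F, L.s⟩) u

/-- The least code of the stem. -/
noncomputable def scode (μ : Od) (r : Raw) : Od := sInf {ξ | D.dec ξ = stem μ r}

/-- The ultrafilters carried by special points. -/
structure GoodW (μ : Od) (U : Ultrafilter Od) : Prop where
  inac : Inac μ
  gt : D.s + 1 < μ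
  comp : ∀ ζ < μ, ∀ Z : Od → Set Od, (∀ i < ζ, Z i ∈ U) → {ξ | ∀ i < ζ, ξ ∈ Z i} ∈ U
  w0 : ∀ ζ < μ, {ξ | ξ < μ ∧ D.Blk μ (D.dec ξ) ∧ ζ < fp (D.dec ξ)} ∈ U
  nor : ∀ g : Od → Od, {ξ | g ξ < fp (D.dec ξ)} ∈ U → ∃ a, {ξ | g ξ = a} ∈ U
  w2 : ∀ Z : Raw → Prop, (∀ b, D.Blk μ b → ∃ b', D.DT (fp b + 1) μ b' b ∧ Z b') →
    (∀ b b', D.Blk μ b → D.DT (fp b + 1) μ b' b → Z b → Z b') → {ξ | Z (D.dec ξ)} ∈ U
  w3 : ∀ Z : Raw → Prop, (∀ b, D.Blk μ b → ∃ b', D.DT (fp b + 1) μ b' b ∧ b'.c = b.c ∧ Z b') →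
    (∀ b b', D.Blk μ b → D.DT (fp b + 1) μ b' b → b'.c = b.c → Z b → Z b') →
    {ξ | Z (D.dec ξ)} ∈ U

/-! ### Open sets and the Prikry property -/

def OpenS (t : Od) (O : Raw → Prop) : Prop := ∀ r r', D.Scope t r → O r → D.LeS t r' r → O r'

def OpenT (t : Od) (O : Raw → Prop) : Prop := ∀ r r', D.Scope t r → O r → D.LeT t r' r → O r'

/-- Local closure of `O` at the points `δ` with property `P`. -/
def LC (t : Od) (P : Od → Prop) (O : Raw → Prop) : Prop :=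
  ∀ δ r, P δ → D.Scope t r → δ ∈ r.c →
    (∀ r', D.LeT δ r' r → ∃ r'', D.LeT δ r'' r' ∧ O r'') → O r

/-- Above `β`, `r` is a direct extension of `p`. -/
def DirA (β : Od) (r p : Raw) : Prop := Dle (mix β p r) p

/-- No extension that is direct above `β` is in `O`. -/
def WFl (β t : Od) (O : Raw → Prop) (p : Raw) : Prop :=
  ∀ r, D.LeT t r p → DirA β r p → ¬ O r

def PPS (t : Od) : Prop :=
  ∀ O p β, D.Scope t p → D.OpenS t O → D.LC t (· < t) O → β ∈ p.c → β ≤ t → D.WFl β t O p →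
    ∃ u, D.DT β t u p ∧ ∀ r, D.LeS t r u → ¬ O r

def PP (t : Od) : Prop :=
  ∀ O p β, D.Scope t p → D.OpenT t O → D.LC t (· ≤ t) O → β ∈ p.c → β ≤ t → D.WFl β t O p →
    ∃ u, D.DT β t u p ∧ ∀ r, D.LeT t r u → ¬ O r

/-- `O` is dense below `r`. -/
def RO (t : Od) (O : Raw → Prop) (r : Raw) : Prop :=
  ∀ r', D.LeT t r' r → ∃ r'', D.LeT t r'' r' ∧ O r''

/-- Good cut points: nonspecial points that are successor ordinals. -/
def Good (p : Raw) (δ : Od) : Prop := δ ∈ p.c ∧ p.l δ = none ∧ ∃ y, δ = y + 1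

/-- Cut points with few lower parts. -/
def Good0 (p : Raw) (δ : Od) : Prop := Good p δ ∨ (δ = 0 ∧ 0 ∈ p.c)

/-- `μ` is a special point of `p`. -/
def Spec (p : Raw) (μ : Od) : Prop := ∃ L, p.l μ = some L

/-- `y` is the point after `x` and it is not special. -/
def Adj (p : Raw) (x y : Od) : Prop :=
  x ∈ p.c ∧ y ∈ p.c ∧ x < y ∧ (∀ z ∈ p.c, x < z → y ≤ z) ∧ p.l y = none

/-- No special points in `(a, b]`. -/
def NoSp (p : Raw) (a b : Od) : Prop := ∀ x, a < x → x ≤ b → p.l x = none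

/-- A family of bounding predicates below `p`: monotone, regular and dense. -/
structure ZFam (t : Od) (p : Raw) (ν τ : Od) (Z : Od → Od → Raw → Prop) : Prop where
  mono : ∀ i ζ ζ' r r', D.LeT t r p → Z i ζ r → D.LeT t r' r → ζ ≤ ζ' → Z i ζ' r'
  reg : ∀ i ζ r, D.LeT t r p → D.RO t (Z i ζ) r → Z i ζ r
  dense : ∀ i < ν, ∀ r, D.LeT t r p → ∃ r', D.LeT t r' r ∧ ∃ ζ < τ, Z i ζ r'

/-- Bounding property of `τ` below `p` for families of length `ν`. -/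
def BndR (t : Od) (p : Raw) (ν τ : Od) : Prop :=
  ∀ p', D.LeT t p' p → ∀ Z, D.ZFam t p' ν τ Z →
    ∃ q, D.LeT t q p' ∧ ∃ ζ < τ, ∀ i < ν, Z i ζ q

end Dat

/-- The properties of the modified beth function. -/
structure BF (B : Od → Cardinal.{1}) (s : Od) : Prop where
  zero : B 0 = ℵ₀
  normal : Order.IsNormal B
  succ : ∀ x, x ≠ s → B (x + 1) = 2 ^ B x
  succ_s : B (s + 1) = Order.succ (Order.succ (Order.succ (2 ^ B s)))

/-- The parameters together with their properties. -/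
structure Ctx extends Dat where
  kap : Od
  th : Cardinal.{1}
  ga : Od
  ke : Od → Od
  nm : Od → Od → Set (Raw × Od)
  bf : BF B s
  al_pos : 0 < al
  al_lt : al < ω₁
  ga_pos : 0 < ga
  ga_lt : ga < ω₁
  hdec : ∀ η r, Inac η → Bdd η r → ∃ ξ < η, dec ξ = r
  good : ∀ μ ∈ Sp, toDat.GoodW μ (W μ)
  spmax : ∀ μ U, toDat.GoodW μ U → μ ∈ Sp
  kin : Inac kap
  s_lt : s + 1 < kap
  thin : th.IsInaccessible
  k_lt : kap < th.ord
  noin : ∀ x, kap < x → x < th.ord → ¬ Inac x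
  sc : ∀ T : Type 1, Cardinal.mk T < th → SCOn kap.card T
  ksi : ∀ δ < ω₁, SI δ kap
  ke_si : ∀ i < ga, SI al (ke i)
  ke_mono : ∀ i j, i < j → j < ga → ke i < ke j
  ke_le : ∀ i < ga, ke i ≤ s
  ke_cof : ∀ y < s, ∃ i < ga, y < ke i
  ke_all : ∀ x ≤ s, SI al x → ∃ i < ga, ke i = x
  nm_sub : ∀ x c r v, (r, v) ∈ nm x c → Bdd kap r ∧ v < (B (x + 1)).ord
  nm_card : ∀ x c, Cardinal.mk (nm x c) ≤ lift.{2} kap.card
  nm_surj : ∀ x, kap ≤ x → ∀ N : Set (Raw × Od),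
    (∀ r v, (r, v) ∈ N → Bdd kap r ∧ v < (B (x + 1)).ord) →
    Cardinal.mk N ≤ lift.{2} kap.card → ∃ c < (B (x + 1)).ord, nm x c = N

end Pool.Agent.MP_85ce7b_lc

end

section

namespace Pool.Agent.MP_85ce7b_lc

open Set Cardinal Ordinal

theorem Inac.isSuccLimit {μ : Od} (h : Inac μ) : Order.IsSuccLimit μ := by
  obtain ⟨k, hk, rfl⟩ := h
  exact isSuccLimit_ord hk.aleph0_lt.le

theorem Inac.omega_lt {μ : Od} (h : Inac μ) : ω < μ := by
  obtain ⟨k, hk, rfl⟩ := h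
  exact omega0_lt_ord.2 hk.aleph0_lt

theorem Inac.ord_card {μ : Od} (h : Inac μ) : μ.card.ord = μ := by
  obtain ⟨k, -, rfl⟩ := h
  rw [card_ord]

theorem Inac.cof_eq {μ : Od} (h : Inac μ) : μ.cof = μ.card := by
  obtain ⟨k, hk, rfl⟩ := h
  rw [card_ord, hk.isRegular.cof_ord]

theorem bound_set_of_lt_cof {τ : Od} {S : Set Od} (hS : S ⊆ Iio τ) (hτ : Order.IsSuccLimit τ)
    (hc : Cardinal.mk S < lift.{2} τ.cof) : ∃ b < τ, S ⊆ Iio b := by
  have h1 : sSup S < τ := by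
    apply Ordinal.sSup_lt_of_lt_cof _ hS
    rwa [← Ordinal.lift_cof]
  refine ⟨sSup S + 1, hτ.add_one_lt h1, fun x hx => ?_⟩
  have hb : BddAbove S := ⟨τ, fun y hy => (hS hy).le⟩
  exact lt_of_le_of_lt (le_csSup hb hx) (lt_add_one _)

theorem bound_aux {τ ν : Od} (hτ : Order.IsSuccLimit τ) (hν : ν.card < τ.cof) (f : Od → Od)
    (hf : ∀ i < ν, f i < τ) : ∃ b < τ, ∀ i < ν, f i < b := by
  obtain ⟨b, hb, h⟩ := bound_set_of_lt_cof (S := f '' Iio ν) (by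
      rintro _ ⟨i, hi, rfl⟩
      exact hf i hi) hτ (by
      refine lt_of_le_of_lt Cardinal.mk_image_le ?_
      rw [Cardinal.mk_Iio_ordinal]
      exact Cardinal.lift_lt.2 hν)
  exact ⟨b, hb, fun i hi => h ⟨i, hi, rfl⟩⟩

/-- Fewer than `μ` ordinals below `μ` are bounded below `μ`. -/
theorem Inac.bound {μ ν : Od} (h : Inac μ) (hν : ν < μ) (f : Od → Od) (hf : ∀ i < ν, f i < μ) :
    ∃ b < μ, ∀ i < ν, f i < b := by
  apply bound_aux h.isSuccLimit _ f hf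
  rw [h.cof_eq, ← lt_ord, h.ord_card]
  exact hν

theorem Inac.bound_set {μ : Od} (h : Inac μ) {S : Set Od} (hS : S ⊆ Iio μ)
    (hc : Cardinal.mk S < lift.{2} μ.card) : ∃ b < μ, S ⊆ Iio b := by
  apply bound_set_of_lt_cof hS h.isSuccLimit
  rwa [h.cof_eq]

/-- Bounding below an ordinal of large cofinality. -/
theorem bound_of_lt_cof {τ ν : Od} (hτ : Order.IsSuccLimit τ) (hν : ν.card < τ.cof) (f : Od → Od)
    (hf : ∀ i < ν, f i < τ) : ∃ b < τ, ∀ i < ν, f i < b := by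
  exact bound_aux hτ hν f hf

theorem enum_aux {α : Type 2} [Nonempty α] {S : Set α} {c : Cardinal.{1}}
    (h : Cardinal.mk S ≤ lift.{2} c) : ∃ e : Od → α, ∀ x ∈ S, ∃ i < c.ord, e i = x := by
  classical
  have h1 : Cardinal.mk S ≤ Cardinal.mk (Iio c.ord) := by
    rw [Cardinal.mk_Iio_ordinal, card_ord]
    exact h
  obtain ⟨g⟩ := (Cardinal.le_def _ _).1 h1
  let g' : S → Od := fun x => (g x).1
  have hg : Function.Injective g' := fun x y hxy => g.injective (Subtype.ext hxy)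
  refine ⟨Function.extend g' Subtype.val (fun _ => Classical.arbitrary α), fun x hx => ?_⟩
  refine ⟨g' ⟨x, hx⟩, (g ⟨x, hx⟩).2, ?_⟩
  rw [hg.extend_apply]

/-- A cofinal map from the cofinality. -/
theorem exists_cof_map (a : Od) :
    ∃ f : Od → Od, (∀ i < a.cof.ord, f i < a) ∧ ∀ y < a, ∃ i < a.cof.ord, y ≤ f i := by
  rcases eq_or_ne a 0 with rfl | ha
  · exact ⟨id, by simp, by simp⟩
  have : Nonempty (Iio a) := ⟨⟨0, pos_iff_ne_zero.2 ha⟩⟩
  obtain ⟨s, hs, hc⟩ := Order.exists_cof_eq (Iio a)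
  rw [Ordinal.cof_Iio, ← Ordinal.lift_cof] at hc
  obtain ⟨e, he⟩ := enum_aux (S := s) (c := a.cof) hc.le
  refine ⟨fun i => (e i).1, fun i _ => (e i).2, fun y hy => ?_⟩
  obtain ⟨x, hx, hyx⟩ := hs ⟨y, hy⟩
  obtain ⟨i, hi, rfl⟩ := he x hx
  exact ⟨i, hi, hyx⟩

/-- Enumeration of a small set by an ordinal. -/
theorem exists_enum_of_le {α : Type 2} [Nonempty α] {S : Set α} {c : Cardinal.{1}}
    (h : Cardinal.mk S ≤ lift.{2} c) : ∃ e : Od → α, ∀ x ∈ S, ∃ i < c.ord, e i = x := by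
  exact enum_aux h

/-- Pairing below an infinite cardinal. -/
theorem exists_pairing {c : Cardinal.{1}} (hc : ℵ₀ ≤ c) :
    ∃ f g : Od → Od, (∀ i < c.ord, f i < c.ord ∧ g i < c.ord) ∧
      ∀ a < c.ord, ∀ b < c.ord, ∃ i < c.ord, f i = a ∧ g i = b := by
  have h0 : (0 : Od) < c.ord := lt_of_lt_of_le omega0_pos (omega0_le_ord.2 hc)
  have : Nonempty (Iio c.ord × Iio c.ord) := ⟨(⟨0, h0⟩, ⟨0, h0⟩)⟩
  obtain ⟨e, he⟩ := enum_aux (S := (univ : Set (Iio c.ord × Iio c.ord))) (c := c) (by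
    rw [Cardinal.mk_univ, Cardinal.mk_prod, Cardinal.mk_Iio_ordinal, card_ord, Cardinal.lift_id,
      Cardinal.mul_eq_self (Cardinal.aleph0_le_lift.2 hc)])
  refine ⟨fun i => (e i).1.1, fun i => (e i).2.1, fun i _ => ⟨(e i).1.2, (e i).2.2⟩,
    fun a ha b hb => ?_⟩
  obtain ⟨i, hi, h⟩ := he (⟨a, ha⟩, ⟨b, hb⟩) (mem_univ _)
  exact ⟨i, hi, by simp only [h], by simp only [h]⟩

/-- An ordinal of size at most `c` is enumerated by `c`. -/
theorem exists_surj_of_card_le {ν : Od} {c : Cardinal.{1}} (h : ν.card ≤ c) :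
    ∃ f : Od → Od, ∀ a < ν, ∃ i < c.ord, f i = a := by
  obtain ⟨e, he⟩ := enum_aux (S := Iio ν) (c := c) (by
    rw [Cardinal.mk_Iio_ordinal]
    exact Cardinal.lift_le.2 h)
  exact ⟨e, fun a ha => he a ha⟩

theorem SI.inac {δ x : Od} (h : SI δ x) : Inac x := (SI_iff.1 h).1

theorem SI.mono {δ δ' x : Od} (h : SI δ x) (hδ : δ' ≤ δ) : SI δ' x := by
  rw [SI_iff] at h ⊢
  exact ⟨h.1, fun β hβ => h.2 β (lt_of_lt_of_le hβ hδ)⟩

theorem si_one {x : Od} : SI 1 x ↔ Inac x := by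
  rw [SI_iff]
  refine ⟨fun h => h.1, fun h => ⟨h, fun β hβ h0 => ?_⟩⟩
  exact absurd (Order.lt_one_iff.1 hβ) h0.ne'

/-- Hausdorff's formula in the form needed below. -/
theorem succ_pow_eq {m a : Cardinal.{1}} (ha : ℵ₀ ≤ a) (ham : a ≤ m) (h : m ^ a = m) :
    Order.succ m ^ a = Order.succ m := by
  have hm : ℵ₀ ≤ m := ha.trans ham
  have hreg := isRegular_succ hm
  apply le_antisymm
  · let α := (Order.succ m).ord.ToType
    let β := a.out
    have hα : Cardinal.mk α = Order.succ m := by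
      simp only [α, Cardinal.mk_toType, card_ord]
    have hβ : Cardinal.mk β = a := Cardinal.mk_out a
    have hcof : Order.cof α = Order.succ m := by
      simp only [α, Ordinal.cof_toType, hreg.cof_ord]
    have hcov : (univ : Set (β → α)) ⊆ ⋃ x : α, {f | ∀ b, f b < x} := by
      intro f _
      have hn : ¬ IsCofinal (range f) := by
        intro hc
        have h1 := Order.cof_le hc
        rw [hcof] at h1
        have h2 : Cardinal.mk (range f) ≤ a := hβ ▸ Cardinal.mk_range_le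
        exact absurd (h1.trans (h2.trans ham)) (Order.lt_succ m).not_ge
      obtain ⟨x, hx⟩ := not_isCofinal_iff.1 hn
      exact mem_iUnion.2 ⟨x, fun b => hx _ ⟨b, rfl⟩⟩
    have hpiece : ∀ x : α, Cardinal.mk {f : β → α | ∀ b, f b < x} ≤ m := by
      intro x
      have h1 : Cardinal.mk (Iio x) ≤ m := by
        apply Order.lt_succ_iff.1
        exact Cardinal.mk_Iio_toType_ord_lt x
      have h2 : Cardinal.mk {f : β → α | ∀ b, f b < x} ≤ Cardinal.mk (β → Iio x) := by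
        refine Cardinal.mk_le_of_injective (f := fun f b => ⟨f.1 b, f.2 b⟩) ?_
        intro f g hfg
        apply Subtype.ext
        funext b
        exact congrArg Subtype.val (congrFun hfg b)
      refine h2.trans ?_
      rw [← Cardinal.power_def, hβ]
      exact (Cardinal.power_le_power_right h1).trans h.le
    calc Order.succ m ^ a = Cardinal.mk (univ : Set (β → α)) := by
          rw [Cardinal.mk_univ, ← Cardinal.power_def, hα, hβ]
      _ ≤ Cardinal.mk (⋃ x : α, {f : β → α | ∀ b, f b < x}) := Cardinal.mk_le_mk_of_subset hcov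
      _ ≤ Cardinal.mk α * ⨆ x : α, Cardinal.mk {f : β → α | ∀ b, f b < x} :=
          Cardinal.mk_iUnion_le _
      _ ≤ Order.succ m * Order.succ m := by
          rw [hα]
          exact mul_le_mul_right (ciSup_le' fun x => (hpiece x).trans (Order.le_succ m)) _
      _ = Order.succ m := Cardinal.mul_eq_self hreg.aleph0_le
  · have h1 : (1 : Cardinal.{1}) ≤ a := Cardinal.one_le_aleph0.trans ha
    have h0 : Order.succ m ≠ 0 := hreg.pos.ne'
    simpa using Cardinal.power_le_power_left h0 h1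

theorem two_pow_pow {a : Cardinal.{1}} (ha : ℵ₀ ≤ a) : (2 ^ a) ^ a = (2 : Cardinal.{1}) ^ a := by
  rw [← Cardinal.power_mul, Cardinal.mul_eq_self ha]

namespace BF

variable {B : Od → Cardinal.{1}} {s : Od} (h : BF B s)
include h

theorem aleph0_le (x : Od) : ℵ₀ ≤ B x := by
  rw [← h.zero]
  exact h.normal.monotone (zero_le)

theorem mono {x y : Od} (hxy : x ≤ y) : B x ≤ B y := by
  exact h.normal.monotone hxy

theorem lt {x y : Od} (hxy : x < y) : B x < B y := by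
  exact h.normal.strictMono hxy

theorem two_pow_le (x : Od) : 2 ^ B x ≤ B (x + 1) := by
  by_cases hx : x = s
  · subst hx
    rw [h.succ_s]
    exact (Order.le_succ _).trans ((Order.le_succ _).trans (Order.le_succ _))
  · rw [h.succ x hx]

theorem succ_le {x y : Od} (hxy : x < y) : Order.succ (B x) ≤ B y := by
  exact Order.succ_le_of_lt (h.lt hxy)

theorem pow_eq (x : Od) : B (x + 1) ^ B x = B (x + 1) := by
  have ha := h.aleph0_le x
  by_cases hx : x = s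
  · subst hx
    rw [h.succ_s]
    have h0 : B x ≤ 2 ^ B x := (Cardinal.cantor _).le
    have h1 := succ_pow_eq ha h0 (two_pow_pow ha)
    have h2 := succ_pow_eq ha (h0.trans (Order.le_succ _)) h1
    exact succ_pow_eq ha (h0.trans ((Order.le_succ _).trans (Order.le_succ _))) h2
  · rw [h.succ x hx]
    exact two_pow_pow ha

theorem normal_ord : Order.IsNormal (fun x => (B x).ord) :=
  isNormal_ord.comp h.normal

theorem le_ord (x : Od) : x ≤ (B x).ord := by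
  exact h.normal_ord.strictMono.le_apply

theorem card_le (x : Od) : x.card ≤ B x := by
  exact card_le_of_le_ord (h.le_ord x)

theorem lt_inac {μ x : Od} (hμ : Inac μ) (hx : x < μ) : (B x).ord < μ := by
  induction x using Ordinal.limitRecOn with
  | zero =>
    rw [h.zero, ord_aleph0]
    exact hμ.omega_lt
  | add_one x ih =>
    have h1 := ih ((lt_add_one x).trans hx)
    obtain ⟨k, hk, rfl⟩ := hμ
    rw [ord_lt_ord] at h1 ⊢
    have h2 : 2 ^ B x < k := hk.isStrongPrelimit h1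
    by_cases hs : x = s
    · subst hs
      rw [h.succ_s]
      exact hk.isSuccLimit.succ_lt (hk.isSuccLimit.succ_lt (hk.isSuccLimit.succ_lt h2))
    · rw [h.succ x hs]
      exact h2
  | limit x hl ih =>
    obtain ⟨b, hb, hlt⟩ := hμ.bound hx (fun y => (B y).ord) (fun y hy => ih y hy (hy.trans hx))
    exact lt_of_le_of_lt ((h.normal_ord.le_iff_forall_le hl).2 fun y hy => (hlt y hy).le) hb

theorem inac_eq {μ : Od} (hμ : Inac μ) : (B μ).ord = μ := by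
  apply le_antisymm _ (h.le_ord μ)
  exact (h.normal_ord.le_iff_forall_le hμ.isSuccLimit).2 fun y hy => (h.lt_inac hμ hy).le

theorem lt_limit {x a : Od} (hx : Order.IsSuccLimit x) (ha : a < (B x).ord) :
    ∃ y < x, a < (B y).ord := by
  exact (h.normal_ord.lt_iff_exists_lt hx).1 ha

theorem singular {x : Od} (hx : Order.IsSuccLimit x) (hn : ¬ Inac x) : (B x).ord.cof < B x := by
  by_contra hc
  rw [not_lt] at hc
  have h1 : (B x).ord.cof = x.cof := Ordinal.cof_map_of_isNormal h.normal_ord hx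
  have h2 : B x ≤ x.card := hc.trans (h1.le.trans (Ordinal.cof_le_card x))
  have h3 : (B x).ord = x := le_antisymm (ord_le.2 h2) (h.le_ord x)
  apply hn
  refine ⟨B x, ⟨?_, hc, fun c hcx => ?_⟩, h3⟩
  · rw [← h.zero]
    exact h.lt hx.pos
  · obtain ⟨y, hy, hcy⟩ := (h.normal.lt_iff_exists_lt hx).1 hcx
    calc 2 ^ c ≤ 2 ^ B y := Cardinal.power_le_power_left two_ne_zero hcy.le
      _ ≤ B (y + 1) := h.two_pow_le y
      _ < B x := h.lt (hx.add_one_lt hy)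

theorem exists_index {a : Od} (ha : ω ≤ a) : ∃ z, (B z).ord ≤ a ∧ a < (B (z + 1)).ord := by
  obtain ⟨z, h1, h2⟩ := h.normal_ord.exists_map_le_lt_map_succ (x := a) (by
    show (B 0).ord ≤ a
    rw [h.zero, ord_aleph0]
    exact ha)
  exact ⟨z, h1, h2⟩

/-- A limit of inaccessibles is a fixed point. -/
theorem fix_of_lim {x : Od} (h0 : 0 < x) (hx : ∀ y < x, ∃ z, y < z ∧ z ≤ x ∧ Inac z) :
    (B x).ord = x ∧ Order.IsSuccLimit x := by
  have hl : Order.IsSuccLimit x := by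
    refine ⟨h0.not_isMin, Order.isSuccPrelimit_of_succ_lt fun y hy => ?_⟩
    obtain ⟨z, h1, h2, h3⟩ := hx y hy
    exact lt_of_lt_of_le (h3.isSuccLimit.succ_lt h1) h2
  refine ⟨le_antisymm ?_ (h.le_ord x), hl⟩
  refine (h.normal_ord.le_iff_forall_le hl).2 fun y hy => ?_
  obtain ⟨z, h1, h2, h3⟩ := hx y hy
  exact (h.lt_inac h3 h1).le.trans h2

end BF

theorem exists_bf (s : Od) : ∃ B, BF B s := by
  classical
  let B : Od → Cardinal.{1} := fun o => Ordinal.limitRecOn (motive := fun _ => Cardinal.{1}) o ℵ₀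
    (fun x c => if x = s then Order.succ (Order.succ (Order.succ (2 ^ c))) else 2 ^ c)
    (fun o _ f => ⨆ x : Iio o, f x.1 x.2)
  have hz : B 0 = ℵ₀ := Ordinal.limitRecOn_zero _ _ _
  have hs : ∀ x, B (x + 1) =
      if x = s then Order.succ (Order.succ (Order.succ (2 ^ B x))) else 2 ^ B x :=
    fun x => Ordinal.limitRecOn_add_one _ _ _ _
  have hl : ∀ o, Order.IsSuccLimit o → B o = ⨆ x : Iio o, B x.1 :=
    fun o ho => Ordinal.limitRecOn_limit _ _ _ _ ho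
  refine ⟨B, hz, Order.IsNormal.of_succ_lt (fun a => ?_) (fun {a} ha => ?_), fun x hx => ?_, ?_⟩
  · rw [Order.succ_eq_add_one, hs]
    split_ifs
    · exact (Cardinal.cantor _).trans_le
        ((Order.le_succ _).trans ((Order.le_succ _).trans (Order.le_succ _)))
    · exact Cardinal.cantor _
  · rw [hl a ha]
    have : Nonempty (Iio a) := ⟨⟨0, ha.pos⟩⟩
    have h1 := isLUB_ciSup (f := fun x : Iio a => B x.1) Cardinal.bddAbove_of_small
    rwa [show range (fun x : Iio a => B x.1) = B '' Iio a from (image_eq_range B (Iio a)).symm]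
      at h1
  · rw [hs, if_neg hx]
  · rw [hs, if_pos rfl]

namespace Ctx

variable (C : Ctx)

theorem s_aux : (C.B C.s).ord = C.s ∧ Order.IsSuccLimit C.s := by
  have h0 := (C.ke_si 0 C.ga_pos).inac
  refine C.bf.fix_of_lim (lt_of_lt_of_le h0.isSuccLimit.pos (C.ke_le 0 C.ga_pos)) fun y hy => ?_
  obtain ⟨i, hi, h⟩ := C.ke_cof y hy
  exact ⟨C.ke i, h, C.ke_le i hi, (C.ke_si i hi).inac⟩

theorem s_fix : (C.B C.s).ord = C.s := by
  exact C.s_aux.1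

theorem s_lim : Order.IsSuccLimit C.s := by
  exact C.s_aux.2

theorem omega1_lt_s : ω₁ < C.s := by
  refine lt_of_lt_of_le ?_ (C.ke_le 0 C.ga_pos)
  obtain ⟨k, hk, he⟩ := (C.ke_si 0 C.ga_pos).inac
  rw [← he, ← ord_aleph, ord_lt_ord, ← succ_aleph0]
  exact hk.isSuccLimit.succ_lt hk.aleph0_lt

theorem th_inac : Inac C.th.ord := by
  exact ⟨C.th, C.thin, rfl⟩

theorem dm_le (x : Od) : C.dm x ≤ (C.B (x + 1)).ord := by
  unfold Dat.dm
  split_ifs with hx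
  · rw [hx]
  · exact ord_le_ord.2 (C.bf.succ_le (lt_add_one x))

theorem succ_le_dm (x : Od) : (Order.succ (C.B x)).ord ≤ C.dm x := by
  unfold Dat.dm
  split_ifs with hx
  · rw [hx]
    exact ord_le_ord.2 (C.bf.succ_le (lt_add_one _))
  · exact le_rfl

end Ctx

end Pool.Agent.MP_85ce7b_lc

end

section

namespace Pool.Agent.MP_85ce7b_lc

open Set Cardinal Ordinal Dat

theorem Dle.refl (p : Raw) : Dle p p := by
  exact ⟨subset_rfl, fun _ hx hn => absurd hx hn, fun _ => subset_rfl, fun _ _ h => h,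
    fun _ L h => ⟨L, h, subset_rfl, fun _ _ => subset_rfl, rfl⟩⟩

theorem Dle.trans {r q p : Raw} (h₁ : Dle r q) (h₂ : Dle q p) : Dle r p := by
  refine ⟨h₂.c.trans h₁.c, fun x hx hn y hy => ?_, fun x => (h₂.h x).trans (h₁.h x),
    fun x hx h => h₁.l0 x (h₂.c hx) (h₂.l0 x hx h), fun x L h => ?_⟩
  · by_cases hq : x ∈ q.c
    · exact h₂.new x hq hn y hy
    · exact h₁.new x hx hq y (h₂.c hy)
  · obtain ⟨L', e', a', f', s'⟩ := h₂.l1 x L h
    obtain ⟨L'', e'', a'', f'', s''⟩ := h₁.l1 x L' e'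
    exact ⟨L'', e'', a''.trans a', fun ξ hξ => (f' ξ (a'' hξ)).trans (f'' ξ hξ), s''.trans s'⟩

theorem Dle.sAt_eq {q p : Raw} (h : Dle q p) {x : Od} (hx : x ∈ p.c) : sAt x q = sAt x p := by
  unfold sAt
  rcases e : p.l x with _ | L
  · rw [h.l0 x hx e]
  · obtain ⟨L', e', -, -, s'⟩ := h.l1 x L e
    rw [e', Option.map_some, Option.map_some, s']

theorem Agree.refl (t : Od) (p : Raw) : Agree t p p := by
  exact ⟨fun _ _ => ⟨Iff.rfl, rfl⟩, fun _ _ => rfl⟩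

theorem Agree.symm {t : Od} {q p : Raw} (h : Agree t q p) : Agree t p q := by
  exact ⟨fun x hx => ⟨(h.1 x hx).1.symm, (h.1 x hx).2.symm⟩, fun x hx => (h.2 x hx).symm⟩

theorem Agree.trans {t : Od} {r q p : Raw} (h₁ : Agree t r q) (h₂ : Agree t q p) :
    Agree t r p := by
  exact ⟨fun x hx => ⟨(h₁.1 x hx).1.trans (h₂.1 x hx).1, (h₁.1 x hx).2.trans (h₂.1 x hx).2⟩,
    fun x hx => (h₁.2 x hx).trans (h₂.2 x hx)⟩

theorem Agree.mono {t t' : Od} {q p : Raw} (h : Agree t q p) (ht : t ≤ t') : Agree t' q p := by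
  exact ⟨fun x hx => h.1 x (ht.trans hx), fun x hx => h.2 x (lt_of_le_of_lt ht hx)⟩

theorem rb1_agree (β : Od) (q u : Raw) : Agree β (mix β q u) u := by
  refine ⟨fun x hx => ⟨?_, ?_⟩, fun x hx => ?_⟩
  · simp only [mix, mem_ofPred_eq, if_neg (not_lt.2 hx)]
  · simp only [mix, if_neg (not_lt.2 hx)]
  · simp only [mix, if_neg (not_le.2 hx)]

theorem rb1_agLo (β : Od) (q u : Raw) : AgLo β (mix β q u) q := by
  refine ⟨fun x hx => ⟨?_, ?_, ?_⟩, ?_⟩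
  · simp only [mix, mem_ofPred_eq, if_pos hx]
  · simp only [mix, if_pos hx]
  · simp only [mix, if_pos hx.le]
  · simp only [mix, if_pos (le_refl β)]

theorem rb1_eq {β : Od} {q p : Raw} (h₁ : AgLo β q p) (h₂ : Agree β q p) : q = p := by
  refine Raw.ext (Set.ext fun x => ?_) (funext fun x => ?_) (funext fun x => ?_)
  · rcases lt_or_ge x β with h | h
    · exact (h₁.1 x h).1
    · exact (h₂.1 x h).1
  · rcases lt_or_ge x β with h | h
    · exact (h₁.1 x h).2.1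
    · exact (h₂.1 x h).2
  · rcases lt_trichotomy x β with h | h | h
    · exact (h₁.1 x h).2.2
    · rw [h]
      exact h₁.2
    · exact h₂.2 x h

theorem rb1_agLo_trans {β : Od} {r q p : Raw} (h₁ : AgLo β r q) (h₂ : AgLo β q p) :
    AgLo β r p :=
  ⟨fun x hx => ⟨(h₁.1 x hx).1.trans (h₂.1 x hx).1, (h₁.1 x hx).2.1.trans (h₂.1 x hx).2.1,
    (h₁.1 x hx).2.2.trans (h₂.1 x hx).2.2⟩, h₁.2.trans h₂.2⟩

theorem rb1_agLo_symm {β : Od} {q p : Raw} (h : AgLo β q p) : AgLo β p q :=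
  ⟨fun x hx => ⟨(h.1 x hx).1.symm, (h.1 x hx).2.1.symm, (h.1 x hx).2.2.symm⟩, h.2.symm⟩

theorem rb1_ext (β : Od) {q u w : Raw} (h₁ : AgLo β q w) (h₂ : Agree β u w) : mix β q u = w :=
  rb1_eq (rb1_agLo_trans (rb1_agLo β q u) h₁) ((rb1_agree β q u).trans h₂)

theorem rb1_congr {β : Od} {q q' u u' : Raw} (h₁ : AgLo β q q') (h₂ : Agree β u u') :
    mix β q u = mix β q' u' :=
  rb1_ext β (rb1_agLo_trans h₁ (rb1_agLo_symm (rb1_agLo β q' u')))
    (h₂.trans (rb1_agree β q' u').symm)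

theorem mix_self (β : Od) (q : Raw) : mix β q q = q := by
  exact rb1_ext β ⟨fun x hx => ⟨Iff.rfl, rfl, rfl⟩, rfl⟩ ⟨fun _ _ => ⟨Iff.rfl, rfl⟩, fun _ _ => rfl⟩

theorem mix_mix_left (β : Od) (q u w : Raw) : mix β (mix β q u) w = mix β q w := by
  exact rb1_congr (rb1_agLo β q u) (Agree.refl β w)

theorem mix_mix_right (β : Od) (q u w : Raw) : mix β q (mix β u w) = mix β q w := by
  exact rb1_congr ⟨fun x hx => ⟨Iff.rfl, rfl, rfl⟩, rfl⟩ (rb1_agree β u w)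

theorem agree_mix (β : Od) (q u : Raw) : Agree β (mix β q u) u := by
  exact rb1_agree β q u

theorem agLo_mix (β : Od) (q u : Raw) : AgLo β (mix β q u) q := by
  exact rb1_agLo β q u

theorem mix_eq_left {β : Od} {q u : Raw} (h : Agree β q u) : mix β q u = q := by
  exact rb1_ext β ⟨fun x hx => ⟨Iff.rfl, rfl, rfl⟩, rfl⟩ h.symm

theorem mix_eq_right {β : Od} {q u : Raw} (h : AgLo β q u) : mix β q u = u := by
  exact rb1_ext β h (Agree.refl β u)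

theorem mix_congr {β : Od} {q q' u u' : Raw} (h₁ : AgLo β q q') (h₂ : Agree β u u') :
    mix β q u = mix β q' u' := by
  exact rb1_congr h₁ h₂

theorem eq_of_agLo_agree {β : Od} {q p : Raw} (h₁ : AgLo β q p) (h₂ : Agree β q p) : q = p := by
  exact rb1_eq h₁ h₂

namespace Ctx

variable {C : Ctx} {p q r u w b : Raw} {t β δ μ x y : Od}

theorem sp_inac (h : μ ∈ C.Sp) : Inac μ := (C.good μ h).inac

theorem valid_max (h : C.Valid p) : ∃ m ∈ p.c, ∀ x ∈ p.c, x ≤ m := by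
  by_cases hm : sSup p.c ∈ p.c
  · exact ⟨_, hm, fun x hx => le_csSup h.bd hx⟩
  · exfalso
    have hlt : ∀ z ∈ p.c, z < sSup p.c := fun z hz =>
      lt_of_le_of_ne (le_csSup h.bd hz) (fun e => hm (e ▸ hz))
    obtain ⟨z0, hz0⟩ := h.ne
    refine hm (h.cl _ ⟨lt_of_le_of_lt zero_le (hlt z0 hz0), fun y hy => ?_⟩)
    obtain ⟨z, hz, hyz⟩ := exists_lt_of_lt_csSup ⟨z0, hz0⟩ hy
    exact ⟨z, hz, hyz, hlt z hz⟩

/-- The last point below a given ordinal that is not a limit point. -/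
theorem valid_max_below (h : C.Valid p) (hn : ¬ LimP p.c x) (hy : ∃ y ∈ p.c, y < x) :
    ∃ m ∈ p.c, m < x ∧ ∀ z ∈ p.c, z < x → z ≤ m := by
  obtain ⟨z0, hz0, hz0x⟩ := hy
  have hne : (p.c ∩ Iio x).Nonempty := ⟨z0, hz0, hz0x⟩
  have hbd : BddAbove (p.c ∩ Iio x) := ⟨x, fun z hz => le_of_lt hz.2⟩
  by_cases hm : sSup (p.c ∩ Iio x) ∈ p.c ∩ Iio x
  · exact ⟨_, hm.1, hm.2, fun z hz hzx => le_csSup hbd ⟨hz, hzx⟩⟩
  · exfalso
    have hlt : ∀ z ∈ p.c ∩ Iio x, z < sSup (p.c ∩ Iio x) := fun z hz =>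
      lt_of_le_of_ne (le_csSup hbd hz) (fun e => hm (e ▸ hz))
    have hl : LimP p.c (sSup (p.c ∩ Iio x)) := by
      refine ⟨lt_of_le_of_lt zero_le (hlt z0 ⟨hz0, hz0x⟩), fun y hy => ?_⟩
      obtain ⟨z, hz, hyz⟩ := exists_lt_of_lt_csSup hne hy
      exact ⟨z, hz.1, hyz, hlt z hz⟩
    have hle : sSup (p.c ∩ Iio x) ≤ x := csSup_le hne fun z hz => le_of_lt hz.2
    rcases hle.lt_or_eq with h1 | h1
    · exact hm ⟨h.cl _ hl, h1⟩
    · exact hn (h1 ▸ hl)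

theorem spec_mem (h : C.Valid p) (hμ : Spec p μ) : μ ∈ p.c := by
  obtain ⟨L, hL⟩ := hμ
  by_contra hn
  rw [h.l0 μ hn] at hL
  exact absurd hL (by simp)

theorem spec_inac (h : C.Valid p) (hμ : Spec p μ) : Inac μ ∧ C.s + 1 < μ ∧ μ ∈ C.Sp := by
  obtain ⟨L, hL⟩ := hμ
  have hv := h.sp μ L hL
  exact ⟨sp_inac hv.sp, hv.gt, hv.sp⟩

theorem spec_max_below (h : C.Valid p) (hμ : Spec p μ) :
    ∃ m ∈ p.c, m < μ ∧ ∀ z ∈ p.c, z < μ → z ≤ m := by
  obtain ⟨L, hL⟩ := hμ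
  refine valid_max_below h (fun hl => ?_) (h.sp μ L hL).pre
  rw [h.lim μ hl] at hL
  exact absurd hL (by simp)

theorem l_none_of_not_inac (h : C.Valid p) (hx : ¬ Inac x) : p.l x = none := by
  rcases e : p.l x with _ | L
  · rfl
  · exact absurd (spec_inac h ⟨L, e⟩).1 hx

theorem fp_mem (h : C.Valid p) : fp p ∈ p.c ∧ (∀ x ∈ p.c, fp p ≤ x) ∧ p.l (fp p) = none := by
  have h1 : ∀ x ∈ p.c, fp p ≤ x := fun x hx => csInf_le' hx
  refine ⟨csInf_mem h.ne, h1, ?_⟩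
  rcases e : p.l (fp p) with _ | L
  · rfl
  · obtain ⟨y, hy, hlt⟩ := (h.sp _ L e).pre
    exact absurd (h1 y hy) (not_le.2 hlt)

theorem rb1_mem_of_h (h : C.Valid p) {z : Od × Od} (hz : z ∈ p.h x) : x ∈ p.c := by
  by_contra hn
  rw [h.h0 x hn] at hz
  exact hz

theorem rb1_val_bound (h : C.Valid p) (ht : Inac t) (hx : x < t)
    (hv : ∀ i v, (i, v) ∈ p.h x → v < t) : ∃ b < t, ∀ i v, (i, v) ∈ p.h x → v < b := by
  obtain ⟨b, hb, hs⟩ := ht.bound_set (S := Prod.snd '' p.h x) (by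
      rintro _ ⟨⟨i, v⟩, hz, rfl⟩
      exact hv i v hz) (by
      refine lt_of_le_of_lt Cardinal.mk_image_le (lt_of_le_of_lt (h.col x).card ?_)
      refine Cardinal.lift_lt.2 (ord_lt_ord.1 ?_)
      rw [ht.ord_card]
      exact C.bf.lt_inac ht hx)
  exact ⟨b, hb, fun i v hiv => hs ⟨(i, v), hiv, rfl⟩⟩

theorem bdd_of_below (h : C.Valid p) (ht : Inac t) (hc : p.c ⊆ Iio t) (hb : C.Below t p) :
    Bdd t p := by
  obtain ⟨m, hm, hmax⟩ := valid_max h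
  have hmt : m < t := hc hm
  obtain ⟨b1, hb1, hv⟩ := rb1_val_bound h ht hmt (fun i v hiv => by
    have h1 := hb m hmt i v hiv
    rwa [C.bf.inac_eq ht] at h1)
  have h1 : (C.B (m + 1)).ord < t := C.bf.lt_inac ht (ht.isSuccLimit.add_one_lt hmt)
  have h2 : m < Max.max b1 (C.B (m + 1)).ord :=
    lt_of_lt_of_le (lt_of_lt_of_le (lt_add_one m) (C.bf.le_ord _)) (le_max_right _ _)
  refine ⟨Max.max b1 (C.B (m + 1)).ord, max_lt hb1 h1, fun x hx => lt_of_le_of_lt (hmax x hx) h2,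
    fun x i v hiv => ?_, fun x L hL => ?_⟩
  · have hx : x ∈ p.c := rb1_mem_of_h h hiv
    have hxm := hmax x hx
    refine ⟨lt_of_le_of_lt hxm h2, ?_, ?_⟩
    · refine lt_of_lt_of_le ((h.col x).dom i v hiv) ((C.dm_le x).trans (le_trans ?_ (le_max_right _ _)))
      exact ord_le_ord.2 (C.bf.mono (add_le_add_left hxm 1))
    · rcases hxm.lt_or_eq with h3 | h3
      · refine lt_of_lt_of_le (h.bel m hm x h3 i v hiv) (le_trans ?_ (le_max_right _ _))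
        exact ord_le_ord.2 (C.bf.mono (lt_add_one m).le)
      · subst h3
        exact lt_of_lt_of_le (hv i v hiv) (le_max_left _ _)
  · have hx : x ∈ p.c := spec_mem h ⟨L, hL⟩
    have hxb : x < Max.max b1 (C.B (m + 1)).ord := lt_of_le_of_lt (hmax x hx) h2
    have hl := h.sp x L hL
    refine ⟨hxb, fun z hz => lt_trans (hl.Alt hz) hxb, fun z hz => ?_, fun z hz => ?_⟩
    · obtain ⟨a1, a2, a3⟩ := hl.Fb hz
      exact ⟨a1.trans hxb, a2.trans hxb, a3.trans hxb⟩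
    · obtain ⟨y, -, a1, a2⟩ := hl.s z hz
      exact lt_of_le_of_lt a1 (a2.trans hxb)

theorem below_of_bdd (ht : Inac t) (h : Bdd t p) : p.c ⊆ Iio t ∧ C.Below t p := by
  obtain ⟨b, hb, h1, h2, -⟩ := h
  refine ⟨fun x hx => lt_trans (h1 hx) hb, fun x _ i v hiv => ?_⟩
  rw [C.bf.inac_eq ht]
  exact (h2 x i v hiv).2.2.trans hb

theorem bdd_mono (h : Bdd μ p) (ht : μ ≤ t) : Bdd t p := by
  obtain ⟨b, hb, h1⟩ := h
  exact ⟨b, lt_of_lt_of_le hb ht, h1⟩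

theorem scope_of_mem (h : C.Valid p) (ht : t ∈ p.c) : C.Scope t p :=
  ⟨h, h.bel t ht, Or.inl ht⟩

theorem blk_scope (h : C.Blk μ b) (hμ : Inac μ) : C.Scope μ b ∧ fp b + 1 < μ ∧ b.c ⊆ Iio μ := by
  obtain ⟨h1, h2⟩ := below_of_bdd (C := C) hμ h.bdd
  have h3 : fp b + 1 < μ := h1 h.nxt
  exact ⟨⟨h.v, h2, Or.inr ⟨hμ, h.gt.trans ((lt_add_one _).trans h3), h1⟩⟩, h3, h1⟩

theorem blk_good (h : C.Blk μ b) : Good b (fp b + 1) := by
  refine ⟨h.nxt, l_none_of_not_inac h.v fun hi => ?_, fp b, rfl⟩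
  exact lt_irrefl _ (hi.isSuccLimit.add_one_lt (lt_add_one (fp b)))

theorem rb1_LV_mono {c c' : Set Od} {L : Lo} (h : C.LV c μ L) (hc : c ⊆ c') : C.LV c' μ L := by
  obtain ⟨y, hy, hlt⟩ := h.pre
  refine ⟨h.sp, h.gt, ⟨y, hc hy, hlt⟩, h.A, h.Alt, h.Fb, h.F, h.fin, fun z hz => ?_⟩
  obtain ⟨y, hy, h1⟩ := h.s z hz
  exact ⟨y, hc hy, h1⟩

theorem rb1_h_fp {f : Set (Od × Od)} (h : p.h (fp b) = ∅) : (ins p μ b f).h (fp b) = f := by
  simp only [ins, setL, cat, setH, Function.update_self, h, empty_union]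

theorem rb1_h_b {f : Set (Od × Od)} (h : p.h x = ∅) (hx : x ≠ fp b) :
    (ins p μ b f).h x = b.h x := by
  simp only [ins, setL, cat, setH, Function.update_of_ne hx, h, empty_union]

theorem rb1_h_nb {f : Set (Od × Od)} (h : C.Valid b) (hx : x ∉ b.c) :
    (ins p μ b f).h x = p.h x := by
  have h1 : x ≠ fp b := fun e => hx (e ▸ (fp_mem h).1)
  simp only [ins, setL, cat, setH, Function.update_of_ne h1, h.h0 x hx, union_empty]

theorem rb1_l_mu {f : Set (Od × Od)} {L : Lo} (h : μ ∉ b.c) (hL : p.l μ = some L) :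
    (ins p μ b f).l μ = some ⟨L.A, L.F, insert (fp b) L.s⟩ := by
  have h1 : (cat p (setH (fp b) f b)).l μ = some L := (if_neg h).trans hL
  simp only [ins, setL, Function.update_self, h1, Option.map_some]

theorem rb1_l_b {f : Set (Od × Od)} (h : x ∈ b.c) (hx : x ≠ μ) :
    (ins p μ b f).l x = b.l x := by
  have h1 : (cat p (setH (fp b) f b)).l x = b.l x := if_pos h
  simp only [ins, setL, Function.update_of_ne hx, h1]

theorem rb1_l_nb {f : Set (Od × Od)} (h : x ∉ b.c) (hx : x ≠ μ) :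
    (ins p μ b f).l x = p.l x := by
  have h1 : (cat p (setH (fp b) f b)).l x = p.l x := if_neg h
  simp only [ins, setL, Function.update_of_ne hx, h1]

theorem rb1_limP (hp : C.Valid p) (hμ : Spec p μ) (hb : C.Insb p μ b)
    (hx : LimP (p.c ∪ b.c) x) :
    (LimP p.c x ∧ (x < fp b ∨ μ < x)) ∨ (LimP b.c x ∧ fp b < x ∧ x < μ) := by
  have hin := (spec_inac hp hμ).1
  obtain ⟨-, -, hsub⟩ := blk_scope hb.blk hin
  obtain ⟨hfm, hfle, -⟩ := fp_mem hb.blk.v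
  have hfμ : fp b < μ := hsub hfm
  rcases le_or_gt x (fp b) with h1 | h1
  · have hl : LimP p.c x := by
      refine ⟨hx.1, fun y hy => ?_⟩
      obtain ⟨z, hz, h2, h3⟩ := hx.2 y hy
      rcases hz with hz | hz
      · exact ⟨z, hz, h2, h3⟩
      · exact absurd (hfle z hz) (not_le.2 (lt_of_lt_of_le h3 h1))
    exact Or.inl ⟨hl, Or.inl (hb.lt x (hp.cl x hl) (lt_of_le_of_lt h1 hfμ))⟩
  · rcases le_or_gt x μ with h4 | h4
    · have hl : LimP b.c x := by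
        refine ⟨hx.1, fun y hy => ?_⟩
        obtain ⟨z, hz, h2, h3⟩ := hx.2 (Max.max y (fp b)) (max_lt hy h1)
        rcases hz with hz | hz
        · exact absurd (hb.lt z hz (lt_of_lt_of_le h3 h4))
            (not_lt.2 (lt_of_le_of_lt (le_max_right _ _) h2).le)
        · exact ⟨z, hz, lt_of_le_of_lt (le_max_left _ _) h2, h3⟩
      exact Or.inr ⟨hl, h1, hsub (hb.blk.v.cl x hl)⟩
    · refine Or.inl ⟨⟨hx.1, fun y hy => ?_⟩, Or.inr h4⟩
      obtain ⟨z, hz, h2, h3⟩ := hx.2 (Max.max y μ) (max_lt hy h4)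
      rcases hz with hz | hz
      · exact ⟨z, hz, lt_of_le_of_lt (le_max_left _ _) h2, h3⟩
      · exact absurd (show z < μ from hsub hz) (not_lt.2 (lt_of_le_of_lt (le_max_right _ _) h2).le)

theorem ins_valid {f : Set (Od × Od)} (hp : C.Valid p) (hμ : Spec p μ) (hb : C.Insb p μ b)
    (hf : C.Col (fp b) f) (hv : ∀ i v, (i, v) ∈ f → v < (C.B (fp b + 1)).ord) :
    C.Valid (ins p μ b f) := by
  obtain ⟨L, hL⟩ := hμ
  have hμ : Spec p μ := ⟨L, hL⟩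
  have hin := (spec_inac hp hμ).1
  have hμp := spec_mem hp hμ
  obtain ⟨hsc, hf1, hsub⟩ := blk_scope hb.blk hin
  obtain ⟨hfm, hfle, -⟩ := fp_mem hb.blk.v
  have hfμ : fp b < μ := hsub hfm
  have hv' := hb.blk.v
  have hnb : ∀ z, z < fp b ∨ μ ≤ z → z ∉ b.c := by
    rintro z (hz | hz) hzb
    · exact absurd (hfle z hzb) (not_le.2 hz)
    · exact absurd hz (not_le.2 (hsub hzb))
  have hnp : ∀ z, fp b ≤ z → z < μ → z ∉ p.c := fun z h1 h2 hz =>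
    absurd h1 (not_le.2 (hb.lt z hz h2))
  have hlimp := fun x => rb1_limP hp hμ hb (x := x)
  refine ⟨hp.ne.mono subset_union_left, hp.bd.union hv'.bd, fun x hx => ?_, fun x hx => ?_,
    fun x hx => ?_, fun x => ?_, fun i v hiv => ?_, fun y hy x hxy i v hiv => ?_,
    fun x hx => ?_, fun x hx hi => ?_, fun ν L' hL' => ?_⟩
  · rcases hlimp x hx with h1 | h1
    · exact Or.inl (hp.cl x h1.1)
    · exact Or.inr (hv'.cl x h1.1)
  · have h2 : x ∉ b.c := fun h1 => hx (Or.inr h1)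
    rw [rb1_h_nb hv' h2]
    exact hp.h0 x fun h1 => hx (Or.inl h1)
  · have h2 : x ∉ b.c := fun h1 => hx (Or.inr h1)
    have h3 : x ≠ μ := fun h1 => hx (Or.inl (h1 ▸ hμp))
    rw [rb1_l_nb h2 h3]
    exact hp.l0 x fun h1 => hx (Or.inl h1)
  · by_cases h1 : x = fp b
    · subst h1
      rw [rb1_h_fp (hp.h0 _ (hnp _ le_rfl hfμ))]
      exact hf
    · by_cases h2 : x ∈ b.c
      · rw [rb1_h_b (hp.h0 _ (hnp _ (hfle x h2) (hsub h2))) h1]
        exact hv'.col x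
      · rw [rb1_h_nb hv' h2]
        exact hp.col x
  · rw [rb1_h_nb hv' (hnb _ (Or.inl ((lt_add_one _).trans hb.blk.gt)))] at hiv
    exact hp.vs i v hiv
  · by_cases h1 : x = fp b
    · subst h1
      rw [rb1_h_fp (hp.h0 _ (hnp _ le_rfl hfμ))] at hiv
      exact lt_of_lt_of_le (hv i v hiv) (ord_le_ord.2 (C.bf.mono (Order.add_one_le_of_lt hxy)))
    · by_cases h2 : x ∈ b.c
      · rw [rb1_h_b (hp.h0 _ (hnp _ (hfle x h2) (hsub h2))) h1] at hiv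
        rcases hy with hy | hy
        · have h3 : μ ≤ y := by
            by_contra h4
            exact hnp y ((hfle x h2).trans hxy.le) (not_le.1 h4) hy
          exact lt_of_lt_of_le (hsc.bel x (hsub h2) i v hiv) (ord_le_ord.2 (C.bf.mono h3))
        · exact hv'.bel y hy x hxy i v hiv
      · rw [rb1_h_nb hv' h2] at hiv
        rcases hy with hy | hy
        · exact hp.bel y hy x hxy i v hiv
        · have h3 : x < fp b := hb.lt x (rb1_mem_of_h hp hiv) (hxy.trans (hsub hy))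
          exact lt_of_lt_of_le (hb.bel x h3 i v hiv) (ord_le_ord.2 (C.bf.mono (hfle y hy)))
  · rcases hlimp x hx with h1 | h1
    · have h2 : x ≠ μ := by
        rcases h1.2 with h3 | h3
        · exact (h3.trans hfμ).ne
        · exact h3.ne'
      rw [rb1_l_nb (hnb x (h1.2.imp id le_of_lt)) h2]
      exact hp.lim x h1.1
    · rw [rb1_l_b (hv'.cl x h1.1) h1.2.2.ne]
      exact hv'.lim x h1.1
  · rcases hlimp x hx with h1 | h1
    · obtain ⟨⟨y, hy, he⟩, hs⟩ := hp.eas x h1.1 hi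
      refine ⟨?_, hs⟩
      rcases h1.2 with h3 | h3
      · refine ⟨y, hy, fun z h4 h5 => ?_⟩
        have h6 : z ∉ b.c := hnb z (Or.inl (h5.trans h3))
        rw [rb1_h_nb hv' h6, rb1_l_nb h6 (h5.trans (h3.trans hfμ)).ne]
        exact he z h4 h5
      · refine ⟨Max.max y μ, max_lt hy h3, fun z h4 h5 => ?_⟩
        have h7 : μ < z := lt_of_le_of_lt (le_max_right _ _) h4
        have h6 : z ∉ b.c := hnb z (Or.inr h7.le)
        rw [rb1_h_nb hv' h6, rb1_l_nb h6 h7.ne']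
        exact he z (lt_of_le_of_lt (le_max_left _ _) h4) h5
    · obtain ⟨⟨y, hy, he⟩, hs⟩ := hv'.eas x h1.1 hi
      refine ⟨⟨Max.max y (fp b), max_lt hy h1.2.1, fun z h4 h5 => ?_⟩, hs⟩
      have h7 : fp b < z := lt_of_le_of_lt (le_max_right _ _) h4
      have h8 : z < μ := h5.trans h1.2.2
      have h9 : z ∉ p.c := hnp z h7.le h8
      by_cases h6 : z ∈ b.c
      · rw [rb1_h_b (hp.h0 z h9) h7.ne', rb1_l_b h6 h8.ne]
        exact he z (lt_of_le_of_lt (le_max_left _ _) h4) h5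
      · rw [rb1_h_nb hv' h6, rb1_l_nb h6 h8.ne]
        exact ⟨hp.h0 z h9, hp.l0 z h9⟩
  · by_cases h1 : ν = μ
    · subst h1
      rw [rb1_l_mu (hnb _ (Or.inr le_rfl)) hL] at hL'
      obtain rfl := Option.some.inj hL'
      have hl := rb1_LV_mono (c' := p.c ∪ b.c) (hp.sp ν L hL) subset_union_left
      refine ⟨hl.sp, hl.gt, hl.pre, hl.A, hl.Alt, hl.Fb, hl.F, hl.fin.insert _, ?_⟩
      rintro z (rfl | hz)
      · exact ⟨fp b, Or.inr hfm, le_rfl, hfμ⟩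
      · exact hl.s z hz
    · by_cases h2 : ν ∈ b.c
      · rw [rb1_l_b h2 h1] at hL'
        exact rb1_LV_mono (hv'.sp ν L' hL') subset_union_right
      · rw [rb1_l_nb h2 h1] at hL'
        exact rb1_LV_mono (hp.sp ν L' hL') subset_union_left

theorem ins_valid' (hp : C.Valid p) (h : C.Ins q p μ) : C.Valid q := by
  obtain ⟨L, ξ, hL, hξ, hb, rfl⟩ := h
  obtain ⟨h1, h2⟩ := (hp.sp μ L hL).F ξ hξ
  exact ins_valid hp ⟨L, hL⟩ hb h1 h2

/-- An insertion changes the set `s` at `μ` and agrees above `μ`. -/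
theorem ins_facts (hp : C.Valid p) (h : C.Ins q p μ) :
    Spec p μ ∧ Agree μ q p ∧ sAt μ q ≠ sAt μ p ∧ (∀ x ∈ p.c, x ≠ μ → q.l x = p.l x) ∧
      (∀ x ∈ p.c, q.h x = p.h x) ∧ p.c ⊆ q.c ∧
      ∀ x ∈ q.c, x ∉ p.c → x < μ ∧ ∀ y ∈ p.c, y < μ → y < x := by
  obtain ⟨L, ξ, hL, hξ, hb, rfl⟩ := h
  have hμ : Spec p μ := ⟨L, hL⟩
  have hin := (spec_inac hp hμ).1
  obtain ⟨-, -, hsub⟩ := blk_scope hb.blk hin
  obtain ⟨hfm, hfle, -⟩ := fp_mem hb.blk.v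
  have hv' := hb.blk.v
  have hnb : ∀ z, μ ≤ z → z ∉ (C.dec ξ).c := fun z hz hzb => absurd hz (not_le.2 (hsub hzb))
  have hpb : ∀ z ∈ p.c, z ∉ (C.dec ξ).c := fun z hz hzb =>
    absurd (hfle z hzb) (not_le.2 (hb.lt z hz (hsub hzb)))
  refine ⟨hμ, ⟨fun x hx => ⟨⟨fun h1 => ?_, fun h1 => Or.inl h1⟩, rb1_h_nb hv' (hnb x hx)⟩,
    fun x hx => rb1_l_nb (hnb x hx.le) hx.ne'⟩, fun he => ?_,
    fun x hx hne => rb1_l_nb (hpb x hx) hne, fun x hx => rb1_h_nb hv' (hpb x hx),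
    subset_union_left, fun x hx hn => ?_⟩
  · rcases h1 with h1 | h1
    · exact h1
    · exact absurd h1 (hnb x hx)
  · unfold sAt at he
    rw [rb1_l_mu (hnb μ le_rfl) hL, hL, Option.map_some, Option.map_some] at he
    have h1 : insert (fp (C.dec ξ)) L.s = L.s := Option.some.inj he
    have h2 : fp (C.dec ξ) ∈ L.s := h1 ▸ mem_insert _ _
    obtain ⟨y, hy, h3, h4⟩ := (hp.sp μ L hL).s _ h2
    exact absurd h3 (not_le.2 (hb.lt y hy h4))
  · rcases hx with hx | hx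
    · exact absurd hx hn
    · exact ⟨hsub hx, fun y hy hyμ => lt_of_lt_of_le (hb.lt y hy hyμ) (hfle x hx)⟩

theorem rb1_insb_ae (hp : C.Valid p) (hμ : Spec p μ) : {ξ | C.Insb p μ (C.dec ξ)} ∈ C.W μ := by
  obtain ⟨hin, -, hsp⟩ := spec_inac hp hμ
  obtain ⟨m, hm, hmμ, hmax⟩ := spec_max_below hp hμ
  obtain ⟨b1, hb1, hv⟩ := rb1_val_bound hp hin hmμ (fun i v hiv => by
    have h1 := hp.bel μ (spec_mem hp hμ) m hmμ i v hiv
    rwa [C.bf.inac_eq hin] at h1)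
  have h1 : (C.B m).ord < μ := C.bf.lt_inac hin hmμ
  refine Filter.mem_of_superset ((C.good μ hsp).w0 (Max.max b1 (C.B m).ord) (max_lt hb1 h1)) ?_
  rintro ξ ⟨-, hblk, hlt⟩
  have h2 : b1 < fp (C.dec ξ) := lt_of_le_of_lt (le_max_left _ _) hlt
  have h3 : (C.B m).ord < fp (C.dec ξ) := lt_of_le_of_lt (le_max_right _ _) hlt
  have h4 : fp (C.dec ξ) < μ := (lt_add_one _).trans (blk_scope hblk hin).2.1
  refine ⟨hblk, fun x hx hxμ => ?_, fun x hx i v hiv => ?_⟩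
  · exact lt_of_le_of_lt ((hmax x hx hxμ).trans (C.bf.le_ord m)) h3
  · refine lt_of_lt_of_le ?_ (C.bf.le_ord _)
    rcases (hmax x (rb1_mem_of_h hp hiv) (hx.trans h4)).lt_or_eq with h5 | h5
    · exact (hp.bel m hm x h5 i v hiv).trans h3
    · subst h5
      exact (hv i v hiv).trans h2

/-- Insertion is always possible, with arbitrarily large first point. -/
theorem exists_ins (hp : C.Valid p) {L : Lo} (hμ : p.l μ = some L) {a : Od} (ha : a < μ)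
    {Z : Set Od} (hZ : Z ∈ C.W μ) :
    ∃ ξ ∈ L.A, ξ ∈ Z ∧ a < fp (C.dec ξ) ∧ C.Insb p μ (C.dec ξ) := by
  have hl := hp.sp μ L hμ
  have h1 := (C.good μ hl.sp).w0 a ha
  have h2 := rb1_insb_ae hp ⟨L, hμ⟩
  have h3 : L.A ∩ (Z ∩ ({ξ | ξ < μ ∧ C.Blk μ (C.dec ξ) ∧ a < fp (C.dec ξ)} ∩
      {ξ | C.Insb p μ (C.dec ξ)})) ∈ C.W μ :=
    Filter.inter_mem hl.A (Filter.inter_mem hZ (Filter.inter_mem h1 h2))
  obtain ⟨ξ, a1, a2, a3, a4⟩ := Ultrafilter.nonempty_of_mem h3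
  exact ⟨ξ, a1, a2, a3.2.2, a4⟩

/-- Almost all blocks can be inserted. -/
theorem insb_ae (hp : C.Valid p) (hμ : Spec p μ) : {ξ | C.Insb p μ (C.dec ξ)} ∈ C.W μ := by
  exact rb1_insb_ae hp hμ

end Ctx

end Pool.Agent.MP_85ce7b_lc

end

section

namespace Pool.Agent.MP_85ce7b_lc

open Set Cardinal Ordinal Dat

section Aux

variable {p q u b : Raw} {β μ x : Od} {f : Set (Od × Od)}

theorem rb2_c_lt (h : x < β) : x ∈ (mix β q u).c ↔ x ∈ q.c := by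
  simp [mix, h]

theorem rb2_c_ge (h : β ≤ x) : x ∈ (mix β q u).c ↔ x ∈ u.c := by
  simp [mix, not_lt.2 h]

theorem rb2_h_lt (h : x < β) : (mix β q u).h x = q.h x := by
  simp [mix, h]

theorem rb2_h_ge (h : β ≤ x) : (mix β q u).h x = u.h x := by
  simp [mix, not_lt.2 h]

theorem rb2_l_le (h : x ≤ β) : (mix β q u).l x = q.l x := by
  simp [mix, h]

theorem rb2_l_gt (h : β < x) : (mix β q u).l x = u.l x := by
  simp [mix, not_le.2 h]

theorem rb2_ins_c : x ∈ (ins p μ b f).c ↔ x ∈ p.c ∨ x ∈ b.c := Iff.rfl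

theorem rb2_ins_h : (ins p μ b f).h x = p.h x ∪ (setH (fp b) f b).h x := rfl

theorem rb2_setH (h : x ≠ fp b) : (setH (fp b) f b).h x = b.h x := by
  simp [setH, Function.update_of_ne h]

theorem rb2_ins_l_mem (h : x ≠ μ) (hx : x ∈ b.c) : (ins p μ b f).l x = b.l x := by
  simp [ins, setL, cat, setH, Function.update_of_ne h, hx]

theorem rb2_ins_l_nmem (h : x ≠ μ) (hx : x ∉ b.c) : (ins p μ b f).l x = p.l x := by
  simp [ins, setL, cat, setH, Function.update_of_ne h, hx]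

theorem rb2_ins_l_self (hx : μ ∉ b.c) :
    (ins p μ b f).l μ = (p.l μ).map fun L => ⟨L.A, L.F, insert (fp b) L.s⟩ := by
  simp [ins, setL, cat, setH, hx]

theorem rb2_ins_l_congr {p' : Raw} (hμ : μ ∉ b.c) (h : p.l x = p'.l x) :
    (ins p μ b f).l x = (ins p' μ b f).l x := by
  by_cases h1 : x = μ
  · subst h1
    rw [rb2_ins_l_self hμ, rb2_ins_l_self hμ, h]
  · by_cases h2 : x ∈ b.c
    · rw [rb2_ins_l_mem h1 h2, rb2_ins_l_mem h1 h2]
    · rw [rb2_ins_l_nmem h1 h2, rb2_ins_l_nmem h1 h2, h]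

theorem rb2_bdd (h : Bdd μ b) (hx : x ∈ b.c) : x < μ := by
  obtain ⟨a, ha, h1, -⟩ := h
  exact lt_trans (h1 hx) ha

theorem rb2_lim_le (hx : x ≤ β) (h : LimP (mix β q u).c x) : LimP q.c x := by
  refine ⟨h.1, fun y hy => ?_⟩
  obtain ⟨z, hz, h1, h2⟩ := h.2 y hy
  exact ⟨z, (rb2_c_lt (h2.trans_le hx)).1 hz, h1, h2⟩

theorem rb2_lim_gt (hx : β < x) (h : LimP (mix β q u).c x) : LimP u.c x := by
  refine ⟨h.1, fun y hy => ?_⟩
  obtain ⟨z, hz, h1, h2⟩ := h.2 (max y β) (max_lt hy hx)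
  exact ⟨z, (rb2_c_ge ((le_max_right _ _).trans h1.le)).1 hz, (le_max_left _ _).trans_lt h1, h2⟩

theorem rb2_dle_left {w : Raw} (h : Dle q p) (hβ : β ∈ p.c) : Dle (mix β q w) (mix β p w) := by
  refine ⟨fun x hx => ?_, fun x hx hn => ?_, fun x => ?_, fun x hx hl => ?_, fun x L hl => ?_⟩
  · rcases lt_or_ge x β with h1 | h1
    · exact (rb2_c_lt h1).2 (h.c ((rb2_c_lt h1).1 hx))
    · exact (rb2_c_ge h1).2 ((rb2_c_ge h1).1 hx)
  · rcases lt_or_ge x β with h1 | h1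
    · exact absurd (h.new x ((rb2_c_lt h1).1 hx) (fun h' => hn ((rb2_c_lt h1).2 h')) β hβ)
        h1.not_gt
    · exact absurd ((rb2_c_ge h1).2 ((rb2_c_ge h1).1 hx)) hn
  · rcases lt_or_ge x β with h1 | h1
    · rw [rb2_h_lt h1, rb2_h_lt h1]
      exact h.h x
    · rw [rb2_h_ge h1, rb2_h_ge h1]
  · rcases le_or_gt x β with h1 | h1
    · rw [rb2_l_le h1] at hl ⊢
      refine h.l0 x ?_ hl
      rcases h1.lt_or_eq with h2 | h2
      · exact (rb2_c_lt h2).1 hx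
      · rwa [h2]
    · rwa [rb2_l_gt h1] at hl ⊢
  · rcases le_or_gt x β with h1 | h1
    · rw [rb2_l_le h1] at hl ⊢
      exact h.l1 x L hl
    · rw [rb2_l_gt h1] at hl ⊢
      exact ⟨L, hl, subset_rfl, fun _ _ => subset_rfl, rfl⟩

theorem rb2_dle_right {w : Raw} (h : Dle q p) (hβ : β ∈ p.c) : Dle (mix β w q) (mix β w p) := by
  refine ⟨fun x hx => ?_, fun x hx hn y hy => ?_, fun x => ?_, fun x hx hl => ?_,
    fun x L hl => ?_⟩
  · rcases lt_or_ge x β with h1 | h1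
    · exact (rb2_c_lt h1).2 ((rb2_c_lt h1).1 hx)
    · exact (rb2_c_ge h1).2 (h.c ((rb2_c_ge h1).1 hx))
  · rcases lt_or_ge x β with h1 | h1
    · exact absurd ((rb2_c_lt h1).2 ((rb2_c_lt h1).1 hx)) hn
    · rcases lt_or_ge y β with h2 | h2
      · exact h2.trans_le h1
      · exact h.new x ((rb2_c_ge h1).1 hx) (fun h' => hn ((rb2_c_ge h1).2 h')) y
          ((rb2_c_ge h2).1 hy)
  · rcases lt_or_ge x β with h1 | h1
    · rw [rb2_h_lt h1, rb2_h_lt h1]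
    · rw [rb2_h_ge h1, rb2_h_ge h1]
      exact h.h x
  · rcases le_or_gt x β with h1 | h1
    · rwa [rb2_l_le h1] at hl ⊢
    · rw [rb2_l_gt h1] at hl ⊢
      exact h.l0 x ((rb2_c_ge h1.le).1 hx) hl
  · rcases le_or_gt x β with h1 | h1
    · rw [rb2_l_le h1] at hl ⊢
      exact ⟨L, hl, subset_rfl, fun _ _ => subset_rfl, rfl⟩
    · rw [rb2_l_gt h1] at hl ⊢
      exact h.l1 x L hl

theorem rb2_mix_ins_left {w : Raw} (hμ : μ ≤ β) (hb : ∀ x ∈ b.c, x < μ) (hf : fp b ∈ b.c)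
    (h0 : ∀ x, x ∉ b.c → b.h x = ∅) : mix β (ins p μ b f) w = ins (mix β p w) μ b f := by
  have hn : ∀ x, β ≤ x → x ∉ b.c := fun x hx h => ((hb x h).trans_le hμ).not_ge hx
  have hm : μ ∉ b.c := fun h => lt_irrefl _ (hb μ h)
  refine Raw.ext (Set.ext fun x => ?_) (funext fun x => ?_) (funext fun x => ?_)
  · rcases lt_or_ge x β with h1 | h1
    · rw [rb2_c_lt h1, rb2_ins_c, rb2_ins_c, rb2_c_lt h1]
    · rw [rb2_c_ge h1, rb2_ins_c, rb2_c_ge h1, or_iff_left (hn x h1)]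
  · rcases lt_or_ge x β with h1 | h1
    · rw [rb2_h_lt h1, rb2_ins_h, rb2_ins_h, rb2_h_lt h1]
    · rw [rb2_h_ge h1, rb2_ins_h, rb2_h_ge h1, rb2_setH (fun h : x = fp b => hn x h1 (h ▸ hf)),
        h0 x (hn x h1), union_empty]
  · rcases le_or_gt x β with h1 | h1
    · rw [rb2_l_le h1]
      exact rb2_ins_l_congr hm (rb2_l_le h1).symm
    · rw [rb2_l_gt h1, rb2_ins_l_nmem (hμ.trans_lt h1).ne' (hn x h1.le), rb2_l_gt h1]

theorem rb2_mix_ins_right {w : Raw} (hμ : β < μ) (hb : ∀ x ∈ b.c, β < x) (hm : μ ∉ b.c)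
    (hf : fp b ∈ b.c) (h0 : ∀ x, x ∉ b.c → b.h x = ∅) :
    mix β w (ins p μ b f) = ins (mix β w p) μ b f := by
  have hn : ∀ x, x ≤ β → x ∉ b.c := fun x hx h => (hb x h).not_ge hx
  refine Raw.ext (Set.ext fun x => ?_) (funext fun x => ?_) (funext fun x => ?_)
  · rcases lt_or_ge x β with h1 | h1
    · rw [rb2_c_lt h1, rb2_ins_c, rb2_c_lt h1, or_iff_left (hn x h1.le)]
    · rw [rb2_c_ge h1, rb2_ins_c, rb2_ins_c, rb2_c_ge h1]
  · rcases lt_or_ge x β with h1 | h1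
    · rw [rb2_h_lt h1, rb2_ins_h, rb2_h_lt h1, rb2_setH (fun h : x = fp b => hn x h1.le (h ▸ hf)),
        h0 x (hn x h1.le), union_empty]
    · rw [rb2_h_ge h1, rb2_ins_h, rb2_ins_h, rb2_h_ge h1]
  · rcases le_or_gt x β with h1 | h1
    · rw [rb2_l_le h1, rb2_ins_l_nmem (h1.trans_lt hμ).ne (hn x h1), rb2_l_le h1]
    · rw [rb2_l_gt h1]
      exact rb2_ins_l_congr hm (rb2_l_gt h1).symm

end Aux

namespace Ctx

variable {C : Ctx} {p q r u w b : Raw} {t β δ μ x y : Od}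

theorem le_refl' (h : C.Valid p) : C.Le p p := ⟨h, Relation.ReflTransGen.refl⟩

theorem le_valid (h : C.Le q p) : C.Valid q := by
  obtain ⟨hp, h⟩ := h
  induction h with
  | refl => exact hp
  | tail _ hs _ => exact hs.1

theorem le_trans' (h₁ : C.Le r q) (h₂ : C.Le q p) : C.Le r p := by
  exact ⟨h₂.1, h₂.2.trans h₁.2⟩

theorem le_of_dle (hp : C.Valid p) (hq : C.Valid q) (h : Dle q p) : C.Le q p := by
  exact ⟨hp, Relation.ReflTransGen.single ⟨hq, Or.inl h⟩⟩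

theorem le_of_ins (hp : C.Valid p) (h : C.Ins q p μ) : C.Le q p := by
  exact ⟨hp, Relation.ReflTransGen.single ⟨ins_valid' hp h, Or.inr ⟨μ, h⟩⟩⟩

theorem rb2_ind {P : Raw → Prop} (h : C.Le q p) (h0 : P p)
    (hd : ∀ a e, C.Le a p → C.Valid a → C.Valid e → P a → Dle e a → P e)
    (hi : ∀ a e μ, C.Le a p → C.Valid a → C.Valid e → P a → C.Ins e a μ → P e) : P q := by
  obtain ⟨hp, h⟩ := h
  induction h with
  | refl => exact h0
  | tail h1 hs ih =>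
    have h2 : C.Le _ p := ⟨hp, h1⟩
    rcases hs.2 with h3 | ⟨μ, h3⟩
    · exact hd _ _ h2 (le_valid h2) hs.1 ih h3
    · exact hi _ _ μ h2 (le_valid h2) hs.1 ih h3

theorem le_c (h : C.Le q p) : p.c ⊆ q.c := by
  exact rb2_ind (P := fun a => p.c ⊆ a.c) h subset_rfl (fun _ _ _ _ _ ih hd => ih.trans hd.c)
    fun _ _ _ _ ha _ ih hi => ih.trans (ins_facts ha hi).2.2.2.2.2.1

theorem le_h (h : C.Le q p) (x : Od) : p.h x ⊆ q.h x := by
  refine rb2_ind (P := fun a => p.h x ⊆ a.h x) h subset_rfl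
    (fun _ _ _ _ _ ih hd => ih.trans (hd.h x)) fun a e μ _ _ _ ih hi => ih.trans ?_
  obtain ⟨L, ξ, -, -, -, rfl⟩ := hi
  rw [rb2_ins_h]
  exact subset_union_left

theorem le_l0 (h : C.Le q p) (hx : x ∈ p.c) (hl : p.l x = none) : q.l x = none := by
  refine rb2_ind (P := fun a => a.l x = none) h hl
    (fun _ _ ha _ _ ih hd => hd.l0 x (le_c ha hx) ih) fun a e μ ha hv _ ih hi => ?_
  obtain ⟨⟨L, hL⟩, -, -, h1, -⟩ := ins_facts hv hi
  rw [h1 x (le_c ha hx) ?_, ih]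
  rintro rfl
  rw [ih] at hL
  cases hL

theorem le_l1 (h : C.Le q p) {L : Lo} (hl : p.l x = some L) :
    ∃ L', q.l x = some L' ∧ L'.A ⊆ L.A ∧ (∀ ξ ∈ L'.A, sec L.F ξ ⊆ sec L'.F ξ) ∧ L.s ⊆ L'.s ∧
      ∀ z ∈ L'.s, z ∉ L.s → ∀ y ∈ p.c, y < x → y < z := by
  refine rb2_ind (P := fun a => ∃ L', a.l x = some L' ∧ L'.A ⊆ L.A ∧
    (∀ ξ ∈ L'.A, sec L.F ξ ⊆ sec L'.F ξ) ∧ L.s ⊆ L'.s ∧
      ∀ z ∈ L'.s, z ∉ L.s → ∀ y ∈ p.c, y < x → y < z) h
    ⟨L, hl, subset_rfl, fun _ _ => subset_rfl, subset_rfl, fun z h1 h2 => absurd h1 h2⟩ ?_ ?_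
  · rintro a e - - - ⟨L', h1, h2, h3, h4, h5⟩ hd
    obtain ⟨L'', g1, g2, g3, g4⟩ := hd.l1 x L' h1
    refine ⟨L'', g1, g2.trans h2, fun ξ hξ => (h3 ξ (g2 hξ)).trans (g3 ξ hξ), ?_, ?_⟩
    · rwa [g4]
    · rwa [g4]
  · rintro a e μ ha hv - ⟨L', h1, h2, h3, h4, h5⟩ hi
    by_cases hx : x = μ
    · subst hx
      obtain ⟨L0, ξ, -, -, hb, rfl⟩ := hi
      refine ⟨⟨L'.A, L'.F, insert (fp (C.dec ξ)) L'.s⟩, ?_, h2, h3,
        h4.trans (subset_insert _ _), ?_⟩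
      · rw [rb2_ins_l_self fun h' => lt_irrefl _ (rb2_bdd hb.blk.bdd h'), h1]
        rfl
      · rintro z (rfl | hz) hn y hy hyx
        · exact hb.lt y (le_c ha hy) hyx
        · exact h5 z hz hn y hy hyx
    · refine ⟨L', ?_, h2, h3, h4, h5⟩
      rw [(ins_facts hv hi).2.2.2.1 x (spec_mem hv ⟨L', h1⟩) hx, h1]

theorem le_spec_iff (h : C.Le q p) (hx : x ∈ p.c) : Spec q x ↔ Spec p x := by
  constructor
  · rintro ⟨L, hL⟩
    rcases hp : p.l x with _ | L'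
    · rw [le_l0 h hx hp] at hL
      cases hL
    · exact ⟨L', hp⟩
  · rintro ⟨L, hL⟩
    obtain ⟨L', h1, -⟩ := le_l1 h hL
    exact ⟨L', h1⟩

theorem rb2_squeeze (h₁ : C.Le r q) (h₂ : C.Le q p) (hμ : Spec p μ) (h : sAt μ r = sAt μ p) :
    sAt μ q = sAt μ p := by
  obtain ⟨L, hL⟩ := hμ
  obtain ⟨L', h1, -, -, h2, -⟩ := le_l1 h₂ hL
  obtain ⟨L'', g1, -, -, g2, -⟩ := le_l1 h₁ h1
  simp only [sAt, hL, h1, g1, Option.map_some, Option.some.injEq] at h ⊢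
  exact Subset.antisymm (h ▸ g2) h2

/-- New points are at the end or in the gap below a special point where `s` has changed. -/
theorem le_new (h : C.Le q p) (hx : x ∈ q.c) (hn : x ∉ p.c) :
    (∀ y ∈ p.c, y < x) ∨ ∃ μ, Spec p μ ∧ sAt μ q ≠ sAt μ p ∧ x < μ ∧ ∀ y ∈ p.c, y < μ → y < x := by
  revert x
  refine rb2_ind (P := fun a => ∀ {x}, x ∈ a.c → x ∉ p.c → (∀ y ∈ p.c, y < x) ∨
    ∃ μ, Spec p μ ∧ sAt μ a ≠ sAt μ p ∧ x < μ ∧ ∀ y ∈ p.c, y < μ → y < x) h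
    (fun h1 h2 => absurd h1 h2) ?_ ?_
  · intro a e ha hv hv' ih hd x hx hn
    by_cases h1 : x ∈ a.c
    · rcases ih h1 hn with h2 | ⟨μ, h2, h3, h4⟩
      · exact Or.inl h2
      · exact Or.inr ⟨μ, h2, fun h' => h3 (rb2_squeeze (le_of_dle hv hv' hd) ha h2 h'), h4⟩
    · exact Or.inl fun y hy => hd.new x hx h1 y (le_c ha hy)
  · intro a e ν ha hv _ ih hi x hx hn
    have hle := le_of_ins hv hi
    by_cases h1 : x ∈ a.c
    · rcases ih h1 hn with h2 | ⟨μ, h2, h3, h4⟩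
      · exact Or.inl h2
      · exact Or.inr ⟨μ, h2, fun h' => h3 (rb2_squeeze hle ha h2 h'), h4⟩
    · obtain ⟨g1, -, g2, -, -, -, g3⟩ := ins_facts hv hi
      obtain ⟨g4, g5⟩ := g3 x hx h1
      by_cases h2 : ν ∈ p.c
      · have h3 := (le_spec_iff ha h2).1 g1
        exact Or.inr ⟨ν, h3, fun h' => g2 (h'.trans (rb2_squeeze hle ha h3 h').symm), g4,
          fun y hy hyν => g5 y (le_c ha hy) hyν⟩
      · rcases ih (spec_mem hv g1) h2 with h3 | ⟨μ, h3, h4, h5, h6⟩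
        · exact Or.inl fun y hy => g5 y (le_c ha hy) (h3 y hy)
        · exact Or.inr ⟨μ, h3, fun h' => h4 (rb2_squeeze hle ha h3 h'), g4.trans h5,
            fun y hy hyμ => g5 y (le_c ha hy) (h6 y hy hyμ)⟩

theorem le_fin (h : C.Le q p) : {μ | μ ∈ p.c ∧ sAt μ q ≠ sAt μ p}.Finite := by
  refine rb2_ind (P := fun a => {μ | μ ∈ p.c ∧ sAt μ a ≠ sAt μ p}.Finite) h (by simp) ?_ ?_
  · intro a e ha _ _ ih hd
    refine ih.subset fun μ hμ => ⟨hμ.1, ?_⟩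
    rw [← hd.sAt_eq (le_c ha hμ.1)]
    exact hμ.2
  · intro a e ν ha hv _ ih hi
    refine (ih.insert ν).subset fun μ hμ => ?_
    by_cases h1 : μ = ν
    · exact Or.inl h1
    · refine Or.inr ⟨hμ.1, fun h2 => hμ.2 ?_⟩
      rw [← h2, sAt, sAt, (ins_facts hv hi).2.2.2.1 μ (le_c ha hμ.1) h1]

theorem le_dirA (h : C.Le q p) (hβ : β ∈ p.c) (hs : ∀ μ, Spec p μ → β < μ → sAt μ q = sAt μ p) :
    DirA β q p := by
  refine ⟨fun x hx => ?_, fun x hx hn => ?_, fun x => ?_, fun x hx hl => ?_, fun x L hl => ?_⟩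
  · rcases lt_or_ge x β with h1 | h1
    · exact (rb2_c_lt h1).2 hx
    · exact (rb2_c_ge h1).2 (le_c h hx)
  · rcases lt_or_ge x β with h1 | h1
    · exact absurd ((rb2_c_lt h1).1 hx) hn
    · rcases le_new h ((rb2_c_ge h1).1 hx) hn with h2 | ⟨μ, h2, h3, h4, -⟩
      · exact h2
      · exact absurd (hs μ h2 (h1.trans_lt h4)) h3
  · rcases lt_or_ge x β with h1 | h1
    · rw [rb2_h_lt h1]
    · rw [rb2_h_ge h1]
      exact le_h h x
  · rcases le_or_gt x β with h1 | h1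
    · rwa [rb2_l_le h1]
    · rw [rb2_l_gt h1]
      exact le_l0 h hx hl
  · rcases le_or_gt x β with h1 | h1
    · exact ⟨L, (rb2_l_le h1).trans hl, subset_rfl, fun _ _ => subset_rfl, rfl⟩
    · obtain ⟨L', g1, g2, g3, -⟩ := le_l1 h hl
      refine ⟨L', (rb2_l_gt h1).trans g1, g2, g3, ?_⟩
      have h2 := hs x ⟨L, hl⟩ h1
      simpa only [sAt, hl, g1, Option.map_some, Option.some.injEq] using h2

theorem le_good (h : C.Le q p) (hδ : Good p δ) : Good q δ := by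
  exact ⟨le_c h hδ.1, le_l0 h hδ.1 hδ.2.1, hδ.2.2⟩

theorem le_good0 (h : C.Le q p) (hδ : Good0 p δ) : Good0 q δ := by
  rcases hδ with hδ | hδ
  · exact Or.inl (le_good h hδ)
  · exact Or.inr ⟨hδ.1, le_c h hδ.2⟩

theorem good0_mem (hp : C.Valid p) (hδ : Good0 p δ) : δ ∈ p.c ∧ p.l δ = none := by
  rcases hδ with hδ | ⟨rfl, hδ⟩
  · exact ⟨hδ.1, hδ.2.1⟩
  · refine ⟨hδ, ?_⟩
    rcases hl : p.l 0 with _ | L
    · rfl
    · obtain ⟨y, -, hy⟩ := (hp.sp 0 L hl).pre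
      exact absurd hy (not_lt.2 zero_le)

theorem le_adj (h : C.Le q p) (hxy : Adj p x y) : Adj q x y := by
  obtain ⟨h1, h2, h3, h4, h5⟩ := hxy
  refine ⟨le_c h h1, le_c h h2, h3, fun z hz hxz => ?_, le_l0 h h2 h5⟩
  by_cases hn : z ∈ p.c
  · exact h4 z hn hxz
  · rcases le_new h hz hn with g | ⟨μ, g1, -, g2, g3⟩
    · exact (g y h2).le
    · refine (g3 y h2 (lt_of_le_of_ne (h4 μ (spec_mem h.1 g1) (hxz.trans g2)) ?_)).le
      rintro rfl
      obtain ⟨L, hL⟩ := g1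
      rw [h5] at hL
      cases hL

theorem le_noSp {a e : Od} (h : C.Le q p) (ha : a ∈ p.c) (he : e ∈ p.c) (hn : NoSp p a e) :
    NoSp q a e ∧ ∀ x, a ≤ x → x ≤ e → (x ∈ q.c ↔ x ∈ p.c) := by
  have key : ∀ x, a ≤ x → x ≤ e → (x ∈ q.c ↔ x ∈ p.c) := by
    intro x h1 h2
    refine ⟨fun hx => ?_, fun hx => le_c h hx⟩
    by_contra hx'
    rcases le_new h hx hx' with g | ⟨μ, ⟨L, g1⟩, -, g2, g3⟩
    · exact (g e he).not_ge h2
    · rcases le_or_gt μ e with h3 | h3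
      · rw [hn μ (h1.trans_lt g2) h3] at g1
        cases g1
      · exact (g3 e he h3).not_ge h2
  refine ⟨fun x h1 h2 => ?_, key⟩
  by_cases hx : x ∈ q.c
  · exact le_l0 h ((key x h1.le h2).1 hx) (hn x h1 h2)
  · exact (le_valid h).l0 x hx

/-! ### Mixing -/

theorem rb2_below (hq : C.Below β q) (hu : C.Below t u) (ht : β ≤ t) : C.Below t (mix β q u) := by
  intro x hx i v hv
  rcases lt_or_ge x β with h1 | h1
  · rw [rb2_h_lt h1] at hv
    exact (hq x h1 i v hv).trans_le (Cardinal.ord_mono (C.bf.mono ht))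
  · rw [rb2_h_ge h1] at hv
    exact hu x hx i v hv

theorem mix_valid (hq : C.Valid q) (hu : C.Valid u) (h₁ : β ∈ q.c) (h₂ : β ∈ u.c) :
    C.Valid (mix β q u) := by
  have hβ : β ∈ (mix β q u).c := (rb2_c_ge le_rfl).2 h₂
  refine ⟨⟨β, hβ⟩, ?_, fun x hx => ?_, fun x hx => ?_, fun x hx => ?_, fun x => ?_,
    fun i v hv => ?_, fun y hy => ?_, fun x hx => ?_, fun x hx hi => ?_, fun μ L hl => ?_⟩
  · refine (hq.bd.union hu.bd).mono fun x hx => ?_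
    rcases lt_or_ge x β with h1 | h1
    · exact Or.inl ((rb2_c_lt h1).1 hx)
    · exact Or.inr ((rb2_c_ge h1).1 hx)
  · rcases lt_trichotomy x β with h1 | h1 | h1
    · exact (rb2_c_lt h1).2 (hq.cl x (rb2_lim_le h1.le hx))
    · rwa [h1]
    · exact (rb2_c_ge h1.le).2 (hu.cl x (rb2_lim_gt h1 hx))
  · rcases lt_or_ge x β with h1 | h1
    · rw [rb2_h_lt h1]
      exact hq.h0 x fun h => hx ((rb2_c_lt h1).2 h)
    · rw [rb2_h_ge h1]
      exact hu.h0 x fun h => hx ((rb2_c_ge h1).2 h)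
  · rcases lt_trichotomy x β with h1 | h1 | h1
    · rw [rb2_l_le h1.le]
      exact hq.l0 x fun h => hx ((rb2_c_lt h1).2 h)
    · exact absurd (h1 ▸ hβ) hx
    · rw [rb2_l_gt h1]
      exact hu.l0 x fun h => hx ((rb2_c_ge h1.le).2 h)
  · rcases lt_or_ge x β with h1 | h1
    · rw [rb2_h_lt h1]
      exact hq.col x
    · rw [rb2_h_ge h1]
      exact hu.col x
  · rcases lt_or_ge C.s β with h1 | h1
    · rw [rb2_h_lt h1] at hv
      exact hq.vs i v hv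
    · rw [rb2_h_ge h1] at hv
      exact hu.vs i v hv
  · rcases lt_or_ge y β with h1 | h1
    · intro x hx i v hv
      rw [rb2_h_lt (hx.trans h1)] at hv
      exact hq.bel y ((rb2_c_lt h1).1 hy) x hx i v hv
    · exact rb2_below (hq.bel β h₁) (hu.bel y ((rb2_c_ge h1).1 hy)) h1
  · rcases le_or_gt x β with h1 | h1
    · rw [rb2_l_le h1]
      exact hq.lim x (rb2_lim_le h1 hx)
    · rw [rb2_l_gt h1]
      exact hu.lim x (rb2_lim_gt h1 hx)
  · rcases le_or_gt x β with h1 | h1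
    · obtain ⟨⟨y, g1, g2⟩, g3⟩ := hq.eas x (rb2_lim_le h1 hx) hi
      refine ⟨⟨y, g1, fun z hy hz => ?_⟩, g3⟩
      rw [rb2_h_lt (hz.trans_le h1), rb2_l_le (hz.le.trans h1)]
      exact g2 z hy hz
    · obtain ⟨⟨y, g1, g2⟩, g3⟩ := hu.eas x (rb2_lim_gt h1 hx) hi
      refine ⟨⟨Max.max y β, max_lt g1 h1, fun z hy hz => ?_⟩, g3⟩
      rw [max_lt_iff] at hy
      rw [rb2_h_ge hy.2.le, rb2_l_gt hy.2]
      exact g2 z hy.1 hz
  · rcases le_or_gt μ β with h1 | h1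
    · rw [rb2_l_le h1] at hl
      have g := hq.sp μ L hl
      refine ⟨g.sp, g.gt, ?_, g.A, g.Alt, g.Fb, g.F, g.fin, fun z hz => ?_⟩
      · obtain ⟨y, g1, g2⟩ := g.pre
        exact ⟨y, (rb2_c_lt (g2.trans_le h1)).2 g1, g2⟩
      · obtain ⟨y, g1, g2, g3⟩ := g.s z hz
        exact ⟨y, (rb2_c_lt (g3.trans_le h1)).2 g1, g2, g3⟩
    · rw [rb2_l_gt h1] at hl
      have g := hu.sp μ L hl
      refine ⟨g.sp, g.gt, ⟨β, hβ, h1⟩, g.A, g.Alt, g.Fb, g.F, g.fin, fun z hz => ?_⟩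
      obtain ⟨y, g1, g2, g3⟩ := g.s z hz
      rcases lt_or_ge y β with h2 | h2
      · exact ⟨β, hβ, g2.trans h2.le, h1⟩
      · exact ⟨y, (rb2_c_ge h2).2 g1, g2, g3⟩

theorem mix_scope (hq : C.Valid q) (hu : C.Scope t u) (h₁ : β ∈ q.c) (h₂ : β ∈ u.c) (ht : β ≤ t) :
    C.Scope t (mix β q u) := by
  refine ⟨mix_valid hq hu.v h₁ h₂, rb2_below (hq.bel β h₁) hu.bel ht, ?_⟩
  rcases hu.cut with h | ⟨g1, g2, g3⟩
  · exact Or.inl ((rb2_c_ge ht).2 h)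
  · refine Or.inr ⟨g1, g2, fun x hx => ?_⟩
    rcases lt_or_ge x β with h1 | h1
    · exact h1.trans_le ht
    · exact g3 ((rb2_c_ge h1).1 hx)

theorem mix_le_left (h : C.Le r q) (hβ : β ∈ q.c) (hw : C.Valid w) (hβ' : β ∈ w.c) :
    C.LeT β (mix β r w) (mix β q w) := by
  refine ⟨?_, (agree_mix β r w).trans (agree_mix β q w).symm, fun x hx i v hv => ?_⟩
  · refine rb2_ind (P := fun a => C.Le (mix β a w) (mix β q w)) h
      (le_refl' (mix_valid h.1 hw hβ hβ')) ?_ ?_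
    · intro a e ha _ he ih hd
      exact le_trans' (le_of_dle (le_valid ih) (mix_valid he hw (hd.c (le_c ha hβ)) hβ')
        (rb2_dle_left hd (le_c ha hβ))) ih
    · intro a e μ ha hv he ih hi
      rcases le_or_gt μ β with h1 | h1
      · refine le_trans' (le_of_ins (μ := μ) (le_valid ih) ?_) ih
        obtain ⟨L, ξ, g1, g2, g3, rfl⟩ := hi
        have g4 := (fp_mem g3.blk.v).1
        refine ⟨L, ξ, (rb2_l_le h1).trans g1, g2, ⟨g3.blk, fun x hx hxμ => ?_,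
          fun x hx i v hv => ?_⟩,
          rb2_mix_ins_left h1 (fun x hx => rb2_bdd g3.blk.bdd hx) g4 g3.blk.v.h0⟩
        · exact g3.lt x ((rb2_c_lt (hxμ.trans_le h1)).1 hx) hxμ
        · rw [rb2_h_lt ((hx.trans (rb2_bdd g3.blk.bdd g4)).trans_le h1)] at hv
          exact g3.bel x hx i v hv
      · obtain ⟨-, -, -, g1, g2, g3, g4⟩ := ins_facts hv hi
        have hc : ∀ x, x ≤ β → x ∈ e.c → x ∈ a.c := by
          intro x hx hx'
          by_contra hn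
          exact ((g4 x hx' hn).2 β (le_c ha hβ) h1).not_ge hx
        have hl : ∀ x, x ≤ β → e.l x = a.l x := by
          intro x hx
          by_cases hx' : x ∈ a.c
          · exact g1 x hx' (hx.trans_lt h1).ne
          · rw [hv.l0 x hx', he.l0 x fun h' => hx' (hc x hx h')]
        have hag : AgLo β e a := by
          refine ⟨fun x hx => ⟨⟨hc x hx.le, fun h' => g3 h'⟩, ?_, hl x hx.le⟩, hl β le_rfl⟩
          by_cases hx' : x ∈ a.c
          · exact g2 x hx'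
          · rw [hv.h0 x hx', he.h0 x fun h' => hx' (hc x hx.le h')]
        rw [mix_congr hag (Agree.refl β w)]
        exact ih
  · rw [rb2_h_lt hx] at hv
    exact (le_valid h).bel β (le_c h hβ) x hx i v hv

theorem mix_le_right (h : C.Le r q) (hβ : β ∈ q.c) (hw : C.Valid w) (hβ' : β ∈ w.c) :
    C.Le (mix β w r) (mix β w q) := by
  refine rb2_ind (P := fun a => C.Le (mix β w a) (mix β w q)) h
    (le_refl' (mix_valid hw h.1 hβ' hβ)) ?_ ?_
  · intro a e ha _ he ih hd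
    exact le_trans' (le_of_dle (le_valid ih) (mix_valid hw he hβ' (hd.c (le_c ha hβ)))
      (rb2_dle_right hd (le_c ha hβ))) ih
  · intro a e μ ha hv he ih hi
    rcases le_or_gt μ β with h1 | h1
    · have hag : AgLo β w w := ⟨fun _ _ => ⟨Iff.rfl, rfl, rfl⟩, rfl⟩
      rw [mix_congr hag ((ins_facts hv hi).2.1.mono h1)]
      exact ih
    · refine le_trans' (le_of_ins (μ := μ) (le_valid ih) ?_) ih
      obtain ⟨L, ξ, g1, g2, g3, rfl⟩ := hi
      have g4 := fp_mem g3.blk.v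
      have g5 := g3.lt β (le_c ha hβ) h1
      refine ⟨L, ξ, (rb2_l_gt h1).trans g1, g2, ⟨g3.blk, fun x hx hxμ => ?_,
        rb2_below (hw.bel β hβ') g3.bel g5.le⟩,
        rb2_mix_ins_right h1 (fun x hx => g5.trans_le (g4.2.1 x hx))
          (fun h' => lt_irrefl _ (rb2_bdd g3.blk.bdd h')) g4.1 g3.blk.v.h0⟩
      rcases lt_or_ge x β with h2 | h2
      · exact h2.trans g5
      · exact g3.lt x ((rb2_c_ge h2).1 hx) hxμ

end Ctx

end Pool.Agent.MP_85ce7b_lc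

end

section

namespace Pool.Agent.MP_85ce7b_lc

open Set Cardinal Ordinal Dat

section RB3aux

variable {p q r u w : Raw} {t β x : Od}

theorem RB3_c_lt (hx : x < β) : x ∈ (mix β q u).c ↔ x ∈ q.c := by simp [mix, hx]

theorem RB3_c_ge (hx : β ≤ x) : x ∈ (mix β q u).c ↔ x ∈ u.c := by simp [mix, not_lt.2 hx]

theorem RB3_h_lt (hx : x < β) : (mix β q u).h x = q.h x := by simp [mix, hx]

theorem RB3_h_ge (hx : β ≤ x) : (mix β q u).h x = u.h x := by simp [mix, not_lt.2 hx]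

theorem RB3_l_le (hx : x ≤ β) : (mix β q u).l x = q.l x := by simp [mix, hx]

theorem RB3_l_gt (hx : β < x) : (mix β q u).l x = u.l x := by simp [mix, not_le.2 hx]

theorem RB3_dle_left (h : Dle r q) (hβ : β ∈ q.c) : Dle (mix β r w) (mix β q w) := by
  refine ⟨fun x hx => ?_, fun x hx hn => ?_, fun x => ?_, fun x hx hl => ?_, fun x L hl => ?_⟩
  · rcases lt_or_ge x β with hb | hb
    · rw [RB3_c_lt hb] at hx ⊢; exact h.c hx
    · rw [RB3_c_ge hb] at hx ⊢; exact hx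
  · rcases lt_or_ge x β with hb | hb
    · rw [RB3_c_lt hb] at hx hn
      exact absurd (h.new x hx hn β hβ) (not_lt.2 hb.le)
    · rw [RB3_c_ge hb] at hx hn
      exact absurd hx hn
  · rcases lt_or_ge x β with hb | hb
    · rw [RB3_h_lt hb, RB3_h_lt hb]; exact h.h x
    · rw [RB3_h_ge hb, RB3_h_ge hb]
  · rcases le_or_gt x β with hb | hb
    · rw [RB3_l_le hb] at hl ⊢
      refine h.l0 x ?_ hl
      rcases hb.lt_or_eq with hb | rfl
      · exact (RB3_c_lt hb).1 hx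
      · exact hβ
    · rw [RB3_l_gt hb] at hl ⊢; exact hl
  · rcases le_or_gt x β with hb | hb
    · rw [RB3_l_le hb] at hl ⊢; exact h.l1 x L hl
    · rw [RB3_l_gt hb] at hl ⊢
      exact ⟨L, hl, subset_rfl, fun _ _ => subset_rfl, rfl⟩

theorem RB3_dle_right (h : Dle r q) : Dle (mix β w r) (mix β w q) := by
  refine ⟨fun x hx => ?_, fun x hx hn y hy => ?_, fun x => ?_, fun x hx hl => ?_,
    fun x L hl => ?_⟩
  · rcases lt_or_ge x β with hb | hb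
    · rw [RB3_c_lt hb] at hx ⊢; exact hx
    · rw [RB3_c_ge hb] at hx ⊢; exact h.c hx
  · rcases lt_or_ge x β with hb | hb
    · rw [RB3_c_lt hb] at hx hn
      exact absurd hx hn
    · rw [RB3_c_ge hb] at hx hn
      rcases lt_or_ge y β with hb' | hb'
      · exact hb'.trans_le hb
      · exact h.new x hx hn y ((RB3_c_ge hb').1 hy)
  · rcases lt_or_ge x β with hb | hb
    · rw [RB3_h_lt hb, RB3_h_lt hb]
    · rw [RB3_h_ge hb, RB3_h_ge hb]; exact h.h x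
  · rcases le_or_gt x β with hb | hb
    · rw [RB3_l_le hb] at hl ⊢; exact hl
    · rw [RB3_l_gt hb] at hl ⊢
      exact h.l0 x ((RB3_c_ge hb.le).1 hx) hl
  · rcases le_or_gt x β with hb | hb
    · rw [RB3_l_le hb] at hl ⊢
      exact ⟨L, hl, subset_rfl, fun _ _ => subset_rfl, rfl⟩
    · rw [RB3_l_gt hb] at hl ⊢; exact h.l1 x L hl

theorem RB3_agree_right (h : Agree t r q) (ht : β ≤ t) : Agree t (mix β w r) (mix β w q) :=
  (((agree_mix β w r).mono ht).trans h).trans ((agree_mix β w q).mono ht).symm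

theorem RB3_mix_ins {μ : Od} {b : Raw} {f : Set (Od × Od)} (hμ : μ ≤ t) (hb : b.c ⊆ Iio t)
    (hf : fp b < t) (h0 : ∀ x, x ∉ b.c → b.h x = ∅) :
    mix t (ins r μ b f) p = ins (mix t r p) μ b f := by
  classical
  refine Raw.ext ?_ ?_ ?_
  · ext x
    change x ∈ (mix t (ins r μ b f) p).c ↔ x ∈ (mix t r p).c ∪ b.c
    rcases lt_or_ge x t with hx | hx
    · rw [RB3_c_lt hx, mem_union, RB3_c_lt hx]; rfl
    · rw [RB3_c_ge hx, mem_union, RB3_c_ge hx]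
      exact ⟨Or.inl, fun h => h.elim id fun h => absurd (hb h) (not_lt.2 hx)⟩
  · funext x
    change (mix t (ins r μ b f) p).h x = (mix t r p).h x ∪ (setH (fp b) f b).h x
    rcases lt_or_ge x t with hx | hx
    · rw [RB3_h_lt hx, RB3_h_lt hx]; rfl
    · rw [RB3_h_ge hx, RB3_h_ge hx]
      have h1 : x ≠ fp b := (hf.trans_le hx).ne'
      have h2 : (setH (fp b) f b).h x = ∅ := by
        simp only [setH, Function.update_of_ne h1]
        exact h0 x fun h => absurd (hb h) (not_lt.2 hx)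
      rw [h2, union_empty]
  · funext x
    rcases le_or_gt x t with hx | hx
    · rw [RB3_l_le hx]
      by_cases e : x = μ
      · subst e
        simp only [ins, setL, cat, Function.update_self, RB3_l_le hx]
      · simp only [ins, setL, cat, Function.update_of_ne e, RB3_l_le hx]
    · rw [RB3_l_gt hx]
      have e : x ≠ μ := (hμ.trans_lt hx).ne'
      have h1 : x ∉ (setH (fp b) f b).c := fun h => absurd (hb h) (not_lt.2 hx.le)
      simp only [ins, setL, cat, Function.update_of_ne e, RB3_l_gt hx, if_neg h1]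

end RB3aux

namespace Ctx

variable {C : Ctx} {p q r u w b : Raw} {t β δ μ x y : Od}

theorem RB3_ord_mono (C : Ctx) (h : x ≤ y) : (C.B x).ord ≤ (C.B y).ord :=
  Cardinal.ord_le_ord.2 (C.bf.mono h)

theorem RB3_below_right (h : C.Below t r) (ht : β ≤ t) (hw : C.Valid w) (hβ' : β ∈ w.c) :
    C.Below t (mix β w r) := by
  intro x hx i v hv
  rcases lt_or_ge x β with hb | hb
  · rw [RB3_h_lt hb] at hv
    exact (hw.bel β hβ' x hb i v hv).trans_le (C.RB3_ord_mono ht)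
  · rw [RB3_h_ge hb] at hv
    exact h x hx i v hv

theorem RB3_below_cut {t' : Od} (ha : Agree t' q p) (hq : C.Below t' q) (hp : C.Below t p)
    (ht : t' ≤ t) : C.Below t q := by
  intro x hx i v hv
  rcases lt_or_ge x t' with hb | hb
  · exact (hq x hb i v hv).trans_le (C.RB3_ord_mono ht)
  · rw [(ha.1 x hb).2] at hv
    exact hp x hx i v hv

theorem RB3_sAt_dle (hp : C.Valid p) (hq : C.Valid q) (h : Dle q p) (ha : Agree t q p) :
    sAt t q = sAt t p := by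
  by_cases ht : t ∈ p.c
  · exact h.sAt_eq ht
  · have ht' : t ∉ q.c := fun h' => ht ((ha.1 t le_rfl).1.1 h')
    simp only [sAt, hp.l0 t ht, hq.l0 t ht']

theorem RB3_squeeze (h₁ : C.Le r p) (h₂ : C.Le q r) (ht : t ∈ p.c) (h : sAt t q = sAt t p) :
    sAt t r = sAt t p := by
  rcases e : p.l t with _ | L
  · simp only [sAt, e, le_l0 h₁ ht e]
  · obtain ⟨L', e', -, -, s', -⟩ := le_l1 h₁ e
    obtain ⟨L'', e'', -, -, s'', -⟩ := le_l1 h₂ e'
    simp only [sAt, e, e', e'', Option.map_some, Option.some.injEq] at h ⊢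
    exact Subset.antisymm (h ▸ s'') s'

theorem RB3_ins_mix (hr : C.Valid r) (h : C.Ins q r μ) (hμ : μ ≤ t) :
    C.Ins (mix t q p) (mix t r p) μ := by
  have hin : Inac μ := (spec_inac hr (ins_facts hr h).1).1
  obtain ⟨L, ξ, hl, hξ, hb, rfl⟩ := h
  obtain ⟨-, h1, h2⟩ := blk_scope hb.blk hin
  have h3 : fp (C.dec ξ) < t := ((lt_add_one _).trans h1).trans_le hμ
  refine ⟨L, ξ, by rw [RB3_l_le hμ, hl], hξ, ⟨hb.blk, fun x hx hx' => ?_, fun x hx i v hv => ?_⟩,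
    RB3_mix_ins hμ (h2.trans (Iio_subset_Iio hμ)) h3 hb.blk.v.h0⟩
  · exact hb.lt x ((RB3_c_lt (hx'.trans_le hμ)).1 hx) hx'
  · rw [RB3_h_lt (hx.trans h3)] at hv
    exact hb.bel x hx i v hv

theorem RB3_ins_agLo (hr : C.Valid r) (h : C.Ins q r μ) (ht : t ∈ r.c) (hμ : t < μ) :
    AgLo t q r := by
  have hq := ins_valid' hr h
  obtain ⟨-, -, -, f1, f2, f3, f4⟩ := ins_facts hr h
  refine ⟨fun x hx => ?_, f1 t ht hμ.ne⟩
  by_cases hx' : x ∈ r.c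
  · exact ⟨⟨fun _ => hx', fun _ => f3 hx'⟩, f2 x hx', f1 x hx' (hx.trans hμ).ne⟩
  · have hx'' : x ∉ q.c := fun h' => absurd ((f4 x h' hx').2 t ht hμ) (not_lt.2 hx.le)
    exact ⟨⟨fun h' => absurd h' hx'', fun h' => absurd h' hx'⟩,
      by rw [hq.h0 x hx'', hr.h0 x hx'], by rw [hq.l0 x hx'', hr.l0 x hx']⟩

theorem RB3_path_mem (S : Prop) (hp : C.Valid p) (ht : t ∈ p.c)
    (h : Relation.ReflTransGen C.Step p q) (hs : S → sAt t q = sAt t p) :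
    Relation.ReflTransGen (C.StepT t fun μ => μ ≤ t ∧ (S → μ ≠ t)) p (mix t q p) := by
  induction h with
  | refl => rw [mix_self]
  | @tail r r' h1 h2 ih =>
    have hr : C.Le r p := ⟨hp, h1⟩
    have hr' : C.Le r' r := ⟨le_valid hr, Relation.ReflTransGen.single h2⟩
    have htr : t ∈ r.c := le_c hr ht
    have hs' : S → sAt t r = sAt t p := fun s => RB3_squeeze hr hr' ht (hs s)
    have hv : C.Valid (mix t r' p) := mix_valid h2.1 hp (le_c hr' htr) ht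
    have ha : Agree t (mix t r' p) (mix t r p) := (agree_mix t r' p).trans (agree_mix t r p).symm
    have hb : C.Below t (mix t r' p) := hv.bel t ((RB3_c_ge le_rfl).2 ht)
    rcases h2.2 with hd | ⟨μ, hi⟩
    · exact (ih hs').tail ⟨hv, ha, hb, Or.inl (RB3_dle_left hd htr)⟩
    · rcases le_or_gt μ t with hμ | hμ
      · refine (ih hs').tail ⟨hv, ha, hb, Or.inr ⟨μ, ⟨hμ, fun s e => ?_⟩,
          RB3_ins_mix hr'.1 hi hμ⟩⟩
        subst e
        exact (ins_facts hr'.1 hi).2.2.1 ((hs s).trans (hs' s).symm)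
      · rw [mix_congr (RB3_ins_agLo hr'.1 hi htr hμ) (Agree.refl t p)]
        exact ih hs'

theorem RB3_path_top (hp : C.Valid p) (hq : q.c ⊆ Iio t) (hb : C.Below t q)
    (h : Relation.ReflTransGen C.Step p r) (hr : C.Le q r) :
    Relation.ReflTransGen (C.StepT t (· < t)) p r := by
  induction h with
  | refl => exact Relation.ReflTransGen.refl
  | @tail r r' h1 h2 ih =>
    have hr0 : C.Valid r := le_valid ⟨hp, h1⟩
    have hr' : C.Le r' r := ⟨hr0, Relation.ReflTransGen.single h2⟩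
    have n' : ∀ x, t ≤ x → x ∉ r'.c := fun x hx h' => absurd (hq (le_c hr h')) (not_lt.2 hx)
    have n : ∀ x, t ≤ x → x ∉ r.c := fun x hx h' => n' x hx (le_c hr' h')
    refine (ih (le_trans' hr hr')).tail ⟨h2.1, ⟨fun x hx => ⟨⟨fun h' => absurd h' (n' x hx),
      fun h' => absurd h' (n x hx)⟩, by rw [h2.1.h0 x (n' x hx), hr0.h0 x (n x hx)]⟩,
      fun x hx => by rw [h2.1.l0 x (n' x hx.le), hr0.l0 x (n x hx.le)]⟩,
      fun x hx i v hv => hb x hx i v (le_h hr x hv), ?_⟩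
    rcases h2.2 with hd | ⟨μ, hi⟩
    · exact Or.inl hd
    · refine Or.inr ⟨μ, ?_, hi⟩
      by_contra hμ
      exact n μ (not_lt.1 hμ) (spec_mem hr0 (ins_facts hr0 hi).1)

theorem RB3_stepT_mono {P Q : Od → Prop} (hPQ : ∀ μ, P μ → Q μ)
    (h : Relation.ReflTransGen (C.StepT t P) p q) : Relation.ReflTransGen (C.StepT t Q) p q := by
  induction h with
  | refl => exact Relation.ReflTransGen.refl
  | tail _ h ih =>
    exact ih.tail ⟨h.1, h.2.1, h.2.2.1, h.2.2.2.imp id fun ⟨μ, h1, h2⟩ => ⟨μ, hPQ μ h1, h2⟩⟩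

theorem RB3_stepT_leT {P : Od → Prop} (hp : C.Valid p) (h : C.StepT t P p q) : C.LeT t q p :=
  ⟨⟨hp, Relation.ReflTransGen.single ⟨h.1, h.2.2.2.imp id fun ⟨μ, _, h2⟩ => ⟨μ, h2⟩⟩⟩,
    h.2.1, h.2.2.1⟩

theorem mix_leT_right (h : C.LeT t r q) (hβ : β ∈ q.c) (ht : β ≤ t) (hw : C.Valid w)
    (hβ' : β ∈ w.c) : C.LeT t (mix β w r) (mix β w q) := by
  exact ⟨mix_le_right h.le hβ hw hβ', RB3_agree_right h.ag ht, RB3_below_right h.bel ht hw hβ'⟩

theorem mix_leS_right (h : C.LeS t r q) (hβ : β ∈ q.c) (ht : β ≤ t) (hw : C.Valid w)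
    (hβ' : β ∈ w.c) : C.LeS t (mix β w r) (mix β w q) := by
  refine ⟨mix_leT_right h.1 hβ ht hw hβ', ?_⟩
  rcases ht.lt_or_eq with ht | rfl
  · have := h.2
    simp only [sAt, RB3_l_gt ht] at this ⊢
    exact this
  · simp only [sAt, RB3_l_le le_rfl]

/-! ### Extensions below a cut -/

theorem leT_refl (h : C.Scope t p) : C.LeT t p p := by
  exact ⟨le_refl' h.v, Agree.refl t p, h.bel⟩

theorem leT_trans (h₁ : C.LeT t r q) (h₂ : C.LeT t q p) : C.LeT t r p := by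
  exact ⟨le_trans' h₁.le h₂.le, h₁.ag.trans h₂.ag, h₁.bel⟩

theorem leS_refl (h : C.Scope t p) : C.LeS t p p := by
  exact ⟨leT_refl h, rfl⟩

theorem leS_trans (h₁ : C.LeS t r q) (h₂ : C.LeS t q p) : C.LeS t r p := by
  exact ⟨leT_trans h₁.1 h₂.1, h₁.2.trans h₂.2⟩

theorem leT_scope (hp : C.Scope t p) (h : C.LeT t q p) : C.Scope t q := by
  refine ⟨le_valid h.le, h.bel, hp.cut.imp (fun ht => le_c h.le ht) fun ⟨h1, h2, h3⟩ =>
    ⟨h1, h2, fun x hx => ?_⟩⟩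
  by_contra hn
  exact hn (h3 ((h.ag.1 x (not_lt.1 hn)).1.1 hx))

/-- The scope is inherited upwards along extensions below a point. -/
theorem scope_of_leT (h : C.LeT δ q p) (ht : δ ≤ t) (hq : C.Scope t q) :
    C.Scope t p := by
  exact ⟨h.le.1, fun x hx i v hv => hq.bel x hx i v (le_h h.le x hv),
    hq.cut.imp (fun h' => (h.ag.1 t ht).1.1 h') fun ⟨h1, h2, h3⟩ =>
      ⟨h1, h2, (le_c h.le).trans h3⟩⟩

theorem leT_mono {t' : Od} (h : C.LeT t' q p) (hp' : C.Scope t' p) (hp : C.Scope t p)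
    (ht : t' ≤ t) : C.LeT t q p := by
  have _ := hp'
  exact ⟨h.le, h.ag.mono ht, RB3_below_cut h.ag h.bel hp.bel ht⟩

theorem leS_of_lt {t' : Od} (h : C.LeT t' q p) (hp' : C.Scope t' p) (hp : C.Scope t p)
    (ht : t' < t) : C.LeS t q p := by
  exact ⟨leT_mono h hp' hp ht.le, by simp only [sAt, h.ag.2 t ht]⟩

theorem leS_of_not_spec (h : C.LeT t q p) (hn : ¬ Spec p t) : C.LeS t q p := by
  refine ⟨h, ?_⟩
  have h1 : p.l t = none := by
    rcases e : p.l t with _ | L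
    · rfl
    · exact absurd ⟨L, e⟩ hn
  have h2 : q.l t = none := by
    by_cases ht : t ∈ p.c
    · exact le_l0 h.le ht h1
    · exact (le_valid h.le).l0 t fun h' => ht ((h.ag.1 t le_rfl).1.1 h')
  simp only [sAt, h1, h2]

theorem leT_of_ins (hp : C.Scope t p) (h : C.Ins q p μ) (ht : μ ≤ t) : C.LeT t q p := by
  obtain ⟨f0, f1, -, -, -, f3, -⟩ := ins_facts hp.v h
  have hμ := spec_mem hp.v f0
  exact leT_mono ⟨le_of_ins hp.v h, f1, (ins_valid' hp.v h).bel μ (f3 hμ)⟩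
    (scope_of_mem hp.v hμ) hp ht

theorem leT_iff (hp : C.Scope t p) :
    C.LeT t q p ↔ Relation.ReflTransGen (C.StepT t (· ≤ t)) p q := by
  constructor
  · intro h
    rcases hp.cut with ht | ht
    · have := RB3_path_mem False hp.v ht h.le.2 False.elim
      rw [mix_eq_left h.ag] at this
      exact RB3_stepT_mono (fun _ h => h.1) this
    · have hq : q.c ⊆ Iio t := fun x hx => by
        by_contra hn
        exact hn (ht.2.2 ((h.ag.1 x (not_lt.1 hn)).1.1 hx))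
      exact RB3_stepT_mono (fun _ h => h.le)
        (RB3_path_top hp.v hq h.bel h.le.2 (le_refl' (le_valid h.le)))
  · intro h
    induction h with
    | refl => exact leT_refl hp
    | tail _ h2 ih => exact leT_trans (RB3_stepT_leT (le_valid ih.le) h2) ih

theorem leS_iff (hp : C.Scope t p) :
    C.LeS t q p ↔ Relation.ReflTransGen (C.StepT t (· < t)) p q := by
  constructor
  · intro h
    rcases hp.cut with ht | ht
    · have := RB3_path_mem True hp.v ht h.1.le.2 fun _ => h.2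
      rw [mix_eq_left h.1.ag] at this
      exact RB3_stepT_mono (fun _ h => lt_of_le_of_ne h.1 (h.2 trivial)) this
    · have hq : q.c ⊆ Iio t := fun x hx => by
        by_contra hn
        exact hn (ht.2.2 ((h.1.ag.1 x (not_lt.1 hn)).1.1 hx))
      exact RB3_path_top hp.v hq h.1.bel h.1.le.2 (le_refl' (le_valid h.1.le))
  · intro h
    induction h with
    | refl => exact leS_refl hp
    | tail _ h2 ih =>
      have hv := le_valid ih.1.le
      refine leS_trans ⟨RB3_stepT_leT hv h2, ?_⟩ ih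
      rcases h2.2.2.2 with hd | ⟨μ, hμ, hi⟩
      · exact RB3_sAt_dle hv h2.1 hd h2.2.1
      · simp only [sAt, (ins_facts hv hi).2.1.2 t hμ]

/-- The lower part of an extension. -/
theorem low_leT (h : C.Le r p) (hβ : β ∈ p.c) : C.LeT β (mix β r p) p := by
  have := mix_le_left h hβ h.1 hβ
  rwa [mix_self] at this

theorem le_low (h : C.LeT t r p) (hβ : β ∈ p.c) (ht : β ≤ t) : C.LeT t r (mix β r p) := by
  have := mix_leT_right h hβ ht (le_valid h.le) (le_c h.le hβ)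
  rwa [mix_self] at this

theorem leS_low (h : C.LeS t r p) (hβ : β ∈ p.c) (ht : β ≤ t) : C.LeS t r (mix β r p) := by
  have := mix_leS_right h hβ ht (le_valid h.1.le) (le_c h.1.le hβ)
  rwa [mix_self] at this

/-- A common extension of two conditions extends their mixture. -/
theorem le_mix (hr : C.Scope t r) (h₁ : C.Le r q) (h₂ : C.LeT t r u) (hq : β ∈ q.c)
    (hu : β ∈ u.c) (ht : β ≤ t) : C.LeT t r (mix β q u) := by
  have h3 := mix_scope h₁.1 (scope_of_leT h₂ le_rfl hr) hq hu ht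
  exact leT_trans (le_low h₂ hu ht) (leT_mono (mix_le_left h₁ hq h₂.le.1 hu)
    (scope_of_mem h3.v ((RB3_c_ge le_rfl).2 hu)) h3 ht)

/-! ### Direct extensions -/

theorem ds_refl (h : C.Scope t p) : C.DS β t p p := by
  exact ⟨h.v, Dle.refl p, fun _ _ => ⟨Iff.rfl, rfl, rfl⟩, Agree.refl t p, h.bel⟩

theorem ds_trans (h₁ : C.DS β t r q) (h₂ : C.DS β t q p) : C.DS β t r p := by
  exact ⟨h₁.v, h₁.d.trans h₂.d, fun x hx => ⟨(h₁.lo x hx).1.trans (h₂.lo x hx).1,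
    (h₁.lo x hx).2.1.trans (h₂.lo x hx).2.1, (h₁.lo x hx).2.2.trans (h₂.lo x hx).2.2⟩,
    h₁.ag.trans h₂.ag, h₁.bel⟩

theorem dt_refl (h : C.Scope t p) : C.DT β t p p := by
  exact ⟨ds_refl h, rfl⟩

theorem dt_trans (h₁ : C.DT β t r q) (h₂ : C.DT β t q p) : C.DT β t r p := by
  exact ⟨ds_trans h₁.1 h₂.1, h₁.2.trans h₂.2⟩

theorem ds_leS (hp : C.Scope t p) (h : C.DS β t q p) : C.LeS t q p := by
  exact ⟨⟨le_of_dle hp.v h.v h.d, h.ag, h.bel⟩, RB3_sAt_dle hp.v h.v h.d h.ag⟩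

theorem ds_dt {β' : Od} (h : C.DS β' t q p) (hβ : β < β') : C.DT β t q p := by
  exact ⟨⟨h.v, h.d, fun x hx => h.lo x (hx.trans hβ), h.ag, h.bel⟩, (h.lo β hβ).2.2⟩

theorem dt_mono {β' : Od} (h : C.DT β' t q p) (hβ : β ≤ β') : C.DT β t q p := by
  rcases hβ.lt_or_eq with hβ | rfl
  · exact ds_dt h.1 hβ
  · exact h

theorem ds_cut {t' : Od} (h : C.DS β t' q p) (hp' : C.Scope t' p) (hp : C.Scope t p)
    (ht : t' ≤ t) : C.DS β t q p := by
  have _ := hp'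
  exact ⟨h.v, h.d, h.lo, h.ag.mono ht, RB3_below_cut h.ag h.bel hp.bel ht⟩

theorem ds_c_eq (h : C.DS β t q p) (ht : t ∈ p.c) : q.c = p.c := by
  refine Subset.antisymm (fun x hx => ?_) h.d.c
  by_contra hn
  exact hn ((h.ag.1 x (h.d.new x hx hn t ht).le).1.1 hx)

theorem mix_dt (h : C.DT β t r q) (hβ : β ∈ q.c) (ht : β ≤ t) (hw : C.Valid w) (hβ' : β ∈ w.c) :
    C.DT β t (mix β w r) (mix β w q) := by
  refine ⟨⟨mix_valid hw h.1.v hβ' (h.1.d.c hβ), RB3_dle_right h.1.d, fun x hx => ?_,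
    RB3_agree_right h.1.ag ht, RB3_below_right h.1.bel ht hw hβ'⟩, ?_⟩
  · rw [RB3_c_lt hx, RB3_c_lt hx, RB3_h_lt hx, RB3_h_lt hx, RB3_l_le hx.le, RB3_l_le hx.le]
    exact ⟨Iff.rfl, rfl, rfl⟩
  · rw [RB3_l_le le_rfl, RB3_l_le le_rfl]

theorem dirA_dt (h : C.LeT t r p) (hd : DirA β r p) (hβ : β ∈ p.c) (ht : β ≤ t) :
    C.DT β t (mix β p r) p := by
  exact ⟨⟨mix_valid h.le.1 (le_valid h.le) hβ (le_c h.le hβ), hd, (agLo_mix β p r).1,
    ((agree_mix β p r).mono ht).trans h.ag, RB3_below_right h.bel ht h.le.1 hβ⟩,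
    (agLo_mix β p r).2⟩

theorem dirA_of_dle (h : Dle r p) (hβ : β ∈ p.c) : DirA β r p := by
  have _ := hβ
  have := RB3_dle_right (β := β) (w := p) h
  rwa [mix_self] at this

theorem dirA_of_agree (h : Agree β r p) : DirA β r p := by
  unfold DirA
  rw [mix_eq_left h.symm]
  exact Dle.refl p

theorem dirA_trans (h : DirA β r q) (hq : Dle q p) (hβ : β ∈ p.c) : DirA β r p := by
  have := RB3_dle_right (β := β) (w := p) h
  rw [mix_mix_right] at this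
  exact this.trans (dirA_of_dle hq hβ)

theorem dirA_congr (h : DirA β r q) (ha : Agree β q p) (hβ : β ∈ p.c) : DirA β r p := by
  have _ := hβ
  have := RB3_dle_right (β := β) (w := p) h
  rwa [mix_mix_right, mix_eq_left ha.symm] at this

theorem dirA_mono (h : DirA β r p) (hβ : β ≤ δ) (hδ : δ ∈ p.c) : DirA δ r p := by
  have _ := hδ
  have := RB3_dle_right (β := δ) (w := p) h
  rwa [mix_self, mix_congr (q' := p) ⟨fun _ _ => ⟨Iff.rfl, rfl, rfl⟩, rfl⟩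
    ((agree_mix β p r).mono hβ)] at this

end Ctx

end Pool.Agent.MP_85ce7b_lc

end

section

namespace Pool.Agent.MP_85ce7b_lc

open Set Cardinal Ordinal Dat

section RB4aux

variable {p q r u v w a e b : Raw} {t β μ ν x : Od} {f g : Lo → Lo} {k : Set (Od × Od)}

theorem RB4_setL_self : (setL μ f r).l μ = (r.l μ).map f := by
  simp [setL]

theorem RB4_setL_ne (h : x ≠ μ) : (setL μ f r).l x = r.l x := by
  simp [setL, Function.update_of_ne h]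

theorem RB4_setL_none (h : r.l x = none) : (setL μ f r).l x = none := by
  by_cases h1 : x = μ
  · subst h1
    rw [RB4_setL_self, h]
    rfl
  · rw [RB4_setL_ne h1, h]

theorem RB4_setL_id : setL μ id r = r := by
  refine Raw.ext rfl rfl (funext fun x => ?_)
  by_cases h1 : x = μ
  · subst h1
    rw [RB4_setL_self, Option.map_id]
    rfl
  · rw [RB4_setL_ne h1]

theorem RB4_agS_refl (β : Od) (p : Raw) : AgS β p p := fun _ _ => ⟨Iff.rfl, rfl, rfl⟩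

theorem RB4_agS_symm (h : AgS β q p) : AgS β p q :=
  fun x hx => ⟨(h x hx).1.symm, (h x hx).2.1.symm, (h x hx).2.2.symm⟩

theorem RB4_agS_trans (h₁ : AgS β r q) (h₂ : AgS β q p) : AgS β r p :=
  fun x hx => ⟨(h₁ x hx).1.trans (h₂ x hx).1, (h₁ x hx).2.1.trans (h₂ x hx).2.1,
    (h₁ x hx).2.2.trans (h₂ x hx).2.2⟩

theorem RB4_setL_agS (μ : Od) (f : Lo → Lo) (r : Raw) : AgS μ (setL μ f r) r :=
  fun _ hx => ⟨Iff.rfl, rfl, RB4_setL_ne hx.ne⟩

theorem RB4_setL_agree (μ : Od) (f : Lo → Lo) (r : Raw) : Agree μ (setL μ f r) r :=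
  ⟨fun _ _ => ⟨Iff.rfl, rfl⟩, fun _ hx => RB4_setL_ne hx.ne'⟩

theorem RB4_gl_l (μ : Od) (r u : Raw) : (gl μ r u).l μ =
    (r.l μ).map fun L => ⟨((u.l μ).getD L).A, ((u.l μ).getD L).F, L.s⟩ := by
  unfold gl
  rw [RB4_setL_self, rb2_l_le le_rfl]

theorem RB4_dle_setL {L L' : Lo} (h : Dle e a) (ha : a.l μ = some L) (he : e.l μ = some L')
    (hA : (g L').A ⊆ (f L).A) (hF : ∀ ξ ∈ (g L').A, sec (f L).F ξ ⊆ sec (g L').F ξ)
    (hs : (g L').s = (f L).s) : Dle (setL μ g e) (setL μ f a) := by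
  refine ⟨h.c, h.new, h.h, fun x hx hl => ?_, fun x L0 hl => ?_⟩
  · by_cases h1 : x = μ
    · subst h1
      rw [RB4_setL_self, ha] at hl
      cases hl
    · rw [RB4_setL_ne h1] at hl ⊢
      exact h.l0 x hx hl
  · by_cases h1 : x = μ
    · subst h1
      rw [RB4_setL_self, ha] at hl
      obtain rfl : f L = L0 := Option.some.inj hl
      exact ⟨g L', by rw [RB4_setL_self, he]; rfl, hA, hF, hs⟩
    · rw [RB4_setL_ne h1] at hl ⊢
      exact h.l1 x L0 hl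

theorem RB4_setL_ins (hμ : μ ∉ b.c) (hν : ν ∉ b.c)
    (hg : ∀ (L : Lo) z, g ⟨L.A, L.F, insert z L.s⟩ = ⟨(g L).A, (g L).F, insert z (g L).s⟩) :
    setL μ g (ins a ν b k) = ins (setL μ g a) ν b k := by
  refine Raw.ext rfl rfl (funext fun x => ?_)
  by_cases h1 : x = μ
  · subst h1
    rw [RB4_setL_self]
    by_cases h2 : x = ν
    · subst h2
      rw [rb2_ins_l_self hμ, rb2_ins_l_self hμ, RB4_setL_self]
      rcases a.l x with _ | L
      · rfl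
      · simp only [Option.map_some, hg]
    · rw [rb2_ins_l_nmem h2 hμ, rb2_ins_l_nmem h2 hμ, RB4_setL_self]
  · rw [RB4_setL_ne h1]
    exact rb2_ins_l_congr hν (RB4_setL_ne h1).symm

theorem RB4_dle_ins {k' : Set (Od × Od)} (h : k ⊆ k') : Dle (ins a ν b k') (ins a ν b k) := by
  refine ⟨subset_rfl, fun x hx hn => absurd hx hn, fun x => ?_, fun x _ hl => hl,
    fun x L hl => ⟨L, hl, subset_rfl, fun _ _ => subset_rfl, rfl⟩⟩
  rw [rb2_ins_h, rb2_ins_h]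
  refine union_subset_union_right _ ?_
  by_cases h1 : x = fp b
  · subst h1
    simpa only [setH, Function.update_self] using h
  · rw [rb2_setH h1, rb2_setH h1]

theorem RB4_res_c : x ∈ (res μ r).c ↔ x ∈ r.c ∧ x < μ := Iff.rfl

theorem RB4_res_h_lt (h : x < μ) : (res μ r).h x = r.h x := by simp [res, h]

theorem RB4_res_h_ge (h : μ ≤ x) : (res μ r).h x = ∅ := by simp [res, not_lt.2 h]

theorem RB4_res_l_lt (h : x < μ) : (res μ r).l x = r.l x := by simp [res, h]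

theorem RB4_res_l_ge (h : μ ≤ x) : (res μ r).l x = none := by simp [res, not_lt.2 h]

theorem RB4_res_h_sub (x : Od) : (res μ r).h x ⊆ r.h x := by
  rcases lt_or_ge x μ with h | h
  · rw [RB4_res_h_lt h]
  · rw [RB4_res_h_ge h]
    exact empty_subset _

theorem RB4_res_l_some {L : Lo} (h : (res μ r).l x = some L) : x < μ ∧ r.l x = some L := by
  rcases lt_or_ge x μ with h1 | h1
  · exact ⟨h1, by rwa [RB4_res_l_lt h1] at h⟩
  · rw [RB4_res_l_ge h1] at h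
    cases h

theorem RB4_res_l_none (h : r.l x = none) : (res μ r).l x = none := by
  rcases lt_or_ge x μ with h1 | h1
  · rwa [RB4_res_l_lt h1]
  · exact RB4_res_l_ge h1

theorem RB4_res_agree (μ : Od) (a e : Raw) : Agree μ (res μ a) (res μ e) :=
  ⟨fun _ hx => ⟨⟨fun h => absurd h.2 (not_lt.2 hx), fun h => absurd h.2 (not_lt.2 hx)⟩,
    by rw [RB4_res_h_ge hx, RB4_res_h_ge hx]⟩,
    fun _ hx => by rw [RB4_res_l_ge hx.le, RB4_res_l_ge hx.le]⟩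

theorem RB4_res_congr (h : AgS μ w u) : res μ w = res μ u := by
  refine eq_of_agLo_agree (β := μ) ⟨fun x hx => ?_, ?_⟩ (RB4_res_agree μ w u)
  · rw [RB4_res_c, RB4_res_c, RB4_res_h_lt hx, RB4_res_h_lt hx, RB4_res_l_lt hx, RB4_res_l_lt hx,
      (h x hx).1]
    exact ⟨Iff.rfl, (h x hx).2⟩
  · rw [RB4_res_l_ge le_rfl, RB4_res_l_ge le_rfl]

theorem RB4_res_dle (h : Dle e a) : Dle (res μ e) (res μ a) := by
  refine ⟨fun x hx => ⟨h.c hx.1, hx.2⟩, fun x hx hn y hy => ?_, fun x => ?_, fun x hx hl => ?_,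
    fun x L hl => ?_⟩
  · exact h.new x hx.1 (fun h' => hn ⟨h', hx.2⟩) y hy.1
  · rcases lt_or_ge x μ with h1 | h1
    · rw [RB4_res_h_lt h1, RB4_res_h_lt h1]
      exact h.h x
    · rw [RB4_res_h_ge h1, RB4_res_h_ge h1]
  · rw [RB4_res_l_lt hx.2] at hl
    exact RB4_res_l_none (h.l0 x hx.1 hl)
  · obtain ⟨h1, h2⟩ := RB4_res_l_some hl
    rw [RB4_res_l_lt h1]
    exact h.l1 x L h2

theorem RB4_res_ins (hν : ν < μ) (hb : ∀ x ∈ b.c, x < ν) (hf : fp b ∈ b.c)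
    (h0 : ∀ x, x ∉ b.c → b.h x = ∅) : res μ (ins a ν b k) = ins (res μ a) ν b k := by
  have hn : ∀ x, μ ≤ x → x ∉ b.c := fun x hx h => ((hb x h).trans hν).not_ge hx
  have hm : ν ∉ b.c := fun h => lt_irrefl _ (hb ν h)
  refine Raw.ext (Set.ext fun x => ?_) (funext fun x => ?_) (funext fun x => ?_)
  · rw [RB4_res_c, rb2_ins_c, rb2_ins_c, RB4_res_c]
    exact ⟨fun h => h.1.imp (fun h' => ⟨h', h.2⟩) id,
      fun h => h.elim (fun h' => ⟨Or.inl h'.1, h'.2⟩) fun h' => ⟨Or.inr h', (hb x h').trans hν⟩⟩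
  · rcases lt_or_ge x μ with h1 | h1
    · rw [RB4_res_h_lt h1, rb2_ins_h, rb2_ins_h, RB4_res_h_lt h1]
    · rw [RB4_res_h_ge h1, rb2_ins_h, RB4_res_h_ge h1,
        rb2_setH (fun h : x = fp b => hn x h1 (h ▸ hf)), h0 x (hn x h1), union_empty]
  · rcases lt_or_ge x μ with h1 | h1
    · rw [RB4_res_l_lt h1]
      exact rb2_ins_l_congr hm (RB4_res_l_lt h1).symm
    · rw [RB4_res_l_ge h1, rb2_ins_l_nmem (hν.trans_le h1).ne' (hn x h1), RB4_res_l_ge h1]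

theorem RB4_stem_l0 : (stem μ r).l 0 = (sAt μ r).map fun s => ⟨∅, ∅, s⟩ := by
  simp only [stem, Function.update_self, sAt, Option.map_map]
  rfl

theorem RB4_stem_l_ne (h : x ≠ 0) : (stem μ r).l x = (res μ r).l x := by
  simp only [stem, Function.update_of_ne h]

theorem RB4_gl_congr {r' : Raw} (h : AgS μ r r') (hs : sAt μ r = sAt μ r') (hu : Spec u μ) :
    gl μ r u = gl μ r' u := by
  obtain ⟨L', hL'⟩ := hu
  have e1 : ∀ r : Raw, AgS μ (gl μ r u) r := fun r =>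
    RB4_agS_trans (RB4_setL_agS _ _ _) (agLo_mix μ r u).1
  have e2 : ∀ r : Raw, Agree μ (gl μ r u) u := fun r =>
    (RB4_setL_agree _ _ _).trans (agree_mix μ r u)
  have e3 : ∀ r : Raw, (gl μ r u).l μ = (sAt μ r).map fun s => ⟨L'.A, L'.F, s⟩ := fun r => by
    rw [RB4_gl_l, hL', sAt, Option.map_map]
    rfl
  refine eq_of_agLo_agree (β := μ) ⟨RB4_agS_trans (e1 r) (RB4_agS_trans h (RB4_agS_symm (e1 r'))),
    ?_⟩ ((e2 r).trans (e2 r').symm)
  rw [e3, e3, hs]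

theorem RB4_cutA_l (D : Dat) {m : Od} {L : Lo} (h : r.l μ = some L) :
    (D.cutA μ m r).l μ = some ⟨L.A ∩ {ξ | m < fp (D.dec ξ)}, L.F, L.s⟩ := by
  unfold Dat.cutA
  rw [RB4_setL_self, h]
  rfl

theorem RB4_cutA_sAt (D : Dat) (μ m : Od) (r : Raw) : sAt μ (D.cutA μ m r) = sAt μ r := by
  unfold Dat.cutA sAt
  rw [RB4_setL_self, Option.map_map]
  rfl

theorem RB4_gl_dle (h : Dle e a) (hμ : μ ∈ a.c) (ha : Spec a μ) (hv : Spec v μ) :
    Dle (gl μ e v) (gl μ a v) := by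
  obtain ⟨L, hL⟩ := ha
  obtain ⟨Lv, hv⟩ := hv
  obtain ⟨L', h1, -, -, h2⟩ := h.l1 μ L hL
  refine RB4_dle_setL (rb2_dle_left h hμ) ((rb2_l_le le_rfl).trans hL)
    ((rb2_l_le le_rfl).trans h1) ?_ ?_ h2
  · simp only [hv, Option.getD_some]
    exact subset_rfl
  · simp only [hv, Option.getD_some]
    exact fun _ _ => subset_rfl

theorem RB4_gl_ins (hν : ν ≤ μ) (hb : ∀ x ∈ b.c, x < ν) (hf : fp b ∈ b.c)
    (h0 : ∀ x, x ∉ b.c → b.h x = ∅) : gl μ (ins a ν b k) v = ins (gl μ a v) ν b k := by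
  unfold gl
  rw [rb2_mix_ins_left hν hb hf h0]
  refine RB4_setL_ins (fun h => (hb μ h).not_ge hν) (fun h => lt_irrefl _ (hb ν h)) fun L z => ?_
  rcases v.l μ with _ | L' <;> rfl

theorem RB4_stem_congr (h : AgS μ w u) (hs : sAt μ w = sAt μ u) : stem μ w = stem μ u := by
  have e := RB4_res_congr h
  refine Raw.ext ?_ ?_ (funext fun x => ?_)
  · change (res μ w).c = (res μ u).c
    rw [e]
  · change (res μ w).h = (res μ u).h
    rw [e]
  · by_cases h0 : x = 0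
    · rw [h0, RB4_stem_l0, RB4_stem_l0, hs]
    · rw [RB4_stem_l_ne h0, RB4_stem_l_ne h0, e]

end RB4aux

theorem gl_l {μ : Od} {r u : Raw} {L L' : Lo} (h₁ : r.l μ = some L) (h₂ : u.l μ = some L') :
    (gl μ r u).l μ = some ⟨L'.A, L'.F, L.s⟩ := by
  rw [RB4_gl_l, h₁, h₂]
  rfl

theorem gl_agS (μ : Od) (r u : Raw) : AgS μ (gl μ r u) r := by
  exact RB4_agS_trans (RB4_setL_agS _ _ _) (agLo_mix μ r u).1

theorem gl_agree (μ : Od) (r u : Raw) : Agree μ (gl μ r u) u := by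
  exact (RB4_setL_agree _ _ _).trans (agree_mix μ r u)

theorem gl_sAt (μ : Od) (r u : Raw) : sAt μ (gl μ r u) = sAt μ r := by
  rw [sAt, RB4_gl_l, Option.map_map]
  rfl

theorem gl_self (μ : Od) (r : Raw) : gl μ r r = r := by
  refine eq_of_agLo_agree (β := μ) ⟨gl_agS μ r r, ?_⟩ (gl_agree μ r r)
  rw [RB4_gl_l]
  rcases r.l μ with _ | L <;> rfl

theorem gl_gl_left {μ : Od} {u : Raw} (r v : Raw) (hu : Spec u μ) :
    gl μ (gl μ r v) u = gl μ r u := by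
  exact RB4_gl_congr (gl_agS μ r v) (gl_sAt μ r v) hu

theorem gl_gl_right {μ : Od} {v u : Raw} (r : Raw) (hv : Spec v μ) (hu : Spec u μ) :
    gl μ r (gl μ v u) = gl μ r u := by
  obtain ⟨Lv, hv⟩ := hv
  obtain ⟨Lu, hu⟩ := hu
  refine eq_of_agLo_agree (β := μ)
    ⟨RB4_agS_trans (gl_agS _ _ _) (RB4_agS_symm (gl_agS _ _ _)), ?_⟩
    (((gl_agree _ _ _).trans (gl_agree _ _ _)).trans (gl_agree _ _ _).symm)
  rw [RB4_gl_l μ r (gl μ v u), gl_l hv hu, RB4_gl_l μ r u, hu]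
  rfl

theorem gl_mix {δ μ : Od} (q r v : Raw) (h : δ < μ) :
    gl μ (mix δ q r) v = mix δ q (gl μ r v) := by
  refine eq_of_agLo_agree (β := μ) ⟨RB4_agS_trans (gl_agS _ _ _) fun x hx => ?_, ?_⟩
    ((gl_agree _ _ _).trans (((agree_mix δ q _).mono h.le).trans (gl_agree _ _ _)).symm)
  · obtain ⟨e1, e2, e3⟩ := gl_agS μ r v x hx
    refine ⟨?_, ?_, ?_⟩
    · rcases lt_or_ge x δ with h1 | h1
      · rw [rb2_c_lt h1, rb2_c_lt h1]
      · rw [rb2_c_ge h1, rb2_c_ge h1, e1]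
    · rcases lt_or_ge x δ with h1 | h1
      · rw [rb2_h_lt h1, rb2_h_lt h1]
      · rw [rb2_h_ge h1, rb2_h_ge h1, e2]
    · rcases le_or_gt x δ with h1 | h1
      · rw [rb2_l_le h1, rb2_l_le h1]
      · rw [rb2_l_gt h1, rb2_l_gt h1, e3]
  · rw [RB4_gl_l, rb2_l_gt h, rb2_l_gt h, RB4_gl_l]

theorem stem_gl (μ : Od) (r u : Raw) : stem μ (gl μ r u) = stem μ r := by
  exact RB4_stem_congr (gl_agS μ r u) (gl_sAt μ r u)

theorem stem_cutA (D : Dat) (μ m : Od) (r : Raw) : stem μ (D.cutA μ m r) = stem μ r := by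
  exact RB4_stem_congr (RB4_setL_agS _ _ _) (RB4_cutA_sAt D μ m r)

theorem stem_of_agS {μ : Od} {w u : Raw} (h : AgS μ w u) (hs : sAt μ w = sAt μ u) :
    stem μ w = stem μ u := by
  exact RB4_stem_congr h hs

theorem spec_gl {μ : Od} {r : Raw} (u : Raw) (h : Spec r μ) : Spec (gl μ r u) μ := by
  obtain ⟨L, hL⟩ := h
  exact ⟨_, by rw [RB4_gl_l, hL]; rfl⟩

theorem spec_cutA (D : Dat) {μ m : Od} {r : Raw} (h : Spec r μ) : Spec (D.cutA μ m r) μ := by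
  obtain ⟨L, hL⟩ := h
  exact ⟨_, RB4_cutA_l D hL⟩

theorem res_mix {δ μ : Od} (q r : Raw) (h : δ < μ) : res μ (mix δ q r) = mix δ q (res μ r) := by
  refine Raw.ext (Set.ext fun x => ?_) (funext fun x => ?_) (funext fun x => ?_)
  · rw [RB4_res_c]
    rcases lt_or_ge x δ with h1 | h1
    · rw [rb2_c_lt h1, rb2_c_lt h1, and_iff_left (h1.trans h)]
    · rw [rb2_c_ge h1, rb2_c_ge h1, RB4_res_c]
  · rcases lt_or_ge x δ with h1 | h1
    · rw [RB4_res_h_lt (h1.trans h), rb2_h_lt h1, rb2_h_lt h1]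
    · rw [rb2_h_ge h1]
      rcases lt_or_ge x μ with h2 | h2
      · rw [RB4_res_h_lt h2, RB4_res_h_lt h2, rb2_h_ge h1]
      · rw [RB4_res_h_ge h2, RB4_res_h_ge h2]
  · rcases le_or_gt x δ with h1 | h1
    · rw [RB4_res_l_lt (h1.trans_lt h), rb2_l_le h1, rb2_l_le h1]
    · rw [rb2_l_gt h1]
      rcases lt_or_ge x μ with h2 | h2
      · rw [RB4_res_l_lt h2, RB4_res_l_lt h2, rb2_l_gt h1]
      · rw [RB4_res_l_ge h2, RB4_res_l_ge h2]

theorem agS_res (μ : Od) (r : Raw) : AgS μ (res μ r) r := by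
  exact fun x hx => ⟨and_iff_left hx, RB4_res_h_lt hx, RB4_res_l_lt hx⟩

namespace Ctx

variable {C : Ctx} {p q r r' u u' v w w' b : Raw} {t β δ μ m η : Od}

theorem RB4_setL_valid {f : Lo → Lo} (hr : C.Valid r)
    (hf : ∀ L, r.l μ = some L → C.LV r.c μ (f L)) : C.Valid (setL μ f r) := by
  refine ⟨hr.ne, hr.bd, hr.cl, hr.h0, fun x hx => RB4_setL_none (hr.l0 x hx), hr.col, hr.vs,
    hr.bel, fun x hx => RB4_setL_none (hr.lim x hx), fun x hx hi => ?_, fun ν L hl => ?_⟩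
  · obtain ⟨⟨y, g1, g2⟩, g3⟩ := hr.eas x hx hi
    exact ⟨⟨y, g1, fun z hy hz => ⟨(g2 z hy hz).1, RB4_setL_none (g2 z hy hz).2⟩⟩, g3⟩
  · by_cases h1 : ν = μ
    · subst h1
      rw [RB4_setL_self] at hl
      obtain ⟨L0, h2, rfl⟩ := Option.map_eq_some_iff.1 hl
      exact hf L0 h2
    · rw [RB4_setL_ne h1] at hl
      exact hr.sp ν L hl

theorem RB4_l_zero (hr : C.Valid r) : r.l 0 = none := by
  rcases hl : r.l 0 with _ | L
  · rfl
  · obtain ⟨y, -, hy⟩ := (hr.sp 0 L hl).pre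
    exact absurd hy (not_lt.2 zero_le)

theorem RB4_setL_Ins {a e : Raw} {ν : Od} {g : Lo → Lo} (h : C.Ins e a ν) (hν : ν < μ)
    (hg : ∀ (L : Lo) z, g ⟨L.A, L.F, insert z L.s⟩ = ⟨(g L).A, (g L).F, insert z (g L).s⟩) :
    C.Ins (setL μ g e) (setL μ g a) ν := by
  obtain ⟨L, ξ, g1, g2, g3, rfl⟩ := h
  refine ⟨L, ξ, (RB4_setL_ne hν.ne).trans g1, g2, ⟨g3.blk, g3.lt, g3.bel⟩, ?_⟩
  exact RB4_setL_ins (fun h => (rb2_bdd g3.blk.bdd h).not_gt hν)
    (fun h => lt_irrefl _ (rb2_bdd g3.blk.bdd h)) hg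

theorem RB4_gl_Ins {a e : Raw} {ν : Od} (ha : C.Valid a) (h : C.Ins e a ν) (hν : ν < μ) :
    C.Ins (gl μ e v) (gl μ a v) ν := by
  refine RB4_setL_Ins (RB3_ins_mix ha h hν.le) hν fun L z => ?_
  rcases v.l μ with _ | L' <;> rfl

theorem RB4_res_valid (hr : C.Valid r) (h : Spec r μ) : C.Valid (res μ r) := by
  obtain ⟨m, hm, hmμ, hmax⟩ := spec_max_below hr h
  have hlim : ∀ x, LimP (res μ r).c x → LimP r.c x := fun x hx =>
    ⟨hx.1, fun y hy => let ⟨z, hz, h1⟩ := hx.2 y hy; ⟨z, hz.1, h1⟩⟩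
  have hh : ∀ x, r.h x = ∅ → (res μ r).h x = ∅ := fun x hx =>
    subset_eq_empty (RB4_res_h_sub x) hx
  refine ⟨⟨m, hm, hmμ⟩, hr.bd.mono inter_subset_left, fun x hx => ⟨hr.cl x (hlim x hx), ?_⟩,
    fun x hx => ?_, fun x hx => ?_, fun x => ?_, fun i v hv => hr.vs i v (RB4_res_h_sub _ hv),
    fun y hy x hx i v hv => hr.bel y hy.1 x hx i v (RB4_res_h_sub _ hv),
    fun x hx => RB4_res_l_none (hr.lim x (hlim x hx)), fun x hx hi => ?_, fun ν L hl => ?_⟩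
  · by_contra hn
    obtain ⟨z, hz, h1, -⟩ := hx.2 m (hmμ.trans_le (not_lt.1 hn))
    exact (hmax z hz.1 hz.2).not_gt h1
  · rcases lt_or_ge x μ with h1 | h1
    · exact hh x (hr.h0 x fun h' => hx ⟨h', h1⟩)
    · exact RB4_res_h_ge h1
  · rcases lt_or_ge x μ with h1 | h1
    · exact RB4_res_l_none (hr.l0 x fun h' => hx ⟨h', h1⟩)
    · exact RB4_res_l_ge h1
  · have g := hr.col x
    exact ⟨fun i v v' h1 h2 => g.fn i v v' (RB4_res_h_sub _ h1) (RB4_res_h_sub _ h2),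
      fun i v h1 => g.dom i v (RB4_res_h_sub _ h1),
      (Cardinal.mk_le_mk_of_subset (RB4_res_h_sub x)).trans g.card⟩
  · obtain ⟨⟨y, g1, g2⟩, g3⟩ := hr.eas x (hlim x hx) hi
    exact ⟨⟨y, g1, fun z hy hz => ⟨hh z (g2 z hy hz).1, RB4_res_l_none (g2 z hy hz).2⟩⟩, g3⟩
  · obtain ⟨h1, h2⟩ := RB4_res_l_some hl
    have g := hr.sp ν L h2
    refine ⟨g.sp, g.gt, ?_, g.A, g.Alt, g.Fb, g.F, g.fin, fun z hz => ?_⟩
    · obtain ⟨y, g1, g2⟩ := g.pre
      exact ⟨y, ⟨g1, g2.trans h1⟩, g2⟩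
    · obtain ⟨y, g1, g2, g3⟩ := g.s z hz
      exact ⟨y, ⟨g1, g3.trans h1⟩, g2, g3⟩

theorem RB4_stem_bdd (hr : C.Valid r) (h : Spec r μ) (hb : Bdd η (res μ r)) :
    Bdd η (stem μ r) := by
  obtain ⟨a, ha, h1, h2, h3⟩ := hb
  refine ⟨a, ha, h1, h2, fun x L hl => ?_⟩
  by_cases hx : x = 0
  · subst hx
    obtain ⟨L0, hL0⟩ := h
    have g := hr.sp μ L0 hL0
    rw [RB4_stem_l0, sAt, hL0] at hl
    obtain rfl : (⟨∅, ∅, L0.s⟩ : Lo) = L := Option.some.inj hl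
    refine ⟨?_, empty_subset _, empty_subset _, fun z hz => ?_⟩
    · obtain ⟨y, g1, g2⟩ := g.pre
      exact lt_of_le_of_lt zero_le (h1 ⟨g1, g2⟩)
    · obtain ⟨y, g1, g2, g3⟩ := g.s z hz
      exact lt_of_le_of_lt g2 (h1 ⟨g1, g3⟩)
  · rw [RB4_stem_l_ne hx] at hl
    exact h3 x L hl

theorem RB4_cutA_valid (hu : C.Valid u) (hm : m < μ) : C.Valid (C.cutA μ m u) := by
  refine RB4_setL_valid hu fun L hL => ?_
  have g := hu.sp μ L hL
  refine ⟨g.sp, g.gt, g.pre, ?_, inter_subset_left.trans g.Alt, g.Fb, fun ξ hξ => g.F ξ hξ.1,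
    g.fin, g.s⟩
  exact Filter.inter_mem g.A
    (Filter.mem_of_superset ((C.good μ g.sp).w0 m hm) fun ξ hξ => hξ.2.2)

theorem RB4_cutA_dle {a e : Raw} (h : Dle e a) (ha : Spec a μ) :
    Dle (C.cutA μ m e) (C.cutA μ m a) := by
  obtain ⟨L, hL⟩ := ha
  obtain ⟨L', h1, h2, h3, h4⟩ := h.l1 μ L hL
  exact RB4_dle_setL h hL h1 (inter_subset_inter_left _ h2) (fun ξ hξ => h3 ξ hξ.1) h4

theorem agS_of_stem (hw : C.Valid w) (hu : C.Valid u) (h : stem μ w = stem μ u) :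
    AgS μ w u ∧ sAt μ w = sAt μ u := by
  refine ⟨fun x hx => ⟨?_, ?_, ?_⟩, ?_⟩
  · have e : x ∈ (res μ w).c ↔ x ∈ (res μ u).c := by
      change x ∈ (stem μ w).c ↔ x ∈ (stem μ u).c
      rw [h]
    rwa [RB4_res_c, RB4_res_c, and_iff_left hx, and_iff_left hx] at e
  · have e : (res μ w).h x = (res μ u).h x := by
      change (stem μ w).h x = (stem μ u).h x
      rw [h]
    rwa [RB4_res_h_lt hx, RB4_res_h_lt hx] at e
  · by_cases h0 : x = 0
    · rw [h0, RB4_l_zero hw, RB4_l_zero hu]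
    · have e : (stem μ w).l x = (stem μ u).l x := by rw [h]
      rwa [RB4_stem_l_ne h0, RB4_stem_l_ne h0, RB4_res_l_lt hx, RB4_res_l_lt hx] at e
  · have e : (stem μ w).l 0 = (stem μ u).l 0 := by rw [h]
    rw [RB4_stem_l0, RB4_stem_l0] at e
    exact Option.map_injective (fun s s' hs => congrArg Lo.s hs) e

theorem gl_congr_stem (hr : C.Valid r) (hr' : C.Valid r') (h : stem μ r = stem μ r')
    (hu : Spec u μ) : gl μ r u = gl μ r' u := by
  exact RB4_gl_congr (agS_of_stem hr hr' h).1 (agS_of_stem hr hr' h).2 hu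

theorem gl_valid (hr : C.Valid r) (hu : C.Valid u) (h₁ : Spec r μ) (h₂ : Spec u μ) :
    C.Valid (gl μ r u) := by
  have hm := mix_valid hr hu (spec_mem hr h₁) (spec_mem hu h₂)
  obtain ⟨L', hL'⟩ := h₂
  refine RB4_setL_valid hm fun L hL => ?_
  have g := hm.sp μ L hL
  have g' := hu.sp μ L' hL'
  simp only [hL', Option.getD_some]
  exact ⟨g.sp, g.gt, g.pre, g'.A, g'.Alt, g'.Fb, g'.F, g.fin, g.s⟩

theorem gl_scope (hr : C.Valid r) (hu : C.Scope t u) (h₁ : Spec r μ) (h₂ : Spec u μ)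
    (ht : μ ≤ t) : C.Scope t (gl μ r u) := by
  have hm := mix_scope hr hu (spec_mem hr h₁) (spec_mem hu.v h₂) ht
  exact ⟨gl_valid hr hu.v h₁ h₂, hm.bel, hm.cut⟩

theorem res_scope (hr : C.Valid r) (h : Spec r μ) :
    C.Scope μ (res μ r) ∧ μ ∉ (res μ r).c ∧ Bdd μ (res μ r) := by
  have hv := RB4_res_valid hr h
  obtain ⟨h1, h2, -⟩ := spec_inac hr h
  have hb : C.Below μ (res μ r) := fun x hx i v hv =>
    hr.bel μ (spec_mem hr h) x hx i v (RB4_res_h_sub _ hv)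
  exact ⟨⟨hv, hb, Or.inr ⟨h1, h2, inter_subset_right⟩⟩, fun h' => lt_irrefl μ h'.2,
    bdd_of_below hv h1 inter_subset_right hb⟩

theorem res_le (h : C.Le r' r) (hμ : Spec r μ) : C.LeT μ (res μ r') (res μ r) := by
  have hsp : ∀ a, C.Le a r → Spec a μ := fun a ha => (le_spec_iff ha (spec_mem h.1 hμ)).2 hμ
  refine ⟨?_, RB4_res_agree μ r' r, (res_scope (le_valid h) (hsp r' h)).1.bel⟩
  refine rb2_ind (P := fun a => C.Le (res μ a) (res μ r)) h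
    (le_refl' (RB4_res_valid h.1 hμ)) ?_ ?_
  · intro a e ha hv he ih hd
    exact le_trans' (le_of_dle (le_valid ih)
      (RB4_res_valid he (hsp e (le_trans' (le_of_dle hv he hd) ha))) (RB4_res_dle hd)) ih
  · intro a e ν ha hv he ih hi
    have hle := le_of_ins hv hi
    rcases lt_or_ge ν μ with h1 | h1
    · refine le_trans' (le_of_ins (μ := ν) (le_valid ih) ?_) ih
      obtain ⟨L, ξ, g1, g2, g3, rfl⟩ := hi
      exact ⟨L, ξ, (RB4_res_l_lt h1).trans g1, g2, ⟨g3.blk, fun x hx hxν => g3.lt x hx.1 hxν,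
        fun x hx i v hv => g3.bel x hx i v (RB4_res_h_sub _ hv)⟩,
        RB4_res_ins h1 (fun x hx => rb2_bdd g3.blk.bdd hx) (fp_mem g3.blk.v).1 g3.blk.v.h0⟩
    · refine le_trans' (le_of_dle (le_valid ih) (RB4_res_valid he (hsp e (le_trans' hle ha))) ?_) ih
      obtain ⟨-, -, -, f1, -, f3, f4⟩ := ins_facts hv hi
      refine ⟨fun x hx => ⟨f3 hx.1, hx.2⟩, fun x hx hn y hy => ?_, fun x => ?_,
        fun x hx hl => ?_, fun x L hl => ?_⟩
      · exact (f4 x hx.1 fun h' => hn ⟨h', hx.2⟩).2 y hy.1 (lt_of_lt_of_le hy.2 h1)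
      · rcases lt_or_ge x μ with h2 | h2
        · rw [RB4_res_h_lt h2, RB4_res_h_lt h2]
          exact le_h hle x
        · rw [RB4_res_h_ge h2, RB4_res_h_ge h2]
      · rw [RB4_res_l_lt hx.2] at hl
        exact RB4_res_l_none (le_l0 hle hx.1 hl)
      · obtain ⟨h2, h3⟩ := RB4_res_l_some hl
        refine ⟨L, ?_, subset_rfl, fun _ _ => subset_rfl, rfl⟩
        rw [RB4_res_l_lt h2, f1 x (spec_mem hv ⟨L, h3⟩) (h2.trans_le h1).ne, h3]

theorem le_res (hr : C.Scope t r) (ht : t ∉ r.c) (hμ : Spec r μ) : C.LeT t r (res μ r) := by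
  have hv := RB4_res_valid hr.v hμ
  have hc : ∀ x, t ≤ x → x ∉ r.c := fun x hx h' =>
    (not_lt.2 hx) ((hr.cut.resolve_left ht).2.2 h')
  have hc' : ∀ x, t ≤ x → x ∉ (res μ r).c := fun x hx h' => hc x hx h'.1
  refine ⟨le_of_dle hv hr.v ⟨inter_subset_left, fun x hx hn y hy => ?_, RB4_res_h_sub,
    fun x hx hl => ?_, fun x L hl => ?_⟩, ⟨fun x hx => ⟨⟨fun h' => absurd h' (hc x hx),
    fun h' => h'.1⟩, ?_⟩, fun x hx => ?_⟩, hr.bel⟩
  · exact lt_of_lt_of_le hy.2 (not_lt.1 fun h' => hn ⟨hx, h'⟩)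
  · rwa [RB4_res_l_lt hx.2] at hl
  · exact ⟨L, (RB4_res_l_some hl).2, subset_rfl, fun _ _ => subset_rfl, rfl⟩
  · rw [hr.v.h0 x (hc x hx), hv.h0 x (hc' x hx)]
  · rw [hr.v.l0 x (hc x hx.le), hv.l0 x (hc' x hx.le)]

theorem stem_bdd (hr : C.Valid r) (h : Spec r μ) : Bdd μ (stem μ r) := by
  exact RB4_stem_bdd hr h (res_scope hr h).2.2

theorem stem_bdd_insb (hr : C.Valid r) (h : Spec r μ) (hb : C.Insb r μ b) :
    Bdd (fp b) (stem μ r) := by
  exact RB4_stem_bdd hr h (bdd_of_below (RB4_res_valid hr h) hb.blk.inac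
    (fun x hx => hb.lt x hx.1 hx.2) fun x hx i v hv => hb.bel x hx i v (RB4_res_h_sub _ hv))

theorem stem_bdd_mono (h : C.Le r' r) (hμ : Spec r μ) (hb : Bdd η (stem μ r')) :
    Bdd η (stem μ r) := by
  obtain ⟨a, ha, h1, h2, -⟩ := hb
  have hle := (res_le h hμ).le
  have hc : (res μ r).c ⊆ Iio a := (le_c hle).trans h1
  refine RB4_stem_bdd h.1 hμ ⟨a, ha, hc, fun x i v hv => h2 x i v (le_h hle x hv),
    fun x L hl => ?_⟩
  have hx : x < a := hc (spec_mem hle.1 ⟨L, hl⟩)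
  have g := hle.1.sp x L hl
  refine ⟨hx, g.Alt.trans (Iio_subset_Iio hx.le), fun z hz => ?_, fun z hz => ?_⟩
  · obtain ⟨g1, g2, g3⟩ := g.Fb hz
    exact ⟨g1.trans hx, g2.trans hx, g3.trans hx⟩
  · obtain ⟨y, -, g2, g3⟩ := g.s z hz
    exact (g2.trans_lt g3).trans hx

theorem scode_spec (hη : Inac η) (hb : Bdd η (stem μ r)) :
    C.scode μ r < η ∧ C.dec (C.scode μ r) = stem μ r := by
  obtain ⟨ξ, h1, h2⟩ := C.hdec η _ hη hb
  have h3 : ξ ∈ {ξ | C.dec ξ = stem μ r} := h2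
  exact ⟨lt_of_le_of_lt (csInf_le' h3) h1, csInf_mem (s := {ξ | C.dec ξ = stem μ r}) ⟨ξ, h3⟩⟩

/-- The stem of an extension can be reached without changing the data at `μ`. -/
theorem gl_leT (h : C.Le r p) (hμ : Spec p μ) : C.LeT μ (gl μ r p) p := by
  have hm := spec_mem h.1 hμ
  have hsp : ∀ a, C.Le a p → Spec a μ := fun a ha => (le_spec_iff ha hm).2 hμ
  have hval : ∀ a, C.Le a p → C.Valid (gl μ a p) := fun a ha =>
    gl_valid (le_valid ha) h.1 (hsp a ha) hμ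
  refine ⟨?_, gl_agree μ r p, (hval r h).bel μ ((rb2_c_ge le_rfl).2 hm)⟩
  refine rb2_ind (P := fun a => C.Le (gl μ a p) p) h ?_ ?_ ?_
  · rw [gl_self]
    exact le_refl' h.1
  · intro a e ha hv he ih hd
    exact le_trans' (le_of_dle (le_valid ih) (hval e (le_trans' (le_of_dle hv he hd) ha))
      (RB4_gl_dle hd (le_c ha hm) (hsp a ha) hμ)) ih
  · intro a e ν ha hv he ih hi
    rcases lt_trichotomy ν μ with h1 | rfl | h1
    · exact le_trans' (le_of_ins (le_valid ih) (RB4_gl_Ins hv hi h1)) ih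
    · have hve := hval e (le_trans' (le_of_ins hv hi) ha)
      have hmi := RB3_ins_mix (p := p) hv hi le_rfl
      obtain ⟨Lp, hp⟩ := hμ
      obtain ⟨L, ξ, g1, g2, g3, rfl⟩ := hi
      obtain ⟨L', e1, e2, e3, -⟩ := le_l1 ha hp
      obtain rfl : L = L' := Option.some.inj (g1.symm.trans e1)
      have g4 := (fp_mem g3.blk.v).1
      have g5 : C.Insb (gl ν a p) ν (C.dec ξ) := by
        refine ⟨g3.blk, fun x hx hxν => g3.lt x ((rb2_c_lt hxν).1 hx) hxν, fun x hx i v hv => ?_⟩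
        change (i, v) ∈ (mix ν a p).h x at hv
        rw [rb2_h_lt (hx.trans (rb2_bdd g3.blk.bdd g4))] at hv
        exact g3.bel x hx i v hv
      have hI : C.Ins (ins (gl ν a p) ν (C.dec ξ) (sec Lp.F ξ)) (gl ν a p) ν :=
        ⟨_, ξ, gl_l g1 hp, e2 g2, g5, rfl⟩
      rw [RB4_gl_ins le_rfl (fun x hx => rb2_bdd g3.blk.bdd hx) g4 g3.blk.v.h0] at hve ⊢
      exact le_trans' (le_of_dle (ins_valid' (le_valid ih) hI) hve (RB4_dle_ins (e3 ξ g2)))
        (le_trans' (le_of_ins (le_valid ih) hI) ih)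
    · have hag := RB3_ins_agLo hv hi (le_c ha hm) h1
      rw [RB4_gl_congr hag.1 (by rw [sAt, sAt, hag.2]) hμ]
      exact ih

theorem gl_ds (h : C.DS μ t u' u) (hu : Spec u μ) (ht : μ ≤ t) (hr : C.Valid r) (hμ : Spec r μ) :
    C.DS μ t (gl μ r u') (gl μ r u) := by
  obtain ⟨Lu, hu⟩ := hu
  obtain ⟨L', e1, e2, e3, -⟩ := h.d.l1 μ Lu hu
  refine ⟨gl_valid hr h.v hμ ⟨L', e1⟩, ?_,
    RB4_agS_trans (gl_agS _ _ _) (RB4_agS_symm (gl_agS _ _ _)),
    (((gl_agree _ _ _).mono ht).trans h.ag).trans ((gl_agree _ _ _).mono ht).symm,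
    RB3_below_right h.bel ht hr (spec_mem hr hμ)⟩
  obtain ⟨L, hL⟩ := hμ
  refine RB4_dle_setL (RB3_dle_right h.d) ((rb2_l_le le_rfl).trans hL)
    ((rb2_l_le le_rfl).trans hL) ?_ ?_ rfl
  · simpa only [hu, e1, Option.getD_some] using e2
  · simpa only [hu, e1, Option.getD_some] using e3

theorem gl_leS (h : C.LeS μ r' r) (hμ : Spec r μ) (hv : C.Valid v) (hv' : Spec v μ) :
    C.LeS μ (gl μ r' v) (gl μ r v) := by
  have hr := h.1.le.1
  have hm := spec_mem hr hμ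
  have hsc := scope_of_mem hr hm
  have hsp : ∀ a, C.Le a r → Spec a μ := fun a ha => (le_spec_iff ha hm).2 hμ
  have hval : ∀ a, C.Le a r → C.Valid (gl μ a v) := fun a ha =>
    gl_valid (le_valid ha) hv (hsp a ha) hv'
  refine ⟨⟨?_, (gl_agree _ _ _).trans (gl_agree _ _ _).symm,
    (hval r' h.1.le).bel μ ((rb2_c_ge le_rfl).2 (spec_mem hv hv'))⟩,
    by rw [gl_sAt, gl_sAt, h.2]⟩
  have hp := (leS_iff hsc).1 h
  clear h
  induction hp with
  | refl => exact le_refl' (hval r (le_refl' hr))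
  | @tail a e h1 h2 ih =>
    have ha := ((leS_iff hsc).2 h1).1.le
    have he := ((leS_iff hsc).2 (h1.tail h2)).1.le
    rcases h2.2.2.2 with hd | ⟨ν, hν, hi⟩
    · exact le_trans' (le_of_dle (le_valid ih) (hval e he)
        (RB4_gl_dle hd (le_c ha hm) (hsp a ha) hv')) ih
    · exact le_trans' (le_of_ins (le_valid ih) (RB4_gl_Ins (le_valid ha) hi hν)) ih

theorem cutA_ds (hu : C.Scope t u) (hμ : Spec u μ) (ht : μ ≤ t) (hm : m < μ) :
    C.DS μ t (C.cutA μ m u) u := by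
  refine ⟨RB4_cutA_valid hu.v hm, ?_, RB4_setL_agS _ _ _, (RB4_setL_agree _ _ _).mono ht, hu.bel⟩
  obtain ⟨L, hL⟩ := hμ
  have := RB4_dle_setL (f := id)
    (g := fun L => ⟨L.A ∩ {ξ | m < fp (C.dec ξ)}, L.F, L.s⟩) (Dle.refl u) hL hL
    inter_subset_left (fun _ _ => subset_rfl) rfl
  rwa [RB4_setL_id] at this

theorem cutA_mono {m' : Od} (hu : C.Scope t u) (hμ : Spec u μ) (ht : μ ≤ t) (hm : m ≤ m')
    (hm' : m' < μ) : C.DS μ t (C.cutA μ m' u) (C.cutA μ m u) := by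
  refine ⟨RB4_cutA_valid hu.v hm', ?_,
    RB4_agS_trans (RB4_setL_agS _ _ _) (RB4_agS_symm (RB4_setL_agS _ _ _)),
    ((RB4_setL_agree _ _ _).trans (RB4_setL_agree _ _ _).symm).mono ht, hu.bel⟩
  obtain ⟨L, hL⟩ := hμ
  exact RB4_dle_setL (Dle.refl u) hL hL (fun ξ hξ => ⟨hξ.1, lt_of_le_of_lt hm hξ.2⟩)
    (fun _ _ => subset_rfl) rfl

theorem cutA_ds_cutA (h : C.DS μ t u' u) (hμ : Spec u μ) (ht : μ ≤ t) (hm : m < μ) :
    C.DS μ t (C.cutA μ m u') (C.cutA μ m u) := by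
  exact ⟨RB4_cutA_valid h.v hm, RB4_cutA_dle h.d hμ,
    RB4_agS_trans (RB4_setL_agS _ _ _) (RB4_agS_trans h.lo (RB4_agS_symm (RB4_setL_agS _ _ _))),
    (((RB4_setL_agree _ _ _).mono ht).trans h.ag).trans ((RB4_setL_agree _ _ _).mono ht).symm,
    h.bel⟩

theorem cut_gl_ds (h : C.LeT t r u) (hd : DirA μ r u) (hμ : Spec u μ) (ht : μ ≤ t) (hm : m < μ) :
    C.DS μ t (C.cutA μ m r) (gl μ r (C.cutA μ m u)) := by
  have hag : Agree μ (C.cutA μ m u) u := RB4_setL_agree _ _ _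
  refine ⟨RB4_cutA_valid (le_valid h.le) hm, ?_,
    RB4_agS_trans (RB4_setL_agS _ _ _) (RB4_agS_symm (gl_agS _ _ _)),
    (((RB4_setL_agree _ _ _).mono ht).trans h.ag).trans
      (((gl_agree _ _ _).trans hag).mono ht).symm, h.bel⟩
  obtain ⟨Lu, hu⟩ := hμ
  obtain ⟨L, e1, e2, e3, -⟩ := le_l1 h.le hu
  have h1 := RB3_dle_right (β := μ) (w := r) hd
  rw [mix_mix_right, mix_self, ← mix_congr (q := r) ⟨RB4_agS_refl μ r, rfl⟩ hag] at h1
  refine RB4_dle_setL h1 ((rb2_l_le le_rfl).trans e1) e1 ?_ ?_ rfl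
  · simp only [RB4_cutA_l C.toDat hu, Option.getD_some]
    exact inter_subset_inter_left _ e2
  · simp only [RB4_cutA_l C.toDat hu, Option.getD_some]
    exact fun ξ hξ => e3 ξ hξ.1

theorem cut_wit (h : C.LeT t r u) (hd : DirA μ r u) (hμ : Spec u μ) (ht : μ ≤ t) (hm : m < μ) :
    ∃ u', C.DS μ t u' (C.cutA μ m u) ∧ gl μ r u' = C.cutA μ m r := by
  have hr := le_valid h.le
  have hu := h.le.1
  have hμr : Spec r μ := (le_spec_iff h.le (spec_mem hu hμ)).2 hμ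
  have hc : Spec (C.cutA μ m r) μ := spec_cutA C.toDat hμr
  have hag : Agree μ (C.cutA μ m r) r := RB4_setL_agree _ _ _
  refine ⟨gl μ u (C.cutA μ m r), ⟨gl_valid hu (RB4_cutA_valid hr hm) hμ hc, ?_,
    RB4_agS_trans (gl_agS _ _ _) (RB4_agS_symm (RB4_setL_agS _ _ _)),
    ((((gl_agree _ _ _).trans hag).mono ht).trans h.ag).trans
      ((RB4_setL_agree _ _ _).mono ht).symm,
    RB3_below_right (r := C.cutA μ m r) h.bel ht hu (spec_mem hu hμ)⟩, ?_⟩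
  · obtain ⟨Lu, hLu⟩ := hμ
    obtain ⟨L, e1, e2, e3, -⟩ := le_l1 h.le hLu
    have h1 : Dle (mix μ u (C.cutA μ m r)) u := by
      rw [mix_congr (q' := u) ⟨RB4_agS_refl μ u, rfl⟩ hag]
      exact hd
    refine RB4_dle_setL h1 hLu ((rb2_l_le le_rfl).trans hLu) ?_ ?_ rfl
    · simp only [RB4_cutA_l C.toDat e1, Option.getD_some]
      exact inter_subset_inter_left _ e2
    · simp only [RB4_cutA_l C.toDat e1, Option.getD_some]
      exact fun ξ hξ => e3 ξ hξ.1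
  · rw [gl_gl_right r hμ hc, RB4_gl_congr (r' := C.cutA μ m r) (RB4_agS_symm (RB4_setL_agS _ _ _))
      (RB4_cutA_sAt C.toDat μ m r).symm hc, gl_self]

theorem cut_path (h : C.LeT μ w' w) (hμ : Spec w μ) (hm : m < μ)
    (hb : ∀ η, Inac η → Bdd η (stem μ w) → m < η) :
    C.LeT μ (C.cutA μ m w') (C.cutA μ m w) := by
  have hw := h.le.1
  have hmem := spec_mem hw hμ
  have hsc := scope_of_mem hw hmem
  have hsp : ∀ a, C.Le a w → Spec a μ := fun a ha => (le_spec_iff ha hmem).2 hμ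
  refine ⟨?_, ((RB4_setL_agree _ _ _).trans h.ag).trans (RB4_setL_agree _ _ _).symm, h.bel⟩
  have hp := (leT_iff hsc).1 h
  clear h
  induction hp with
  | refl => exact le_refl' (RB4_cutA_valid hw hm)
  | @tail a e h1 h2 ih =>
    have ha := ((leT_iff hsc).2 h1).le
    rcases h2.2.2.2 with hd | ⟨ν, hν, hi⟩
    · exact le_trans' (le_of_dle (le_valid ih) (RB4_cutA_valid h2.1 hm)
        (RB4_cutA_dle hd (hsp a ha))) ih
    · refine le_trans' (le_of_ins (μ := ν) (le_valid ih) ?_) ih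
      rcases lt_or_eq_of_le hν with h3 | rfl
      · exact RB4_setL_Ins hi h3 fun _ _ => rfl
      · obtain ⟨L, ξ, g1, g2, g3, rfl⟩ := hi
        have g4 : m < fp (C.dec ξ) := hb _ g3.blk.inac
          (stem_bdd_mono ha hμ (stem_bdd_insb (le_valid ha) (hsp a ha) g3))
        have g5 : ν ∉ (C.dec ξ).c := fun h' => lt_irrefl _ (rb2_bdd g3.blk.bdd h')
        exact ⟨_, ξ, RB4_cutA_l C.toDat g1, ⟨g2, g4⟩, ⟨g3.blk, g3.lt, g3.bel⟩,
          RB4_setL_ins g5 g5 fun _ _ => rfl⟩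

theorem first_ins (h : C.LeT μ w' w) (hμ : Spec w μ) (hs : sAt μ w' ≠ sAt μ w) :
    ∃ w₀ w₁, C.LeS μ w₀ w ∧ C.Ins w₁ w₀ μ ∧ C.LeT μ w' w₁ := by
  have hw := h.le.1
  have hsc := scope_of_mem hw (spec_mem hw hμ)
  have key : C.LeS μ w' w ∨ ∃ w₀ w₁, C.LeS μ w₀ w ∧ C.Ins w₁ w₀ μ ∧ C.LeT μ w' w₁ := by
    have hp := (leT_iff hsc).1 h
    clear h hs
    induction hp with
    | refl => exact Or.inl (leS_refl hsc)
    | @tail a e h1 h2 ih =>
      rcases ih with ih | ⟨w₀, w₁, g1, g2, g3⟩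
      · have hl : ∀ h3 : Dle e a ∨ ∃ ν, ν < μ ∧ C.Ins e a ν, C.LeS μ e w := fun h3 =>
          (leS_iff hsc).2 (((leS_iff hsc).1 ih).tail ⟨h2.1, h2.2.1, h2.2.2.1, h3⟩)
        rcases h2.2.2.2 with hd | ⟨ν, hν, hi⟩
        · exact Or.inl (hl (Or.inl hd))
        · rcases lt_or_eq_of_le hν with h3 | rfl
          · exact Or.inl (hl (Or.inr ⟨ν, h3, hi⟩))
          · exact Or.inr ⟨a, e, ih, hi,
              leT_refl (leT_scope hsc ((leT_iff hsc).2 (h1.tail h2)))⟩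
      · exact Or.inr ⟨w₀, w₁, g1, g2, leT_trans (RB3_stepT_leT (le_valid g3.le) h2) g3⟩
  exact key.resolve_left fun h' => hs h'.2

end Ctx

end Pool.Agent.MP_85ce7b_lc

end

section

namespace Pool.Agent.MP_85ce7b_lc

open Set Cardinal Ordinal Dat

/-- A possible first collapse for the block `b`. -/
def Dat.Fst (D : Dat) (b : Raw) (f : Set (Od × Od)) : Prop :=
  D.Col (fp b) f ∧ ∀ i v, (i, v) ∈ f → v < (D.B (fp b + 1)).ord

/-- Collapses on the interval `[a, e)`. -/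
def Dat.IntC (D : Dat) (a e : Od) (w : Od → Set (Od × Od)) : Prop :=
  ∀ x, D.Col x (w x) ∧ ∀ i v, (i, v) ∈ w x → a ≤ x ∧ x < e ∧ v < (D.B (x + 1)).ord

section RB5aAux

variable {p q r u b : Raw} {β μ x y : Od} {f f' : Set (Od × Od)}

theorem r5a_setH_self : (setH x f b).h x = f := by
  simp [setH]

theorem r5a_setH_ne (h : y ≠ x) : (setH x f b).h y = b.h y := by
  simp [setH, Function.update_of_ne h]

theorem r5a_setL_self {g : Lo → Lo} : (setL μ g r).l μ = (r.l μ).map g := by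
  simp [setL]

theorem r5a_setL_ne {g : Lo → Lo} (h : x ≠ μ) : (setL μ g r).l x = r.l x := by
  simp [setL, Function.update_of_ne h]

theorem r5a_res_c : x ∈ (res μ r).c ↔ x ∈ r.c ∧ x < μ := Iff.rfl

theorem r5a_res_h_lt (h : x < μ) : (res μ r).h x = r.h x := by
  simp [res, h]

theorem r5a_res_h_ge (h : μ ≤ x) : (res μ r).h x = ∅ := by
  simp [res, not_lt.2 h]

theorem r5a_res_l_lt (h : x < μ) : (res μ r).l x = r.l x := by
  simp [res, h]

theorem r5a_res_l_ge (h : μ ≤ x) : (res μ r).l x = none := by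
  simp [res, not_lt.2 h]

theorem r5a_ins_l_f : (ins p μ b f).l x = (ins p μ b f').l x := rfl

theorem r5a_sAt_ins (hx : μ ∉ b.c) :
    sAt μ (ins p μ b f) = (sAt μ p).map (insert (fp b)) := by
  rw [sAt, rb2_ins_l_self hx, sAt, Option.map_map, Option.map_map]
  rfl

theorem r5a_res_dle (h : Dle u q) : Dle (res μ u) (res μ q) := by
  refine ⟨fun x hx => ⟨h.c hx.1, hx.2⟩, fun x hx hn y hy => ?_, fun x => ?_, fun x hx hl => ?_,
    fun x L hl => ?_⟩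
  · exact h.new x hx.1 (fun h' => hn ⟨h', hx.2⟩) y hy.1
  · rcases lt_or_ge x μ with h1 | h1
    · rw [r5a_res_h_lt h1, r5a_res_h_lt h1]
      exact h.h x
    · rw [r5a_res_h_ge h1, r5a_res_h_ge h1]
  · rw [r5a_res_l_lt hx.2] at hl ⊢
    exact h.l0 x hx.1 hl
  · rcases lt_or_ge x μ with h1 | h1
    · rw [r5a_res_l_lt h1] at hl ⊢
      exact h.l1 x L hl
    · rw [r5a_res_l_ge h1] at hl
      cases hl

theorem r5a_setH_mono (h : f ⊆ f') (y : Od) : (setH x f b).h y ⊆ (setH x f' b).h y := by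
  by_cases hy : y = x
  · rw [hy, r5a_setH_self, r5a_setH_self]
    exact h
  · rw [r5a_setH_ne hy, r5a_setH_ne hy]

theorem r5a_agS_symm (h : AgS β q p) : AgS β p q :=
  fun x hx => ⟨(h x hx).1.symm, (h x hx).2.1.symm, (h x hx).2.2.symm⟩

theorem r5a_agS_trans (h : AgS β r q) (h' : AgS β q p) : AgS β r p :=
  fun x hx => ⟨(h x hx).1.trans (h' x hx).1, (h x hx).2.1.trans (h' x hx).2.1,
    (h x hx).2.2.trans (h' x hx).2.2⟩

end RB5aAux

namespace Ctx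

variable {C : Ctx} {p q r r' u w b b' : Raw} {t β δ μ η a e x : Od} {f f₀ : Set (Od × Od)}

theorem r5a_col_sub (h : C.Col x f₀) (hs : f ⊆ f₀) : C.Col x f :=
  ⟨fun i v v' h1 h2 => h.fn i v v' (hs h1) (hs h2), fun i v h1 => h.dom i v (hs h1),
    (Cardinal.mk_le_mk_of_subset hs).trans h.card⟩

theorem r5a_setH_valid (hr : C.Valid r) (hx : x ∈ r.c) (hf : C.Col x f)
    (hv : ∀ i v, (i, v) ∈ f → (∀ y ∈ r.c, x < y → v < (C.B y).ord) ∧
      (x = C.s → v < ((2 : Cardinal.{1}) ^ C.B C.s).ord)) : C.Valid (setH x f r) := by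
  refine ⟨hr.ne, hr.bd, hr.cl, fun y hy => ?_, hr.l0, fun y => ?_, fun i v h => ?_,
    fun y hy z hz i v h => ?_, hr.lim, fun y h1 h2 => ⟨?_, (hr.eas y h1 h2).2⟩, hr.sp⟩
  · rw [r5a_setH_ne (fun h : y = x => hy (h ▸ hx))]
    exact hr.h0 y hy
  · by_cases hy : y = x
    · rw [hy, r5a_setH_self]
      exact hf
    · rw [r5a_setH_ne hy]
      exact hr.col y
  · by_cases hy : C.s = x
    · rw [hy, r5a_setH_self] at h
      exact (hv i v h).2 hy.symm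
    · rw [r5a_setH_ne hy] at h
      exact hr.vs i v h
  · by_cases hz' : z = x
    · rw [hz', r5a_setH_self] at h
      exact (hv i v h).1 y hy (hz' ▸ hz)
    · rw [r5a_setH_ne hz'] at h
      exact hr.bel y hy z hz i v h
  · obtain ⟨y0, hy0, h3⟩ := (hr.eas y h1 h2).1
    rcases lt_or_ge x y with hxy | hxy
    · refine ⟨max y0 x, max_lt hy0 hxy, fun z hz hz' => ?_⟩
      rw [r5a_setH_ne ((le_max_right _ _).trans_lt hz).ne']
      exact h3 z ((le_max_left _ _).trans_lt hz) hz'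
    · refine ⟨y0, hy0, fun z hz hz' => ?_⟩
      rw [r5a_setH_ne (hz'.trans_le hxy).ne]
      exact h3 z hz hz'

/-- Basic facts on the position of a block. -/
theorem r5a_pos (hr : C.Valid r) (hμ : Spec r μ) (hb : C.Insb r μ b) :
    fp b + 1 < μ ∧ (∀ x ∈ b.c, fp b ≤ x ∧ x < μ) ∧ (∀ x, fp b ≤ x → x < μ → x ∉ r.c) ∧
      fp b ∈ b.c ∧ μ ∉ b.c ∧ (∀ x, x < fp b ∨ μ ≤ x → x ∉ b.c) ∧ fp b < μ := by
  obtain ⟨-, h1, h2⟩ := blk_scope hb.blk (spec_inac hr hμ).1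
  obtain ⟨h3, h4, -⟩ := fp_mem hb.blk.v
  refine ⟨h1, fun x hx => ⟨h4 x hx, h2 hx⟩, fun x hx hx' h => (hb.lt x h hx').not_ge hx, h3,
    fun h => lt_irrefl μ (h2 h), fun x hx h => ?_, (lt_add_one _).trans h1⟩
  rcases hx with hx | hx
  · exact hx.not_ge (h4 x h)
  · exact (h2 h).not_ge hx

/-- Outside the block an insertion changes only the data at `μ`. -/
theorem r5a_out (hr : C.Valid r) (hμ : Spec r μ) (hb : C.Insb r μ b) (hx : x < fp b ∨ μ ≤ x) :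
    (x ∈ (ins r μ b f).c ↔ x ∈ r.c) ∧ (ins r μ b f).h x = r.h x ∧
      (x ≠ μ → (ins r μ b f).l x = r.l x) := by
  obtain ⟨-, -, -, p4, -, p6, -⟩ := r5a_pos hr hμ hb
  have hn := p6 x hx
  refine ⟨by rw [rb2_ins_c, or_iff_left hn], ?_, fun h => rb2_ins_l_nmem h hn⟩
  rw [rb2_ins_h, rb2_setH (fun h : x = fp b => hn (h ▸ p4)), hb.blk.v.h0 x hn, union_empty]

/-- Inside the block an insertion has the data of the block. -/
theorem r5a_in (hr : C.Valid r) (hμ : Spec r μ) (hb : C.Insb r μ b) (hx : fp b ≤ x)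
    (hx' : x < μ) : (x ∈ (ins r μ b f).c ↔ x ∈ b.c) ∧
      (ins r μ b f).h x = (setH (fp b) f b).h x ∧ (ins r μ b f).l x = b.l x := by
  obtain ⟨-, -, p3, -⟩ := r5a_pos hr hμ hb
  have hn := p3 x hx hx'
  refine ⟨by rw [rb2_ins_c, or_iff_right hn], by rw [rb2_ins_h, hr.h0 x hn, empty_union], ?_⟩
  by_cases h : x ∈ b.c
  · exact rb2_ins_l_mem hx'.ne h
  · rw [rb2_ins_l_nmem hx'.ne h, hr.l0 x hn, hb.blk.v.l0 x h]

theorem fst_empty (C : Ctx) (b : Raw) : C.Fst b ∅ := by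
  refine ⟨⟨fun _ _ _ h => h.elim, fun _ _ h => h.elim, ?_⟩, fun _ _ h => h.elim⟩
  rw [Cardinal.mk_eq_zero]
  exact zero_le

theorem blk_dt (hb : C.Blk μ b) (hμ : Inac μ) (h : C.DT (fp b + 1) μ b' b) :
    C.Blk μ b' ∧ fp b' = fp b := by
  obtain ⟨h1, h2, -⟩ := fp_mem hb.v
  obtain ⟨h3, h4, -⟩ := fp_mem h.1.v
  obtain ⟨-, -, h5⟩ := blk_scope hb hμ
  have e : fp b' = fp b := by
    refine le_antisymm (h4 _ (h.1.d.c h1)) ?_
    by_contra hn
    rw [not_le] at hn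
    exact hn.not_ge (h2 _ ((h.1.lo _ (hn.trans (lt_add_one _))).1.1 h3))
  refine ⟨⟨h.1.v, bdd_of_below h.1.v hμ (fun x hx => ?_) h.1.bel, e ▸ hb.inac, e ▸ hb.gt,
    e ▸ h.1.d.c hb.nxt, ?_⟩, e⟩
  · by_contra hn
    exact hn (h5 ((h.1.ag.1 x (not_lt.1 hn)).1.1 hx))
  · rw [e, (h.1.lo _ (lt_add_one _)).2.1, hb.h]

theorem blk_cut {μ' : Od} (hb : C.Blk μ b) (h : Bdd μ' b) : C.Blk μ' b := by
  exact ⟨hb.v, h, hb.inac, hb.gt, hb.nxt, hb.h⟩

/-- Direct extensions of blocks do not depend on the cut. -/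
theorem dt_cut_change {μ' : Od} (h : C.DT β μ b' b) (hb : C.Valid b) (hμ' : Inac μ')
    (h₁ : Bdd μ' b') : C.DT β μ' b' b := by
  obtain ⟨h2, h3⟩ := below_of_bdd (C := C) hμ' h₁
  have n' : ∀ x, μ' ≤ x → x ∉ b'.c := fun x hx h' => (h2 h').not_ge hx
  have n : ∀ x, μ' ≤ x → x ∉ b.c := fun x hx h' => n' x hx (h.1.d.c h')
  refine ⟨⟨h.1.v, h.1.d, h.1.lo, ⟨fun x hx => ⟨⟨fun h' => absurd h' (n' x hx),
    fun h' => absurd h' (n x hx)⟩, ?_⟩, fun x hx => ?_⟩, h3⟩, h.2⟩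
  · rw [h.1.v.h0 x (n' x hx), hb.h0 x (n x hx)]
  · rw [h.1.v.l0 x (n' x hx.le), hb.l0 x (n x hx.le)]

theorem ins_good (hr : C.Valid r) (hμ : Spec r μ) (hb : C.Insb r μ b) :
    Good (ins r μ b f) (fp b + 1) ∧ Spec (ins r μ b f) μ ∧ fp b + 1 < μ := by
  obtain ⟨p1, -, -, -, p5, -⟩ := r5a_pos hr hμ hb
  obtain ⟨L, hL⟩ := hμ
  refine ⟨⟨Or.inr hb.blk.nxt, ?_, _, rfl⟩, ⟨_, by rw [rb2_ins_l_self p5, hL]; rfl⟩, p1⟩
  rw [rb2_ins_l_mem p1.ne hb.blk.nxt]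
  exact (blk_good hb.blk).2.1

theorem stem_ins_congr (hr : C.Valid r) (hr' : C.Valid r') (hμ : Spec r μ)
    (h : stem μ r = stem μ r') (hb : C.Insb r μ b) :
    C.Insb r' μ b ∧ stem μ (ins r μ b f) = stem μ (ins r' μ b f) := by
  obtain ⟨h1, h2⟩ := agS_of_stem hr hr' h
  obtain ⟨-, -, -, -, p5, -, p7⟩ := r5a_pos hr hμ hb
  refine ⟨⟨hb.blk, fun x hx hx' => hb.lt x ((h1 x hx').1.2 hx) hx', fun x hx i v hv => ?_⟩,
    stem_of_agS (fun x hx => ⟨?_, ?_, rb2_ins_l_congr p5 (h1 x hx).2.2⟩) ?_⟩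
  · rw [← (h1 x (hx.trans p7)).2.1] at hv
    exact hb.bel x hx i v hv
  · rw [rb2_ins_c, rb2_ins_c, (h1 x hx).1]
  · rw [rb2_ins_h, rb2_ins_h, (h1 x hx).2.1]
  · rw [r5a_sAt_ins p5, r5a_sAt_ins p5, h2]

theorem ins_leS {w₀ : Raw} (h : C.LeS μ w₀ w) (hμ : Spec w μ) (hb : C.Insb w₀ μ b)
    (hf : C.Fst b f₀) (hs : f ⊆ f₀) :
    C.Insb w μ b ∧ C.LeS μ (ins w₀ μ b f₀) (ins w μ b f) := by
  have hw : C.Valid w := h.1.le.1
  have hw₀ : C.Valid w₀ := le_valid h.1.le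
  have hμc := spec_mem hw hμ
  have hμ₀ : Spec w₀ μ := (le_spec_iff h.1.le hμc).2 hμ
  have hb' : C.Insb w μ b := ⟨hb.blk, fun x hx hx' => hb.lt x (le_c h.1.le hx) hx',
    fun x hx i v hv => hb.bel x hx i v (le_h h.1.le x hv)⟩
  refine ⟨hb', ?_⟩
  obtain ⟨-, p2, -, -, p5, p6, p7⟩ := r5a_pos hw hμ hb'
  have hq : C.Valid (ins w μ b f) :=
    ins_valid hw hμ hb' (r5a_col_sub hf.1 hs) fun i v hv => hf.2 i v (hs hv)
  have hq₀ : C.Valid (ins w₀ μ b f₀) := ins_valid hw₀ hμ₀ hb hf.1 hf.2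
  obtain ⟨m, hm, hmμ, hmax⟩ := spec_max_below hw hμ
  have hmb : m < fp b := hb'.lt m hm hmμ
  have hnew : ∀ x, m ≤ x → x ∈ w₀.c → x ∈ w.c := by
    intro x hx hx₀
    by_contra hn
    rcases lt_or_ge x μ with h1 | h1
    · rcases le_new h.1.le hx₀ hn with h2 | ⟨ν, h2, h3, h4, h5⟩
      · exact h1.not_gt (h2 μ hμc)
      · rcases lt_trichotomy ν μ with h6 | h6 | h6
        · exact (h4.trans_le (hmax ν (spec_mem hw h2) h6)).not_ge hx
        · exact h3 (h6 ▸ h.2)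
        · exact h1.not_gt (h5 μ hμc h6)
    · exact hn ((h.1.ag.1 x h1).1.1 hx₀)
  have h1 := mix_le_left h.1.le hm hq (Or.inl hm)
  have h2 : mix m w (ins w μ b f) = ins w μ b f := by
    refine mix_eq_right ⟨fun x hx => ?_, ?_⟩
    · obtain ⟨a1, a2, a3⟩ := r5a_out (f := f) hw hμ hb' (Or.inl (hx.trans hmb))
      exact ⟨a1.symm, a2.symm, (a3 (hx.trans hmμ).ne).symm⟩
    · exact ((r5a_out (f := f) hw hμ hb' (Or.inl hmb)).2.2 hmμ.ne).symm
  rw [h2] at h1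
  have hl : ∀ x, x ≠ μ → (ins w₀ μ b f₀).l x = (mix m w₀ (ins w μ b f)).l x := by
    intro x hx
    rcases le_or_gt x m with h3 | h3
    · rw [rb2_l_le h3, rb2_ins_l_nmem hx (p6 x (Or.inl (h3.trans_lt hmb)))]
    · rw [rb2_l_gt h3, r5a_ins_l_f (f' := f)]
      refine rb2_ins_l_congr p5 ?_
      rcases lt_or_gt_of_ne hx with h4 | h4
      · have n : x ∉ w.c := fun h' => h3.not_ge (hmax x h' h4)
        rw [hw.l0 x n, hw₀.l0 x fun h' => n (hnew x h3.le h')]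
      · exact h.1.ag.2 x h4
  have hc : ∀ x, x ∈ (ins w₀ μ b f₀).c ↔ x ∈ (mix m w₀ (ins w μ b f)).c := by
    intro x
    rcases lt_or_ge x m with h3 | h3
    · rw [rb2_c_lt h3, rb2_ins_c, or_iff_left (p6 x (Or.inl (h3.trans hmb)))]
    · rw [rb2_c_ge h3, rb2_ins_c, rb2_ins_c]
      exact or_congr ⟨hnew x h3, fun h' => le_c h.1.le h'⟩ Iff.rfl
  have h3 : Dle (ins w₀ μ b f₀) (mix m w₀ (ins w μ b f)) := by
    refine ⟨fun x hx => (hc x).2 hx, fun x hx hn => absurd ((hc x).1 hx) hn, fun x => ?_,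
      fun x _ hl' => ?_, fun x L hL => ?_⟩
    · rcases lt_or_ge x m with h3 | h3
      · rw [rb2_h_lt h3, rb2_ins_h]
        exact subset_union_left
      · rw [rb2_h_ge h3, rb2_ins_h, rb2_ins_h]
        exact union_subset_union (le_h h.1.le x) (r5a_setH_mono hs x)
    · by_cases hx : x = μ
      · obtain ⟨L, hL⟩ := hμ
        rw [hx, rb2_l_gt hmμ, rb2_ins_l_self p5, hL] at hl'
        cases hl'
      · rw [hl x hx, hl']
    · by_cases hx : x = μ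
      · obtain ⟨L₁, hL₁⟩ := hμ
        obtain ⟨L₀, e0, e1, e2, -⟩ := le_l1 h.1.le hL₁
        have e3 : L₀.s = L₁.s := by
          have := h.2
          simpa only [sAt, e0, hL₁, Option.map_some, Option.some.injEq] using this
        rw [hx, rb2_l_gt hmμ, rb2_ins_l_self p5, hL₁] at hL
        obtain rfl := Option.some.inj hL
        refine ⟨⟨L₀.A, L₀.F, insert (fp b) L₀.s⟩, by rw [hx, rb2_ins_l_self p5, e0]; rfl,
          e1, e2, ?_⟩
        rw [e3]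
      · exact ⟨L, by rw [hl x hx, hL], subset_rfl, fun _ _ => subset_rfl, rfl⟩
  refine ⟨⟨le_trans' (le_of_dle (le_valid h1.le) hq₀ h3) h1.le, ⟨fun x hx => ?_, fun x hx => ?_⟩,
    hq₀.bel μ (Or.inl (le_c h.1.le hμc))⟩, ?_⟩
  · obtain ⟨a1, a2, -⟩ := r5a_out (f := f₀) hw₀ hμ₀ hb (Or.inr hx)
    obtain ⟨b1, b2, -⟩ := r5a_out (f := f) hw hμ hb' (Or.inr hx)
    rw [a1, a2, b1, b2]
    exact h.1.ag.1 x hx
  · rw [r5a_ins_l_f (f' := f)]
    exact rb2_ins_l_congr p5 (h.1.ag.2 x hx)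
  · rw [r5a_sAt_ins p5, r5a_sAt_ins p5, h.2]

theorem ins_leT_fst (hr : C.Valid r) (hμ : Spec r μ) (hb : C.Insb r μ b) (hf : C.Fst b f) :
    C.LeT (fp b + 1) (ins r μ b f) (ins r μ b ∅) := by
  have hq : C.Valid (ins r μ b f) := ins_valid hr hμ hb hf.1 hf.2
  have hq₀ : C.Valid (ins r μ b ∅) := ins_valid hr hμ hb (C.fst_empty b).1 (C.fst_empty b).2
  refine ⟨le_of_dle hq₀ hq ⟨subset_rfl, fun x hx hn => absurd hx hn, fun x => ?_, fun x _ hl => hl,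
    fun x L hL => ⟨L, hL, subset_rfl, fun _ _ => subset_rfl, rfl⟩⟩,
    ⟨fun x hx => ⟨Iff.rfl, ?_⟩, fun x _ => rfl⟩, hq.bel _ (Or.inr hb.blk.nxt)⟩
  · rw [rb2_ins_h, rb2_ins_h]
    exact union_subset_union subset_rfl (r5a_setH_mono (empty_subset f) x)
  · have h1 : x ≠ fp b := ((lt_add_one _).trans_le hx).ne'
    rw [rb2_ins_h, rb2_ins_h, rb2_setH h1, rb2_setH h1]

theorem ins_dt (hr : C.Valid r) (hμ : Spec r μ) (hb : C.Insb r μ b) (hf : C.Fst b f)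
    (h : C.DT (fp b + 1) μ b' b) (hc : b'.c = b.c) :
    C.Insb r μ b' ∧ C.DT (fp b + 1) μ (ins r μ b' f) (ins r μ b f) := by
  obtain ⟨h1, e⟩ := blk_dt hb.blk (spec_inac hr hμ).1 h
  have hb' : C.Insb r μ b' := ⟨h1, e ▸ hb.lt, e ▸ hb.bel⟩
  obtain ⟨p1, -, -, -, p5, -⟩ := r5a_pos hr hμ hb
  have p5' : μ ∉ b'.c := hc ▸ p5
  have hq : C.Valid (ins r μ b' f) := ins_valid hr hμ hb' (e ▸ hf.1) (e ▸ hf.2)
  have hcc : ∀ x, x ∈ (ins r μ b' f).c ↔ x ∈ (ins r μ b f).c := fun x => by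
    rw [rb2_ins_c, rb2_ins_c, hc]
  have hl : ∀ x, b'.l x = b.l x ∨ x ∉ b.c → (ins r μ b' f).l x = (ins r μ b f).l x := by
    intro x hx
    by_cases h2 : x = μ
    · rw [h2, rb2_ins_l_self p5, rb2_ins_l_self p5', e]
    · by_cases h3 : x ∈ b.c
      · rw [rb2_ins_l_mem h2 h3, rb2_ins_l_mem h2 (hc ▸ h3)]
        exact hx.resolve_right (not_not.2 h3)
      · rw [rb2_ins_l_nmem h2 h3, rb2_ins_l_nmem h2 (hc ▸ h3)]
  have hh : ∀ x, b'.h x = b.h x → (ins r μ b' f).h x = (ins r μ b f).h x := by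
    intro x hx
    rw [rb2_ins_h, rb2_ins_h, e]
    by_cases h2 : x = fp b
    · rw [h2, r5a_setH_self, r5a_setH_self]
    · rw [r5a_setH_ne h2, r5a_setH_ne h2, hx]
  refine ⟨hb', ⟨hq, ⟨fun x hx => (hcc x).2 hx, fun x hx hn => absurd ((hcc x).1 hx) hn,
    fun x => ?_, fun x _ hl' => ?_, fun x L hL => ?_⟩,
    fun x hx => ⟨hcc x, hh x (h.1.lo x hx).2.1, hl x (Or.inl (h.1.lo x hx).2.2)⟩,
    ⟨fun x hx => ⟨hcc x, hh x (h.1.ag.1 x hx).2⟩, fun x hx => hl x (Or.inl (h.1.ag.2 x hx))⟩,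
    hq.bel μ (Or.inl (spec_mem hr hμ))⟩, hl _ (Or.inl h.2)⟩
  · rw [rb2_ins_h, rb2_ins_h, e]
    refine union_subset_union subset_rfl ?_
    by_cases h2 : x = fp b
    · rw [h2, r5a_setH_self, r5a_setH_self]
    · rw [r5a_setH_ne h2, r5a_setH_ne h2]
      exact h.1.d.h x
  · by_cases h3 : x ∈ b.c
    · have h2 : x ≠ μ := fun h' => p5 (h' ▸ h3)
      rw [rb2_ins_l_mem h2 h3] at hl'
      rw [rb2_ins_l_mem h2 (hc ▸ h3)]
      exact h.1.d.l0 x h3 hl'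
    · rw [hl x (Or.inr h3), hl']
  · by_cases h3 : x ∈ b.c
    · have h2 : x ≠ μ := fun h' => p5 (h' ▸ h3)
      rw [rb2_ins_l_mem h2 h3] at hL
      rw [rb2_ins_l_mem h2 (hc ▸ h3)]
      exact h.1.d.l1 x L hL
    · exact ⟨L, by rw [hl x (Or.inr h3), hL], subset_rfl, fun _ _ => subset_rfl, rfl⟩

theorem ins_up (hr : C.Valid r) (hμ : Spec r μ) (hb : C.Insb r μ b)
    (h : C.DT (fp b + 1) μ u (ins r μ b ∅)) :
    ∃ b', C.DT (fp b + 1) μ b' b ∧ b'.c = b.c ∧ stem μ u = stem μ (ins r μ b' ∅) := by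
  obtain ⟨p1, p2, p3, -, p5, p6, -⟩ := r5a_pos hr hμ hb
  have hq : C.Valid (ins r μ b ∅) := ins_valid hr hμ hb (C.fst_empty b).1 (C.fst_empty b).2
  have hμq : μ ∈ (ins r μ b ∅).c := Or.inl (spec_mem hr hμ)
  have huc : u.c = (ins r μ b ∅).c := ds_c_eq h.1 hμq
  have hμu : Spec u μ :=
    (le_spec_iff (le_of_dle hq h.1.v h.1.d) hμq).2 (ins_good hr hμ hb).2.1
  obtain ⟨s1, -, -⟩ := res_scope h.1.v hμu
  have h1 : C.DT (fp b + 1) μ (res μ u) (res μ (ins r μ b ∅)) := by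
    refine ⟨⟨s1.v, r5a_res_dle h.1.d, fun x hx => ?_, ⟨fun x hx => ⟨?_, ?_⟩, fun x hx => ?_⟩,
      s1.bel⟩, ?_⟩
    · have hx' := hx.trans p1
      rw [r5a_res_c, r5a_res_c, r5a_res_h_lt hx', r5a_res_h_lt hx', r5a_res_l_lt hx',
        r5a_res_l_lt hx', huc]
      exact ⟨Iff.rfl, (h.1.lo x hx).2⟩
    · rw [r5a_res_c, r5a_res_c, huc]
    · rw [r5a_res_h_ge hx, r5a_res_h_ge hx]
    · rw [r5a_res_l_ge hx.le, r5a_res_l_ge hx.le]
    · rw [r5a_res_l_lt p1, r5a_res_l_lt p1, h.2]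
  have h2 := mix_dt h1 ⟨Or.inr hb.blk.nxt, p1⟩ p1.le hb.blk.v hb.blk.nxt
  have h3 : mix (fp b + 1) b (res μ (ins r μ b ∅)) = b := by
    refine mix_eq_left ⟨fun x hx => ?_, fun x hx => ?_⟩
    · have hx0 : fp b < x := (lt_add_one _).trans_le hx
      rcases lt_or_ge x μ with h4 | h4
      · obtain ⟨a1, a2, -⟩ := r5a_in (f := ∅) hr hμ hb hx0.le h4
        rw [r5a_res_c, r5a_res_h_lt h4, a1, a2, r5a_setH_ne hx0.ne', and_iff_left h4]
        exact ⟨Iff.rfl, rfl⟩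
      · have n := p6 x (Or.inr h4)
        rw [r5a_res_h_ge h4, hb.blk.v.h0 x n]
        exact ⟨⟨fun h' => absurd h' n, fun h' => absurd h'.2 (not_lt.2 h4)⟩, rfl⟩
    · have hx0 : fp b < x := (lt_add_one _).trans hx
      rcases lt_or_ge x μ with h4 | h4
      · rw [r5a_res_l_lt h4, (r5a_in (f := ∅) hr hμ hb hx0.le h4).2.2]
      · rw [r5a_res_l_ge h4, hb.blk.v.l0 x (p6 x (Or.inr h4))]
  rw [h3] at h2
  have h4 : (mix (fp b + 1) b (res μ u)).c = b.c := by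
    ext x
    rcases lt_or_ge x (fp b + 1) with h5 | h5
    · rw [rb2_c_lt h5]
    · rw [rb2_c_ge h5, r5a_res_c, huc, rb2_ins_c]
      exact ⟨fun h' => h'.1.resolve_left (p3 x ((lt_add_one _).le.trans h5) h'.2),
        fun h' => ⟨Or.inr h', (p2 x h').2⟩⟩
  obtain ⟨hb', h5⟩ := ins_dt hr hμ hb (C.fst_empty b) h2 h4
  have e := (blk_dt hb.blk (spec_inac hr hμ).1 h2).2
  refine ⟨_, h2, h4, stem_of_agS (fun x hx => ?_) ?_⟩
  · rcases lt_or_ge x (fp b + 1) with h6 | h6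
    · exact r5a_agS_trans h.1.lo (r5a_agS_symm h5.1.lo) x h6
    · have hx0 : fp b < x := (lt_add_one _).trans_le h6
      obtain ⟨a1, a2, a3⟩ := r5a_in (f := ∅) hr hμ hb' (e.trans_le hx0.le) hx
      refine ⟨?_, ?_, ?_⟩
      · rw [a1, rb2_c_ge h6, r5a_res_c, and_iff_left hx]
      · rw [a2, r5a_setH_ne (e.trans_lt hx0).ne', rb2_h_ge h6, r5a_res_h_lt hx]
      · rcases h6.lt_or_eq with h7 | h7
        · rw [a3, rb2_l_gt h7, r5a_res_l_lt hx]
        · rw [← h7, h.2, h5.2]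
  · rw [h.1.d.sAt_eq hμq, h5.1.d.sAt_eq hμq]

theorem ins_low (hr : C.Valid r) (hμ : Spec r μ) (hb : C.Insb r μ b) (hf : C.Fst b f)
    (h : C.LeT (fp b + 1) w (ins r μ b f)) :
    ∃ r', C.LeS μ r' r ∧ r'.l μ = r.l μ ∧ C.Insb r' μ b ∧ res μ r' = res (fp b) w ∧
      Bdd (fp b) (res μ r') ∧ C.Fst b (w.h (fp b)) ∧ f ⊆ w.h (fp b) ∧
      w = ins r' μ b (w.h (fp b)) := by
  have _ := hf
  obtain ⟨p1, p2, p3, p4, p5, p6, p7⟩ := r5a_pos hr hμ hb
  have hw : C.Valid w := le_valid h.le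
  have hμc := spec_mem hr hμ
  obtain ⟨m, hm, hmμ, hmax⟩ := spec_max_below hr hμ
  have hmb : m < fp b := hb.lt m hm hmμ
  have hadj : Adj (ins r μ b f) m (fp b) := by
    refine ⟨Or.inl hm, Or.inr p4, hmb, fun z hz hz' => ?_, ?_⟩
    · rcases hz with hz | hz
      · by_contra hn
        rw [not_le] at hn
        exact hz'.not_ge (hmax z hz (hn.trans p7))
      · exact (p2 z hz).1
    · rw [rb2_ins_l_mem p7.ne p4]
      exact (fp_mem hb.blk.v).2.2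
  obtain ⟨a1, a2, -, a4, a5⟩ := le_adj h.le hadj
  have hgood := le_good h.le (ins_good (f := f) hr hμ hb).1
  have hv2 : C.Valid (setH m (w.h m) r) := by
    refine r5a_setH_valid hr hm (hw.col m) fun i v hv => ⟨fun y hy hy' => ?_, fun e => ?_⟩
    · refine (hw.bel _ a2 m hmb i v hv).trans_le (C.RB3_ord_mono (p7.le.trans ?_))
      by_contra hn
      rw [not_le] at hn
      exact hy'.not_ge (hmax y hy hn)
    · exact hw.vs i v (e ▸ hv)
  have hd2 : Dle (setH m (w.h m) r) r := by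
    refine ⟨subset_rfl, fun x hx hn => absurd hx hn, fun x => ?_, fun x _ hl => hl,
      fun x L hL => ⟨L, hL, subset_rfl, fun _ _ => subset_rfl, rfl⟩⟩
    by_cases hx : x = m
    · rw [hx, r5a_setH_self, ← (r5a_out (f := f) hr hμ hb (Or.inl hmb)).2.1]
      exact le_h h.le m
    · rw [r5a_setH_ne hx]
  have h1 := mix_le_left h.le (Or.inl hm) hv2 hm
  have h2 : mix m (ins r μ b f) (setH m (w.h m) r) = setH m (w.h m) r := by
    refine mix_eq_right ⟨fun x hx => ?_, ?_⟩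
    · obtain ⟨b1, b2, b3⟩ := r5a_out (f := f) hr hμ hb (Or.inl (hx.trans hmb))
      exact ⟨b1, by rw [b2, r5a_setH_ne hx.ne], b3 (hx.trans hmμ).ne⟩
    · exact (r5a_out (f := f) hr hμ hb (Or.inl hmb)).2.2 hmμ.ne
  rw [h2] at h1
  generalize hr' : mix m w (setH m (w.h m) r) = r' at h1
  have hv' : C.Valid r' := le_valid h1.le
  have lo : ∀ x, x ≤ m → (x ∈ r'.c ↔ x ∈ w.c) ∧ r'.h x = w.h x ∧ r'.l x = w.l x := by
    intro x hx
    subst hr'
    refine ⟨?_, ?_, rb2_l_le hx⟩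
    · rcases hx.lt_or_eq with h3 | h3
      · exact rb2_c_lt h3
      · rw [h3, rb2_c_ge le_rfl]
        exact ⟨fun _ => a1, fun _ => hm⟩
    · rcases hx.lt_or_eq with h3 | h3
      · exact rb2_h_lt h3
      · rw [h3, rb2_h_ge le_rfl, r5a_setH_self]
  have hi : ∀ x, m < x → (x ∈ r'.c ↔ x ∈ r.c) ∧ r'.h x = r.h x ∧ r'.l x = r.l x := by
    intro x hx
    subst hr'
    exact ⟨rb2_c_ge hx.le, by rw [rb2_h_ge hx.le, r5a_setH_ne hx.ne'], rb2_l_gt hx⟩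
  have nr : ∀ x, m < x → x < μ → x ∉ r.c := fun x hx hx' h' => hx.not_ge (hmax x h' hx')
  have lo' : AgS (fp b) r' w := by
    intro x hx
    rcases le_or_gt x m with h3 | h3
    · exact lo x h3
    · have n1 := nr x h3 (hx.trans p7)
      have n2 : x ∉ w.c := fun h' => hx.not_ge (a4 x h' h3)
      obtain ⟨b1, b2, b3⟩ := hi x h3
      rw [b1, b2, b3, hr.h0 x n1, hr.l0 x n1, hw.h0 x n2, hw.l0 x n2]
      exact ⟨⟨fun h' => absurd h' n1, fun h' => absurd h' n2⟩, rfl, rfl⟩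
  have hlμ : r'.l μ = r.l μ := (hi μ hmμ).2.2
  have hμ' : Spec r' μ := by
    obtain ⟨L, hL⟩ := hμ
    exact ⟨L, hlμ.trans hL⟩
  have hb' : C.Insb r' μ b := by
    refine ⟨hb.blk, fun x hx hx' => ?_, fun x hx i v hv => ?_⟩
    · rcases le_or_gt x m with h3 | h3
      · exact h3.trans_lt hmb
      · exact absurd ((hi x h3).1.1 hx) (nr x h3 hx')
    · rw [(lo' x hx).2.1] at hv
      exact hw.bel _ a2 x hx i v hv
  have hres : res μ r' = res (fp b) w := by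
    refine Raw.ext (Set.ext fun x => ?_) (funext fun x => ?_) (funext fun x => ?_)
    · rw [r5a_res_c, r5a_res_c]
      exact ⟨fun h' => ⟨(lo' x (hb'.lt x h'.1 h'.2)).1.1 h'.1, hb'.lt x h'.1 h'.2⟩,
        fun h' => ⟨(lo' x h'.2).1.2 h'.1, h'.2.trans p7⟩⟩
    · rcases lt_or_ge x (fp b) with h3 | h3
      · rw [r5a_res_h_lt h3, r5a_res_h_lt (h3.trans p7), (lo' x h3).2.1]
      · rw [r5a_res_h_ge h3]
        rcases lt_or_ge x μ with h4 | h4
        · rw [r5a_res_h_lt h4, (hi x (hmb.trans_le h3)).2.1, hr.h0 x (p3 x h3 h4)]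
        · rw [r5a_res_h_ge h4]
    · rcases lt_or_ge x (fp b) with h3 | h3
      · rw [r5a_res_l_lt h3, r5a_res_l_lt (h3.trans p7), (lo' x h3).2.2]
      · rw [r5a_res_l_ge h3]
        rcases lt_or_ge x μ with h4 | h4
        · rw [r5a_res_l_lt h4, (hi x (hmb.trans_le h3)).2.2, hr.l0 x (p3 x h3 h4)]
        · rw [r5a_res_l_ge h4]
  refine ⟨r', ⟨⟨le_trans' h1.le (le_of_dle hr hv2 hd2),
    ⟨fun x hx => ⟨(hi x (hmμ.trans_le hx)).1, (hi x (hmμ.trans_le hx)).2.1⟩,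
      fun x hx => (hi x (hmμ.trans hx)).2.2⟩, hv'.bel μ ((hi μ hmμ).1.2 hμc)⟩,
    by rw [sAt, sAt, hlμ]⟩, hlμ, hb', hres, ?_,
    ⟨hw.col _, fun i v hv => hw.bel _ hgood.1 _ (lt_add_one _) i v hv⟩, ?_, ?_⟩
  · refine bdd_of_below (res_scope hv' hμ').1.v hb.blk.inac (fun x hx => hb'.lt x hx.1 hx.2)
      fun x hx i v hv => ?_
    rw [r5a_res_h_lt (hx.trans p7)] at hv
    exact hb'.bel x hx i v hv
  · refine Subset.trans ?_ (le_h h.le (fp b))
    rw [rb2_ins_h, r5a_setH_self]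
    exact subset_union_right
  · have key : ∀ x, (x ∈ w.c ↔ x ∈ (ins r' μ b (w.h (fp b))).c) ∧
        w.h x = (ins r' μ b (w.h (fp b))).h x ∧ w.l x = (ins r' μ b (w.h (fp b))).l x := by
      intro x
      rcases lt_trichotomy x (fp b) with h3 | h3 | h3
      · obtain ⟨b1, b2, b3⟩ := r5a_out (f := w.h (fp b)) hv' hμ' hb' (Or.inl h3)
        rw [b1, b2, b3 (h3.trans p7).ne]
        exact r5a_agS_symm lo' x h3
      · obtain ⟨b1, b2, b3⟩ := r5a_in (f := w.h (fp b)) hv' hμ' hb' le_rfl p7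
        rw [h3, b1, b2, b3, r5a_setH_self, a5, (fp_mem hb.blk.v).2.2]
        exact ⟨⟨fun _ => p4, fun _ => a2⟩, rfl, rfl⟩
      · have h4 : fp b + 1 ≤ x := Order.add_one_le_of_lt h3
        obtain ⟨b1, b2, b3⟩ := hi x (hmb.trans h3)
        obtain ⟨c1, c2⟩ := h.ag.1 x h4
        refine ⟨?_, ?_, ?_⟩
        · rw [c1, rb2_ins_c, rb2_ins_c, b1]
        · rw [c2, rb2_ins_h, rb2_ins_h, b2, rb2_setH h3.ne', rb2_setH h3.ne']
        · rcases h4.lt_or_eq with h5 | h5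
          · rw [h.ag.2 x h5, r5a_ins_l_f (f' := w.h (fp b))]
            exact rb2_ins_l_congr p5 b3.symm
          · rw [← h5, hgood.2.1, (ins_good hv' hμ' hb').1.2.1]
    exact Raw.ext (Set.ext fun x => (key x).1) (funext fun x => (key x).2.1)
      (funext fun x => (key x).2.2)

theorem eq_of_res (h₁ : res μ r' = res μ r) (h₂ : r'.l μ = r.l μ) (h₃ : Agree μ r' r) : r' = r := by
  refine eq_of_agLo_agree ⟨r5a_agS_trans (r5a_agS_symm (agS_res μ r')) ?_, h₂⟩ h₃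
  rw [h₁]
  exact agS_res μ r

/-- Replacement of the measure one set and of the constraints at a special point. -/
theorem shrink {L : Lo} (hr : C.Scope t r) (hL : r.l μ = some L) (ht : μ ≤ t) {A : Set Od}
    (hA : A ∈ C.W μ) (hAL : A ⊆ L.A) (φ : Od → Set (Od × Od))
    (hφ : ∀ ξ ∈ A, C.Blk μ (C.dec ξ) ∧ C.Fst (C.dec ξ) (φ ξ) ∧ sec L.F ξ ⊆ φ ξ) :
    ∃ w L', C.DS μ t w r ∧ Agree μ w r ∧ w.l μ = some L' ∧ L'.A = A ∧
      ∀ ξ ∈ A, sec L'.F ξ = φ ξ := by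
  have hv := hr.v
  have hLV := hv.sp μ L hL
  have hin : Inac μ := sp_inac hLV.sp
  let L' : Lo := ⟨A, {z | z.1 ∈ A ∧ z.2 ∈ φ z.1}, L.s⟩
  have hsec : ∀ ξ ∈ A, sec L'.F ξ = φ ξ := fun ξ hξ =>
    Set.ext fun z => ⟨fun h => h.2, fun h => ⟨hξ, h⟩⟩
  have hl : (setL μ (fun _ => L') r).l μ = some L' := by
    rw [r5a_setL_self, hL]
    rfl
  have hn : ∀ x, r.l x = none → (setL μ (fun _ => L') r).l x = none := by
    intro x hx
    have h1 : x ≠ μ := by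
      rintro rfl
      rw [hL] at hx
      cases hx
    rw [r5a_setL_ne h1, hx]
  have hag : Agree μ (setL μ (fun _ => L') r) r :=
    ⟨fun x _ => ⟨Iff.rfl, rfl⟩, fun x hx => r5a_setL_ne hx.ne'⟩
  refine ⟨setL μ (fun _ => L') r, L', ⟨⟨hv.ne, hv.bd, hv.cl, hv.h0,
    fun x hx => hn x (hv.l0 x hx), hv.col, hv.vs, hv.bel, fun x hx => hn x (hv.lim x hx),
    fun x h1 h2 => ⟨?_, (hv.eas x h1 h2).2⟩, fun x L₁ h1 => ?_⟩,
    ⟨subset_rfl, fun x hx hx' => absurd hx hx', fun x => subset_rfl, fun x _ h1 => hn x h1,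
      fun x L₁ h1 => ?_⟩, fun x hx => ⟨Iff.rfl, rfl, r5a_setL_ne hx.ne⟩, hag.mono ht, hr.bel⟩,
    hag, hl, rfl, hsec⟩
  · obtain ⟨y, hy, h3⟩ := (hv.eas x h1 h2).1
    exact ⟨y, hy, fun z hz hz' => ⟨(h3 z hz hz').1, hn z (h3 z hz hz').2⟩⟩
  · by_cases hx : x = μ
    · rw [hx, hl] at h1
      obtain rfl := Option.some.inj h1
      rw [hx]
      refine ⟨hLV.sp, hLV.gt, hLV.pre, hA, hAL.trans hLV.Alt, ?_, fun ξ hξ => ?_, hLV.fin, hLV.s⟩
      · rintro ⟨ξ, i, v⟩ ⟨h2, h3⟩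
        obtain ⟨b1, b2, -⟩ := hφ ξ h2
        have b3 := C.bf.lt_inac hin (blk_scope b1 hin).2.1
        exact ⟨hLV.Alt (hAL h2), ((b2.1.dom i v h3).trans_le (C.dm_le _)).trans b3,
          (b2.2 i v h3).trans b3⟩
      · rw [hsec ξ hξ]
        exact (hφ ξ hξ).2.1
    · rw [r5a_setL_ne hx] at h1
      exact hv.sp x L₁ h1
  · by_cases hx : x = μ
    · rw [hx, hL] at h1
      obtain rfl := Option.some.inj h1
      refine ⟨L', hx ▸ hl, hAL, fun ξ hξ => ?_, rfl⟩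
      rw [hsec ξ hξ]
      exact (hφ ξ hξ).2.2
    · exact ⟨L₁, by rw [r5a_setL_ne hx, h1], subset_rfl, fun _ _ => subset_rfl, rfl⟩

end Ctx

end Pool.Agent.MP_85ce7b_lc

end

section

namespace Pool.Agent.MP_85ce7b_lc

open Set Cardinal Ordinal Dat

section Aux

variable {p q b : Raw} {a e x μ : Od} {f : Set (Od × Od)}

theorem rb5x_cat_c : x ∈ (cat p b).c ↔ x ∈ p.c ∨ x ∈ b.c := Iff.rfl

theorem rb5x_cat_h : (cat p b).h x = p.h x ∪ b.h x := rfl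

theorem rb5x_cat_l_mem (h : x ∈ b.c) : (cat p b).l x = b.l x := if_pos h

theorem rb5x_cat_l_nmem (h : x ∉ b.c) : (cat p b).l x = p.l x := if_neg h

theorem rb5x_setH_self : (setH x f b).h x = f := by
  simp [setH]

theorem rb5x_setH_ne {y : Od} (h : y ≠ x) : (setH x f b).h y = b.h y := by
  simp [setH, h]

theorem rb5x_lim_union {c d : Set Od} (h : LimP (c ∪ d) x) : LimP c x ∨ LimP d x := by
  by_contra hn
  rw [not_or] at hn
  obtain ⟨h1, h2⟩ := hn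
  simp only [LimP, h.1, true_and, not_forall, not_exists, not_and, not_lt] at h1 h2
  obtain ⟨y, hy, h1⟩ := h1
  obtain ⟨y', hy', h2⟩ := h2
  obtain ⟨z, hz, h3, h4⟩ := h.2 (Max.max y y') (max_lt hy hy')
  rw [max_lt_iff] at h3
  rcases hz with hz | hz
  · exact absurd (h1 z hz h3.1) h4.not_ge
  · exact absurd (h2 z hz h3.2) h4.not_ge

theorem rb5x_lim_Icc (h : LimP (Icc a e) x) : a < x ∧ x ≤ e := by
  obtain ⟨z, hz, -, h2⟩ := h.2 0 h.1
  refine ⟨hz.1.trans_lt h2, le_of_not_gt fun h3 => ?_⟩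
  obtain ⟨w, hw, h4, -⟩ := h.2 e h3
  exact absurd hw.2 h4.not_ge

theorem rb5x_succ_not_inac (y : Od) : ¬ Inac (y + 1) := fun h =>
  lt_irrefl _ (h.isSuccLimit.add_one_lt (lt_add_one y))

theorem rb5x_between {y z : Od} (h1 : y < z) (h2 : z ≤ y + 1) : ¬ Inac z := by
  rw [le_antisymm h2 (Order.add_one_le_of_lt h1)]
  exact rb5x_succ_not_inac y

theorem rb5x_fp_itv (h : a ≤ e) : fp (itv a e) = a := csInf_Icc h

theorem rb5x_lv_mono {D : Dat} {c d : Set Od} {L : Lo} (g : D.LV c μ L) (h : c ⊆ d) :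
    D.LV d μ L := by
  refine ⟨g.sp, g.gt, ?_, g.A, g.Alt, g.Fb, g.F, g.fin, fun z hz => ?_⟩
  · obtain ⟨y, g1, g2⟩ := g.pre
    exact ⟨y, h g1, g2⟩
  · obtain ⟨y, g1, g2⟩ := g.s z hz
    exact ⟨y, h g1, g2⟩

theorem rb5x_col_empty (D : Dat) (x : Od) : D.Col x ∅ :=
  ⟨fun _ _ _ h => h.elim, fun _ _ h => h.elim, by simp⟩

theorem rb5x_cat_setH (h : p.h x = ∅) : cat p (setH x f b) = setH x f (cat p b) := by
  refine Raw.ext rfl (funext fun y => ?_) rfl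
  by_cases hy : y = x
  · subst hy
    rw [rb5x_cat_h, rb5x_setH_self, rb5x_setH_self, h, empty_union]
  · rw [rb5x_cat_h, rb5x_setH_ne hy, rb5x_setH_ne hy, rb5x_cat_h]

end Aux

namespace Ctx

variable {C : Ctx} {p q r u b : Raw} {t β μ a e x : Od} {f : Set (Od × Od)}

theorem rb5x_mem_h (hb : C.Valid b) {z : Od × Od} (h : z ∈ b.h x) : x ∈ b.c := by
  by_contra hn
  rw [hb.h0 x hn] at h
  exact h

theorem rb5x_mem_l (hb : C.Valid b) {L : Lo} (h : b.l x = some L) : x ∈ b.c := by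
  by_contra hn
  rw [hb.l0 x hn] at h
  cases h

theorem rb5x_below_mono (h : C.Below a p) (ha : ∀ x ∈ p.c, x < a) (hp : C.Valid p) (ht : a ≤ t) :
    C.Below t p := fun x _ i v hv =>
  (h x (ha x (rb5x_mem_h hp hv)) i v hv).trans_le (C.RB3_ord_mono ht)

theorem rb5x_below_cat (h₁ : C.Below t p) (h₂ : C.Below t b) : C.Below t (cat p b) :=
  fun x hx i v hv => hv.elim (h₁ x hx i v) (h₂ x hx i v)

theorem rb5x_cat_valid (hp : C.Valid p) (hb : C.Valid b) (hlt : ∀ x ∈ p.c, ∀ y ∈ b.c, x < y)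
    (hbel : ∀ y ∈ b.c, C.Below y p) : C.Valid (cat p b) := by
  have hd : ∀ x ∈ p.c, x ∉ b.c := fun x h1 h2 => lt_irrefl _ (hlt x h1 x h2)
  have hh1 : ∀ x, x ∉ p.c → (cat p b).h x = b.h x := fun x hx => by
    rw [rb5x_cat_h, hp.h0 x hx, empty_union]
  have hh2 : ∀ x, x ∉ b.c → (cat p b).h x = p.h x := fun x hx => by
    rw [rb5x_cat_h, hb.h0 x hx, union_empty]
  refine ⟨hp.ne.mono subset_union_left, hp.bd.union hb.bd, fun x hx => ?_, fun x hx => ?_,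
    fun x hx => ?_, fun x => ?_, fun i v hv => hv.elim (hp.vs i v) (hb.vs i v), fun y hy => ?_,
    fun x hx => ?_, fun x hx hi => ?_, fun μ L hl => ?_⟩
  · exact (rb5x_lim_union hx).imp (hp.cl x) (hb.cl x)
  · rw [hh1 x fun h => hx (Or.inl h)]
    exact hb.h0 x fun h => hx (Or.inr h)
  · rw [rb5x_cat_l_nmem fun h => hx (Or.inr h)]
    exact hp.l0 x fun h => hx (Or.inl h)
  · by_cases hx : x ∈ p.c
    · rw [hh2 x (hd x hx)]
      exact hp.col x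
    · rw [hh1 x hx]
      exact hb.col x
  · rcases hy with hy | hy
    · refine rb5x_below_cat (hp.bel y hy) fun x hx i v hv => ?_
      exact absurd (hlt y hy x (rb5x_mem_h hb hv)) hx.not_gt
    · exact rb5x_below_cat (hbel y hy) (hb.bel y hy)
  · rcases rb5x_lim_union hx with h | h
    · rw [rb5x_cat_l_nmem (hd x (hp.cl x h))]
      exact hp.lim x h
    · rw [rb5x_cat_l_mem (hb.cl x h)]
      exact hb.lim x h
  · rcases rb5x_lim_union hx with h | h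
    · obtain ⟨⟨y, g1, g2⟩, g3⟩ := hp.eas x h hi
      refine ⟨⟨y, g1, fun z hy hz => ?_⟩, g3⟩
      have hzb : z ∉ b.c := fun h' => (hlt x (hp.cl x h) z h').not_gt hz
      rw [hh2 z hzb, rb5x_cat_l_nmem hzb]
      exact g2 z hy hz
    · obtain ⟨⟨y, g1, g2⟩, g3⟩ := hb.eas x h hi
      obtain ⟨w, hw, -, hwx⟩ := h.2 0 h.1
      refine ⟨⟨Max.max y w, max_lt g1 hwx, fun z hy hz => ?_⟩, g3⟩
      rw [max_lt_iff] at hy
      have hzp : z ∉ p.c := fun h' => (hlt z h' w hw).not_gt hy.2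
      refine ⟨(hh1 z hzp).trans (g2 z hy.1 hz).1, ?_⟩
      by_cases hzb : z ∈ b.c
      · rw [rb5x_cat_l_mem hzb]
        exact (g2 z hy.1 hz).2
      · rw [rb5x_cat_l_nmem hzb]
        exact hp.l0 z hzp
  · by_cases hμ : μ ∈ b.c
    · rw [rb5x_cat_l_mem hμ] at hl
      exact rb5x_lv_mono (hb.sp μ L hl) subset_union_right
    · rw [rb5x_cat_l_nmem hμ] at hl
      exact rb5x_lv_mono (hp.sp μ L hl) subset_union_left

theorem rb5x_cat_dt (hp : C.Scope t p) (hb : C.Valid b) (hlt : ∀ x ∈ p.c, ∀ y ∈ b.c, x < y)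
    (hbel : ∀ y ∈ b.c, C.Below y p) (hc : b.c ⊆ Iio t) (hbt : C.Below t b) (hβ : β ∈ p.c) :
    C.DT β t (cat p b) p := by
  have hd : ∀ x ∈ p.c, x ∉ b.c := fun x h1 h2 => lt_irrefl _ (hlt x h1 x h2)
  have key : ∀ x, x ∉ b.c →
      (x ∈ (cat p b).c ↔ x ∈ p.c) ∧ (cat p b).h x = p.h x ∧ (cat p b).l x = p.l x := fun x hx =>
    ⟨or_iff_left hx, by rw [rb5x_cat_h, hb.h0 x hx, union_empty], rb5x_cat_l_nmem hx⟩
  refine ⟨⟨rb5x_cat_valid hp.v hb hlt hbel, ⟨subset_union_left, fun x hx hn y hy => ?_,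
    fun x => subset_union_left, fun x hx hl => ?_, fun x L hl => ?_⟩, fun x hx => ?_,
    ⟨fun x hx => ?_, fun x hx => ?_⟩, rb5x_below_cat hp.bel hbt⟩, rb5x_cat_l_nmem (hd β hβ)⟩
  · exact hlt y hy x (hx.resolve_left hn)
  · rw [rb5x_cat_l_nmem (hd x hx), hl]
  · exact ⟨L, by rw [rb5x_cat_l_nmem (hd x (rb5x_mem_l hp.v hl)), hl], Subset.rfl,
      fun _ _ => Subset.rfl, rfl⟩
  · exact key x fun h => (hlt β hβ x h).not_gt hx
  · have := key x fun h => (hc h).not_ge hx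
    exact ⟨this.1, this.2.1⟩
  · exact (key x fun h => (hc h).not_gt hx).2.2

theorem rb5x_itv_valid (hae : a ≤ e) (hz : ∀ z, a < z → z ≤ e → Inac z → C.s < z → ¬ SI C.al z) :
    C.Valid (itv a e) :=
  ⟨⟨a, le_rfl, hae⟩, bddAbove_Icc, fun _ hx => ⟨(rb5x_lim_Icc hx).1.le, (rb5x_lim_Icc hx).2⟩,
    fun _ _ => rfl, fun _ _ => rfl, fun x => rb5x_col_empty _ x, fun _ _ h => h.elim,
    fun _ _ _ _ _ _ h => h.elim, fun _ _ => rfl,
    fun x hx hi => ⟨⟨0, hx.1, fun _ _ _ => ⟨rfl, rfl⟩⟩,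
      hz x (rb5x_lim_Icc hx).1 (rb5x_lim_Icc hx).2 hi⟩, fun _ _ h => by cases h⟩

theorem rb5x_h_valid (hr : C.Valid r) (g : Od → Set (Od × Od)) (h0 : ∀ x, x ∉ r.c → g x = ∅)
    (hcol : ∀ x, C.Col x (g x))
    (hvs : ∀ i v, (i, v) ∈ g C.s → v < ((2 : Cardinal.{1}) ^ C.B C.s).ord)
    (hbel : ∀ y ∈ r.c, ∀ x < y, ∀ i v, (i, v) ∈ g x → v < (C.B y).ord)
    (heas : ∀ x, LimP r.c x → Inac x → ∃ y < x, ∀ z, y < z → z < x → g z = r.h z) :
    C.Valid { r with h := g } := by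
  refine ⟨hr.ne, hr.bd, hr.cl, h0, hr.l0, hcol, hvs, hbel, hr.lim, fun x hx hi => ?_, hr.sp⟩
  obtain ⟨⟨y, g1, g2⟩, g3⟩ := hr.eas x hx hi
  obtain ⟨y', k1, k2⟩ := heas x hx hi
  refine ⟨⟨Max.max y y', max_lt g1 k1, fun z hy hz => ?_⟩, g3⟩
  rw [max_lt_iff] at hy
  exact ⟨(k2 z hy.2 hz).trans (g2 z hy.1 hz).1, (g2 z hy.1 hz).2⟩

open Classical in
theorem rb5x_l_valid (hr : C.Valid r) (hμ : μ ∈ r.c) (hn : ¬ LimP r.c μ) {L : Lo}
    (hL : C.LV r.c μ L) : C.Valid { r with l := Function.update r.l μ (some L) } := by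
  refine ⟨hr.ne, hr.bd, hr.cl, hr.h0, fun x hx => ?_, hr.col, hr.vs, hr.bel, fun x hx => ?_,
    fun x hx hi => ?_, fun x L' hl => ?_⟩
  · have : x ≠ μ := fun h => hx (h ▸ hμ)
    exact (Function.update_of_ne this _ _).trans (hr.l0 x hx)
  · have : x ≠ μ := fun h => hn (h ▸ hx)
    exact (Function.update_of_ne this _ _).trans (hr.lim x hx)
  · obtain ⟨⟨y, g1, g2⟩, g3⟩ := hr.eas x hx hi
    rcases lt_or_ge μ x with h | h
    · refine ⟨⟨Max.max y μ, max_lt g1 h, fun z hy hz => ?_⟩, g3⟩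
      rw [max_lt_iff] at hy
      exact ⟨(g2 z hy.1 hz).1, (Function.update_of_ne hy.2.ne' _ _).trans (g2 z hy.1 hz).2⟩
    · exact ⟨⟨y, g1, fun z hy hz => ⟨(g2 z hy hz).1,
        (Function.update_of_ne (hz.trans_le h).ne _ _).trans (g2 z hy hz).2⟩⟩, g3⟩
  · by_cases h : x = μ
    · subst h
      have : some L = some L' := (Function.update_self x (some L) r.l).symm.trans hl
      cases this
      exact hL
    · exact hr.sp x L' ((Function.update_of_ne h _ _).symm.trans hl)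

theorem rb5x_dle_h (g : Od → Set (Od × Od)) (h : ∀ x, r.h x ⊆ g x) : Dle { r with h := g } r :=
  ⟨Subset.rfl, fun _ hx hn => absurd hx hn, h, fun _ _ hl => hl,
    fun _ L hl => ⟨L, hl, Subset.rfl, fun _ _ => Subset.rfl, rfl⟩⟩

theorem rb5x_setH_ds (hr : C.Scope t r) (hx : x ∈ r.c) (ht : x < t) (hf : C.Col x f)
    (hs : r.h x ⊆ f)
    (hv : ∀ i v, (i, v) ∈ f → v < (C.B t).ord ∧ (∀ y ∈ r.c, x < y → v < (C.B y).ord) ∧
      (x = C.s → v < ((2 : Cardinal.{1}) ^ C.B C.s).ord)) :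
    C.DS x t (setH x f r) r := by
  refine ⟨rb5x_h_valid hr.v (setH x f r).h (fun y hy => ?_) (fun y => ?_) (fun i v h => ?_)
    (fun y hy z hz i v h => ?_) (fun y _ _ => ?_), rb5x_dle_h (setH x f r).h fun y => ?_,
    fun y hy => ⟨Iff.rfl, rb5x_setH_ne hy.ne, rfl⟩,
    ⟨fun y hy => ⟨Iff.rfl, rb5x_setH_ne (ht.trans_le hy).ne'⟩, fun _ _ => rfl⟩,
    fun z hz i v h => ?_⟩
  · rw [rb5x_setH_ne fun h : y = x => hy (h ▸ hx)]
    exact hr.v.h0 y hy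
  · by_cases h : y = x
    · rw [h, rb5x_setH_self]
      exact hf
    · rw [rb5x_setH_ne h]
      exact hr.v.col y
  · by_cases h' : C.s = x
    · rw [h', rb5x_setH_self] at h
      exact (hv i v h).2.2 h'.symm
    · rw [rb5x_setH_ne h'] at h
      exact hr.v.vs i v h
  · by_cases h' : z = x
    · rw [h', rb5x_setH_self] at h
      exact (hv i v h).2.1 y hy (h' ▸ hz)
    · rw [rb5x_setH_ne h'] at h
      exact hr.v.bel y hy z hz i v h
  · rcases lt_or_ge x y with h | h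
    · exact ⟨x, h, fun z hz _ => rb5x_setH_ne hz.ne'⟩
    · exact ⟨0, (by assumption : LimP r.c y).1, fun z _ hz => rb5x_setH_ne (hz.trans_le h).ne⟩
  · by_cases h : y = x
    · rw [h, rb5x_setH_self]
      exact hs
    · rw [rb5x_setH_ne h]
  · by_cases h' : z = x
    · rw [h', rb5x_setH_self] at h
      exact (hv i v h).1
    · rw [rb5x_setH_ne h'] at h
      exact hr.bel z hz i v h

theorem rb5x_top (hq : C.Scope μ q) (hμ : μ ∉ q.c) : Inac μ ∧ q.c ⊆ Iio μ :=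
  ⟨(hq.cut.resolve_left hμ).1, (hq.cut.resolve_left hμ).2.2⟩

theorem rb5x_insb (hq : C.Scope μ q) (hμ : μ ∉ q.c) (hb : C.Insb q μ b) :
    (∀ x ∈ q.c, x < fp b) ∧ (∀ x ∈ q.c, ∀ y ∈ b.c, x < y) ∧ ∀ y ∈ b.c, C.Below y q := by
  have h1 : ∀ x ∈ q.c, x < fp b := fun x hx => hb.lt x hx ((rb5x_top hq hμ).2 hx)
  have h2 := (fp_mem hb.blk.v).2.1
  exact ⟨h1, fun x hx y hy => (h1 x hx).trans_le (h2 y hy),
    fun y hy => rb5x_below_mono hb.bel h1 hq.v (h2 y hy)⟩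

theorem rb5x_cat_blk (hq : C.Scope μ q) (hμ : μ ∉ q.c) (hb : C.Insb q μ b) (hβ : β ∈ q.c) :
    C.DT β μ (cat q b) q := by
  obtain ⟨-, h2, h3⟩ := rb5x_insb hq hμ hb
  obtain ⟨g1, -, g3⟩ := blk_scope hb.blk (rb5x_top hq hμ).1
  exact rb5x_cat_dt hq hb.blk.v h2 h3 g3 g1.bel hβ

end Ctx

end Pool.Agent.MP_85ce7b_lc

end

section

namespace Pool.Agent.MP_85ce7b_lc

open Set Cardinal Ordinal Dat

namespace Ctx

variable {C : Ctx} {p q r r' u w b b' : Raw} {t β δ μ η a e x : Od} {f f₀ : Set (Od × Od)}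

theorem insb_res (hμ : Inac μ) : C.Insb (res μ r) μ b ↔ C.Insb r μ b := by
  have key : C.Blk μ b → ∀ x < fp b, (res μ r).h x = r.h x := fun hb x hx =>
    if_pos (hx.trans ((lt_add_one _).trans (blk_scope hb hμ).2.1))
  constructor
  · intro h
    exact ⟨h.blk, fun x hx hx' => h.lt x ⟨hx, hx'⟩ hx',
      fun x hx i v hv => h.bel x hx i v (by rwa [key h.blk x hx])⟩
  · intro h
    exact ⟨h.blk, fun x hx hx' => h.lt x hx.1 hx',
      fun x hx i v hv => h.bel x hx i v (by rwa [key h.blk x hx] at hv)⟩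

theorem res_ins (hr : C.Valid r) (hμ : Spec r μ) (hb : C.Insb r μ b) :
    res μ (ins r μ b f) = cat (res μ r) (setH (fp b) f b) := by
  obtain ⟨-, h1, h2⟩ := blk_scope hb.blk (spec_inac hr hμ).1
  refine Raw.ext (Set.ext fun x => ?_) (funext fun x => ?_) (funext fun x => ?_)
  · constructor
    · rintro ⟨h | h, h'⟩
      · exact Or.inl ⟨h, h'⟩
      · exact Or.inr h
    · rintro (h | h)
      · exact ⟨Or.inl h.1, h.2⟩
      · exact ⟨Or.inr h, h2 h⟩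
  · rw [rb5x_cat_h]
    by_cases hx : x < μ
    · simp only [res, if_pos hx]
      rfl
    · simp only [res, if_neg hx]
      rw [rb5x_setH_ne fun h : x = fp b => hx (h ▸ (lt_add_one _).trans h1),
        hb.blk.v.h0 x fun h => hx (h2 h), empty_union]
  · by_cases hx : x < μ
    · by_cases hb' : x ∈ b.c
      · rw [rb5x_cat_l_mem (b := setH (fp b) f b) hb']
        simp only [res, if_pos hx]
        exact rb2_ins_l_mem hx.ne hb'
      · rw [rb5x_cat_l_nmem (b := setH (fp b) f b) hb']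
        simp only [res, if_pos hx]
        exact rb2_ins_l_nmem hx.ne hb'
    · rw [rb5x_cat_l_nmem (b := setH (fp b) f b) fun h => hx (h2 h)]
      simp only [res, if_neg hx]

theorem cat_blk (hq : C.Scope μ q) (hμ : μ ∉ q.c) (hb : C.Insb q μ b) :
    C.LeT μ (cat q b) q ∧ Good (cat q b) (fp b + 1) ∧ fp b + 1 < μ := by
  obtain ⟨y, hy⟩ := hq.v.ne
  refine ⟨(ds_leS hq (rb5x_cat_blk hq hμ hb hy).1).1, ⟨Or.inr hb.blk.nxt, ?_, _, rfl⟩,
    (blk_scope hb.blk (rb5x_top hq hμ).1).2.1⟩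
  rw [rb5x_cat_l_mem hb.blk.nxt]
  exact (blk_good hb.blk).2.1

theorem cat_setH (hq : C.Scope μ q) (hμ : μ ∉ q.c) (hb : C.Insb q μ b) (hf : C.Fst b f) :
    C.LeT (fp b + 1) (cat q (setH (fp b) f b)) (cat q b) := by
  have h1 : q.h (fp b) = ∅ :=
    hq.v.h0 _ fun h => lt_irrefl _ ((rb5x_insb hq hμ hb).1 _ h)
  have hs : C.Scope (fp b + 1) (cat q b) :=
    scope_of_mem (le_valid (cat_blk hq hμ hb).1.le) (Or.inr hb.blk.nxt)
  rw [rb5x_cat_setH h1]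
  refine (ds_leS hs (rb5x_setH_ds hs (Or.inr (fp_mem hb.blk.v).1) (lt_add_one _) hf.1 ?_
    fun i v hv => ⟨hf.2 i v hv, fun y _ hy => ?_, fun h => ?_⟩)).1
  · rw [rb5x_cat_h, h1, hb.blk.h, empty_union]
    exact empty_subset _
  · exact (hf.2 i v hv).trans_le (C.RB3_ord_mono (Order.add_one_le_of_lt hy))
  · exact absurd ((lt_add_one _).trans hb.blk.gt) h.symm.not_lt

theorem cat_dt (hq : C.Scope μ q) (hμ : μ ∉ q.c) (hb : C.Insb q μ b)
    (h : C.DT (fp b + 1) μ b' b) :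
    C.Insb q μ b' ∧ C.DT (fp b + 1) μ (cat q b') (cat q b) := by
  obtain ⟨h1, h2⟩ := blk_dt hb.blk (rb5x_top hq hμ).1 h
  have hb' : C.Insb q μ b' := ⟨h1, h2 ▸ hb.lt, h2 ▸ hb.bel⟩
  obtain ⟨-, g2, g3⟩ := rb5x_insb hq hμ hb'
  have hd : ∀ x ∈ q.c, x ∉ b'.c := fun x k1 k2 => lt_irrefl _ (g2 x k1 x k2)
  have hl : ∀ x, (x ∈ b'.c ↔ x ∈ b.c) → b'.l x = b.l x → (cat q b').l x = (cat q b).l x := by
    intro x k1 k2
    by_cases hx : x ∈ b.c
    · rw [rb5x_cat_l_mem hx, rb5x_cat_l_mem (k1.2 hx), k2]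
    · rw [rb5x_cat_l_nmem hx, rb5x_cat_l_nmem fun k => hx (k1.1 k)]
  refine ⟨hb', ⟨rb5x_cat_valid hq.v h1.v g2 g3, ⟨union_subset_union_right _ h.1.d.c,
    fun x hx hn y hy => ?_, fun x => union_subset_union_right _ (h.1.d.h x), fun x hx k => ?_,
    fun x L k => ?_⟩, fun x hx => ?_, ⟨fun x hx => ?_, fun x hx => ?_⟩,
    rb5x_below_cat hq.bel h.1.bel⟩, hl _ (iff_of_true (h.1.d.c hb.blk.nxt) hb.blk.nxt) h.2⟩
  · have k1 : x ∈ b'.c := hx.resolve_left fun k => hn (Or.inl k)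
    exact hy.elim (fun k => g2 y k x k1) (h.1.d.new x k1 (fun k => hn (Or.inr k)) y)
  · by_cases hx' : x ∈ b.c
    · rw [rb5x_cat_l_mem hx'] at k
      rw [rb5x_cat_l_mem (h.1.d.c hx')]
      exact h.1.d.l0 x hx' k
    · rw [rb5x_cat_l_nmem hx'] at k
      rw [rb5x_cat_l_nmem (hd x (hx.resolve_right hx')), k]
  · by_cases hx' : x ∈ b.c
    · rw [rb5x_cat_l_mem hx'] at k
      rw [rb5x_cat_l_mem (h.1.d.c hx')]
      exact h.1.d.l1 x L k
    · rw [rb5x_cat_l_nmem hx'] at k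
      exact ⟨L, by rw [rb5x_cat_l_nmem (hd x (rb5x_mem_l hq.v k)), k], Subset.rfl,
        fun _ _ => Subset.rfl, rfl⟩
  · obtain ⟨k1, k2, k3⟩ := h.1.lo x hx
    exact ⟨or_congr_right k1, by rw [rb5x_cat_h, rb5x_cat_h, k2], hl x k1 k3⟩
  · obtain ⟨k1, k2⟩ := h.1.ag.1 x hx
    exact ⟨or_congr_right k1, by rw [rb5x_cat_h, rb5x_cat_h, k2]⟩
  · exact hl x (h.1.ag.1 x hx.le).1 (h.1.ag.2 x hx)

theorem cat_up (hq : C.Scope μ q) (hμ : μ ∉ q.c) (hb : C.Insb q μ b)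
    (h : C.DT (fp b + 1) μ u (cat q b)) : ∃ b', C.DT (fp b + 1) μ b' b ∧ u = cat q b' := by
  obtain ⟨g1, -, -⟩ := rb5x_insb hq hμ hb
  have hn := hb.blk.nxt
  have hqc : ∀ x, fp b + 1 ≤ x → x ∉ q.c := fun x hx k =>
    (g1 x k).not_ge ((lt_add_one _).le.trans hx)
  have hag : Agree (fp b + 1) b (cat q b) := by
    refine ⟨fun x hx => ⟨(or_iff_right (hqc x hx)).symm, ?_⟩, fun x hx => ?_⟩
    · rw [rb5x_cat_h, hq.v.h0 x (hqc x hx), empty_union]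
    · by_cases k : x ∈ b.c
      · rw [rb5x_cat_l_mem k]
      · rw [rb5x_cat_l_nmem k, hb.blk.v.l0 x k, hq.v.l0 x (hqc x hx.le)]
  have h1 := mix_dt h (Or.inr hn) (cat_blk hq hμ hb).2.2.le hb.blk.v hn
  rw [mix_eq_left hag] at h1
  refine ⟨_, h1, eq_of_agLo_agree (β := fp b + 1) ⟨fun x hx => ?_, ?_⟩
    ⟨fun x hx => ⟨?_, ?_⟩, fun x hx => ?_⟩⟩
  · obtain ⟨k1, k2, k3⟩ := h.1.lo x hx
    refine ⟨k1.trans (or_congr_right (rb2_c_lt hx).symm), ?_, ?_⟩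
    · rw [k2, rb5x_cat_h, rb5x_cat_h, rb2_h_lt hx]
    · rw [k3]
      by_cases k : x ∈ b.c
      · rw [rb5x_cat_l_mem k, rb5x_cat_l_mem ((rb2_c_lt hx).2 k), rb2_l_le hx.le]
      · rw [rb5x_cat_l_nmem k, rb5x_cat_l_nmem fun k' => k ((rb2_c_lt hx).1 k')]
  · rw [h.2, rb5x_cat_l_mem hn, rb5x_cat_l_mem (h1.1.d.c hn), rb2_l_le le_rfl]
  · rw [rb5x_cat_c, or_iff_right (hqc x hx), rb2_c_ge hx]
  · rw [rb5x_cat_h, hq.v.h0 x (hqc x hx), empty_union, rb2_h_ge hx]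
  · by_cases k : x ∈ u.c
    · rw [rb5x_cat_l_mem ((rb2_c_ge hx.le).2 k), rb2_l_gt hx]
    · rw [rb5x_cat_l_nmem fun k' => k ((rb2_c_ge hx.le).1 k'), h.1.v.l0 x k,
        hq.v.l0 x (hqc x hx.le)]

theorem p0_scope (C : Ctx) : C.Scope C.kap (itv 0 (C.s + 1)) ∧ C.kap ∉ (itv 0 (C.s + 1)).c := by
  refine ⟨⟨rb5x_itv_valid zero_le fun z _ h2 hi h3 => absurd hi (rb5x_between h3 h2),
    fun _ _ _ _ h => h.elim, Or.inr ⟨C.kin, C.s_lt, fun x hx => hx.2.trans_lt C.s_lt⟩⟩,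
    fun h => C.s_lt.not_ge h.2⟩

theorem blk_itv (hη : Inac η) (hs : C.s + 1 < η) (hμ : Inac μ) (h : η < μ) :
    C.Blk μ (itv η (η + 1)) ∧ fp (itv η (η + 1)) = η := by
  have h1 : η ≤ η + 1 := (lt_add_one η).le
  have h2 := rb5x_fp_itv h1
  refine ⟨⟨rb5x_itv_valid h1 fun z k1 k2 hi => absurd hi (rb5x_between k1 k2),
    ⟨η + 1 + 1, hμ.isSuccLimit.add_one_lt (hμ.isSuccLimit.add_one_lt h),
      fun x hx => hx.2.trans_lt (lt_add_one _), fun _ _ _ k => k.elim, fun _ _ k => by cases k⟩,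
    ?_, ?_, ?_, rfl⟩, h2⟩
  · rwa [h2]
  · rwa [h2]
  · rw [h2]
    exact ⟨h1, le_rfl⟩

theorem add_itv (hp : C.Scope t p) (ht : t ∉ p.c) (hae : a ≤ e) (he : e < t) (hc : p.c ⊆ Iio a)
    (hb : C.Below a p) (hz : ∀ z, a < z → z ≤ e → Inac z → C.s < z → ¬ SI C.al z) :
    ∀ β ∈ p.c, C.DT β t (cat p (itv a e)) p := by
  have _ := ht
  exact fun β hβ => rb5x_cat_dt hp (rb5x_itv_valid hae hz)
    (fun x hx y hy => lt_of_lt_of_le (hc hx) hy.1)
    (fun y hy => rb5x_below_mono hb hc hp.v hy.1) (fun x hx => hx.2.trans_lt he)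
    (fun _ _ _ _ h => h.elim) hβ

/-- Room for an end extension. -/
theorem exists_room (hp : C.Scope t p) (ht : t ∉ p.c) (ha : a < t) :
    ∃ y, a < y ∧ y < t ∧ p.c ⊆ Iio y ∧ C.Below y p := by
  obtain ⟨h1, h2⟩ := rb5x_top hp ht
  obtain ⟨c, hc, g1, g2, -⟩ := bdd_of_below hp.v h1 h2 hp.bel
  have h3 : c ≤ Max.max a c + 1 := (le_max_right _ _).trans (lt_add_one _).le
  exact ⟨Max.max a c + 1, (le_max_left _ _).trans_lt (lt_add_one _),
    h1.isSuccLimit.add_one_lt (max_lt ha hc), fun x hx => lt_of_lt_of_le (g1 hx) h3,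
    fun x _ i v hv => (g2 x i v hv).2.2.trans_le (h3.trans (C.bf.le_ord _))⟩

theorem top_ext (hp : C.Scope t p) (ht : t ∉ p.c) (ha : a < t) :
    ∃ δ u, a < δ ∧ δ < t ∧ Good u δ ∧ (∀ x ∈ u.c, x ≤ δ) ∧ (∀ β ∈ p.c, C.DT β t u p) ∧
      ∀ x, Spec u x → Spec p x := by
  obtain ⟨y, h1, h2, h3, h4⟩ := exists_room hp ht ha
  have h5 : y + 1 < t := (rb5x_top hp ht).1.isSuccLimit.add_one_lt h2
  have h6 : y ≤ y + 1 := (lt_add_one y).le
  have h7 : y + 1 ∈ (itv y (y + 1)).c := ⟨h6, le_rfl⟩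
  refine ⟨y + 1, cat p (itv y (y + 1)), h1.trans_le h6, h5,
    ⟨Or.inr h7, rb5x_cat_l_mem h7, y, rfl⟩, fun x hx => ?_,
    add_itv hp ht h6 h5 h3 h4 fun z k1 k2 hi => absurd hi (rb5x_between k1 k2), fun x hx => ?_⟩
  · exact hx.elim (fun k => (le_of_lt (h3 k)).trans h6) fun k => k.2
  · obtain ⟨L, hL⟩ := hx
    by_cases k : x ∈ (itv y (y + 1)).c
    · rw [rb5x_cat_l_mem k] at hL
      cases hL
    · exact ⟨L, by rwa [rb5x_cat_l_nmem k] at hL⟩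

theorem add_spec (hp : C.Scope t p) (ht : t ∉ p.c) (hμ : μ ∈ C.Sp) (hb : Bdd μ p) (he : μ ≤ e)
    (het : e < t) (hz : ∀ z, μ < z → z ≤ e → ¬ Inac z) :
    ∃ p', C.LeT t p' p ∧ Spec p' μ ∧ res μ p' = p ∧ Icc μ e ⊆ p'.c ∧ NoSp p' μ e ∧
      ∀ x, μ ≤ x → p'.h x = ∅ := by
  classical
  have hi := sp_inac hμ
  obtain ⟨h1, h2⟩ := below_of_bdd (C := C) hi hb
  obtain ⟨y, hy⟩ := hp.v.ne
  have hu := (add_itv hp ht he het h1 h2 (fun z k1 k2 k3 => absurd k3 (hz z k1 k2)) y hy).1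
  have hμu : μ ∈ (cat p (itv μ e)).c := Or.inr ⟨le_rfl, he⟩
  have hne : ∀ x ∈ p.c, x ≠ μ := fun x hx => ne_of_lt (h1 hx)
  have hnp : ∀ x, μ ≤ x → x ∉ p.c := fun x hx k => not_lt_of_ge hx (h1 k)
  have hn : ¬ LimP (cat p (itv μ e)).c μ := by
    obtain ⟨c, hc, g1, -⟩ := hb
    intro k
    obtain ⟨z, hz, k1, k2⟩ := k.2 c hc
    exact hz.elim (fun k3 => not_lt_of_gt k1 (g1 k3)) fun k3 => k2.not_ge k3.1
  have hL : C.LV (cat p (itv μ e)).c μ ⟨Iio μ, ∅, ∅⟩ :=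
    ⟨hμ, (C.good μ hμ).gt, ⟨y, Or.inl hy, h1 hy⟩,
      Filter.mem_of_superset ((C.good μ hμ).w0 0 hi.isSuccLimit.pos) fun ξ k => k.1, Subset.rfl,
      empty_subset _, fun ξ _ => ⟨rb5x_col_empty _ _, fun _ _ k => k.elim⟩, finite_empty,
      fun _ k => k.elim⟩
  have hv := rb5x_l_valid hu.v hμu hn hL
  refine ⟨_, ⟨le_of_dle hp.v hv ⟨hu.d.c, hu.d.new, hu.d.h, fun x hx k => ?_, fun x L k => ?_⟩,
    ⟨hu.ag.1, fun x hx => ?_⟩, hu.bel⟩, ⟨_, Function.update_self _ _ _⟩, ?_, subset_union_right,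
    fun x k1 k2 => ?_, fun x hx => ?_⟩
  · exact (Function.update_of_ne (hne x hx) _ _).trans (hu.d.l0 x hx k)
  · obtain ⟨L', k1, k2⟩ := hu.d.l1 x L k
    exact ⟨L', (Function.update_of_ne (hne x (rb5x_mem_l hp.v k)) _ _).trans k1, k2⟩
  · exact (Function.update_of_ne ((he.trans_lt het).trans hx).ne' _ _).trans (hu.ag.2 x hx)
  · refine Raw.ext (Set.ext fun x => ?_) (funext fun x => ?_) (funext fun x => ?_)
    · exact ⟨fun k => k.1.resolve_right fun k' => not_lt_of_ge k'.1 k.2,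
        fun k => ⟨Or.inl k, h1 k⟩⟩
    · by_cases hx : x < μ
      · simp only [res, if_pos hx]
        exact union_empty _
      · simp only [res, if_neg hx]
        exact (hp.v.h0 x (hnp x (not_lt.1 hx))).symm
    · by_cases hx : x < μ
      · simp only [res, if_pos hx]
        exact (Function.update_of_ne hx.ne _ _).trans
          (rb5x_cat_l_nmem fun k => hx.not_ge k.1)
      · simp only [res, if_neg hx]
        exact (hp.v.l0 x (hnp x (not_lt.1 hx))).symm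
  · exact (Function.update_of_ne k1.ne' _ _).trans
      (rb5x_cat_l_mem (b := itv μ e) ⟨k1.le, k2⟩)
  · exact (union_empty _).trans (hp.v.h0 x (hnp x hx))

theorem set_int {g : Od → Set (Od × Od)} (hr : C.Scope t r) (hc : Icc a e ⊆ r.c) (hs : C.s < a)
    (het : e ≤ t) (hz : ∀ z, a < z → z ≤ e → ¬ Inac z) (hg : C.IntC a e g)
    (hh : ∀ x, a ≤ x → x < e → r.h x ⊆ g x) :
    ∃ r', C.LeT t r' r ∧ res a r' = res a r ∧ r'.l = r.l ∧ r'.c = r.c ∧
      ∀ x, a ≤ x → x < e → r'.h x = g x := by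
  classical
  let k : Od → Set (Od × Od) := fun x => if a ≤ x ∧ x < e then g x else r.h x
  have k1 : ∀ x, a ≤ x ∧ x < e → k x = g x := fun x hx => if_pos hx
  have k2 : ∀ x, ¬ (a ≤ x ∧ x < e) → k x = r.h x := fun x hx => if_neg hx
  have k3 : ∀ y, C.Below y r → ∀ x < y, ∀ i v, (i, v) ∈ k x → v < (C.B y).ord := by
    intro y hy x hx i v hv
    by_cases h : a ≤ x ∧ x < e
    · rw [k1 x h] at hv
      exact ((hg x).2 i v hv).2.2.trans_le (C.RB3_ord_mono (Order.add_one_le_of_lt hx))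
    · rw [k2 x h] at hv
      exact hy x hx i v hv
  have hv : C.Valid { r with h := k } := by
    refine rb5x_h_valid hr.v k (fun x hx => ?_) (fun x => ?_) (fun i v h => ?_)
      (fun y hy => k3 y (hr.v.bel y hy)) fun x hx hi => ?_
    · rw [k2 x fun h => hx (hc ⟨h.1, h.2.le⟩)]
      exact hr.v.h0 x hx
    · by_cases h : a ≤ x ∧ x < e
      · rw [k1 x h]
        exact (hg x).1
      · rw [k2 x h]
        exact hr.v.col x
    · rw [k2 _ fun h' => hs.not_ge h'.1] at h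
      exact hr.v.vs i v h
    · rcases le_or_gt x a with h | h
      · exact ⟨0, hx.1, fun z _ h' => k2 z fun h'' => (h'.trans_le h).not_ge h''.1⟩
      · exact ⟨e, lt_of_not_ge fun h' => hz x h h' hi, fun z h' _ => k2 z fun h'' => h'.not_gt h''.2⟩
  refine ⟨{ r with h := k }, ⟨le_of_dle hr.v hv (rb5x_dle_h k fun x => ?_),
    ⟨fun x hx => ⟨Iff.rfl, k2 x fun h => (h.2.trans_le het).not_ge hx⟩, fun _ _ => rfl⟩,
    k3 t hr.bel⟩, ?_, rfl, rfl, fun x h1 h2 => k1 x ⟨h1, h2⟩⟩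
  · by_cases h : a ≤ x ∧ x < e
    · rw [k1 x h]
      exact hh x h.1 h.2
    · rw [k2 x h]
  · refine Raw.ext rfl (funext fun x => ?_) rfl
    by_cases hx : x < a
    · simp only [res, if_pos hx]
      exact k2 x fun h => hx.not_ge h.1
    · simp only [res, if_neg hx]

open Classical in
theorem intC_of (hr : C.Valid r) (hc : Icc a e ⊆ r.c) :
    C.IntC a e (fun x => if a ≤ x ∧ x < e then r.h x else ∅) := by
  intro x
  by_cases h : a ≤ x ∧ x < e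
  · simp only [if_pos h]
    exact ⟨hr.col x, fun i v hv => ⟨h.1, h.2, hr.bel (x + 1)
      (hc ⟨h.1.trans (lt_add_one x).le, Order.add_one_le_of_lt h.2⟩) x (lt_add_one x) i v hv⟩⟩
  · simp only [if_neg h]
    exact ⟨rb5x_col_empty _ x, fun _ _ hv => hv.elim⟩

theorem setH_ds (hr : C.Scope t r) (hx : x ∈ r.c) (ht : x < t) (hf : C.Col x f) (hs : r.h x ⊆ f)
    (hv : ∀ i v, (i, v) ∈ f → v < (C.B t).ord ∧ (∀ y ∈ r.c, x < y → v < (C.B y).ord) ∧
      (x = C.s → v < ((2 : Cardinal.{1}) ^ C.B C.s).ord)) :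
    C.DS x t (setH x f r) r :=
  rb5x_setH_ds hr hx ht hf hs hv

end Ctx

end Pool.Agent.MP_85ce7b_lc

end

section

namespace Pool.Agent.MP_85ce7b_lc

open Set Cardinal Ordinal Dat

namespace Ctx

variable {C : Ctx} {p : Raw} {t β μ ν : Od}

theorem rc_col_union {x : Od} (f : Od → Set (Od × Od)) (I : Set Od) (hI : I ⊆ Iio ν)
    (hν : ν.card ≤ C.B x) (hf : ∀ i ∈ I, C.Col x (f i))
    (hm : ∀ i ∈ I, ∀ j ∈ I, i ≤ j → f i ⊆ f j) : C.Col x {z | ∃ i ∈ I, z ∈ f i} := by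
  refine ⟨?_, ?_, ?_⟩
  · rintro i v v' ⟨a, ha, h1⟩ ⟨b, hb, h2⟩
    rcases le_total a b with h | h
    · exact (hf b hb).fn i v v' (hm a ha b hb h h1) h2
    · exact (hf a ha).fn i v v' h1 (hm b hb a ha h h2)
  · rintro i v ⟨a, ha, h1⟩
    exact (hf a ha).dom i v h1
  · have e : {z | ∃ i ∈ I, z ∈ f i} = ⋃ i : I, f i := by
      ext z
      simp
    rw [e]
    have h1 : Cardinal.mk I ≤ lift.{2} (C.B x) := by
      refine (Cardinal.mk_le_mk_of_subset hI).trans ?_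
      rw [Cardinal.mk_Iio_ordinal]
      exact Cardinal.lift_le.2 hν
    have h2 : ℵ₀ ≤ lift.{2} (C.B x) := Cardinal.aleph0_le_lift.2 (C.bf.aleph0_le x)
    refine Cardinal.mk_iUnion_le_sum_mk.trans ?_
    refine (Cardinal.sum_le_sum _ (fun _ => lift.{2} (C.B x)) fun i : I => (hf i.1 i.2).card).trans ?_
    rw [Cardinal.sum_const']
    calc Cardinal.mk I * lift.{2} (C.B x) ≤ lift.{2} (C.B x) * lift.{2} (C.B x) := by gcongr
      _ = _ := Cardinal.mul_eq_self h2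

/-- Union of a chain of collapse conditions. -/
theorem col_chain {x : Od} (f : Od → Set (Od × Od)) (hν : ν.card ≤ C.B x)
    (hf : ∀ i < ν, C.Col x (f i)) (hm : ∀ i j, i ≤ j → j < ν → f i ⊆ f j) :
    C.Col x {z | ∃ i < ν, z ∈ f i} :=
  rc_col_union f (Iio ν) subset_rfl hν hf fun i _ j hj h => hm i j h hj

theorem rc_lv_mono {c c' : Set Od} {L : Lo} (h : C.LV c μ L) (hc : ∀ y ∈ c, y < μ → y ∈ c') :
    C.LV c' μ L := by
  refine ⟨h.sp, h.gt, ?_, h.A, h.Alt, h.Fb, h.F, h.fin, fun z hz => ?_⟩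
  · obtain ⟨y, h1, h2⟩ := h.pre
    exact ⟨y, hc y h1 h2, h2⟩
  · obtain ⟨y, h1, h2, h3⟩ := h.s z hz
    exact ⟨y, hc y h1 h3, h2, h3⟩

theorem rc_lv_cut {c : Set Od} {L : Lo} (h : C.LV c μ L) {m : Od} (hm : m < μ) :
    C.LV c μ ⟨L.A ∩ {ξ | m < fp (C.dec ξ)}, L.F, L.s⟩ := by
  refine ⟨h.sp, h.gt, h.pre, ?_, fun x hx => h.Alt hx.1, h.Fb, fun ξ hξ => h.F ξ hξ.1, h.fin, h.s⟩
  refine Filter.inter_mem h.A (Filter.mem_of_superset ((C.good μ h.sp).w0 m hm) ?_)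
  exact fun ξ hξ => hξ.2.2

theorem rc_lo_set {c : Set Od} (L : Od → Lo) (I : Set Od) (hI : I ⊆ Iio ν) {i0 : Od}
    (h0 : i0 ∈ I) (hν : ν < μ) (hL : ∀ i ∈ I, C.LV c μ (L i))
    (hm : ∀ i ∈ I, ∀ j ∈ I, i ≤ j → (L j).A ⊆ (L i).A ∧
      (∀ ξ ∈ (L j).A, sec (L i).F ξ ⊆ sec (L j).F ξ) ∧ (L j).s = (L i).s) :
    ∃ L', C.LV c μ L' ∧ ∀ i ∈ I, L'.A ⊆ (L i).A ∧
      (∀ ξ ∈ L'.A, sec (L i).F ξ ⊆ sec L'.F ξ) ∧ L'.s = (L i).s := by
  have hg := C.good μ (hL i0 h0).sp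
  let A : Set Od := {ξ | ∀ i < ν, ξ ∈ {ξ | i ∈ I → ξ ∈ (L i).A}} ∩
    {ξ | ξ < μ ∧ C.Blk μ (C.dec ξ) ∧ ν < fp (C.dec ξ)}
  have hA : A ∈ C.W μ := by
    refine Filter.inter_mem (hg.comp ν hν _ fun i _ => ?_) (hg.w0 ν hν)
    by_cases hi : i ∈ I
    · exact Filter.mem_of_superset (hL i hi).A fun ξ hξ _ => hξ
    · exact Filter.mem_of_superset Filter.univ_mem fun ξ _ h => absurd h hi
  have hAi : ∀ i ∈ I, A ⊆ (L i).A := fun i hi ξ hξ => hξ.1 i (hI hi) hi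
  refine ⟨⟨A, {z | ∃ i ∈ I, z ∈ (L i).F}, (L i0).s⟩, ⟨(hL i0 h0).sp, (hL i0 h0).gt,
    (hL i0 h0).pre, hA, fun ξ hξ => hξ.2.1, ?_, fun ξ hξ => ⟨?_, ?_⟩, (hL i0 h0).fin,
    (hL i0 h0).s⟩, fun i hi => ⟨hAi i hi, fun ξ _ z hz => ⟨i, hi, hz⟩, ?_⟩⟩
  · rintro z ⟨i, hi, hz⟩
    exact (hL i hi).Fb hz
  · exact rc_col_union (fun i => sec (L i).F ξ) I hI
      ((Ordinal.card_le_card hξ.2.2.2.le).trans (C.bf.card_le _))
      (fun i hi => ((hL i hi).F ξ (hAi i hi hξ)).1)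
      fun i hi j hj h => (hm i hi j hj h).2.1 ξ (hAi j hj hξ)
  · rintro i v ⟨j, hj, hz⟩
    exact ((hL j hj).F ξ (hAi j hj hξ)).2 i v hz
  · rcases le_total i i0 with h | h
    · exact (hm i hi i0 h0 h).2.2
    · exact (hm i0 h0 i hi h).2.2.symm

/-- Lower bound of a short chain of data at a special point. -/
theorem lo_chain {c : Set Od} (L : Od → Lo) (h0 : 0 < ν) (hν : ν < μ)
    (hL : ∀ i < ν, C.LV c μ (L i))
    (hm : ∀ i j, i ≤ j → j < ν → (L j).A ⊆ (L i).A ∧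
      (∀ ξ ∈ (L j).A, sec (L i).F ξ ⊆ sec (L j).F ξ) ∧ (L j).s = (L i).s) :
    ∃ L', C.LV c μ L' ∧ ∀ i < ν, L'.A ⊆ (L i).A ∧
      (∀ ξ ∈ L'.A, sec (L i).F ξ ⊆ sec L'.F ξ) ∧ L'.s = (L i).s :=
  rc_lo_set L (Iio ν) subset_rfl (i0 := 0) h0 hν hL fun i _ j hj h => hm i j h hj

/-- Diagonal lower bound of a long chain of data at a special point. -/
theorem lo_diag {c : Set Od} (L : Od → Lo) (hL : ∀ i < μ, C.LV c μ (L i)) (h0 : 0 < μ)
    (hm : ∀ i j, i ≤ j → j < μ → (L j).A ⊆ (L i).A ∧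
      (∀ ξ ∈ (L j).A, sec (L i).F ξ ⊆ sec (L j).F ξ) ∧ (L j).s = (L i).s) :
    ∃ L', C.LV c μ L' ∧ L'.A ⊆ (L 0).A ∧ L'.s = (L 0).s ∧ ∀ i < μ, ∀ ξ ∈ L'.A,
      i < fp (C.dec ξ) → ξ ∈ (L i).A ∧ sec (L i).F ξ ⊆ sec L'.F ξ := by
  classical
  have hg := C.good μ (hL 0 h0).sp
  have hD : {ξ | ∀ i < fp (C.dec ξ), i < μ → ξ ∈ (L i).A} ∈ C.W μ := by
    by_contra hn
    have hc := Ultrafilter.compl_mem_iff_notMem.2 hn
    have hex : ∀ ξ, ∃ a, ξ ∈ {ξ | ∀ i < fp (C.dec ξ), i < μ → ξ ∈ (L i).A}ᶜ →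
        a < fp (C.dec ξ) ∧ a < μ ∧ ξ ∉ (L a).A := by
      intro ξ
      by_cases h : ξ ∈ {ξ | ∀ i < fp (C.dec ξ), i < μ → ξ ∈ (L i).A}ᶜ
      · simp only [mem_compl_iff, mem_ofPred_eq, not_forall] at h
        obtain ⟨a, h1, h2, h3⟩ := h
        exact ⟨a, fun _ => ⟨h1, h2, h3⟩⟩
      · exact ⟨0, fun h' => absurd h' h⟩
    choose g hg' using hex
    obtain ⟨a, ha⟩ := hg.nor g (Filter.mem_of_superset hc fun ξ hξ => (hg' ξ hξ).1)
    obtain ⟨ξ, h1, h2⟩ := Ultrafilter.nonempty_of_mem (Filter.inter_mem ha hc)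
    have haμ : a < μ := by
      have := (hg' ξ h2).2.1
      rwa [show g ξ = a from h1] at this
    obtain ⟨ζ, ⟨h3, h4⟩, h5⟩ :=
      Ultrafilter.nonempty_of_mem (Filter.inter_mem (Filter.inter_mem ha hc) (hL a haμ).A)
    have := (hg' ζ h4).2.2
    rw [show g ζ = a from h3] at this
    exact this h5
  let A : Set Od := ((L 0).A ∩ {ξ | ∀ i < fp (C.dec ξ), i < μ → ξ ∈ (L i).A}) ∩
    {ξ | ξ < μ ∧ C.Blk μ (C.dec ξ) ∧ 0 < fp (C.dec ξ)}
  have hA : A ∈ C.W μ := Filter.inter_mem (Filter.inter_mem (hL 0 h0).A hD) (hg.w0 0 h0)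
  have hfp : ∀ ξ ∈ A, fp (C.dec ξ) < μ := fun ξ hξ =>
    (lt_add_one _).trans (blk_scope hξ.2.2.1 hg.inac).2.1
  have hAi : ∀ ξ ∈ A, ∀ i < fp (C.dec ξ), ξ ∈ (L i).A := fun ξ hξ i hi =>
    hξ.1.2 i hi (hi.trans (hfp ξ hξ))
  refine ⟨⟨A, {z | ∃ i < fp (C.dec z.1), i < μ ∧ z ∈ (L i).F}, (L 0).s⟩, ⟨(hL 0 h0).sp,
    (hL 0 h0).gt, (hL 0 h0).pre, hA, fun ξ hξ => hξ.2.1, ?_, fun ξ hξ => ⟨?_, ?_⟩, (hL 0 h0).fin,
    (hL 0 h0).s⟩, fun ξ hξ => hξ.1.1, rfl,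
    fun i hi ξ hξ h => ⟨hAi ξ hξ i h, fun z hz => ⟨i, h, hi, hz⟩⟩⟩
  · rintro z ⟨i, -, hi, hz⟩
    exact (hL i hi).Fb hz
  · have e : sec {z | ∃ i < fp (C.dec z.1), i < μ ∧ z ∈ (L i).F} ξ =
        {z | ∃ i < fp (C.dec ξ), z ∈ sec (L i).F ξ} := by
      ext z
      exact ⟨fun ⟨i, h1, _, h3⟩ => ⟨i, h1, h3⟩,
        fun ⟨i, h1, h3⟩ => ⟨i, h1, h1.trans (hfp ξ hξ), h3⟩⟩
    change C.Col _ (sec {z | ∃ i < fp (C.dec z.1), i < μ ∧ z ∈ (L i).F} ξ)
    rw [e]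
    exact col_chain (fun i => sec (L i).F ξ) (C.bf.card_le _)
      (fun i hi => ((hL i (hi.trans (hfp ξ hξ))).F ξ (hAi ξ hξ i hi)).1)
      fun i j h hj => (hm i j h (hj.trans (hfp ξ hξ))).2.1 ξ (hAi ξ hξ j hj)
  · rintro i v ⟨j, h1, hj, hz⟩
    exact ((hL j hj).F ξ (hAi ξ hξ j h1)).2 i v hz

theorem rc_lt_inac {x : Od} (hν : ν.card ≤ C.B β) (hx : Inac x) (h : β < x) : ν < x := by
  have h1 := C.bf.lt_inac hx h
  rw [← hx.ord_card, lt_ord] at h1 ⊢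
  rw [card_ord] at h1
  exact hν.trans_lt h1

/-- The data at one point of the lower bound. -/
theorem rc_pt (hν : ν.card ≤ C.B β) (h0 : 0 < ν) (f : Od → Raw)
    (hf : ∀ i < ν, C.DT β t (f i) p) (hm : ∀ i j, i ≤ j → j < ν → C.DT β t (f j) (f i))
    (c : Set Od) (hc : ∀ i < ν, (f i).c ⊆ c) (x : Od) :
    ∃ o : Option Lo, (∀ L, o = some L → C.LV c x L ∧ ∃ i < ν, Spec (f i) x) ∧
      (∀ i < ν, ∀ L, (f i).l x = some L → ∃ L', o = some L' ∧ L'.A ⊆ L.A ∧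
        (∀ ξ ∈ L'.A, sec L.F ξ ⊆ sec L'.F ξ) ∧ L'.s = L.s) ∧
      ((x ≤ β ∨ t < x) → o = p.l x) := by
  by_cases hx : x ≤ β ∨ t < x
  · have e : ∀ i < ν, (f i).l x = p.l x := by
      intro i hi
      rcases hx with hx | hx
      · rcases hx.lt_or_eq with hx | rfl
        · exact ((hf i hi).1.lo x hx).2.2
        · exact (hf i hi).2
      · exact (hf i hi).1.ag.2 x hx
    refine ⟨p.l x, fun L hL => ?_, fun i hi L hL => ?_, fun _ => rfl⟩
    · rw [← e 0 h0] at hL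
      exact ⟨rc_lv_mono ((hf 0 h0).1.v.sp x L hL) fun y hy _ => hc 0 h0 hy, 0, h0, L, hL⟩
    · exact ⟨L, by rw [← e i hi, hL], subset_rfl, fun _ _ => subset_rfl, rfl⟩
  by_cases hs : ∃ i < ν, Spec (f i) x
  · obtain ⟨i0, hi0, hs0⟩ := hs
    have hβx : β < x := not_le.1 fun h => hx (Or.inl h)
    have hin : Inac x := (spec_inac (hf i0 hi0).1.v hs0).1
    let L : Od → Lo := fun i => ((f i).l x).getD ⟨∅, ∅, ∅⟩
    have hL : ∀ i, Spec (f i) x → (f i).l x = some (L i) := by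
      rintro i ⟨M, hM⟩
      simp only [L, hM, Option.getD_some]
    obtain ⟨L', h1, h2⟩ := rc_lo_set (C := C) (c := c) (μ := x) (ν := ν) L
      {i | i < ν ∧ Spec (f i) x} (fun i hi => hi.1) (i0 := i0) ⟨hi0, hs0⟩
      (rc_lt_inac hν hin hβx)
      (fun i hi => rc_lv_mono ((hf i hi.1).1.v.sp x _ (hL i hi.2)) fun y hy _ => hc i hi.1 hy)
      (fun i hi j hj h => by
        obtain ⟨M, g1, g2⟩ := (hm i j h hj.1).1.d.l1 x _ (hL i hi.2)
        rw [hL j hj.2, Option.some.injEq] at g1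
        rw [g1]
        exact g2)
    refine ⟨some L', fun M hM => ?_, fun i hi M hM => ⟨L', rfl, ?_⟩, fun h => absurd h hx⟩
    · rw [Option.some.injEq] at hM
      exact ⟨hM ▸ h1, i0, hi0, hs0⟩
    · have := hL i ⟨M, hM⟩
      rw [hM, Option.some.injEq] at this
      rw [this]
      exact h2 i ⟨hi, M, hM⟩
  · exact ⟨none, fun L hL => (by cases hL), fun i hi L hL => absurd ⟨i, hi, L, hL⟩ hs,
      fun h => absurd h hx⟩

/-- Lower bound of a chain of direct extensions. -/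
theorem chain_lb (hp : C.Scope t p) (hβ : β ∈ p.c) (ht : β ≤ t) (h0 : 0 < ν)
    (hν : ν.card ≤ C.B β) (f : Od → Raw) (hf : ∀ i < ν, C.DT β t (f i) p)
    (hm : ∀ i j, i ≤ j → j < ν → C.DT β t (f j) (f i)) :
    ∃ u, (∀ i < ν, C.DT β t u (f i)) ∧ ((∀ i < ν, (f i).c = p.c) → u.c = p.c) ∧
      ∀ x, Spec u x → ∃ i < ν, Spec (f i) x := by
  have hv : ∀ i < ν, C.Valid (f i) := fun i hi => (hf i hi).1.v
  have hβi : ∀ i < ν, β ∈ (f i).c := fun i hi => (hf i hi).1.d.c hβ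
  have hmax : ∀ i, ∃ m, i < ν → m ∈ (f i).c ∧ ∀ x ∈ (f i).c, x ≤ m := by
    intro i
    by_cases hi : i < ν
    · obtain ⟨m, h1, h2⟩ := valid_max (hv i hi)
      exact ⟨m, fun _ => ⟨h1, h2⟩⟩
    · exact ⟨0, fun h => absurd h hi⟩
  choose m hmx using hmax
  let S : Set Od := {x | ∃ i < ν, x ∈ (f i).c}
  have hSne : S.Nonempty := ⟨β, 0, h0, hβi 0 h0⟩
  have hSb : BddAbove S := by
    obtain ⟨b, hb⟩ : BddAbove (m '' Iio ν) := Ordinal.bddAbove_of_small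
    refine ⟨b, ?_⟩
    rintro x ⟨i, hi, hx⟩
    exact ((hmx i hi).2 x hx).trans (hb ⟨i, hi, rfl⟩)
  let c : Set Od := insert (sSup S) S
  have hσ : ∀ x ∈ c, x ≤ sSup S := by
    rintro x (rfl | hx)
    · exact le_rfl
    · exact le_csSup hSb hx
  have hci : ∀ i < ν, (f i).c ⊆ c := fun i hi x hx => Or.inr ⟨i, hi, hx⟩
  have hnew : ∀ i < ν, ∀ x ∈ c, x ∉ (f i).c → ∀ y ∈ (f i).c, y < x := by
    rintro i hi x (rfl | ⟨j, hj, hx⟩) hn y hy
    · refine lt_of_le_of_ne (hσ y (hci i hi hy)) ?_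
      rintro rfl
      exact hn hy
    · rcases le_total j i with h | h
      · exact absurd ((hm j i h hi).1.d.c hx) hn
      · exact (hm i j h hj).1.d.new x hx hn y hy
  have hin : ∀ i < ν, ∀ x ∈ c, ∀ y ∈ (f i).c, x ≤ y → x ∈ (f i).c := by
    intro i hi x hx y hy h
    by_contra hn
    exact (hnew i hi x hx hn y hy).not_ge h
  have hlim : ∀ i < ν, ∀ x, LimP c x → ∀ y ∈ (f i).c, x ≤ y → LimP (f i).c x := by
    intro i hi x hx y hy h
    refine ⟨hx.1, fun z hz => ?_⟩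
    obtain ⟨w, h1, h2, h3⟩ := hx.2 z hz
    exact ⟨w, hin i hi w h1 y hy (h3.le.trans h), h2, h3⟩
  have hbd : ∀ x, Inac x → β < x → (∀ y ∈ S, y < x) → sSup S < x := by
    intro x hx h1 h2
    obtain ⟨b, hb, h3⟩ := hx.bound (rc_lt_inac hν hx h1) m fun i hi => h2 _ ⟨i, hi, (hmx i hi).1⟩
    refine lt_of_le_of_lt (csSup_le hSne ?_) hb
    rintro y ⟨i, hi, hy⟩
    exact ((hmx i hi).2 y hy).trans (h3 i hi).le
  have hcase : ∀ x, LimP c x → (∃ i < ν, ∃ y ∈ (f i).c, x ≤ y) ∨ (x = sSup S ∧ ¬ Inac x) := by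
    intro x hx
    by_cases h : ∃ i < ν, ∃ y ∈ (f i).c, x ≤ y
    · exact Or.inl h
    have h1 : ∀ y ∈ S, y < x := by
      rintro y ⟨i, hi, hy⟩
      exact not_le.1 fun h' => h ⟨i, hi, y, hy, h'⟩
    have h2 : ¬ sSup S < x := by
      intro h'
      obtain ⟨z, g1, g2, -⟩ := hx.2 _ h'
      exact g2.not_ge (hσ z g1)
    refine Or.inr ⟨le_antisymm (not_lt.1 h2) (csSup_le hSne fun y hy => (h1 y hy).le), fun hi => ?_⟩
    exact h2 (hbd x hi (h1 β ⟨0, h0, hβi 0 h0⟩) h1)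
  have hshape : (∀ i < ν, (f i).c = p.c) → c = p.c := by
    intro h
    have e : S = p.c := by
      ext x
      exact ⟨fun ⟨i, hi, hx⟩ => h i hi ▸ hx, fun hx => ⟨0, h0, (h 0 h0).symm ▸ hx⟩⟩
    have e2 : sSup S ∈ S := by
      have : sSup S = m 0 := by
        apply le_antisymm
        · refine csSup_le hSne fun y hy => (hmx 0 h0).2 y ?_
          rw [h 0 h0, ← e]
          exact hy
        · exact le_csSup hSb ⟨0, h0, (hmx 0 h0).1⟩
      rw [this]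
      exact ⟨0, h0, (hmx 0 h0).1⟩
    rw [← e]
    exact insert_eq_of_mem e2
  choose l hl1 hl2 hl3 using rc_pt hν h0 f hf hm c hci
  let u : Raw := ⟨c, fun x => {z | ∃ i < ν, z ∈ (f i).h x}, l⟩
  have hconst : ∀ x, (∀ i < ν, (f i).h x = p.h x) → u.h x = p.h x := by
    intro x h
    ext z
    exact ⟨fun ⟨i, hi, hz⟩ => h i hi ▸ hz, fun hz => ⟨0, h0, (h 0 h0).symm ▸ hz⟩⟩
  have hlo : ∀ x < β, u.h x = p.h x := fun x hx =>
    hconst x fun i hi => ((hf i hi).1.lo x hx).2.1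
  have hnone : ∀ x, (∀ i < ν, (f i).l x = none) → l x = none := by
    intro x h
    rcases e : l x with _ | L
    · rfl
    · obtain ⟨i, hi, M, hM⟩ := (hl1 x L e).2
      rw [h i hi] at hM
      cases hM
  have hl0 : ∀ i < ν, ∀ x ∈ (f i).c, (f i).l x = none → l x = none := by
    intro i hi x hx h
    refine hnone x fun j hj => ?_
    rcases le_total i j with g | g
    · exact (hm i j g hj).1.d.l0 x hx h
    · rcases e : (f j).l x with _ | L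
      · rfl
      · obtain ⟨M, hM, -⟩ := (hm j i g hi).1.d.l1 x L e
        rw [h] at hM
        cases hM
  have hu : C.Valid u := by
    refine ⟨⟨_, Or.inl rfl⟩, ⟨_, hσ⟩, fun x hx => ?_, fun x hx => ?_, fun x hx => ?_, fun x => ?_,
      ?_, fun y hy => ?_, fun x hx => ?_, fun x hx hi => ?_, fun x L hL => (hl1 x L hL).1⟩
    · rcases hcase x hx with ⟨i, hi, y, hy, h⟩ | ⟨rfl, -⟩
      · exact hci i hi ((hv i hi).cl x (hlim i hi x hx y hy h))
      · exact Or.inl rfl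
    · refine eq_empty_of_forall_notMem ?_
      rintro z ⟨i, hi, hz⟩
      rw [(hv i hi).h0 x fun h => hx (hci i hi h)] at hz
      exact hz
    · exact hnone x fun i hi => (hv i hi).l0 x fun h => hx (hci i hi h)
    · rcases lt_or_ge x β with h | h
      · rw [hlo x h]
        exact hp.v.col x
      · exact col_chain (fun i => (f i).h x) (hν.trans (C.bf.mono h))
          (fun i hi => (hv i hi).col x) fun i j g hj => (hm i j g hj).1.d.h x
    · rintro i v ⟨j, hj, hz⟩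
      exact (hv j hj).vs i v hz
    · rintro x hx i v ⟨j, hj, hz⟩
      have key : ∀ y' ∈ S, x < y' → v < (C.B y').ord := by
        rintro y' ⟨k, hk, hy'⟩ h
        rcases le_total j k with g | g
        · exact (hv k hk).bel y' hy' x h i v ((hm j k g hk).1.d.h x hz)
        · exact (hv j hj).bel y' ((hm k j g hj).1.d.c hy') x h i v hz
      rcases hy with rfl | hy
      · obtain ⟨y', g1, g2⟩ := exists_lt_of_lt_csSup hSne hx
        exact (key y' g1 g2).trans_le (C.RB3_ord_mono (le_csSup hSb g1))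
      · exact key y hy hx
    · refine hnone x fun i hi => ?_
      by_cases h : x ∈ (f i).c
      · exact (hv i hi).lim x (hlim i hi x hx x h le_rfl)
      · exact (hv i hi).l0 x h
    · rcases hcase x hx with ⟨i0, hi0, y, hy, h⟩ | ⟨-, h⟩
      swap
      · exact absurd hi h
      have h1 := (hv i0 hi0).eas x (hlim i0 hi0 x hx y hy h) hi
      refine ⟨?_, h1.2⟩
      rcases le_or_gt x β with g | g
      · obtain ⟨w, hw, h2⟩ := h1.1
        refine ⟨w, hw, fun z g1 g2 => ?_⟩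
        have g3 := (hf i0 hi0).1.lo z (g2.trans_le g)
        refine ⟨?_, ?_⟩
        · rw [hlo z (g2.trans_le g), ← g3.2.1]
          exact (h2 z g1 g2).1
        · change l z = none
          rw [hl3 z (Or.inl (g2.le.trans g)), ← g3.2.2]
          exact (h2 z g1 g2).2
      · have h2 : ∀ j, ∃ w, j < ν → w < x ∧
            ∀ z, w < z → z < x → (f j).h z = ∅ ∧ (f j).l z = none := by
          intro j
          by_cases hj : j < ν
          swap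
          · exact ⟨0, fun h' => absurd h' hj⟩
          rcases le_total i0 j with k | k
          · obtain ⟨w, hw, h3⟩ :=
              ((hv j hj).eas x (hlim j hj x hx y ((hm i0 j k hj).1.d.c hy) h) hi).1
            exact ⟨w, fun _ => ⟨hw, h3⟩⟩
          · obtain ⟨w, hw, h3⟩ := h1.1
            refine ⟨w, fun _ => ⟨hw, fun z g1 g2 => ⟨?_, ?_⟩⟩⟩
            · exact subset_eq_empty ((hm j i0 k hi0).1.d.h z) (h3 z g1 g2).1
            · rcases e : (f j).l z with _ | L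
              · rfl
              · obtain ⟨M, hM, -⟩ := (hm j i0 k hi0).1.d.l1 z L e
                rw [(h3 z g1 g2).2] at hM
                cases hM
        choose w hw using h2
        obtain ⟨b, hb, h3⟩ := hi.bound (rc_lt_inac hν hi g) w fun j hj => (hw j hj).1
        refine ⟨b, hb, fun z g1 g2 => ⟨?_, ?_⟩⟩
        · refine eq_empty_of_forall_notMem ?_
          rintro a ⟨j, hj, ha⟩
          rw [((hw j hj).2 z ((h3 j hj).trans g1) g2).1] at ha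
          exact ha
        · exact hnone z fun j hj => ((hw j hj).2 z ((h3 j hj).trans g1) g2).2
  refine ⟨u, fun i hi => ⟨⟨hu, ⟨hci i hi, hnew i hi, fun x z hz => ⟨i, hi, hz⟩, hl0 i hi,
    fun x => hl2 x i hi⟩, fun x hx => ⟨⟨fun h => hin i hi x h β (hβi i hi) hx.le,
      fun h => hci i hi h⟩, ?_, ?_⟩, ⟨fun x hx => ⟨⟨fun h => ?_, fun h => hci i hi h⟩, ?_⟩,
      fun x hx => ?_⟩, ?_⟩, ?_⟩, hshape, fun x ⟨L, hL⟩ => (hl1 x L hL).2⟩
  · rw [hlo x hx, ((hf i hi).1.lo x hx).2.1]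
  · change l x = _
    rw [hl3 x (Or.inl hx.le), ((hf i hi).1.lo x hx).2.2]
  · by_cases htp : t ∈ p.c
    · have e := fun j hj => ds_c_eq (hf j hj).1 htp
      rw [e i hi, ← hshape e]
      exact h
    · rcases hp.cut with g | ⟨g1, -, g3⟩
      · exact absurd g htp
      · have := hbd t g1 (g3 hβ) (by
          rintro y ⟨j, hj, hy⟩
          by_contra hn
          exact hn (g3 ((((hf j hj).1.ag.1 y (not_lt.1 hn)).1).1 hy)))
        exact absurd ((hσ x h).trans_lt this) (not_lt.2 hx)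
  · rw [hconst x fun j hj => ((hf j hj).1.ag.1 x hx).2, ((hf i hi).1.ag.1 x hx).2]
  · change l x = _
    rw [hl3 x (Or.inr hx), (hf i hi).1.ag.2 x hx]
  · rintro x hx a v ⟨j, hj, hz⟩
    exact (hf j hj).1.bel x hx a v hz
  · change l β = _
    rw [hl3 β (Or.inl le_rfl), (hf i hi).2]

theorem rc_setL_ne {x : Od} (g : Lo → Lo) (r : Raw) (h : x ≠ μ) : (setL μ g r).l x = r.l x := by
  simp [setL, Function.update_of_ne h]

theorem rc_setL_self (g : Lo → Lo) (r : Raw) : (setL μ g r).l μ = (r.l μ).map g := by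
  simp [setL]

theorem rc_setL_setL (g g' : Lo → Lo) (r : Raw) :
    setL μ g' (setL μ g r) = setL μ (fun L => g' (g L)) r := by
  refine Raw.ext rfl rfl (funext fun x => ?_)
  by_cases h : x = μ
  · subst h
    rw [rc_setL_self, rc_setL_self, rc_setL_self, Option.map_map]
    rfl
  · rw [rc_setL_ne _ _ h, rc_setL_ne _ _ h, rc_setL_ne _ _ h]

theorem rc_setL_valid {r : Raw} {L' : Lo} (hr : C.Valid r) (hμ : Spec r μ) (hL : C.LV r.c μ L') :
    C.Valid (setL μ (fun _ => L') r) := by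
  obtain ⟨L, hμ⟩ := hμ
  have hn : ∀ x, r.l x = none → (setL μ (fun _ => L') r).l x = none := by
    intro x hx
    rw [rc_setL_ne _ _ ?_, hx]
    rintro rfl
    rw [hx] at hμ
    cases hμ
  refine ⟨hr.ne, hr.bd, hr.cl, hr.h0, fun x hx => hn x (hr.l0 x hx), hr.col, hr.vs, hr.bel,
    fun x hx => hn x (hr.lim x hx), fun x hx hi => ⟨?_, (hr.eas x hx hi).2⟩, fun x M hM => ?_⟩
  · obtain ⟨y, hy, h⟩ := (hr.eas x hx hi).1
    exact ⟨y, hy, fun z h1 h2 => ⟨(h z h1 h2).1, hn z (h z h1 h2).2⟩⟩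
  · by_cases h : x = μ
    · subst h
      rw [rc_setL_self, hμ, Option.map_some, Option.some.injEq] at hM
      exact hM ▸ hL
    · rw [rc_setL_ne _ _ h] at hM
      exact hr.sp x M hM

theorem rc_mix_dt {r q w : Raw} (h : C.DS β t r q) (hβ : β ∈ q.c) (ht : β ≤ t) (hw : C.Valid w)
    (hβ' : β ∈ w.c) : C.DT β t (mix β w r) (mix β w q) := by
  refine ⟨⟨mix_valid hw h.v hβ' (h.d.c hβ), RB3_dle_right h.d, fun x hx => ?_,
    RB3_agree_right h.ag ht, RB3_below_right h.bel ht hw hβ'⟩, ?_⟩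
  · rw [RB3_c_lt hx, RB3_c_lt hx, RB3_h_lt hx, RB3_h_lt hx, RB3_l_le hx.le, RB3_l_le hx.le]
    exact ⟨Iff.rfl, rfl, rfl⟩
  · rw [RB3_l_le le_rfl, RB3_l_le le_rfl]

theorem rc_setL_ds {r u : Raw} {L L' : Lo} (hr : C.DS μ t r p) (hμ : Spec p μ) (ht : μ ≤ t)
    (hu : C.DT μ t u (mix μ p r)) (hL : r.l μ = some L) (hL' : C.LV u.c μ L')
    (hb : L'.A ⊆ L.A ∧ (∀ ξ ∈ L'.A, sec L.F ξ ⊆ sec L'.F ξ) ∧ L'.s = L.s) :
    C.DS μ t (setL μ (fun _ => L') u) r := by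
  obtain ⟨M, hM⟩ := hμ
  have hM' : u.l μ = some M := by rw [hu.2, RB3_l_le le_rfl, hM]
  have ec : ∀ x, x ∈ (mix μ p r).c ↔ x ∈ r.c := by
    intro x
    rcases lt_or_ge x μ with h | h
    · rw [RB3_c_lt h, (hr.lo x h).1]
    · rw [RB3_c_ge h]
  have eh : ∀ x, (mix μ p r).h x = r.h x := by
    intro x
    rcases lt_or_ge x μ with h | h
    · rw [RB3_h_lt h, (hr.lo x h).2.1]
    · rw [RB3_h_ge h]
  have el : ∀ x, x ≠ μ → (mix μ p r).l x = r.l x := by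
    intro x hx
    rcases lt_or_gt_of_ne hx with h | h
    · rw [RB3_l_le h.le, (hr.lo x h).2.2]
    · rw [RB3_l_gt h]
  refine ⟨rc_setL_valid hu.1.v ⟨M, hM'⟩ hL', ⟨fun x hx => hu.1.d.c ((ec x).2 hx),
    fun x hx hn y hy => hu.1.d.new x hx (fun h => hn ((ec x).1 h)) y ((ec y).2 hy),
    fun x => eh x ▸ hu.1.d.h x, fun x hx h => ?_, fun x N h => ?_⟩, fun x hx => ?_,
    ⟨fun x hx => ?_, fun x hx => ?_⟩, hu.1.bel⟩
  · have hne : x ≠ μ := by
      rintro rfl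
      rw [hL] at h
      cases h
    rw [rc_setL_ne _ _ hne]
    exact hu.1.d.l0 x ((ec x).2 hx) (by rw [el x hne, h])
  · by_cases hne : x = μ
    · subst hne
      rw [hL, Option.some.injEq] at h
      subst h
      exact ⟨L', by rw [rc_setL_self, hM', Option.map_some], hb⟩
    · rw [rc_setL_ne _ _ hne]
      exact hu.1.d.l1 x N (by rw [el x hne, h])
  · rw [rc_setL_ne _ _ hx.ne, ← ec, ← eh, ← el x hx.ne]
    exact hu.1.lo x hx
  · rw [← ec, ← eh]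
    exact hu.1.ag.1 x hx
  · have hne : x ≠ μ := (ht.trans_lt hx).ne'
    rw [rc_setL_ne _ _ hne, ← el x hne]
    exact hu.1.ag.2 x hx

/-- The common part of the two constructions at a special point. -/
theorem rc_spec (hp : C.Scope t p) (hμ : Spec p μ) (ht : μ ≤ t) (h0 : 0 < ν) (hν : ν ≤ μ)
    (f : Od → Raw) (hf : ∀ i < ν, C.DS μ t (f i) p)
    (hm : ∀ i j, i ≤ j → j < ν → C.DS μ t (f j) (f i)) :
    ∃ (u : Raw) (L : Od → Lo), (∀ i < ν, C.LV u.c μ (L i)) ∧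
      (∀ i j, i ≤ j → j < ν → (L j).A ⊆ (L i).A ∧
        (∀ ξ ∈ (L j).A, sec (L i).F ξ ⊆ sec (L j).F ξ) ∧ (L j).s = (L i).s) ∧
      ∀ i < ν, ∀ L', C.LV u.c μ L' → (L'.A ⊆ (L i).A ∧
        (∀ ξ ∈ L'.A, sec (L i).F ξ ⊆ sec L'.F ξ) ∧ L'.s = (L i).s) →
        C.DS μ t (setL μ (fun _ => L') u) (f i) := by
  have hμc := spec_mem hp.v hμ
  obtain ⟨u, hu, -⟩ := chain_lb hp hμc ht h0
    ((Ordinal.card_le_card hν).trans (C.bf.card_le _)) (fun i => mix μ p (f i))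
    (fun i hi => by
      have := rc_mix_dt (hf i hi) hμc ht hp.v hμc
      rwa [mix_self] at this)
    fun i j h hj => rc_mix_dt (hm i j h hj) ((hf i (h.trans_lt hj)).d.c hμc) ht hp.v hμc
  let L : Od → Lo := fun i => ((f i).l μ).getD ⟨∅, ∅, ∅⟩
  have hL : ∀ i < ν, (f i).l μ = some (L i) := by
    intro i hi
    obtain ⟨M, hM⟩ := hμ
    obtain ⟨N, hN, -⟩ := (hf i hi).d.l1 μ M hM
    simp only [L, hN, Option.getD_some]
  refine ⟨u, L, fun i hi => rc_lv_mono ((hf i hi).v.sp μ _ (hL i hi)) fun y hy h => ?_,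
    fun i j h hj => ?_, fun i hi L' h1 h2 => rc_setL_ds (hf i hi) hμ ht (hu i hi) (hL i hi) h1 h2⟩
  · exact (hu i hi).1.d.c ((RB3_c_lt h).2 (((hf i hi).lo y h).1.1 hy))
  · obtain ⟨M, g1, g2⟩ := (hm i j h hj).d.l1 μ _ (hL i (h.trans_lt hj))
    rw [hL j hj, Option.some.injEq] at g1
    rw [g1]
    exact g2

theorem chain_lbS (hp : C.Scope t p) (hμ : Spec p μ) (ht : μ ≤ t) (h0 : 0 < ν) (hν : ν < μ)
    (f : Od → Raw) (hf : ∀ i < ν, C.DS μ t (f i) p)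
    (hm : ∀ i j, i ≤ j → j < ν → C.DS μ t (f j) (f i)) :
    ∃ u, ∀ i < ν, C.DS μ t u (f i) := by
  obtain ⟨u, L, h1, h2, h3⟩ := rc_spec hp hμ ht h0 hν.le f hf hm
  obtain ⟨L', g1, g2⟩ := lo_chain L h0 hν h1 h2
  exact ⟨_, fun i hi => h3 i hi L' g1 (g2 i hi)⟩

/-- Abstract transfinite construction of a descending chain. -/
theorem exists_chain {α : Type 2} (R : α → α → Prop) (a : α) (ν : Od) (Q : Od → α → Prop)
    (refl : ∀ x, R x a → R x x) (ha : R a a) (trans : ∀ x y z, R x y → R y z → R x z)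
    (lb : ∀ ν' < ν, 0 < ν' → ∀ f : Od → α, (∀ i < ν', R (f i) a) →
      (∀ i j, i ≤ j → j < ν' → R (f j) (f i)) → ∃ u, ∀ i < ν', R u (f i))
    (dense : ∀ i < ν, ∀ x, R x a → ∃ y, R y x ∧ Q i y) :
    ∃ f : Od → α, (∀ i < ν, R (f i) a ∧ Q i (f i)) ∧ ∀ i j, i ≤ j → j < ν → R (f j) (f i) := by
  classical
  let G : (i : Od) → ((j : Od) → j < i → α) → α := fun i ih =>
    if h : ∃ y, R y a ∧ Q i y ∧ ∀ j (hj : j < i), R y (ih j hj) then h.choose else a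
  let f : Od → α := (wellFounded_lt (α := Od)).fix G
  have hf : ∀ i, f i = G i fun j _ => f j := fun i => WellFounded.fix_eq _ G i
  have key : ∀ i, i < ν → R (f i) a ∧ Q i (f i) ∧ ∀ j < i, R (f i) (f j) := by
    intro i
    induction i using WellFoundedLT.induction with
    | ind i ih =>
      intro hi
      have h : ∃ y, R y a ∧ Q i y ∧ ∀ j, j < i → R y (f j) := by
        rcases eq_or_ne i 0 with rfl | h0
        · obtain ⟨y, h1, h2⟩ := dense 0 hi a ha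
          exact ⟨y, h1, h2, fun j hj => absurd hj not_lt_zero⟩
        · have h0' : 0 < i := pos_iff_ne_zero.2 h0
          obtain ⟨u, hu⟩ := lb i hi h0' f (fun j hj => (ih j hj (hj.trans hi)).1)
            fun j k h hk => by
              rcases h.lt_or_eq with h | rfl
              · exact (ih k hk (hk.trans hi)).2.2 j h
              · exact refl _ (ih j hk (hk.trans hi)).1
          have h1 : R u a := trans _ _ _ (hu 0 h0') (ih 0 h0' (h0'.trans hi)).1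
          obtain ⟨y, h2, h3⟩ := dense i hi u h1
          exact ⟨y, trans _ _ _ h2 h1, h3, fun j hj => trans _ _ _ h2 (hu j hj)⟩
      have e : f i = h.choose := by
        rw [hf i]
        exact dif_pos h
      rw [e]
      exact h.choose_spec
  refine ⟨f, fun i hi => ⟨(key i hi).1, (key i hi).2.1⟩, fun i j h hj => ?_⟩
  rcases h.lt_or_eq with h | rfl
  · exact (key j hj).2.2 i h
  · exact refl _ (key i hj).1

theorem rc_ds_scope {x : Raw} (hp : C.Scope t p) (h : C.DS β t x p) : C.Scope t x :=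
  leT_scope hp (ds_leS hp h).1

/-- Intersection of dense open sets of direct extensions. -/
theorem inter (hp : C.Scope t p) (hβ : β ∈ p.c) (ht : β ≤ t) (hν : ν.card ≤ C.B β)
    (Q : Od → Raw → Prop)
    (dense : ∀ i < ν, ∀ u, C.DT β t u p → ∃ u', C.DT β t u' u ∧ Q i u')
    (op : ∀ i < ν, ∀ u u', C.DT β t u p → C.DT β t u' u → Q i u → Q i u') :
    ∃ u, C.DT β t u p ∧ ∀ i < ν, Q i u := by
  rcases eq_or_ne ν 0 with rfl | h0
  · exact ⟨p, dt_refl hp, fun i hi => absurd hi not_lt_zero⟩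
  have h0' : 0 < ν := pos_iff_ne_zero.2 h0
  obtain ⟨f, h1, h2⟩ := exists_chain (C.DT β t) p ν Q (fun x hx => dt_refl (rc_ds_scope hp hx.1))
    (dt_refl hp) (fun _ _ _ => dt_trans) (fun ν' g1 g2 f g3 g4 => by
      obtain ⟨u, hu, -⟩ := chain_lb hp hβ ht g2 ((Ordinal.card_le_card g1.le).trans hν) f g3 g4
      exact ⟨u, hu⟩) dense
  obtain ⟨u, hu, -⟩ := chain_lb hp hβ ht h0' hν f (fun i hi => (h1 i hi).1) h2
  exact ⟨u, dt_trans (hu 0 h0') (h1 0 h0').1,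
    fun i hi => op i hi _ _ (h1 i hi).1 (hu i hi) (h1 i hi).2⟩

/-- The same for extensions with the same set of points. -/
theorem inter_shape (hp : C.Scope t p) (hβ : β ∈ p.c) (ht : β ≤ t) (hν : ν.card ≤ C.B β)
    (Q : Od → Raw → Prop)
    (dense : ∀ i < ν, ∀ u, C.DT β t u p → u.c = p.c → ∃ u', C.DT β t u' u ∧ u'.c = p.c ∧ Q i u')
    (op : ∀ i < ν, ∀ u u', C.DT β t u p → u.c = p.c → C.DT β t u' u → u'.c = p.c →
      Q i u → Q i u') :
    ∃ u, C.DT β t u p ∧ u.c = p.c ∧ ∀ i < ν, Q i u := by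
  rcases eq_or_ne ν 0 with rfl | h0
  · exact ⟨p, dt_refl hp, rfl, fun i hi => absurd hi not_lt_zero⟩
  have h0' : 0 < ν := pos_iff_ne_zero.2 h0
  obtain ⟨f, h1, h2⟩ := exists_chain (fun u v => C.DT β t u v ∧ u.c = p.c) p ν Q
    (fun x hx => ⟨dt_refl (rc_ds_scope hp hx.1.1), hx.2⟩)
    ⟨dt_refl hp, rfl⟩ (fun _ _ _ g1 g2 => ⟨dt_trans g1.1 g2.1, g1.2⟩)
    (fun ν' g1 g2 f g3 g4 => by
      obtain ⟨u, hu, hc, -⟩ := chain_lb hp hβ ht g2 ((Ordinal.card_le_card g1.le).trans hν) f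
        (fun i hi => (g3 i hi).1) fun i j h hj => (g4 i j h hj).1
      exact ⟨u, fun i hi => ⟨hu i hi, hc fun j hj => (g3 j hj).2⟩⟩)
    (fun i hi x hx => by
      obtain ⟨y, g1, g2, g3⟩ := dense i hi x hx.1 hx.2
      exact ⟨y, ⟨g1, g2⟩, g3⟩)
  obtain ⟨u, hu, hc, -⟩ := chain_lb hp hβ ht h0' hν f (fun i hi => (h1 i hi).1.1)
    fun i j h hj => (h2 i j h hj).1
  have e := hc fun i hi => (h1 i hi).1.2
  exact ⟨u, dt_trans (hu 0 h0') (h1 0 h0').1.1, e,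
    fun i hi => op i hi _ _ (h1 i hi).1.1 (h1 i hi).1.2 (hu i hi) e (h1 i hi).2⟩

theorem interS (hp : C.Scope t p) (hμ : Spec p μ) (ht : μ ≤ t) (hν : ν < μ)
    (Q : Od → Raw → Prop)
    (dense : ∀ i < ν, ∀ u, C.DS μ t u p → ∃ u', C.DS μ t u' u ∧ Q i u')
    (op : ∀ i < ν, ∀ u u', C.DS μ t u p → C.DS μ t u' u → Q i u → Q i u') :
    ∃ u, C.DS μ t u p ∧ ∀ i < ν, Q i u := by
  rcases eq_or_ne ν 0 with rfl | h0
  · exact ⟨p, ds_refl hp, fun i hi => absurd hi not_lt_zero⟩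
  have h0' : 0 < ν := pos_iff_ne_zero.2 h0
  obtain ⟨f, h1, h2⟩ := exists_chain (C.DS μ t) p ν Q (fun x hx => ds_refl (rc_ds_scope hp hx))
    (ds_refl hp) (fun _ _ _ => ds_trans)
    (fun ν' g1 g2 f g3 g4 => chain_lbS hp hμ ht g2 (g1.trans hν) f g3 g4) dense
  obtain ⟨u, hu⟩ := chain_lbS hp hμ ht h0' hν f (fun i hi => (h1 i hi).1) h2
  exact ⟨u, ds_trans (hu 0 h0') (h1 0 h0').1,
    fun i hi => op i hi _ _ (h1 i hi).1 (hu i hi) (h1 i hi).2⟩

/-- Diagonal intersection at a special point. -/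
theorem diag (hp : C.Scope t p) (hμ : Spec p μ) (ht : μ ≤ t) (Q : Od → Raw → Prop)
    (dense : ∀ m < μ, ∀ u, C.DS μ t u p → ∃ u', C.DS μ t u' u ∧ Q m u')
    (op : ∀ m < μ, ∀ u u', C.DS μ t u p → C.DS μ t u' u → Q m u → Q m u') :
    ∃ u, C.DS μ t u p ∧ ∀ m < μ, Q m (C.cutA μ m u) := by
  have h0 : 0 < μ := (spec_inac hp.v hμ).1.isSuccLimit.pos
  obtain ⟨f, h1, h2⟩ := exists_chain (C.DS μ t) p μ Q (fun x hx => ds_refl (rc_ds_scope hp hx))
    (ds_refl hp) (fun _ _ _ => ds_trans)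
    (fun ν' g1 g2 f g3 g4 => chain_lbS hp hμ ht g2 g1 f g3 g4) dense
  obtain ⟨u, L, k1, k2, k3⟩ := rc_spec hp hμ ht h0 le_rfl f (fun i hi => (h1 i hi).1) h2
  obtain ⟨L', g1, g2, g3, g4⟩ := lo_diag L k1 h0 k2
  have g5 := rc_lv_cut g1 h0
  refine ⟨_, ds_trans (k3 0 h0 _ g5 ⟨fun ξ hξ => g2 hξ.1,
    fun ξ hξ => (g4 0 h0 ξ hξ.1 hξ.2).2, g3⟩) (h1 0 h0).1, fun m hm => ?_⟩
  refine op m hm (f m) _ (h1 m hm).1 ?_ (h1 m hm).2
  unfold Dat.cutA
  rw [rc_setL_setL]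
  exact k3 m hm _ (rc_lv_cut g5 hm) ⟨fun ξ hξ => (g4 m hm ξ hξ.1.1 hξ.2).1,
    fun ξ hξ => (g4 m hm ξ hξ.1.1 hξ.2).2, g3.trans (k2 0 m zero_le hm).2.2.symm⟩

end Ctx

end Pool.Agent.MP_85ce7b_lc

end

section

namespace Pool.Agent.MP_85ce7b_lc

open Set Cardinal Ordinal Dat

/-- Sets of size at most `a`. -/
def RLs {α : Type 2} (a : Cardinal.{1}) (S : Set α) : Prop := Cardinal.mk S ≤ lift.{2} a

namespace RLs

variable {α β : Type 2} {a b : Cardinal.{1}} {S S' : Set α} {T : Set β}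

theorem mono (h : RLs a S) (hs : S' ⊆ S) : RLs a S' :=
  (Cardinal.mk_le_mk_of_subset hs).trans h

theorem up (h : RLs a S) (hab : a ≤ b) : RLs b S :=
  le_trans h (Cardinal.lift_le.2 hab)

theorem prod (ha : ℵ₀ ≤ a) (h : RLs a S) (h' : RLs a T) : RLs a (S ×ˢ T) := by
  unfold RLs at *
  rw [Cardinal.mk_setProd]
  exact (mul_le_mul' h h').trans (Cardinal.mul_eq_self (Cardinal.aleph0_le_lift.2 ha)).le

theorem image (h : RLs a S) (f : α → β) : RLs a (f '' S) :=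
  le_trans Cardinal.mk_image_le h

theorem union (ha : ℵ₀ ≤ a) (h : RLs a S) (h' : RLs a S') : RLs a (S ∪ S') := by
  unfold RLs at *
  exact (Cardinal.mk_union_le _ _).trans ((add_le_add h h').trans
    (Cardinal.add_eq_self (Cardinal.aleph0_le_lift.2 ha)).le)

theorem iio {x : Od} (h : x.card ≤ a) : RLs a (Iio x) := by
  unfold RLs
  rw [Cardinal.mk_Iio_ordinal]
  exact Cardinal.lift_le.2 h

theorem fin (ha : ℵ₀ ≤ a) (h : S.Finite) : RLs a S :=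
  le_trans h.lt_aleph0.le (Cardinal.aleph0_le_lift.2 ha)

theorem bsub (ha : ℵ₀ ≤ a) (h : RLs a S) (hab : a ^ b = a) : RLs a {t | t ⊆ S ∧ RLs b t} := by
  refine le_trans (Cardinal.mk_bounded_subset_le S (lift.{2} b)) ?_
  refine (Cardinal.power_le_power_right (max_le h (Cardinal.aleph0_le_lift.2 ha))).trans ?_
  rw [← Cardinal.lift_power, hab]

theorem inj {f : α → β} (h : RLs a T) (hm : MapsTo f S T) (hi : InjOn f S) : RLs a S := by
  refine le_trans ?_ h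
  refine Cardinal.mk_le_of_injective (f := fun x => ⟨f x.1, hm x.2⟩) fun x y hxy => ?_
  exact Subtype.ext (hi x.2 y.2 (congrArg Subtype.val hxy))

theorem biUnion (ha : ℵ₀ ≤ a) (h : RLs a S) {F : α → Set β} (hF : ∀ x ∈ S, RLs a (F x)) :
    RLs a (⋃ x ∈ S, F x) := by
  unfold RLs at *
  refine (Cardinal.mk_biUnion_le F S).trans ?_
  refine le_trans (mul_le_mul' h (ciSup_le' fun x => hF x.1 x.2)) ?_
  exact (Cardinal.mul_eq_self (Cardinal.aleph0_le_lift.2 ha)).le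

/-- Functions on a small set with values in a set of moderate size. -/
theorem graph {γ : Type 2} {Q : Set γ} (ha : ℵ₀ ≤ a) (hba : b ≤ a) (hab : a ^ b = a) (h : RLs b S)
    (h' : RLs a T) (f : γ → α → β) (hf : ∀ q ∈ Q, ∀ x ∈ S, f q x ∈ T)
    (hi : ∀ q ∈ Q, ∀ q' ∈ Q, (∀ x ∈ S, f q x = f q' x) → q = q') : RLs a Q := by
  refine inj (f := fun q => (fun x => (x, f q x)) '' S)
    (bsub ha (prod ha (h.up hba) h') hab) (fun q hq => ⟨?_, h.image _⟩) fun q hq q' hq' e => ?_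
  · rintro _ ⟨x, hx, rfl⟩
    exact ⟨hx, hf q hq x hx⟩
  · refine hi q hq q' hq' fun x hx => ?_
    have h1 : (x, f q x) ∈ (fun x => (x, f q' x)) '' S := by
      have e' : (fun x => (x, f q x)) '' S = (fun x => (x, f q' x)) '' S := e
      rw [← e']
      exact ⟨x, hx, rfl⟩
    obtain ⟨y, -, h2⟩ := h1
    obtain ⟨rfl, h3⟩ := Prod.mk.inj h2
    exact h3.symm

/-- Closure in `b⁺` steps. -/
theorem closure (hb : ℵ₀ ≤ b) (hba : b < a) (F : Set α → Set α)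
    (hF : ∀ X, RLs a X → RLs a (F X)) :
    ∃ X, RLs a X ∧ ∀ Y ⊆ X, RLs b Y → ∃ X', Y ⊆ X' ∧ F X' ⊆ X := by
  have ha : ℵ₀ ≤ a := hb.trans hba.le
  let G : Od → Set α := (wellFounded_lt (α := Od)).fix fun i ih => F (⋃ j, ⋃ h : j < i, ih j h)
  have hG : ∀ i, G i = F (⋃ j ∈ Iio i, G j) := fun i => by
    have := (wellFounded_lt (α := Od)).fix_eq
      (fun i (ih : ∀ j, j < i → Set α) => F (⋃ j, ⋃ h : j < i, ih j h)) i
    exact this
  have hs : ∀ i, i < (Order.succ b).ord → RLs a (G i) := by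
    intro i
    induction i using WellFoundedLT.induction with
    | ind i ih =>
      intro hi
      rw [hG]
      refine hF _ (biUnion ha (iio ?_) fun j hj => ih j hj (lt_trans hj hi))
      exact (Order.lt_succ_iff.1 (lt_ord.1 hi)).trans hba.le
  refine ⟨⋃ i ∈ Iio (Order.succ b).ord, G i, biUnion ha (iio ?_) hs, fun Y hY hYb => ?_⟩
  · rw [card_ord]
    exact Order.succ_le_of_lt hba
  have h1 : ∀ y, ∃ i, y ∈ Y → i < (Order.succ b).ord ∧ y ∈ G i := fun y => by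
    by_cases hy : y ∈ Y
    · obtain ⟨i, hi, h⟩ := mem_iUnion₂.1 (hY hy)
      exact ⟨i, fun _ => ⟨hi, h⟩⟩
    · exact ⟨0, fun h => absurd h hy⟩
  choose g hg using h1
  have hr := isRegular_succ hb
  obtain ⟨e, he, h2⟩ := bound_set_of_lt_cof (S := g '' Y) (τ := (Order.succ b).ord)
    (by rintro _ ⟨y, hy, rfl⟩; exact (hg y hy).1) (isSuccLimit_ord hr.aleph0_le) (by
      rw [hr.cof_ord]
      exact lt_of_le_of_lt (hYb.image g) (Cardinal.lift_lt.2 (Order.lt_succ b)))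
  refine ⟨⋃ j ∈ Iio e, G j, fun y hy => mem_iUnion₂.2 ⟨g y, h2 ⟨y, hy, rfl⟩, (hg y hy).2⟩, ?_⟩
  rw [← hG]
  exact fun z hz => mem_iUnion₂.2 ⟨e, he, hz⟩

end RLs

namespace Ctx

variable {C : Ctx} {p : Raw} {δ μ : Od}

theorem rl_box (C : Ctx) (y : Od) :
    RLs (C.B (y + 1)) {f : Set (Od × Od) |
      f ⊆ Iio (C.B (y + 1)).ord ×ˢ Iio (C.B (y + 1)).ord ∧ RLs (C.B y) f} :=
  RLs.bsub (C.bf.aleph0_le _) (RLs.prod (C.bf.aleph0_le _) (RLs.iio (card_ord _).le)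
    (RLs.iio (card_ord _).le)) (C.bf.pow_eq y)

theorem rl_col (C : Ctx) {x y : Od} (h : x ≤ y) {f : Set (Od × Od)} (h₁ : C.Col x f)
    (h₂ : ∀ i v, (i, v) ∈ f → v < (C.B (y + 1)).ord) :
    f ⊆ Iio (C.B (y + 1)).ord ×ˢ Iio (C.B (y + 1)).ord ∧ RLs (C.B y) f := by
  refine ⟨fun z hz => ⟨?_, h₂ z.1 z.2 hz⟩, RLs.up h₁.card (C.bf.mono h)⟩
  exact (h₁.dom z.1 z.2 hz).trans_le ((C.dm_le x).trans
    (Cardinal.ord_le_ord.2 (C.bf.mono (add_le_add_left h 1))))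

/-- There are few collapse conditions at `x`. -/
theorem col_card (C : Ctx) {x y : Od} (h : x ≤ y) :
    Cardinal.mk {f : Set (Od × Od) | C.Col x f ∧ ∀ i v, (i, v) ∈ f → v < (C.B (y + 1)).ord} ≤
      lift.{2} (C.B (y + 1)) := by
  exact (C.rl_box y).mono fun f hf => C.rl_col h hf.1 hf.2

theorem rl_iio (C : Ctx) (y : Od) : RLs (C.B y) (Iio (y + 1)) := by
  refine RLs.iio ?_
  rw [Ordinal.card_add_one]
  exact (add_le_add (C.bf.card_le y) (Cardinal.one_le_aleph0.trans (C.bf.aleph0_le y))).trans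
    (Cardinal.add_eq_self (C.bf.aleph0_le y)).le

theorem rl_lo (C : Ctx) (y : Od) :
    RLs (C.B (y + 1)) {o : Option Lo | ∀ L, o = some L →
      L.A ⊆ Iio (y + 1) ∧ L.F ⊆ Iio (y + 1) ×ˢ Iio (y + 1) ×ˢ Iio (y + 1) ∧
        L.s ⊆ Iio (y + 1)} := by
  have h0 := C.bf.aleph0_le (y + 1)
  have h0' := C.bf.aleph0_le y
  have hle := C.bf.mono (lt_add_one y).le
  have h1 := C.rl_iio y
  have h3 := RLs.prod h0' h1 (RLs.prod h0' h1 h1)
  have k1 := RLs.bsub h0 (h1.up hle) (C.bf.pow_eq y)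
  have k3 := RLs.bsub h0 (h3.up hle) (C.bf.pow_eq y)
  have k := (RLs.prod h0 k1 (RLs.prod h0 k3 k1)).image
    fun z => (some ⟨z.1, z.2.1, z.2.2⟩ : Option Lo)
  refine (RLs.union h0 (RLs.fin h0 (finite_singleton none)) k).mono ?_
  rintro (_ | L) hL
  · exact Or.inl rfl
  · obtain ⟨a1, a2, a3⟩ := hL L rfl
    exact Or.inr ⟨(L.A, L.F, L.s), ⟨⟨a1, h1.mono a1⟩, ⟨a2, h3.mono a2⟩, a3, h1.mono a3⟩, rfl⟩

open Classical in
theorem rl_count {y : Od} (hδ : δ ≤ y + 1)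
    (hl : ∀ q, C.LeT δ q p → q.l (y + 1) = p.l (y + 1)) :
    RLs (C.B (y + 1)) {q | C.LeT δ q p} := by
  have h0 := C.bf.aleph0_le (y + 1)
  refine RLs.graph h0 (C.bf.mono (lt_add_one y).le) (C.bf.pow_eq y) (C.rl_iio y)
    (RLs.prod h0 (RLs.fin h0 (toFinite (univ : Set (ULift.{2} Prop))))
      (RLs.prod h0 (C.rl_box y) (C.rl_lo y)))
    (fun q x => (ULift.up (x ∈ q.c), if x < δ then q.h x else ∅, q.l x)) ?_ ?_
  · intro q hq x hx
    have hv := le_valid hq.le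
    have hxy : x ≤ y := Order.lt_add_one_iff.1 hx
    refine ⟨mem_univ _, ?_, fun L hL => ?_⟩
    · dsimp only
      split_ifs with h
      · exact C.rl_col hxy (hv.col x) fun i v hiv =>
          (hq.bel x h i v hiv).trans_le (Cardinal.ord_le_ord.2 (C.bf.mono hδ))
      · exact ⟨empty_subset _, RLs.fin (C.bf.aleph0_le y) finite_empty⟩
    · have k := hv.sp x L hL
      refine ⟨k.Alt.trans (Iio_subset_Iio (le_of_lt hx)), fun z hz => ?_, fun z hz => ?_⟩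
      · obtain ⟨a1, a2, a3⟩ := k.Fb hz
        exact ⟨lt_trans a1 hx, lt_trans a2 hx, lt_trans a3 hx⟩
      · obtain ⟨w, -, a1, a2⟩ := k.s z hz
        exact (a1.trans_lt a2).trans hx
  · intro q hq q' hq' e
    refine Raw.ext (Set.ext fun x => ?_) (funext fun x => ?_) (funext fun x => ?_)
    · rcases lt_or_ge x δ with h | h
      · exact Iff.of_eq (congrArg (fun z => z.1.down) (e x (h.trans_le hδ)))
      · exact (hq.ag.1 x h).1.trans (hq'.ag.1 x h).1.symm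
    · rcases lt_or_ge x δ with h | h
      · have := congrArg (fun z => z.2.1) (e x (h.trans_le hδ))
        simpa only [if_pos h] using this
      · exact (hq.ag.1 x h).2.trans (hq'.ag.1 x h).2.symm
    · rcases lt_trichotomy x (y + 1) with h | rfl | h
      · exact congrArg (fun z => z.2.2) (e x h)
      · exact (hl q hq).trans (hl q' hq').symm
      · exact (hq.ag.2 x (hδ.trans_lt h)).trans (hq'.ag.2 x (hδ.trans_lt h)).symm

theorem rl_l_none {q : Raw} (hq : C.Valid q) {x : Od} (hx : x ≤ C.s + 1) : q.l x = none := by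
  rcases e : q.l x with _ | L
  · rfl
  · exact absurd (hq.sp x L e).gt hx.not_gt

/-- There are few lower parts at a good point. -/
theorem low_enum (hδ : Good0 p δ) :
    ∃ en : Od → Raw, ∀ q, C.LeT δ q p → ∃ i < (C.B δ).ord, en i = q := by
  have : Nonempty Raw := ⟨p⟩
  refine exists_enum_of_le (S := {q | C.LeT δ q p}) ?_
  rcases hδ with ⟨h1, h2, y, rfl⟩ | ⟨rfl, -⟩
  · exact rl_count le_rfl fun q hq => (le_l0 hq.le h1 h2).trans h2.symm
  · refine (RLs.fin (C.bf.aleph0_le 0) (finite_singleton p)).mono fun q hq => ?_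
    refine eq_of_agLo_agree (β := 0) ⟨fun x hx => absurd hx (not_lt.2 zero_le), ?_⟩ hq.ag
    rw [rl_l_none (le_valid hq.le) zero_le, rl_l_none hq.le.1 zero_le]

/-- There are few lower parts at any point. -/
theorem low_small (hδ : δ ∈ p.c) (hμ : Inac μ) (h : δ < μ) :
    ∃ ν < μ, ∃ en : Od → Raw, ∀ q, C.LeT δ q p → ∃ i < ν, en i = q := by
  have _ := hδ
  have : Nonempty Raw := ⟨p⟩
  refine ⟨(C.B (δ + 1)).ord, C.bf.lt_inac hμ (hμ.isSuccLimit.add_one_lt h), ?_⟩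
  exact exists_enum_of_le (S := {q | C.LeT δ q p})
    (rl_count (lt_add_one δ).le fun q hq => hq.ag.2 _ (lt_add_one δ))

theorem rl_shrink {q r : Raw} (hr : C.Valid r) (hc : q.c = r.c) (hl : q.l = r.l)
    (hh : ∀ x, q.h x ⊆ r.h x) : C.Valid q := by
  refine ⟨hc ▸ hr.ne, hc ▸ hr.bd, hc ▸ hr.cl, fun x hx => ?_, fun x hx => ?_, fun x => ?_,
    fun i v h => hr.vs i v (hh _ h), fun y hy x hx i v h => ?_, fun x hx => ?_,
    fun x hx hi => ?_, fun m L hL => ?_⟩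
  · exact subset_eq_empty (hh x) (hr.h0 x (hc ▸ hx))
  · rw [hl]
    exact hr.l0 x (hc ▸ hx)
  · exact ⟨fun i v v' h h' => (hr.col x).fn i v v' (hh x h) (hh x h'),
      fun i v h => (hr.col x).dom i v (hh x h),
      (Cardinal.mk_le_mk_of_subset (hh x)).trans (hr.col x).card⟩
  · exact hr.bel y (hc ▸ hy) x hx i v (hh x h)
  · rw [hl]
    exact hr.lim x (hc ▸ hx)
  · obtain ⟨⟨y, hy, h1⟩, h2⟩ := hr.eas x (hc ▸ hx) hi
    refine ⟨⟨y, hy, fun z a b => ⟨subset_eq_empty (hh z) (h1 z a b).1, ?_⟩⟩, h2⟩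
    rw [hl]
    exact (h1 z a b).2
  · rw [hc]
    exact hr.sp m L (hl ▸ hL)

theorem rl_leT {q r : Raw} {t : Od} (hq : C.Valid q) (hr : C.Valid r) (ht : t ∈ r.c)
    (hc : q.c = r.c) (hl : q.l = r.l) (hh : ∀ x, r.h x ⊆ q.h x)
    (he : ∀ x, t ≤ x → q.h x = r.h x) : C.LeT t q r := by
  refine ⟨le_of_dle hr hq ⟨hc.ge, fun x hx hn => absurd (hc ▸ hx) hn, hh, fun x _ h => ?_,
    fun x L h => ⟨L, ?_, subset_rfl, fun _ _ => subset_rfl, rfl⟩⟩,
    ⟨fun x hx => ⟨by rw [hc], he x hx⟩, fun x _ => by rw [hl]⟩, hq.bel t (hc ▸ ht)⟩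
  · rwa [hl]
  · rwa [hl]

theorem rl_same {r : Raw} (hc : Icc 0 (C.s + 1) ⊆ p.c) (h : C.LeT (C.s + 1) r p) :
    r.c = p.c ∧ r.l = p.l := by
  refine ⟨Subset.antisymm (fun x hx => ?_) (le_c h.le), funext fun x => ?_⟩
  · rcases le_total x (C.s + 1) with h1 | h1
    · exact hc ⟨zero_le, h1⟩
    · exact (h.ag.1 x h1).1.1 hx
  · rcases le_or_gt x (C.s + 1) with h1 | h1
    · rw [rl_l_none (le_valid h.le) h1, rl_l_none h.le.1 h1]
    · exact h.ag.2 x h1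

theorem rl_cnt (hc : Icc 0 (C.s + 1) ⊆ p.c) {X : Set Od} (hX : RLs (2 ^ C.B C.s) X) :
    RLs (2 ^ C.B C.s) {r | C.LeT (C.s + 1) r p ∧ Prod.fst '' r.h C.s ⊆ X} := by
  have h0 := C.bf.aleph0_le C.s
  have h1 := (Cardinal.cantor (C.B C.s)).le
  have h2 := h0.trans h1
  have h3 := two_pow_pow h0
  have h4 : RLs (2 ^ C.B C.s) (Iio ((2 : Cardinal.{1}) ^ C.B C.s).ord) := RLs.iio (card_ord _).le
  refine RLs.graph h2 h1 h3 (C.rl_iio C.s)
    (RLs.bsub h2 (RLs.prod h2 (RLs.union h2 h4 hX) h4) h3) (fun r x => r.h x) ?_ ?_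
  · rintro r ⟨hr, hd⟩ x hx
    have hv := le_valid hr.le
    have hxs : x ≤ C.s := Order.lt_add_one_iff.1 hx
    refine ⟨fun z hz => ?_, RLs.up (hv.col x).card (C.bf.mono hxs)⟩
    rcases hxs.lt_or_eq with h | rfl
    · have k : (C.B (x + 1)).ord ≤ ((2 : Cardinal.{1}) ^ C.B C.s).ord :=
        Cardinal.ord_le_ord.2 ((C.bf.mono (Order.add_one_le_of_lt h)).trans h1)
      refine ⟨Or.inl (((hv.col x).dom z.1 z.2 hz).trans_le ((C.dm_le x).trans k)), ?_⟩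
      exact (hv.bel (x + 1) (le_c hr.le (hc ⟨zero_le, add_le_add_left h.le 1⟩)) x (lt_add_one x)
        z.1 z.2 hz).trans_le k
    · exact ⟨Or.inr (hd ⟨z, hz, rfl⟩), hv.vs z.1 z.2 hz⟩
  · rintro r ⟨hr, -⟩ r' ⟨hr', -⟩ e
    refine Raw.ext ((rl_same hc hr).1.trans (rl_same hc hr').1.symm) (funext fun x => ?_)
      ((rl_same hc hr).2.trans (rl_same hc hr').2.symm)
    rcases lt_or_ge x (C.s + 1) with h | h
    · exact e x h
    · exact (hr.ag.1 x h).2.trans (hr'.ag.1 x h).2.symm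

theorem rl_setH_self (x : Od) (f : Set (Od × Od)) (r : Raw) : (setH x f r).h x = f := by
  simp [setH]

theorem rl_setH_ne {x z : Od} (f : Set (Od × Od)) (r : Raw) (h : z ≠ x) :
    (setH x f r).h z = r.h z := by
  simp [setH, Function.update_of_ne h]

/-- The chain condition of the part below `s + 1`. -/
theorem cc_s (hp : C.Valid p) (hc : Icc 0 (C.s + 1) ⊆ p.c) (O : Raw → Prop)
    (hO : ∀ r, C.LeT (C.s + 1) r p → ∃ r', C.LeT (C.s + 1) r' r ∧ O r') :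
    ∃ S : Set Raw, Cardinal.mk S ≤ lift.{2} ((2 : Cardinal.{1}) ^ C.B C.s) ∧
      (∀ a ∈ S, C.LeT (C.s + 1) a p ∧ O a) ∧
      ∀ r, C.LeT (C.s + 1) r p → ∃ a ∈ S, ∃ r', C.LeT (C.s + 1) r' r ∧ C.LeT (C.s + 1) r' a := by
  have h0 := C.bf.aleph0_le C.s
  have h1 := Cardinal.cantor (C.B C.s)
  have h2 := h0.trans h1.le
  choose! a ha hO' using hO
  obtain ⟨X, hX, hcl⟩ := RLs.closure h0 h1 (fun X : Set Od => Prod.fst '' p.h C.s ∪
      ⋃ r ∈ {r | C.LeT (C.s + 1) r p ∧ Prod.fst '' r.h C.s ⊆ X}, Prod.fst '' (a r).h C.s)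
    fun X hX => RLs.union h2 (RLs.image (RLs.up (hp.col _).card h1.le) _)
      (RLs.biUnion h2 (rl_cnt hc hX) fun r hr =>
        RLs.image (RLs.up ((le_valid (ha r hr.1).le).col _).card h1.le) _)
  have hpX : Prod.fst '' p.h C.s ⊆ X := by
    obtain ⟨X', -, h⟩ := hcl ∅ (empty_subset _) (RLs.fin h0 finite_empty)
    exact subset_union_left.trans h
  refine ⟨a '' {r | C.LeT (C.s + 1) r p ∧ Prod.fst '' r.h C.s ⊆ X}, (rl_cnt hc hX).image a,
    ?_, fun r hr => ?_⟩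
  · rintro _ ⟨r, hr, rfl⟩
    exact ⟨leT_trans (ha r hr.1) hr.1, hO' r hr.1⟩
  have hs1 : C.s + 1 ∈ p.c := hc ⟨zero_le, le_rfl⟩
  have hs0 : C.s ∈ p.c := hc ⟨zero_le, (lt_add_one _).le⟩
  have hne : ∀ x, C.s + 1 ≤ x → x ≠ C.s := fun x hx => ((lt_add_one _).trans_le hx).ne'
  have hv := le_valid hr.le
  obtain ⟨rc, rl⟩ := rl_same hc hr
  obtain ⟨r₀, hr₀⟩ : ∃ r₀, r₀ = setH C.s (r.h C.s ∩ {z | z.1 ∈ X}) r := ⟨_, rfl⟩
  have e1 : r₀.h C.s = r.h C.s ∩ {z | z.1 ∈ X} := hr₀ ▸ rl_setH_self _ _ _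
  have e2 : ∀ x, x ≠ C.s → r₀.h x = r.h x := fun x hx => hr₀ ▸ rl_setH_ne _ _ hx
  have e3 : r₀.c = r.c := hr₀ ▸ rfl
  have e4 : r₀.l = r.l := hr₀ ▸ rfl
  have v₀ : C.Valid r₀ := rl_shrink hv e3 e4 fun x => by
    by_cases hx : x = C.s
    · rw [hx, e1]
      exact inter_subset_left
    · rw [e2 x hx]
  have l₀ : C.LeT (C.s + 1) r₀ p := by
    refine rl_leT v₀ hp hs1 (e3.trans rc) (e4.trans rl) (fun x => ?_) fun x hx => ?_
    · by_cases hx : x = C.s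
      · rw [hx, e1]
        exact fun z hz => ⟨le_h hr.le _ hz, hpX ⟨z, hz, rfl⟩⟩
      · rw [e2 x hx]
        exact le_h hr.le x
    · rw [e2 x (hne x hx), (hr.ag.1 x hx).2]
  have d₀ : Prod.fst '' r₀.h C.s ⊆ X := by
    rintro _ ⟨z, hz, rfl⟩
    rw [e1] at hz
    exact hz.2
  have la := ha r₀ l₀
  have lp := leT_trans la l₀
  have va := le_valid la.le
  obtain ⟨ac, al⟩ := rl_same hc lp
  have da : ∀ i v, (i, v) ∈ (a r₀).h C.s → i ∈ X := by
    obtain ⟨X', k1, k2⟩ := hcl _ d₀ (RLs.image (v₀.col _).card _)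
    exact fun i v h => k2 (Or.inr (mem_iUnion₂.2 ⟨r₀, ⟨l₀, k1⟩, (i, v), h, rfl⟩))
  have key : ∀ i v v', (i, v) ∈ (a r₀).h C.s → (i, v') ∈ r.h C.s → v = v' := fun i v v' k1 k2 =>
    (va.col _).fn i v v' k1 (le_h la.le _ (e1 ▸ ⟨k2, da i v k1⟩))
  have ds : C.DS C.s (C.s + 1) (setH C.s ((a r₀).h C.s ∪ r.h C.s) (a r₀)) (a r₀) := by
    refine setH_ds (scope_of_mem va (ac ▸ hs1)) (ac ▸ hs0) (lt_add_one _) ⟨?_, ?_, ?_⟩
      subset_union_left ?_
    · rintro i v v' (k1 | k1) (k2 | k2)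
      · exact (va.col _).fn i v v' k1 k2
      · exact key i v v' k1 k2
      · exact (key i v' v k2 k1).symm
      · exact (hv.col _).fn i v v' k1 k2
    · rintro i v (k | k)
      · exact (va.col _).dom i v k
      · exact (hv.col _).dom i v k
    · exact RLs.union h0 (va.col _).card (hv.col _).card
    · rintro i v (k | k)
      · exact ⟨va.bel _ (ac ▸ hs1) _ (lt_add_one _) i v k, fun y hy h => va.bel y hy _ h i v k,
          fun _ => va.vs i v k⟩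
      · exact ⟨hv.bel _ (rc ▸ hs1) _ (lt_add_one _) i v k,
          fun y hy h => hv.bel y (rc ▸ ac ▸ hy) _ h i v k, fun _ => hv.vs i v k⟩
  refine ⟨a r₀, ⟨r₀, ⟨l₀, d₀⟩, rfl⟩, _, ?_, (ds_leS (scope_of_mem va (ac ▸ hs1)) ds).1⟩
  refine rl_leT ds.v hv (rc ▸ hs1) (ac.trans rc.symm) (al.trans rl.symm) (fun x => ?_)
    fun x hx => ?_
  · by_cases hx : x = C.s
    · rw [hx, rl_setH_self]
      exact subset_union_right
    · rw [rl_setH_ne _ _ hx, ← e2 x hx]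
      exact le_h la.le x
  · rw [rl_setH_ne _ _ (hne x hx), (lp.ag.1 x hx).2, (hr.ag.1 x hx).2]

end Ctx

end Pool.Agent.MP_85ce7b_lc

end

section

namespace Pool.Agent.MP_85ce7b_lc

open Set Cardinal Ordinal Dat

namespace Ctx

variable {C : Ctx} {p : Raw} {t δ μ ν : Od}

theorem RU_inter (hp : C.Scope t p) (hδ : Good0 p δ) (ht : δ ≤ t) (hν : ν.card ≤ C.B δ)
    (Q : Od → Raw → Raw → Prop)
    (dense : ∀ i l, C.LeT δ l p → ∀ u, C.DT δ t u p → ∃ u', C.DT δ t u' u ∧ Q i l u')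
    (op : ∀ i l, C.LeT δ l p → ∀ u u', C.DT δ t u p → C.DT δ t u' u → Q i l u → Q i l u') :
    ∃ u, C.DT δ t u p ∧ ∀ i < ν, ∀ l, C.LeT δ l p → Q i l u := by
  obtain ⟨en, hen⟩ := low_enum (C := C) hδ
  obtain ⟨f, g, -, hfg⟩ := exists_pairing (C.bf.aleph0_le δ)
  obtain ⟨s, hs⟩ := exists_surj_of_card_le hν
  obtain ⟨u, hu, hQ⟩ := inter (ν := (C.B δ).ord) hp (good0_mem hp.v hδ).1 ht (card_ord _).le
    (fun k u => C.LeT δ (en (g k)) p → Q (s (f k)) (en (g k)) u)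
    (fun k _ u hu => by
      by_cases h : C.LeT δ (en (g k)) p
      · obtain ⟨u', h1, h2⟩ := dense (s (f k)) _ h u hu
        exact ⟨u', h1, fun _ => h2⟩
      · exact ⟨u, dt_refl (leT_scope hp (ds_leS hp hu.1).1), fun h' => absurd h' h⟩)
    (fun k _ u u' h1 h2 h3 h => op _ _ h u u' h1 h2 (h3 h))
  refine ⟨u, hu, fun i hi l hl => ?_⟩
  obtain ⟨a, ha, rfl⟩ := hs i hi
  obtain ⟨b, hb, rfl⟩ := hen l hl
  obtain ⟨k, hk, rfl, rfl⟩ := hfg a ha b hb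
  exact hQ k hk hl

theorem RU_mix_leT {l u : Raw} (hp : C.Scope t p) (hδ : δ ∈ p.c) (ht : δ ≤ t)
    (hl : C.LeT δ l p) (hu : C.LeT t u p) : C.LeT t (mix δ l u) p := by
  have h1 := mix_leT_right hu hδ ht (le_valid hl.le) (le_c hl.le hδ)
  rw [mix_eq_left hl.ag] at h1
  exact leT_trans h1 (leT_mono hl (scope_of_mem hp.v hδ) hp ht)

/-- Uniformization at a good point. -/
theorem unif_good (hp : C.Scope t p) (hδ : Good0 p δ) (ht : δ ≤ t) (hν : ν.card ≤ C.B δ)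
    (N : Od → Raw → Prop)
    (hN : ∀ j r r', C.LeT t r p → N j r → C.DT δ t r' r → N j r') :
    ∃ u, C.DT δ t u p ∧ ∀ j < ν, ∀ r, C.LeT t r u → DirA δ r u → N j r → N j (mix δ r u) := by
  have hm := (good0_mem hp.v hδ).1
  obtain ⟨u, hu, hQ⟩ := RU_inter hp hδ ht hν
    (fun j l u => N j (mix δ l u) ∨ ∀ u', C.DT δ t u' u → ¬ N j (mix δ l u'))
    (fun j l _ u hu => by
      by_cases h : ∃ u', C.DT δ t u' u ∧ N j (mix δ l u')
      · obtain ⟨u', h1, h2⟩ := h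
        exact ⟨u', h1, Or.inl h2⟩
      · exact ⟨u, dt_refl (leT_scope hp (ds_leS hp hu.1).1),
          Or.inr fun u' h1 h2 => h ⟨u', h1, h2⟩⟩)
    (fun j l hl u u' h1 h2 h3 => by
      rcases h3 with h3 | h3
      · exact Or.inl (hN j _ _ (RU_mix_leT hp hm ht hl (ds_leS hp h1.1).1) h3
          (mix_dt h2 (h1.1.d.c hm) ht (le_valid hl.le) (le_c hl.le hm)))
      · exact Or.inr fun v hv => h3 v (dt_trans hv h2))
  refine ⟨u, hu, fun j hj r hr hd hn => ?_⟩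
  have hrp := leT_trans hr (ds_leS hp hu.1).1
  rcases hQ j hj _ (low_leT hrp.le hm) with h | h
  · rwa [mix_mix_left] at h
  · have h1 := h _ (dirA_dt hr hd (hu.1.d.c hm) ht)
    rw [mix_mix_left, mix_mix_right, mix_self] at h1
    exact absurd hn h1

theorem RU_spec {u : Raw} (h : C.Le u p) (hμ : Spec p μ) : Spec u μ :=
  (le_spec_iff h (spec_mem h.1 hμ)).2 hμ

theorem RU_denseS (hp : C.Scope t p) (hμ : Spec p μ) (ht : μ ≤ t) (hν : ν < μ)
    (Q : Od → Raw → Prop)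
    (dense : ∀ i < ν, ∀ u, C.DS μ t u p → ∃ u', C.DS μ t u' u ∧ Q i u')
    (op : ∀ i < ν, ∀ u u', C.DS μ t u p → C.DS μ t u' u → Q i u → Q i u') {u : Raw}
    (hu : C.DS μ t u p) : ∃ u', C.DS μ t u' u ∧ ∀ i < ν, Q i u' := by
  have h1 := (ds_leS hp hu).1
  exact interS (leT_scope hp h1) (RU_spec h1.le hμ) ht hν Q
    (fun i hi v hv => dense i hi v (ds_trans hv hu))
    fun i hi v v' hv => op i hi v v' (ds_trans hv hu)

theorem RU_gl_leT {r u : Raw} (hp : C.Scope t p) (hμ : Spec p μ) (ht : μ ≤ t)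
    (hr : C.Le r p) (hu : C.DS μ t u p) : C.LeT t (gl μ r u) p := by
  have h1 := RU_spec hr hμ
  exact leT_trans (ds_leS (gl_scope (le_valid hr) hp h1 hμ ht)
    (gl_ds hu hμ ht (le_valid hr) h1)).1
    (leT_mono (gl_leT hr hμ) (scope_of_mem hp.v (spec_mem hp.v hμ)) hp ht)

/-- Uniformization at a special point. -/
theorem unif_spec (hp : C.Scope t p) (hμ : Spec p μ) (ht : μ ≤ t) (N : Od → Raw → Prop)
    (hN : ∀ j r r', C.LeT t r p → N j r → C.DS μ t r' r → N j r') :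
    ∃ u, C.DS μ t u p ∧ ∀ j < μ, ∀ r, C.LeT t r u → DirA μ r u → N j r →
      N j (gl μ r (C.cutA μ (max j (C.scode μ r)) u)) := by
  have hi := (spec_inac hp.v hμ).1
  have hsp : ∀ {u}, C.DS μ t u p → Spec u μ := fun hu => RU_spec (ds_leS hp hu).1.le hμ
  have hsc : ∀ r, C.LeT t r p → C.scode μ r < μ ∧ C.dec (C.scode μ r) = stem μ r := fun r hr =>
    scode_spec hi (stem_bdd (le_valid hr.le) (RU_spec hr.le hμ))
  set P : Od → Od → Raw → Prop := fun j ξ u => ∀ r, C.LeT t r p → C.scode μ r = ξ →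
    N j (gl μ r u) ∨ ∀ u', C.DS μ t u' u → ¬ N j (gl μ r u') with hP
  have op : ∀ j ξ u u', C.DS μ t u p → C.DS μ t u' u → P j ξ u → P j ξ u' := by
    intro j ξ u u' h1 h2 h3 r hr he
    rcases h3 r hr he with h4 | h4
    · exact Or.inl (hN j _ _ (RU_gl_leT hp hμ ht hr.le h1) h4
        (gl_ds h2 (hsp h1) ht (le_valid hr.le) (RU_spec hr.le hμ)))
    · exact Or.inr fun v hv => h4 v (ds_trans hv h2)
  have dense : ∀ j ξ u, C.DS μ t u p → ∃ u', C.DS μ t u' u ∧ P j ξ u' := by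
    intro j ξ u hu
    by_cases h : ∃ r u', C.LeT t r p ∧ C.scode μ r = ξ ∧ C.DS μ t u' u ∧ N j (gl μ r u')
    · obtain ⟨r, u', h1, h2, h3, h4⟩ := h
      refine ⟨u', h3, fun r' g1 g2 => Or.inl ?_⟩
      rwa [gl_congr_stem (le_valid g1.le) (le_valid h1.le) ?_ (hsp (ds_trans h3 hu))]
      rw [← (hsc r h1).2, ← (hsc r' g1).2, h2, g2]
    · exact ⟨u, ds_refl (leT_scope hp (ds_leS hp hu).1),
        fun r h1 h2 => Or.inr fun u' h3 h4 => h ⟨r, u', h1, h2, h3, h4⟩⟩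
  obtain ⟨u, hu, hQ⟩ := diag hp hμ ht (fun m u => ∀ j < m + 1, ∀ ξ < m + 1, P j ξ u)
    (fun m hm u hu => RU_denseS hp hμ ht (hi.isSuccLimit.add_one_lt hm)
      (fun j u => ∀ ξ < m + 1, P j ξ u)
      (fun j _ v hv => RU_denseS hp hμ ht (hi.isSuccLimit.add_one_lt hm) (P j)
        (fun ξ _ => dense j ξ) (fun ξ _ => op j ξ) hv)
      (fun j _ v v' h1 h2 h3 ξ hξ => op j ξ v v' h1 h2 (h3 ξ hξ)) hu)
    (fun m _ v v' h1 h2 h3 j hj ξ hξ => op j ξ v v' h1 h2 (h3 j hj ξ hξ))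
  refine ⟨u, hu, fun j hj r hr hd hn => ?_⟩
  have hrp := leT_trans hr (ds_leS hp hu).1
  have hm : max j (C.scode μ r) < μ := max_lt hj (hsc r hrp).1
  rcases hQ _ hm j ((le_max_left _ _).trans_lt (lt_add_one _)) _
    ((le_max_right _ _).trans_lt (lt_add_one _)) r hrp rfl with h | h
  · exact h
  · obtain ⟨u', h1, h2⟩ := cut_wit hr hd (hsp hu) ht hm
    refine absurd ?_ (h u' h1)
    rw [h2]
    exact hN j _ _ hrp hn (cutA_ds (leT_scope hp hrp) (RU_spec hrp.le hμ) ht hm)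

theorem RU_pf (R : Raw → Raw → Prop) (hR : ∀ r a b, R r a → C.LeS t a b → R r b)
    (hp : C.Scope t p) (hδ : Good0 p δ) (ht : δ ≤ t) (hν : ν.card ≤ C.B δ)
    (O : Od → Raw → Prop) (h₁ : ∀ i, C.OpenS t (O i))
    (H : ∀ i w, C.Scope t w → δ ∈ w.c → C.WFl δ t (O i) w →
      ∃ v, C.DT δ t v w ∧ ∀ r, R r v → ¬ O i r) :
    ∃ u, C.DT δ t u p ∧ ∀ i < ν, ∀ l, C.LeT δ l u →
      (∃ l', C.LeT δ l' l ∧ O i l') ∨ ∀ r, R r l → ¬ O i r := by
  have hm := (good0_mem hp.v hδ).1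
  obtain ⟨u, hu, hQ⟩ := RU_inter hp hδ ht hν
    (fun i l u => (∃ l', C.LeT δ l' (mix δ l u) ∧ O i l') ∨ ∀ r, R r (mix δ l u) → ¬ O i r)
    (fun i l hl u hu => by
      have hw := RU_mix_leT hp hm ht hl (ds_leS hp hu.1).1
      have hw' := le_c hw.le hm
      have key : ∀ v, C.DT δ t v (mix δ l u) → C.DT δ t (mix δ u v) u := fun v hv => by
        have h1 := mix_dt hv hw' ht hu.1.v (hu.1.d.c hm)
        rwa [mix_mix_right, mix_self] at h1
      by_cases h : C.WFl δ t (O i) (mix δ l u)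
      · obtain ⟨v, h1, h2⟩ := H i _ (leT_scope hp hw) hw' h
        refine ⟨_, key v h1, Or.inr ?_⟩
        have h3 := mix_congr (β := δ) ⟨h1.1.lo, h1.2⟩ (Agree.refl δ v)
        rw [mix_self, mix_mix_left] at h3
        rwa [mix_mix_right, ← h3]
      · unfold Dat.WFl at h
        push Not at h
        obtain ⟨r, h1, h2, h3⟩ := h
        refine ⟨_, key _ (dirA_dt h1 h2 hw' ht), Or.inl ⟨r, ?_, h3⟩⟩
        have h4 := mix_le_left h1.le hw' (le_valid h1.le) (le_c h1.le hw')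
        rw [mix_self, mix_mix_left] at h4
        rwa [mix_mix_right, mix_mix_right])
    (fun i l hl u u' h1 h2 h3 => by
      have hw := RU_mix_leT hp hm ht hl (ds_leS hp h1.1).1
      have hw' := le_c hw.le hm
      have hu := h1.1.d.c hm
      rcases h3 with ⟨l', h3, h4⟩ | h3
      · refine Or.inl ⟨mix δ l' u', ?_, ?_⟩
        · have h5 := mix_le_left h3.le hw' h2.1.v (h2.1.d.c hu)
          rwa [mix_mix_left] at h5
        · have h5 := mix_dt h2 hu ht (le_valid h3.le) (le_c h3.le hw')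
          have h6 := mix_scope (le_valid h3.le) (leT_scope hp (ds_leS hp h1.1).1)
            (le_c h3.le hw') hu ht
          rw [mix_eq_left (h3.ag.trans (agree_mix δ l u))] at h5 h6
          exact h₁ i _ _ h6 h4 (ds_leS h6 h5.1)
      · exact Or.inr fun r hr => h3 r (hR _ _ _ hr (ds_leS (leT_scope hp hw)
          (mix_dt h2 hu ht (le_valid hl.le) (le_c hl.le hm)).1)))
  refine ⟨u, hu, fun i hi l hl => ?_⟩
  have h := hQ i hi _ (low_leT (le_trans' hl.le (ds_leS hp hu.1).1.le) hm)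
  rwa [mix_mix_left, mix_eq_left hl.ag] at h

/-- The Prikry property for all lower parts at a good point, without insertion at `t`. -/
theorem pf_S (H : C.PPS t) (hp : C.Scope t p) (hδ : Good0 p δ) (ht : δ ≤ t)
    (hν : ν.card ≤ C.B δ) (O : Od → Raw → Prop) (h₁ : ∀ i, C.OpenS t (O i))
    (h₂ : ∀ i, C.LC t (· < t) (O i)) :
    ∃ u, C.DT δ t u p ∧ ∀ i < ν, ∀ l, C.LeT δ l u →
      (∃ l', C.LeT δ l' l ∧ O i l') ∨ ∀ r, C.LeS t r l → ¬ O i r :=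
  RU_pf (C.LeS t) (fun _ _ _ => leS_trans) hp hδ ht hν O h₁
    fun i w hw hm => H (O i) w δ hw (h₁ i) (h₂ i) hm ht

/-- The Prikry property for all lower parts at a good point. -/
theorem pf_T (H : C.PP t) (hp : C.Scope t p) (hδ : Good0 p δ) (ht : δ ≤ t)
    (hν : ν.card ≤ C.B δ) (O : Od → Raw → Prop) (h₁ : ∀ i, C.OpenT t (O i))
    (h₂ : ∀ i, C.LC t (· ≤ t) (O i)) :
    ∃ u, C.DT δ t u p ∧ ∀ i < ν, ∀ l, C.LeT δ l u →
      (∃ l', C.LeT δ l' l ∧ O i l') ∨ ∀ r, C.LeT t r l → ¬ O i r :=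
  RU_pf (C.LeT t) (fun _ _ _ h h' => leT_trans h h'.1) hp hδ ht hν O
    (fun i r r' h1 h2 h3 => h₁ i r r' h1 h2 h3.1)
    fun i w hw hm => H (O i) w δ hw (h₁ i) (h₂ i) hm ht

/-- Reduction of regular open sets to the lower part. -/
theorem pf_low (H : C.PP t) (hp : C.Scope t p) (hδ : Good0 p δ) (ht : δ ≤ t)
    (hν : ν.card ≤ C.B δ) (O : Od → Raw → Prop) (h₁ : ∀ i, C.OpenT t (O i))
    (h₂ : ∀ i, C.LC t (· ≤ t) (O i)) :
    ∃ u, C.DT δ t u p ∧ ∀ i < ν, ∀ r, C.LeT t r u → O i r → O i (mix δ r u) := by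
  obtain ⟨u, hu, hQ⟩ := pf_T H hp hδ ht hν O h₁ h₂
  refine ⟨u, hu, fun i hi r hr ho => ?_⟩
  have hm := hu.1.d.c (good0_mem hp.v hδ).1
  have hs := leT_scope hp (ds_leS hp hu.1).1
  have hw := low_leT hr.le hm
  have hr' := le_c hr.le hm
  refine h₂ i δ _ ht (mix_scope (le_valid hr.le) hs hr' hm ht) (le_c hw.le hm) fun r' h => ?_
  have h1 := leT_trans h hw
  refine (hQ i hi r' h1).resolve_right fun h2 => h2 (mix δ r' r) ?_ ?_
  · have h3 := mix_leT_right hr hm ht (le_valid h1.le) (le_c h1.le hm)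
    rwa [mix_eq_left h1.ag] at h3
  · have h3 := mix_le_left h.le (le_c hw.le hm) (le_valid hr.le) hr'
    rw [mix_mix_left, mix_self] at h3
    exact h₁ i _ _ (leT_scope hs hr) ho
      (leT_mono h3 (scope_of_mem (le_valid hr.le) hr') (leT_scope hs hr) ht)

end Ctx

end Pool.Agent.MP_85ce7b_lc

end

section

namespace Pool.Agent.MP_85ce7b_lc

open Set Cardinal Ordinal Dat

namespace Ctx

variable {C : Ctx} {p u : Raw} {t t' β δ μ : Od} {O : Raw → Prop}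

theorem restrict (h₁ : C.OpenS t O) (h₂ : C.LC t (· < t) O) (ht : t' < t) :
    C.OpenT t' (fun r => C.Scope t r ∧ O r) ∧ C.LC t' (· ≤ t') (fun r => C.Scope t r ∧ O r) := by
  refine ⟨fun r r' hr ho h => ?_, fun δ r hδ hr hm H => ?_⟩
  · have h3 := leS_of_lt h hr ho.1 ht
    exact ⟨leT_scope ho.1 h3.1, h₁ r r' ho.1 ho.2 h3⟩
  · have hδt : δ < t := lt_of_le_of_lt hδ ht
    obtain ⟨r', h3, h4⟩ := H r (leT_refl (scope_of_mem hr.v hm))
    have h5 := scope_of_leT h3 hδt.le h4.1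
    refine ⟨h5, h₂ δ r hδt h5 hm fun r' h => ?_⟩
    obtain ⟨r'', h6, h7⟩ := H r' h
    exact ⟨r'', h6, h7.2⟩

theorem wfl_dle (h : C.WFl δ t O p) (hδ : δ ∈ p.c) (hu : C.LeT t u p) (hd : Dle u p) :
    C.WFl δ t O u := fun r h1 h2 => h r (leT_trans h1 hu) (dirA_trans h2 hd hδ)

theorem RP_wfl_dt (hp : C.Scope t p) (h : C.WFl δ t O p) (hδ : δ ∈ p.c) (hu : C.DT β t u p) :
    C.WFl δ t O u := wfl_dle h hδ (ds_leS hp hu.1).1 hu.1.d

theorem RP_scope (hp : C.Scope t p) (hu : C.DT β t u p) : C.Scope t u :=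
  leT_scope hp (ds_leS hp hu.1).1

/-- The Prikry property at a lower cut, applied to the restriction of `O`. -/
theorem RP_low (H : C.PP δ) (hp : C.Scope t p) (h₁ : C.OpenS t O) (h₂ : C.LC t (· < t) O)
    (hβ : β ∈ p.c) (hβδ : β ≤ δ) (hδ : δ ∈ p.c) (ht : δ < t) (hw : C.WFl β t O p) :
    ∃ u, C.DT β δ u p ∧ C.DT β t u p ∧ ∀ r, C.LeT δ r u → ¬ O r := by
  have hs := scope_of_mem hp.v hδ
  obtain ⟨k1, k2⟩ := restrict h₁ h₂ ht
  obtain ⟨u, h3, h4⟩ := H _ p β hs k1 k2 hβ hβδ fun r g1 g2 g3 =>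
    hw r (leT_mono g1 hs hp ht.le) g2 g3.2
  have h5 : C.DT β t u p := ⟨ds_cut h3.1 hs hp ht.le, h3.2⟩
  have h6 := RP_scope hp h5
  exact ⟨u, h3, h5, fun r g1 g2 =>
    h4 r g1 ⟨leT_scope h6 (leT_mono g1 (RP_scope hs h3) h6 ht.le), g2⟩⟩

/-- Moving the level to a good point. -/
theorem step_good (H : C.PP δ) (hp : C.Scope t p) (h₁ : C.OpenS t O) (h₂ : C.LC t (· < t) O)
    (hβ : β ∈ p.c) (hβδ : β ≤ δ) (hδ : Good p δ) (ht : δ < t) (hw : C.WFl β t O p) :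
    ∃ u, C.DT β t u p ∧ C.WFl δ t O u := by
  obtain ⟨u₁, a1, a2⟩ := unif_good (ν := 1) hp (Or.inl hδ) ht.le
    (by rw [card_one]; exact one_le_aleph0.trans (C.bf.aleph0_le δ)) (fun _ => O)
    fun _ r r' g1 g2 g3 => h₁ r r' (leT_scope hp g1) g2 (ds_leS (leT_scope hp g1) g3.1)
  have s1 := RP_scope hp a1
  have m1 := a1.1.d.c hδ.1
  obtain ⟨u₂, b1, b2, b3⟩ := RP_low H s1 h₁ h₂ (a1.1.d.c hβ) hβδ m1 ht (RP_wfl_dt hp hw hβ a1)
  refine ⟨u₂, dt_trans b2 (dt_mono a1 hβδ), fun r g1 g2 g3 => ?_⟩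
  have g4 := a2 0 zero_lt_one r (leT_trans g1 (ds_leS s1 b2.1).1) (dirA_trans g2 b2.1.d m1) g3
  rw [mix_congr (q' := r) ⟨fun _ _ => ⟨Iff.rfl, rfl, rfl⟩, rfl⟩ b1.1.ag.symm] at g4
  exact b3 _ (low_leT g1.le (b2.1.d.c m1)) g4

/-- Moving the level to a special point. -/
theorem step_spec (H : C.PP μ) (hp : C.Scope t p) (h₁ : C.OpenS t O) (h₂ : C.LC t (· < t) O)
    (hβ : β ∈ p.c) (hβμ : β < μ) (hμ : Spec p μ) (ht : μ < t) (hw : C.WFl β t O p) :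
    ∃ u, C.DT β t u p ∧ C.WFl μ t O u := by
  have hi := (spec_inac hp.v hμ).1
  obtain ⟨u₁, a1, a2⟩ := unif_spec hp hμ ht.le (fun _ => O)
    fun _ r r' g1 g2 g3 => h₁ r r' (leT_scope hp g1) g2 (ds_leS (leT_scope hp g1) g3)
  have a3 := ds_dt a1 hβμ
  have s1 := RP_scope hp a3
  have m1 := a1.d.c (spec_mem hp.v hμ)
  have p1 := RU_spec (ds_leS hp a1).1.le hμ
  obtain ⟨u₂, b1, b2, b3⟩ := RP_low H s1 h₁ h₂ (a1.d.c hβ) hβμ.le m1 ht (RP_wfl_dt hp hw hβ a3)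
  refine ⟨u₂, dt_trans b2 a3, fun r g1 g2 g3 => ?_⟩
  have s2 := RP_scope s1 b2
  have m2 := b2.1.d.c m1
  have l21 := (ds_leS s1 b2.1).1
  have lr := leT_trans g1 l21
  have pr := RU_spec lr.le p1
  have vr := le_valid lr.le
  have hm : max 0 (C.scode μ r) < μ :=
    max_lt hi.isSuccLimit.pos (scode_spec hi (stem_bdd vr pr)).1
  have g4 := a2 0 hi.isSuccLimit.pos r lr (dirA_trans g2 b2.1.d m1) g3
  have c1 : C.LeT μ (mix μ r u₂) u₂ := low_leT g1.le m2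
  have c2 : C.LeT t (mix μ r u₂) u₁ :=
    leT_trans (leT_mono c1 (scope_of_mem s2.v m2) s2 ht.le) l21
  have c3 := cut_gl_ds c2 (dirA_of_agree (c1.ag.trans b1.1.ag)) p1 ht.le hm
  have c4 := agLo_mix μ r u₂
  have p3 := spec_cutA C.toDat (m := max 0 (C.scode μ r)) p1
  rw [RB4_gl_congr c4.1 (by unfold sAt; rw [c4.2]) p3] at c3
  have s3 := gl_scope vr (leT_scope s1 (ds_leS s1 (cutA_ds s1 p1 ht.le hm)).1) pr p3 ht.le
  have s4 := leT_scope (scope_of_mem s2.v m2) c1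
  exact b3 _ (leT_trans (ds_leS s4 (cutA_ds s4 (RU_spec c2.le p1) le_rfl hm)).1 c1)
    (h₁ _ _ s3 g4 (ds_leS s3 c3))

/-- The end of the argument: all changes of `s` happen below a level that is under control. -/
theorem pps_finish (hu : C.Scope t u) (S : Set Od) (hS : ∀ δ ∈ S, δ ∈ u.c ∧ C.WFl δ t O u)
    (hne : S.Nonempty) (hc : ∀ μ, Spec u μ → μ < t → ∃ δ ∈ S, μ ≤ δ) :
    ∀ r, C.LeS t r u → ¬ O r := by
  intro r hr
  have key : ∃ δ ∈ S, ∀ μ, Spec u μ → sAt μ r ≠ sAt μ u → μ ≤ δ := by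
    have hf : {μ | Spec u μ ∧ sAt μ r ≠ sAt μ u}.Finite :=
      (le_fin hr.1.le).subset fun μ h => ⟨spec_mem hu.v h.1, h.2⟩
    rcases eq_empty_or_nonempty {μ | Spec u μ ∧ sAt μ r ≠ sAt μ u} with e | e
    · obtain ⟨δ, hδ⟩ := hne
      exact ⟨δ, hδ, fun μ g1 g2 => absurd ⟨g1, g2⟩ (eq_empty_iff_forall_notMem.1 e μ)⟩
    · obtain ⟨m, g1, g2⟩ := exists_max_image _ id hf e
      have g3 : m < t := by
        rcases lt_trichotomy m t with g | g | g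
        · exact g
        · exact absurd (g ▸ hr.2) g1.2
        · exact absurd (by unfold sAt; rw [hr.1.ag.2 m g]) g1.2
      obtain ⟨δ, g4, g5⟩ := hc m g1.1 g3
      exact ⟨δ, g4, fun μ g6 g7 => (g2 μ ⟨g6, g7⟩).trans g5⟩
  obtain ⟨δ, g1, g2⟩ := key
  refine (hS δ g1).2 r hr.1 (le_dirA hr.1.le (hS δ g1).1 fun μ g3 g4 => ?_)
  by_contra g5
  exact (g2 μ g3 g5).not_gt g4

theorem RP_fin (hu : C.Scope t u) (hδ : δ ∈ u.c) (hw : C.WFl δ t O u)
    (hc : ∀ μ, Spec u μ → δ < μ → μ < t → ∃ δ' ∈ u.c, C.WFl δ' t O u ∧ μ ≤ δ') :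
    ∀ r, C.LeS t r u → ¬ O r := by
  refine pps_finish hu {δ | δ ∈ u.c ∧ C.WFl δ t O u} (fun _ h => h) ⟨δ, hδ, hw⟩ fun μ g1 g2 => ?_
  rcases le_or_gt μ δ with g | g
  · exact ⟨δ, ⟨hδ, hw⟩, g⟩
  · obtain ⟨δ', g3, g4, g5⟩ := hc μ g1 g g2
    exact ⟨δ', ⟨g3, g4⟩, g5⟩

theorem RP_spec_up (hp : C.Scope t p) (ht : t ∈ p.c) (hu : C.DT β t u p) (h : Spec u μ) :
    Spec p μ :=
  (le_spec_iff (ds_leS hp hu.1).1.le (ds_c_eq hu.1 ht ▸ spec_mem hu.1.v h)).1 h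

theorem pps_mem (IH : ∀ t' < t, C.PP t') (hp : C.Scope t p) (ht : t ∈ p.c) (h₁ : C.OpenS t O)
    (h₂ : C.LC t (· < t) O) (hβ : β ∈ p.c) (hβt : β < t) (hw : C.WFl β t O p) :
    ∃ u, C.DT β t u p ∧ ∀ r, C.LeS t r u → ¬ O r := by
  have _ := hβt
  set T : Set Od := {μ | Spec p μ ∧ β < μ ∧ μ < t} with hT
  rcases eq_empty_or_nonempty T with e | e
  · exact ⟨p, dt_refl hp, RP_fin hp hβ hw fun μ g1 g2 g3 =>
      absurd ⟨g1, g2, g3⟩ (eq_empty_iff_forall_notMem.1 e μ)⟩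
  by_cases hmax : ∃ m ∈ T, ∀ μ ∈ T, μ ≤ m
  · obtain ⟨m, ⟨g1, g2, g3⟩, g4⟩ := hmax
    obtain ⟨u, a1, a2⟩ := step_spec (IH m g3) hp h₁ h₂ hβ g2 g1 g3 hw
    exact ⟨u, a1, RP_fin (RP_scope hp a1) (a1.1.d.c (spec_mem hp.v g1)) a2 fun μ g5 g6 g7 =>
      absurd (g4 μ ⟨RP_spec_up hp ht a1 g5, g2.trans g6, g7⟩) g6.not_ge⟩
  push Not at hmax
  have hb : BddAbove T := ⟨t, fun μ h => h.2.2.le⟩
  have k1 : ∀ μ ∈ T, μ < sSup T := fun μ h =>
    let ⟨μ', g1, g2⟩ := hmax μ h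
    g2.trans_le (le_csSup hb g1)
  have k2 : ∀ y < sSup T, ∃ μ ∈ T, y < μ := fun y h => (lt_csSup_iff hb e).1 h
  have k0 : 0 < sSup T := let ⟨μ, h⟩ := e; (zero_le).trans_lt (k1 μ h)
  have k3 : LimP p.c (sSup T) := ⟨k0, fun y h =>
    let ⟨μ, g1, g2⟩ := k2 y h
    ⟨μ, spec_mem hp.v g1.1, g2, k1 μ g1⟩⟩
  have k4 : ¬ Inac (sSup T) := fun h => by
    obtain ⟨y, g1, g2⟩ := (hp.v.eas _ k3 h).1
    obtain ⟨μ, g3, g4⟩ := k2 y g1
    obtain ⟨L, hL⟩ := g3.1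
    rw [(g2 μ g4 (k1 μ g3)).2] at hL
    exact absurd hL (by simp)
  obtain ⟨k5, k6⟩ := C.bf.fix_of_lim k0 fun y h =>
    let ⟨μ, g1, g2⟩ := k2 y h
    ⟨μ, g2, (k1 μ g1).le, (spec_inac hp.v g1.1).1⟩
  have k7 : (sSup T).cof.ord < sSup T := by
    have := C.bf.singular k6 k4
    rw [k5] at this
    exact (ord_lt_ord.2 this).trans_eq k5
  obtain ⟨f, f1, f2⟩ := exists_cof_map (sSup T)
  obtain ⟨m, hm, k8⟩ := k2 _ k7
  have k9 : ∀ i, ∃ μ ∈ T, m < μ ∧ (i < (sSup T).cof.ord → f i < μ) := fun i => by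
    by_cases hi : i < (sSup T).cof.ord
    · obtain ⟨μ, g1, g2⟩ := k2 _ (max_lt (k1 m hm) (f1 i hi))
      exact ⟨μ, g1, (le_max_left _ _).trans_lt g2, fun _ => (le_max_right _ _).trans_lt g2⟩
    · obtain ⟨μ, g1, g2⟩ := hmax m hm
      exact ⟨μ, g1, g2, fun h => absurd h hi⟩
  choose g g1 g2 g3 using k9
  obtain ⟨u₀, a1, a2⟩ := step_spec (IH m hm.2.2) hp h₁ h₂ hβ hm.2.1 hm.1 hm.2.2 hw
  have s0 := RP_scope hp a1
  have m0 := a1.1.d.c (spec_mem hp.v hm.1)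
  have sp : ∀ i, Spec u₀ (g i) := fun i => RU_spec (ds_leS hp a1.1).1.le (g1 i).1
  obtain ⟨u, b1, b2⟩ := inter (ν := (sSup T).cof.ord) s0 m0 hm.2.2.le
    ((card_le_card k8.le).trans (C.bf.card_le m)) (fun i u => C.WFl (g i) t O u)
    (fun i _ v hv => step_spec (IH _ (g1 i).2.2) (RP_scope s0 hv) h₁ h₂ (hv.1.d.c m0) (g2 i)
      (RU_spec (ds_leS s0 hv.1).1.le (sp i)) (g1 i).2.2 (RP_wfl_dt s0 a2 m0 hv))
    fun i _ v v' hv hv' h => RP_wfl_dt (RP_scope s0 hv) h (hv.1.d.c (spec_mem s0.v (sp i))) hv'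
  have b3 := dt_trans (dt_mono b1 hm.2.1.le) a1
  refine ⟨u, b3, RP_fin (RP_scope s0 b1) (b1.1.d.c m0) (RP_wfl_dt s0 a2 m0 b1)
    fun μ c1 c2 c3 => ?_⟩
  obtain ⟨i, c4, c5⟩ := f2 μ (k1 μ ⟨RP_spec_up hp ht b3 c1, hm.2.1.trans c2, c3⟩)
  exact ⟨g i, b1.1.d.c (spec_mem s0.v (sp i)), b2 i c4, c5.trans (g3 i c4).le⟩

theorem RP_top_step (IH : ∀ t' < t, C.PP t') (hp : C.Scope t p) (ht : t ∉ p.c)
    (h₁ : C.OpenS t O) (h₂ : C.LC t (· < t) O) (hβ : β ∈ p.c) (hw : C.WFl β t O p) :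
    ∃ u δ, C.DT β t u p ∧ δ ∈ u.c ∧ β ≤ δ ∧ C.WFl δ t O u ∧ ∀ x ∈ p.c, x ≤ δ := by
  have hβt : β < t := (hp.cut.resolve_left ht).2.2 hβ
  obtain ⟨δ, v, a1, a2, a3, a4, a5, -⟩ := top_ext hp ht hβt
  have a6 := a5 β hβ
  obtain ⟨u, b1, b2⟩ := step_good (IH δ a2) (RP_scope hp a6) h₁ h₂ (a6.1.d.c hβ) a1.le a3 a2
    (RP_wfl_dt hp hw hβ a6)
  exact ⟨u, δ, dt_trans b1 a6, b1.1.d.c a3.1, a1.le, b2, fun x hx => a4 x (a6.1.d.c hx)⟩

theorem pps_top (IH : ∀ t' < t, C.PP t') (hp : C.Scope t p) (ht : t ∉ p.c) (h₁ : C.OpenS t O)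
    (h₂ : C.LC t (· < t) O) (hβ : β ∈ p.c) (hw : C.WFl β t O p) :
    ∃ u, C.DT β t u p ∧ ∀ r, C.LeS t r u → ¬ O r := by
  have hβt : β < t := (hp.cut.resolve_left ht).2.2 hβ
  let X := {z : Raw × Od // C.DT β t z.1 p ∧ z.2 ∈ z.1.c ∧ β ≤ z.2 ∧ C.WFl z.2 t O z.1}
  have step : ∀ z : X, ∃ z' : X, C.DT β t z'.1.1 z.1.1 ∧ ∀ x ∈ z.1.1.c, x ≤ z'.1.2 := by
    rintro ⟨⟨v, δ⟩, a1, a2, a3, a4⟩
    obtain ⟨u, δ', b1, b2, b3, b4, b5⟩ := RP_top_step IH (RP_scope hp a1)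
      (fun h => ht (((a1.1.ag.1 t le_rfl).1).1 h)) h₁ h₂ a2 a4
    have b6 := dt_mono b1 a3
    exact ⟨⟨(u, δ'), dt_trans b6 a1, b2, a3.trans b3, b4⟩, b6, b5⟩
  choose F F1 F2 using step
  let z : ℕ → X := fun n => F^[n] ⟨(p, β), dt_refl hp, hβ, le_rfl, hw⟩
  have zs : ∀ n, z (n + 1) = F (z n) := fun n => Function.iterate_succ_apply' F n _
  have zm : ∀ n k, n ≤ k → C.DT β t (z k).1.1 (z n).1.1 := fun n k h => by
    induction k, h using Nat.le_induction with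
    | base => exact dt_refl (RP_scope hp (z n).2.1)
    | succ k _ ih => rw [zs]; exact dt_trans (F1 _) ih
  obtain ⟨u, b1, -, b2⟩ := chain_lb (ν := ω) hp hβ hβt.le omega0_pos
    (by rw [card_omega0]; exact C.bf.aleph0_le β) (fun i => (z (Cardinal.toNat i.card)).1.1)
    (fun i _ => (z _).2.1) fun i j hij hj => by
      obtain ⟨k, rfl⟩ := Ordinal.lt_omega0.1 hj
      obtain ⟨n, rfl⟩ := Ordinal.lt_omega0.1 (hij.trans_lt hj)
      exact zm _ _ (by simpa using hij)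
  have b3 : ∀ n : ℕ, C.DT β t u (z n).1.1 := fun n => by
    simpa using b1 n (natCast_lt_omega0 n)
  have b4 : C.DT β t u p := b3 0
  refine ⟨u, b4, RP_fin (RP_scope hp b4) (b4.1.d.c hβ) (RP_wfl_dt hp hw hβ b4) fun μ c1 _ _ => ?_⟩
  obtain ⟨i, -, c2⟩ := b2 μ c1
  have c3 := F2 _ μ (spec_mem (z _).2.1.1.v c2)
  rw [← zs] at c3
  exact ⟨_, (b3 _).1.d.c (z _).2.2.1,
    RP_wfl_dt (RP_scope hp (z _).2.1) (z _).2.2.2.2 (z _).2.2.1 (b3 _), c3⟩

theorem pps_of_ih (IH : ∀ t' < t, C.PP t') : C.PPS t := by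
  intro O p β hp h₁ h₂ hβ hβt hw
  by_cases ht : t ∈ p.c
  · rcases hβt.eq_or_lt with e | e
    · exact ⟨p, dt_refl hp, RP_fin hp hβ hw fun μ _ g1 g2 => absurd (e ▸ g1) g2.not_gt⟩
    · exact pps_mem IH hp ht h₁ h₂ hβ e hw
  · exact pps_top IH hp ht h₁ h₂ hβ hw

end Ctx

end Pool.Agent.MP_85ce7b_lc

end

section

namespace Pool.Agent.MP_85ce7b_lc

open Set Cardinal Ordinal Dat

namespace Ctx

variable {C : Ctx} {p u r r' : Raw} {β μ : Od} {O : Raw → Prop}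

/-- The stem of `r` is accepted. -/
def Ab (C : Ctx) (μ : Od) (O : Raw → Prop) (u r : Raw) : Prop :=
  Spec r μ ∧ ∃ m < μ, O (gl μ r (C.cutA μ m u))

/-- No extension without insertion at `μ` has an accepted stem. -/
def NA (C : Ctx) (μ : Od) (O : Raw → Prop) (u r : Raw) : Prop :=
  ∀ r', C.LeS μ r' r → ¬ C.Ab μ O u r'

/-- The standing assumptions of the tree lemma. -/
structure Tree (C : Ctx) (μ : Od) (O : Raw → Prop) (u : Raw) : Prop where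
  v : C.Valid u
  sp : Spec u μ
  op : C.OpenT μ O
  lc : C.LC μ (· ≤ μ) O
  un : ∀ r, C.LeT μ r u → O r → O (gl μ r (C.cutA μ (C.scode μ r) u))

theorem RT1_spec_sAt (h : sAt μ r = sAt μ r') (hs : Spec r μ) : Spec r' μ := by
  obtain ⟨L, hL⟩ := hs
  unfold sAt at h
  rw [hL] at h
  rcases h' : r'.l μ with _ | L'
  · rw [h'] at h; simp at h
  · exact ⟨L', h'⟩

theorem RT1_agLo {δ : Od} (h : AgS μ r r') (hδ : δ < μ) : AgLo δ r r' :=
  ⟨fun x hx => h x (hx.trans hδ), (h δ hδ).2.2⟩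

theorem RT1_stem {δ : Od} {a a' q q' : Raw} (h₁ : Agree δ a q) (h₂ : Agree δ a' q')
    (h₃ : AgLo δ a a') (hδ : δ < μ) (h₄ : AgS μ q q') (h₅ : sAt μ q = sAt μ q') :
    stem μ a = stem μ a' := by
  refine stem_of_agS (fun x hx => ?_) ?_
  · rcases lt_or_ge x δ with hxδ | hxδ
    · exact h₃.1 x hxδ
    · refine ⟨((h₁.1 x hxδ).1.trans (h₄ x hx).1).trans (h₂.1 x hxδ).1.symm,
        ((h₁.1 x hxδ).2.trans (h₄ x hx).2.1).trans (h₂.1 x hxδ).2.symm, ?_⟩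
      rcases hxδ.eq_or_lt with rfl | hxδ
      · exact h₃.2
      · exact ((h₁.2 x hxδ).trans (h₄ x hx).2.2).trans (h₂.2 x hxδ).symm
  · unfold sAt at h₅ ⊢
    rw [h₁.2 μ hδ, h₂.2 μ hδ, h₅]

theorem RT1_scope (hr : C.Valid r) (hμ : Spec r μ) : C.Scope μ r :=
  scope_of_mem hr (spec_mem hr hμ)

theorem ab_congr (hu : Spec u μ) (hr : C.Valid r) (hr' : C.Valid r')
    (h : stem μ r = stem μ r') (ha : C.Ab μ O u r) : C.Ab μ O u r' := by
  obtain ⟨hs, m, hm, ho⟩ := ha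
  refine ⟨RT1_spec_sAt (agS_of_stem hr hr' h).2 hs, m, hm, ?_⟩
  rwa [← gl_congr_stem hr hr' h (spec_cutA _ hu)]

theorem na_congr (hu : Spec u μ) (hr : C.Valid r) (hr' : C.Valid r') (hμ : Spec r μ)
    (h : stem μ r = stem μ r') (ha : C.NA μ O u r) : C.NA μ O u r' := by
  intro r₁ h₁ hab
  have h2 := gl_leS h₁ (RT1_spec_sAt (agS_of_stem hr hr' h).2 hμ) hr hμ
  rw [← gl_congr_stem hr hr' h hμ, gl_self] at h2
  exact ha _ h2 (ab_congr hu (le_valid h₁.1.le) (le_valid h2.1.le) (stem_gl μ r₁ r).symm hab)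

theorem na_leS (h : C.NA μ O u r) (h' : C.LeS μ r' r) : C.NA μ O u r' :=
  fun _ h₁ => h _ (leS_trans h₁ h')

namespace Tree

variable (T : C.Tree μ O u)
include T

theorem RT1_cut_scope {m : Od} (hm : m < μ) : C.Scope μ (C.cutA μ m u) :=
  RT1_scope (RB4_cutA_valid T.v hm) (spec_cutA _ T.sp)

theorem RT1_gl_scope {m : Od} (hm : m < μ) (hr : C.Valid r) (hμ : Spec r μ) :
    C.Scope μ (gl μ r (C.cutA μ m u)) :=
  gl_scope hr (T.RT1_cut_scope hm) hμ (spec_cutA _ T.sp) le_rfl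

theorem RT1_up {m m' : Od} (hm : m ≤ m') (hm' : m' < μ) (hr : C.Valid r) (hμ : Spec r μ)
    (h : O (gl μ r (C.cutA μ m u))) : O (gl μ r (C.cutA μ m' u)) := by
  have hs := T.RT1_gl_scope (hm.trans_lt hm') hr hμ
  exact T.op _ _ hs h (ds_leS hs (gl_ds (cutA_mono (RT1_scope T.v T.sp) T.sp le_rfl hm hm')
    (spec_cutA _ T.sp) le_rfl hr hμ)).1

theorem ab_open : C.OpenS μ (C.Ab μ O u) := by
  rintro r r' hr ⟨hs, m, hm, ho⟩ h
  exact ⟨RU_spec h.1.le hs, m, hm, T.op _ _ (T.RT1_gl_scope hm hr.v hs) ho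
    (gl_leS h hs (RB4_cutA_valid T.v hm) (spec_cutA _ T.sp)).1⟩

theorem ab_lc : C.LC μ (· < μ) (C.Ab μ O u) := by
  classical
  intro δ r hδ hr hm H
  have hδ : δ < μ := hδ
  have hs : Spec r μ := by
    obtain ⟨r'', h1, ⟨L, hL⟩, -⟩ := H r (leT_refl (scope_of_mem hr.v hm))
    exact ⟨L, by rw [← h1.ag.2 μ hδ, hL]⟩
  have hi := (spec_inac hr.v hs).1
  obtain ⟨ν, hν, en, hen⟩ := low_small (C := C) hm hi hδ
  obtain ⟨b, hb, hfb⟩ := hi.bound hν
    (fun i => if h : C.Ab μ O u (en i) then h.2.choose else 0) (fun i _ => by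
      split_ifs with h
      · exact h.2.choose_spec.1
      · exact hi.isSuccLimit.pos)
  have key : ∀ q, C.LeT δ q r → C.Ab μ O u q → O (gl μ q (C.cutA μ b u)) := by
    intro q hq ha
    obtain ⟨i, hi', rfl⟩ := hen q hq
    have h1 := hfb i hi'
    rw [dif_pos ha] at h1
    exact T.RT1_up h1.le hb (le_valid hq.le) ha.1 ha.2.choose_spec.2
  refine ⟨hs, b, hb, ?_⟩
  have hw := T.RT1_gl_scope hb hr.v hs
  have hwm : δ ∈ (gl μ r (C.cutA μ b u)).c := (gl_agS μ r _ δ hδ).1.2 hm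
  refine T.lc δ _ hδ.le hw hwm fun w' hw' => ?_
  have h1 := mix_le_left hw'.le hwm hr.v hm
  rw [mix_eq_right (RT1_agLo (gl_agS μ r _) hδ)] at h1
  obtain ⟨r'', h2, h3⟩ := H _ h1
  have h4 := leT_trans h2 h1
  refine ⟨_, ?_, key r'' h4 h3⟩
  have h5 := mix_le_left h2.le (le_c h1.le hm) hw.v hwm
  rw [mix_mix_left, mix_eq_left hw'.ag, ← gl_mix _ _ _ hδ, mix_eq_left h4.ag] at h5
  exact h5

theorem ab_of (hr : C.LeT μ r u) (h : O r) : C.Ab μ O u r :=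
  ⟨RU_spec hr.le T.sp, _, (scode_spec (spec_inac T.v T.sp).1
    (stem_bdd (le_valid hr.le) (RU_spec hr.le T.sp))).1, T.un r hr h⟩

theorem ab_cut (hr : C.LeT μ r u) (h : C.Ab μ O u r) :
    O (gl μ r (C.cutA μ (C.scode μ r) u)) := by
  obtain ⟨-, m, hm, ho⟩ := h
  have hu := RT1_scope T.v T.sp
  have h1 := T.un _ (RU_gl_leT hu T.sp le_rfl hr.le (cutA_ds hu T.sp le_rfl hm)) ho
  have h2 : C.scode μ (gl μ r (C.cutA μ m u)) = C.scode μ r := by
    unfold Dat.scode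
    rw [stem_gl]
  rwa [gl_gl_left _ _ (spec_cutA _ T.sp), h2] at h1

/-- If all one step insertions are accepted then the condition is in `O`. -/
theorem of_all_ins {w : Raw} {L : Lo} (hw : C.LeT μ w u) (hL : w.l μ = some L)
    (h : ∀ ξ ∈ L.A, C.Insb w μ (C.dec ξ) ∧ C.Ab μ O u (ins w μ (C.dec ξ) (sec L.F ξ))) :
    O w := by
  have hu := RT1_scope T.v T.sp
  have hws := leT_scope hu hw
  have hwμ : Spec w μ := ⟨L, hL⟩
  have hi := (spec_inac T.v T.sp).1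
  have main : ∀ w', C.LeT μ w' w → sAt μ w' ≠ sAt μ w → ∃ w'', C.LeT μ w'' w' ∧ O w'' := by
    intro w' hw' hne
    obtain ⟨w₀, w₁, h0, hins, h1⟩ := first_ins hw' hwμ hne
    have hw₀ := leT_scope hws h0.1
    have hw₁ : C.LeT μ w₁ u := leT_trans (leT_of_ins hw₀ hins le_rfl) (leT_trans h0.1 hw)
    obtain ⟨L₀, ξ, hL₀, hξ, hb, rfl⟩ := hins
    obtain ⟨L₁, hL₁, hA, hF, -⟩ := le_l1 h0.1.le hL
    obtain rfl : L₁ = L₀ := Option.some.inj (hL₁.symm.trans hL₀)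
    obtain ⟨hb', hab⟩ := h ξ (hA hξ)
    have h2 := (ins_leS h0 hwμ hb ((hw₀.v.sp μ L₁ hL₀).F ξ hξ) (hF ξ hξ)).2
    have h3 := T.ab_open _ _
      (leT_scope hws (leT_of_ins hws ⟨L, ξ, hL, hA hξ, hb', rfl⟩ le_rfl)) hab h2
    have h4 := T.ab_cut hw₁ h3
    have hv₁ := le_valid hw₁.le
    have hm := (scode_spec (C := C) hi (stem_bdd hv₁ h3.1)).1
    have hs := T.RT1_gl_scope hm hv₁ h3.1
    have h5 := T.op _ _ hs h4
      (ds_leS hs (cut_gl_ds hw₁ (dirA_of_agree hw₁.ag) T.sp le_rfl hm)).1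
    have h6 := T.op _ _ (RT1_scope (RB4_cutA_valid hv₁ hm) (spec_cutA _ h3.1)) h5
      (cut_path h1 h3.1 hm fun η hη hbd => (scode_spec hη hbd).1)
    have hs' := leT_scope hws hw'
    exact ⟨_, (ds_leS hs' (cutA_ds hs' (RU_spec hw'.le hwμ) le_rfl hm)).1, h6⟩
  refine T.lc μ w le_rfl hws (spec_mem hws.v hwμ) fun w' hw' => ?_
  by_cases hne : sAt μ w' = sAt μ w
  · have hs' := leT_scope hws hw'
    obtain ⟨L', hL'⟩ := RU_spec hw'.le hwμ
    obtain ⟨ξ, hξ, -, -, hb⟩ := exists_ins hs'.v hL' hi.isSuccLimit.pos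
      (Z := univ) Filter.univ_mem
    have hins : C.Ins (ins w' μ (C.dec ξ) (sec L'.F ξ)) w' μ := ⟨L', ξ, hL', hξ, hb, rfl⟩
    have h1 := leT_of_ins hs' hins le_rfl
    obtain ⟨w'', h2, h3⟩ := main _ (leT_trans h1 hw') (hne ▸ (ins_facts hs'.v hins).2.2.1)
    exact ⟨w'', leT_trans h2 h1, h3⟩
  · exact main w' hw' hne

/-- For almost all blocks, all lower parts at the second point are decided. -/
theorem blocks (H : C.PPS μ) (hr : C.Valid r) (hμ : Spec r μ) :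
    {ξ | C.Insb r μ (C.dec ξ) ∧ ∀ l, C.LeT (fp (C.dec ξ) + 1) l (ins r μ (C.dec ξ) ∅) →
      (∃ l', C.LeT (fp (C.dec ξ) + 1) l' l ∧ C.Ab μ O u l') ∨ C.NA μ O u l} ∈ C.W μ := by
  obtain ⟨hi, -, hsp⟩ := spec_inac hr hμ
  have hval : ∀ b, C.Insb r μ b → C.Valid (ins r μ b ∅) := fun b hb =>
    ins_valid hr hμ hb (C.fst_empty b).1 (C.fst_empty b).2
  have hZ := (C.good μ hsp).w3 (fun b => C.Insb r μ b → ∀ l, C.LeT (fp b + 1) l (ins r μ b ∅) →
      (∃ l', C.LeT (fp b + 1) l' l ∧ C.Ab μ O u l') ∨ C.NA μ O u l)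
    (fun b hb => by
      by_cases hib : C.Insb r μ b
      swap
      · exact ⟨b, dt_refl (blk_scope hb hi).1, rfl, fun h => absurd h hib⟩
      obtain ⟨hg, hs, hlt⟩ := ins_good (f := ∅) hr hμ hib
      have hp := RT1_scope (hval b hib) hs
      obtain ⟨u0, hu0, hQ⟩ := pf_S (ν := 1) H hp (Or.inl hg) hlt.le
        (by simpa using (one_le_aleph0.trans (C.bf.aleph0_le _))) (fun _ => C.Ab μ O u)
        (fun _ => T.ab_open) (fun _ => T.ab_lc)
      obtain ⟨b', h1, h2, h3⟩ := ins_up hr hμ hib hu0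
      refine ⟨b', h1, h2, fun hib' => ?_⟩
      have hv' := hval b' hib'
      have hg' := (ins_good (f := ∅) hr hμ hib').1.1
      rw [(blk_dt hb hi h1).2] at hg' ⊢
      intro l hl
      obtain ⟨h4, h5⟩ := agS_of_stem hu0.1.v hv' h3
      have hm0 := hu0.1.d.c hg.1
      have h6 := mix_le_left hl.le hg' hu0.1.v hm0
      rw [mix_eq_right (RT1_agLo (RB4_agS_symm h4) hlt)] at h6
      rcases hQ 0 zero_lt_one _ h6 with ⟨l', h7, h8⟩ | h7
      · have h9 := mix_le_left h7.le (le_c h6.le hm0) hv' hg'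
        rw [mix_mix_left, mix_eq_left hl.ag] at h9
        exact Or.inl ⟨_, h9, ab_congr T.sp (le_valid h7.le) (le_valid h9.le)
          (RT1_stem (h7.ag.trans h6.ag) (agree_mix _ _ _) (rb1_agLo_symm (agLo_mix _ _ _)) hlt h4 h5)
          h8⟩
      · exact Or.inr (na_congr T.sp (le_valid h6.le) (le_valid hl.le)
          (RU_spec (le_trans' h6.le (ds_leS hp hu0.1).1.le) hs)
          (RT1_stem h6.ag hl.ag (agLo_mix _ _ _) hlt h4 h5) h7))
    (fun b b' hb h1 h2 hz hib' => by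
      have hfp := (blk_dt hb hi h1).2
      have hib : C.Insb r μ b := ⟨hb, hfp ▸ hib'.lt, hfp ▸ hib'.bel⟩
      obtain ⟨hg, hs, hlt⟩ := ins_good (f := ∅) hr hμ hib
      have hp := RT1_scope (hval b hib) hs
      have hd := (ins_dt hr hμ hib (C.fst_empty b) h1 h2).2
      have hg' := hd.1.d.c hg.1
      rw [hfp]
      intro l hl
      have h6 := mix_le_left hl.le hg' hp.v hg.1
      rw [mix_eq_right ⟨hd.1.lo, hd.2⟩] at h6
      rcases hz hib _ h6 with ⟨l', h7, h8⟩ | h7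
      · have h9 := mix_le_left h7.le (le_c h6.le hg.1) hd.1.v hg'
        rw [mix_mix_left, mix_eq_left hl.ag] at h9
        have h10 := leT_trans h7 h6
        have h11 := mix_dt hd hg.1 hlt.le (le_valid h7.le) (le_c h10.le hg.1)
        rw [mix_eq_left h10.ag] at h11
        have hs' := RT1_scope (le_valid h7.le) h8.1
        exact Or.inl ⟨_, h9, T.ab_open _ _ hs' h8 (ds_leS hs' h11.1)⟩
      · have h11 := mix_dt hd hg.1 hlt.le (le_valid hl.le) (le_c hl.le hg')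
        rw [mix_eq_left hl.ag] at h11
        exact Or.inr (na_leS h7
          (ds_leS (RT1_scope (le_valid h6.le) (RU_spec h6.le hs)) h11.1)))
  exact Filter.mem_of_superset (Filter.inter_mem (insb_ae hr hμ) hZ) fun ξ hξ => ⟨hξ.1, hξ.2 hξ.1⟩

/-- The key step. -/
theorem key (H : C.PPS μ) {L : Lo} (hr : C.LeT μ r u) (hL : r.l μ = some L)
    (h : C.NA μ O u r) :
    {ξ | C.Insb r μ (C.dec ξ) ∧ C.NA μ O u (ins r μ (C.dec ξ) (sec L.F ξ))} ∈ C.W μ := by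
  have vr := le_valid hr.le
  have sr : Spec r μ := ⟨L, hL⟩
  have su := scope_of_mem T.v (spec_mem T.v T.sp)
  have G := C.good μ (spec_inac vr sr).2.2
  have lv := vr.sp μ L hL
  by_contra hc
  have h0 := Filter.inter_mem lv.A (Filter.inter_mem (T.blocks H vr sr)
    (Ultrafilter.compl_mem_iff_notMem.2 hc))
  generalize hA : L.A ∩ _ = A at h0
  have h1 : ∀ ξ ∈ A, ∃ (a : Raw) (f : Set (Od × Od)) (c : Od), ξ ∈ L.A ∧ C.LeS μ a r ∧
      a.l μ = r.l μ ∧ C.Insb a μ (C.dec ξ) ∧ C.Fst (C.dec ξ) f ∧ sec L.F ξ ⊆ f ∧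
      C.Ab μ O u (ins a μ (C.dec ξ) f) ∧ c < fp (C.dec ξ) ∧ C.dec c = res μ a := by
    subst hA
    rintro ξ ⟨a1, ⟨a2, a3⟩, a4⟩
    obtain ⟨l, b1, b2⟩ := (a3 _ (ins_leT_fst vr sr a2 (lv.F ξ a1))).resolve_right
      fun e => a4 ⟨a2, e⟩
    obtain ⟨a, c1, c2, c3, -, c5, c6, c7, c8⟩ := ins_low vr sr a2 (lv.F ξ a1) b1
    obtain ⟨c, d1, d2⟩ := C.hdec _ _ a2.blk.inac c5
    exact ⟨a, _, c, a1, c1, c2, c3, c6, c7, c8 ▸ b2, d1, d2⟩
  have : Nonempty Raw := ⟨r⟩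
  choose! R φ g e1 e2 e3 e4 e5 e6 e7 e8 e9 using h1
  obtain ⟨c, hg⟩ := G.nor g (Filter.mem_of_superset h0 e8)
  have h2 := Filter.inter_mem h0 hg
  obtain ⟨z, z1, z2⟩ := Filter.nonempty_of_mem h2
  have h3 : ∀ ξ ∈ A ∩ {ξ | g ξ = c}, R ξ = R z := fun ξ hξ =>
    eq_of_res (by rw [← e9 ξ hξ.1, ← e9 z z1, hξ.2, z2]) ((e3 ξ hξ.1).trans (e3 z z1).symm)
      ((e2 ξ hξ.1).1.ag.trans (e2 z z1).1.ag.symm)
  have l0 := leT_trans (e2 z z1).1 hr
  have s0 := leT_scope su l0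
  have hL0 := (e3 z z1).trans hL
  obtain ⟨w, L', f1, -, f3, f4, f5⟩ := shrink s0 hL0 le_rfl h2 (fun ξ hξ => e1 ξ hξ.1) φ
    fun ξ hξ => ⟨(e4 ξ hξ.1).blk, e5 ξ hξ.1, e6 ξ hξ.1⟩
  have l1 := ds_leS s0 f1
  have l2 := leT_trans l1.1 l0
  refine h w (leS_trans l1 (e2 z z1)) (T.ab_of l2 (T.of_all_ins l2 f3 fun ξ hξ => ?_))
  rw [f4] at hξ
  have i1 := e4 ξ hξ.1
  have i2 := e7 ξ hξ.1
  have i3 := e5 ξ hξ.1
  rw [h3 ξ hξ] at i1 i2
  have i4 := stem_ins_congr (f := φ ξ) s0.v f1.v ⟨L, hL0⟩ (stem_of_agS f1.lo l1.2).symm i1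
  rw [f5 ξ hξ]
  exact ⟨i4.1, ab_congr T.sp (ins_valid s0.v ⟨L, hL0⟩ i1 i3.1 i3.2)
    (ins_valid f1.v ⟨L', f3⟩ i4.1 i3.1 i3.2) i4.2 i2⟩

/-- Closing under insertions. -/
theorem close (H : C.PPS μ) {v : Raw} (hv : C.LeT μ v u) :
    ∃ w, C.DS μ μ w v ∧ ∀ r r', C.LeT μ r w → C.NA μ O u r → C.Ins r' r μ → C.NA μ O u r' := by
  have sv := leT_scope (scope_of_mem T.v (spec_mem T.v T.sp)) hv
  have pv := RU_spec hv.le T.sp
  have hi := (spec_inac T.v T.sp).1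
  have hsp : ∀ {x}, C.DS μ μ x v → Spec x μ := fun hx => RU_spec (ds_leS sv hx).1.le pv
  have hsc : ∀ r, C.LeT μ r v → C.dec (C.scode μ r) = stem μ r := fun r hr =>
    (scode_spec hi (stem_bdd (le_valid hr.le) (RU_spec hr.le pv))).2
  have up : ∀ {r b f f'}, C.LeT μ r v → C.Insb r μ b → C.Fst b f' → f ⊆ f' →
      C.NA μ O u (ins r μ b f) → C.NA μ O u (ins r μ b f') := fun a1 a2 a3 a4 a5 =>
    na_leS a5 (ins_leS (leS_refl (leT_scope sv a1)) (RU_spec a1.le pv) a2 a3 a4).2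
  obtain ⟨w, hw, hQ⟩ := diag sv pv le_rfl
    (fun m x => ∀ r, C.LeT μ r v → C.scode μ r = m → C.NA μ O u r → ∀ L, x.l μ = some L →
      ∀ ξ ∈ L.A, C.Insb r μ (C.dec ξ) → C.NA μ O u (ins r μ (C.dec ξ) (sec L.F ξ)))
    (fun m _ x hx => by
      have sx := leT_scope sv (ds_leS sv hx).1
      by_cases hc : ∃ a, C.LeT μ a v ∧ C.scode μ a = m ∧ C.NA μ O u a
      · obtain ⟨a, a1, a2, a3⟩ := hc
        obtain ⟨La, hLa⟩ := RU_spec a1.le pv
        obtain ⟨Lx, hLx⟩ := hsp hx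
        have y1 := RU_gl_leT sv pv le_rfl a1.le hx
        have vy := le_valid y1.le
        have y2 := gl_l hLa hLx
        have y3 := T.key H (leT_trans y1 hv) y2
          (na_congr T.sp (le_valid a1.le) vy ⟨La, hLa⟩ (stem_gl μ a x).symm a3)
        have lv := sx.v.sp μ Lx hLx
        obtain ⟨x', L', f1, -, f3, f4, f5⟩ := shrink sx hLx le_rfl (Filter.inter_mem lv.A y3)
          inter_subset_left (sec Lx.F) fun ξ hξ => ⟨hξ.2.1.blk, lv.F ξ hξ.1, subset_rfl⟩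
        refine ⟨x', f1, fun r r1 r2 _ L hL ξ hξ hb => ?_⟩
        obtain rfl : L' = L := Option.some.inj (f3.symm.trans hL)
        rw [f4] at hξ
        have vr := le_valid r1.le
        have e : stem μ (gl μ a x) = stem μ r := by
          rw [stem_gl, ← hsc a a1, ← hsc r r1, a2, r2]
        have i3 := lv.F ξ hξ.1
        rw [f5 ξ hξ]
        exact na_congr T.sp (ins_valid vy ⟨_, y2⟩ hξ.2.1 i3.1 i3.2)
          (ins_valid vr (RU_spec r1.le pv) hb i3.1 i3.2) (ins_good vy ⟨_, y2⟩ hξ.2.1).2.1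
          (stem_ins_congr vy vr ⟨_, y2⟩ e hξ.2.1).2 hξ.2.2
      · exact ⟨x, ds_refl sx, fun r r1 r2 r3 => absurd ⟨r, r1, r2, r3⟩ hc⟩)
    (fun m _ x x' h1 h2 h3 r r1 r2 r3 L' hL' ξ hξ hb => by
      obtain ⟨L, hL⟩ := hsp h1
      obtain ⟨L'', b1, b2, b3, -⟩ := h2.d.l1 μ L hL
      obtain rfl : L'' = L' := Option.some.inj (b1.symm.trans hL')
      exact up r1 hb ((h2.v.sp μ _ hL').F ξ hξ) (b3 ξ hξ) (h3 r r1 r2 r3 L hL ξ (b2 hξ) hb))
  refine ⟨w, hw, fun r r' hr hn hins => ?_⟩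
  obtain ⟨L, ξ, hL, hξ, hb, rfl⟩ := hins
  have r1 := leT_trans hr (ds_leS sv hw).1
  have vr := le_valid hr.le
  obtain ⟨Lw, hLw⟩ := hsp hw
  obtain ⟨L', b1, b2, b3, -⟩ := le_l1 hr.le hLw
  obtain rfl : L' = L := Option.some.inj (b1.symm.trans hL)
  exact up r1 hb ((vr.sp μ _ hL).F ξ hξ) (b3 ξ hξ)
    (hQ _ (scode_spec hi (stem_bdd vr ⟨_, hL⟩)).1 r r1 rfl hn _ (RB4_cutA_l _ hLw) ξ
      ⟨b2 hξ, (scode_spec hb.blk.inac (stem_bdd_insb vr ⟨_, hL⟩ hb)).1⟩ hb)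

end Tree

theorem tree (H : C.PPS μ) (hp : C.Valid p) (hμ : Spec p μ) (h₁ : C.OpenT μ O)
    (h₂ : C.LC μ (· ≤ μ) O) (hβ : β ∈ p.c) (hβμ : β < μ) (hw : C.WFl β μ O p) :
    ∃ u, C.DT β μ u p ∧ ∀ r, C.LeT μ r u → ¬ O r := by
  have sp := scope_of_mem hp (spec_mem hp hμ)
  have hi := (spec_inac hp hμ).1
  obtain ⟨u, hu, hN⟩ := unif_spec sp hμ le_rfl (fun _ r => O r) fun _ r r' a1 a2 a3 =>
    h₁ r r' (leT_scope sp a1) a2 (ds_leS (leT_scope sp a1) a3).1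
  have lu := (ds_leS sp hu).1
  have su := leT_scope sp lu
  have pu := RU_spec lu.le hμ
  have T : C.Tree μ O u := ⟨hu.v, pu, h₁, h₂, fun r a1 a2 => by
    have := hN 0 hi.isSuccLimit.pos r a1 (dirA_of_agree a1.ag) a2
    rwa [max_eq_right zero_le] at this⟩
  obtain ⟨v, hv, hn⟩ := H (C.Ab μ O u) u β su T.ab_open T.ab_lc (hu.d.c hβ) hβμ.le
    fun r a1 a2 ⟨_, m, hm, a3⟩ => by
      have b1 := ds_trans (cutA_ds su pu le_rfl hm) hu
      refine hw _ (RU_gl_leT sp hμ le_rfl (leT_trans a1 lu).le b1) ?_ a3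
      have b2 := (gl_ds b1 hμ le_rfl hp hμ).d
      rw [gl_self] at b2
      unfold DirA
      rw [← gl_mix _ _ _ hβμ]
      exact (RB4_gl_dle (dirA_trans a2 hu.d hβ) (spec_mem hp hμ) hμ (spec_cutA _ pu)).trans b2
  have lv := (ds_leS su hv.1).1
  have sv := leT_scope su lv
  obtain ⟨w, hw', hc⟩ := T.close H lv
  have lw := ds_leS sv hw'
  have sw := leT_scope sv lw.1
  refine ⟨w, dt_trans (ds_dt hw' hβμ) (dt_trans hv (ds_dt hu hβμ)), fun r hr ho => ?_⟩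
  have key : C.NA μ O u r := by
    have h := (leT_iff sw).1 hr
    clear hr ho
    induction h with
    | refl => exact na_leS hn lw
    | tail a1 a2 ih =>
      have a3 := (leT_iff sw).2 a1
      have lt := fun e => na_leS ih ((leS_iff (leT_scope sw a3)).2
        (Relation.ReflTransGen.single ⟨a2.1, a2.2.1, a2.2.2.1, e⟩))
      rcases a2.2.2.2 with e | ⟨ν, e1, e2⟩
      · exact lt (.inl e)
      · rcases e1.eq_or_lt with rfl | e3
        · exact hc _ _ a3 ih e2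
        · exact lt (.inr ⟨ν, e3, e2⟩)
  exact key r (leS_refl (leT_scope sw hr)) (T.ab_of (leT_trans hr (leT_trans lw.1 lv)) ho)

theorem pp_of_pps {t : Od} (H : C.PPS t) : C.PP t := by
  intro O p β hp h₁ h₂ hβ hβt hw
  rcases hβt.eq_or_lt with rfl | hlt
  · exact ⟨p, dt_refl hp, fun r hr => hw r hr (dirA_of_agree hr.ag)⟩
  by_cases hs : Spec p t
  · exact tree H hp.v hs h₁ h₂ hβ hlt hw
  · obtain ⟨u, hu, h⟩ := H O p β hp (fun r r' a b c => h₁ r r' a b c.1)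
      (fun δ r a => h₂ δ r a.le) hβ hβt hw
    refine ⟨u, hu, fun r hr => h r (leS_of_not_spec hr fun ⟨L, hL⟩ => hs ?_)⟩
    have e := (ds_leS hp hu.1).2
    unfold sAt at e
    rw [hL] at e
    obtain ⟨L', h', -⟩ := Option.map_eq_some_iff.1 e.symm
    exact ⟨L', h'⟩

theorem pp_all (C : Ctx) (t : Od) : C.PP t := by
  induction t using (wellFounded_lt (α := Od)).induction with
  | h t ih => exact pp_of_pps (pps_of_ih ih)

end Ctx

end Pool.Agent.MP_85ce7b_lc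

end

section

namespace Pool.Agent.MP_85ce7b_lc

open Set Cardinal Ordinal Dat

namespace Ctx

variable {C : Ctx} {p q r : Raw} {t δ δ' e μ ν τ : Od} {D : Raw → Prop}

/-! ### Bounding -/

theorem RH_up {a b : Raw} (hb : C.Scope t b) (he : e ∈ b.c) (het : e ≤ t) (h : C.LeT e a b) :
    C.LeT t a b :=
  leT_mono h (scope_of_mem hb.v he) hb het

theorem RH_choose (P : Od → Prop) (h0 : 0 < τ) : ∃ ζ < τ, (∃ ζ' < τ, P ζ') → P ζ := by
  by_cases h : ∃ ζ' < τ, P ζ'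
  · obtain ⟨ζ, h1, h2⟩ := h
    exact ⟨ζ, h1, fun _ => h2⟩
  · exact ⟨0, h0, fun h' => absurd h' h⟩

theorem RH_bound {ν' : Od} (hl : Order.IsSuccLimit τ) (hν : ν.card < τ.cof)
    (hν' : ν'.card < τ.cof) (P : Od → Od → Od → Prop) :
    ∃ b < τ, ∀ i < ν, ∀ j < ν', (∃ ζ < τ, P i j ζ) → ∃ ζ ≤ b, P i j ζ := by
  choose z hz hP using fun i j => RH_choose (P i j) hl.pos
  choose a ha hza using fun i => bound_of_lt_cof hl hν' (z i) fun j _ => hz i j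
  obtain ⟨b, hb, hab⟩ := bound_of_lt_cof hl hν a fun i _ => ha i
  exact ⟨b, hb, fun i hi j hj h => ⟨z i j, ((hza i j hj).trans (hab i hi)).le, hP i j h⟩⟩

theorem RH_good_succ (hp : C.Valid p) (h : μ + 1 ∈ p.c) : Good p (μ + 1) :=
  ⟨h, l_none_of_not_inac hp (rb5x_succ_not_inac μ), μ, rfl⟩

theorem RH_dirA {w : Raw} (h : C.LeT e r w) (hδ : δ ∈ w.c) (hn : NoSp w δ e) : DirA δ r w := by
  refine le_dirA h.le hδ fun x hx hδx => ?_
  rcases le_or_gt x e with h1 | h1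
  · obtain ⟨L, hL⟩ := hx
    rw [hn x hδx h1] at hL
    cases hL
  · rw [sAt, sAt, h.ag.2 x h1]

theorem ro_open (C : Ctx) (t : Od) (O : Raw → Prop) : C.OpenT t (C.RO t O) := by
  exact fun _ _ _ h h' r₁ h₁ => h r₁ (leT_trans h₁ h')

theorem ro_lc (C : Ctx) (t : Od) (O : Raw → Prop) : C.LC t (· ≤ t) (C.RO t O) := by
  intro δ r hδt hr hδ H r₁ h₁
  obtain ⟨r'', g1, g2⟩ := H (mix δ r₁ r) (low_leT h₁.le hδ)
  have hδ' : δ ∈ (mix δ r₁ r).c := (rb2_c_ge le_rfl).2 hδ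
  have hδ₁ : δ ∈ r₁.c := le_c h₁.le hδ
  have e1 := mix_leT_right h₁ hδ hδt (le_valid g1.le) (le_c g1.le hδ')
  rw [mix_eq_left (g1.ag.trans (agree_mix δ r₁ r))] at e1
  have e2 := mix_le_left g1.le hδ' (le_valid h₁.le) hδ₁
  rw [mix_mix_left, mix_self] at e2
  obtain ⟨r₃, g3, g4⟩ := g2 _ e1
  exact ⟨r₃, leT_trans g3 (RH_up (leT_scope hr h₁) hδ₁ hδt e2), g4⟩

/-- Reduction of a bounding family to the part below a good point. -/
theorem zfam_low {Z : Od → Od → Raw → Prop} (hp : C.Scope t p) (he : Good p e) (het : e ≤ t)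
    (hν : ν.card ≤ C.B e) (hτ : τ.card ≤ C.B e) (hZ : C.ZFam t p ν τ Z) :
    ∃ u, C.DT e t u p ∧ ∀ i < ν, ∀ ζ < τ, ∀ r, C.LeT t r u → Z i ζ r → Z i ζ (mix e r u) := by
  obtain ⟨f, g, -, hfg⟩ := exists_pairing (C.bf.aleph0_le e)
  obtain ⟨a, ha⟩ := exists_surj_of_card_le hν
  obtain ⟨b, hb⟩ := exists_surj_of_card_le hτ
  obtain ⟨u, hu, H⟩ := pf_low (C.pp_all t) hp (Or.inl he) het (ν := (C.B e).ord) (card_ord _).le
    (fun k => C.RO t fun r => C.LeT t r p ∧ Z (a (f k)) (b (g k)) r)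
    (fun _ => ro_open C t _) fun _ => ro_lc C t _
  have hup := (ds_leS hp hu.1).1
  refine ⟨u, hu, fun i hi ζ hζ r hr hz => ?_⟩
  obtain ⟨i', hi', rfl⟩ := ha i hi
  obtain ⟨ζ', hζ', rfl⟩ := hb ζ hζ
  obtain ⟨k, hk, rfl, rfl⟩ := hfg i' hi' ζ' hζ'
  have hrp := leT_trans hr hup
  have heu : e ∈ u.c := hu.1.d.c he.1
  have h1 := H k hk r hr fun r' hr' => ⟨r', leT_refl (leT_scope hp (leT_trans hr' hrp)),
    leT_trans hr' hrp, hZ.mono _ _ _ _ _ hrp hz hr' le_rfl⟩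
  refine hZ.reg _ _ _ (leT_trans (RH_up (leT_scope hp hup) heu het (low_leT hr.le heu)) hup)
    fun r' hr' => ?_
  obtain ⟨r'', g1, -, g2⟩ := h1 r' hr'
  exact ⟨r'', g1, g2⟩

/-- A bounding property that holds below a good point holds. -/
theorem bnd_of_low (hp : C.Scope t p) (he : Good p e) (het : e ≤ t) (hν : ν.card ≤ C.B e)
    (hτ : τ.card ≤ C.B e) (h : ∀ u, C.LeT t u p → C.BndR e u ν τ) : C.BndR t p ν τ := by
  intro p' hp' Z hZ
  have hs' := leT_scope hp hp'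
  have he' := le_good hp'.le he
  obtain ⟨u, hu, H⟩ := zfam_low hs' he' het hν hτ hZ
  have hup := (ds_leS hs' hu.1).1
  have hsu := leT_scope hs' hup
  have heu : e ∈ u.c := hu.1.d.c he'.1
  have up : ∀ r, C.LeT e r u → C.LeT t r u := fun r hr => RH_up hsu heu het hr
  have up' : ∀ r r', C.LeT e r u → C.LeT e r' r → C.LeT t r' r := fun r r' hr hr' =>
    RH_up (leT_scope hsu (up r hr)) (le_c hr.le heu) het hr'
  obtain ⟨q, hq, hζ⟩ := h u (leT_trans hup hp') u (leT_refl (scope_of_mem hsu.v heu)) Z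
    ⟨fun i ζ ζ' r r' hr hz hr' hζ =>
      hZ.mono i ζ ζ' r r' (leT_trans (up r hr) hup) hz (up' r r' hr hr') hζ,
    fun i ζ r hr hro => by
      refine hZ.reg i ζ r (leT_trans (up r hr) hup) (ro_lc C t _ e r het
        (leT_scope hsu (up r hr)) (le_c hr.le heu) fun r' hr' => ?_)
      obtain ⟨r'', g1, g2⟩ := hro r' hr'
      have g3 := leT_trans (up r'' (leT_trans g1 (leT_trans hr' hr))) hup
      exact ⟨r'', g1, fun r₃ h₃ => ⟨r₃, leT_refl (leT_scope hs' (leT_trans h₃ g3)),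
        hZ.mono _ _ _ _ _ g3 g2 h₃ le_rfl⟩⟩,
    fun i hi r hr => by
      obtain ⟨r₁, g1, ζ, g2, g3⟩ := hZ.dense i hi r (leT_trans (up r hr) hup)
      have g4 := H i hi ζ g2 r₁ (leT_trans g1 (up r hr)) g3
      rw [← mix_congr (q := r₁) ⟨RB4_agS_refl e r₁, rfl⟩ hr.ag] at g4
      exact ⟨_, low_leT g1.le (le_c hr.le heu), ζ, g2, g4⟩⟩
  exact ⟨q, leT_trans (up q hq) hup, hζ⟩

theorem bnd_gap (hp : C.Scope t p) (hδ : Good0 p δ) (he : Good p e) (hδe : δ ≤ e) (het : e ≤ t)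
    (hn : NoSp p δ e) (hν : ν.card ≤ C.B δ) (hτ : τ.card ≤ C.B e) (hl : Order.IsSuccLimit τ)
    (hc : C.B δ < τ.cof) : C.BndR t p ν τ := by
  refine bnd_of_low hp he het (hν.trans (C.bf.mono hδe)) hτ fun u hu p' hp' Z hZ => ?_
  have hle : C.Le p' p := le_trans' hp'.le hu.le
  have hs' : C.Scope e p' := scope_of_mem (le_valid hle) (le_c hle he.1)
  obtain ⟨w, hw, H⟩ := unif_good hs' (le_good0 hle hδ) hδe hν (fun j r => ∃ ζ < τ, Z j ζ r)
    fun j r r' hr ⟨ζ, h1, h2⟩ hd =>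
      ⟨ζ, h1, hZ.mono _ _ _ _ _ hr h2 (ds_leS (leT_scope hs' hr) hd.1).1 le_rfl⟩
  have hwp := (ds_leS hs' hw.1).1
  have hsw := leT_scope hs' hwp
  have hwle := le_trans' hwp.le hle
  have hδp := (good0_mem hp.v hδ).1
  have hδw : δ ∈ w.c := le_c hwle hδp
  have hnw := (le_noSp hwle hδp he.1 hn).1
  obtain ⟨en, hen⟩ := low_enum (C := C) (le_good0 hwle hδ)
  obtain ⟨b, hb, hB⟩ := RH_bound (ν' := (C.B δ).ord) hl (hν.trans_lt hc) (by rwa [card_ord])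
    fun j k ζ => Z j ζ (en k)
  refine ⟨w, hwp, b, hb, fun j hj => hZ.reg j b w hwp fun r' hr' => ?_⟩
  obtain ⟨r'', g1, g2⟩ := hZ.dense j hj r' (leT_trans hr' hwp)
  have g3 := leT_trans g1 hr'
  have g4 := H j hj r'' g3 (RH_dirA g3 hδw hnw) g2
  have g5 := low_leT g3.le hδw
  obtain ⟨k, hk, ek⟩ := hen _ g5
  obtain ⟨ζ, g6, g7⟩ := hB j hj k hk (by rwa [ek])
  rw [ek] at g7
  exact ⟨r'', g1, hZ.mono _ _ _ _ _ (leT_trans (RH_up hsw hδw hδe g5) hwp) g7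
    (le_low g3 hδw hδe) g6⟩

theorem bnd_spec (hp : C.Scope t p) (hμ : Spec p μ) (he : μ + 1 ∈ p.c) (het : μ + 1 ≤ t)
    (hν : ν < (Order.succ (C.B μ)).ord) : C.BndR t p ν (Order.succ (C.B μ)).ord := by
  have hν' : ν.card ≤ C.B μ := Order.lt_succ_iff.1 (lt_ord.1 hν)
  have hμe : μ ≤ μ + 1 := (lt_add_one μ).le
  have hreg := isRegular_succ (C.bf.aleph0_le μ)
  refine bnd_of_low hp (RH_good_succ hp.v he) het (hν'.trans (C.bf.mono hμe))
    ((card_ord _).le.trans (C.bf.succ_le (lt_add_one μ))) fun u hu p' hp' Z hZ => ?_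
  have hle : C.Le p' p := le_trans' hp'.le hu.le
  have hs' : C.Scope (μ + 1) p' := scope_of_mem (le_valid hle) (le_c hle he)
  have hμ' : Spec p' μ := RU_spec hle hμ
  have hin := (spec_inac hp.v hμ).1
  obtain ⟨a, ha⟩ := exists_surj_of_card_le hν'
  rw [C.bf.inac_eq hin] at ha
  obtain ⟨w, hw, H⟩ := unif_spec hs' hμ' hμe
    (fun j r => ∃ ζ < (Order.succ (C.B μ)).ord, Z (a j) ζ r)
    fun j r r' hr ⟨ζ, h1, h2⟩ hd =>
      ⟨ζ, h1, hZ.mono _ _ _ _ _ hr h2 (ds_leS (leT_scope hs' hr) hd).1 le_rfl⟩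
  have hwp := (ds_leS hs' hw).1
  have hsw := leT_scope hs' hwp
  have hμw : Spec w μ := RU_spec hwp.le hμ'
  have hnw : NoSp w μ (μ + 1) := fun x h1 h2 =>
    l_none_of_not_inac hsw.v (rb5x_between h1 h2)
  have hcof : μ.card < (Order.succ (C.B μ)).ord.cof := by
    rw [hreg.cof_ord]
    exact Order.lt_succ_iff.2 (C.bf.card_le μ)
  have hsc : ∀ r, C.LeT (μ + 1) r w → C.scode μ r < μ ∧ C.dec (C.scode μ r) = stem μ r :=
    fun r hr => scode_spec hin (stem_bdd (le_valid hr.le) (RU_spec hr.le hμw))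
  obtain ⟨b, hb, hB⟩ := RH_bound (isSuccLimit_ord hreg.aleph0_le) hcof hcof
    fun j c ζ => ∃ r, C.LeT (μ + 1) r w ∧ C.scode μ r = c ∧
      Z (a j) ζ (gl μ r (C.cutA μ (max j c) w))
  refine ⟨w, hwp, b, hb, fun i hi => hZ.reg i b w hwp fun r' hr' => ?_⟩
  obtain ⟨r'', g1, g2⟩ := hZ.dense i hi r' (leT_trans hr' hwp)
  obtain ⟨j, hj, rfl⟩ := ha i hi
  have g3 := leT_trans g1 hr'
  have hd := RH_dirA g3 (spec_mem hsw.v hμw) hnw
  obtain ⟨ζ, g4, g5⟩ := H j hj r'' g3 hd g2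
  obtain ⟨ζ', g6, r₂, g7, g8, g9⟩ := hB j hj _ (hsc r'' g3).1 ⟨ζ, g4, r'', g3, rfl, g5⟩
  have hm : max j (C.scode μ r'') < μ := max_lt hj (hsc r'' g3).1
  rw [gl_congr_stem (le_valid g7.le) (le_valid g3.le)
    (by rw [← (hsc r₂ g7).2, ← (hsc r'' g3).2, g8]) (spec_cutA C.toDat hμw)] at g9
  have k1 := RU_gl_leT hs' hμ' hμe (leT_trans g3 hwp).le
    (ds_trans (cutA_ds hsw hμw hμe hm) hw)
  have k2 := (ds_leS (leT_scope hs' k1) (cut_gl_ds g3 hd hμw hμe hm)).1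
  have hs'' := leT_scope hsw g3
  have k3 := (ds_leS hs'' (cutA_ds hs'' (RU_spec g3.le hμw) hμe hm)).1
  exact ⟨_, leT_trans k3 g1, hZ.mono _ _ _ _ _ k1 g9 k2 g6⟩

theorem bnd_cc (hp : C.Scope t p) (hc : Icc 0 (C.s + 1) ⊆ p.c) (ht : C.s + 1 ≤ t)
    {k : Cardinal.{1}} (hk : k.IsRegular) (h₁ : 2 ^ C.B C.s < k) (h₂ : k ≤ C.B (C.s + 1))
    (hν : ν < k.ord) : C.BndR t p ν k.ord := by
  have he : C.s + 1 ∈ p.c := hc ⟨zero_le, le_rfl⟩
  have hl := isSuccLimit_ord hk.aleph0_le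
  refine bnd_of_low hp (RH_good_succ hp.v he) ht ((lt_ord.1 hν).le.trans h₂)
    ((card_ord _).le.trans h₂) fun u hu p' hp' Z hZ => ?_
  have hle : C.Le p' p := le_trans' hp'.le hu.le
  have hs' : C.Scope (C.s + 1) p' := scope_of_mem (le_valid hle) (le_c hle he)
  have key : ∀ i, ∃ b < k.ord, i < ν → Z i b p' := by
    intro i
    by_cases hi : i < ν
    · obtain ⟨S, h1, h2, h3⟩ := cc_s hs'.v (hc.trans (le_c hle))
        (fun r => ∃ ζ < k.ord, Z i ζ r) (hZ.dense i hi)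
      choose z hz hP using fun a => RH_choose (fun ζ => Z i ζ a) hl.pos
      obtain ⟨b, hb, hB⟩ := bound_set_of_lt_cof (S := z '' S) (by
        rintro _ ⟨a, -, rfl⟩
        exact hz a) hl (by
        rw [hk.cof_ord]
        exact (Cardinal.mk_image_le.trans h1).trans_lt (Cardinal.lift_lt.2 h₁))
      refine ⟨b, hb, fun _ => hZ.reg i b p' (leT_refl hs') fun r hr => ?_⟩
      obtain ⟨a, ha, r', g1, g2⟩ := h3 r hr
      exact ⟨r', g1, hZ.mono _ _ _ _ _ (h2 a ha).1 (hP a (h2 a ha).2) g2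
        (le_of_lt (hB ⟨a, ha, rfl⟩))⟩
    · exact ⟨0, hl.pos, fun h => absurd h hi⟩
  choose z hz hP using key
  obtain ⟨b, hb, hB⟩ := bound_of_lt_cof (ν := ν) hl (by rw [hk.cof_ord]; exact lt_ord.1 hν) z
    fun i _ => hz i
  exact ⟨p', leT_refl hs', b, hb, fun i hi =>
    hZ.mono _ _ _ _ _ (leT_refl hs') (hP i hi) (leT_refl hs') (hB i hi).le⟩

end Ctx

end Pool.Agent.MP_85ce7b_lc

end

section

namespace Pool.Agent.MP_85ce7b_lc

open Set Cardinal Ordinal Dat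

/-- `[a, e]` consists of points, with no special point in `(a, e]`. -/
def Intv (p : Raw) (a e : Od) : Prop := Icc a e ⊆ p.c ∧ NoSp p a e

theorem rf_fresh {T : Set Od} {c : Cardinal.{1}} (h : Cardinal.mk T ≤ lift.{2} c) :
    ∃ i < (Order.succ c).ord, i ∉ T := by
  by_contra hn
  push Not at hn
  have h1 : Cardinal.mk (Iio (Order.succ c).ord) ≤ Cardinal.mk T :=
    Cardinal.mk_le_mk_of_subset fun i hi => hn i hi
  rw [Cardinal.mk_Iio_ordinal, card_ord] at h1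
  exact absurd (Cardinal.lift_le.1 (h1.trans h)) (not_le.2 (Order.lt_succ c))

theorem rf_pre {T : Set Od} {c : Cardinal.{2}} (h : Cardinal.mk T ≤ c) (o : Od) :
    Cardinal.mk {i : Od | o + i ∈ T} ≤ c :=
  (Cardinal.mk_preimage_of_injective (fun i => o + i) T (add_right_injective o)).trans h

theorem rf_succ_cof {c : Cardinal.{1}} (h : ℵ₀ ≤ c) : c < (Order.succ c).ord.cof := by
  rw [(isRegular_succ h).cof_ord]
  exact Order.lt_succ c

namespace Ctx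

variable {C : Ctx} {p q r r' : Raw} {t a e x y v μ ν δ : Od}

theorem rf_dom (hr : C.Valid r) (x : Od) :
    Cardinal.mk (Prod.fst '' r.h x) ≤ lift.{2} (C.B x) :=
  Cardinal.mk_image_le.trans (hr.col x).card

theorem rf_ord_mono (h : x ≤ y) : (C.B x).ord ≤ (C.B y).ord := ord_le_ord.2 (C.bf.mono h)

theorem rf_add {i : Od} (hr : C.Scope t r) (hx : x ∈ r.c) (ht : x < t) (hi : i < C.dm x)
    (hf : i ∉ Prod.fst '' r.h x) (h₁ : v < (C.B t).ord)
    (h₂ : ∀ y ∈ r.c, x < y → v < (C.B y).ord)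
    (h₃ : x = C.s → v < ((2 : Cardinal.{1}) ^ C.B C.s).ord) :
    C.LeT t (setH x (insert (i, v) (r.h x)) r) r := by
  have hc := hr.v.col x
  refine (ds_leS hr (setH_ds hr hx ht ⟨?_, ?_, ?_⟩ (subset_insert _ _) ?_)).1
  · rintro j w w' (hw | hw) (hw' | hw')
    · exact (Prod.ext_iff.1 hw).2.trans (Prod.ext_iff.1 hw').2.symm
    · exact absurd ⟨(j, w'), hw', (Prod.ext_iff.1 hw).1⟩ hf
    · exact absurd ⟨(j, w), hw, (Prod.ext_iff.1 hw').1⟩ hf
    · exact hc.fn j w w' hw hw'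
  · rintro j w (hw | hw)
    · exact (Prod.ext_iff.1 hw).1.trans_lt hi
    · exact hc.dom j w hw
  · have h0 : ℵ₀ ≤ lift.{2} (C.B x) := Cardinal.aleph0_le_lift.2 (C.bf.aleph0_le x)
    exact Cardinal.mk_insert_le.trans
      (Cardinal.add_le_of_le h0 hc.card (Cardinal.one_le_aleph0.trans h0))
  · rintro j w (hw | hw)
    · obtain rfl : w = v := (Prod.ext_iff.1 hw).2
      exact ⟨h₁, h₂, h₃⟩
    · refine ⟨hr.bel x ht j w hw, fun y hy hxy => hr.v.bel y hy x hxy j w hw, fun hs => ?_⟩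
      subst hs
      exact hr.v.vs j w hw

theorem rf_add_s {i : Od} (hr : C.Scope t r) (hx : C.s ∈ r.c) (ht : C.s + 1 ≤ t)
    (hi : i < C.dm C.s) (hf : i ∉ Prod.fst '' r.h C.s)
    (hv : v < ((2 : Cardinal.{1}) ^ C.B C.s).ord) :
    C.LeT t (setH C.s (insert (i, v) (r.h C.s)) r) r := by
  have h1 : v < (C.B (C.s + 1)).ord := hv.trans_le (ord_le_ord.2 (C.bf.two_pow_le _))
  exact rf_add hr hx ((lt_add_one _).trans_le ht) hi hf (h1.trans_le (rf_ord_mono ht))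
    (fun y _ hy => h1.trans_le (rf_ord_mono (Order.add_one_le_of_lt hy))) fun _ => hv

theorem rf_good (hp : C.Valid p) (hx : x + 1 ∈ p.c) : Good p (x + 1) :=
  ⟨hx, l_none_of_not_inac hp (rb5x_succ_not_inac x), x, rfl⟩

theorem rf_itv {e : Od} (hp : C.Scope t p) (ht : t ∉ p.c) (hae : a ≤ e) (he : e < t)
    (hc : p.c ⊆ Iio a) (hb : C.Below a p)
    (hz : ∀ z, a < z → z ≤ e → Inac z → C.s < z → ¬ SI C.al z) :
    C.LeT t (cat p (itv a e)) p ∧ Intv (cat p (itv a e)) a e := by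
  obtain ⟨β, hβ⟩ := hp.v.ne
  refine ⟨(ds_leS hp (add_itv hp ht hae he hc hb hz β hβ).1).1, fun z hz => Or.inr hz,
    fun z h1 h2 => ?_⟩
  rw [rb5x_cat_l_mem (show z ∈ (itv a e).c from ⟨h1.le, h2⟩)]
  rfl

theorem rf_gap {τ : Od} (hp : C.Scope t p) (hi : Intv p a (x + 1)) (ha : a < x) (ht : x + 1 ≤ t)
    (hx : Order.IsSuccLimit x) (hν : ν < (C.B x).ord) (hτ : τ.card ≤ C.B (x + 1))
    (hl : Order.IsSuccLimit τ) (hc : ∀ y < x, C.B y < τ.cof) : C.BndR t p ν τ := by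
  obtain ⟨y, hy, hνy⟩ := C.bf.lt_limit hx hν
  have h1 : Max.max a y + 1 < x := hx.add_one_lt (max_lt ha hy)
  have h2 : a < Max.max a y + 1 := (le_max_left a y).trans_lt (lt_add_one _)
  have h3 : Max.max a y + 1 ≤ x + 1 := (h1.trans (lt_add_one x)).le
  refine bnd_gap hp (Or.inl (rf_good hp.v (hi.1 ⟨h2.le, h3⟩)))
    (rf_good hp.v (hi.1 ⟨(ha.trans (lt_add_one x)).le, le_rfl⟩)) h3 ht
    (fun z h4 h5 => hi.2 z (h2.trans h4) h5) ?_ hτ hl (hc _ h1)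
  exact (Cardinal.lt_ord.1 hνy).le.trans
    (C.bf.mono ((le_max_right a y).trans (lt_add_one _).le))

theorem le_intv (h : C.Le q p) (hae : a ≤ e) (hi : Intv p a e) : Intv q a e := by
  exact ⟨hi.1.trans (le_c h), (le_noSp h (hi.1 ⟨le_rfl, hae⟩) (hi.1 ⟨hae, le_rfl⟩) hi.2).1⟩

theorem intv_adj (hp : C.Valid p) (hx : x ∈ p.c) (hx' : x + 1 ∈ p.c) : Adj p x (x + 1) := by
  exact ⟨hx, hx', lt_add_one x, fun z _ hz => Order.add_one_le_of_lt hz, (rf_good hp hx').2.1⟩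

theorem col_dense (hr : C.Scope t r) (h : Adj r x y) (hx : x ≠ C.s) (ht : y ≤ t)
    (hv : v < (C.B y).ord) : ∃ r', C.LeT t r' r ∧ ∃ i, (i, v) ∈ r'.h x := by
  obtain ⟨i, hi, hf⟩ := rf_fresh (rf_dom hr.v x)
  refine ⟨_, rf_add hr h.1 (h.2.2.1.trans_le ht) (hi.trans_le (C.succ_le_dm x)) hf
    (hv.trans_le (rf_ord_mono ht)) (fun z hz hxz => hv.trans_le (rf_ord_mono (h.2.2.2.1 z hz hxz)))
    (fun hs => absurd hs hx), i, ?_⟩
  rw [r5a_setH_self]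
  exact mem_insert _ _

theorem col_s_dense (hr : C.Scope t r) (hc : Icc 0 (C.s + 1) ⊆ r.c) (ht : C.s + 1 ≤ t)
    (hv : v < ((2 : Cardinal.{1}) ^ C.B C.s).ord) :
    ∃ r', C.LeT t r' r ∧ ∃ i < (Order.succ (C.B C.s)).ord, (i, v) ∈ r'.h C.s := by
  obtain ⟨i, hi, hf⟩ := rf_fresh (rf_dom hr.v C.s)
  refine ⟨_, rf_add_s hr (hc ⟨zero_le, (lt_add_one _).le⟩) ht (hi.trans_le (C.succ_le_dm _)) hf hv,
    i, hi, ?_⟩
  rw [r5a_setH_self]
  exact mem_insert _ _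

theorem fail_dense (hr : C.Scope t r) (hc : Icc 0 (C.s + 1) ⊆ r.c) (ht : C.s + 1 ≤ t) {j j' : Od}
    (hj : j < (C.B (C.s + 1)).ord) (hj' : j' < (C.B (C.s + 1)).ord) (hne : j ≠ j') :
    ∃ r', C.LeT t r' r ∧ ∃ i < (Order.succ (C.B C.s)).ord,
      ((Order.succ (C.B C.s)).ord * j + i, 0) ∈ r'.h C.s ∧
      ((Order.succ (C.B C.s)).ord * j' + i, 1) ∈ r'.h C.s := by
  have h0 : ℵ₀ ≤ lift.{2} (C.B C.s) := Cardinal.aleph0_le_lift.2 (C.bf.aleph0_le _)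
  obtain ⟨i, hi, hf⟩ := rf_fresh ((Cardinal.mk_union_le _ _).trans (Cardinal.add_le_of_le h0
    (rf_pre (rf_dom hr.v C.s) ((Order.succ (C.B C.s)).ord * j))
    (rf_pre (rf_dom hr.v C.s) ((Order.succ (C.B C.s)).ord * j'))))
  have hs : C.s ∈ r.c := hc ⟨zero_le, (lt_add_one _).le⟩
  have hn : Order.succ (C.B C.s) < C.B (C.s + 1) := by
    rw [C.bf.succ_s]
    exact (Order.succ_le_of_lt (Cardinal.cantor _)).trans_lt
      ((Order.lt_succ _).trans_le ((Order.le_succ _).trans (Order.le_succ _)))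
  have hd : ∀ k < (C.B (C.s + 1)).ord, (Order.succ (C.B C.s)).ord * k + i < C.dm C.s := by
    intro k hk
    have : C.dm C.s = (C.B (C.s + 1)).ord := if_pos rfl
    rw [this, Cardinal.lt_ord, card_add, card_mul, card_ord]
    exact Cardinal.add_lt_of_lt (C.bf.aleph0_le _)
      (Cardinal.mul_lt_of_lt (C.bf.aleph0_le _) hn (Cardinal.lt_ord.1 hk))
      ((Cardinal.lt_ord.1 hi).trans hn)
  have hv : (1 : Od) < ((2 : Cardinal.{1}) ^ C.B C.s).ord := by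
    rw [Cardinal.lt_ord, card_one]
    exact Cardinal.one_lt_aleph0.trans_le ((C.bf.aleph0_le _).trans (Cardinal.cantor _).le)
  have hne' : (Order.succ (C.B C.s)).ord * j + i ≠ (Order.succ (C.B C.s)).ord * j' + i := by
    intro he
    have h1 := congrArg (· / (Order.succ (C.B C.s)).ord) he
    simp only [Ordinal.mul_add_div _ hi.ne_zero, Ordinal.div_eq_zero_of_lt hi, add_zero] at h1
    exact hne h1
  have g1 := rf_add_s hr hs ht (hd j hj) (fun h => hf (Or.inl h)) (zero_lt_one.trans hv)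
  have g2 := rf_add_s (leT_scope hr g1) hs ht (hd j' hj') (by
    rw [r5a_setH_self]
    rintro ⟨z, hz | hz, h⟩
    · rw [hz] at h
      exact hne' h
    · exact hf (Or.inr ⟨z, hz, h⟩)) hv
  refine ⟨_, leT_trans g2 g1, i, hi, ?_, ?_⟩
  · rw [r5a_setH_self, r5a_setH_self]
    exact Or.inr (mem_insert _ _)
  · rw [r5a_setH_self]
    exact mem_insert _ _

theorem s_dense (hr : C.Scope t r) (hμ : Spec r μ) (ht : μ ≤ t) (ha : a < μ) :
    ∃ r', C.LeT t r' r ∧ ∃ L, r'.l μ = some L ∧ ∃ z ∈ L.s, a < z := by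
  obtain ⟨L, hL⟩ := hμ
  obtain ⟨ξ, hξ, -, hlt, hb⟩ := exists_ins hr.v hL ha (Z := univ) Filter.univ_mem
  refine ⟨_, leT_of_ins hr ⟨L, ξ, hL, hξ, hb, rfl⟩ ht, _,
    rb1_l_mu (r5a_pos hr.v ⟨L, hL⟩ hb).2.2.2.2.1 hL, _, mem_insert _ _, hlt⟩

theorem s_rank (h : C.Le r' r) {L L' : Lo} (hL : r.l μ = some L) (hL' : r'.l μ = some L')
    {z : Od} (hz : z ∈ L.s) : z ∈ L'.s ∧ z < μ ∧ L'.s ∩ Iio z = L.s ∩ Iio z := by
  obtain ⟨M, hM, -, -, h1, h2⟩ := le_l1 h hL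
  obtain rfl : M = L' := Option.some.inj (hM.symm.trans hL')
  obtain ⟨y, hy, hzy, hyμ⟩ := (h.1.sp μ L hL).s z hz
  refine ⟨h1 hz, hzy.trans_lt hyμ, subset_antisymm (fun w hw => ⟨?_, hw.2⟩)
    fun w hw => ⟨h1 hw.1, hw.2⟩⟩
  by_contra hn
  exact absurd (h2 w hw.1 hn y hy hyμ) (not_lt.2 ((le_of_lt hw.2).trans hzy))

theorem key_dense (hp : C.Scope t p) (ht : t ∉ p.c) (hc : Icc 0 (C.s + 1) ⊆ p.c) (h₁ : ω < a)
    (h₂ : a < t) (h : ¬ Inac a ∨ (C.s < a ∧ SI C.al a)) :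
    ∃ q, C.LeT t q p ∧ ((∃ x y, Adj q x y ∧ x ≠ C.s ∧ (C.B x).ord < a ∧ a ≤ (C.B y).ord) ∨
      (C.s < a ∧ a ≤ (C.B (C.s + 1)).ord) ∨ Spec q a ∨ a.cof.ord < a) := by
  obtain ⟨d, u, had, hdt, hd, -, hu, -⟩ := top_ext hp ht h₂
  have hup : C.LeT t u p := (ds_leS hp (hu 0 (hc ⟨le_rfl, zero_le⟩)).1).1
  have hus := leT_scope hp hup
  have hcu : Icc 0 (C.s + 1) ⊆ u.c := hc.trans (le_c hup.le)
  set S : Set Od := {x | x ∈ u.c ∧ (C.B x).ord < a} with hS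
  have h0 : (0 : Od) ∈ S := ⟨hcu ⟨le_rfl, zero_le⟩, by rwa [C.bf.zero, ord_aleph0]⟩
  have hb : BddAbove S := ⟨a, fun x hx => ((C.bf.le_ord x).trans_lt hx.2).le⟩
  by_cases hx : sSup S ∈ S
  · have hxa : sSup S < a := (C.bf.le_ord _).trans_lt hx.2
    set T : Set Od := {z | z ∈ u.c ∧ sSup S < z} with hT
    have hdT : d ∈ T := ⟨hd.1, hxa.trans had⟩
    have hy : sInf T ∈ T := csInf_mem ⟨d, hdT⟩
    have hmin : ∀ z ∈ u.c, sSup S < z → sInf T ≤ z := fun z h1 h2 => csInf_le' (s := T) ⟨h1, h2⟩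
    have hay : a ≤ (C.B (sInf T)).ord := by
      by_contra hn
      exact absurd (le_csSup hb ⟨hy.1, not_le.1 hn⟩) (not_le.2 hy.2)
    by_cases hs : sSup S = C.s
    · refine ⟨u, hup, Or.inr (Or.inl ⟨hs ▸ hxa, hay.trans (rf_ord_mono ?_)⟩)⟩
      exact hmin _ (hcu ⟨zero_le, le_rfl⟩) (hs ▸ lt_add_one _)
    cases hl : u.l (sInf T) with
    | none => exact ⟨u, hup, Or.inl ⟨_, _, ⟨hx.1, hy.1, hy.2, hmin, hl⟩, hs, hx.2, hay⟩⟩
    | some L =>
      have hsp : Spec u (sInf T) := ⟨L, hl⟩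
      rw [C.bf.inac_eq (spec_inac hus.v hsp).1] at hay
      rcases hay.eq_or_lt with he | hlt
      · exact ⟨u, hup, Or.inr (Or.inr (Or.inl (he ▸ hsp)))⟩
      obtain ⟨ξ, hξ, -, hlt, hb⟩ := exists_ins hus.v hl hlt (Z := univ) Filter.univ_mem
      obtain ⟨-, g2, -, g4, -, -, g7⟩ := r5a_pos hus.v hsp hb
      refine ⟨_, leT_trans (leT_of_ins hus ⟨L, ξ, hl, hξ, hb, rfl⟩
        ((hmin d hd.1 hdT.2).trans hdt.le)) hup, Or.inl ⟨sSup S, fp (C.dec ξ),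
        ⟨rb2_ins_c.2 (Or.inl hx.1), rb2_ins_c.2 (Or.inr g4), hxa.trans hlt, fun z hz hxz => ?_, ?_⟩,
        hs, hx.2, hlt.le.trans (C.bf.le_ord _)⟩⟩
      · rcases rb2_ins_c.1 hz with hz | hz
        · exact g7.le.trans (hmin z hz hxz)
        · exact (g2 z hz).1
      · rw [(r5a_in hus.v hsp hb le_rfl g7).2.2]
        exact (fp_mem hb.blk.v).2.2
  · have hz : ∀ y < sSup S, ∃ z ∈ S, y < z ∧ z < sSup S := fun y hy => by
      obtain ⟨z, hz, hyz⟩ := exists_lt_of_lt_csSup ⟨0, h0⟩ hy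
      exact ⟨z, hz, hyz, (le_csSup hb hz).lt_of_ne fun he => hx (he ▸ hz)⟩
    have hpos : 0 < sSup S := (le_csSup hb h0).lt_of_ne fun he => hx (he ▸ h0)
    have hlim : LimP u.c (sSup S) := ⟨hpos, fun y hy => by
      obtain ⟨z, h1, h2⟩ := hz y hy
      exact ⟨z, h1.1, h2⟩⟩
    have hsl : Order.IsSuccLimit (sSup S) := by
      refine Ordinal.isSuccLimit_iff.2 ⟨hpos.ne', Order.isSuccPrelimit_of_succ_lt fun y hy => ?_⟩
      obtain ⟨z, -, h1, h2⟩ := hz y hy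
      exact (Order.succ_le_of_lt h1).trans_lt h2
    have he : (C.B (sSup S)).ord = a := by
      refine le_antisymm (not_lt.1 fun hn => ?_) (not_lt.1 fun hn => hx ⟨hus.v.cl _ hlim, hn⟩)
      obtain ⟨y, hy, hay⟩ := C.bf.lt_limit hsl hn
      obtain ⟨z, h1, h2, -⟩ := hz y hy
      exact absurd (hay.trans_le (rf_ord_mono h2.le)) (not_lt.2 h1.2.le)
    by_cases hi : Inac (sSup S)
    · rw [C.bf.inac_eq hi] at he
      rw [he] at hi hlim
      rcases h with h | h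
      · exact absurd hi h
      · exact absurd h.2 ((hus.v.eas a hlim hi).2 h.1)
    · refine ⟨u, hup, Or.inr (Or.inr (Or.inr ?_))⟩
      have := ord_lt_ord.2 (C.bf.singular hsl hi)
      rwa [he] at this

theorem top_zero (hp : C.Scope t p) (ht : t ∉ p.c) (ha : a < t) :
    ∃ q x, C.LeT t q p ∧ a < x ∧ x + 1 < t ∧ Good q x ∧ x + 1 ∈ q.c := by
  obtain ⟨y, hay, hyt, hc, hb⟩ := exists_room hp ht ha
  have hl := (rb5x_top hp ht).1.isSuccLimit
  have h1 : y + 1 + 1 < t := hl.add_one_lt (hl.add_one_lt hyt)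
  have h2 : y ≤ y + 1 := (lt_add_one y).le
  have h3 : y + 1 ≤ y + 1 + 1 := (lt_add_one _).le
  obtain ⟨g1, g2⟩ := rf_itv hp ht (h2.trans h3) h1 hc hb fun z k1 k2 k3 => by
    rcases le_or_gt z (y + 1) with k | k
    · exact absurd k3 (rb5x_between k1 k)
    · exact absurd k3 (rb5x_between k k2)
  exact ⟨_, y + 1, g1, hay.trans (lt_add_one y), h1,
    rf_good (le_valid g1.le) (g2.1 ⟨h2, h3⟩), g2.1 ⟨h2.trans h3, le_rfl⟩⟩

theorem top_pos (hp : C.Scope C.kap p) (ht : C.kap ∉ p.c) {b : Od} (hb : b < C.kap) (h0 : 0 < δ)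
    (hδ : δ < C.al) :
    ∃ q a x, C.LeT C.kap q p ∧ b < x ∧ a < x ∧ SI δ x ∧ x + 1 < C.kap ∧ Intv q a (x + 1) := by
  obtain ⟨y, hby, hyt, hc, hb⟩ := exists_room hp ht hb
  obtain ⟨z, hyz, hzk, hz⟩ := (SI_iff.1 (C.ksi (δ + 1)
    ((Order.add_one_le_of_lt hδ).trans_lt C.al_lt))).2 δ (lt_add_one δ) h0 y hyt
  set T : Set Od := {z | y < z ∧ SI δ z} with hT
  have hx : sInf T ∈ T := csInf_mem ⟨z, hyz, hz⟩
  have hmin : ∀ w, y < w → SI δ w → sInf T ≤ w := fun w h1 h2 => csInf_le' (s := T) ⟨h1, h2⟩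
  have h1 : sInf T + 1 < C.kap := C.kin.isSuccLimit.add_one_lt ((hmin z hyz hz).trans_lt hzk)
  obtain ⟨g1, g2⟩ := rf_itv hp ht (hx.1.trans (lt_add_one _)).le h1 hc hb
    fun w k1 k2 k3 _ k4 => by
      rcases le_or_gt w (sInf T) with k | k
      · obtain ⟨v, m1, m2, m3⟩ := (SI_iff.1 k4).2 δ hδ h0 y k1
        exact absurd (hmin v m1 m3) (not_le.2 (m2.trans_le k))
      · exact rb5x_between k k2 k3
  exact ⟨_, y, sInf T, g1, hby.trans hx.1, hx.1, hx.2, h1, g2⟩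

theorem bnd_succ (hp : C.Scope t p) (hx : Good0 p x) (hx' : x + 1 ∈ p.c) (ht : x + 1 ≤ t)
    (hν : ν < (Order.succ (C.B x)).ord) : C.BndR t p ν (Order.succ (C.B x)).ord := by
  refine bnd_gap hp hx (rf_good hp.v hx') (lt_add_one x).le ht
    (fun z h1 h2 => l_none_of_not_inac hp.v (rb5x_between h1 h2))
    (Order.lt_succ_iff.1 (Cardinal.lt_ord.1 hν)) ?_
    (Cardinal.isSuccLimit_ord ((C.bf.aleph0_le x).trans (Order.le_succ _)))
    (rf_succ_cof (C.bf.aleph0_le x))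
  rw [card_ord]
  exact C.bf.succ_le (lt_add_one x)

theorem bnd_lim (hp : C.Scope t p) (hi : Intv p a (x + 1)) (ha : a < x) (ht : x + 1 ≤ t)
    (hx : Order.IsSuccLimit x) (hν : ν < (C.B x).ord) :
    C.BndR t p ν (Order.succ (C.B x)).ord := by
  refine rf_gap hp hi ha ht hx hν ?_
    (Cardinal.isSuccLimit_ord ((C.bf.aleph0_le x).trans (Order.le_succ _)))
    fun y hy => (C.bf.lt hy).trans (rf_succ_cof (C.bf.aleph0_le x))
  rw [card_ord]
  exact C.bf.succ_le (lt_add_one x)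

theorem bnd_inac (hp : C.Scope t p) (hi : Intv p a (x + 1)) (ha : a < x) (ht : x + 1 ≤ t)
    (hx : Inac x) (hν : ν < x) : C.BndR t p ν x := by
  refine rf_gap hp hi ha ht hx.isSuccLimit (by rwa [C.bf.inac_eq hx])
    ((C.bf.card_le x).trans (C.bf.mono (lt_add_one x).le)) hx.isSuccLimit fun y hy => ?_
  rw [hx.cof_eq, ← ord_lt_ord, hx.ord_card]
  exact C.bf.lt_inac hx hy

end Ctx

end Pool.Agent.MP_85ce7b_lc

end

section

namespace Pool.Agent.MP_85ce7b_lc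

open Set Cardinal Ordinal Dat

namespace Ctx

variable {C : Ctx} {p q r : Raw} {t δ δ' e μ ν τ : Od} {D : Raw → Prop}

/-- Some point of `q` is a level below which `D` is dense. -/
def Pd (C : Ctx) (μ : Od) (D : Raw → Prop) (q : Raw) : Prop :=
  μ ∉ q.c ∧ ∃ δ ∈ q.c, C.RO δ D q

theorem rg_lt (hq : C.Scope μ q) (hn : μ ∉ q.c) (hδ : δ ∈ q.c) : δ < μ := by
  rcases hq.cut with h | h
  · exact absurd h hn
  · exact h.2.2 hδ

theorem rg_nmem (h : C.LeT μ p q) (hn : μ ∉ q.c) : μ ∉ p.c :=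
  fun h' => hn (((h.ag.1 μ le_rfl).1).1 h')

/-- Transfer of an extension of the lower part. -/
theorem rg_mix {q' w : Raw} (hq : C.Scope μ q) (hδ : δ ∈ q.c) (hδμ : δ ≤ μ) (h : C.LeT μ q' q)
    (hw : C.LeT δ w (mix δ q' q)) :
    C.Scope μ w ∧ C.LeT δ (mix δ w q') q' ∧ C.LeT μ (mix δ w q') w := by
  have h0 : C.LeT δ (mix δ q' q) q := low_leT h.le hδ
  have h1 : C.LeT δ w q := leT_trans hw h0
  have hδ' : δ ∈ q'.c := le_c h.le hδ
  refine ⟨leT_scope hq (leT_mono h1 (scope_of_mem hq.v hδ) hq hδμ), ?_, ?_⟩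
  · have := mix_le_left hw.le (le_c h0.le hδ) (le_valid h.le) hδ'
    rwa [mix_mix_left, mix_self] at this
  · have := mix_leT_right h hδ hδμ (le_valid h1.le) (le_c h1.le hδ)
    rwa [mix_eq_left h1.ag] at this

theorem pd_open (hD : C.OpenT μ D) : C.OpenT μ (C.Pd μ D) := by
  rintro q q1 hq ⟨hn, δ, hδ, hd⟩ h1
  have hlt : δ < μ := rg_lt hq hn hδ
  have hδ1 : δ ∈ q1.c := le_c h1.le hδ
  have hq1 : C.Scope μ q1 := leT_scope hq h1
  refine ⟨rg_nmem h1 hn, δ, hδ1, fun q' hq' => ?_⟩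
  have h2 : C.LeT μ q' q :=
    leT_trans (leT_mono hq' (scope_of_mem hq1.v hδ1) hq1 hlt.le) h1
  obtain ⟨w, hw, hDw⟩ := hd _ (low_leT h2.le hδ)
  obtain ⟨hs, h3, h4⟩ := rg_mix hq hδ hlt.le h2 hw
  exact ⟨_, h3, hD _ _ hs hDw h4⟩

theorem pd_lc (hD : C.OpenT μ D) : C.LC μ (· ≤ μ) (C.Pd μ D) := by
  intro δ r hδμ hr hδ H
  have hn : μ ∉ r.c := by
    obtain ⟨r'', h1, h2, -⟩ := H r (leT_refl (scope_of_mem hr.v hδ))
    exact fun h => h2 (le_c h1.le h)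
  obtain ⟨m, hm, hmax⟩ := valid_max hr.v
  have hmμ : m < μ := rg_lt hr hn hm
  have hδm : δ ≤ m := hmax _ hδ
  refine ⟨hn, m, hm, fun q' hq' => ?_⟩
  have h2 : C.LeT μ q' r := leT_mono hq' (scope_of_mem hr.v hm) hr hmμ.le
  obtain ⟨w, hw, hPw⟩ := H _ (low_leT h2.le hδ)
  obtain ⟨hs, h3, h4⟩ := rg_mix hr hδ hδμ h2 hw
  obtain ⟨-, e, he, hd⟩ := pd_open hD _ _ hs hPw h4
  have hv' : C.Valid q' := le_valid hq'.le
  have hm' : m ∈ q'.c := le_c hq'.le hm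
  have h5 : C.LeT m (mix δ w q') q' :=
    leT_mono h3 (scope_of_mem hv' (le_c hq'.le hδ)) (scope_of_mem hv' hm') hδm
  have hv : C.Valid (mix δ w q') := le_valid h5.le
  have hem : e ≤ m := by
    by_contra hc
    have hc' : m ≤ e := (not_le.1 hc).le
    exact hc (hmax _ ((((leT_trans h5 hq').ag.1 e hc').1).1 he))
  obtain ⟨z, hz, hDz⟩ := hd _ (leT_refl (scope_of_mem hv he))
  exact ⟨z, leT_trans
    (leT_mono hz (scope_of_mem hv he) (scope_of_mem hv (le_c h5.le hm')) hem) h5, hDz⟩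

theorem rg_pd_of (hD : C.OpenT μ D) (hr : C.Scope μ r) (hn : μ ∉ r.c) (h : D r) :
    C.Pd μ D r := by
  obtain ⟨δ, hδ⟩ := hr.v.ne
  refine ⟨hn, δ, hδ, fun r' h' => ⟨r', ?_, ?_⟩⟩
  · exact leT_refl (scope_of_mem (le_valid h'.le) (le_c h'.le hδ))
  · exact hD _ _ hr h (leT_mono h' (scope_of_mem hr.v hδ) hr (rg_lt hr hn hδ).le)

theorem rg_dt_leT {β : Od} (hp : C.Scope t p) (h : C.DT β t q p) : C.LeT t q p :=
  (ds_leS hp h.1).1

theorem pd_blocks (hμ : μ ∈ C.Sp) (hq : C.Scope μ q) (hn : μ ∉ q.c) (hD : C.OpenT μ D)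
    (hd : C.RO μ D q) :
    {ξ | C.Insb q μ (C.dec ξ) → C.Pd μ D (cat q (C.dec ξ))} ∈ C.W μ := by
  have hG := C.good μ hμ
  refine hG.w2 (fun b => C.Insb q μ b → C.Pd μ D (cat q b)) (fun b hb => ?_)
    (fun b b' hb hdt hZ hi => ?_)
  · by_cases hi : C.Insb q μ b
    · obtain ⟨h1, hg, hlt⟩ := cat_blk hq hn hi
      have hs : C.Scope μ (cat q b) := leT_scope hq h1
      have hν : (1 : Od).card ≤ C.B (fp b + 1) := by
        rw [Ordinal.card_one]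
        exact Cardinal.one_le_aleph0.trans (C.bf.aleph0_le _)
      obtain ⟨u, hu, H⟩ := pf_T (pp_all C μ) hs (Or.inl hg) hlt.le hν (fun _ => C.Pd μ D)
        (fun _ => pd_open hD) (fun _ => pd_lc hD)
      have hu' : C.LeT μ u (cat q b) := rg_dt_leT hs hu
      have hsu : C.Scope μ u := leT_scope hs hu'
      have hmem : fp b + 1 ∈ u.c := le_c hu'.le hg.1
      have hP : C.Pd μ D u := by
        refine pd_lc hD _ u hlt.le hsu hmem fun l hl => ?_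
        refine (H 0 zero_lt_one l hl).resolve_right fun hno => ?_
        have hl' : C.LeT μ l q :=
          leT_trans (leT_mono hl (scope_of_mem hsu.v hmem) hsu hlt.le) (leT_trans hu' h1)
        obtain ⟨z, hz, hDz⟩ := hd l hl'
        have hz' := leT_trans hz hl'
        exact hno z hz (rg_pd_of hD (leT_scope hq hz') (rg_nmem hz' hn) hDz)
      obtain ⟨b', hb', rfl⟩ := cat_up hq hn hi hu
      exact ⟨b', hb', fun _ => hP⟩
    · exact ⟨b, dt_refl (blk_scope hb hG.inac).1, fun h => absurd h hi⟩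
  · have hfp : fp b' = fp b := (blk_dt hb hG.inac hdt).2
    have hib : C.Insb q μ b := ⟨hb, hfp ▸ hi.lt, hfp ▸ hi.bel⟩
    have hs : C.Scope μ (cat q b) := leT_scope hq (cat_blk hq hn hib).1
    exact pd_open hD _ _ hs (hZ hib) (rg_dt_leT hs (cat_dt hq hn hib hdt).2)

/-- Below a special point `μ` the forcing induces a generic filter for the forcing below `μ`. -/
theorem gen (hr : C.Valid r) (hμ : Spec r μ) (hD : C.OpenT μ D) (hd : C.RO μ D (res μ r)) :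
    ∃ r', C.LeT μ r' r ∧ D (res μ r') := by
  obtain ⟨hq, hn, -⟩ := res_scope hr hμ
  obtain ⟨hin, -, hsp⟩ := spec_inac hr hμ
  have hZ := pd_blocks hsp hq hn hD hd
  obtain ⟨L, hL⟩ := id hμ
  obtain ⟨ξ, hξ, hξZ, -, hi⟩ := exists_ins hr hL (a := 0) hin.isSuccLimit.pos hZ
  have hi' : C.Insb (res μ r) μ (C.dec ξ) := (insb_res hin).2 hi
  have hP := hξZ hi'
  have hsr : C.Scope μ r := scope_of_mem hr (spec_mem hr hμ)
  have h1 : C.LeT μ (ins r μ (C.dec ξ) (sec L.F ξ)) r :=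
    leT_of_ins hsr ⟨L, ξ, hL, hξ, hi, rfl⟩ le_rfl
  have hres := res_ins (f := sec L.F ξ) hr hμ hi
  obtain ⟨h2, hg, hlt⟩ := cat_blk hq hn hi'
  have hs : C.Scope μ (cat (res μ r) (C.dec ξ)) := leT_scope hq h2
  have h3 := leT_mono (cat_setH hq hn hi' ((hr.sp μ L hL).F ξ hξ))
    (scope_of_mem hs.v hg.1) hs hlt.le
  rw [← hres] at h3
  generalize ins r μ (C.dec ξ) (sec L.F ξ) = r1 at h1 h3
  obtain ⟨-, e, he, hde⟩ := pd_open hD _ _ hs hP h3
  have he1 : e ∈ r1.c := he.1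
  have heμ : e < μ := he.2
  have hv1 : C.Valid r1 := le_valid h1.le
  obtain ⟨z, hz, hDz⟩ := hde _ (leT_refl (scope_of_mem (le_valid h3.le) he))
  have hlo : AgLo e (res μ r1) r1 :=
    ⟨fun x hx => agS_res μ r1 x (hx.trans heμ), (agS_res μ r1 e heμ).2.2⟩
  have h4 := mix_le_left hz.le he hv1 he1
  rw [mix_eq_right hlo] at h4
  refine ⟨mix e z r1, leT_trans
    (leT_mono h4 (scope_of_mem hv1 he1) (leT_scope hsr h1) heμ.le) h1, ?_⟩
  rwa [res_mix _ _ heμ, mix_eq_left hz.ag]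

end Ctx

end Pool.Agent.MP_85ce7b_lc

end

section

namespace Pool.Agent.MP_85ce7b_lc

open Pool.Agent.MP_c6cf52_lc Name Set Cardinal Ordinal

namespace Gen

variable {P : Type 2} [Sz P] [Preorder P] [OrderTop P] [Tame P] {g : Gen P} {a b : Od}

/-- The ordinal `a` belongs to the model. -/
def In (g : Gen P) (a : Od) : Prop := a < (Sz.θ P).ord ∧ (oN a : Name P) ∈ g.N

/-- The element of the model given by an ordinal. -/
noncomputable def o (g : Gen P) (a : Od) : g.M := g.v (oN a)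

theorem rk_oN (h : a < (Sz.θ P).ord) : rk (oN a : Name P) = a := by
  induction a using WellFoundedLT.induction with
  | ind a ih =>
    have h1 : ∀ y : Iio a, rk (oN y.1 : Name P) = y.1 := fun y => ih y.1 y.2 (lt_trans y.2 h)
    rw [oN_eq h, rk_def]
    change (⨆ y : Iio a, Order.succ (rk (oN y.1 : Name P))) = a
    simp only [h1]
    refine le_antisymm (Ordinal.iSup_le fun y => Order.succ_le_of_lt y.2)
      (le_of_forall_lt fun c hc => ?_)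
    exact (Order.lt_succ c).trans_le
      (Ordinal.le_iSup (fun y : Iio a => Order.succ y.1) ⟨c, hc⟩)

theorem E_o (h : g.In a) {x : g.M} : g.E x (g.o a) ↔ ∃ b < a, g.In b ∧ g.o b = x := by
  have := Sm.iio (P := P) h.1
  have h2 := h.2
  unfold o
  rw [oN_eq h.1] at h2 ⊢
  rw [E_fam h2]
  exact ⟨fun ⟨y, h₁, h₂⟩ => ⟨y.1, y.2, ⟨lt_trans y.2 h.1, h₁⟩, h₂⟩,
    fun ⟨y, h₀, h₁, h₂⟩ => ⟨⟨y, h₀⟩, h₁.2, h₂⟩⟩

theorem NOrd_inj (ha : g.In a) (hb : g.In b) (h : g.o a = g.o b) : a = b := by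
  rcases lt_trichotomy a b with h' | h' | h'
  · exact absurd ((E_o hb).2 ⟨a, h', ha, h⟩) (E_irrefl (g.o b))
  · exact h'
  · exact absurd ((E_o ha).2 ⟨b, h', hb, h.symm⟩) (E_irrefl (g.o a))

theorem o_lt_iff (ha : g.In a) (hb : g.In b) : g.E (g.o a) (g.o b) ↔ a < b := by
  refine ⟨fun h => ?_, fun h => (E_o hb).2 ⟨a, h, ha, rfl⟩⟩
  obtain ⟨c, h₁, h₂, e⟩ := (E_o hb).1 h
  exact NOrd_inj h₂ ha e ▸ h₁

theorem o_inj (ha : g.In a) (hb : g.In b) (h : g.o a = g.o b) : a = b := by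
  exact NOrd_inj ha hb h

theorem o_leq_iff (ha : g.In a) (hb : g.In b) : Leq g.E (g.o a) (g.o b) ↔ a ≤ b := by
  rw [Leq, o_lt_iff ha hb, le_iff_lt_or_eq]
  exact or_congr_right ⟨o_inj ha hb, fun e => by rw [e]⟩

theorem isOrd_o (ha : g.In a) : IsOrd g.E (g.o a) := by
  constructor
  · intro x y hx hy
    obtain ⟨b, hb, hbN, rfl⟩ := (E_o ha).1 hx
    obtain ⟨c, hc, hcN, rfl⟩ := (E_o hbN).1 hy
    exact (E_o ha).2 ⟨c, hc.trans hb, hcN, rfl⟩
  · intro x y hx hy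
    obtain ⟨b, -, hbN, rfl⟩ := (E_o ha).1 hx
    obtain ⟨c, -, hcN, rfl⟩ := (E_o ha).1 hy
    rcases lt_trichotomy b c with h | rfl | h
    exacts [Or.inl ((o_lt_iff hbN hcN).2 h), Or.inr (Or.inl rfl),
      Or.inr (Or.inr ((o_lt_iff hcN hbN).2 h))]

theorem in_succ (ha : g.In a) : g.In (a + 1) := by
  have h := rk_succ_mem ha.2
  rw [rk_oN ha.1, Order.succ_eq_add_one] at h
  refine ⟨?_, h⟩
  rw [← Order.succ_eq_add_one]
  exact (Cardinal.isSuccLimit_ord (Sz.inacc (P := P)).aleph0_lt.le).succ_lt ha.1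

theorem in_omega (g : Gen P) : g.In ω := by
  refine ⟨?_, g.oN_omega_mem⟩
  rw [Cardinal.lt_ord, Ordinal.card_omega0]
  exact (Sz.inacc (P := P)).aleph0_lt

theorem NOrd_count (h : a < ω₁) : (Iio a).Countable := by
  rw [← Cardinal.le_aleph0_iff_set_countable, Cardinal.mk_Iio_ordinal, Cardinal.lift_le_aleph0]
  rw [← Cardinal.ord_aleph, Cardinal.lt_ord, ← Cardinal.succ_aleph0, Order.lt_succ_iff] at h
  exact h

theorem in_of_countable (ha : g.In a) (h : a < ω₁) (hb : b < a) : g.In b := by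
  have := Sm.iio (P := P) ha.1
  have h2 := ha.2
  rw [oN_eq ha.1] at h2
  have : Countable (Iio a) := (NOrd_count h).to_subtype
  exact ⟨hb.trans ha.1, fam_mem h2 ⟨b, hb⟩⟩

theorem in_nat (g : Gen P) (n : ℕ) : g.In n := by
  exact in_of_countable g.in_omega Ordinal.omega0_lt_omega_one (Ordinal.natCast_lt_omega0 n)

theorem o_nat (g : Gen P) (n : ℕ) : g.o n = g.nat n := by
  induction n using Nat.strong_induction_on with
  | _ n ih =>
    refine ext fun x => ?_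
    rw [E_o (g.in_nat n), E_nat]
    constructor
    · rintro ⟨b, hb, -, rfl⟩
      obtain ⟨m, rfl⟩ := Ordinal.lt_omega0.1 (hb.trans (Ordinal.natCast_lt_omega0 n))
      have hm : m < n := by exact_mod_cast hb
      exact ⟨m, hm, (ih m hm).symm⟩
    · rintro ⟨m, hm, rfl⟩
      exact ⟨m, by exact_mod_cast hm, g.in_nat m, ih m hm⟩

theorem o_omega (g : Gen P) : g.o ω = g.om := by
  refine ext fun x => ?_
  rw [E_o g.in_omega, E_om]
  constructor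
  · rintro ⟨b, hb, -, rfl⟩
    obtain ⟨m, rfl⟩ := Ordinal.lt_omega0.1 hb
    exact ⟨m, (g.o_nat m).symm⟩
  · rintro ⟨m, rfl⟩
    exact ⟨m, Ordinal.natCast_lt_omega0 m, g.in_nat m, g.o_nat m⟩

theorem rep_o (ha : g.In a) (h : a < ω₁) : Rep g.E (g.o a) a := by
  refine ⟨isOrd_o ha, fun i => g.o i.1, fun i j =>
    o_lt_iff (in_of_countable ha h i.2) (in_of_countable ha h j.2), fun x => (E_o ha).trans ?_⟩
  exact ⟨fun ⟨b, h₁, _, e⟩ => ⟨⟨b, h₁⟩, e⟩, fun ⟨i, e⟩ => ⟨i.1, i.2, in_of_countable ha h i.2, e⟩⟩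

theorem NOrd_in_rk {τ : Name P} (hτ : τ ∈ g.N) : g.In (rk τ) := ⟨rk_small τ, rk_mem hτ⟩

theorem NOrd_leq (τ : Name P) : τ ∈ g.N → IsOrd g.E (g.v τ) → Leq g.E (g.v τ) (g.o (rk τ)) := by
  induction τ using Name.ind with
  | h τ ih =>
    intro hτ h
    refine leq_of_sub h (isOrd_o (NOrd_in_rk hτ)) fun y hy => ?_
    obtain ⟨i, -, hi, rfl⟩ := (E_v hτ).1 hy
    exact leq_lt (isOrd_o (NOrd_in_rk hτ)) (ih i hi (isOrd_of_E h hy))
      ((o_lt_iff (NOrd_in_rk hi) (NOrd_in_rk hτ)).2 (rk_lt τ i))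

/-- Every ordinal of the model is given by a ground ordinal. -/
theorem ord_repr {x : g.M} (h : IsOrd g.E x) : ∃ a, g.In a ∧ g.o a = x := by
  obtain ⟨τ, hτ, rfl⟩ := exists_v x
  rcases NOrd_leq τ hτ h with h' | h'
  · obtain ⟨b, -, hb, e⟩ := (E_o (NOrd_in_rk hτ)).1 h'
    exact ⟨b, hb, e⟩
  · exact ⟨_, NOrd_in_rk hτ, h'.symm⟩

theorem inf_o (ha : g.In a) : Inf g.E (g.o a) ↔ ω ≤ a := by
  rw [inf_iff (isOrd_o ha), ← o_omega, o_leq_iff g.in_omega ha]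

/-- The density principle with ordinal parameters added to the model. -/
theorem dens_o {Ψ : ∀ (M : Type 3), (M → M → Prop) → (ℕ → M) → Prop} (h : UDef Ψ)
    {l : List (Name P)} (hl : ∀ x ∈ l, x ∈ g.N)
    (H : ∀ p ∈ g.G, ∃ q ≤ p, ∃ C : Set (Name P), ∃ S : Set Od, C.Countable ∧ S.Countable ∧
      S ⊆ Iio (Sz.θ P).ord ∧ ∀ g' : Gen P, q ∈ g'.G → C ⊆ g'.N → (∀ a ∈ S, g'.In a) →
        (∀ x ∈ l, x ∈ g'.N) → Ψ g'.M g'.E (g'.w l)) : Ψ g.M g.E (g.w l) := by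
  refine dens h hl fun p hp => ?_
  obtain ⟨q, hq, C, S, hC, hS, hS', H⟩ := H p hp
  exact ⟨q, hq, C ∪ oN '' S, hC.union (hS.image _), fun g' h₁ h₂ h₃ =>
    H g' h₁ (fun x hx => h₂ (Or.inl hx)) (fun a ha => ⟨hS' ha, h₂ (Or.inr ⟨a, ha, rfl⟩)⟩) h₃⟩

/-- A definable statement about named objects is decided. -/
theorem exists_gen_o (p : P) (C : Set (Name P)) (S : Set Od) (hC : C.Countable) (hS : S.Countable)
    (h : S ⊆ Iio (Sz.θ P).ord) : ∃ g : Gen P, p ∈ g.G ∧ C ⊆ g.N ∧ ∀ a ∈ S, g.In a := by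
  obtain ⟨g, h₁, h₂⟩ := exists_gen p (C ∪ oN '' S) (hC.union (hS.image _))
  exact ⟨g, h₁, fun x hx => h₂ (Or.inl hx), fun a ha => ⟨h ha, h₂ (Or.inr ⟨a, ha, rfl⟩)⟩⟩

end Gen

end Pool.Agent.MP_85ce7b_lc

end

section

namespace Pool.Agent.MP_85ce7b_lc

open Pool.Agent.MP_c6cf52_lc Name Set Cardinal Ordinal

section Abstract

variable {P : Type 2} [Preorder P]

/-- A family of bounding predicates below `p`. -/
structure ZF (p : P) (ν τ : Od) (Z : Od → Od → P → Prop) : Prop where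
  mono : ∀ i ζ ζ' r r', r ≤ p → Z i ζ r → r' ≤ r → ζ ≤ ζ' → Z i ζ' r'
  reg : ∀ i ζ r, r ≤ p → (∀ r' ≤ r, ∃ r'' ≤ r', Z i ζ r'') → Z i ζ r
  dense : ∀ i < ν, ∀ r ≤ p, ∃ r' ≤ r, ∃ ζ < τ, Z i ζ r'

/-- The bounding property. -/
def Bnd (p : P) (ν τ : Od) : Prop :=
  ∀ p' ≤ p, ∀ Z, ZF p' ν τ Z → ∃ q ≤ p', ∃ ζ < τ, ∀ i < ν, Z i ζ q

theorem Bnd.mono {p p' : P} {ν τ : Od} (h : Bnd p ν τ) (hp : p' ≤ p) : Bnd p' ν τ :=
  fun q hq => h q (hq.trans hp)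

theorem bnd_sing {p : P} {ν τ : Od} {k : Cardinal.{1}} (hk : ℵ₀ ≤ k) (hs : k.ord.cof < k)
    (h : ∀ ν' < k.ord, Bnd p ν' τ) (hν : ν.card ≤ k) : Bnd p ν τ := by
  intro p' hp' Z hZ
  have hl : Order.IsSuccLimit k.ord := isSuccLimit_ord hk
  obtain ⟨-, -, ζ₀, hζ₀, -⟩ := h 0 hl.bot_lt p' hp' (fun _ _ _ => True)
    ⟨fun _ _ _ _ _ _ _ _ _ => trivial, fun _ _ _ _ _ => trivial, fun i hi => by simp at hi⟩
  obtain ⟨e, he⟩ := exists_enum_of_le (S := Iio ν) (c := k) (by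
    rw [Cardinal.mk_Iio_ordinal]; exact Cardinal.lift_le.2 hν)
  obtain ⟨f, f1, f2⟩ := exists_cof_map k.ord
  obtain ⟨q, hq, ζ, hζ, H⟩ := h k.ord.cof.ord (ord_lt_ord.2 hs) p' hp'
    (fun j ζ r => ∀ i ≤ f j, e i < ν → Z (e i) ζ r)
    ⟨fun j ζ ζ' r r' hr hz h₁ h₂ i hi hi' => hZ.mono _ _ _ _ _ hr (hz i hi hi') h₁ h₂,
      fun j ζ r hr hz i hi hi' => hZ.reg _ _ _ hr fun r' hr' =>
        let ⟨r'', k₁, k₂⟩ := hz r' hr'
        ⟨r'', k₁, k₂ i hi hi'⟩,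
      fun j hj r hr => by
        obtain ⟨q, hq, ζ, hζ, H⟩ := h (Order.succ (f j)) (hl.succ_lt (f1 j hj)) r (hr.trans hp')
          (fun i ζ s => e i < ν → Z (e i) ζ s)
          ⟨fun i ζ ζ' s s' hs hz h₁ h₂ hi => hZ.mono _ _ _ _ _ (hs.trans hr) (hz hi) h₁ h₂,
            fun i ζ s hs hz hi => hZ.reg _ _ _ (hs.trans hr) fun s' hs' =>
              let ⟨s'', k₁, k₂⟩ := hz s' hs'
              ⟨s'', k₁, k₂ hi⟩,
            fun i _ s hs => by
              by_cases hi : e i < ν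
              · obtain ⟨s', k₁, ζ, k₂, k₃⟩ := hZ.dense _ hi s (hs.trans hr)
                exact ⟨s', k₁, ζ, k₂, fun _ => k₃⟩
              · exact ⟨s, le_rfl, ζ₀, hζ₀, fun k => absurd k hi⟩⟩
        exact ⟨q, hq, ζ, hζ, fun i hi => H i (Order.lt_succ_iff.2 hi)⟩⟩
  refine ⟨q, hq, ζ, hζ, fun x hx => ?_⟩
  obtain ⟨i, hi, rfl⟩ := he x hx
  obtain ⟨j, hj, hij⟩ := f2 i hi
  exact H j hj i hij hx

end Abstract

variable {P : Type 2} [Sz P] [Preorder P] [OrderTop P] [Tame P]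

/-- A relation on ordinals that is decided by a small set of conditions. -/
structure FR (Ψ : P → Od → Od → Prop) : Prop where
  mono : ∀ p q a b, Ψ p a b → q ≤ p → Ψ q a b
  gen : ∀ bd < (Sz.θ P).ord, ∃ S : Set P, Sm P S ∧
    ∀ p, ∀ a < bd, ∀ b < bd, Ψ p a b → ∃ s ∈ S, p ≤ s ∧ Ψ s a b

theorem FR.ground (Φ : Od → Od → Prop) : FR (fun (_ : P) a b => Φ a b) := by
  exact ⟨fun _ _ _ _ h _ => h, fun _ _ => ⟨{⊤}, Sm.of_countable,
    fun _ _ _ _ _ h => ⟨⊤, rfl, le_top, h⟩⟩⟩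

theorem FR.name {Ψ : P → Od → Od → Prop} (h : FR Ψ) {bd : Od} (hbd : bd < (Sz.θ P).ord) :
    ∃ τ : Name P, ∀ g : Gen P, τ ∈ g.N → ∀ s t, App g.E (g.v τ) s t ↔
      ∃ a < bd, ∃ b < bd, g.In a ∧ g.In b ∧ s = g.o a ∧ t = g.o b ∧ ∃ p ∈ g.G, Ψ p a b := by
  obtain ⟨S, hS, H⟩ := h.gen bd hbd
  have := Sm.iio (P := P) hbd
  refine ⟨Gen.relN (ι := {x : Iio bd × Iio bd × S // Ψ x.2.2.1 x.1.1 x.2.1.1})
    (fun x => oN x.1.1.1) (fun x => oN x.1.2.1.1) (fun x => x.1.2.2.1), fun g hg s t => ?_⟩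
  rw [Gen.app_relN hg]
  constructor
  · rintro ⟨⟨⟨⟨a, ha⟩, ⟨b, hb⟩, ⟨r, hr⟩⟩, hx⟩, k₁, k₂, k₃, k₄, k₅⟩
    exact ⟨a, ha, b, hb, ⟨lt_trans ha hbd, k₂⟩, ⟨lt_trans hb hbd, k₃⟩, k₄, k₅, r, k₁, hx⟩
  · rintro ⟨a, ha, b, hb, k₂, k₃, k₄, k₅, r, k₁, hx⟩
    obtain ⟨s, hs, k₆, k₇⟩ := H r a ha b hb hx
    exact ⟨⟨⟨⟨a, ha⟩, ⟨b, hb⟩, ⟨s, hs⟩⟩, k₇⟩, g.up k₁ k₆, k₂.2, k₃.2, k₄, k₅⟩

namespace Gen

variable {g : Gen P} {p : P} {a c τ : Od} {Ψ : P → Od → Od → Prop}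

theorem nbnd_fnl (i : ℕ) : UDef.{3} (fun _ E w => Fnl E (w i)) :=
  UDef.all (UDef.all (UDef.all ((UDef.app _ _ _).imp ((UDef.app _ _ _).imp (UDef.eq _ _)))))

theorem nbnd_cofMap (i j k : ℕ) : UDef.{3} (fun _ E w => CofMap E (w i) (w j) (w k)) :=
  UDef.all ((UDef.mem _ _).imp (UDef.ex (UDef.ex ((UDef.mem _ _).and ((UDef.mem _ _).and
    ((UDef.app _ _ _).and (UD.leq _ _)))))))

theorem nbnd_succ (i : ℕ) : UDef.{3} (fun _ E w => Succ E (w i)) :=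
  UDef.ex ((UDef.mem _ _).and (UDef.all ((UDef.mem _ _).imp ((UDef.mem _ _).imp
    (UD.isCard _).not))))

theorem nbnd_lim (i : ℕ) : UDef.{3} (fun _ E w => Lim E (IsReg E) (w i)) :=
  (UDef.ex (UDef.mem _ _)).and (UDef.all ((UDef.mem _ _).imp (UDef.ex ((UDef.mem _ _).and
    ((UDef.mem _ _).and (UD.isReg _))))))

theorem nbnd_fnl_name (h : FR Ψ) (hp : p ∈ g.G) {f : g.M} {bd : Od}
    (hf : ∀ s t, App g.E f s t ↔
      ∃ a < bd, ∃ b < bd, g.In a ∧ g.In b ∧ s = g.o a ∧ t = g.o b ∧ ∃ p ∈ g.G, Ψ p a b)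
    (fn : ∀ q ≤ p, ∀ i v v', Ψ q i v → Ψ q i v' → v = v') : Fnl g.E f := by
  intro x y y' e e'
  obtain ⟨a₁, -, b₁, -, k₁, -, rfl, rfl, p₁, hp₁, l₁⟩ := (hf _ _).1 e
  obtain ⟨a₂, -, b₂, -, k₂, -, k₃, rfl, p₂, hp₂, l₂⟩ := (hf _ _).1 e'
  obtain rfl := o_inj k₁ k₂ k₃
  obtain ⟨q, hq, q₁, q₂⟩ := g.dir hp₁ hp₂
  obtain ⟨r, -, r₁, r₂⟩ := g.dir hq hp
  rw [fn r r₂ _ _ _ (h.mono _ _ _ _ l₁ (r₁.trans q₁)) (h.mono _ _ _ _ l₂ (r₁.trans q₂))]

theorem cofMap_dense (h : FR Ψ) (hp : p ∈ g.G) (ha : g.In a) (hc : g.In c)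
    (fn : ∀ q ≤ p, ∀ i v v', Ψ q i v → Ψ q i v' → v = v')
    (dn : ∀ v < a, ∀ q ≤ p, ∃ r ≤ q, ∃ i < c, ∃ w < a, v ≤ w ∧ Ψ r i w) :
    ∃ f, Fnl g.E f ∧ CofMap g.E f (g.o c) (g.o a) := by
  obtain ⟨σ, hσ⟩ := h.name (max_lt ha.1 hc.1)
  refine dens (Ψ := fun _ E w => ∃ f, Fnl E f ∧ CofMap E f (w 0) (w 1))
    (UDef.ex ((nbnd_fnl _).and (nbnd_cofMap _ _ _))) (l2 hc.2 ha.2) fun p₁ hp₁ => ?_
  obtain ⟨q, -, q₁, q₂⟩ := g.dir hp₁ hp
  refine ⟨q, q₁, {σ}, countable_singleton _, fun g' hq' hC hl => ?_⟩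
  have hp' : p ∈ g'.G := g'.up hq' q₂
  have hs : σ ∈ g'.N := hC rfl
  have hc' : g'.In c := ⟨hc.1, hl _ (by simp)⟩
  have ha' : g'.In a := ⟨ha.1, hl _ (by simp)⟩
  refine ⟨g'.v σ, nbnd_fnl_name h hp' (hσ g' hs) fn, fun x hx => ?_⟩
  obtain ⟨v, hv, hv', rfl⟩ := (E_o ha').1 hx
  refine dens_o (Ψ := fun _ E w => ∃ i y, E i (w 1) ∧ E y (w 2) ∧ App E (w 0) i y ∧ Leq E (w 3) y)
    (UDef.ex (UDef.ex ((UDef.mem _ _).and ((UDef.mem _ _).and
      ((UDef.app _ _ _).and (UD.leq _ _)))))) (l4 hs hc'.2 ha'.2 hv'.2) fun p₂ hp₂ => ?_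
  obtain ⟨q', -, q₃, q₄⟩ := g'.dir hp₂ hp'
  obtain ⟨r, hr, i, hi, w, hw, hvw, hΨ⟩ := dn v hv q' q₄
  refine ⟨r, hr.trans q₃, ∅, {i, w}, countable_empty, (toFinite _).countable, ?_,
    fun g'' hr' _ hS hl' => ?_⟩
  · rintro _ (rfl | rfl)
    exacts [hi.trans hc.1, hw.trans ha.1]
  have ki := hS i (by simp)
  have kw := hS w (by simp)
  have kc : g''.In c := ⟨hc.1, hl' _ (by simp)⟩
  have ka : g''.In a := ⟨ha.1, hl' _ (by simp)⟩
  have kv : g''.In v := ⟨hv'.1, hl' _ (by simp)⟩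
  exact ⟨g''.o i, g''.o w, (o_lt_iff ki kc).2 hi, (o_lt_iff kw ka).2 hw,
    (hσ g'' (hl' _ (by simp)) _ _).2 ⟨i, lt_max_of_lt_right hi, w, lt_max_of_lt_left hw, ki, kw,
      rfl, rfl, r, hr', hΨ⟩, (o_leq_iff kv kw).2 hvw⟩

theorem not_card_dense (h : FR Ψ) (hp : p ∈ g.G) (ha : g.In a) (hc : c < a)
    (fn : ∀ q ≤ p, ∀ i v v', Ψ q i v → Ψ q i v' → v = v')
    (dn : ∀ v < a, ∀ q ≤ p, ∃ r ≤ q, ∃ i < c, Ψ r i v) : ¬ IsCard g.E (g.o a) := by
  obtain ⟨σ, hσ⟩ := h.name ha.1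
  refine dens_o (Ψ := fun _ E w => ¬ IsCard E (w 0)) (UD.isCard _).not (l1 ha.2)
    fun p₁ hp₁ => ?_
  obtain ⟨q, -, q₁, q₂⟩ := g.dir hp₁ hp
  refine ⟨q, q₁, {σ}, {c}, countable_singleton _, countable_singleton _,
    singleton_subset_iff.2 (hc.trans ha.1), fun g' hq' hC hS hl => ?_⟩
  have hp' : p ∈ g'.G := g'.up hq' q₂
  have hs : σ ∈ g'.N := hC rfl
  have hc' : g'.In c := hS c rfl
  have ha' : g'.In a := ⟨ha.1, hl _ (by simp)⟩
  refine not_card_of_rel ((o_lt_iff hc' ha').2 hc) (nbnd_fnl_name h hp' (hσ g' hs) fn)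
    fun x hx => ?_
  obtain ⟨v, hv, hv', rfl⟩ := (E_o ha').1 hx
  refine dens_o (Ψ := fun _ E w => ∃ i, E i (w 1) ∧ App E (w 0) i (w 2))
    (UDef.ex ((UDef.mem _ _).and (UDef.app _ _ _))) (l3 hs hc'.2 hv'.2) fun p₂ hp₂ => ?_
  obtain ⟨q', -, q₃, q₄⟩ := g'.dir hp₂ hp'
  obtain ⟨r, hr, i, hi, hΨ⟩ := dn v hv q' q₄
  refine ⟨r, hr.trans q₃, ∅, {i}, countable_empty, countable_singleton _,
    singleton_subset_iff.2 (hi.trans hc'.1), fun g'' hr' _ hS' hl' => ?_⟩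
  have ki := hS' i rfl
  have kc : g''.In c := ⟨hc'.1, hl' _ (by simp)⟩
  have kv : g''.In v := ⟨hv'.1, hl' _ (by simp)⟩
  exact ⟨g''.o i, (o_lt_iff ki kc).2 hi,
    (hσ g'' (hl' _ (by simp)) _ _).2 ⟨i, hi.trans hc, v, hv, ki, kv, rfl, rfl, r, hr', hΨ⟩⟩

theorem not_reg_dense (h : FR Ψ) (hp : p ∈ g.G) (ha : g.In a) (hc : c < a)
    (fn : ∀ q ≤ p, ∀ i v v', Ψ q i v → Ψ q i v' → v = v')
    (dn : ∀ v < a, ∀ q ≤ p, ∃ r ≤ q, ∃ i < c, ∃ w < a, v ≤ w ∧ Ψ r i w) :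
    ¬ IsReg g.E (g.o a) := by
  refine dens_o (Ψ := fun _ E w => ¬ IsReg E (w 0)) (UD.isReg _).not (l1 ha.2)
    fun p₁ hp₁ => ?_
  obtain ⟨q, -, q₁, q₂⟩ := g.dir hp₁ hp
  refine ⟨q, q₁, ∅, {c}, countable_empty, countable_singleton _,
    singleton_subset_iff.2 (hc.trans ha.1), fun g' hq' _ hS hl => ?_⟩
  have hc' : g'.In c := hS c rfl
  have ha' : g'.In a := ⟨ha.1, hl _ (by simp)⟩
  obtain ⟨f, f₁, f₂⟩ := cofMap_dense h (g'.up hq' q₂) ha' hc' fn dn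
  exact not_reg_of_cof ((o_lt_iff hc' ha').2 hc) f₁ f₂

theorem ground_card (ha : g.In a) (h : IsCard g.E (g.o a)) : a.card.ord = a := by
  by_contra hn
  have hc : a.card.ord < a := lt_of_le_of_ne (ord_card_le a) hn
  obtain ⟨e, he⟩ := exists_enum_of_le (S := Iio a) (c := a.card) (by
    rw [Cardinal.mk_Iio_ordinal])
  refine not_card_dense (FR.ground fun i v => e i = v) g.top ha hc
    (fun _ _ _ _ _ k₁ k₂ => k₁.symm.trans k₂) (fun v hv q _ => ?_) h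
  obtain ⟨i, hi, k⟩ := he v hv
  exact ⟨q, le_rfl, i, hi, k⟩

theorem not_reg_ground (ha : g.In a) (h : a.cof.ord < a) : ¬ IsReg g.E (g.o a) := by
  obtain ⟨f, f1, f2⟩ := exists_cof_map a
  refine not_reg_dense (FR.ground fun i v => f i = v) g.top ha h
    (fun _ _ _ _ _ k₁ k₂ => k₁.symm.trans k₂) fun v hv q _ => ?_
  obtain ⟨i, hi, k⟩ := f2 v hv
  exact ⟨q, le_rfl, i, hi, f i, f1 i hi, k, rfl⟩

theorem succ_ground {k : Cardinal.{1}} (ha : g.In (Order.succ k).ord) :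
    Succ g.E (g.o (Order.succ k).ord) := by
  have hk : k.ord < (Order.succ k).ord := ord_lt_ord.2 (Order.lt_succ k)
  refine dens_o (Ψ := fun _ E w => Succ E (w 0)) (nbnd_succ _) (l1 ha.2) fun p₁ _ => ?_
  refine ⟨p₁, le_rfl, ∅, {k.ord}, countable_empty, countable_singleton _,
    singleton_subset_iff.2 (hk.trans ha.1), fun g' _ _ hS hl => ?_⟩
  have hc' : g'.In k.ord := hS _ rfl
  have ha' : g'.In (Order.succ k).ord := ⟨ha.1, hl _ (by simp)⟩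
  refine ⟨g'.o k.ord, (o_lt_iff hc' ha').2 hk, fun z h₁ h₂ h₃ => ?_⟩
  obtain ⟨ζ, k₁, k₂, rfl⟩ := (E_o ha').1 h₂
  have k₃ := (o_lt_iff hc' k₂).1 h₁
  rw [← ground_card k₂ h₃, ord_lt_ord] at k₁ k₃
  exact absurd (Order.lt_succ_iff.1 k₁) (not_le.2 k₃)

theorem reg_of_bnd (hp : p ∈ g.G) (hτ : g.In τ) (hl : Order.IsSuccLimit τ)
    (h : ∀ ν < τ, Bnd p ν τ) :
    IsReg g.E (g.o τ) := by
  by_contra hn
  obtain ⟨c, f, k₁, k₂, k₃⟩ := cof_of_not_reg (isOrd_o hτ)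
    ((inf_o hτ).2 (omega0_le_of_isSuccLimit hl)) hn
  obtain ⟨ν, hν, hν', rfl⟩ := (E_o hτ).1 k₁
  obtain ⟨σ, hσ, rfl⟩ := exists_v f
  obtain ⟨p₁, hp₁, H₁⟩ := transfer (nbnd_fnl 0) (l1 hσ) k₂
  obtain ⟨p₂, hp₂, H₂⟩ := transfer (nbnd_cofMap 0 1 2) (l3 hσ hν'.2 hτ.2) k₃
  obtain ⟨p₃, hp₃, e₁, e₂⟩ := g.dir hp₁ hp₂
  obtain ⟨p₄, -, e₃, e₄⟩ := g.dir hp₃ hp
  let F : P → Od → Od → Prop := fun r i y => ∀ g' : Gen P, r ∈ g'.G → σ ∈ g'.N → g'.In i →
    g'.In y → App g'.E (g'.v σ) (g'.o i) (g'.o y)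
  have Fm : ∀ r r' i y, F r i y → r' ≤ r → F r' i y :=
    fun r r' i y k e g' hr => k g' (g'.up hr e)
  obtain ⟨q, hq, ζ, hζ, H⟩ := h ν hν p₄ e₄
    (fun i ζ r => ∀ y < τ, ζ < y → ∀ r' ≤ r, ¬ F r' i y)
    ⟨fun i ζ ζ' r r' _ hz h₁ h₂ y hy hy' s hs => hz y hy (h₂.trans_lt hy') s (hs.trans h₁),
      fun i ζ r _ hz y hy hy' s hs k =>
        let ⟨s', k₁, k₂⟩ := hz s hs
        k₂ y hy hy' s' le_rfl (Fm _ _ _ _ k k₁),
      fun i hi r hr => by
        by_cases e : ∃ y < τ, ∃ r' ≤ r, F r' i y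
        · obtain ⟨y, hy, r', hr', k⟩ := e
          refine ⟨r', hr', y, hy, fun y' hy' hyy s hs k' => ?_⟩
          obtain ⟨g', m₁, m₂, m₃⟩ := exists_gen_o s {σ} {i, y, y'} (countable_singleton _)
            (toFinite _).countable (by
              rintro _ (rfl | rfl | rfl)
              exacts [(hi.trans hν).trans hτ.1, hy.trans hτ.1, hy'.trans hτ.1])
          have n₀ : σ ∈ g'.N := m₂ rfl
          have n₁ := m₃ i (by simp)
          have n₂ := m₃ y (by simp)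
          have n₃ := m₃ y' (by simp)
          have := H₁ g' (g'.up m₁ (hs.trans (hr'.trans (hr.trans (e₃.trans e₁))))) (l1 n₀) _ _ _
            (k g' (g'.up m₁ hs) n₀ n₁ n₂) (k' g' m₁ n₀ n₁ n₃)
          exact hyy.ne (o_inj n₂ n₃ this)
        · exact ⟨r, le_rfl, 0, hl.bot_lt, fun y hy _ s hs k => e ⟨y, hy, s, hs, k⟩⟩⟩
  have hζ' : Order.succ ζ < τ := hl.succ_lt hζ
  obtain ⟨g', m₁, m₂, m₃⟩ := exists_gen_o q {σ} {ν, τ, Order.succ ζ} (countable_singleton _)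
    (toFinite _).countable (by
      rintro _ (rfl | rfl | rfl)
      exacts [hν'.1, hτ.1, hζ'.trans hτ.1])
  have n₀ : σ ∈ g'.N := m₂ rfl
  have n₁ := m₃ ν (by simp)
  have n₂ := m₃ τ (by simp)
  have n₃ := m₃ (Order.succ ζ) (by simp)
  obtain ⟨i, y, c₁, c₂, c₃, c₄⟩ := H₂ g' (g'.up m₁ (hq.trans (e₃.trans e₂))) (l3 n₀ n₁.2 n₂.2)
    (g'.o (Order.succ ζ)) ((o_lt_iff n₃ n₂).2 hζ')
  obtain ⟨i, d₁, d₂, rfl⟩ := (E_o n₁).1 c₁
  obtain ⟨y, d₃, d₄, rfl⟩ := (E_o n₂).1 c₂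
  obtain ⟨s, hs, K⟩ := transfer_app n₀ d₂.2 d₄.2 c₃
  obtain ⟨r, -, r₁, r₂⟩ := g'.dir m₁ hs
  exact H i d₁ y d₃ (Order.succ_le_iff.1 ((o_leq_iff n₃ d₄).1 c₄)) r r₁
    fun g'' t₁ t₂ t₃ t₄ => K g'' (g''.up t₁ r₂) t₂ t₃.2 t₄.2

theorem card_of_lim_dense (hp : p ∈ g.G) (ha : g.In a)
    (h : ∀ b < a, ∃ τ, b < τ ∧ τ ≤ a ∧ ∀ g' : Gen P, p ∈ g'.G → g'.In τ → IsCard g'.E (g'.o τ)) :
    IsCard g.E (g.o a) := by
  refine card_of_lim (isOrd_o ha) fun x hx => ?_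
  obtain ⟨b, hb, hb', rfl⟩ := (E_o ha).1 hx
  obtain ⟨t, t₁, t₂, H⟩ := h b hb
  refine dens_o (Ψ := fun _ E w => ∃ z, IsCard E z ∧ E (w 0) z ∧ Leq E z (w 1))
    (UDef.ex ((UD.isCard _).and ((UDef.mem _ _).and (UD.leq _ _)))) (l2 hb'.2 ha.2)
    fun p₁ hp₁ => ?_
  obtain ⟨q, -, q₁, q₂⟩ := g.dir hp₁ hp
  refine ⟨q, q₁, ∅, {t}, countable_empty, countable_singleton _,
    singleton_subset_iff.2 (t₂.trans_lt ha.1), fun g' hq' _ hS hl => ?_⟩
  have kt : g'.In t := hS t rfl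
  have kb : g'.In b := ⟨hb'.1, hl _ (by simp)⟩
  have ka : g'.In a := ⟨ha.1, hl _ (by simp)⟩
  exact ⟨g'.o t, H g' (g'.up hq' q₂) kt, (o_lt_iff kb kt).2 t₁, (o_leq_iff kt ka).2 t₂⟩

/-- A limit of regular cardinals of the model has many cardinals below it. -/
theorem lim_reg_many (ha : g.In a) (h : Lim g.E (IsReg g.E) (g.o a)) {b : Od} (hb : b < a)
    (S : Set Od) (hS : S.Finite)
    (H : ∀ g' : Gen P, p ∈ g'.G → ∀ z, b < z → z < a → g'.In z → IsCard g'.E (g'.o z) → z ∈ S)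
    (hp : p ∈ g.G) : False := by
  obtain ⟨p₁, hp₁, H₁⟩ := transfer (nbnd_lim 0) (l1 ha.2) h
  obtain ⟨q, -, q₁, q₂⟩ := g.dir hp₁ hp
  obtain ⟨m, hm, hmax⟩ := Set.exists_max_image (insert b (S ∩ Iio a)) id
    ((hS.inter_of_left _).insert b) ⟨b, mem_insert _ _⟩
  have hma : m < a := by
    rcases hm with rfl | hm
    exacts [hb, hm.2]
  obtain ⟨g', m₁, -, m₃⟩ := exists_gen_o q ∅ {a, m} countable_empty (toFinite _).countable (by
    rintro _ (rfl | rfl)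
    exacts [ha.1, hma.trans ha.1])
  have n₁ := m₃ a (by simp)
  have n₂ := m₃ m (by simp)
  obtain ⟨z, z₁, z₂, z₃⟩ := (H₁ g' (g'.up m₁ q₁) (l1 n₁.2)).2 (g'.o m) ((o_lt_iff n₂ n₁).2 hma)
  obtain ⟨ζ, k₁, k₂, rfl⟩ := (E_o n₁).1 z₁
  have k₃ := (o_lt_iff n₂ k₂).1 z₂
  have k₄ : b ≤ m := hmax b (mem_insert _ _)
  have k₅ := H g' (g'.up m₁ q₂) ζ (k₄.trans_lt k₃) k₁ k₂ z₃.1
  exact absurd (hmax ζ (mem_insert_of_mem _ ⟨k₅, k₁⟩)) (not_le.2 k₃)

end Gen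

end Pool.Agent.MP_85ce7b_lc

end

section

namespace Pool.Agent.MP_85ce7b_lc

open Set Cardinal Ordinal Dat

abbrev Tri : Type 2 := Set (Od × Od × Od)

namespace Ctx

variable (C : Ctx)

/-- The trivial condition. -/
def p0 : Raw := itv 0 (C.s + 1)

/-- The conditions of the forcing below `κ`. -/
def InR (r : Raw) : Prop := C.LeT C.kap r C.p0

/-- `r` gives the value `v` to the term `N`. -/
def Has (N : Set (Raw × Od)) (r : Raw) (v : Od) : Prop := ∃ r₀, (r₀, v) ∈ N ∧ C.LeT C.kap r r₀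

/-- `p` forces that the terms `N` and `N'` have the same values. -/
def Eqv (p : Raw) (N N' : Set (Raw × Od)) : Prop :=
  ∀ r, C.LeT C.kap r p → ∀ v, (C.Has N r v → ∃ r', C.LeT C.kap r' r ∧ C.Has N' r' v) ∧
    (C.Has N' r v → ∃ r', C.LeT C.kap r' r ∧ C.Has N r' v)

/-- Conditions of the term forcing above `κ`. -/
structure TV (q : Tri) : Prop where
  rng : ∀ x i c, (x, i, c) ∈ q → C.kap ≤ x ∧ c < (C.B (x + 1)).ord
  fn : ∀ x i c c', (x, i, c) ∈ q → (x, i, c') ∈ q → c = c'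
  dom : ∀ x, ∃ j < (Order.succ (C.B x)).ord, ∀ i c, (x, i, c) ∈ q → i < j
  supp : ∃ y < C.th.ord, ∀ x i c, (x, i, c) ∈ q → x < y

/-- The forcing. -/
@[ext] structure Po : Type 2 where
  r : Raw
  t : Tri
  hr : C.InR r
  ht : C.TV t

variable {C}

theorem inR_scope {r : Raw} (h : C.InR r) :
    C.Scope C.kap r ∧ C.kap ∉ r.c ∧ Intv r 0 (C.s + 1) :=
  ⟨leT_scope C.p0_scope.1 h, fun hk => C.p0_scope.2 ((h.ag.1 _ le_rfl).1.1 hk),
    le_intv h.le zero_le ⟨subset_rfl, fun _ _ _ => rfl⟩⟩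

theorem inR_p0 (C : Ctx) : C.InR C.p0 := leT_refl C.p0_scope.1

theorem inR_le {r r' : Raw} (h : C.InR r) (h' : C.LeT C.kap r' r) : C.InR r' := leT_trans h' h

theorem has_mono {N : Set (Raw × Od)} {r r' : Raw} {v : Od} (h : C.Has N r v)
    (h' : C.LeT C.kap r' r) : C.Has N r' v := by
  obtain ⟨r₀, h₁, h₂⟩ := h
  exact ⟨r₀, h₁, leT_trans h' h₂⟩

theorem eqv_refl {p : Raw} (hp : C.InR p) (N : Set (Raw × Od)) : C.Eqv p N N := fun _ hr _ =>
  ⟨fun h => ⟨_, leT_refl (inR_scope (inR_le hp hr)).1, h⟩,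
    fun h => ⟨_, leT_refl (inR_scope (inR_le hp hr)).1, h⟩⟩

theorem eqv_symm {p : Raw} {N N' : Set (Raw × Od)} (h : C.Eqv p N N') : C.Eqv p N' N :=
  fun r hr v => (h r hr v).symm

theorem eqv_mono {p p' : Raw} {N N' : Set (Raw × Od)} (h : C.Eqv p N N')
    (h' : C.LeT C.kap p' p) : C.Eqv p' N N' := fun r hr => h r (leT_trans hr h')

theorem eqv_trans {p : Raw} {N N' N'' : Set (Raw × Od)} (h : C.Eqv p N N') (h' : C.Eqv p N' N'') :
    C.Eqv p N N'' := fun r hr v => by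
  constructor
  · intro h₁
    obtain ⟨r₁, h₂, h₃⟩ := (h r hr v).1 h₁
    obtain ⟨r₂, h₄, h₅⟩ := (h' r₁ (leT_trans h₂ hr) v).1 h₃
    exact ⟨r₂, leT_trans h₄ h₂, h₅⟩
  · intro h₁
    obtain ⟨r₁, h₂, h₃⟩ := (h' r hr v).2 h₁
    obtain ⟨r₂, h₄, h₅⟩ := (h r₁ (leT_trans h₂ hr) v).2 h₃
    exact ⟨r₂, leT_trans h₄ h₂, h₅⟩

instance : Preorder C.Po where
  le ρ π := C.LeT C.kap ρ.r π.r ∧
    ∀ x i c, (x, i, c) ∈ π.t → ∃ c', (x, i, c') ∈ ρ.t ∧ C.Eqv ρ.r (C.nm x c) (C.nm x c')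
  le_refl π := ⟨leT_refl (inR_scope π.hr).1, fun _ _ c h => ⟨c, h, eqv_refl π.hr _⟩⟩
  le_trans a b c h₁ h₂ := ⟨leT_trans h₁.1 h₂.1, fun x i d h => by
    obtain ⟨d₁, h₃, h₄⟩ := h₂.2 x i d h
    obtain ⟨d₂, h₅, h₆⟩ := h₁.2 x i d₁ h₃
    exact ⟨d₂, h₅, eqv_trans (eqv_mono h₄ h₁.1) h₆⟩⟩

theorem le_def {ρ π : C.Po} : ρ ≤ π ↔ C.LeT C.kap ρ.r π.r ∧
    ∀ x i c, (x, i, c) ∈ π.t → ∃ c', (x, i, c') ∈ ρ.t ∧ C.Eqv ρ.r (C.nm x c) (C.nm x c') :=
  Iff.rfl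

theorem tv_empty (C : Ctx) : C.TV ∅ where
  rng := fun _ _ _ h => h.elim
  fn := fun _ _ _ _ h => h.elim
  dom := fun x => ⟨0, by
    rw [Cardinal.lt_ord, Ordinal.card_zero]
    exact zero_le.trans_lt (Order.lt_succ _), fun _ _ h => h.elim⟩
  supp := ⟨0, zero_le.trans_lt C.k_lt, fun _ _ _ h => h.elim⟩

theorem tv_sub {q q' : Tri} (h : C.TV q) (hs : q' ⊆ q) : C.TV q' where
  rng := fun x i c h' => h.rng x i c (hs h')
  fn := fun x i c c' h₁ h₂ => h.fn x i c c' (hs h₁) (hs h₂)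
  dom := fun x => (h.dom x).imp fun _ hj => ⟨hj.1, fun i c h' => hj.2 i c (hs h')⟩
  supp := h.supp.imp fun _ hy => ⟨hy.1, fun x i c h' => hy.2 x i c (hs h')⟩

/-- Conditions with trivial upper part. -/
def ofR (r : Raw) (hr : C.InR r) : C.Po := ⟨r, ∅, hr, C.tv_empty⟩

theorem le_ofR {ρ : C.Po} {r : Raw} {hr : C.InR r} : ρ ≤ ofR r hr ↔ C.LeT C.kap ρ.r r :=
  ⟨fun h => h.1, fun h => ⟨h, fun _ _ _ h => h.elim⟩⟩

instance : OrderTop C.Po where
  top := ofR C.p0 C.inR_p0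
  le_top π := le_ofR.2 π.hr

instance : Sz C.Po := ⟨C.th, C.thin⟩

/-- Extension of the first coordinate. -/
def setR (π : C.Po) (r : Raw) (h : C.LeT C.kap r π.r) : C.Po := ⟨r, π.t, inR_le π.hr h, π.ht⟩

theorem setR_le (π : C.Po) (r : Raw) (h : C.LeT C.kap r π.r) : setR π r h ≤ π :=
  ⟨h, fun _ _ c h' => ⟨c, h', eqv_refl (inR_le π.hr h) _⟩⟩

theorem le_of_sub {ρ π : C.Po} (h₁ : C.LeT C.kap ρ.r π.r) (h₂ : π.t ⊆ ρ.t) : ρ ≤ π :=
  ⟨h₁, fun _ _ c h => ⟨c, h₂ h, eqv_refl ρ.hr _⟩⟩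

theorem tv_glue {q q' : Tri} (h : C.TV q) (h' : C.TV q') (y : Od) :
    C.TV {z | (z ∈ q ∧ z.1 < y) ∨ (z ∈ q' ∧ y ≤ z.1)} where
  rng := fun x i c hz => hz.elim (fun hz => h.rng x i c hz.1) fun hz => h'.rng x i c hz.1
  fn := by
    rintro x i c c' (h₁ | h₁) (h₂ | h₂)
    · exact h.fn x i c c' h₁.1 h₂.1
    · exact absurd h₁.2 (not_lt.2 h₂.2)
    · exact absurd h₂.2 (not_lt.2 h₁.2)
    · exact h'.fn x i c c' h₁.1 h₂.1
  dom := fun x => by
    obtain ⟨j, hj, H⟩ := h.dom x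
    obtain ⟨j', hj', H'⟩ := h'.dom x
    exact ⟨max j j', max_lt hj hj', fun i c hz => hz.elim
      (fun hz => lt_max_of_lt_left (H i c hz.1)) fun hz => lt_max_of_lt_right (H' i c hz.1)⟩
  supp := by
    obtain ⟨j, hj, H⟩ := h.supp
    obtain ⟨j', hj', H'⟩ := h'.supp
    exact ⟨max j j', max_lt hj hj', fun x i c hz => hz.elim
      (fun hz => lt_max_of_lt_left (H x i c hz.1)) fun hz => lt_max_of_lt_right (H' x i c hz.1)⟩

/-- The part of `ρ` below the level `y` together with the part of `σ` from `y` on. -/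
def glue (y : Od) (ρ σ : C.Po) : C.Po :=
  ⟨ρ.r, {z | (z ∈ ρ.t ∧ z.1 < y) ∨ (z ∈ σ.t ∧ y ≤ z.1)}, ρ.hr, tv_glue ρ.ht σ.ht y⟩

/-- The conditions that live below the level `y`. -/
def Low (C : Ctx) (y : Od) : Set C.Po := {π | ∀ z ∈ π.t, z.1 < y}

/-- Levels at which the forcing factors. -/
def Lev (C : Ctx) (y : Od) : Prop := y < C.th.ord ∧ (y = C.kap ∨ (C.kap < y ∧ ∃ z, y = z + 1))

/-- `ρ` decides that the collapse at `x` sends `i` to `v`. -/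
def Sg (ρ : C.Po) (x i v : Od) : Prop :=
  ∃ c, (x, i, c) ∈ ρ.t ∧ C.Eqv ρ.r {(C.p0, v)} (C.nm x c)

end Ctx

end Pool.Agent.MP_85ce7b_lc

end

section

namespace Pool.Agent.MP_85ce7b_lc

open Set Cardinal Ordinal Dat

namespace Ctx

variable {C : Ctx} {π ρ σ : C.Po} {x y ν τ : Od}

theorem pred_refl (ρ : C.Po) : C.LeT C.kap ρ.r ρ.r := leT_refl (inR_scope ρ.hr).1

theorem le_glue (h : ρ ≤ σ) (y : Od) : ρ ≤ glue y ρ σ ∧ glue y ρ σ ≤ σ := by
  refine ⟨⟨pred_refl ρ, ?_⟩, h.1, fun x i c hz => ?_⟩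
  · rintro x i c (hz | hz)
    · exact ⟨c, hz.1, eqv_refl ρ.hr _⟩
    · exact h.2 x i c hz.1
  · rcases lt_or_ge x y with hx | hx
    · obtain ⟨c', h₁, h₂⟩ := h.2 x i c hz
      exact ⟨c', Or.inl ⟨h₁, hx⟩, h₂⟩
    · exact ⟨c, Or.inr ⟨hz, hx⟩, eqv_refl ρ.hr _⟩

theorem glue_top_mem (y : Od) (ρ : C.Po) : glue y ρ ⊤ ∈ C.Low y := by
  rintro z (hz | hz)
  · exact hz.2
  · exact hz.1.elim

theorem glue_glue (y : Od) (ρ σ σ' : C.Po) : glue y (glue y ρ σ') σ = glue y ρ σ := by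
  refine Po.ext rfl (Set.ext fun z => ⟨?_, ?_⟩)
  · rintro (⟨hz | hz, h⟩ | hz)
    · exact Or.inl hz
    · exact absurd h (not_lt.2 hz.2)
    · exact Or.inr hz
  · rintro (hz | hz)
    · exact Or.inl ⟨Or.inl hz, hz.2⟩
    · exact Or.inr hz

theorem meet_glue (h : ρ ≤ σ) (y : Od) : Name.Meet (glue y ρ σ) (glue y ρ ⊤) σ := by
  intro t
  refine ⟨fun ht => ⟨ht.trans (le_of_sub (pred_refl ρ) ?_), ht.trans (le_glue h y).2⟩,
    fun ⟨h₁, h₂⟩ => ⟨h₁.1, ?_⟩⟩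
  · rintro z (hz | hz)
    · exact Or.inl hz
    · exact hz.1.elim
  · rintro x i c (hz | hz)
    · exact h₁.2 x i c (Or.inl hz)
    · exact h₂.2 x i c hz.1

theorem pred_bdd {r : Raw} (h : C.InR r) : Bdd C.kap r := by
  obtain ⟨h₁, h₂, -⟩ := inR_scope h
  exact bdd_of_below h₁.v C.kin (h₁.cut.resolve_left h₂).2.2 h₁.bel

theorem card_inR (C : Ctx) : Cardinal.mk {r | C.InR r} ≤ lift.{2} C.kap.card := by
  have h : {r | C.InR r} ⊆ C.dec '' Iio C.kap := fun r hr =>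
    let ⟨ξ, h₁, h₂⟩ := C.hdec _ r C.kin (pred_bdd hr)
    ⟨ξ, h₁, h₂⟩
  refine (Cardinal.mk_le_mk_of_subset h).trans (Cardinal.mk_image_le.trans ?_)
  rw [Cardinal.mk_Iio_ordinal]

theorem pred_lev_le (hy : C.Lev y) : C.kap ≤ y :=
  hy.2.elim (fun h => h.ge) fun h => h.1.le

theorem pred_lim (C : Ctx) (x : Od) : Order.IsSuccLimit (Order.succ (C.B x)).ord :=
  isSuccLimit_ord ((C.bf.aleph0_le x).trans (Order.le_succ _))

theorem pred_succ_mono (h : x ≤ y) : (Order.succ (C.B x)).ord ≤ (Order.succ (C.B y)).ord :=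
  ord_le_ord.2 (Order.succ_le_succ (C.bf.mono h))

theorem pred_card_t {z : Od} (hπ : π ∈ C.Low (z + 1)) : Cardinal.mk π.t ≤ lift.{2} (C.B z) := by
  choose j hj hj' using π.ht.dom
  have h₀ := C.bf.aleph0_le z
  have h₁ : (z + 1).card ≤ C.B z := by
    rw [card_add_one]
    exact Cardinal.add_le_of_le h₀ (C.bf.card_le z) (Cardinal.one_le_aleph0.trans h₀)
  obtain ⟨J, hJ, H⟩ := bound_of_lt_cof (C.pred_lim z) (h₁.trans_lt (rf_succ_cof h₀)) j
    fun i hi => (hj i).trans_le (pred_succ_mono (Order.lt_add_one_iff.1 hi))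
  have h₂ : J.card ≤ C.B z := Order.lt_succ_iff.1 (lt_ord.1 hJ)
  have h₃ : Cardinal.mk π.t ≤ Cardinal.mk (Iio (z + 1) × Iio J) := by
    refine Cardinal.mk_le_of_injective (f := fun w => (⟨w.1.1, hπ _ w.2⟩,
      ⟨w.1.2.1, (hj' _ _ _ w.2).trans (H _ (hπ _ w.2))⟩)) ?_
    rintro ⟨⟨a, b, c⟩, hw⟩ ⟨⟨a', b', c'⟩, hw'⟩ e
    simp only [Prod.mk.injEq, Subtype.mk.injEq] at e
    obtain ⟨rfl, rfl⟩ := e
    obtain rfl := π.ht.fn _ _ _ _ hw hw'
    rfl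
  refine h₃.trans ?_
  rw [Cardinal.mk_prod, Cardinal.mk_Iio_ordinal, Cardinal.mk_Iio_ordinal, Cardinal.lift_id,
    Cardinal.lift_id]
  exact Cardinal.mul_le_of_le (Cardinal.aleph0_le_lift.2 h₀) (Cardinal.lift_le.2 h₁)
    (Cardinal.lift_le.2 h₂)

theorem card_low (hy : C.Lev y) : Cardinal.mk (C.Low y) ≤ lift.{2} (C.B y) := by
  have h₀ : ℵ₀ ≤ lift.{2} (C.B y) := Cardinal.aleph0_le_lift.2 (C.bf.aleph0_le y)
  have hR : Cardinal.mk {r | C.InR r} ≤ lift.{2} (C.B y) :=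
    C.card_inR.trans (Cardinal.lift_le.2
      ((C.bf.card_le _).trans (C.bf.mono (pred_lev_le hy))))
  rcases hy.2 with rfl | ⟨-, z, rfl⟩
  · refine le_trans (Cardinal.mk_le_of_injective
      (f := fun w : C.Low C.kap => (⟨w.1.r, w.1.hr⟩ : {r | C.InR r})) ?_) hR
    have he : ∀ w : C.Low C.kap, w.1.t = ∅ := fun w => eq_empty_of_forall_notMem fun u hu =>
      absurd (w.2 u hu) (not_lt.2 (w.1.ht.rng _ _ _ hu).1)
    intro w w' e
    exact Subtype.ext (Po.ext (congrArg Subtype.val e) ((he w).trans (he w').symm))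
  · let b := (C.B (z + 1)).ord
    let S : Set (Od × Od × Od) := Iio b ×ˢ Iio b ×ˢ Iio b
    have hS : Cardinal.mk S = lift.{2} (C.B (z + 1)) := by
      simp only [S, Cardinal.mk_setProd, Cardinal.mk_Iio_ordinal, b, card_ord]
      rw [Cardinal.mul_eq_self h₀, Cardinal.mul_eq_self h₀]
    have hsub : ∀ w : C.Low (z + 1), w.1.t ⊆ S := by
      rintro w ⟨a, i, c⟩ hu
      have h₁ : a < z + 1 := w.2 _ hu
      have h₂ : (C.B (a + 1)).ord ≤ b := rf_ord_mono (Order.add_one_le_iff.2 h₁)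
      obtain ⟨j, hj, H⟩ := w.1.ht.dom a
      exact ⟨h₁.trans_le (C.bf.le_ord _), ((H _ _ hu).trans hj).trans_le
        ((ord_le_ord.2 (C.bf.succ_le (lt_add_one a))).trans h₂),
        (w.1.ht.rng _ _ _ hu).2.trans_le h₂⟩
    have hT : Cardinal.mk {t : Set (Od × Od × Od) // t ⊆ S ∧ Cardinal.mk t ≤ lift.{2} (C.B z)} ≤
        lift.{2} (C.B (z + 1)) := by
      refine (Cardinal.mk_bounded_subset_le S _).trans ?_
      rw [hS, max_eq_left h₀, ← Cardinal.lift_power, C.bf.pow_eq]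
    refine le_trans (Cardinal.mk_le_of_injective (f := fun w : C.Low (z + 1) =>
      ((⟨w.1.r, w.1.hr⟩ : {r | C.InR r}), (⟨w.1.t, hsub w, pred_card_t w.2⟩ :
        {t : Set (Od × Od × Od) // t ⊆ S ∧ Cardinal.mk t ≤ lift.{2} (C.B z)}))) ?_) ?_
    · intro w w' e
      simp only [Prod.mk.injEq, Subtype.mk.injEq] at e
      exact Subtype.ext (Po.ext e.1 e.2)
    · rw [Cardinal.mk_prod, Cardinal.lift_id, Cardinal.lift_id]
      exact Cardinal.mul_le_of_le h₀ hR hT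

theorem pred_lev_succ (h : C.kap ≤ x) (h' : x < C.th.ord) : C.Lev (x + 1) :=
  ⟨C.th_inac.isSuccLimit.add_one_lt h', Or.inr ⟨h.trans_lt (lt_add_one x), x, rfl⟩⟩

theorem pred_lev_kap (C : Ctx) : C.Lev C.kap := ⟨C.k_lt, Or.inl rfl⟩

theorem exists_lev {k : Cardinal.{1}} (hk : k < C.th) (ha : x < C.th.ord) :
    ∃ y, C.Lev y ∧ k ≤ C.B y ∧ x < y := by
  refine ⟨max (max x C.kap) k.ord + 1, pred_lev_succ ((le_max_right _ _).trans (le_max_left _ _))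
    (max_lt (max_lt ha C.k_lt) (ord_lt_ord.2 hk)), ?_,
    ((le_max_left _ _).trans (le_max_left _ _)).trans_lt (lt_add_one _)⟩
  rw [← ord_le_ord]
  exact ((le_max_right _ _).trans (lt_add_one _).le).trans (C.bf.le_ord _)

theorem pred_B_lt (hy : y < C.th.ord) : C.B y < C.th := ord_lt_ord.1 (C.bf.lt_inac C.th_inac hy)

theorem sm_low (hy : C.Lev y) : Sm C.Po (C.Low y) :=
  ⟨(card_low hy).trans_lt (Cardinal.lift_lt.2 (pred_B_lt hy.1))⟩

/-- The upper part is closed. -/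
theorem tv_chain (hy : C.kap ≤ y) (hy' : y < C.th.ord) (hν : ν.card ≤ C.B y) (f : Od → Tri)
    (hf : ∀ i < ν, C.TV (f i)) (hm : ∀ i j, i ≤ j → j < ν → f i ⊆ f j ∧
      ∀ z ∈ f j, z.1 < y → z ∈ f i) : C.TV {z | ∃ i < ν, z ∈ f i} := by
  have _ := hy
  refine ⟨?_, ?_, fun x => ?_, ?_⟩
  · rintro x i c ⟨a, ha, h⟩
    exact (hf a ha).rng x i c h
  · rintro x i c c' ⟨a, ha, h⟩ ⟨b, hb, h'⟩
    rcases le_total a b with e | e
    · exact (hf b hb).fn x i c c' ((hm a b e hb).1 h) h'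
    · exact (hf a ha).fn x i c c' h ((hm b a e ha).1 h')
  · rcases lt_or_ge x y with hx | hx
    · rcases eq_or_ne ν 0 with rfl | h0
      · exact ⟨0, (C.pred_lim x).pos, fun i c ⟨a, ha, _⟩ => absurd ha (by simp)⟩
      · obtain ⟨j, hj, H⟩ := (hf 0 (pos_iff_ne_zero.2 h0)).dom x
        exact ⟨j, hj, fun i c ⟨a, ha, h⟩ => H i c ((hm 0 a zero_le ha).2 _ h hx)⟩
    · have H : ∀ a, ∃ j < (Order.succ (C.B x)).ord, a < ν → ∀ i c, (x, i, c) ∈ f a → i < j := by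
        intro a
        by_cases ha : a < ν
        · obtain ⟨j, hj, H⟩ := (hf a ha).dom x
          exact ⟨j, hj, fun _ => H⟩
        · exact ⟨0, (C.pred_lim x).pos, fun h => absurd h ha⟩
      choose j hj hj' using H
      obtain ⟨J, hJ, H⟩ := bound_of_lt_cof (C.pred_lim x)
        ((hν.trans (C.bf.mono hx)).trans_lt (rf_succ_cof (C.bf.aleph0_le x))) j fun i _ => hj i
      exact ⟨J, hJ, fun i c ⟨a, ha, h⟩ => (hj' a ha i c h).trans (H a ha)⟩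
  · have H : ∀ a, ∃ j < C.th.ord, a < ν → ∀ x i c, (x, i, c) ∈ f a → x < j := by
      intro a
      by_cases ha : a < ν
      · obtain ⟨j, hj, H⟩ := (hf a ha).supp
        exact ⟨j, hj, fun _ => H⟩
      · exact ⟨0, C.th_inac.isSuccLimit.pos, fun h => absurd h ha⟩
    choose j hj hj' using H
    obtain ⟨J, hJ, H⟩ := C.th_inac.bound (lt_ord.2 (hν.trans_lt (pred_B_lt hy'))) j
      fun i _ => hj i
    exact ⟨J, hJ, fun x i c ⟨a, ha, h⟩ => (hj' a ha x i c h).trans (H a ha)⟩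

/-- Extension of the upper part only. -/
def PredR (y : Od) (σ' σ : C.Po) : Prop :=
  σ'.r = σ.r ∧ σ.t ⊆ σ'.t ∧ ∀ z ∈ σ'.t, z.1 < y → z ∈ σ.t

theorem predR_refl (y : Od) (σ : C.Po) : PredR y σ σ := ⟨rfl, subset_rfl, fun _ h _ => h⟩

theorem predR_trans {a b c : C.Po} (h : PredR y a b) (h' : PredR y b c) : PredR y a c :=
  ⟨h.1.trans h'.1, h'.2.1.trans h.2.1, fun z hz hy => h'.2.2 z (h.2.2 z hz hy) hy⟩

theorem predR_le (h : PredR y σ π) : σ ≤ π := le_of_sub (h.1 ▸ pred_refl σ) h.2.1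

theorem predR_lb (hy : C.Lev y) (hν : ν.card ≤ C.B y) (f : Od → C.Po)
    (hf : ∀ i < ν, PredR y (f i) π) (hm : ∀ i j, i ≤ j → j < ν → PredR y (f j) (f i)) :
    ∃ u, ∀ i < ν, PredR y u (f i) := by
  refine ⟨⟨π.r, _, π.hr, tv_chain (pred_lev_le hy) hy.1 hν (fun i => (f i).t)
    (fun i _ => (f i).ht) fun i j h₁ h₂ => (hm i j h₁ h₂).2⟩, fun i hi =>
      ⟨(hf i hi).1.symm, fun z hz => ⟨i, hi, hz⟩, ?_⟩⟩
  rintro z ⟨j, hj, hz⟩ hzy
  exact (hf i hi).2.1 ((hf j hj).2.2 z hz hzy)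

theorem pred_fill (h : ρ ≤ σ) (y : Od) : ∃ σ', PredR y σ' σ ∧ glue y ρ σ' ≤ ρ := by
  have ht : C.TV (σ.t ∪ {z | z ∈ ρ.t ∧ y ≤ z.1 ∧ ∀ c, (z.1, z.2.1, c) ∉ σ.t}) := by
    refine ⟨fun x i c hz => hz.elim (σ.ht.rng x i c) fun hz => ρ.ht.rng x i c hz.1, ?_,
      fun x => ?_, ?_⟩
    · rintro x i c c' (h₁ | h₁) (h₂ | h₂)
      · exact σ.ht.fn x i c c' h₁ h₂
      · exact absurd h₁ (h₂.2.2 c)
      · exact absurd h₂ (h₁.2.2 c')
      · exact ρ.ht.fn x i c c' h₁.1 h₂.1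
    · obtain ⟨j, hj, H⟩ := σ.ht.dom x
      obtain ⟨j', hj', H'⟩ := ρ.ht.dom x
      exact ⟨max j j', max_lt hj hj', fun i c hz => hz.elim
        (fun hz => lt_max_of_lt_left (H i c hz)) fun hz => lt_max_of_lt_right (H' i c hz.1)⟩
    · obtain ⟨j, hj, H⟩ := σ.ht.supp
      obtain ⟨j', hj', H'⟩ := ρ.ht.supp
      exact ⟨max j j', max_lt hj hj', fun x i c hz => hz.elim
        (fun hz => lt_max_of_lt_left (H x i c hz)) fun hz => lt_max_of_lt_right (H' x i c hz.1)⟩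
  refine ⟨⟨σ.r, _, σ.hr, ht⟩, ⟨rfl, subset_union_left, ?_⟩, pred_refl ρ, fun x i c hz => ?_⟩
  · rintro z (hz | hz) hzy
    · exact hz
    · exact absurd hzy (not_lt.2 hz.2.1)
  · rcases lt_or_ge x y with hx | hx
    · exact ⟨c, Or.inl ⟨hz, hx⟩, eqv_refl ρ.hr _⟩
    · by_cases e : ∃ c₀, (x, i, c₀) ∈ σ.t
      · obtain ⟨c₀, h₀⟩ := e
        obtain ⟨c', h₁, h₂⟩ := h.2 x i c₀ h₀
        obtain rfl := ρ.ht.fn x i c c' hz h₁
        exact ⟨c₀, Or.inr ⟨Or.inl h₀, hx⟩, eqv_symm h₂⟩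
      · exact ⟨c, Or.inr ⟨Or.inr ⟨hz, hx, fun c₀ h₀ => e ⟨c₀, h₀⟩⟩, hx⟩, eqv_refl ρ.hr _⟩

theorem pred_enum (hy : C.Lev y) (hν : ν.card ≤ C.B y) : ∃ e : Od → Od × C.Po,
    ∀ i < ν, ∀ s ∈ C.Low y, ∃ k < (C.B y).ord, e k = (i, s) := by
  have : Nonempty (Od × C.Po) := ⟨(0, ⊤)⟩
  obtain ⟨e, he⟩ := exists_enum_of_le (S := Iio ν ×ˢ C.Low y) (c := C.B y) (by
    rw [Cardinal.mk_setProd, Cardinal.mk_Iio_ordinal]
    exact Cardinal.mul_le_of_le (Cardinal.aleph0_le_lift.2 (C.bf.aleph0_le y))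
      (Cardinal.lift_le.2 hν) (card_low hy))
  exact ⟨e, fun i hi s hs => he (i, s) ⟨hi, hs⟩⟩

/-- Reduction of open sets to the part below a level. -/
theorem redx (hy : C.Lev y) (hν : ν.card ≤ C.B y) (D : Od → C.Po → Prop)
    (hD : ∀ i p q, D i p → q ≤ p → D i q) (π : C.Po) :
    ∃ σ : C.Po, σ.r = π.r ∧ π.t ⊆ σ.t ∧ (∀ z ∈ σ.t, z.1 < y → z ∈ π.t) ∧
      ∀ i < ν, ∀ ρ ≤ σ, D i ρ → D i (glue y ρ σ) := by
  obtain ⟨e, he⟩ := pred_enum hy hν
  obtain ⟨f, hf, hm⟩ := exists_chain (PredR y) π (C.B y).ord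
    (fun k s => D (e k).1 (glue y (e k).2 s) ∨ ∀ s', PredR y s' s → ¬ D (e k).1 (glue y (e k).2 s'))
    (fun s _ => predR_refl y s) (predR_refl y π) (fun _ _ _ => predR_trans)
    (fun ν' h₁ _ f h₂ h₃ => predR_lb hy (lt_ord.1 h₁).le f h₂ h₃) (fun k _ s _ => by
      by_cases h : ∃ s', PredR y s' s ∧ D (e k).1 (glue y (e k).2 s')
      · obtain ⟨s', h₁, h₂⟩ := h
        exact ⟨s', h₁, Or.inl h₂⟩
      · exact ⟨s, predR_refl y s, Or.inr fun s' h₁ h₂ => h ⟨s', h₁, h₂⟩⟩)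
  obtain ⟨σ, hσ⟩ := predR_lb hy (card_ord _).le f (fun i hi => (hf i hi).1) hm
  have h0 : (0 : Od) < (C.B y).ord := (isSuccLimit_ord (C.bf.aleph0_le y)).pos
  obtain ⟨k₁, k₂, k₃⟩ := predR_trans (hσ 0 h0) (hf 0 h0).1
  refine ⟨σ, k₁, k₂, k₃, fun i hi ρ hρ hi' => ?_⟩
  obtain ⟨k, hk, ek⟩ := he i hi _ (glue_top_mem y ρ)
  have H := (hf k hk).2
  simp only [ek, glue_glue] at H
  rcases H with H | H
  · refine hD i _ _ H (le_of_sub (pred_refl ρ) ?_)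
    rintro z (hz | hz)
    · exact Or.inl hz
    · exact Or.inr ⟨(hσ k hk).2.1 hz.1, hz.2⟩
  · obtain ⟨σ', h₁, h₂⟩ := pred_fill hρ y
    exact absurd (hD i _ _ hi' h₂) (H σ' (predR_trans h₁ (hσ k hk)))

instance : Tame C.Po where
  tame := by
    intro I hI
    obtain ⟨c, hc, e⟩ := Cardinal.lt_lift_iff.1 hI.out
    obtain ⟨y, hy, hcy, -⟩ := exists_lev (C := C) (x := 0) hc C.th_inac.isSuccLimit.pos
    refine ⟨C.Low y, sm_low hy, fun D hD hd p => ?_⟩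
    rcases isEmpty_or_nonempty I with h | h
    · exact ⟨p, le_rfl, fun i => h.elim i⟩
    obtain ⟨g, hg⟩ := exists_enum_of_le (S := (univ : Set I)) (c := c) (by
      rw [Cardinal.mk_univ, e])
    obtain ⟨σ, h₁, h₂, h₃, H⟩ := redx hy (ν := c.ord) ((card_ord c).le.trans hcy)
      (fun j => D (g j)) (fun j => hD (g j)) p
    refine ⟨σ, predR_le (y := y) ⟨h₁, h₂, h₃⟩, fun i r hr => ?_⟩
    obtain ⟨j, hj, rfl⟩ := hg i (mem_univ i)
    obtain ⟨r', k₁, k₂⟩ := hd (g j) r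
    exact ⟨_, glue_top_mem y r', _, H j hj r' (k₁.trans hr) k₂, meet_glue (k₁.trans hr) y, r', k₁,
      (le_glue (k₁.trans hr) y).1⟩

theorem pred_red (hy : C.Lev y) (hν : ν.card ≤ C.B y) {Z : Od → Od → C.Po → Prop}
    (hZ : ZF π ν τ Z) : ∃ σ ≤ π, σ.r = π.r ∧
      ∀ i < ν, ∀ r ≤ σ, ∃ ρ ≤ r, ∃ ζ < τ, Z i ζ (glue y ρ σ) := by
  obtain ⟨σ, h₁, h₂, h₃, H⟩ := redx hy hν (fun i ρ => ρ ≤ π ∧ ∃ ζ < τ, Z i ζ ρ)
    (fun i p q ⟨k₁, ζ, k₂, k₃⟩ k => ⟨k.trans k₁, ζ, k₂, hZ.mono i ζ ζ p q k₁ k₃ k le_rfl⟩) π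
  have hσ : σ ≤ π := predR_le (y := y) ⟨h₁, h₂, h₃⟩
  refine ⟨σ, hσ, h₁, fun i hi r hr => ?_⟩
  obtain ⟨ρ, k₁, k₂⟩ := hZ.dense i hi r (hr.trans hσ)
  exact ⟨ρ, k₁, (H i hi ρ (k₁.trans hr) ⟨(k₁.trans hr).trans hσ, k₂⟩).2⟩

theorem pred_glue_kap (h : C.LeT C.kap ρ.r σ.r) : glue C.kap ρ σ = setR σ ρ.r h := by
  refine Po.ext rfl (Set.ext fun z => ⟨?_, fun hz => Or.inr ⟨hz, (σ.ht.rng _ _ _ hz).1⟩⟩)
  rintro (hz | hz)
  · exact absurd hz.2 (not_lt.2 (ρ.ht.rng _ _ _ hz.1).1)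
  · exact hz.1

theorem bnd_R (hν : ν ≤ C.kap) (h : C.BndR C.kap π.r ν τ) : Bnd π ν τ := by
  intro p hp Z hZ
  obtain ⟨σ, hσ, e, H⟩ := pred_red C.pred_lev_kap ((card_le_card hν).trans (C.bf.card_le _)) hZ
  obtain ⟨q, hq, ζ, hζ, K⟩ := h σ.r (e ▸ hp.1)
    (fun i ζ r => ∃ h : C.LeT C.kap r σ.r, Z i ζ (setR σ r h))
    ⟨fun i ζ ζ' r r' _ ⟨k₁, k₂⟩ k₃ k₄ => ⟨leT_trans k₃ k₁, hZ.mono i ζ ζ' _ _
        ((setR_le σ r k₁).trans hσ) k₂ (le_of_sub k₃ subset_rfl) k₄⟩,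
      fun i ζ r hr hro => ⟨hr, hZ.reg i ζ _ ((setR_le σ r hr).trans hσ) fun r' hr' => by
        obtain ⟨r₂, k₁, k₂, k₃⟩ := hro r'.r hr'.1
        refine ⟨setR r' r₂ k₁, setR_le _ _ _, hZ.mono i ζ ζ _ _ ((setR_le σ r₂ k₂).trans hσ) k₃
          ⟨pred_refl (setR σ r₂ k₂), fun x j c hz => ?_⟩ le_rfl⟩
        obtain ⟨c', l₁, l₂⟩ := hr'.2 x j c hz
        exact ⟨c', l₁, eqv_mono l₂ k₁⟩⟩,
      fun i hi r hr => by
        obtain ⟨ρ, k₁, ζ, k₂, k₃⟩ := H i hi _ (setR_le σ r hr)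
        have k₄ : C.LeT C.kap ρ.r σ.r := leT_trans k₁.1 hr
        rw [pred_glue_kap k₄] at k₃
        exact ⟨ρ.r, k₁.1, ζ, k₂, k₄, k₃⟩⟩
  exact ⟨setR σ q hq, (setR_le σ q hq).trans hσ, ζ, hζ, fun i hi => (K i hi).2⟩

theorem pred_bnd (hy : C.Lev y) (hν : ν.card ≤ C.B y) (hτ : Order.IsSuccLimit τ)
    (hc : C.B y < τ.cof) (π : C.Po) : Bnd π ν τ := by
  intro p _ Z hZ
  obtain ⟨σ, hσ, -, H⟩ := pred_red hy hν hZ
  obtain ⟨e, he⟩ := pred_enum hy hν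
  have hg : ∀ k, ∃ ζ < τ, (∃ ζ' < τ, Z (e k).1 ζ' (glue y (e k).2 σ)) →
      Z (e k).1 ζ (glue y (e k).2 σ) := by
    intro k
    by_cases h : ∃ ζ' < τ, Z (e k).1 ζ' (glue y (e k).2 σ)
    · obtain ⟨ζ, h₁, h₂⟩ := h
      exact ⟨ζ, h₁, fun _ => h₂⟩
    · exact ⟨0, hτ.pos, fun h' => absurd h' h⟩
  choose g hg hg' using hg
  obtain ⟨b, hb, K⟩ := bound_of_lt_cof (ν := (C.B y).ord) hτ ((card_ord _).trans_lt hc) g
    fun k _ => hg k
  refine ⟨σ, hσ, b, hb, fun i hi => hZ.reg i b σ hσ fun r hr => ?_⟩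
  obtain ⟨ρ, k₁, k₂⟩ := H i hi r hr
  obtain ⟨k, hk, ek⟩ := he i hi _ (glue_top_mem y ρ)
  have k₃ := hg' k
  simp only [ek, glue_glue] at k₃
  obtain ⟨l₁, l₂⟩ := le_glue (k₁.trans hr) y
  exact ⟨ρ, k₁, hZ.mono i _ b _ ρ (l₂.trans hσ) (k₃ k₂) l₁ (K k hk).le⟩

theorem bnd_T (hx : C.kap ≤ x) (hx' : x < C.th.ord) (hν : ν < (Order.succ (C.B x)).ord)
    (π : C.Po) : Bnd π ν (Order.succ (C.B x)).ord := by
  have h₁ : ν.card ≤ C.B x := Order.lt_succ_iff.1 (lt_ord.1 hν)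
  have h₂ := rf_succ_cof (C.bf.aleph0_le x)
  rcases hx.eq_or_lt with e | hlt
  · exact pred_bnd ⟨hx', Or.inl e.symm⟩ h₁ (C.pred_lim x) h₂ π
  rcases zero_or_succ_or_isSuccLimit x with e | ⟨z, e⟩ | hl
  · exact absurd (e ▸ hlt) (by simp)
  · exact pred_bnd ⟨hx', Or.inr ⟨hlt, z, e.symm⟩⟩ h₁ (C.pred_lim x) h₂ π
  refine bnd_sing (C.bf.aleph0_le x) (C.bf.singular hl (C.noin x hlt hx')) (fun ν' hν' => ?_) h₁
  obtain ⟨y, hy, k⟩ := C.bf.lt_limit hl hν'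
  have k₁ : max y C.kap < x := max_lt hy hlt
  refine pred_bnd (pred_lev_succ (le_max_right y _) (k₁.trans hx')) ((lt_ord.1 k).le.trans
    (C.bf.mono ((le_max_left _ _).trans (lt_add_one _).le))) (C.pred_lim x)
    ((C.bf.mono (hl.add_one_lt k₁).le).trans_lt h₂) π

theorem fr_R {Φ : Raw → Od → Od → Prop}
    (h : ∀ r r' a b, C.InR r → Φ r a b → C.LeT C.kap r' r → Φ r' a b) :
    FR (fun (ρ : C.Po) a b => Φ ρ.r a b) :=
  ⟨fun p q a b k₁ k₂ => h p.r q.r a b p.hr k₁ k₂.1, fun _ _ => ⟨C.Low C.kap, sm_low C.pred_lev_kap,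
    fun p _ _ _ _ k => ⟨_, glue_top_mem C.kap p, (le_glue le_top _).1, k⟩⟩⟩

theorem fr_sg (hx : C.kap ≤ x) (hx' : x < C.th.ord) :
    FR (fun (ρ : C.Po) i v => v < (C.B (x + 1)).ord ∧ Sg ρ x i v) := by
  refine ⟨fun p q a b ⟨k₁, c, k₂, k₃⟩ k => ?_, fun _ _ => ⟨C.Low (x + 1),
    sm_low (pred_lev_succ hx hx'), fun p _ _ _ _ ⟨k₁, c, k₂, k₃⟩ =>
      ⟨_, glue_top_mem (x + 1) p, (le_glue le_top _).1, k₁, c, Or.inl ⟨k₂, lt_add_one x⟩, k₃⟩⟩⟩
  obtain ⟨c', l₁, l₂⟩ := k.2 x a c k₂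
  exact ⟨k₁, c', l₁, eqv_trans (eqv_mono k₃ k.1) l₂⟩

theorem sg_fn {i v v' : Od} (h : Sg ρ x i v) (h' : Sg ρ x i v') : v = v' := by
  obtain ⟨c, h₁, h₂⟩ := h
  obtain ⟨c', h₃, h₄⟩ := h'
  obtain rfl := ρ.ht.fn x i c c' h₁ h₃
  obtain ⟨r', -, r₀, k, -⟩ :=
    (eqv_trans h₂ (eqv_symm h₄) ρ.r (pred_refl ρ) v).1 ⟨C.p0, rfl, ρ.hr⟩
  exact congrArg Prod.snd k

theorem sg_dense (hx : C.kap ≤ x) (hx' : x < C.th.ord) {v : Od} (hv : v < (C.B (x + 1)).ord)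
    (π : C.Po) : ∃ ρ ≤ π, ∃ i < (Order.succ (C.B x)).ord, Sg ρ x i v := by
  obtain ⟨c, hc, e⟩ := C.nm_surj x hx {(C.p0, v)} (by
      rintro r w h
      obtain ⟨rfl, rfl⟩ := Prod.mk.inj h
      exact ⟨pred_bdd C.inR_p0, hv⟩) (by
      rw [Cardinal.mk_singleton, Cardinal.one_le_lift_iff, Ordinal.one_le_card,
        Order.one_le_iff_pos]
      exact C.kin.isSuccLimit.pos)
  obtain ⟨j, hj, H⟩ := π.ht.dom x
  have ht : C.TV (insert (x, j, c) π.t) := by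
    refine ⟨?_, ?_, fun x' => ?_, ?_⟩
    · rintro x' i c' (h | h)
      · cases h
        exact ⟨hx, hc⟩
      · exact π.ht.rng _ _ _ h
    · rintro x' i c' c'' (h | h) (h' | h')
      · cases h
        cases h'
        rfl
      · cases h
        exact absurd (H _ _ h') (lt_irrefl _)
      · cases h'
        exact absurd (H _ _ h) (lt_irrefl _)
      · exact π.ht.fn _ _ _ _ h h'
    · by_cases e' : x' = x
      · subst e'
        refine ⟨j + 1, (C.pred_lim _).add_one_lt hj, ?_⟩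
        rintro i c' (h | h)
        · cases h
          exact lt_add_one _
        · exact (H _ _ h).trans (lt_add_one _)
      · obtain ⟨j', hj', H'⟩ := π.ht.dom x'
        refine ⟨j', hj', ?_⟩
        rintro i c' (h | h)
        · cases h
          exact absurd rfl e'
        · exact H' _ _ h
    · obtain ⟨y, hy, H'⟩ := π.ht.supp
      refine ⟨max y (x + 1), max_lt hy (C.th_inac.isSuccLimit.add_one_lt hx'), ?_⟩
      rintro x' i c' (h | h)
      · cases h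
        exact lt_max_of_lt_right (lt_add_one _)
      · exact lt_max_of_lt_left (H' _ _ _ h)
  exact ⟨⟨π.r, _, π.hr, ht⟩, le_of_sub (pred_refl π) (subset_insert _ _), j, hj, c,
    mem_insert _ _, e ▸ eqv_refl π.hr _⟩

end Ctx

end Pool.Agent.MP_85ce7b_lc

end
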