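import Pool.Agent.Mg.F85ce7b.G1aa576

section

namespace Pool.Agent.MP_85ce7b_lc

open Pool.Agent.MP_c6cf52_lc Name Set Cardinal Ordinal Dat

theorem Gen.card_of_lim_dense' {P : Type 2} [Sz P] [Preorder P] [OrderTop P] [Tame P] {g : Gen P}
    {p : P} {a : Od} (hp : p ∈ g.G) (ha : g.In a)
    (h : ∀ b < a, ∀ q ≤ p, ∃ r ≤ q, ∃ τ, b < τ ∧ τ ≤ a ∧
      ∀ g' : Gen P, r ∈ g'.G → g'.In τ → IsCard g'.E (g'.o τ)) : IsCard g.E (g.o a) := by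
  refine Gen.card_of_lim (Gen.isOrd_o ha) fun x hx => ?_
  obtain ⟨b, hb, hb', rfl⟩ := (Gen.E_o ha).1 hx
  refine Gen.dens_o (Ψ := fun _ E w => ∃ z, IsCard E z ∧ E (w 0) z ∧ Leq E z (w 1))
    (UDef.ex ((UD.isCard _).and ((UDef.mem _ _).and (UD.leq _ _)))) (Gen.l2 hb'.2 ha.2)
    fun p₁ hp₁ => ?_
  obtain ⟨q, -, q₁, q₂⟩ := g.dir hp₁ hp
  obtain ⟨r, hr, t, t₁, t₂, H⟩ := h b hb q q₂
  refine ⟨r, hr.trans q₁, ∅, {t}, countable_empty, countable_singleton _,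
    singleton_subset_iff.2 (t₂.trans_lt ha.1), fun g' hq' _ hS hl => ?_⟩
  have kt : g'.In t := hS t rfl
  have kb : g'.In b := ⟨hb'.1, hl _ (by simp)⟩
  have ka : g'.In a := ⟨ha.1, hl _ (by simp)⟩
  exact ⟨g'.o t, H g' hq' kt, (Gen.o_lt_iff kb kt).2 t₁, (Gen.o_leq_iff kt ka).2 t₂⟩

namespace Ctx

variable {C : Ctx} {g : Gen C.Po} {ρ : C.Po} {a e x y μ : Od}

theorem fc_scope (ρ : C.Po) : C.Scope C.kap ρ.r := (inR_scope ρ.hr).1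

theorem fc_lt (hx : x ∈ ρ.r.c) : x < C.kap :=
  rg_lt (fc_scope ρ) (inR_scope ρ.hr).2.1 hx

theorem fc_succ_le (C : Ctx) (x : Od) : (Order.succ (C.B x)).ord ≤ (C.B (x + 1)).ord :=
  ord_le_ord.2 (C.bf.succ_le (lt_add_one x))

theorem fc_lt_succ (C : Ctx) (x : Od) : (C.B x).ord < (Order.succ (C.B x)).ord :=
  ord_lt_ord.2 (Order.lt_succ _)

theorem fc_succ_kap (hx : x + 1 ∈ ρ.r.c) : (Order.succ (C.B x)).ord < C.kap :=
  (C.fc_succ_le x).trans_lt (C.bf.lt_inac C.kin (fc_lt hx))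

theorem fc_card_ge {k : Cardinal.{1}} (h : g.In a) (hc : IsCard g.E (g.o a)) (hk : k.ord < a) :
    (Order.succ k).ord ≤ a := by
  rw [← Gen.ground_card h hc] at hk ⊢
  exact ord_le_ord.2 (Order.succ_le_of_lt (ord_lt_ord.1 hk))

theorem spec_dense {t b : Od} {r : Raw} (hr : C.Scope t r) (hμ : Spec r μ) (ht : μ ≤ t)
    (hb : b < μ) : ∃ r' x, C.LeT t r' r ∧ b < x ∧ x + 1 < μ ∧ Good r' x ∧ x + 1 ∈ r'.c := by
  obtain ⟨hi, -, hs⟩ := spec_inac hr.v hμ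
  obtain ⟨L, hL⟩ := hμ
  have hZ := (C.good μ hs).w2 (fun b => ∃ y, y + 1 ∈ b.c ∧ y + 1 + 1 ∈ b.c)
    (fun b hb => by
      obtain ⟨k₁, k₂, k₃⟩ := blk_scope hb hi
      have hn : μ ∉ b.c := fun h => lt_irrefl μ (k₃ h)
      obtain ⟨y, -, hyt, hc, hb'⟩ := exists_room k₁ hn k₂
      have h1 : y + 1 + 1 < μ := hi.isSuccLimit.add_one_lt (hi.isSuccLimit.add_one_lt hyt)
      have h2 : y ≤ y + 1 := (lt_add_one y).le
      have h3 : y + 1 ≤ y + 1 + 1 := (lt_add_one _).le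
      refine ⟨_, add_itv k₁ hn (h2.trans h3) h1 hc hb' (fun z k1 k2 k3 => ?_) _ hb.nxt, y,
        rb5x_cat_c.2 (Or.inr ⟨h2, h3⟩), rb5x_cat_c.2 (Or.inr ⟨h2.trans h3, le_rfl⟩)⟩
      rcases le_or_gt z (y + 1) with k | k
      · exact absurd k3 (rb5x_between k1 k)
      · exact absurd k3 (rb5x_between k k2))
    (fun b b' _ h ⟨y, h₁, h₂⟩ => ⟨y, h.1.d.c h₁, h.1.d.c h₂⟩)
  obtain ⟨ξ, hξ, ⟨y, h₁, h₂⟩, hlt, hb'⟩ := exists_ins hr.v hL hb hZ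
  have hle : C.LeT t (ins r μ (C.dec ξ) (sec L.F ξ)) r := leT_of_ins hr ⟨L, ξ, hL, hξ, hb', rfl⟩ ht
  obtain ⟨-, g2, -⟩ := r5a_pos hr.v ⟨L, hL⟩ hb'
  exact ⟨_, y + 1, hle, hlt.trans_le (g2 _ h₁).1, (g2 _ h₂).2,
    rf_good (le_valid hle.le) (rb2_ins_c.2 (Or.inr h₁)), rb2_ins_c.2 (Or.inr h₂)⟩

theorem reg_succ_pt (hρ : ρ ∈ g.G) (hx : Good0 ρ.r x ∨ Spec ρ.r x) (hx' : x + 1 ∈ ρ.r.c)
    (h : g.In (Order.succ (C.B x)).ord) : IsReg g.E (g.o (Order.succ (C.B x)).ord) := by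
  refine Gen.reg_of_bnd hρ h (C.pred_lim x) fun ν hν => bnd_R (hν.trans (fc_succ_kap hx')).le ?_
  rcases hx with hx | hx
  · exact bnd_succ (fc_scope ρ) hx hx' (fc_lt hx').le hν
  · exact bnd_spec (fc_scope ρ) hx hx' (fc_lt hx').le hν

theorem reg_succ_lim (hρ : ρ ∈ g.G) (hi : Intv ρ.r a (x + 1)) (ha : a < x)
    (hx : Order.IsSuccLimit x) (hn : ¬ Inac x) (h : g.In (Order.succ (C.B x)).ord) :
    IsReg g.E (g.o (Order.succ (C.B x)).ord) := by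
  have hx' : x + 1 ∈ ρ.r.c := hi.1 ⟨(ha.trans (lt_add_one x)).le, le_rfl⟩
  refine Gen.reg_of_bnd hρ h (C.pred_lim x) fun ν hν => ?_
  refine bnd_sing (C.bf.aleph0_le x) (C.bf.singular hx hn) (fun ν' hν' => ?_)
    (Order.lt_succ_iff.1 (Cardinal.lt_ord.1 hν))
  exact bnd_R ((hν'.trans (C.fc_lt_succ x)).trans (fc_succ_kap hx')).le
    (bnd_lim (fc_scope ρ) hi ha (fc_lt hx').le hx hν')

theorem reg_inac (hρ : ρ ∈ g.G) (hi : Intv ρ.r a (x + 1)) (ha : a < x) (hx : Inac x)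
    (h : g.In x) : IsReg g.E (g.o x) := by
  have hx' : x + 1 ∈ ρ.r.c := hi.1 ⟨(ha.trans (lt_add_one x)).le, le_rfl⟩
  exact Gen.reg_of_bnd hρ h hx.isSuccLimit fun ν hν =>
    bnd_R ((hν.trans (lt_add_one x)).trans (fc_lt hx')).le
      (bnd_inac (fc_scope ρ) hi ha (fc_lt hx').le hx hν)

theorem card_lim_int (hρ : ρ ∈ g.G) (hi : Intv ρ.r a x) (ha : a < x) (hx : Order.IsSuccLimit x)
    (h : g.In (C.B x).ord) : IsCard g.E (g.o (C.B x).ord) := by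
  refine Gen.card_of_lim_dense hρ h fun b hb => ?_
  obtain ⟨y, hy, hby⟩ := C.bf.lt_limit hx hb
  have h1 : max y a + 1 < x := hx.add_one_lt (max_lt hy ha)
  have h2 : max y a + 1 + 1 < x := hx.add_one_lt h1
  have h3 : a ≤ max y a + 1 := (le_max_right y a).trans (lt_add_one _).le
  have h4 : max y a + 1 ∈ ρ.r.c := hi.1 ⟨h3, h1.le⟩
  have h5 : max y a + 1 + 1 ∈ ρ.r.c := hi.1 ⟨h3.trans (lt_add_one _).le, h2.le⟩
  refine ⟨(Order.succ (C.B (max y a + 1))).ord, ?_, (C.fc_succ_le _).trans (rf_ord_mono h2.le),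
    fun g' hg hi' => (reg_succ_pt hg (Or.inl (Or.inl (rf_good (fc_scope ρ).v h4))) h5 hi').1⟩
  exact (hby.trans_le (rf_ord_mono ((le_max_left y a).trans (lt_add_one _).le))).trans
    (C.fc_lt_succ _)

theorem fc_spec_le {q : C.Po} (hq : q ≤ ρ) (hμ : Spec ρ.r μ) : Spec q.r μ :=
  (le_spec_iff hq.1.le (spec_mem (fc_scope ρ).v hμ)).2 hμ

theorem card_spec (hρ : ρ ∈ g.G) (hμ : Spec ρ.r μ) (h : g.In μ) : IsCard g.E (g.o μ) := by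
  have hk : μ ≤ C.kap := (fc_lt (spec_mem (fc_scope ρ).v hμ)).le
  refine Gen.card_of_lim_dense' hρ h fun b hb q hq => ?_
  obtain ⟨r', x, k₁, k₂, k₃, k₄, k₅⟩ := spec_dense (fc_scope q) (fc_spec_le hq hμ) hk hb
  refine ⟨setR q r' k₁, setR_le q r' k₁, (Order.succ (C.B x)).ord,
    (k₂.trans_le (C.bf.le_ord x)).trans (C.fc_lt_succ x),
    ((C.fc_succ_le x).trans_lt (C.bf.lt_inac (spec_inac (fc_scope ρ).v hμ).1 k₃)).le,
    fun g' hg hi' => (reg_succ_pt hg (Or.inl (Or.inl k₄)) k₅ hi').1⟩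

theorem fc_rank_lt {S : Set Od} (hS : S.Finite) {v v' : Od} (hv : v ∈ S) (h : v < v') :
    (S ∩ Iio v).ncard < (S ∩ Iio v').ncard :=
  ncard_lt_ncard ⟨fun _ hz => ⟨hz.1, lt_trans hz.2 h⟩,
    fun hs => lt_irrefl v (hs ⟨hv, h⟩).2⟩ (hS.inter_of_left _)

theorem cof_spec (hρ : ρ ∈ g.G) (hμ : Spec ρ.r μ) (h : g.In μ) :
    ∃ f, Fnl g.E f ∧ CofMap g.E f g.om (g.o μ) := by
  have hk : μ ≤ C.kap := (fc_lt (spec_mem (fc_scope ρ).v hμ)).le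
  rw [← Gen.o_omega]
  refine Gen.cofMap_dense (fr_R (C := C) (Φ := fun r i z => ∃ L, r.l μ = some L ∧ z ∈ L.s ∧
    i = ((L.s ∩ Iio z).ncard : Od)) ?_) hρ h g.in_omega ?_ ?_
  · rintro r r' i z - ⟨L, h₁, h₂, h₃⟩ hr
    obtain ⟨L', k₁, -⟩ := le_l1 hr.le h₁
    obtain ⟨k₂, -, k₃⟩ := s_rank hr.le h₁ k₁ h₂
    exact ⟨L', k₁, k₂, by rw [k₃]; exact h₃⟩
  · rintro q - i v v' ⟨L, h₁, h₂, h₃⟩ ⟨L', k₁, k₂, k₃⟩
    obtain rfl : L = L' := Option.some.inj (h₁.symm.trans k₁)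
    have hf := ((fc_scope q).v.sp μ L h₁).fin
    have he : (L.s ∩ Iio v).ncard = (L.s ∩ Iio v').ncard := by
      exact_mod_cast h₃.symm.trans k₃
    rcases lt_trichotomy v v' with hv | hv | hv
    · exact absurd he (fc_rank_lt hf h₂ hv).ne
    · exact hv
    · exact absurd he (fc_rank_lt hf k₂ hv).ne'
  · intro v hv q hq
    obtain ⟨r', k₁, L, k₂, z, k₃, k₄⟩ := s_dense (fc_scope q) (fc_spec_le hq hμ) hk hv
    exact ⟨setR q r' k₁, setR_le q r' k₁, _, Ordinal.natCast_lt_omega0 _, z,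
      (s_rank (le_refl' (le_valid k₁.le)) k₂ k₂ k₃).2.1, k₄.le, L, k₂, k₃, rfl⟩

theorem not_reg_spec (hρ : ρ ∈ g.G) (hμ : Spec ρ.r μ) (h : g.In μ) : ¬ IsReg g.E (g.o μ) := by
  obtain ⟨f, f₁, f₂⟩ := cof_spec hρ hμ h
  refine Gen.not_reg_of_cof ?_ f₁ f₂
  rw [← Gen.o_omega]
  exact (Gen.o_lt_iff g.in_omega h).2 (spec_inac (fc_scope ρ).v hμ).1.omega_lt

theorem reg_T (hx : C.kap ≤ x) (h : g.In (Order.succ (C.B x)).ord) :
    IsReg g.E (g.o (Order.succ (C.B x)).ord) := by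
  have hx' : x < C.th.ord := ((C.bf.le_ord x).trans_lt (C.fc_lt_succ x)).trans h.1
  exact Gen.reg_of_bnd g.top h (C.pred_lim x) fun ν hν => bnd_T hx hx' hν ⊤

theorem reg_cc {k : Cardinal.{1}} (hk : k.IsRegular) (h₁ : 2 ^ C.B C.s < k)
    (h₂ : k ≤ C.B (C.s + 1)) (h : g.In k.ord) : IsReg g.E (g.o k.ord) := by
  refine Gen.reg_of_bnd g.top h (Cardinal.isSuccLimit_ord hk.aleph0_le) fun ν hν => ?_
  exact bnd_R ((hν.trans_le (ord_le_ord.2 h₂)).trans (C.bf.lt_inac C.kin C.s_lt)).le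
    (bnd_cc (fc_scope ⊤) (inR_scope (⊤ : C.Po).hr).2.2.1 C.s_lt.le hk h₁ h₂ hν)

theorem collapse_T (hx : C.kap ≤ x) (h₁ : (Order.succ (C.B x)).ord < a)
    (h₂ : a ≤ (C.B (x + 1)).ord) (h : g.In a) : ¬ IsCard g.E (g.o a) := by
  have hx' : x < C.th.ord := (((C.bf.le_ord x).trans_lt (C.fc_lt_succ x)).trans h₁).trans h.1
  refine Gen.not_card_dense (fr_sg hx hx') g.top h h₁
    (fun _ _ _ _ _ k₁ k₂ => sg_fn k₁.2 k₂.2) fun v hv q _ => ?_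
  obtain ⟨r, k₁, i, k₂, k₃⟩ := sg_dense hx hx' (hv.trans_le h₂) q
  exact ⟨r, k₁, i, k₂, hv.trans_le h₂, k₃⟩

theorem fc_fr (C : Ctx) (x : Od) : FR (fun (ρ : C.Po) i v => (i, v) ∈ ρ.r.h x) :=
  fr_R (C := C) (Φ := fun r i v => (i, v) ∈ r.h x) fun _ _ _ _ _ h hr => le_h hr.le x h

theorem collapse_adj (hρ : ρ ∈ g.G) (hxy : Adj ρ.r x y) (hx : x ≠ C.s)
    (h₁ : (Order.succ (C.B x)).ord < a) (h₂ : a ≤ (C.B y).ord) (h : g.In a) :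
    ¬ IsCard g.E (g.o a) := by
  refine Gen.not_card_dense (C.fc_fr x) hρ h h₁
    (fun q _ _ _ _ k₁ k₂ => ((fc_scope q).v.col x).fn _ _ _ k₁ k₂) fun v hv q hq => ?_
  obtain ⟨r', k₁, i, k₂⟩ := col_dense (fc_scope q) (le_adj hq.1.le hxy) hx (fc_lt hxy.2.1).le
    (hv.trans_le h₂)
  have k₃ := ((le_valid k₁.le).col x).dom _ _ k₂
  rw [Dat.dm, if_neg hx] at k₃
  exact ⟨setR q r' k₁, setR_le q r' k₁, i, k₃, k₂⟩

theorem collapse_s (h₁ : (Order.succ (C.B C.s)).ord < a)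
    (h₂ : a ≤ ((2 : Cardinal.{1}) ^ C.B C.s).ord) (h : g.In a) : ¬ IsCard g.E (g.o a) := by
  refine Gen.not_card_dense (C.fc_fr C.s) g.top h h₁
    (fun q _ _ _ _ k₁ k₂ => ((fc_scope q).v.col C.s).fn _ _ _ k₁ k₂) fun v hv q _ => ?_
  obtain ⟨r', k₁, i, k₂, k₃⟩ := col_s_dense (fc_scope q) (inR_scope q.hr).2.2.1 C.s_lt.le
    (hv.trans_le h₂)
  exact ⟨setR q r' k₁, setR_le q r' k₁, i, k₂, k₃⟩

theorem card_adj (hρ : ρ ∈ g.G) (hxy : Adj ρ.r x y) (hx : x ≠ C.s) (h₁ : (C.B x).ord < a)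
    (h₂ : a ≤ (C.B y).ord) (h : g.In a) (hc : IsCard g.E (g.o a)) :
    a = (Order.succ (C.B x)).ord := by
  rcases (fc_card_ge h hc h₁).eq_or_lt with he | hl
  · exact he.symm
  · exact absurd hc (collapse_adj hρ hxy hx hl h₂ h)

theorem fc_card_s (h₁ : C.s < a) (h₂ : a < (C.B (C.s + 1)).ord) (h : g.In a)
    (hc : IsCard g.E (g.o a)) : a ∈ ({(Order.succ (C.B C.s)).ord,
      (Order.succ ((2 : Cardinal.{1}) ^ C.B C.s)).ord,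
      (Order.succ (Order.succ ((2 : Cardinal.{1}) ^ C.B C.s))).ord} : Set Od) := by
  rcases (fc_card_ge (k := C.B C.s) h hc (by rwa [C.s_fix])).eq_or_lt with he | hl
  · exact Or.inl he.symm
  rcases le_or_gt a ((2 : Cardinal.{1}) ^ C.B C.s).ord with k | k
  · exact absurd hc (collapse_s hl k h)
  rcases (fc_card_ge h hc k).eq_or_lt with he | k₁
  · exact Or.inr (Or.inl he.symm)
  rcases (fc_card_ge h hc k₁).eq_or_lt with he | k₂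
  · exact Or.inr (Or.inr he.symm)
  rw [C.bf.succ_s] at h₂
  exact absurd (fc_card_ge h hc k₂) (not_le.2 h₂)

/-- The weakly inaccessible cardinals of the model below `κ`. -/
theorem key (h₁ : ω < a) (h₂ : a < C.kap) (ha : g.In a)
    (h : ¬ Inac a ∨ (C.s < a ∧ SI C.al a)) :
    ¬ (IsReg g.E (g.o a) ∧ Lim g.E (IsReg g.E) (g.o a)) := by
  refine Gen.dens_o (Ψ := fun _ E w => ¬ (IsReg E (w 0) ∧ Lim E (IsReg E) (w 0)))
    ((UD.isReg _).and (Gen.nbnd_lim _)).not (Gen.l1 ha.2) fun p _ => ?_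
  obtain ⟨q, hq, H⟩ := key_dense (fc_scope p) (inR_scope p.hr).2.1 (inR_scope p.hr).2.2.1 h₁ h₂ h
  refine ⟨setR p q hq, setR_le p q hq, ∅, ∅, countable_empty, countable_empty, empty_subset _,
    fun g' hq' _ _ hl => ?_⟩
  have ha' : g'.In a := ⟨ha.1, hl _ (by simp)⟩
  rintro ⟨k₁, k₂⟩
  rcases H with ⟨x, y, m₁, m₂, m₃, m₄⟩ | ⟨m₁, m₂⟩ | m₁ | m₁
  · exact Gen.lim_reg_many ha' k₂ m₃ {(Order.succ (C.B x)).ord} (finite_singleton _)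
      (fun g'' hp z z₁ z₂ z₃ z₄ => card_adj hp m₁ m₂ z₁ (z₂.le.trans m₄) z₃ z₄) hq'
  · exact Gen.lim_reg_many ha' k₂ m₁ _ (toFinite _)
      (fun g'' _ z z₁ z₂ z₃ z₄ => fc_card_s z₁ (z₂.trans_le m₂) z₃ z₄) hq'
  · exact not_reg_spec hq' m₁ ha' k₁
  · exact Gen.not_reg_ground ha' m₁ k₁

theorem card_above (h₁ : C.kap < a) (ha : g.In a) (h : IsCard g.E (g.o a)) :
    (∃ z, C.kap ≤ z ∧ a = (Order.succ (C.B z)).ord) ∨
      ∃ z, C.kap < z ∧ Order.IsSuccLimit z ∧ a = (C.B z).ord := by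
  obtain ⟨z, k₁, k₂⟩ := C.bf.exists_index (C.kin.omega_lt.trans h₁).le
  have hz : C.kap ≤ z := not_lt.1 fun hz =>
    lt_asymm h₁ (k₂.trans (C.bf.lt_inac C.kin (C.kin.isSuccLimit.add_one_lt hz)))
  rcases k₁.eq_or_lt with he | hl
  · have hz' : C.kap < z := by
      refine hz.lt_of_ne fun e => ?_
      rw [← e, C.bf.inac_eq C.kin] at he
      exact h₁.ne he
    rcases Ordinal.zero_or_succ_or_isSuccLimit z with rfl | ⟨w, rfl⟩ | hlim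
    · exact absurd hz' (not_lt.2 zero_le)
    · have hw : C.kap ≤ w := Order.lt_succ_iff.1 hz'
      rw [Order.succ_eq_add_one] at he
      rcases ((C.fc_succ_le w).trans he.le).eq_or_lt with e | e
      · exact Or.inl ⟨w, hw, e.symm⟩
      · exact absurd h (collapse_T hw e he.ge ha)
    · exact Or.inr ⟨z, hz', hlim, he.symm⟩
  · rcases (fc_card_ge ha h hl).eq_or_lt with e | e
    · exact Or.inl ⟨z, hz, e.symm⟩
    · exact absurd h (collapse_T hz e k₂.le ha)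

end Ctx

end Pool.Agent.MP_85ce7b_lc

end

section

namespace Pool.Agent.MP_85ce7b_lc

open Pool.Agent.MP_c6cf52_lc Name Set Cardinal Ordinal Dat

namespace Gen

variable {P : Type 2} [Sz P] [Preorder P] [OrderTop P] [Tame P] {g : Gen P} {β x y : Od}

theorem freg_wit (hβ : β < ω₁) (hb : g.In β) (hy : g.In y) (hx : g.In x)
    (H : ∀ p ∈ g.G, ∃ q ≤ p, ∃ z, y < z ∧ z < x ∧
      ∀ g' : Gen P, q ∈ g'.G → g'.In β → g'.In z → RegGe g'.E β (g'.o z)) :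
    ∃ z, g.E z (g.o x) ∧ g.E (g.o y) z ∧ RegGe g.E β z := by
  have h := dens_o (g := g)
    (Ψ := fun _ E w => ∃ z, E z (w 2) ∧ E (w 1) z ∧ RegGeI E (w 0) z)
    (UDef.ex ((UDef.mem 0 3).and ((UDef.mem 2 0).and (UD.regGeI 1 0))))
    (l3 hb.2 hy.2 hx.2) (fun p hp => by
      obtain ⟨q, hq, z, h₁, h₂, h₃⟩ := H p hp
      refine ⟨q, hq, ∅, {z}, countable_empty, countable_singleton z,
        singleton_subset_iff.2 (h₂.trans hx.1), fun g' k₁ _ k₂ k₃ => ?_⟩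
      have e₁ : g'.In β := ⟨hb.1, k₃ _ (by simp)⟩
      have e₂ : g'.In y := ⟨hy.1, k₃ _ (by simp)⟩
      have e₃ : g'.In x := ⟨hx.1, k₃ _ (by simp)⟩
      have e₄ : g'.In z := k₂ z rfl
      exact ⟨g'.o z, (o_lt_iff e₄ e₃).2 h₂, (o_lt_iff e₂ e₄).2 h₁,
        (regGeI_iff (rep_o e₁ hβ)).2 (h₃ g' k₁ e₁ e₄)⟩)
  obtain ⟨z, h₁, h₂, h₃⟩ := h
  exact ⟨z, h₁, h₂, (regGeI_iff (rep_o hb hβ)).1 h₃⟩

theorem freg_lim (hβ : β < ω₁) (hb : g.In β) (hx : g.In x) (h0 : 0 < x)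
    (H : ∀ y < x, ∀ p ∈ g.G, ∃ q ≤ p, ∃ z, y < z ∧ z < x ∧
      ∀ g' : Gen P, q ∈ g'.G → g'.In β → g'.In z → RegGe g'.E β (g'.o z)) :
    Lim g.E (RegGe g.E β) (g.o x) := by
  have z : g.In 0 := by simpa using g.in_nat 0
  refine ⟨⟨g.o 0, (o_lt_iff z hx).2 h0⟩, fun u hu => ?_⟩
  obtain ⟨y, h₁, h₂, rfl⟩ := (E_o hx).1 hu
  exact freg_wit hβ hb h₂ hx (H y h₁)

theorem freg_not_lim (hβ : β < ω₁) (hb : g.In β) (hx : g.In x) (hy : y < x)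
    (H : ∀ g' : Gen P, g'.In β → ∀ z, y < z → z < x → g'.In z → ¬ RegGe g'.E β (g'.o z)) :
    ¬ Lim g.E (RegGe g.E β) (g.o x) := by
  have h := dens_o (g := g)
    (Ψ := fun _ E w => ¬ Lim E (fun z => RegGeI E (w 0) z) (w 1))
    (UD.limReg 0 1).not (l2 hb.2 hx.2) (fun p _ => by
      refine ⟨p, le_rfl, ∅, {y}, countable_empty, countable_singleton y,
        singleton_subset_iff.2 (hy.trans hx.1), fun g' _ _ k₂ k₃ k₄ => ?_⟩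
      have e₁ : g'.In β := ⟨hb.1, k₃ _ (by simp)⟩
      have e₂ : g'.In y := k₂ y rfl
      have e₃ : g'.In x := ⟨hx.1, k₃ _ (by simp)⟩
      obtain ⟨u, h₁, h₂, h₃⟩ := k₄.2 (g'.o y) ((o_lt_iff e₂ e₃).2 hy)
      obtain ⟨z, m₁, m₂, rfl⟩ := (E_o e₃).1 h₁
      exact H g' e₁ z ((o_lt_iff e₂ m₂).1 h₂) m₁ m₂ ((regGeI_iff (rep_o e₁ hβ)).1 h₃))
  rw [← regGeI_eq (rep_o hb hβ)]
  exact h

theorem freg_zero {u : g.M} (h : IsReg g.E u) : RegGe g.E 0 u :=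
  (regGe_def _ _ _).2 ⟨h, fun _ h' => absurd h' (not_lt.2 zero_le)⟩

theorem freg_ne (hx : g.In x) (h : ω < x) : g.o x ≠ g.om := fun e =>
  h.ne' (o_inj hx g.in_omega (e.trans g.o_omega.symm))

theorem freg_limReg {δ : Od} (h0 : 0 < δ) (hx : g.In x) (h : ω < x) (H : RegGe g.E δ (g.o x)) :
    IsReg g.E (g.o x) ∧ Lim g.E (IsReg g.E) (g.o x) := by
  obtain ⟨h₁, h₂⟩ := ((regGe_iff.1 H).2.resolve_left (freg_ne hx h)) 0 h0
  exact ⟨H.reg, h₁, fun y hy => let ⟨z, k₁, k₂, k₃⟩ := h₂ y hy; ⟨z, k₁, k₂, k₃.reg⟩⟩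

end Gen

theorem freg_intv {p : Raw} {a e e' : Od} (h : Intv p a e) (he : e' ≤ e) : Intv p a e' :=
  ⟨(Icc_subset_Icc_right he).trans h.1, fun z h₁ h₂ => h.2 z h₁ (h₂.trans he)⟩

theorem freg_omega1 {μ : Od} (h : Inac μ) : ω₁ ≤ μ := by
  obtain ⟨k, hk, rfl⟩ := h
  rw [← Cardinal.ord_aleph, Cardinal.ord_le_ord, ← Cardinal.succ_aleph0]
  exact Order.succ_le_of_lt hk.aleph0_lt

namespace Ctx

variable {C : Ctx}

theorem freg_lt (x : Od) : x < (Order.succ (C.B x)).ord :=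
  (C.bf.le_ord x).trans_lt (ord_lt_ord.2 (Order.lt_succ _))

theorem freg_lt' {x μ : Od} (h : Inac μ) (hx : x < μ) : (Order.succ (C.B x)).ord < μ :=
  (ord_le_ord.2 (C.bf.succ_le (lt_add_one x))).trans_lt
    (C.bf.lt_inac h (h.isSuccLimit.add_one_lt hx))

theorem regGe_of_si {δ : Od} (hδ : δ < ω₁) : ∀ {g : Gen C.Po} {ρ : C.Po} {a x : Od}, ρ ∈ g.G →
    Intv ρ.r a (x + 1) → a < x → g.In x → g.In δ → SI δ x → RegGe g.E δ (g.o x) := by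
  induction δ using WellFoundedLT.induction with
  | ind δ ih =>
    intro g ρ a x hρ hi ha hx hd hs
    have hI := hs.inac
    refine Gen.regGe_iff.2 ⟨reg_inac hρ hi ha hI hx, Or.inr fun β hβ => ?_⟩
    refine Gen.freg_lim (hβ.trans hδ) (Gen.in_of_countable hd hδ hβ) hx (zero_le.trans_lt ha)
      fun y hy p hp => ?_
    obtain ⟨q, -, h₁, h₂⟩ := g.dir hp hρ
    have m₁ : Max.max a y < x := max_lt ha hy
    rcases eq_zero_or_pos β with rfl | h0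
    · have m₂ : Max.max a y + 1 < x := hI.isSuccLimit.add_one_lt m₁
      have m₃ : a ≤ Max.max a y + 1 := (le_max_left a y).trans (lt_add_one _).le
      refine ⟨q, h₁, (Order.succ (C.B (Max.max a y + 1))).ord,
        ((le_max_right a y).trans_lt (lt_add_one _)).trans (freg_lt _), freg_lt' hI m₂,
        fun g' k₁ _ k₂ => Gen.freg_zero (reg_succ_pt (g'.up k₁ h₂) (Or.inl (Or.inl ?_)) ?_ k₂)⟩
      · exact rf_good (inR_scope ρ.hr).1.v (hi.1 ⟨m₃, (m₂.trans (lt_add_one x)).le⟩)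
      · exact hi.1 ⟨m₃.trans (lt_add_one _).le,
          ((Order.add_one_le_of_lt m₂).trans_lt (lt_add_one x)).le⟩
    · obtain ⟨z, k₁, k₂, k₃⟩ := (SI_iff.1 hs).2 β hβ h0 _ m₁
      exact ⟨q, h₁, z, (le_max_right a y).trans_lt k₁, k₂, fun g' n₁ n₂ n₃ =>
        ih β hβ (hβ.trans hδ) (g'.up n₁ h₂)
          (freg_intv hi ((Order.add_one_le_of_lt k₂).trans (lt_add_one x).le))
          ((le_max_left a y).trans_lt k₁) n₃ n₂ k₃⟩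

theorem si_of_regGe {δ : Od} (hδ : δ < ω₁) (h0 : 0 < δ) : ∀ {g : Gen C.Po} {x : Od}, ω < x →
    x < C.kap → g.In x → g.In δ → RegGe g.E δ (g.o x) → SI δ x := by
  induction δ using WellFoundedLT.induction with
  | ind δ ih =>
    intro g x h₁ h₂ hx hd h
    refine SI_iff.2 ⟨by_contra fun hn => key h₁ h₂ hx (Or.inl hn) (Gen.freg_limReg h0 hx h₁ h),
      fun β hβ hβ0 y hy => by_contra fun hn => ?_⟩
    refine Gen.freg_not_lim (hβ.trans hδ) (Gen.in_of_countable hd hδ hβ) hx (max_lt hy h₁)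
      (fun g' k₁ z k₂ k₃ k₄ k₅ => hn ⟨z, (le_max_left _ _).trans_lt k₂, k₃, ?_⟩)
      ((Gen.regGe_iff.1 h).2.resolve_left (Gen.freg_ne hx h₁) β hβ)
    exact ih β hβ (hβ.trans hδ) hβ0 ((le_max_right _ _).trans_lt k₂) (k₃.trans h₂) k₄ k₁ k₅

variable {g : Gen C.Po}

theorem fact_top (hk : g.In C.kap) (ha : g.In C.al) :
    ∀ δ < C.al, Lim g.E (RegGe g.E δ) (g.o C.kap) := by
  intro δ hδ
  refine Gen.freg_lim (hδ.trans C.al_lt) (Gen.in_of_countable ha C.al_lt hδ) hk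
    (zero_le.trans_lt C.kin.omega_lt) fun y hy p _ => ?_
  obtain ⟨h₁, h₂, -⟩ := inR_scope p.hr
  rcases eq_zero_or_pos δ with rfl | h0
  · obtain ⟨q, x, k₁, k₂, k₃, k₄, k₅⟩ := top_zero h₁ h₂ hy
    exact ⟨setR p q k₁, setR_le _ _ _, (Order.succ (C.B x)).ord, k₂.trans (freg_lt x),
      freg_lt' C.kin ((lt_add_one x).trans k₃), fun g' n₁ _ n₂ =>
        Gen.freg_zero (reg_succ_pt n₁ (Or.inl (Or.inl k₄)) k₅ n₂)⟩
  · obtain ⟨q, a, x, k₁, k₂, k₃, k₄, k₅, k₆⟩ := top_pos h₁ h₂ hy h0 hδ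
    exact ⟨setR p q k₁, setR_le _ _ _, x, k₂, (lt_add_one x).trans k₅, fun g' n₁ n₂ n₃ =>
      regGe_of_si (hδ.trans C.al_lt) n₁ k₆ k₃ n₃ n₂ k₄⟩

theorem fact_gap (hk : g.In C.kap) (hs : g.In C.s) (ha : g.In C.al) :
    ∀ x, g.E (g.o C.s) x → g.E x (g.o C.kap) → ¬ RegGe g.E C.al x := by
  intro u h₁ h₂ h
  obtain ⟨x, k₁, k₂, rfl⟩ := (Gen.E_o hk).1 h₂
  have k₃ : C.s < x := (Gen.o_lt_iff hs k₂).1 h₁
  have k₄ : ω < x := (Ordinal.omega0_lt_omega_one.trans C.omega1_lt_s).trans k₃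
  exact key k₄ k₁ k₂ (Or.inr ⟨k₃, si_of_regGe C.al_lt C.al_pos k₄ k₁ k₂ ha h⟩)
    (Gen.freg_limReg C.al_pos k₂ k₄ h)

theorem freg_ke_lt {i j : Od} (hi : i < C.ga) (hj : j < C.ga) : C.ke i < C.ke j ↔ i < j := by
  refine ⟨fun h => ?_, fun h => C.ke_mono i j h hj⟩
  rcases lt_trichotomy i j with k | rfl | k
  exacts [k, absurd h (lt_irrefl _), absurd h (C.ke_mono j i k hi).not_gt]

theorem fact_low (hs : g.In C.s) (ha : g.In C.al) (hke : ∀ i < C.ga, g.In (C.ke i)) :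
    Enum g.E (fun x => RegAt g.E C.al x ∧ Leq g.E x (g.o C.s)) C.ga := by
  have hsk : C.s < C.kap := (lt_add_one _).trans C.s_lt
  refine ⟨fun i => g.o (C.ke i.1), fun i j =>
    (Gen.o_lt_iff (hke _ i.2) (hke _ j.2)).trans (freg_ke_lt i.2 j.2), fun u => ⟨?_, ?_⟩⟩
  · rintro ⟨h₁, h₂⟩
    obtain ⟨k₁, k₂, -⟩ := Gen.regAt_iff.1 h₁
    obtain ⟨x, hx, rfl⟩ := Gen.ord_repr k₁.reg.1.1
    have k₃ : x ≤ C.s := (Gen.o_leq_iff hx hs).1 h₂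
    have k₄ : ω < x := lt_of_le_of_ne ((Gen.inf_o hx).1 k₁.reg.2.1) fun e => k₂ (e ▸ g.o_omega)
    obtain ⟨i, hi, rfl⟩ :=
      C.ke_all x k₃ (si_of_regGe C.al_lt C.al_pos k₄ (k₃.trans_lt hsk) hx ha k₁)
    exact ⟨⟨i, hi⟩, rfl⟩
  · rintro ⟨⟨i, hi⟩, rfl⟩
    have hx := hke i hi
    have hS := C.ke_si i hi
    have hI := hS.inac
    have hle := C.ke_le i hi
    refine ⟨Gen.regAt_iff.2 ⟨?_, Gen.freg_ne hx hI.omega_lt, ?_⟩, (Gen.o_leq_iff hx hs).2 hle⟩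
    · exact regGe_of_si C.al_lt g.top
        (freg_intv (inR_scope (⊤ : C.Po).hr).2.2 (by gcongr))
        (zero_le.trans_lt hI.omega_lt) hx ha hS
    · obtain ⟨b, hb, hb'⟩ := hI.bound ((hi.trans C.ga_lt).trans_le (freg_omega1 hI)) C.ke
        fun j hj => C.ke_mono j i hj hi
      refine Gen.freg_not_lim C.al_lt ha hx (max_lt hb hI.omega_lt) fun g' k₁ z k₂ k₃ k₄ k₅ => ?_
      have k₆ : z ≤ C.s := k₃.le.trans hle
      obtain ⟨j, hj, rfl⟩ := C.ke_all z k₆ (si_of_regGe C.al_lt C.al_pos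
        ((le_max_right _ _).trans_lt k₂) (k₆.trans_lt hsk) k₄ k₁ k₅)
      have := hb' j ((freg_ke_lt hj hi).1 k₃)
      have k₇ := (le_max_left _ _).trans_lt k₂
      order

end Ctx

end Pool.Agent.MP_85ce7b_lc

end

section

namespace Pool.Agent.MP_85ce7b_lc

open Pool.Agent.MP_c6cf52_lc Name Set Cardinal Ordinal Dat

namespace Ctx

variable {C : Ctx} {g : Gen C.Po}

theorem fgch_kap {δ : Od} (hδ : δ ∈ C.p0.c) : δ ≤ C.kap := hδ.2.trans C.s_lt.le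

theorem fgch_valid (C : Ctx) : C.Valid C.p0 := C.p0_scope.1.v

theorem fgch_th {x : Od} (hx : x ≤ C.s + 1) : (C.B x).ord < C.th.ord :=
  C.bf.lt_inac C.th_inac ((hx.trans_lt C.s_lt).trans C.k_lt)

/-- Small families of regular open sets are decided below a good point of the trivial condition. -/
theorem capture {δ a : Od} (hδ : Good C.p0 δ) (ha : a.card ≤ C.B δ) (O : Od → C.Po → Prop)
    (mono : ∀ i p q, O i p → q ≤ p → O i q)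
    (reg : ∀ i p, (∀ q ≤ p, ∃ r ≤ q, O i r) → O i p) (π : C.Po) :
    ∃ π' ≤ π, ∃ N : Set (Raw × Od), (∀ z ∈ N, C.LeT δ z.1 C.p0 ∧ z.2 < a) ∧
      ∀ i < a, ∀ ρ ≤ π', C.Has N ρ.r i ↔ O i ρ := by
  have hk := fgch_kap hδ.1
  obtain ⟨σ, h₁, h₂, h₃, H⟩ := redx C.pred_lev_kap (ha.trans (C.bf.mono hk)) O mono π
  have hσ : σ ≤ π := predR_le (y := C.kap) ⟨h₁, h₂, h₃⟩
  have hs := (inR_scope σ.hr).1
  obtain ⟨u, hu', K⟩ := pf_low (C.pp_all C.kap) hs (Or.inl (le_good σ.hr.le hδ)) hk ha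
    (fun i => C.RO C.kap fun r => ∃ h : C.LeT C.kap r σ.r, O i (setR σ r h))
    (fun _ => ro_open C _ _) fun _ => ro_lc C _ _
  have hu : C.LeT C.kap u σ.r := rg_dt_leT hs hu'
  have hu0 : C.InR u := inR_le σ.hr hu
  have hδu : δ ∈ u.c := le_c hu0.le hδ.1
  refine ⟨setR σ u hu, (setR_le σ u hu).trans hσ, {z | ∃ r, C.LeT δ r u ∧
    C.RO C.kap (fun r => ∃ h : C.LeT C.kap r σ.r, O z.2 (setR σ r h)) r ∧ z.2 < a ∧
    z.1 = mix δ r C.p0}, ?_, fun i hi ρ hρ => ⟨?_, fun h => ?_⟩⟩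
  · rintro ⟨_, i⟩ ⟨r, k₁, -, k₂, rfl⟩
    exact ⟨low_leT (le_trans' k₁.le hu0.le) hδ.1, k₂⟩
  · rintro ⟨_, ⟨r, k₁, k₂, -, rfl⟩, k₃⟩
    have k₄ := le_mix (u := u) (inR_scope ρ.hr).1 k₃.le hρ.1 ((rb2_c_ge le_rfl).2 hδ.1) hδu hk
    rw [mix_mix_left, mix_eq_left k₁.ag] at k₄
    refine reg i ρ fun q hq => ?_
    obtain ⟨r₂, l₁, l₂, l₃⟩ := k₂ q.r (leT_trans hq.1 k₄)
    refine ⟨setR q r₂ l₁, setR_le _ _ _, mono i _ _ l₃
      ⟨pred_refl (setR σ r₂ l₂), fun x j c hz => ?_⟩⟩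
    obtain ⟨c', m₁, m₂⟩ := (hq.trans hρ).2 x j c hz
    exact ⟨c', m₁, eqv_mono m₂ l₁⟩
  · have hρσ : ρ ≤ σ := hρ.trans (setR_le σ u hu)
    have k₁ := K i hi ρ.r hρ.1 fun r' hr' => by
      have l₁ : setR ρ r' hr' ≤ σ := (setR_le ρ r' hr').trans hρσ
      have l₂ := H i hi _ l₁ (mono i _ _ h (setR_le ρ r' hr'))
      rw [pred_glue_kap l₁.1] at l₂
      exact ⟨r', pred_refl (setR ρ r' hr'), l₁.1, l₂⟩
    exact ⟨_, ⟨_, low_leT hρ.1.le hδu, k₁, hi, (mix_mix_left δ ρ.r u C.p0).symm⟩,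
      le_low ρ.hr hδ.1 hk⟩

theorem exists_codes {δ a : Od} (hδ : Good C.p0 δ) (ha : a.card ≤ C.B δ) :
    ∃ cd : Od → Set (Raw × Od), ∀ N : Set (Raw × Od), (∀ z ∈ N, C.LeT δ z.1 C.p0 ∧ z.2 < a) →
      ∃ j < (C.B (δ + 1)).ord, cd j = N := by
  obtain ⟨en, hen⟩ := low_enum (C := C) (Or.inl hδ)
  have h₁ : RLs (C.B δ) {q | C.LeT δ q C.p0} :=
    ((RLs.iio (card_ord _).le).image en).mono fun q hq =>
      let ⟨i, k₁, k₂⟩ := hen q hq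
      ⟨i, k₁, k₂⟩
  have h₂ : Cardinal.mk ({q | C.LeT δ q C.p0} ×ˢ Iio a : Set (Raw × Od)) ≤ lift.{2} (C.B δ) :=
    RLs.prod (C.bf.aleph0_le δ) h₁ (RLs.iio ha)
  have h₃ : Cardinal.mk (𝒫 ({q | C.LeT δ q C.p0} ×ˢ Iio a) : Set (Set (Raw × Od))) ≤
      lift.{2} (C.B (δ + 1)) := by
    rw [Cardinal.mk_powerset]
    refine (Cardinal.power_le_power_left two_ne_zero h₂).trans ?_
    rw [← Cardinal.lift_two_power, Cardinal.lift_le]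
    exact C.bf.two_pow_le δ
  obtain ⟨cd, hcd⟩ := exists_enum_of_le h₃
  exact ⟨cd, fun N hN => hcd N hN⟩

theorem fact_gch (hs : g.In C.s) : ∀ m, g.E m (g.o C.s) → IsCard g.E m → Inf g.E m →
    ∃ b D, IsOrd g.E b ∧
    (∀ S, Sub g.E S m → ∃ j, g.E j b ∧ ∀ i, g.E i m → (App g.E D j i ↔ g.E i S)) ∧
    ∀ c₁ c₂ c₃, IsCard g.E c₁ → IsCard g.E c₂ → IsCard g.E c₃ → g.E m c₁ → g.E c₁ c₂ →
      g.E c₂ c₃ → ¬ Leq g.E c₃ b := by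
  intro m hm _ hi
  obtain ⟨a, has, ha, rfl⟩ := (Gen.E_o hs).1 hm
  obtain ⟨z, z₁, z₂⟩ := C.bf.exists_index ((Gen.inf_o ha).1 hi)
  have z₃ : z < C.s := by
    by_contra h
    exact absurd ((C.s_fix.symm.le.trans (rf_ord_mono (not_lt.1 h))).trans z₁) (not_le.2 has)
  have z₄ : z + 1 < C.s := C.s_lim.add_one_lt z₃
  have z₅ : z + 1 + 1 < C.s := C.s_lim.add_one_lt z₄
  have mem : ∀ x < C.s, x ∈ C.p0.c := fun x hx => ⟨zero_le, (hx.trans (lt_add_one _)).le⟩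
  have hδ : Good C.p0 (z + 1) := ⟨mem _ z₄, rfl, z, rfl⟩
  have hac : a.card ≤ C.B (z + 1) := (lt_ord.1 z₂).le
  obtain ⟨cd, hcd⟩ := exists_codes hδ hac
  have hb : (C.B (z + 1 + 1)).ord < (Sz.θ C.Po).ord := fgch_th (mem _ z₅).2
  have hab : a < (C.B (z + 1 + 1)).ord := z₂.trans_le (rf_ord_mono (lt_add_one _).le)
  obtain ⟨τ, hτ⟩ := (fr_R (C := C) (Φ := fun r j i => C.Has (cd j) r i)
    fun _ _ _ _ _ h h' => has_mono h h').name hb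
  refine Gen.dens_o (Ψ := fun _ E w => ∃ b D, IsOrd E b ∧
    (∀ S, Sub E S (w 0) → ∃ j, E j b ∧ ∀ i, E i (w 0) → (App E D j i ↔ E i S)) ∧
    ∀ c₁ c₂ c₃, IsCard E c₁ → IsCard E c₂ → IsCard E c₃ → E (w 0) c₁ → E c₁ c₂ →
      E c₂ c₃ → ¬ Leq E c₃ b) ?_ (Gen.l1 ha.2) fun p _ => ?_
  · repeat' first
      | exact UDef.mem _ _ | exact UD.leq _ _ | exact UD.sub _ _ | exact UD.isCard _
      | exact UD.isOrd _ | exact UDef.app _ _ _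
      | apply UDef.and | apply UDef.iff | apply UDef.not | apply UDef.imp | apply UDef.all
      | apply UDef.ex
  refine ⟨p, le_rfl, {τ}, {(C.B (z + 1 + 1)).ord}, countable_singleton _, countable_singleton _,
    singleton_subset_iff.2 hb, fun g' _ hC hS hl => ?_⟩
  have kτ : τ ∈ g'.N := hC rfl
  have kb := hS _ rfl
  have ka : g'.In a := ⟨ha.1, hl _ (by simp)⟩
  refine ⟨g'.o _, g'.v τ, Gen.isOrd_o kb, fun S _ => ?_, fun c₁ c₂ c₃ e₁ e₂ e₃ f₁ f₂ f₃ f₄ => ?_⟩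
  · obtain ⟨σ, kσ, rfl⟩ := Gen.exists_v S
    refine Gen.dens_o (Ψ := fun _ E w => ∃ j, E j (w 3) ∧
      ∀ i, E i (w 2) → (App E (w 0) j i ↔ E i (w 1)))
      (UDef.ex ((UDef.mem _ _).and (UDef.all ((UDef.mem _ _).imp
        ((UDef.app _ _ _).iff (UDef.mem _ _)))))) (Gen.l4 kτ kσ ka.2 kb.2) fun p₂ _ => ?_
    obtain ⟨π', hπ, N, hN, K⟩ := capture hδ hac (fun i ρ => FMem (oN i) σ ρ)
      (fun _ _ _ h h' => h.mono h') (fun _ _ h => FMem.reg h) p₂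
    obtain ⟨j, hj, rfl⟩ := hcd N hN
    refine ⟨π', hπ, ∅, {j}, countable_empty, countable_singleton _,
      singleton_subset_iff.2 (hj.trans hb), fun g'' hG _ hS' hl' => ?_⟩
    have lj := hS' j rfl
    have lτ : τ ∈ g''.N := hl' _ (by simp)
    have lσ : σ ∈ g''.N := hl' _ (by simp)
    have la : g''.In a := ⟨ha.1, hl' _ (by simp)⟩
    have lb : g''.In _ := ⟨hb, hl' _ (by simp)⟩
    refine ⟨g''.o j, (Gen.o_lt_iff lj lb).2 hj, fun i hi => ?_⟩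
    obtain ⟨i, i₁, i₂, rfl⟩ := (Gen.E_o la).1 hi
    refine (hτ g'' lτ _ _).trans (Iff.trans ?_ (Gen.v_mem_iff i₂.2 lσ).symm)
    constructor
    · rintro ⟨j', -, i', -, m₁, m₂, m₃, m₄, q, hq, m₅⟩
      obtain rfl := Gen.o_inj lj m₁ m₃
      obtain rfl := Gen.o_inj i₂ m₂ m₄
      obtain ⟨r, hr, r₁, r₂⟩ := g''.dir hq hG
      exact ⟨r, hr, (K i i₁ r r₂).1 (has_mono m₅ r₁.1)⟩
    · rintro ⟨q, hq, m₅⟩
      obtain ⟨r, hr, r₁, r₂⟩ := g''.dir hq hG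
      exact ⟨j, hj, i, i₁.trans hab, lj, i₂, rfl, rfl, r, hr, (K i i₁ r r₂).2 (m₅.mono r₁)⟩
  · obtain ⟨x₁, n₁, rfl⟩ := Gen.ord_repr e₁.1
    obtain ⟨x₂, n₂, rfl⟩ := Gen.ord_repr e₂.1
    obtain ⟨x₃, n₃, rfl⟩ := Gen.ord_repr e₃.1
    have t₁ : a < x₁ := (Gen.o_lt_iff ka n₁).1 f₁
    have t₂ := (Gen.o_lt_iff n₁ n₂).1 f₂
    have t₃ := (Gen.o_lt_iff n₂ n₃).1 f₃
    have t₄ := (Gen.o_leq_iff n₃ kb).1 f₄
    have key : ∀ x, a < x → x ≤ x₃ → g'.In x → IsCard g'.E (g'.o x) →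
        x = (Order.succ (C.B z)).ord ∨ x = (Order.succ (C.B (z + 1))).ord := by
      intro x u₁ u₂ u₃ u₄
      rcases le_or_gt x (C.B (z + 1)).ord with h | h
      · exact Or.inl (card_adj g'.top (intv_adj C.fgch_valid (mem _ z₃) (mem _ z₄)) z₃.ne
          (z₁.trans_lt u₁) h u₃ u₄)
      · exact Or.inr (card_adj g'.top (intv_adj C.fgch_valid (mem _ z₄) (mem _ z₅)) z₄.ne
          h (u₂.trans t₄) u₃ u₄)
    have v₁ := key x₁ t₁ (t₂.trans t₃).le n₁ e₁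
    have v₂ := key x₂ (t₁.trans t₂) t₃.le n₂ e₂
    have v₃ := key x₃ ((t₁.trans t₂).trans t₃) le_rfl n₃ e₃
    have w₁ := t₂.ne
    have w₂ := t₃.ne
    have w₃ := (t₂.trans t₃).ne
    rcases v₁ with v₁ | v₁ <;> rcases v₂ with v₂ | v₂ <;> rcases v₃ with v₃ | v₃ <;>
      first
        | exact w₁ (v₁.trans v₂.symm)
        | exact w₂ (v₂.trans v₃.symm)
        | exact w₃ (v₁.trans v₃.symm)

theorem fact_fail (g : Gen C.Po) :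
    ∃ n₀ n₁ n₂ n₃ F, (∃ x, g.E x n₀) ∧ (∀ x, g.E x n₀ → ∃ y, g.E y n₀ ∧ g.E x y) ∧
    g.E n₀ n₁ ∧ g.E n₁ n₂ ∧ g.E n₂ n₃ ∧ IsCard g.E n₁ ∧ IsCard g.E n₂ ∧ IsCard g.E n₃ ∧
    ∀ j j', g.E j n₃ → g.E j' n₃ → j ≠ j' →
      ∃ i, g.E i n₀ ∧ ¬ (App g.E F j i ↔ App g.E F j' i) := by
  have e₃ := C.bf.succ_s
  obtain ⟨k₁, e₁⟩ : ∃ k, k = Order.succ ((2 : Cardinal.{1}) ^ C.B C.s) := ⟨_, rfl⟩
  obtain ⟨k₂, e₂⟩ : ∃ k, k = Order.succ k₁ := ⟨_, rfl⟩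
  rw [← e₁, ← e₂] at e₃
  have c₀ : Order.succ (C.B C.s) ≤ 2 ^ C.B C.s := Order.succ_le_of_lt (Cardinal.cantor _)
  have c₁ : 2 ^ C.B C.s < k₁ := e₁ ▸ Order.lt_succ _
  have c₂ : k₁ < k₂ := e₂ ▸ Order.lt_succ _
  have c₃ : k₂ < C.B (C.s + 1) := e₃ ▸ Order.lt_succ _
  have a₀ : ℵ₀ ≤ 2 ^ C.B C.s := (C.bf.aleph0_le _).trans (Cardinal.cantor _).le
  have r₁ : k₁.IsRegular := e₁ ▸ Cardinal.isRegular_succ a₀
  have r₂ : k₂.IsRegular := e₂ ▸ Cardinal.isRegular_succ (a₀.trans c₁.le)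
  have r₃ : (C.B (C.s + 1)).IsRegular := e₃ ▸ Cardinal.isRegular_succ ((a₀.trans c₁.le).trans c₂.le)
  have hb : (C.B (C.s + 1)).ord < (Sz.θ C.Po).ord := fgch_th le_rfl
  have o₁ : (Order.succ (C.B C.s)).ord < k₁.ord := ord_lt_ord.2 (c₀.trans_lt c₁)
  have o₂ : k₁.ord < k₂.ord := ord_lt_ord.2 c₂
  have o₃ : k₂.ord < (C.B (C.s + 1)).ord := ord_lt_ord.2 c₃
  have o₄ := (o₁.trans o₂).trans o₃
  obtain ⟨τ, hτ⟩ := (fr_R (C := C)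
    (Φ := fun r j i => ((Order.succ (C.B C.s)).ord * j + i, (0 : Od)) ∈ r.h C.s)
    fun _ _ _ _ _ h h' => le_h h'.le _ h).name hb
  refine Gen.dens_o (l := []) (Ψ := fun _ E _ => ∃ n₀ n₁ n₂ n₃ F, (∃ x, E x n₀) ∧
    (∀ x, E x n₀ → ∃ y, E y n₀ ∧ E x y) ∧ E n₀ n₁ ∧ E n₁ n₂ ∧ E n₂ n₃ ∧ IsCard E n₁ ∧
    IsCard E n₂ ∧ IsCard E n₃ ∧ ∀ j j', E j n₃ → E j' n₃ → j ≠ j' →
      ∃ i, E i n₀ ∧ ¬ (App E F j i ↔ App E F j' i)) ?_ (by simp) fun p _ => ?_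
  · repeat' first
      | exact UDef.mem _ _ | exact UDef.ne _ _ | exact UD.isCard _ | exact UDef.app _ _ _
      | apply UDef.and | apply UDef.iff | apply UDef.not | apply UDef.imp | apply UDef.all
      | apply UDef.ex
  refine ⟨p, le_rfl, {τ}, {(Order.succ (C.B C.s)).ord, k₁.ord, k₂.ord, (C.B (C.s + 1)).ord},
    countable_singleton _, (toFinite _).countable, ?_, fun g' _ hC hS _ => ?_⟩
  · rintro _ (rfl | rfl | rfl | rfl)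
    exacts [o₄.trans hb, (o₂.trans o₃).trans hb, o₃.trans hb, hb]
  have kτ : τ ∈ g'.N := hC rfl
  have n₀ := hS (Order.succ (C.B C.s)).ord (by simp)
  have n₁ := hS k₁.ord (by simp)
  have n₂ := hS k₂.ord (by simp)
  have n₃ := hS (C.B (C.s + 1)).ord (by simp)
  refine ⟨g'.o _, g'.o _, g'.o _, g'.o _, g'.v τ,
    ⟨_, (Gen.o_lt_iff (g'.in_nat 0) n₀).2 (by simp)⟩, fun x hx => ?_,
    (Gen.o_lt_iff n₀ n₁).2 o₁, (Gen.o_lt_iff n₁ n₂).2 o₂, (Gen.o_lt_iff n₂ n₃).2 o₃,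
    (reg_cc r₁ c₁ (c₂.trans c₃).le n₁).1, (reg_cc r₂ (c₁.trans c₂) c₃.le n₂).1,
    (reg_cc r₃ ((c₁.trans c₂).trans c₃) le_rfl n₃).1, fun j j' hj hj' hne => ?_⟩
  · obtain ⟨i, i₁, i₂, rfl⟩ := (Gen.E_o n₀).1 hx
    exact ⟨_, (Gen.o_lt_iff (Gen.in_succ i₂) n₀).2 ((C.pred_lim C.s).add_one_lt i₁),
      (Gen.o_lt_iff i₂ (Gen.in_succ i₂)).2 (lt_add_one i)⟩
  obtain ⟨x, x₁, x₂, rfl⟩ := (Gen.E_o n₃).1 hj
  obtain ⟨y, y₁, y₂, rfl⟩ := (Gen.E_o n₃).1 hj'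
  have hxy : x ≠ y := fun e => hne (e ▸ rfl)
  refine Gen.dens_o (Ψ := fun _ E w => ∃ i, E i (w 3) ∧
    ¬ (App E (w 0) (w 1) i ↔ App E (w 0) (w 2) i))
    (UDef.ex ((UDef.mem _ _).and ((UDef.app _ _ _).iff (UDef.app _ _ _)).not))
    (Gen.l4 kτ x₂.2 y₂.2 n₀.2) fun p₂ _ => ?_
  obtain ⟨s₁, -, s₂, -⟩ := inR_scope p₂.hr
  obtain ⟨r', hr', i, hi, m₁, m₂⟩ := fail_dense s₁ s₂ C.s_lt.le x₁ y₁ hxy
  refine ⟨setR p₂ r' hr', setR_le _ _ _, ∅, {i}, countable_empty, countable_singleton _,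
    singleton_subset_iff.2 (hi.trans n₀.1), fun g'' hG _ hS' hl' => ?_⟩
  have li := hS' i rfl
  have lτ : τ ∈ g''.N := hl' _ (by simp)
  have lx : g''.In x := ⟨x₂.1, hl' _ (by simp)⟩
  have ly : g''.In y := ⟨y₂.1, hl' _ (by simp)⟩
  have l₀ : g''.In _ := ⟨n₀.1, hl' _ (by simp)⟩
  refine ⟨g''.o i, (Gen.o_lt_iff li l₀).2 hi, fun h => ?_⟩
  obtain ⟨y', -, i', -, u₁, u₂, u₃, u₄, q, hq, u₅⟩ := (hτ g'' lτ _ _).1 (h.1
    ((hτ g'' lτ _ _).2 ⟨x, x₁, i, hi.trans o₄, lx, li, rfl, rfl, _, hG, m₁⟩))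
  obtain rfl := Gen.o_inj ly u₁ u₃
  obtain rfl := Gen.o_inj li u₂ u₄
  obtain ⟨r, -, v₁, v₂⟩ := g''.dir hq hG
  exact zero_ne_one (((inR_scope r.hr).1.v.col C.s).fn _ _ _ (le_h v₁.1.le _ u₅)
    (le_h v₂.1.le _ m₂))

end Ctx

end Pool.Agent.MP_85ce7b_lc

end
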